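import Pool.Agent.Lib.MP_755cca_al.F.Dat

/-! The tables. -/

namespace Pool.Agent.Lib.MP_755cca_al.F

/-- first block = standard rep, x = 1 + single i j t -/
def datA2 : Dat where
  n := 2
  r := 1
  N := 2
  X := [[(0, 0, 1, []), (0, 1, 1, [0]), (1, 1, 1, []), (2, 2, 1, [])],
    [(0, 0, 1, []), (1, 1, 1, []), (1, 2, 1, [0]), (2, 2, 1, [])],
    [(0, 0, 1, []), (0, 2, 1, [0]), (1, 1, 1, []), (2, 2, 1, [])]]
  P := [[(0, 0, 1, [0]), (0, 1, 1, [1]), (1, 0, 1, [2]), (1, 1, 1, [3]), (2, 2, 1, [])],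
    [(0, 0, 1, []), (1, 1, 1, [0]), (1, 2, 1, [1]), (2, 1, 1, [2]), (2, 2, 1, [3])]]
  s := [0, 1]
  ct := [[[], [1, 2], [2]], [[0, 2], [], [2]]]
  rho := [[0, 2, 1], [2, 1, 0]]
  sg := [[1, 0, 2], [0, 2, 1]]
  A := [0, 1]
  Cl := [[0], [0, 1]]
  Rw := [[2], [1, 2]]
  R1 := [1, 0]
  col := [true, false]
  wl := [0]
  mid := [1]
  bl := [0]
  bk := [1]
  st := [1, 0]
  nu := [[1, 0], [0, 0]]

/-- first block = standard rep, x = 1 + single i j t -/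
def datA3 : Dat where
  n := 3
  r := 2
  N := 5
  X := [[(0, 0, 1, []), (0, 1, 1, [0]), (1, 1, 1, []), (2, 2, 1, []), (3, 3, 1, [])],
    [(0, 0, 1, []), (1, 1, 1, []), (1, 2, 1, [0]), (2, 2, 1, []), (3, 3, 1, [])],
    [(0, 0, 1, []), (1, 1, 1, []), (2, 2, 1, []), (2, 3, 1, [0]), (3, 3, 1, [])],
    [(0, 0, 1, []), (0, 2, 1, [0]), (1, 1, 1, []), (2, 2, 1, []), (3, 3, 1, [])],
    [(0, 0, 1, []), (1, 1, 1, []), (1, 3, 1, [0]), (2, 2, 1, []), (3, 3, 1, [])],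
    [(0, 0, 1, []), (0, 3, 1, [0]), (1, 1, 1, []), (2, 2, 1, []), (3, 3, 1, [])]]
  P := [[(0, 0, 1, [0]), (0, 1, 1, [1]), (1, 0, 1, [2]), (1, 1, 1, [3]), (2, 2, 1, []), (3, 3, 1, [])],
    [(0, 0, 1, []), (1, 1, 1, [0]), (1, 2, 1, [1]), (2, 1, 1, [2]), (2, 2, 1, [3]), (3, 3, 1, [])],
    [(0, 0, 1, []), (1, 1, 1, []), (2, 2, 1, [0]), (2, 3, 1, [1]), (3, 2, 1, [2]), (3, 3, 1, [3])]]
  s := [0, 1, 2]
  ct := [[[], [1, 3], [2], [3], [4, 5], [5]], [[0, 3], [], [2, 4], [3], [4], [5]], [[0], [1, 4], [], [3, 5], [4], [5]]]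
  rho := [[0, 3, 2, 1, 5, 4], [3, 1, 4, 0, 2, 5], [0, 4, 2, 5, 1, 3]]
  sg := [[1, 0, 2, 3], [0, 2, 1, 3], [0, 1, 3, 2]]
  A := [0, 1, 2]
  Cl := [[0], [0, 1], [0, 1, 2]]
  Rw := [[3], [2, 3], [1, 2, 3]]
  R1 := [2, 1, 0]
  col := [true, false, true]
  wl := [0, 2]
  mid := [1, 0, 2]
  bl := [1]
  bk := [1]
  st := [2, 1, 0]
  nu := [[0, 0, 0], [1, 0, 1], [0, 0, 0]]

/-- first block = standard rep, x = 1 + single i j t, second block = dual rep with reversed basis -/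
def datA5 : Dat where
  n := 11
  r := 4
  N := 14
  X := [[(0, 0, 1, []), (0, 1, 1, [0]), (1, 1, 1, []), (2, 2, 1, []), (3, 3, 1, []), (4, 4, 1, []), (5, 5, 1, []), (6, 6, 1, []), (7, 7, 1, []), (8, 8, 1, []), (9, 9, 1, []), (10, 10, 1, []), (10, 11, -1, [0]), (11, 11, 1, [])],
    [(0, 0, 1, []), (1, 1, 1, []), (1, 2, 1, [0]), (2, 2, 1, []), (3, 3, 1, []), (4, 4, 1, []), (5, 5, 1, []), (6, 6, 1, []), (7, 7, 1, []), (8, 8, 1, []), (9, 9, 1, []), (9, 10, -1, [0]), (10, 10, 1, []), (11, 11, 1, [])],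
    [(0, 0, 1, []), (1, 1, 1, []), (2, 2, 1, []), (2, 3, 1, [0]), (3, 3, 1, []), (4, 4, 1, []), (5, 5, 1, []), (6, 6, 1, []), (7, 7, 1, []), (8, 8, 1, []), (8, 9, -1, [0]), (9, 9, 1, []), (10, 10, 1, []), (11, 11, 1, [])],
    [(0, 0, 1, []), (1, 1, 1, []), (2, 2, 1, []), (3, 3, 1, []), (3, 4, 1, [0]), (4, 4, 1, []), (5, 5, 1, []), (6, 6, 1, []), (7, 7, 1, []), (7, 8, -1, [0]), (8, 8, 1, []), (9, 9, 1, []), (10, 10, 1, []), (11, 11, 1, [])],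
    [(0, 0, 1, []), (1, 1, 1, []), (2, 2, 1, []), (3, 3, 1, []), (4, 4, 1, []), (4, 5, 1, [0]), (5, 5, 1, []), (6, 6, 1, []), (6, 7, -1, [0]), (7, 7, 1, []), (8, 8, 1, []), (9, 9, 1, []), (10, 10, 1, []), (11, 11, 1, [])],
    [(0, 0, 1, []), (0, 2, 1, [0]), (1, 1, 1, []), (2, 2, 1, []), (3, 3, 1, []), (4, 4, 1, []), (5, 5, 1, []), (6, 6, 1, []), (7, 7, 1, []), (8, 8, 1, []), (9, 9, 1, []), (9, 11, -1, [0]), (10, 10, 1, []), (11, 11, 1, [])],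
    [(0, 0, 1, []), (1, 1, 1, []), (1, 3, 1, [0]), (2, 2, 1, []), (3, 3, 1, []), (4, 4, 1, []), (5, 5, 1, []), (6, 6, 1, []), (7, 7, 1, []), (8, 8, 1, []), (8, 10, -1, [0]), (9, 9, 1, []), (10, 10, 1, []), (11, 11, 1, [])],
    [(0, 0, 1, []), (1, 1, 1, []), (2, 2, 1, []), (2, 4, 1, [0]), (3, 3, 1, []), (4, 4, 1, []), (5, 5, 1, []), (6, 6, 1, []), (7, 7, 1, []), (7, 9, -1, [0]), (8, 8, 1, []), (9, 9, 1, []), (10, 10, 1, []), (11, 11, 1, [])],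
    [(0, 0, 1, []), (1, 1, 1, []), (2, 2, 1, []), (3, 3, 1, []), (3, 5, 1, [0]), (4, 4, 1, []), (5, 5, 1, []), (6, 6, 1, []), (6, 8, -1, [0]), (7, 7, 1, []), (8, 8, 1, []), (9, 9, 1, []), (10, 10, 1, []), (11, 11, 1, [])],
    [(0, 0, 1, []), (0, 3, 1, [0]), (1, 1, 1, []), (2, 2, 1, []), (3, 3, 1, []), (4, 4, 1, []), (5, 5, 1, []), (6, 6, 1, []), (7, 7, 1, []), (8, 8, 1, []), (8, 11, -1, [0]), (9, 9, 1, []), (10, 10, 1, []), (11, 11, 1, [])],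
    [(0, 0, 1, []), (1, 1, 1, []), (1, 4, 1, [0]), (2, 2, 1, []), (3, 3, 1, []), (4, 4, 1, []), (5, 5, 1, []), (6, 6, 1, []), (7, 7, 1, []), (7, 10, -1, [0]), (8, 8, 1, []), (9, 9, 1, []), (10, 10, 1, []), (11, 11, 1, [])],
    [(0, 0, 1, []), (1, 1, 1, []), (2, 2, 1, []), (2, 5, 1, [0]), (3, 3, 1, []), (4, 4, 1, []), (5, 5, 1, []), (6, 6, 1, []), (6, 9, -1, [0]), (7, 7, 1, []), (8, 8, 1, []), (9, 9, 1, []), (10, 10, 1, []), (11, 11, 1, [])],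
    [(0, 0, 1, []), (0, 4, 1, [0]), (1, 1, 1, []), (2, 2, 1, []), (3, 3, 1, []), (4, 4, 1, []), (5, 5, 1, []), (6, 6, 1, []), (7, 7, 1, []), (7, 11, -1, [0]), (8, 8, 1, []), (9, 9, 1, []), (10, 10, 1, []), (11, 11, 1, [])],
    [(0, 0, 1, []), (1, 1, 1, []), (1, 5, 1, [0]), (2, 2, 1, []), (3, 3, 1, []), (4, 4, 1, []), (5, 5, 1, []), (6, 6, 1, []), (6, 10, -1, [0]), (7, 7, 1, []), (8, 8, 1, []), (9, 9, 1, []), (10, 10, 1, []), (11, 11, 1, [])],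
    [(0, 0, 1, []), (0, 5, 1, [0]), (1, 1, 1, []), (2, 2, 1, []), (3, 3, 1, []), (4, 4, 1, []), (5, 5, 1, []), (6, 6, 1, []), (6, 11, -1, [0]), (7, 7, 1, []), (8, 8, 1, []), (9, 9, 1, []), (10, 10, 1, []), (11, 11, 1, [])]]
  P := [[(0, 0, 1, [0]), (0, 1, 1, [1]), (1, 0, 1, [2]), (1, 1, 1, [3]), (2, 2, 1, []), (3, 3, 1, []), (4, 4, 1, []), (5, 5, 1, []), (6, 6, 1, []), (7, 7, 1, []), (8, 8, 1, []), (9, 9, 1, []), (10, 10, 1, [0]), (10, 11, -1, [1]), (11, 10, -1, [2]), (11, 11, 1, [3])],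
    [(0, 0, 1, []), (1, 1, 1, [0]), (1, 2, 1, [1]), (2, 1, 1, [2]), (2, 2, 1, [3]), (3, 3, 1, []), (4, 4, 1, []), (5, 5, 1, []), (6, 6, 1, []), (7, 7, 1, []), (8, 8, 1, []), (9, 9, 1, [0]), (9, 10, -1, [1]), (10, 9, -1, [2]), (10, 10, 1, [3]), (11, 11, 1, [])],
    [(0, 0, 1, []), (1, 1, 1, []), (2, 2, 1, [0]), (2, 3, 1, [1]), (3, 2, 1, [2]), (3, 3, 1, [3]), (4, 4, 1, []), (5, 5, 1, []), (6, 6, 1, []), (7, 7, 1, []), (8, 8, 1, [0]), (8, 9, -1, [1]), (9, 8, -1, [2]), (9, 9, 1, [3]), (10, 10, 1, []), (11, 11, 1, [])],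
    [(0, 0, 1, []), (1, 1, 1, []), (2, 2, 1, []), (3, 3, 1, [0]), (3, 4, 1, [1]), (4, 3, 1, [2]), (4, 4, 1, [3]), (5, 5, 1, []), (6, 6, 1, []), (7, 7, 1, [0]), (7, 8, -1, [1]), (8, 7, -1, [2]), (8, 8, 1, [3]), (9, 9, 1, []), (10, 10, 1, []), (11, 11, 1, [])],
    [(0, 0, 1, []), (1, 1, 1, []), (2, 2, 1, []), (3, 3, 1, []), (4, 4, 1, [0]), (4, 5, 1, [1]), (5, 4, 1, [2]), (5, 5, 1, [3]), (6, 6, 1, [0]), (6, 7, -1, [1]), (7, 6, -1, [2]), (7, 7, 1, [3]), (8, 8, 1, []), (9, 9, 1, []), (10, 10, 1, []), (11, 11, 1, [])]]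
  s := [0, 1, 2, 3, 4]
  ct := [[[], [1, 5], [2], [3], [4], [5], [6, 9], [7], [8], [9], [10, 12], [11], [12], [13, 14], [14]], [[0, 5], [], [2, 6], [3], [4], [5], [6], [7, 10], [8], [9], [10], [11, 13], [12], [13], [14]], [[0], [1, 6], [], [3, 7], [4], [5, 9], [6], [7], [8, 11], [9], [10], [11], [12], [13], [14]], [[0], [1], [2, 7], [], [4, 8], [5], [6, 10], [7], [8], [9, 12], [10], [11], [12], [13], [14]], [[0], [1], [2], [3, 8], [], [5], [6], [7, 11], [8], [9], [10, 13], [11], [12, 14], [13], [14]]]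
  rho := [[0, 5, 2, 3, 4, 1, 9, 7, 8, 6, 12, 11, 10, 14, 13], [5, 1, 6, 3, 4, 0, 2, 10, 8, 9, 7, 13, 12, 11, 14], [0, 6, 2, 7, 4, 9, 1, 3, 11, 5, 10, 8, 12, 13, 14], [0, 1, 7, 3, 8, 5, 10, 2, 4, 12, 6, 11, 9, 13, 14], [0, 1, 2, 8, 4, 5, 6, 11, 3, 9, 13, 7, 14, 10, 12]]
  sg := [[1, 0, 2, 3, 4, 5, 6, 7, 8, 9, 11, 10], [0, 2, 1, 3, 4, 5, 6, 7, 8, 10, 9, 11], [0, 1, 3, 2, 4, 5, 6, 7, 9, 8, 10, 11], [0, 1, 2, 4, 3, 5, 6, 8, 7, 9, 10, 11], [0, 1, 2, 3, 5, 4, 7, 6, 8, 9, 10, 11]]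
  A := [0, 1, 2, 3, 4]
  Cl := [[0], [0, 1], [0, 1, 2], [6, 7], [6]]
  Rw := [[5], [4, 5], [3, 4, 5], [10, 11], [11]]
  R1 := [4, 3, 2, 9, 10]
  col := [true, false, true, false, true]
  wl := [0, 2, 4]
  mid := [1, 3, 0, 2, 4, 1, 3, 0, 2, 4]
  bl := [1, 3]
  bk := [3, 1]
  st := [4, 3, 2, 1, 0]
  nu := [[0, 0, 0, 0, 0], [0, 0, 1, 0, 1], [0, 0, 0, 0, 0], [1, 0, 1, 0, 0], [0, 0, 0, 0, 0]]

/-- index i<l is inl i, index 2l-1-i is inr i -/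
def datC2 : Dat where
  n := 3
  r := 1
  N := 3
  X := [[(0, 0, 1, []), (0, 1, 1, [0]), (1, 1, 1, []), (2, 2, 1, []), (2, 3, -1, [0]), (3, 3, 1, [])],
    [(0, 0, 1, []), (1, 1, 1, []), (1, 2, 1, [0]), (2, 2, 1, []), (3, 3, 1, [])],
    [(0, 0, 1, []), (0, 2, 1, [0]), (1, 1, 1, []), (1, 3, 1, [0]), (2, 2, 1, []), (3, 3, 1, [])],
    [(0, 0, 1, []), (0, 3, 1, [0]), (1, 1, 1, []), (2, 2, 1, []), (3, 3, 1, [])]]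
  P := [[(0, 0, 1, [0]), (0, 1, 1, [1]), (1, 0, 1, [2]), (1, 1, 1, [3]), (2, 2, 1, [0]), (2, 3, -1, [1]), (3, 2, -1, [2]), (3, 3, 1, [3])],
    [(0, 0, 1, []), (1, 1, 1, [0]), (1, 2, 1, [1]), (2, 1, 1, [2]), (2, 2, 1, [3]), (3, 3, 1, [])]]
  s := [0, 1]
  ct := [[[], [1, 2, 3], [2, 3], [3]], [[0, 2, 3], [], [2], [3]]]
  rho := [[0, 3, 2, 1], [2, 1, 0, 3]]
  sg := [[1, 0, 3, 2], [0, 2, 1, 3]]
  A := [0, 1]
  Cl := [[0], [0, 1]]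
  Rw := [[3], [2, 3]]
  R1 := [2, 1]
  col := [true, false]
  wl := [0]
  mid := [1, 0]
  bl := [1]
  bk := [1]
  st := [0, 1]
  nu := [[0, 0], [2, 0]]

/-- index i<l is inl i, index 2l-1-i is inr i -/
def datC3 : Dat where
  n := 5
  r := 2
  N := 8
  X := [[(0, 0, 1, []), (0, 1, 1, [0]), (1, 1, 1, []), (2, 2, 1, []), (3, 3, 1, []), (4, 4, 1, []), (4, 5, -1, [0]), (5, 5, 1, [])],
    [(0, 0, 1, []), (1, 1, 1, []), (1, 2, 1, [0]), (2, 2, 1, []), (3, 3, 1, []), (3, 4, -1, [0]), (4, 4, 1, []), (5, 5, 1, [])],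
    [(0, 0, 1, []), (1, 1, 1, []), (2, 2, 1, []), (2, 3, 1, [0]), (3, 3, 1, []), (4, 4, 1, []), (5, 5, 1, [])],
    [(0, 0, 1, []), (0, 2, 1, [0]), (1, 1, 1, []), (2, 2, 1, []), (3, 3, 1, []), (3, 5, -1, [0]), (4, 4, 1, []), (5, 5, 1, [])],
    [(0, 0, 1, []), (1, 1, 1, []), (1, 3, 1, [0]), (2, 2, 1, []), (2, 4, 1, [0]), (3, 3, 1, []), (4, 4, 1, []), (5, 5, 1, [])],
    [(0, 0, 1, []), (0, 3, 1, [0]), (1, 1, 1, []), (2, 2, 1, []), (2, 5, 1, [0]), (3, 3, 1, []), (4, 4, 1, []), (5, 5, 1, [])],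
    [(0, 0, 1, []), (1, 1, 1, []), (1, 4, 1, [0]), (2, 2, 1, []), (3, 3, 1, []), (4, 4, 1, []), (5, 5, 1, [])],
    [(0, 0, 1, []), (0, 4, 1, [0]), (1, 1, 1, []), (1, 5, 1, [0]), (2, 2, 1, []), (3, 3, 1, []), (4, 4, 1, []), (5, 5, 1, [])],
    [(0, 0, 1, []), (0, 5, 1, [0]), (1, 1, 1, []), (2, 2, 1, []), (3, 3, 1, []), (4, 4, 1, []), (5, 5, 1, [])]]
  P := [[(0, 0, 1, [0]), (0, 1, 1, [1]), (1, 0, 1, [2]), (1, 1, 1, [3]), (2, 2, 1, []), (3, 3, 1, []), (4, 4, 1, [0]), (4, 5, -1, [1]), (5, 4, -1, [2]), (5, 5, 1, [3])],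
    [(0, 0, 1, []), (1, 1, 1, [0]), (1, 2, 1, [1]), (2, 1, 1, [2]), (2, 2, 1, [3]), (3, 3, 1, [0]), (3, 4, -1, [1]), (4, 3, -1, [2]), (4, 4, 1, [3]), (5, 5, 1, [])],
    [(0, 0, 1, []), (1, 1, 1, []), (2, 2, 1, [0]), (2, 3, 1, [1]), (3, 2, 1, [2]), (3, 3, 1, [3]), (4, 4, 1, []), (5, 5, 1, [])]]
  s := [0, 1, 2]
  ct := [[[], [1, 3], [2], [3], [4, 5], [5], [6, 7, 8], [7, 8], [8]], [[0, 3], [], [2, 4, 6], [3], [4, 6], [5, 7], [6], [7], [8]], [[0], [1, 4, 6], [], [3, 5, 8], [4], [5], [6], [7], [8]]]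
  rho := [[0, 3, 2, 1, 5, 4, 8, 7, 6], [3, 1, 6, 0, 4, 7, 2, 5, 8], [0, 4, 2, 5, 1, 3, 6, 7, 8]]
  sg := [[1, 0, 2, 3, 5, 4], [0, 2, 1, 4, 3, 5], [0, 1, 3, 2, 4, 5]]
  A := [0, 1, 2]
  Cl := [[0], [0, 1], [0, 1, 2]]
  Rw := [[5], [4, 5], [3, 4, 5]]
  R1 := [4, 3, 2]
  col := [true, false, true]
  wl := [0, 2]
  mid := [1, 0, 2, 1, 0, 2]
  bl := [1]
  bk := [1]
  st := [0, 1, 2]
  nu := [[0, 0, 0], [1, 0, 1], [0, 0, 0]]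

/-- first 8 indices = subsets (bit masks) [7, 3, 5, 1, 6, 2, 4, 0] of the Jordan-Wigner basis, then the vector rep of D4 -/
def datB3 : Dat where
  n := 15
  r := 2
  N := 8
  X := [[(0, 0, 1, []), (1, 1, 1, []), (2, 2, 1, []), (2, 4, 1, [0]), (3, 3, 1, []), (3, 5, 1, [0]), (4, 4, 1, []), (5, 5, 1, []), (6, 6, 1, []), (7, 7, 1, []), (8, 8, 1, []), (8, 9, 1, [0]), (9, 9, 1, []), (10, 10, 1, []), (11, 11, 1, []), (12, 12, 1, []), (13, 13, 1, []), (14, 14, 1, []), (14, 15, -1, [0]), (15, 15, 1, [])],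
    [(0, 0, 1, []), (1, 1, 1, []), (1, 2, 1, [0]), (2, 2, 1, []), (3, 3, 1, []), (4, 4, 1, []), (5, 5, 1, []), (5, 6, 1, [0]), (6, 6, 1, []), (7, 7, 1, []), (8, 8, 1, []), (9, 9, 1, []), (9, 10, 1, [0]), (10, 10, 1, []), (11, 11, 1, []), (12, 12, 1, []), (13, 13, 1, []), (13, 14, -1, [0]), (14, 14, 1, []), (15, 15, 1, [])],
    [(0, 0, 1, []), (0, 1, 1, [0]), (1, 1, 1, []), (2, 2, 1, []), (2, 3, -1, [0]), (3, 3, 1, []), (4, 4, 1, []), (4, 5, -1, [0]), (5, 5, 1, []), (6, 6, 1, []), (6, 7, 1, [0]), (7, 7, 1, []), (8, 8, 1, []), (9, 9, 1, []), (10, 10, 1, []), (10, 11, 1, [0]), (10, 12, 1, [0]), (10, 13, -1, [0, 0]), (11, 11, 1, []), (11, 13, -1, [0]), (12, 12, 1, []), (12, 13, -1, [0]), (13, 13, 1, []), (14, 14, 1, []), (15, 15, 1, [])],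
    [(0, 0, 1, []), (1, 1, 1, []), (1, 4, -1, [0]), (2, 2, 1, []), (3, 3, 1, []), (3, 6, 1, [0]), (4, 4, 1, []), (5, 5, 1, []), (6, 6, 1, []), (7, 7, 1, []), (8, 8, 1, []), (8, 10, 1, [0]), (9, 9, 1, []), (10, 10, 1, []), (11, 11, 1, []), (12, 12, 1, []), (13, 13, 1, []), (13, 15, -1, [0]), (14, 14, 1, []), (15, 15, 1, [])],
    [(0, 0, 1, []), (0, 2, -1, [0]), (1, 1, 1, []), (1, 3, -1, [0]), (2, 2, 1, []), (3, 3, 1, []), (4, 4, 1, []), (4, 6, 1, [0]), (5, 5, 1, []), (5, 7, 1, [0]), (6, 6, 1, []), (7, 7, 1, []), (8, 8, 1, []), (9, 9, 1, []), (9, 11, 1, [0]), (9, 12, 1, [0]), (9, 14, -1, [0, 0]), (10, 10, 1, []), (11, 11, 1, []), (11, 14, -1, [0]), (12, 12, 1, []), (12, 14, -1, [0]), (13, 13, 1, []), (14, 14, 1, []), (15, 15, 1, [])],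
    [(0, 0, 1, []), (0, 4, 1, [0]), (1, 1, 1, []), (1, 5, 1, [0]), (2, 2, 1, []), (2, 6, 1, [0]), (3, 3, 1, []), (3, 7, 1, [0]), (4, 4, 1, []), (5, 5, 1, []), (6, 6, 1, []), (7, 7, 1, []), (8, 8, 1, []), (8, 11, 1, [0]), (8, 12, 1, [0]), (8, 15, -1, [0, 0]), (9, 9, 1, []), (10, 10, 1, []), (11, 11, 1, []), (11, 15, -1, [0]), (12, 12, 1, []), (12, 15, -1, [0]), (13, 13, 1, []), (14, 14, 1, []), (15, 15, 1, [])],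
    [(0, 0, 1, []), (0, 3, 1, [0]), (1, 1, 1, []), (2, 2, 1, []), (3, 3, 1, []), (4, 4, 1, []), (4, 7, 1, [0]), (5, 5, 1, []), (6, 6, 1, []), (7, 7, 1, []), (8, 8, 1, []), (9, 9, 1, []), (9, 13, -1, [0]), (10, 10, 1, []), (10, 14, 1, [0]), (11, 11, 1, []), (12, 12, 1, []), (13, 13, 1, []), (14, 14, 1, []), (15, 15, 1, [])],
    [(0, 0, 1, []), (0, 5, -1, [0]), (1, 1, 1, []), (2, 2, 1, []), (2, 7, 1, [0]), (3, 3, 1, []), (4, 4, 1, []), (5, 5, 1, []), (6, 6, 1, []), (7, 7, 1, []), (8, 8, 1, []), (8, 13, -1, [0]), (9, 9, 1, []), (10, 10, 1, []), (10, 15, 1, [0]), (11, 11, 1, []), (12, 12, 1, []), (13, 13, 1, []), (14, 14, 1, []), (15, 15, 1, [])],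
    [(0, 0, 1, []), (0, 6, 1, [0]), (1, 1, 1, []), (1, 7, 1, [0]), (2, 2, 1, []), (3, 3, 1, []), (4, 4, 1, []), (5, 5, 1, []), (6, 6, 1, []), (7, 7, 1, []), (8, 8, 1, []), (8, 14, -1, [0]), (9, 9, 1, []), (9, 15, 1, [0]), (10, 10, 1, []), (11, 11, 1, []), (12, 12, 1, []), (13, 13, 1, []), (14, 14, 1, []), (15, 15, 1, [])]]
  P := [[(0, 0, 1, []), (1, 1, 1, []), (2, 2, 1, [0]), (2, 4, 1, [1]), (3, 3, 1, [0]), (3, 5, 1, [1]), (4, 2, 1, [2]), (4, 4, 1, [3]), (5, 3, 1, [2]), (5, 5, 1, [3]), (6, 6, 1, []), (7, 7, 1, []), (8, 8, 1, [0]), (8, 9, 1, [1]), (9, 8, 1, [2]), (9, 9, 1, [3]), (10, 10, 1, []), (11, 11, 1, []), (12, 12, 1, []), (13, 13, 1, []), (14, 14, 1, [0]), (14, 15, -1, [1]), (15, 14, -1, [2]), (15, 15, 1, [3])],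
    [(0, 0, 1, []), (1, 1, 1, [0]), (1, 2, 1, [1]), (2, 1, 1, [2]), (2, 2, 1, [3]), (3, 3, 1, []), (4, 4, 1, []), (5, 5, 1, [0]), (5, 6, 1, [1]), (6, 5, 1, [2]), (6, 6, 1, [3]), (7, 7, 1, []), (8, 8, 1, []), (9, 9, 1, [0]), (9, 10, 1, [1]), (10, 9, 1, [2]), (10, 10, 1, [3]), (11, 11, 1, []), (12, 12, 1, []), (13, 13, 1, [0]), (13, 14, -1, [1]), (14, 13, -1, [2]), (14, 14, 1, [3]), (15, 15, 1, [])],
    [(0, 0, 1, [0]), (0, 1, 1, [1]), (1, 0, 1, [2]), (1, 1, 1, [3]), (2, 2, 1, [0]), (2, 3, -1, [1]), (3, 2, -1, [2]), (3, 3, 1, [3]), (4, 4, 1, [0]), (4, 5, -1, [1]), (5, 4, -1, [2]), (5, 5, 1, [3]), (6, 6, 1, [0]), (6, 7, 1, [1]), (7, 6, 1, [2]), (7, 7, 1, [3]), (8, 8, 1, []), (9, 9, 1, []), (10, 10, 1, [0, 0]), (10, 11, 1, [0, 1]), (10, 12, 1, [0, 1]), (10, 13, -1, [1, 1]), (11, 10, 1, [0, 2]), (11, 11, 1, [0, 3]), (11,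 12, 1, [1, 2]), (11, 13, -1, [1, 3]), (12, 10, 1, [0, 2]), (12, 11, 1, [1, 2]), (12, 12, 1, [0, 3]), (12, 13, -1, [1, 3]), (13, 10, -1, [2, 2]), (13, 11, -1, [2, 3]), (13, 12, -1, [2, 3]), (13, 13, 1, [3, 3]), (14, 14, 1, []), (15, 15, 1, [])]]
  s := [0, 1, 2]
  ct := [[[], [1, 3], [2], [3], [4, 5, 8], [5], [6, 7], [7], [8]], [[0, 3], [], [2, 4, 6], [3], [4], [5], [6], [7, 8], [8]], [[0], [1, 4, 6], [], [3, 5, 7], [4, 6], [5, 7], [6], [7], [8]]]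
  rho := [[0, 3, 2, 1, 5, 4, 7, 6, 8], [3, 1, 4, 0, 2, 5, 6, 8, 7], [0, 6, 2, 7, 4, 5, 1, 3, 8]]
  sg := [[0, 1, 4, 5, 2, 3, 6, 7, 9, 8, 10, 11, 12, 13, 15, 14], [0, 2, 1, 3, 4, 6, 5, 7, 8, 10, 9, 11, 12, 14, 13, 15], [1, 0, 3, 2, 5, 4, 7, 6, 8, 9, 13, 12, 11, 10, 14, 15]]
  A := [8, 1, 0]
  Cl := [[8], [8, 9], [0]]
  Rw := [[15], [14, 15], [7]]
  R1 := [14, 13, 6]
  col := [true, false, true]
  wl := [0, 2]
  mid := [1, 0, 2, 1, 0, 2]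
  bl := [1]
  bk := [1]
  st := [0, 1, 2]
  nu := [[0, 0, 0], [1, 0, 2], [0, 0, 0]]

/-- first 16 indices = subsets (bit masks) [15, 3, 5, 9, 6, 10, 12, 0, 7, 11, 13, 1, 14, 2, 4, 8] of the Jordan-Wigner basis, then the vector rep e0 e1 e2 e3 f3 f2 f1 f0 -/
def datD4 : Dat where
  n := 23
  r := 3
  N := 11
  X := [[(0, 0, 1, []), (1, 1, 1, []), (2, 2, 1, []), (2, 4, 1, [0]), (3, 3, 1, []), (3, 5, 1, [0]), (4, 4, 1, []), (5, 5, 1, []), (6, 6, 1, []), (7, 7, 1, []), (8, 8, 1, []), (9, 9, 1, []), (10, 10, 1, []), (10, 12, 1, [0]), (11, 11, 1, []), (11, 13, 1, [0]), (12, 12, 1, []), (13, 13, 1, []), (14, 14, 1, []), (15, 15, 1, []), (16, 16, 1, []), (16, 17, 1, [0]), (17, 17, 1, []), (18, 18, 1, []), (19, 19, 1, []), (20, 20, 1, []), (21, 21, 1, []), (22, 22, 1, []), (22, 23, -1, [0]), (23, 23, 1, [])],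
    [(0, 0, 1, []), (1, 1, 1, []), (1, 2, 1, [0]), (2, 2, 1, []), (3, 3, 1, []), (4, 4, 1, []), (5, 5, 1, []), (5, 6, 1, [0]), (6, 6, 1, []), (7, 7, 1, []), (8, 8, 1, []), (9, 9, 1, []), (9, 10, 1, [0]), (10, 10, 1, []), (11, 11, 1, []), (12, 12, 1, []), (13, 13, 1, []), (13, 14, 1, [0]), (14, 14, 1, []), (15, 15, 1, []), (16, 16, 1, []), (17, 17, 1, []), (17, 18, 1, [0]), (18, 18, 1, []), (19, 19, 1, []), (20, 20, 1, []), (21, 21, 1, []), (21, 22, -1, [0]), (22, 22, 1, []), (23, 23, 1, [])],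
    [(0, 0, 1, []), (1, 1, 1, []), (2, 2, 1, []), (2, 3, 1, [0]), (3, 3, 1, []), (4, 4, 1, []), (4, 5, 1, [0]), (5, 5, 1, []), (6, 6, 1, []), (7, 7, 1, []), (8, 8, 1, []), (8, 9, 1, [0]), (9, 9, 1, []), (10, 10, 1, []), (11, 11, 1, []), (12, 12, 1, []), (13, 13, 1, []), (14, 14, 1, []), (14, 15, 1, [0]), (15, 15, 1, []), (16, 16, 1, []), (17, 17, 1, []), (18, 18, 1, []), (18, 19, 1, [0]), (19, 19, 1, []), (20, 20, 1, []), (20, 21, -1, [0]), (21, 21, 1, []), (22, 22, 1, []), (23, 23, 1, [])],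
    [(0, 0, 1, []), (0, 1, 1, [0]), (1, 1, 1, []), (2, 2, 1, []), (3, 3, 1, []), (4, 4, 1, []), (5, 5, 1, []), (6, 6, 1, []), (6, 7, 1, [0]), (7, 7, 1, []), (8, 8, 1, []), (9, 9, 1, []), (10, 10, 1, []), (10, 11, 1, [0]), (11, 11, 1, []), (12, 12, 1, []), (12, 13, 1, [0]), (13, 13, 1, []), (14, 14, 1, []), (15, 15, 1, []), (16, 16, 1, []), (17, 17, 1, []), (18, 18, 1, []), (18, 20, 1, [0]), (19, 19, 1, []), (19, 21, -1, [0]), (20, 20, 1, []), (21, 21, 1, []), (22, 22, 1, []), (23, 23, 1, [])],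
    [(0, 0, 1, []), (1, 1, 1, []), (1, 4, -1, [0]), (2, 2, 1, []), (3, 3, 1, []), (3, 6, 1, [0]), (4, 4, 1, []), (5, 5, 1, []), (6, 6, 1, []), (7, 7, 1, []), (8, 8, 1, []), (9, 9, 1, []), (9, 12, -1, [0]), (10, 10, 1, []), (11, 11, 1, []), (11, 14, 1, [0]), (12, 12, 1, []), (13, 13, 1, []), (14, 14, 1, []), (15, 15, 1, []), (16, 16, 1, []), (16, 18, 1, [0]), (17, 17, 1, []), (18, 18, 1, []), (19, 19, 1, []), (20, 20, 1, []), (21, 21, 1, []), (21, 23, -1, [0]), (22, 22, 1, []), (23, 23, 1, [])],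
    [(0, 0, 1, []), (1, 1, 1, []), (1, 3, 1, [0]), (2, 2, 1, []), (3, 3, 1, []), (4, 4, 1, []), (4, 6, -1, [0]), (5, 5, 1, []), (6, 6, 1, []), (7, 7, 1, []), (8, 8, 1, []), (8, 10, -1, [0]), (9, 9, 1, []), (10, 10, 1, []), (11, 11, 1, []), (12, 12, 1, []), (13, 13, 1, []), (13, 15, 1, [0]), (14, 14, 1, []), (15, 15, 1, []), (16, 16, 1, []), (17, 17, 1, []), (17, 19, 1, [0]), (18, 18, 1, []), (19, 19, 1, []), (20, 20, 1, []), (20, 22, -1, [0]), (21, 21, 1, []), (22, 22, 1, []), (23, 23, 1, [])],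
    [(0, 0, 1, []), (0, 2, -1, [0]), (1, 1, 1, []), (2, 2, 1, []), (3, 3, 1, []), (4, 4, 1, []), (5, 5, 1, []), (5, 7, 1, [0]), (6, 6, 1, []), (7, 7, 1, []), (8, 8, 1, []), (9, 9, 1, []), (9, 11, 1, [0]), (10, 10, 1, []), (11, 11, 1, []), (12, 12, 1, []), (12, 14, -1, [0]), (13, 13, 1, []), (14, 14, 1, []), (15, 15, 1, []), (16, 16, 1, []), (17, 17, 1, []), (17, 20, 1, [0]), (18, 18, 1, []), (19, 19, 1, []), (19, 22, -1, [0]), (20, 20, 1, []), (21, 21, 1, []), (22, 22, 1, []), (23, 23, 1, [])],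
    [(0, 0, 1, []), (1, 1, 1, []), (1, 5, -1, [0]), (2, 2, 1, []), (2, 6, -1, [0]), (3, 3, 1, []), (4, 4, 1, []), (5, 5, 1, []), (6, 6, 1, []), (7, 7, 1, []), (8, 8, 1, []), (8, 12, 1, [0]), (9, 9, 1, []), (10, 10, 1, []), (11, 11, 1, []), (11, 15, 1, [0]), (12, 12, 1, []), (13, 13, 1, []), (14, 14, 1, []), (15, 15, 1, []), (16, 16, 1, []), (16, 19, 1, [0]), (17, 17, 1, []), (18, 18, 1, []), (19, 19, 1, []), (20, 20, 1, []), (20, 23, -1, [0]), (21, 21, 1, []), (22, 22, 1, []), (23, 23, 1, [])],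
    [(0, 0, 1, []), (0, 4, 1, [0]), (1, 1, 1, []), (2, 2, 1, []), (3, 3, 1, []), (3, 7, 1, [0]), (4, 4, 1, []), (5, 5, 1, []), (6, 6, 1, []), (7, 7, 1, []), (8, 8, 1, []), (9, 9, 1, []), (9, 13, -1, [0]), (10, 10, 1, []), (10, 14, -1, [0]), (11, 11, 1, []), (12, 12, 1, []), (13, 13, 1, []), (14, 14, 1, []), (15, 15, 1, []), (16, 16, 1, []), (16, 20, 1, [0]), (17, 17, 1, []), (18, 18, 1, []), (19, 19, 1, []), (19, 23, -1, [0]), (20, 20, 1, []), (21, 21, 1, []), (22, 22, 1, []), (23, 23, 1, [])],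
    [(0, 0, 1, []), (0, 3, 1, [0]), (1, 1, 1, []), (2, 2, 1, []), (3, 3, 1, []), (4, 4, 1, []), (4, 7, 1, [0]), (5, 5, 1, []), (6, 6, 1, []), (7, 7, 1, []), (8, 8, 1, []), (8, 11, 1, [0]), (9, 9, 1, []), (10, 10, 1, []), (11, 11, 1, []), (12, 12, 1, []), (12, 15, 1, [0]), (13, 13, 1, []), (14, 14, 1, []), (15, 15, 1, []), (16, 16, 1, []), (17, 17, 1, []), (17, 21, 1, [0]), (18, 18, 1, []), (18, 22, -1, [0]), (19, 19, 1, []), (20, 20, 1, []), (21, 21, 1, []), (22, 22, 1, []), (23, 23, 1, [])],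
    [(0, 0, 1, []), (0, 5, -1, [0]), (1, 1, 1, []), (2, 2, 1, []), (2, 7, 1, [0]), (3, 3, 1, []), (4, 4, 1, []), (5, 5, 1, []), (6, 6, 1, []), (7, 7, 1, []), (8, 8, 1, []), (8, 13, -1, [0]), (9, 9, 1, []), (10, 10, 1, []), (10, 15, 1, [0]), (11, 11, 1, []), (12, 12, 1, []), (13, 13, 1, []), (14, 14, 1, []), (15, 15, 1, []), (16, 16, 1, []), (16, 21, 1, [0]), (17, 17, 1, []), (18, 18, 1, []), (18, 23, -1, [0]), (19, 19, 1, []), (20, 20, 1, []), (21, 21, 1, []), (22, 22, 1, []), (23, 23, 1, [])],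
    [(0, 0, 1, []), (0, 6, 1, [0]), (1, 1, 1, []), (1, 7, 1, [0]), (2, 2, 1, []), (3, 3, 1, []), (4, 4, 1, []), (5, 5, 1, []), (6, 6, 1, []), (7, 7, 1, []), (8, 8, 1, []), (8, 14, 1, [0]), (9, 9, 1, []), (9, 15, 1, [0]), (10, 10, 1, []), (11, 11, 1, []), (12, 12, 1, []), (13, 13, 1, []), (14, 14, 1, []), (15, 15, 1, []), (16, 16, 1, []), (16, 22, 1, [0]), (17, 17, 1, []), (17, 23, -1, [0]), (18, 18, 1, []), (19, 19, 1, []), (20, 20, 1, []), (21, 21, 1, []), (22, 22, 1, []), (23, 23, 1, [])]]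
  P := [[(0, 0, 1, []), (1, 1, 1, []), (2, 2, 1, [0]), (2, 4, 1, [1]), (3, 3, 1, [0]), (3, 5, 1, [1]), (4, 2, 1, [2]), (4, 4, 1, [3]), (5, 3, 1, [2]), (5, 5, 1, [3]), (6, 6, 1, []), (7, 7, 1, []), (8, 8, 1, []), (9, 9, 1, []), (10, 10, 1, [0]), (10, 12, 1, [1]), (11, 11, 1, [0]), (11, 13, 1, [1]), (12, 10, 1, [2]), (12, 12, 1, [3]), (13, 11, 1, [2]), (13, 13, 1, [3]), (14, 14, 1, []), (15, 15, 1, []), (16, 16, 1, [0]), (16, 17, 1, [1]), (17, 16, 1, [2]), (17, 17, 1, [3]), (18, 18, 1, []), (19, 19, 1, []), (20, 20, 1, []), (21, 21, 1, []), (22, 22, 1, [0]), (22, 23, -1, [1]), (23, 22, -1, [2]), (23, 23, 1, [3])],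
    [(0, 0, 1, []), (1, 1, 1, [0]), (1, 2, 1, [1]), (2, 1, 1, [2]), (2, 2, 1, [3]), (3, 3, 1, []), (4, 4, 1, []), (5, 5, 1, [0]), (5, 6, 1, [1]), (6, 5, 1, [2]), (6, 6, 1, [3]), (7, 7, 1, []), (8, 8, 1, []), (9, 9, 1, [0]), (9, 10, 1, [1]), (10, 9, 1, [2]), (10, 10, 1, [3]), (11, 11, 1, []), (12, 12, 1, []), (13, 13, 1, [0]), (13, 14, 1, [1]), (14, 13, 1, [2]), (14, 14, 1, [3]), (15, 15, 1, []), (16, 16, 1, []), (17, 17, 1, [0]), (17, 18, 1, [1]), (18, 17, 1, [2]), (18, 18, 1, [3]), (19, 19, 1, []), (20, 20, 1, []), (21, 21, 1, [0]), (21, 22, -1, [1]), (22, 21, -1, [2]), (22, 22, 1, [3]), (23, 23, 1, [])],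
    [(0, 0, 1, []), (1, 1, 1, []), (2, 2, 1, [0]), (2, 3, 1, [1]), (3, 2, 1, [2]), (3, 3, 1, [3]), (4, 4, 1, [0]), (4, 5, 1, [1]), (5, 4, 1, [2]), (5, 5, 1, [3]), (6, 6, 1, []), (7, 7, 1, []), (8, 8, 1, [0]), (8, 9, 1, [1]), (9, 8, 1, [2]), (9, 9, 1, [3]), (10, 10, 1, []), (11, 11, 1, []), (12, 12, 1, []), (13, 13, 1, []), (14, 14, 1, [0]), (14, 15, 1, [1]), (15, 14, 1, [2]), (15, 15, 1, [3]), (16, 16, 1, []), (17, 17, 1, []), (18, 18, 1, [0]), (18, 19, 1, [1]), (19, 18, 1, [2]), (19, 19, 1, [3]), (20, 20, 1, [0]), (20, 21, -1, [1]), (21, 20, -1, [2]), (21, 21, 1, [3]), (22, 22, 1, []), (23, 23, 1, [])],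
    [(0, 0, 1, [0]), (0, 1, 1, [1]), (1, 0, 1, [2]), (1, 1, 1, [3]), (2, 2, 1, []), (3, 3, 1, []), (4, 4, 1, []), (5, 5, 1, []), (6, 6, 1, [0]), (6, 7, 1, [1]), (7, 6, 1, [2]), (7, 7, 1, [3]), (8, 8, 1, []), (9, 9, 1, []), (10, 10, 1, [0]), (10, 11, 1, [1]), (11, 10, 1, [2]), (11, 11, 1, [3]), (12, 12, 1, [0]), (12, 13, 1, [1]), (13, 12, 1, [2]), (13, 13, 1, [3]), (14, 14, 1, []), (15, 15, 1, []), (16, 16, 1, []), (17, 17, 1, []), (18, 18, 1, [0]), (18, 20, 1, [1]), (19, 19, 1, [0]), (19, 21, -1, [1]), (20, 18, 1, [2]), (20, 20, 1, [3]), (21, 19, -1, [2]), (21, 21, 1, [3]), (22, 22, 1, []), (23, 23, 1, [])]]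
  s := [0, 1, 2, 3]
  ct := [[[], [1, 4], [2], [3], [4], [5, 7], [6, 8], [7], [8], [9, 10], [10], [11]], [[0, 4], [], [2, 5], [3, 6], [4], [5], [6], [7], [8], [9], [10, 11], [11]], [[0], [1, 5], [], [3], [4, 7], [5], [6, 9], [7], [8, 10], [9], [10], [11]], [[0], [1, 6], [2], [], [4, 8], [5, 9], [6], [7, 10], [8], [9], [10], [11]]]
  rho := [[0, 4, 2, 3, 1, 7, 8, 5, 6, 10, 9, 11], [4, 1, 5, 6, 0, 2, 3, 7, 8, 9, 11, 10], [0, 5, 2, 3, 7, 1, 9, 4, 10, 6, 8, 11], [0, 6, 2, 3, 8, 9, 1, 10, 4, 5, 7, 11]]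
  sg := [[0, 1, 4, 5, 2, 3, 6, 7, 8, 9, 12, 13, 10, 11, 14, 15, 17, 16, 18, 19, 20, 21, 23, 22], [0, 2, 1, 3, 4, 6, 5, 7, 8, 10, 9, 11, 12, 14, 13, 15, 16, 18, 17, 19, 20, 22, 21, 23], [0, 1, 3, 2, 5, 4, 6, 7, 9, 8, 10, 11, 12, 13, 15, 14, 16, 17, 19, 18, 21, 20, 22, 23], [1, 0, 2, 3, 4, 5, 7, 6, 8, 9, 11, 10, 13, 12, 14, 15, 16, 17, 20, 21, 18, 19, 22, 23]]
  A := [16, 1, 2, 0]
  Cl := [[16], [16, 17], [8], [0]]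
  Rw := [[23], [22, 23], [15], [7]]
  R1 := [22, 21, 14, 6]
  col := [true, false, true, true]
  wl := [0, 2, 3]
  mid := [1, 0, 2, 3, 1, 0, 2, 3]
  bl := [1]
  bk := [1]
  st := [0, 1, 2, 3]
  nu := [[0, 0, 0, 0], [1, 0, 1, 1], [0, 0, 0, 0], [0, 0, 0, 0]]

/-- indices = subsets (bit masks) [7, 3, 5, 1, 6, 2, 4, 0] of the Jordan-Wigner basis; node 0 is short -/
def datG2 : Dat where
  n := 7
  r := 1
  N := 5
  X := [[(0, 0, 1, []), (0, 1, 1, [0]), (1, 1, 1, []), (2, 2, 1, []), (2, 3, -1, [0]), (2, 4, -1, [0]), (2, 5, 1, [0, 0]), (3, 3, 1, []), (3, 5, -1, [0]), (4, 4, 1, []), (4, 5, -1, [0]), (5, 5, 1, []), (6, 6, 1, []), (6, 7, 1, [0]), (7, 7, 1, [])],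
    [(0, 0, 1, []), (1, 1, 1, []), (1, 2, 1, [0]), (2, 2, 1, []), (3, 3, 1, []), (4, 4, 1, []), (5, 5, 1, []), (5, 6, 1, [0]), (6, 6, 1, []), (7, 7, 1, [])],
    [(0, 0, 1, []), (0, 2, -1, [0]), (1, 1, 1, []), (1, 3, -1, [0]), (1, 4, -1, [0]), (1, 6, -1, [0, 0]), (2, 2, 1, []), (3, 3, 1, []), (3, 6, 1, [0]), (4, 4, 1, []), (4, 6, 1, [0]), (5, 5, 1, []), (5, 7, 1, [0]), (6, 6, 1, []), (7, 7, 1, [])],
    [(0, 0, 1, []), (0, 3, 1, [0]), (0, 4, 1, [0]), (0, 7, 1, [0, 0]), (1, 1, 1, []), (1, 5, 1, [0]), (2, 2, 1, []), (2, 6, 1, [0]), (3, 3, 1, []), (3, 7, 1, [0]), (4, 4, 1, []), (4, 7, 1, [0]), (5, 5, 1, []), (6, 6, 1, []), (7, 7, 1, [])],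
    [(0, 0, 1, []), (0, 5, -1, [0]), (1, 1, 1, []), (2, 2, 1, []), (2, 7, 1, [0]), (3, 3, 1, []), (4, 4, 1, []), (5, 5, 1, []), (6, 6, 1, []), (7, 7, 1, [])],
    [(0, 0, 1, []), (0, 6, 1, [0]), (1, 1, 1, []), (1, 7, 1, [0]), (2, 2, 1, []), (3, 3, 1, []), (4, 4, 1, []), (5, 5, 1, []), (6, 6, 1, []), (7, 7, 1, [])]]
  P := [[(0, 0, 1, [0]), (0, 1, 1, [1]), (1, 0, 1, [2]), (1, 1, 1, [3]), (2, 2, 1, [0, 0]), (2, 3, -1, [0, 1]), (2, 4, -1, [0, 1]), (2, 5, 1, [1, 1]), (3, 2, -1, [0, 2]), (3, 3, 1, [0, 3]), (3, 4, 1, [1, 2]), (3, 5, -1, [1, 3]), (4, 2, -1, [0, 2]), (4, 3, 1, [1, 2]), (4, 4, 1, [0, 3]), (4, 5, -1, [1, 3]), (5, 2, 1, [2, 2]), (5, 3, -1, [2, 3]), (5, 4, -1, [2, 3]), (5, 5, 1, [3, 3]), (6, 6, 1, [0]), (6, 7, 1, [1]), (7, 6, 1, [2]), (7, 7, 1, [3])],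
    [(0, 0, 1, []), (1, 1, 1, [0]), (1, 2, 1, [1]), (2, 1, 1, [2]), (2, 2, 1, [3]), (3, 3, 1, []), (4, 4, 1, []), (5, 5, 1, [0]), (5, 6, 1, [1]), (6, 5, 1, [2]), (6, 6, 1, [3]), (7, 7, 1, [])]]
  s := [0, 1]
  ct := [[[], [1, 2, 3, 4, 5], [2, 3, 4, 5], [3, 4], [4], [5]], [[0, 2, 3, 4, 5], [], [2], [3], [4, 5], [5]]]
  rho := [[0, 4, 3, 2, 1, 5], [2, 1, 0, 3, 5, 4]]
  sg := [[1, 0, 5, 4, 3, 2, 7, 6], [0, 2, 1, 3, 4, 6, 5, 7]]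
  A := [0, 1]
  Cl := [[0], [0, 1]]
  Rw := [[7], [6, 7]]
  R1 := [6, 5]
  col := [true, false]
  wl := [0]
  mid := [1, 0, 1, 0]
  bl := [1]
  bk := [1]
  st := [0, 1]
  nu := [[0, 0], [3, 0]]

end Pool.Agent.Lib.MP_755cca_al.F
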