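import Pool.Agent.Lib.MP_755cca_al.F.ChkP
import Pool.Agent.Lib.MP_755cca_al.F.Tab

/-! The product axioms for the tables. -/

namespace Pool.Agent.Lib.MP_755cca_al.F

namespace CP

def witA2 : Wit where
  ctp := [[[], [(1, [(1, [1])]), (2, [(1, [0, 1])])], [(2, [(1, [1])])]],
    [[(0, [(1, [1])]), (2, [(-1, [0, 1])])], [], [(2, [(1, [1])])]]]
  eta := [[-1, 1, -1], [-1, -1, 1]]
  tx := [[[(1, [0, 0, 2])], [(1, [1, 2])], [(1, [0, 2])]],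
    [[(1, [1, 2])], [(1, [0, 0, 2])], [(1, [0, 2])]]]
  tn := [[([(1, [1, 1])], [(1, [0, 0])]), ([(1, [0])], [(1, [1])])],
    [([(1, [0])], [(1, [1])]), ([(1, [1, 1])], [(1, [0, 0])])]]
  sg := [[1, -1], [-1, 1]]
  eD := [1, 1]
  eQ := [1, 1]

theorem chkA2 : Chk datA2 witA2 := by
  constructor <;> decide +kernel

def witA3 : Wit where
  ctp := [[[], [(1, [(1, [1])]), (3, [(1, [0, 1])])], [(2, [(1, [1])])], [(3, [(1, [1])])], [(4, [(1, [1])]), (5, [(1, [0, 1])])], [(5, [(1, [1])])]],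
    [[(0, [(1, [1])]), (3, [(-1, [0, 1])])], [], [(2, [(1, [1])]), (4, [(1, [0, 1])])], [(3, [(1, [1])])], [(4, [(1, [1])])], [(5, [(1, [1])])]],
    [[(0, [(1, [1])])], [(1, [(1, [1])]), (4, [(-1, [0, 1])])], [], [(3, [(1, [1])]), (5, [(-1, [0, 1])])], [(4, [(1, [1])])], [(5, [(1, [1])])]]]
  eta := [[-1, 1, 1, -1, 1, -1], [-1, -1, 1, 1, -1, 1], [1, -1, -1, -1, 1, 1]]
  tx := [[[(1, [0, 0, 2])], [(1, [1, 2])], [(1, [2])], [(1, [0, 2])], [(1, [1, 2])], [(1, [0, 2])]],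
    [[(1, [1, 2])], [(1, [0, 0, 2])], [(1, [1, 2])], [(1, [0, 2])], [(1, [0, 2])], [(1, [2])]],
    [[(1, [2])], [(1, [1, 2])], [(1, [0, 0, 2])], [(1, [1, 2])], [(1, [0, 2])], [(1, [0, 2])]]]
  tn := [[([(1, [1, 1])], [(1, [0, 0])]), ([(1, [0])], [(1, [1])]), ([(1, [])], [(1, [])])],
    [([(1, [0])], [(1, [1])]), ([(1, [1, 1])], [(1, [0, 0])]), ([(1, [0])], [(1, [1])])],
    [([(1, [])], [(1, [])]), ([(1, [0])], [(1, [1])]), ([(1, [1, 1])], [(1, [0, 0])])]]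
  sg := [[1, -1, 1], [-1, 1, -1], [1, -1, 1]]
  eD := [-1, 1, -1]
  eQ := [-1, 1, -1]

theorem chkA3 : Chk datA3 witA3 := by
  constructor <;> decide +kernel

def witA5 : Wit where
  ctp := [[[], [(1, [(1, [1])]), (5, [(1, [0, 1])])], [(2, [(1, [1])])], [(3, [(1, [1])])], [(4, [(1, [1])])], [(5, [(1, [1])])], [(6, [(1, [1])]), (9, [(1, [0, 1])])], [(7, [(1, [1])])], [(8, [(1, [1])])], [(9, [(1, [1])])], [(10, [(1, [1])]), (12, [(1, [0, 1])])], [(11, [(1, [1])])], [(12, [(1, [1])])], [(13, [(1, [1])]), (14, [(1, [0, 1])])], [(14, [(1, [1])])]],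
    [[(0, [(1, [1])]), (5, [(-1, [0, 1])])], [], [(2, [(1, [1])]), (6, [(1, [0, 1])])], [(3, [(1, [1])])], [(4, [(1, [1])])], [(5, [(1, [1])])], [(6, [(1, [1])])], [(7, [(1, [1])]), (10, [(1, [0, 1])])], [(8, [(1, [1])])], [(9, [(1, [1])])], [(10, [(1, [1])])], [(11, [(1, [1])]), (13, [(1, [0, 1])])], [(12, [(1, [1])])], [(13, [(1, [1])])], [(14, [(1, [1])])]],
    [[(0, [(1, [1])])], [(1, [(1, [1])]), (6, [(-1, [0, 1])])], [], [(3, [(1, [1])]), (7, [(1, [0, 1])])], [(4, [(1, [1])])], [(5, [(1, [1])]), (9, [(-1, [0, 1])])], [(6, [(1, [1])])], [(7, [(1, [1])])], [(8, [(1, [1])]), (11, [(1, [0, 1])])], [(9, [(1, [1])])], [(10, [(1, [1])])], [(11, [(1, [1])])], [(12, [(1, [1])])], [(13, [(1, [1])])], [(14, [(1, [1])])]],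
    [[(0, [(1, [1])])], [(1, [(1, [1])])], [(2, [(1, [1])]), (7, [(-1, [0, 1])])], [], [(4, [(1, [1])]), (8, [(1, [0, 1])])], [(5, [(1, [1])])], [(6, [(1, [1])]), (10, [(-1, [0, 1])])], [(7, [(1, [1])])], [(8, [(1, [1])])], [(9, [(1, [1])]), (12, [(-1, [0, 1])])], [(10, [(1, [1])])], [(11, [(1, [1])])], [(12, [(1, [1])])], [(13, [(1, [1])])], [(14, [(1, [1])])]],
    [[(0, [(1, [1])])], [(1, [(1, [1])])], [(2, [(1, [1])])], [(3, [(1, [1])]), (8, [(-1, [0, 1])])], [], [(5, [(1, [1])])], [(6, [(1, [1])])], [(7, [(1, [1])]), (11, [(-1, [0, 1])])], [(8, [(1, [1])])], [(9, [(1, [1])])], [(10, [(1, [1])]), (13, [(-1, [0, 1])])], [(11, [(1, [1])])], [(12, [(1, [1])]), (14, [(-1, [0, 1])])], [(13, [(1, [1])])], [(14, [(1, [1])])]]]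
  eta := [[-1, 1, 1, 1, 1, -1, 1, 1, 1, -1, 1, 1, -1, 1, -1], [-1, -1, 1, 1, 1, 1, -1, 1, 1, 1, -1, 1, 1, -1, 1], [1, -1, -1, 1, 1, -1, 1, -1, 1, 1, 1, -1, 1, 1, 1], [1, 1, -1, -1, 1, 1, -1, 1, -1, -1, 1, 1, 1, 1, 1], [1, 1, 1, -1, -1, 1, 1, -1, 1, 1, -1, 1, -1, 1, 1]]
  tx := [[[(1, [0, 0, 2])], [(1, [1, 2])], [(1, [2])], [(1, [2])], [(1, [2])], [(1, [0, 2])], [(1, [1, 2])], [(1, [2])], [(1, [2])], [(1, [0, 2])], [(1, [1, 2])], [(1, [2])], [(1, [0, 2])], [(1, [1, 2])], [(1, [0, 2])]],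
    [[(1, [1, 2])], [(1, [0, 0, 2])], [(1, [1, 2])], [(1, [2])], [(1, [2])], [(1, [0, 2])], [(1, [0, 2])], [(1, [1, 2])], [(1, [2])], [(1, [2])], [(1, [0, 2])], [(1, [1, 2])], [(1, [2])], [(1, [0, 2])], [(1, [2])]],
    [[(1, [2])], [(1, [1, 2])], [(1, [0, 0, 2])], [(1, [1, 2])], [(1, [2])], [(1, [1, 2])], [(1, [0, 2])], [(1, [0, 2])], [(1, [1, 2])], [(1, [0, 2])], [(1, [2])], [(1, [0, 2])], [(1, [2])], [(1, [2])], [(1, [2])]],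
    [[(1, [2])], [(1, [2])], [(1, [1, 2])], [(1, [0, 0, 2])], [(1, [1, 2])], [(1, [2])], [(1, [1, 2])], [(1, [0, 2])], [(1, [0, 2])], [(1, [1, 2])], [(1, [0, 2])], [(1, [2])], [(1, [0, 2])], [(1, [2])], [(1, [2])]],
    [[(1, [2])], [(1, [2])], [(1, [2])], [(1, [1, 2])], [(1, [0, 0, 2])], [(1, [2])], [(1, [2])], [(1, [1, 2])], [(1, [0, 2])], [(1, [2])], [(1, [1, 2])], [(1, [0, 2])], [(1, [1, 2])], [(1, [0, 2])], [(1, [0, 2])]]]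
  tn := [[([(1, [1, 1])], [(1, [0, 0])]), ([(1, [0])], [(1, [1])]), ([(1, [])], [(1, [])]), ([(1, [])], [(1, [])]), ([(1, [])], [(1, [])])],
    [([(1, [0])], [(1, [1])]), ([(1, [1, 1])], [(1, [0, 0])]), ([(1, [0])], [(1, [1])]), ([(1, [])], [(1, [])]), ([(1, [])], [(1, [])])],
    [([(1, [])], [(1, [])]), ([(1, [0])], [(1, [1])]), ([(1, [1, 1])], [(1, [0, 0])]), ([(1, [0])], [(1, [1])]), ([(1, [])], [(1, [])])],
    [([(1, [])], [(1, [])]), ([(1, [])], [(1, [])]), ([(1, [0])], [(1, [1])]), ([(1, [1, 1])], [(1, [0, 0])]), ([(1, [0])], [(1, [1])])],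
    [([(1, [])], [(1, [])]), ([(1, [])], [(1, [])]), ([(1, [])], [(1, [])]), ([(1, [0])], [(1, [1])]), ([(1, [1, 1])], [(1, [0, 0])])]]
  sg := [[1, -1, 1, 1, 1], [-1, 1, -1, 1, 1], [1, -1, 1, -1, 1], [1, 1, -1, 1, -1], [1, 1, 1, -1, 1]]
  eD := [-1, 1, -1, 1, 1]
  eQ := [-1, 1, -1, -1, -1]

theorem chkA5 : Chk datA5 witA5 := by
  constructor <;> decide +kernel

def witC2 : Wit where
  ctp := [[[], [(1, [(1, [1])]), (2, [(1, [0, 1])]), (3, [(1, [0, 0, 1])])], [(2, [(1, [1])]), (3, [(2, [0, 1])])], [(3, [(1, [1])])]],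
    [[(0, [(1, [1])]), (2, [(-1, [0, 1])]), (3, [(1, [0, 1, 1])])], [], [(2, [(1, [1])])], [(3, [(1, [1])])]]]
  eta := [[-1, 1, -1, 1], [-1, -1, 1, 1]]
  tx := [[[(1, [0, 0, 2])], [(1, [1, 1, 2])], [(1, [2])], [(1, [0, 0, 2])]],
    [[(1, [1, 2])], [(1, [0, 0, 2])], [(1, [0, 2])], [(1, [2])]]]
  tn := [[([(1, [1, 1])], [(1, [0, 0])]), ([(1, [0, 0])], [(1, [1, 1])])],
    [([(1, [0])], [(1, [1])]), ([(1, [1, 1])], [(1, [0, 0])])]]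
  sg := [[1, 1], [-1, 1]]
  eD := [1, -1]
  eQ := [-1, -1]

theorem chkC2 : Chk datC2 witC2 := by
  constructor <;> decide +kernel

def witC3 : Wit where
  ctp := [[[], [(1, [(1, [1])]), (3, [(1, [0, 1])])], [(2, [(1, [1])])], [(3, [(1, [1])])], [(4, [(1, [1])]), (5, [(1, [0, 1])])], [(5, [(1, [1])])], [(6, [(1, [1])]), (7, [(1, [0, 1])]), (8, [(1, [0, 0, 1])])], [(7, [(1, [1])]), (8, [(2, [0, 1])])], [(8, [(1, [1])])]],
    [[(0, [(1, [1])]), (3, [(-1, [0, 1])])], [], [(2, [(1, [1])]), (4, [(1, [0, 1])]), (6, [(1, [0, 0, 1])])], [(3, [(1, [1])])], [(4, [(1, [1])]), (6, [(2, [0, 1])])], [(5, [(1, [1])]), (7, [(1, [0, 1])])], [(6, [(1, [1])])], [(7, [(1, [1])])], [(8, [(1, [1])])]],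
    [[(0, [(1, [1])])], [(1, [(1, [1])]), (4, [(-1, [0, 1])]), (6, [(1, [0, 1, 1])])], [], [(3, [(1, [1])]), (5, [(-1, [0, 1])]), (8, [(1, [0, 1, 1])])], [(4, [(1, [1])])], [(5, [(1, [1])])], [(6, [(1, [1])])], [(7, [(1, [1])])], [(8, [(1, [1])])]]]
  eta := [[-1, 1, 1, -1, 1, -1, 1, -1, 1], [-1, -1, 1, 1, -1, 1, 1, -1, 1], [1, -1, -1, -1, 1, 1, 1, 1, 1]]
  tx := [[[(1, [0, 0, 2])], [(1, [1, 2])], [(1, [2])], [(1, [0, 2])], [(1, [1, 2])], [(1, [0, 2])], [(1, [1, 1, 2])], [(1, [2])], [(1, [0, 0, 2])]],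
    [[(1, [1, 2])], [(1, [0, 0, 2])], [(1, [1, 1, 2])], [(1, [0, 2])], [(1, [2])], [(1, [1, 2])], [(1, [0, 0, 2])], [(1, [0, 2])], [(1, [2])]],
    [[(1, [2])], [(1, [1, 2])], [(1, [0, 0, 2])], [(1, [1, 2])], [(1, [0, 2])], [(1, [0, 2])], [(1, [2])], [(1, [2])], [(1, [2])]]]
  tn := [[([(1, [1, 1])], [(1, [0, 0])]), ([(1, [0])], [(1, [1])]), ([(1, [])], [(1, [])])],
    [([(1, [0])], [(1, [1])]), ([(1, [1, 1])], [(1, [0, 0])]), ([(1, [0, 0])], [(1, [1, 1])])],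
    [([(1, [])], [(1, [])]), ([(1, [0])], [(1, [1])]), ([(1, [1, 1])], [(1, [0, 0])])]]
  sg := [[1, -1, 1], [-1, 1, 1], [1, -1, 1]]
  eD := [-1, -1, 1]
  eQ := [1, 1, 1]

theorem chkC3 : Chk datC3 witC3 := by
  constructor <;> decide +kernel

def witG2 : Wit where
  ctp := [[[], [(1, [(1, [1])]), (2, [(-1, [0, 1])]), (3, [(1, [0, 0, 1])]), (4, [(-1, [0, 0, 0, 1])]), (5, [(-1, [0, 0, 0, 1, 1])])], [(2, [(1, [1])]), (3, [(-2, [0, 1])]), (4, [(3, [0, 0, 1])]), (5, [(-3, [0, 1, 1])])], [(3, [(1, [1])]), (4, [(-3, [0, 1])])], [(4, [(1, [1])])], [(5, [(1, [1])])]],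
    [[(0, [(1, [1])]), (2, [(1, [0, 1])]), (3, [(1, [0, 1, 1])]), (4, [(1, [0, 1, 1, 1])]), (5, [(2, [0, 0, 1, 1, 1])])], [], [(2, [(1, [1])])], [(3, [(1, [1])])], [(4, [(1, [1])]), (5, [(1, [0, 1])])], [(5, [(1, [1])])]]]
  eta := [[-1, -1, 1, -1, 1, 1], [1, -1, -1, 1, 1, -1]]
  tx := [[[(1, [0, 0, 2])], [(1, [1, 1, 1, 2])], [(1, [1, 2])], [(1, [0, 2])], [(1, [0, 0, 0, 2])], [(1, [2])]],
    [[(1, [1, 2])], [(1, [0, 0, 2])], [(1, [0, 2])], [(1, [2])], [(1, [1, 2])], [(1, [0, 2])]]]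
  tn := [[([(1, [1, 1])], [(1, [0, 0])]), ([(1, [0, 0, 0])], [(1, [1, 1, 1])])],
    [([(1, [0])], [(1, [1])]), ([(1, [1, 1])], [(1, [0, 0])])]]
  sg := [[1, -1], [-1, 1]]
  eD := [1, 1]
  eQ := [1, 1]

theorem chkG2 : Chk datG2 witG2 := by
  constructor <;> decide +kernel

end CP

theorem axP_A2 : datA2.toSys.AxP := CP.axP CP.chkA2

theorem axP_A3 : datA3.toSys.AxP := CP.axP CP.chkA3

theorem axP_A5 : datA5.toSys.AxP := CP.axP CP.chkA5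

theorem axP_C2 : datC2.toSys.AxP := CP.axP CP.chkC2

theorem axP_C3 : datC3.toSys.AxP := CP.axP CP.chkC3

theorem axP_G2 : datG2.toSys.AxP := CP.axP CP.chkG2

end Pool.Agent.Lib.MP_755cca_al.F
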