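import Pool.Agent.Lib.MP_755cca_al.F.ChkP
import Pool.Agent.Lib.MP_755cca_al.F.Tab

/-! The product axioms for the tables. -/

namespace Pool.Agent.Lib.MP_755cca_al.F

namespace CP

def witB3 : Wit where
  ctp := [[[], [(1, [(1, [1])]), (3, [(1, [0, 1])])], [(2, [(1, [1])])], [(3, [(1, [1])])], [(4, [(1, [1])]), (5, [(1, [0, 1])]), (8, [(1, [0, 1, 1])])], [(5, [(1, [1])])], [(6, [(1, [1])]), (7, [(1, [0, 1])])], [(7, [(1, [1])])], [(8, [(1, [1])])]],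
    [[(0, [(1, [1])]), (3, [(-1, [0, 1])])], [], [(2, [(1, [1])]), (4, [(1, [0, 1])]), (6, [(1, [0, 1, 1])])], [(3, [(1, [1])])], [(4, [(1, [1])])], [(5, [(1, [1])])], [(6, [(1, [1])])], [(7, [(1, [1])]), (8, [(1, [0, 1])])], [(8, [(1, [1])])]],
    [[(0, [(1, [1])])], [(1, [(1, [1])]), (4, [(-1, [0, 1])]), (6, [(1, [0, 0, 1])])], [], [(3, [(1, [1])]), (5, [(-1, [0, 1])]), (7, [(1, [0, 0, 1])])], [(4, [(1, [1])]), (6, [(-2, [0, 1])])], [(5, [(1, [1])]), (7, [(-2, [0, 1])])], [(6, [(1, [1])])], [(7, [(1, [1])])], [(8, [(1, [1])])]]]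
  eta := [[-1, 1, 1, -1, 1, -1, 1, -1, 1], [-1, -1, 1, 1, -1, 1, 1, 1, -1], [1, 1, -1, 1, -1, -1, 1, 1, 1]]
  tx := [[[(1, [0, 0, 2])], [(1, [1, 2])], [(1, [2])], [(1, [0, 2])], [(1, [1, 2])], [(1, [0, 2])], [(1, [1, 2])], [(1, [0, 2])], [(1, [2])]],
    [[(1, [1, 2])], [(1, [0, 0, 2])], [(1, [1, 2])], [(1, [0, 2])], [(1, [0, 2])], [(1, [2])], [(1, [2])], [(1, [1, 2])], [(1, [0, 2])]],
    [[(1, [2])], [(1, [1, 1, 2])], [(1, [0, 0, 2])], [(1, [1, 1, 2])], [(1, [2])], [(1, [2])], [(1, [0, 0, 2])], [(1, [0, 0, 2])], [(1, [2])]]]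
  tn := [[([(1, [1, 1])], [(1, [0, 0])]), ([(1, [0])], [(1, [1])]), ([(1, [])], [(1, [])])],
    [([(1, [0])], [(1, [1])]), ([(1, [1, 1])], [(1, [0, 0])]), ([(1, [0])], [(1, [1])])],
    [([(1, [])], [(1, [])]), ([(1, [0, 0])], [(1, [1, 1])]), ([(1, [1, 1])], [(1, [0, 0])])]]
  sg := [[1, -1, 1], [-1, 1, -1], [1, 1, 1]]
  eD := [-1, -1, -1]
  eQ := [1, 1, -1]

theorem chkB3 : Chk datB3 witB3 := by
  constructor <;> decide +kernel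

end CP

theorem axP_B3 : datB3.toSys.AxP := CP.axP CP.chkB3

end Pool.Agent.Lib.MP_755cca_al.F
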