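import Pool.Agent.Lib.MP_755cca_al.F.ChkE
import Pool.Agent.Lib.MP_755cca_al.F.ChkW3
import Pool.Agent.Lib.MP_755cca_al.F.ChkPA
import Pool.Agent.Lib.MP_755cca_al.F.ChkPB
import Pool.Agent.Lib.MP_755cca_al.F.ChkPD

/-! The axioms hold for the tables. -/

namespace Pool.Agent.Lib.MP_755cca_al.F

theorem Sys.Ax.of {S : Sys} (e : S.AxE) (p : S.AxP) (w : S.AxW) : S.Ax where
  nat_x := e.nat_x
  nat_p := e.nat_p
  x_zero := e.x_zero
  p_one := e.p_one
  p_up := e.p_up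
  p_tr := e.p_tr
  tor_diag := e.tor_diag
  tor_C := e.tor_C
  tri := e.tri
  diag := e.diag
  mono := e.mono
  ent_s := e.ent_s
  ent_ne := e.ent_ne
  Cl_cl := e.Cl_cl
  Rw_cl := e.Rw_cl
  R1_cl := e.R1_cl
  x_add := p.x_add
  p_mul := p.p_mul
  p_comm := p.p_comm
  conj_x := p.conj_x
  conj_n := p.conj_n
  tor_x := p.tor_x
  tor_n := p.tor_n
  sgn_p := p.sgn_p
  DQ := p.DQ
  s_inj := w.s_inj
  ct_ne := w.ct_ne
  rho_ne := w.rho_ne
  rho_inj := w.rho_inj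
  col_ct := w.col_ct
  sg_sg := w.sg_sg
  AB := w.AB
  Cl_mono := w.Cl_mono
  Rw_mono := w.Rw_mono
  R1_ne := w.R1_ne
  base_red := w.base_red
  base_neg := w.base_neg
  base_surj := w.base_surj
  base_sq := w.base_sq
  big := w.big
  wl_mem := w.wl_mem
  bk_mem := w.bk_mem
  wl_nodup := w.wl_nodup
  bk_nodup := w.bk_nodup
  bk_len := w.bk_len
  wl_act := w.wl_act
  mid_act := w.mid_act
  bl_act := w.bl_act
  mid_drop := w.mid_drop
  st_st := w.st_st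
  nu_st := w.nu_st

theorem axA2 : datA2.toSys.Ax := .of axE_A2 axP_A2 axWA2

theorem axA3 : datA3.toSys.Ax := .of axE_A3 axP_A3 axWA3

theorem axA5 : datA5.toSys.Ax := .of axE_A5 axP_A5 axWA5

theorem axC2 : datC2.toSys.Ax := .of axE_C2 axP_C2 axWC2

theorem axC3 : datC3.toSys.Ax := .of axE_C3 axP_C3 axWC3

theorem axB3 : datB3.toSys.Ax := .of axE_B3 axP_B3 axWB3

theorem axD4 : datD4.toSys.Ax := .of axE_D4 axP_D4 axWD4

theorem axG2 : datG2.toSys.Ax := .of axE_G2 axP_G2 axWG2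

end Pool.Agent.Lib.MP_755cca_al.F
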