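import Pool.Agent.Lib.MP_755cca_al.F.Gen

/-! Basic facts of the generic machine. -/

open Matrix

namespace Pool.Agent.Lib.MP_755cca_al.F

namespace Bs

section Mon

variable {M : Type} [Monoid M]

theorem closure_inv {s : Set M}
    (h : ∀ g ∈ s, ∃ g' ∈ Submonoid.closure s, g * g' = 1 ∧ g' * g = 1) :
    ∀ g ∈ Submonoid.closure s, ∃ g' ∈ Submonoid.closure s, g * g' = 1 ∧ g' * g = 1 := by
  intro g hg
  induction hg using Submonoid.closure_induction with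
  | mem A hA => exact h A hA
  | one => exact ⟨1, one_mem _, by simp, by simp⟩
  | mul A B _ _ hA hB =>
    obtain ⟨A', h1, h2, h3⟩ := hA
    obtain ⟨B', h4, h5, h6⟩ := hB
    refine ⟨B' * A', mul_mem h4 h1, ?_, ?_⟩
    · rw [mul_assoc, ← mul_assoc B, h5, one_mul, h2]
    · rw [mul_assoc, ← mul_assoc A', h3, one_mul, h6]

/-- `g N ⊆ N g` -/
def Nl (N : Submonoid M) (g : M) : Prop := ∀ w ∈ N, ∃ w' ∈ N, g * w = w' * g

/-- `N g ⊆ g N` -/
def Nr (N : Submonoid M) (g : M) : Prop := ∀ w ∈ N, ∃ w' ∈ N, w * g = g * w'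

theorem Nl.one (N : Submonoid M) : Nl N 1 := fun w hw => ⟨w, hw, by simp⟩

theorem Nr.one (N : Submonoid M) : Nr N 1 := fun w hw => ⟨w, hw, by simp⟩

theorem Nl.mul {N : Submonoid M} {g g' : M} (h : Nl N g) (h' : Nl N g') : Nl N (g * g') := by
  intro w hw
  obtain ⟨w₁, h1, e1⟩ := h' w hw
  obtain ⟨w₂, h2, e2⟩ := h w₁ h1
  exact ⟨w₂, h2, by rw [mul_assoc, e1, ← mul_assoc, e2, mul_assoc]⟩

theorem Nr.mul {N : Submonoid M} {g g' : M} (h : Nr N g) (h' : Nr N g') : Nr N (g * g') := by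
  intro w hw
  obtain ⟨w₁, h1, e1⟩ := h w hw
  obtain ⟨w₂, h2, e2⟩ := h' w₁ h1
  exact ⟨w₂, h2, by rw [← mul_assoc, e1, mul_assoc, e2, mul_assoc]⟩

theorem Nl.nr {N : Submonoid M} {g g' : M} (h : Nl N g') (h1 : g * g' = 1) (h2 : g' * g = 1) :
    Nr N g := by
  intro w hw
  obtain ⟨w', h3, e⟩ := h w hw
  refine ⟨w', h3, ?_⟩
  calc w * g = g * g' * w * g := by rw [h1, one_mul]
    _ = g * (g' * w) * g := by rw [mul_assoc g]
    _ = g * w' * (g' * g) := by rw [e]; simp only [mul_assoc]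
    _ = g * w' := by rw [h2, mul_one]

theorem Nl.of_gens {s : Set M} {g : M}
    (h : ∀ y ∈ s, ∃ w ∈ Submonoid.closure s, g * y = w * g) : Nl (Submonoid.closure s) g := by
  intro y hy
  induction hy using Submonoid.closure_induction with
  | mem A hA => exact h A hA
  | one => exact ⟨1, one_mem _, by simp⟩
  | mul A B _ _ hA hB =>
    obtain ⟨A', h1, h2⟩ := hA
    obtain ⟨B', h3, h4⟩ := hB
    exact ⟨A' * B', mul_mem h1 h3, by rw [← mul_assoc, h2, mul_assoc, h4, mul_assoc]⟩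

theorem Nl.closure {N : Submonoid M} {s : Set M} (h : ∀ g ∈ s, Nl N g) :
    ∀ g ∈ Submonoid.closure s, Nl N g := by
  intro g hg
  induction hg using Submonoid.closure_induction with
  | mem A hA => exact h A hA
  | one => exact Nl.one N
  | mul A B _ _ hA hB => exact hA.mul hB

/-- generation of the integer matrices of determinant one -/
theorem sl2_gen (f : ℤ → ℤ → ℤ → ℤ → M)
    (hf : ∀ a b c d a' b' c' d', f a b c d * f a' b' c' d' =
      f (a * a' + b * c') (a * b' + b * d') (c * a' + d * c') (c * b' + d * d'))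
    {S : Submonoid M} (h1 : ∀ t, f 1 t 0 1 ∈ S) (h2 : ∀ t, f 1 0 t 1 ∈ S) {a b c d : ℤ}
    (h : a * d - b * c = 1) : f a b c d ∈ S := by
  have key : ∀ γ : SpecialLinearGroup (Fin 2) ℤ,
      f (γ.1 0 0) (γ.1 0 1) (γ.1 1 0) (γ.1 1 1) ∈ S := by
    intro γ
    have hγ : γ ∈ Subgroup.closure {ModularGroup.S, ModularGroup.T} := by
      rw [SpecialLinearGroup.SL2Z_generators]; trivial
    induction hγ using Subgroup.closure_induction'' with
    | mem x hx =>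
      rcases hx with rfl | rfl
      · simpa [hf, ModularGroup.S] using mul_mem (mul_mem (h1 (-1)) (h2 1)) (h1 (-1))
      · simpa [ModularGroup.T] using h1 1
    | inv_mem x hx =>
      rcases hx with rfl | rfl
      · rw [SpecialLinearGroup.SL2_inv_expl]
        simpa [hf, ModularGroup.S] using mul_mem (mul_mem (h1 1) (h2 (-1))) (h1 1)
      · rw [SpecialLinearGroup.SL2_inv_expl]
        simpa [ModularGroup.T] using h1 (-1)
    | one => simpa using h1 0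
    | mul x y _ _ hx hy =>
      have := mul_mem hx hy
      rw [hf] at this
      have e : (x * y).1 = x.1 * y.1 := rfl
      simpa [e, mul_apply, Fin.sum_univ_two] using this
  exact key ⟨!![a, b; c, d], by simpa [det_fin_two] using h⟩

end Mon

theorem tr_mem {ι R : Type} [Fintype ι] [DecidableEq ι] [CommRing R] {s : Set (Matrix ι ι R)}
    {g : Matrix ι ι R} (hg : g ∈ Submonoid.closure (transpose '' s)) :
    gᵀ ∈ Submonoid.closure s := by
  induction hg using Submonoid.closure_induction with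
  | mem A hA =>
    obtain ⟨B, hB, rfl⟩ := hA
    exact Submonoid.subset_closure hB
  | one => rw [transpose_one]; exact one_mem _
  | mul A B _ _ hA hB => rw [transpose_mul]; exact mul_mem hB hA

variable {S : Sys} (ax : S.Ax) (R : Type) [CommRing R]

include ax

theorem nn_ni (i : Fin S.r) : S.nn R i * S.ni R i = 1 ∧ S.ni R i * S.nn R i = 1 := by
  constructor <;> simp [Sys.nn, Sys.ni, ax.p_mul, ax.p_one]

theorem ni_cube (i : Fin S.r) : S.ni R i = S.nn R i * S.nn R i * S.nn R i := by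
  simp [Sys.nn, Sys.ni, ax.p_mul]

theorem x_inv (a : Fin S.N) (t : R) :
    S.x R a t * S.x R a (-t) = 1 ∧ S.x R a (-t) * S.x R a t = 1 := by
  constructor <;> rw [← ax.x_add] <;> simp [ax.x_zero]

omit ax in
theorem x_mem {Z : Set (Fin S.N)} {a : Fin S.N} (ha : a ∈ Z) (t : R) : S.x R a t ∈ S.XZ R Z :=
  Submonoid.subset_closure ⟨a, ha, t, rfl⟩

theorem XZ_inv (Z : Set (Fin S.N)) :
    ∀ g ∈ S.XZ R Z, ∃ g' ∈ S.XZ R Z, g * g' = 1 ∧ g' * g = 1 := by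
  refine closure_inv ?_
  rintro _ ⟨a, ha, t, rfl⟩
  exact ⟨_, x_mem R ha (-t), x_inv ax R a t⟩

omit ax in
theorem U_eq : S.U R = S.XZ R Set.univ := by
  unfold Sys.U Sys.XZ Sys.pos
  simp

omit ax in
theorem XZ_mono {Z Z' : Set (Fin S.N)} (h : Z ⊆ Z') : S.XZ R Z ≤ S.XZ R Z' := by
  refine Submonoid.closure_mono ?_
  rintro _ ⟨a, ha, t, rfl⟩
  exact ⟨a, h ha, t, rfl⟩

theorem T_inv : ∀ g ∈ S.T R, ∃ g' ∈ S.T R, g * g' = 1 ∧ g' * g = 1 := by
  refine closure_inv ?_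
  rintro _ ⟨i, u, v, huv, rfl⟩
  have hvu : v * u = 1 := by rw [mul_comm, huv]
  refine ⟨S.p R i v 0 0 u, Submonoid.subset_closure ⟨i, v, u, hvu, rfl⟩, ?_, ?_⟩ <;>
    simp [ax.p_mul, huv, hvu, ax.p_one]

theorem G_inv : ∀ g ∈ S.G R, ∃ g' ∈ S.G R, g * g' = 1 ∧ g' * g = 1 := by
  refine closure_inv ?_
  rintro _ (⟨a, t, rfl⟩ | ⟨_, ⟨a, t, rfl⟩, rfl⟩)
  · exact ⟨_, Submonoid.subset_closure (Or.inl ⟨a, -t, rfl⟩), x_inv ax R a t⟩
  · refine ⟨(S.x R a (-t))ᵀ, Submonoid.subset_closure (Or.inr ⟨_, ⟨a, -t, rfl⟩, rfl⟩), ?_, ?_⟩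
    · rw [← transpose_mul, (x_inv ax R a t).2, transpose_one]
    · rw [← transpose_mul, (x_inv ax R a t).1, transpose_one]

section Closed

variable {i : Fin S.r} {Z : Set (Fin S.N)} (hi : S.s i ∉ Z)
  (hZ : ∀ a ∈ Z, (∀ b ∈ S.ct i a, b ∈ Z) ∧ S.rho i a ∈ Z)

include hi hZ

theorem nl_x (u : R) : Nl (S.XZ R Z) (S.x R (S.s i) u) := by
  refine Nl.of_gens ?_
  rintro _ ⟨a, ha, t, rfl⟩
  obtain ⟨w, hw, e⟩ := ax.conj_x R i a (fun h => hi (h ▸ ha)) u t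
  exact ⟨w, XZ_mono R (fun b hb => (hZ a ha).1 b hb) hw, e⟩

theorem nr_x (u : R) : Nr (S.XZ R Z) (S.x R (S.s i) u) :=
  (nl_x ax R hi hZ (-u)).nr (x_inv ax R _ u).1 (x_inv ax R _ u).2

theorem nl_n : Nl (S.XZ R Z) (S.nn R i) := by
  refine Nl.of_gens ?_
  rintro _ ⟨a, ha, t, rfl⟩
  obtain ⟨e, -, h⟩ := ax.conj_n i a (fun h => hi (h ▸ ha))
  exact ⟨_, x_mem R (hZ a ha).2 _, h R t⟩

theorem nl_ni : Nl (S.XZ R Z) (S.ni R i) := by
  rw [ni_cube ax]
  exact ((nl_n ax R hi hZ).mul (nl_n ax R hi hZ)).mul (nl_n ax R hi hZ)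

theorem nr_n : Nr (S.XZ R Z) (S.nn R i) :=
  (nl_ni ax R hi hZ).nr (nn_ni ax R i).1 (nn_ni ax R i).2

theorem nr_ni : Nr (S.XZ R Z) (S.ni R i) :=
  (nl_n ax R hi hZ).nr (nn_ni ax R i).2 (nn_ni ax R i).1

end Closed

theorem sig_closed (i : Fin S.r) : ∀ a ∈ {a | a ≠ S.s i},
    (∀ b ∈ S.ct i a, b ∈ {a | a ≠ S.s i}) ∧ S.rho i a ∈ {a | a ≠ S.s i} :=
  fun a ha => ⟨fun b hb => ax.ct_ne i a ha b hb, ax.rho_ne i a ha⟩

omit ax in
theorem sig_not (i : Fin S.r) : S.s i ∉ {a | a ≠ S.s i} := fun h => h rfl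

theorem U_split (i : Fin S.r) : ∀ u ∈ S.U R,
    (∃ t, ∃ w ∈ S.XZ R {a | a ≠ S.s i}, u = S.x R (S.s i) t * w) ∧
    ∃ t, ∃ w ∈ S.XZ R {a | a ≠ S.s i}, u = w * S.x R (S.s i) t := by
  have h1 : ∀ u ∈ S.U R, ∃ t, ∃ w ∈ S.XZ R {a | a ≠ S.s i}, u = S.x R (S.s i) t * w := by
    intro u hu
    induction hu using Submonoid.closure_induction with
    | mem A hA =>
      obtain ⟨a, t, rfl⟩ := hA
      by_cases ha : a = S.s i
      · exact ⟨t, 1, one_mem _, by rw [ha, mul_one]⟩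
      · exact ⟨0, _, x_mem R ha t, by rw [ax.x_zero, one_mul]⟩
    | one => exact ⟨0, 1, one_mem _, by rw [ax.x_zero, one_mul]⟩
    | mul A B _ _ hA hB =>
      obtain ⟨t, w, hw, rfl⟩ := hA
      obtain ⟨t', w', hw', rfl⟩ := hB
      obtain ⟨w₁, h₁, e⟩ := nr_x ax R (sig_not i) (sig_closed ax i) t' w hw
      refine ⟨t + t', w₁ * w', mul_mem h₁ hw', ?_⟩
      rw [ax.x_add, mul_assoc, ← mul_assoc w, e]
      simp only [mul_assoc]
  intro u hu
  obtain ⟨t, w, hw, rfl⟩ := h1 u hu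
  obtain ⟨w', h', e⟩ := nl_x ax R (sig_not i) (sig_closed ax i) t w hw
  exact ⟨⟨t, w, hw, rfl⟩, t, w', h', e⟩

theorem nl_T (Z : Set (Fin S.N)) : ∀ h ∈ S.T R, Nl (S.XZ R Z) h := by
  refine Nl.closure ?_
  rintro _ ⟨i, u, v, huv, rfl⟩
  refine Nl.of_gens ?_
  rintro _ ⟨a, ha, t, rfl⟩
  obtain ⟨c, e⟩ := ax.tor_x R i a u v huv t
  exact ⟨_, x_mem R ha c, e⟩

theorem nr_T (Z : Set (Fin S.N)) : ∀ h ∈ S.T R, Nr (S.XZ R Z) h := by
  intro h hh
  obtain ⟨h', h1, h2, h3⟩ := T_inv ax R h hh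
  exact (nl_T ax R Z h' h1).nr h2 h3

theorem T_nl_n (j : Fin S.r) : Nl (S.T R) (S.nn R j) := by
  refine Nl.of_gens ?_
  rintro _ ⟨i, u, v, huv, rfl⟩
  exact ax.tor_n R i j u v huv

theorem T_nr_n (j : Fin S.r) : Nr (S.T R) (S.nn R j) := by
  have : Nl (S.T R) (S.ni R j) := by
    rw [ni_cube ax]
    exact ((T_nl_n ax R j).mul (T_nl_n ax R j)).mul (T_nl_n ax R j)
  exact this.nr (nn_ni ax R j).1 (nn_ni ax R j).2

theorem T_nw (l : List (Fin S.r)) : Nl (S.T R) (S.nw R l) ∧ Nr (S.T R) (S.nw R l) := by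
  induction l with
  | nil => exact ⟨Nl.one _, Nr.one _⟩
  | cons j l ih =>
    have e : S.nw R (j :: l) = S.nn R j * S.nw R l := by simp [Sys.nw]
    rw [e]
    exact ⟨(T_nl_n ax R j).mul ih.1, (T_nr_n ax R j).mul ih.2⟩

theorem Bo_mul : ∀ b ∈ S.Bo R, ∀ b' ∈ S.Bo R, b * b' ∈ S.Bo R := by
  rintro _ ⟨h, hh, u, hu, rfl⟩ _ ⟨h', hh', u', hu', rfl⟩
  rw [U_eq] at hu hu'
  obtain ⟨w, hw, e⟩ := nr_T ax R Set.univ h' hh' u hu
  refine ⟨h * h', mul_mem hh hh', w * u', by rw [U_eq]; exact mul_mem hw hu', ?_⟩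
  rw [mul_assoc, ← mul_assoc u, e]
  simp only [mul_assoc]

theorem Bo_inv : ∀ b ∈ S.Bo R, ∃ b' ∈ S.Bo R, b * b' = 1 ∧ b' * b = 1 := by
  rintro _ ⟨h, hh, u, hu, rfl⟩
  rw [U_eq] at hu
  obtain ⟨h', h1, h2, h3⟩ := T_inv ax R h hh
  obtain ⟨u', h4, h5, h6⟩ := XZ_inv ax R _ u hu
  obtain ⟨w, hw, e⟩ := nr_T ax R Set.univ h' h1 u' h4
  refine ⟨u' * h', ⟨h', h1, w, by rw [U_eq]; exact hw, e⟩, ?_, ?_⟩
  · rw [mul_assoc, ← mul_assoc u, h5, one_mul, h2]
  · rw [mul_assoc, ← mul_assoc h', h3, one_mul, h6]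

theorem Bo_p (i : Fin S.r) (a b d : R) (h : a * d = 1) : S.p R i a b 0 d ∈ S.Bo R := by
  refine ⟨S.p R i a 0 0 d, Submonoid.subset_closure ⟨i, a, d, h, rfl⟩, S.p R i 1 (d * b) 0 1,
    ?_, ?_⟩
  · rw [ax.p_up]
    exact Submonoid.subset_closure ⟨_, _, rfl⟩
  · rw [ax.p_mul]
    simp [← mul_assoc, h]

theorem U_tri : ∀ u ∈ S.U R, (∀ b c, c < b → u b c = 0) ∧ ∀ b, u b b = 1 := by
  intro u hu
  induction hu using Submonoid.closure_induction with
  | mem A hA =>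
    obtain ⟨a, t, rfl⟩ := hA
    exact ⟨ax.tri R a t, ax.diag R a t⟩
  | one => exact ⟨fun i j h => one_apply_ne h.ne', fun i => one_apply_eq i⟩
  | mul A B _ _ hA hB =>
    refine ⟨fun i j h => ?_, fun i => ?_⟩
    · rw [mul_apply]
      refine Finset.sum_eq_zero fun k _ => ?_
      rcases lt_or_ge k i with h' | h'
      · rw [hA.1 i k h', zero_mul]
      · rw [hB.1 k j (lt_of_lt_of_le h h'), mul_zero]
    · rw [mul_apply, Finset.sum_eq_single i]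
      · rw [hA.2, hB.2, one_mul]
      · intro k _ hk
        rcases lt_or_gt_of_ne hk with h | h
        · rw [hA.1 i k h, zero_mul]
        · rw [hB.1 k i h, mul_zero]
      · simp

theorem UV : ∀ u ∈ S.U R, u ∈ S.V R → u = 1 := by
  intro u hu hv
  have h1 := U_tri ax R u hu
  have h2 := U_tri ax R uᵀ (tr_mem hv)
  ext b c
  rcases lt_trichotomy b c with h | rfl | h
  · rw [one_apply_ne h.ne]
    exact h2.1 c b h
  · rw [one_apply_eq, h1.2]
  · rw [one_apply_ne h.ne', h1.1 b c h]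

theorem T_diag : ∀ h ∈ S.T R, h.IsDiag := by
  intro h hh
  induction hh using Submonoid.closure_induction with
  | mem A hA =>
    obtain ⟨i, u, v, -, rfl⟩ := hA
    exact ax.tor_diag R i u v
  | one => exact isDiag_one
  | mul A B _ _ hA hB =>
    intro i j hij
    rw [mul_apply]
    refine Finset.sum_eq_zero fun k _ => ?_
    by_cases hk : i = k
    · subst hk
      rw [hB hij, mul_zero]
    · rw [hA hk, zero_mul]

omit ax in
theorem red_mul (g g' : S.Mat ℤ) : S.red R (g * g') = S.red R g * S.red R g' :=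
  Matrix.map_mul

omit ax in
theorem red_one : S.red R 1 = 1 :=
  Matrix.map_one _ (map_zero _) (map_one _)

theorem red_x (a : Fin S.N) (t : ℤ) : S.red R (S.x ℤ a t) = S.x R a t :=
  ax.nat_x ℤ R (Int.castRingHom R) a t

theorem red_p (i : Fin S.r) (a b c d : ℤ) : S.red R (S.p ℤ i a b c d) = S.p R i a b c d :=
  ax.nat_p ℤ R (Int.castRingHom R) i a b c d

theorem red_nw (l : List (Fin S.r)) : S.red R (S.nw ℤ l) = S.nw R l := by
  induction l with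
  | nil => exact red_one R
  | cons j l ih =>
    have e : ∀ (R : Type) [CommRing R], S.nw R (j :: l) = S.nn R j * S.nw R l := by
      intro R _; simp [Sys.nw]
    rw [e, e, red_mul, ih]
    congr 1
    unfold Sys.nn
    rw [red_p ax]
    simp

omit ax in
theorem red_closure {s : Set (S.Mat ℤ)} {N : Submonoid (S.Mat R)} (h : ∀ g ∈ s, S.red R g ∈ N) :
    ∀ g ∈ Submonoid.closure s, S.red R g ∈ N := by
  intro g hg
  induction hg using Submonoid.closure_induction with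
  | mem A hA => exact h A hA
  | one => rw [red_one]; exact one_mem _
  | mul A B _ _ hA hB => rw [red_mul]; exact mul_mem hA hB

theorem red_U : ∀ u ∈ S.U ℤ, S.red R u ∈ S.U R := by
  refine red_closure R ?_
  rintro _ ⟨a, t, rfl⟩
  rw [red_x ax]
  exact Submonoid.subset_closure ⟨_, _, rfl⟩

theorem red_T : ∀ h ∈ S.T ℤ, S.red R h ∈ S.T R := by
  refine red_closure R ?_
  rintro _ ⟨i, u, v, huv, rfl⟩
  rw [red_p ax]
  refine Submonoid.subset_closure ⟨i, u, v, ?_, by simp⟩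
  exact_mod_cast congrArg (Int.cast : ℤ → R) huv

theorem red_G : ∀ g ∈ S.G ℤ, S.red R g ∈ S.G R := by
  refine red_closure R ?_
  rintro _ (⟨a, t, rfl⟩ | ⟨_, ⟨a, t, rfl⟩, rfl⟩)
  · rw [red_x ax]
    exact Submonoid.subset_closure (Or.inl ⟨_, _, rfl⟩)
  · have : S.red R (S.x ℤ a t)ᵀ = (S.red R (S.x ℤ a t))ᵀ := rfl
    rw [this, red_x ax]
    exact Submonoid.subset_closure (Or.inr ⟨_, ⟨_, _, rfl⟩, rfl⟩)

theorem p_G (i : Fin S.r) (a b c d : ℤ) (h : a * d - b * c = 1) : S.p ℤ i a b c d ∈ S.G ℤ := by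
  refine sl2_gen (S.p ℤ i) (ax.p_mul ℤ i) (fun t => ?_) (fun t => ?_) h
  · rw [ax.p_up]
    exact Submonoid.subset_closure (Or.inl ⟨_, _, rfl⟩)
  · rw [← ax.p_tr, ax.p_up]
    exact Submonoid.subset_closure (Or.inr ⟨_, ⟨_, _, rfl⟩, rfl⟩)

theorem nw_G (l : List (Fin S.r)) : S.nw ℤ l ∈ S.G ℤ := by
  refine list_prod_mem ?_
  intro g hg
  obtain ⟨j, -, rfl⟩ := List.mem_map.1 hg
  exact p_G ax j 0 1 (-1) 0 (by norm_num)

theorem T_int : S.T ℤ ≤ Submonoid.closure {g | ∃ k, g = S.p ℤ k (-1) 0 0 (-1)} := by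
  refine Submonoid.closure_le.2 ?_
  rintro _ ⟨i, u, v, huv, rfl⟩
  rcases Int.eq_one_or_neg_one_of_mul_eq_one' huv with ⟨rfl, rfl⟩ | ⟨rfl, rfl⟩
  · rw [ax.p_one]; exact one_mem _
  · exact Submonoid.subset_closure ⟨i, rfl⟩

theorem p_norm (i : Fin S.r) (Z : Set (Fin S.N)) (hi : S.s i ∉ Z)
    (hZ : ∀ a ∈ Z, (∀ b ∈ S.ct i a, b ∈ Z) ∧ S.rho i a ∈ Z) (a b c d : ℤ)
    (h : a * d - b * c = 1) :
    Nl (S.XZ ℤ Z) (S.p ℤ i a b c d) ∧ Nr (S.XZ ℤ Z) (S.p ℤ i a b c d) := by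
  let N : Submonoid (S.Mat ℤ) :=
    { carrier := {g | Nl (S.XZ ℤ Z) g ∧ Nr (S.XZ ℤ Z) g}
      mul_mem' := fun ha hb => ⟨ha.1.mul hb.1, ha.2.mul hb.2⟩
      one_mem' := ⟨Nl.one _, Nr.one _⟩ }
  have hx : ∀ t, S.x ℤ (S.s i) t ∈ N := fun t => ⟨nl_x ax ℤ hi hZ t, nr_x ax ℤ hi hZ t⟩
  have hn : S.nn ℤ i ∈ N := ⟨nl_n ax ℤ hi hZ, nr_n ax ℤ hi hZ⟩
  have hn' : S.ni ℤ i ∈ N := ⟨nl_ni ax ℤ hi hZ, nr_ni ax ℤ hi hZ⟩
  refine sl2_gen (S := N) (S.p ℤ i) (ax.p_mul ℤ i) (fun t => ?_) (fun t => ?_) h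
  · rw [ax.p_up]; exact hx t
  · have e : S.p ℤ i 1 0 t 1 = S.ni ℤ i * S.x ℤ (S.s i) (-t) * S.nn ℤ i := by
      rw [← ax.p_up]
      simp [Sys.nn, Sys.ni, ax.p_mul]
    rw [e]
    exact mul_mem (mul_mem hn' (hx _)) hn

end Bs

open Bs in
theorem basSt : BasSt := fun S ax =>
  { nn_ni := fun R _ => nn_ni ax R
    XZ_inv := fun R _ => XZ_inv ax R
    U_eq := fun R _ => U_eq R
    XZ_le := fun R _ Z => by rw [U_eq]; exact XZ_mono R (Set.subset_univ Z)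
    U_inv := fun R _ => by rw [U_eq]; exact XZ_inv ax R _
    T_inv := fun R _ => T_inv ax R
    G_inv := fun R _ => G_inv ax R
    U_split := fun R _ => U_split ax R
    nn_norm := fun R _ i w hw => ⟨nl_n ax R (sig_not i) (sig_closed ax i) w hw,
      nr_n ax R (sig_not i) (sig_closed ax i) w hw⟩
    T_norm := fun R _ Z h hh w hw => ⟨nl_T ax R Z h hh w hw, nr_T ax R Z h hh w hw⟩
    nw_T := fun R _ l h hh => ⟨(T_nw ax R l).1 h hh, (T_nw ax R l).2 h hh⟩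
    ni_eq := fun R _ i => ⟨S.p R i (-1) 0 0 (-1),
      Submonoid.subset_closure ⟨i, -1, -1, by simp, rfl⟩, by simp [Sys.nn, Sys.ni, ax.p_mul]⟩
    Bo_mul := fun R _ => Bo_mul ax R
    Bo_inv := fun R _ => Bo_inv ax R
    Bo_p := fun R _ => Bo_p ax R
    U_tri := fun R _ => U_tri ax R
    UV := fun R _ => UV ax R
    T_diag := fun R _ => T_diag ax R
    red_mul := fun R _ => red_mul R
    red_x := fun R _ => red_x ax R
    red_p := fun R _ => red_p ax R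
    red_nw := fun R _ => red_nw ax R
    red_U := fun R _ => red_U ax R
    red_T := fun R _ => red_T ax R
    red_G := fun R _ => red_G ax R
    p_G := p_G ax
    U_G := Submonoid.closure_mono Set.subset_union_left
    T_G := Submonoid.closure_le.2 (by
      rintro _ ⟨i, u, v, huv, rfl⟩
      exact p_G ax i u 0 0 v (by simpa using huv))
    nw_G := nw_G ax
    T_int := T_int ax
    p_norm := fun i Z hi hZ a b c d h w hw =>
      ⟨(p_norm ax i Z hi hZ a b c d h).1 w hw, (p_norm ax i Z hi hZ a b c d h).2 w hw⟩ }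

end Pool.Agent.Lib.MP_755cca_al.F
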