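import Pool.Agent.Lib.MP_755cca_al.F.Gen

/-! Making the lowest minors coprime. -/

open Matrix
open scoped Pointwise

namespace Pool.Agent.Lib.MP_755cca_al.F

namespace Cp

variable {S : Sys}

/-- one step of the Demazure product -/
def d1 (S : Sys) (π : Fin S.n → Fin S.n) (j : Fin S.r) : Fin S.n → Fin S.n :=
  if S.up π j then π ∘ S.sg j else π

theorem dem_cons (π : Fin S.n → Fin S.n) (j : Fin S.r) (l : List (Fin S.r)) :
    S.dem π (j :: l) = S.dem (d1 S π j) l := rfl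

/-- at most one minor, with index in `K`, will vanish at the prime `p` -/
def Good (S : Sys) (K : Set (Fin S.r)) (p : ℕ) (g : S.Mat ℤ) (l : List (Fin S.r)) : Prop :=
  ∃ σ, S.red (ZMod p) g ∈ S.Cell (ZMod p) σ ∧ ∃ k₀ ∈ K, ∀ k, k ≠ k₀ → S.hit k (S.dem σ l)

/-- the conditions on the rational cell -/
def Ok (S : Sys) (K : Set (Fin S.r)) (ρ : Fin S.n → Fin S.n) (l : List (Fin S.r)) : Prop :=
  (∀ k, S.hit k (S.dem ρ l)) ∧ ∀ l₁ j l₂, l = l₁ ++ j :: l₂ → ¬ S.up (S.dem ρ l₁) j →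
    ∃ k₀ ∈ K, ∀ k, k ≠ k₀ → S.hit k (S.dem (S.dem ρ l₁ ∘ S.sg j) l₂)

theorem Ok.tail {K : Set (Fin S.r)} {ρ : Fin S.n → Fin S.n} {j : Fin S.r} {l : List (Fin S.r)}
    (h : Ok S K ρ (j :: l)) : Ok S K (d1 S ρ j) l :=
  ⟨h.1, fun l₁ i l₂ e hu => h.2 (j :: l₁) i l₂ (by rw [e]; rfl) hu⟩

theorem red_step (hB : S.Bas) (R : Type) [CommRing R] (g : S.Mat ℤ) (j : Fin S.r) (t : ℤ) :
    S.red R (g * S.x ℤ (S.s j) t * S.ni ℤ j) = S.red R g * S.x R (S.s j) t * S.ni R j := by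
  rw [hB.red_mul, hB.red_mul, hB.red_x, Sys.ni, hB.red_p]
  simp [Sys.ni]

theorem cell_step (hF : S.Fld) (F : Type) [Field F] (σ : Fin S.n → Fin S.n) (j : Fin S.r)
    {g : S.Mat F} (hg : g ∈ S.Cell F σ) : ∃ t₀, ∀ t,
      (t ≠ t₀ → g * S.x F (S.s j) t * S.ni F j ∈ S.Cell F (d1 S σ j)) ∧
      (t = t₀ → g * S.x F (S.s j) t * S.ni F j ∈ S.Cell F (σ ∘ S.sg j)) := by
  by_cases hu : S.up σ j
  · refine ⟨0, fun t => ⟨fun _ => ?_, fun _ => hF.step_up F σ j hu g hg t⟩⟩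
    rw [d1, if_pos hu]
    exact hF.step_up F σ j hu g hg t
  · obtain ⟨t₀, h1, h2⟩ := hF.step_down F σ j hu g hg
    refine ⟨t₀, fun t => ⟨fun h => ?_, fun h => h ▸ h1⟩⟩
    rw [d1, if_neg hu]
    exact h2 t h

theorem avoid {m : ℕ} (hm : m ≠ 0) (r : ℕ → ℕ) (q : ℚ) :
    ∃ t : ℤ, (t : ℚ) ≠ q ∧ ∀ p : ℕ, p.Prime → p ∣ m → (t : ZMod p) = (r p : ZMod p) := by
  obtain ⟨k, hk⟩ := Nat.chineseRemainderOfFinset r id m.primeFactors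
    (fun p hp => (Nat.prime_of_mem_primeFactors hp).ne_zero)
    (fun p hp p' hp' h => (Nat.coprime_primes (Nat.prime_of_mem_primeFactors hp)
      (Nat.prime_of_mem_primeFactors hp')).2 h)
  have h1 : ∀ p : ℕ, p.Prime → p ∣ m → ((k : ℤ) : ZMod p) = (r p : ZMod p) := fun p hp hd => by
    rw [Int.cast_natCast]
    exact (ZMod.natCast_eq_natCast_iff _ _ _).2 (hk p (Nat.mem_primeFactors.2 ⟨hp, hd, hm⟩))
  by_cases h : ((k : ℤ) : ℚ) = q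
  · refine ⟨k + m, fun h2 => hm ?_, fun p hp hd => ?_⟩
    · rw [← h] at h2
      have : (k : ℤ) + m = k := by exact_mod_cast h2
      omega
    · rw [Int.cast_add, h1 p hp hd, Int.cast_natCast, (ZMod.natCast_eq_zero_iff _ _).2 hd,
        add_zero]
  · exact ⟨k, h, h1⟩

theorem step (hB : S.Bas) (hF : S.Fld) (hN : S.Fin') {K : Set (Fin S.r)} {i : Fin S.r} (hi : i ∈ K)
    {ρ : Fin S.n → Fin S.n} {j : Fin S.r} {l : List (Fin S.r)} (ho : Ok S K ρ (j :: l))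
    {g : S.Mat ℤ} (hq : S.red ℚ g ∈ S.Cell ℚ ρ) (hp : ∀ p : ℕ, p.Prime → Good S K p g (j :: l)) :
    ∃ t : ℤ, S.red ℚ (g * S.x ℤ (S.s j) t * S.ni ℤ j) ∈ S.Cell ℚ (d1 S ρ j) ∧
      ∀ p : ℕ, p.Prime → Good S K p (g * S.x ℤ (S.s j) t * S.ni ℤ j) l := by
  obtain ⟨m, hm, hgen⟩ := hN ρ g hq
  have h1 : ∀ p : ℕ, ∃ r : ℕ, p.Prime → ∀ t : ℤ, (t : ZMod p) = (r : ZMod p) →
      Good S K p (g * S.x ℤ (S.s j) t * S.ni ℤ j) l := by
    intro p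
    by_cases hpp : p.Prime
    · have : Fact p.Prime := ⟨hpp⟩
      obtain ⟨σ, h2, h3⟩ := hp p hpp
      obtain ⟨t₀, h4⟩ := cell_step hF (ZMod p) σ j h2
      refine ⟨(t₀ + 1).val, fun _ t ht => ⟨d1 S σ j, ?_, h3⟩⟩
      rw [red_step hB]
      refine (h4 t).1 ?_
      rw [ht, ZMod.natCast_zmod_val]
      simp
    · exact ⟨0, fun h => absurd h hpp⟩
  choose r hr using h1
  obtain ⟨q, h2⟩ := cell_step hF ℚ ρ j hq
  obtain ⟨t, h3, h4⟩ := avoid hm r q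
  refine ⟨t, by rw [red_step hB]; exact (h2 t).1 h3, fun p hpp => ?_⟩
  by_cases hd : p ∣ m
  · exact hr p hpp t (h4 p hpp hd)
  · have : Fact p.Prime := ⟨hpp⟩
    obtain ⟨t₀, h5⟩ := cell_step hF (ZMod p) ρ j (hgen p hd)
    by_cases ht : (t : ZMod p) = t₀
    · by_cases hu : S.up ρ j
      · refine ⟨ρ ∘ S.sg j, by rw [red_step hB]; exact (h5 t).2 ht, i, hi, fun k _ => ?_⟩
        have := ho.1 k
        rwa [dem_cons, d1, if_pos hu] at this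
      · exact ⟨ρ ∘ S.sg j, by rw [red_step hB]; exact (h5 t).2 ht, ho.2 [] j l rfl hu⟩
    · exact ⟨d1 S ρ j, by rw [red_step hB]; exact (h5 t).1 ht, i, hi, fun k _ => ho.1 k⟩

theorem adm (hM : S.Mnr) {K : Set (Fin S.r)} {ρ : Fin S.n → Fin S.n} (ho : Ok S K ρ [])
    {g : S.Mat ℤ} (hq : S.red ℚ g ∈ S.Cell ℚ ρ) (hp : ∀ p : ℕ, p.Prime → Good S K p g []) :
    S.Adm K fun k => S.D ℤ k g := by
  have h0 : ∀ k, S.D ℤ k g ≠ 0 := fun k h => by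
    have := (hM.cell ℚ k ρ _ hq).2 (ho.1 k)
    rw [hM.red_D, h] at this
    exact this Int.cast_zero
  have h1 : ∀ p : ℕ, p.Prime → ∃ k₀ ∈ K, ∀ k, k ≠ k₀ → ¬ p ∣ (S.D ℤ k g).natAbs := by
    intro p hpp
    have : Fact p.Prime := ⟨hpp⟩
    obtain ⟨σ, h2, k₀, h3, h4⟩ := hp p hpp
    refine ⟨k₀, h3, fun k hk hd => (hM.cell (ZMod p) k σ _ h2).2 (h4 k hk) ?_⟩
    rw [hM.red_D, ZMod.intCast_zmod_eq_zero_iff_dvd]
    exact Int.natCast_dvd.2 hd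
  refine ⟨h0, fun k k' hk => Int.isCoprime_iff_gcd_eq_one.2 ?_, fun k hk => ?_⟩
  · refine Nat.eq_one_iff_not_exists_prime_dvd.2 fun p hpp hd => ?_
    obtain ⟨k₀, -, h2⟩ := h1 p hpp
    by_cases e : k = k₀
    · exact h2 k' (fun e' => hk (e.trans e'.symm)) (hd.trans (Nat.gcd_dvd_right _ _))
    · exact h2 k e (hd.trans (Nat.gcd_dvd_left _ _))
  · have : (S.D ℤ k g).natAbs = 1 := Nat.eq_one_iff_not_exists_prime_dvd.2 fun p hpp hd => by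
      obtain ⟨k₀, h2, h3⟩ := h1 p hpp
      exact h3 k (fun e => hk (e ▸ h2)) hd
    show S.D ℤ k g * S.D ℤ k g = 1
    rw [← Int.natAbs_mul_self', this]
    rfl

theorem run (hA : S.Ax) (hB : S.Bas) (hW : S.Wrd) (hF : S.Fld) (hM : S.Mnr) (hN : S.Fin')
    {K : Set (Fin S.r)} {i : Fin S.r} (hi : i ∈ K) :
    ∀ (Y : List (Fin S.r)) (ρ : Fin S.n → Fin S.n), Ok S K ρ Y → ∀ g ∈ S.G ℤ,
      S.red ℚ g ∈ S.Cell ℚ ρ → (∀ p : ℕ, p.Prime → Good S K p g Y) →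
      ∃ g' ∈ S.G ℤ, ∃ c, g = g' * c ∧ S.Adm K (fun k => S.D ℤ k g') ∧
        ∀ l, S.Red (l ++ Y.reverse) → ∀ u ∈ S.U ℤ, ∃ u₁ ∈ S.U ℤ, ∃ u₂ ∈ S.U ℤ,
          S.nw ℤ l * u * c = u₁ * S.nw ℤ (l ++ Y.reverse) * u₂
  | [], ρ, ho, g, hg, hq, hp =>
    ⟨g, hg, 1, (mul_one g).symm, adm hM ho hq hp, fun l _ u hu => ⟨1, one_mem _, u, hu, by simp⟩⟩
  | j :: Y, ρ, ho, g, hg, hq, hp => by
    obtain ⟨t, h1, h2⟩ := step hB hF hN hi ho hq hp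
    have hx : ∀ t, S.x ℤ (S.s j) t ∈ S.U ℤ := fun t => Submonoid.subset_closure ⟨_, t, rfl⟩
    obtain ⟨g', hg', c, e, ha, hc⟩ := run hA hB hW hF hM hN hi Y _ ho.tail _
      (mul_mem (mul_mem hg (hB.U_G (hx t))) (hB.p_G j 0 (-1) 1 0 (by norm_num))) h1 h2
    refine ⟨g', hg', c * S.nn ℤ j * S.x ℤ (S.s j) (-t), ?_, ha, fun l hl u hu => ?_⟩
    · rw [← mul_assoc, ← mul_assoc, ← e, mul_assoc (g * _), ← Sys.ni, (hB.nn_ni ℤ j).2, mul_one,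
        mul_assoc, ← hA.x_add, add_neg_cancel, hA.x_zero, mul_one]
    · rw [List.reverse_cons, ← List.append_assoc] at hl ⊢
      obtain ⟨u₁, h3, u₂, h4, e1⟩ := hc l
        (fun l₁ k l₂ e => hl l₁ k (l₂ ++ [j]) (by rw [e]; simp)) u hu
      obtain ⟨u₃, h5, u₄, h6, e2⟩ := hW.push ℤ _ j (hl _ j [] rfl) u₂ h4
      refine ⟨u₁ * u₃, mul_mem h3 h5, u₄ * S.x ℤ (S.s j) (-t), mul_mem h6 (hx _), ?_⟩
      rw [← mul_assoc, ← mul_assoc, e1, mul_assoc u₁, mul_assoc u₁, e2]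
      simp only [mul_assoc]

end Cp

theorem copSt : CopSt := by
  rintro S hA hB hW hF hM hN K π i X ⟨hi, hR, -, h1, h2, h3⟩ g hg hq
  obtain ⟨g', hg', c, e, ha, hc⟩ := Cp.run hA hB hW hF hM hN hi X.reverse π ⟨h1, h3⟩ g hg hq
    (fun p hp => by
      have : Fact p.Prime := ⟨hp⟩
      obtain ⟨l, hl⟩ := hF.cover (ZMod p) _ (hB.red_G (ZMod p) g hg)
      exact ⟨_, hl, i, hi, h2 l⟩)
  refine ⟨g', hg', c, e, ha, fun u hu => ?_⟩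
  have := hc [i] (by rwa [List.reverse_reverse]) u hu
  rwa [List.reverse_reverse, show S.nw ℤ [i] = S.nn ℤ i by simp [Sys.nw]] at this

end Pool.Agent.Lib.MP_755cca_al.F
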