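import Pool.Agent.Lib.MP_755cca_al.Defs

/-! Root elements of the exceptional simply connected Chevalley groups over the integers. -/

open Matrix

namespace Pool.Agent.Lib.MP_755cca_al

/-- the root lattice of `E₈` in the basis of simple roots -/
abbrev Q8 : Type := Fin 8 → ℤ

/-- the invariant form -/
def ip (a b : Q8) : ℤ := a ⬝ᵥ CartanMatrix.E₈ *ᵥ b

/-- the bilinear sign cocycle of the orientation of the diagram towards the branch node -/
def eps (a b : Q8) : ℤ :=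
  Int.negOnePow (a ⬝ᵥ b + a 0 * b 2 + (a 1 + a 2 + a 4) * b 3 + a 5 * b 4 + a 6 * b 5 + a 7 * b 6)

/-- `exp (t ad e_a)` on the Chevalley lattice `h + ∑ c_b e_b` of `E₈`, where
`[e_a, e_{-a}] = -a` and `[e_a, e_b] = eps a b e_{a+b}`; coordinates at non-roots are fixed -/
def xE (a : Q8) (t : ℤ) : Function.End (Q8 × (Q8 → ℤ)) := fun v =>
  (v.1 - (t * v.2 (-a)) • a, fun b => v.2 b +
    if b = a then t ^ 2 * v.2 (-a) - t * ip a v.1
    else if ip b b = 2 ∧ ip a b = 1 then t * eps a (b - a) * v.2 (b - a) else 0)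

/-- roots of `E_n` of sign `s` -/
def IsRt (n : ℕ) (s : ℤ) (a : Q8) : Prop :=
  ip a a = 2 ∧ ∀ i, 0 ≤ s * a i ∧ (n ≤ i.val → a i = 0)

/-- root elements of `E_n` of sign `s` -/
def rootsE (n : ℕ) (s : ℤ) : Set (Function.End (Q8 × (Q8 → ℤ))) :=
  {g | ∃ a t, IsRt n s a ∧ g = xE a t}

/-- the diagram automorphism of `E₆` -/
def flipE (a : Q8) : Q8 := ![a 5, a 1, a 4, a 3, a 2, a 0, a 6, a 7]

/-- root elements of `F₄`, folded from `E₆` -/
def rootsF (s : ℤ) : Set (Function.End (Q8 × (Q8 → ℤ))) :=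
  {g | ∃ a t, IsRt 6 s a ∧ g = if flipE a = a then xE a t else xE a t * xE (flipE a) t}

/-- root elements of `G₂` inside `B₃` -/
def rootsG {R : Type} [Ring R] (s : ℤ) (e f : Fin 3 → R) : Set R :=
  {g | ∃ t : ℤ, g = 1 + t • (e 0 * e 1) ∨ g = 1 + t • (e 0 * e 2) ∨ g = 1 + t • (e 1 * f 2) ∨
    g = (1 + t • e 0) * (1 + (s * t) • (e 1 * e 2)) ∨
    g = (1 + t • e 1) * (1 + (s * t) • (e 0 * f 2)) ∨
    g = (1 + t • e 2) * (1 - (s * t) • (e 0 * f 1))}

/-- length of the group generated by all root elements -/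
def GenLen {M : Type} [Monoid M] (pos neg : Set M) (L : ℕ) : Prop :=
  HasLength (Submonoid.closure (pos ∪ neg) : Set M) pos neg L

end Pool.Agent.Lib.MP_755cca_al
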