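import Pool.Agent.Lib.MP_755cca_al.TypeB
import Pool.Agent.Lib.MP_755cca_al.F.Defs

/-! Statements of the pieces. -/

open Matrix
open scoped Pointwise

namespace Pool.Agent.Lib.MP_755cca_al.F

/-- `(U U⁻) ^ L` -/
def Pw {M : Type} [Monoid M] (pos neg : Set M) (L : ℕ) : Set M :=
  ((Submonoid.closure pos : Set M) * (Submonoid.closure neg : Set M)) ^ L

/-- upper bound for the group generated by all root elements -/
def Up {M : Type} [Monoid M] (pos neg : Set M) (L : ℕ) : Prop :=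
  (Submonoid.closure (pos ∪ neg) : Set M) ⊆ Pw pos neg L

/-- upper bound for `SL(n, ℤ)` -/
def UpA (n L : ℕ) : Prop := Up (posA n) (transpose '' posA n) L

/-- upper bound for `Sp(2 l, ℤ)` -/
def UpC (l L : ℕ) : Prop := Up (posC l) (transpose '' posC l) L

/-- upper bound for `Spin(2 l + 1, ℤ)`, in every ring with the anticommutation relations -/
def UpB (l : ℕ) : Prop :=
  ∀ (R : Type) [Ring R] (e f : Fin l → R), CAR e f → Up (rootsB e f) (rootsB f e) 2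

/-- upper bound for `Spin(2 l, ℤ)` -/
def UpD (l : ℕ) : Prop :=
  ∀ (R : Type) [Ring R] (e f : Fin l → R), CAR e f → Up (rootsD e f) (rootsD f e) 2

/-- upper bound for `G₂(ℤ)` -/
def UpG : Prop :=
  ∀ (R : Type) [Ring R] (e f : Fin 3 → R), CAR e f → Up (rootsG 1 e f) (rootsG (-1) f e) 2

/-- S1: the presentation of `SL(n, ℤ)` -/
def PresSt : Prop :=
  ∀ (M : Type) [Monoid M] (n : ℕ), 3 ≤ n → ∀ y : Fin n → Fin n → ℤ → M,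
    (∀ i j, i ≠ j → y i j 0 = 1) →
    (∀ i j, i ≠ j → ∀ s t, y i j (s + t) = y i j s * y i j t) →
    (∀ i j k l, i ≠ j → k ≠ l → j ≠ k → i ≠ l → ∀ s t,
      y i j s * y k l t = y k l t * y i j s) →
    (∀ i j k, i ≠ j → j ≠ k → i ≠ k → ∀ s t,
      y i j s * y j k t = y j k t * y i j s * y i k (s * t)) →
    (∀ i j, i ≠ j → (y i j 1 * y j i (-1) * y i j 1) ^ 4 = 1) →
    ∃ φ : SpecialLinearGroup (Fin n) ℤ →* M, ∀ i j (h : i ≠ j) t,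
      φ ⟨transvection i j t, det_transvection_of_ne i j h t⟩ = y i j t

/-- S2: the relations in the model of `E₈` -/
def RelESt : Prop :=
  (∀ a, xE a 0 = 1) ∧
  (∀ a, ip a a = 2 → ∀ s t, xE a (s + t) = xE a s * xE a t) ∧
  (∀ a b, ip a a = 2 → ip b b = 2 → 0 ≤ ip a b → ∀ s t, xE a s * xE b t = xE b t * xE a s) ∧
  (∀ a b, ip a a = 2 → ip b b = 2 → ip a b = -1 → ∀ s t,
    xE a s * xE b t = xE b t * xE a s * xE (a + b) (eps a b * s * t)) ∧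
  ∀ a, ip a a = 2 → (xE a 1 * xE (-a) 1 * xE a 1) ^ 4 = 1

/-- S3: facts on the roots of `E₈` -/
def RootESt : Prop :=
  (∀ a b, ip a b = ip b a) ∧
  (∀ a b, ip a a = 2 → ip b b = 2 → b = -a ∨ ip a b = -1 ∨ 0 ≤ ip a b) ∧
  (∀ a b, ip a a = 2 → ip b b = 2 → b = a ∨ ip a b ≤ 1) ∧
  (∀ a, ip a a = 2 → (∀ i, 0 ≤ a i) ∨ ∀ i, a i ≤ 0) ∧
  (∀ a, ip a a = 2 → (∀ i, 0 ≤ a i) → ∃ i, 0 < a i ∧
    (a = Pi.single i 1 ∨ ip a (Pi.single i 1) = 1)) ∧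
  (∀ a, IsRt 6 1 a → flipE a = a ∨ ip a (flipE a) = 0)

/-- S4: type `E` from type `A` -/
def StepESt : Prop :=
  PresSt → RelESt → RootESt → ∀ n, 6 ≤ n → n ≤ 8 → UpA n 2 → Up (rootsE n 1) (rootsE n (-1)) 2

/-- S5: type `F₄` from type `C₃` -/
def StepFSt : Prop := PresSt → RelESt → RootESt → UpC 3 2 → Up (rootsF 1) (rootsF (-1)) 2

/-- S6: the steps in types `A` and `C`, and generation -/
def StepACSt : Prop :=
  (∀ n L, 2 ≤ n → 2 ≤ L → UpA n L → UpA (n + 1) L) ∧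
  (∀ l, 2 ≤ l → UpC l 2 → UpC (l + 1) 2) ∧
  (∀ n, ∀ g : Matrix (Fin n) (Fin n) ℤ,
    g ∈ Submonoid.closure (posA n ∪ transpose '' posA n) ↔ g.det = 1) ∧
  ∀ l, Submonoid.closure (posC l ∪ transpose '' posC l) = symplecticGroup (Fin l) ℤ

/-- S7: the steps in types `B` and `D` -/
def StepBDSt : Prop :=
  PresSt → (∀ l, 2 ≤ l → UpB l → UpB (l + 1)) ∧ ∀ l, 3 ≤ l → UpD l → UpD (l + 1)

/-- S8: length one never suffices -/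
def NotOneSt : Prop :=
  (∀ n, 2 ≤ n → ¬ UpA n 1) ∧ (∀ l, 1 ≤ l → ¬ UpC l 1) ∧
  (∀ l, 2 ≤ l → ¬ Up (rootsB (cre l) (ann l)) (rootsB (ann l) (cre l)) 1) ∧
  (∀ l, 2 ≤ l → ¬ Up (rootsD (cre l) (ann l)) (rootsD (ann l) (cre l)) 1) ∧
  (∀ n, 6 ≤ n → n ≤ 8 → ¬ Up (rootsE n 1) (rootsE n (-1)) 1) ∧ ¬ Up (rootsF 1) (rootsF (-1)) 1 ∧
  ¬ Up (rootsG 1 (cre 3) (ann 3)) (rootsG (-1) (ann 3) (cre 3)) 1

/-- S9: leaf lemma -/
def LeafSt : Prop :=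
  ∀ P c s₁ s₃ : ℤ, P ≠ 0 → IsCoprime c P → s₁ * s₁ = 1 → s₃ * s₃ = 1 →
    ∃ x x' y y' b b' : ℤ, P ∣ x - c ∧ x * x' = s₁ + b * y ^ 2 * P ∧ y * y' = x ^ 2 - 1 ∧
      b * b' = x + s₃

/-- S10: path lemmas, `k = 1` and `k = 2` -/
def PathSt : Prop :=
  ∀ (k : ℕ) (P c s₁ s₂ u v : ℤ), k = 1 ∨ k = 2 → P ≠ 0 → IsCoprime c P → s₁ * s₁ = 1 →
    s₂ * s₂ = 1 → u ∣ P → v ∣ P →
    ∃ x x' y y' b b' : ℤ, P ∣ b - c ∧ x * x' = s₁ + s₂ * b ^ k * y ^ 2 ∧ y * y' = x ^ 2 - 1 ∧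
      b * b' = x * u + v

/-- S11: leaf lemma with a square -/
def LeafSqSt : Prop :=
  ∀ P c : ℤ, P ≠ 0 → IsCoprime c P →
    ∃ s x x' y y' b b' : ℤ, s * s = 1 ∧ P ∣ x - c ∧ x * x' = P.sign + b ^ 2 * y ^ 2 * P ∧
      y * y' = x ^ 2 + P.sign ∧ b * b' = x + s

/-- S12: the easier lower bounds -/
def LowSt : Prop := ¬ UpA 5 2 ∧ ¬ UpC 2 2

/-- S13: the lower bound for `SL(3, ℤ)` -/
def LowA2St : Prop := ¬ UpA 3 3

/-- the base cases -/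
def BaseSt : Prop :=
  UpA 3 4 ∧ UpA 4 3 ∧ UpA 6 2 ∧ UpC 2 3 ∧ UpC 3 2 ∧ UpB 3 ∧ UpD 4 ∧ UpG

/-- the final statement -/
def FinalSt : Prop :=
  (∀ l, 2 ≤ l → LenA l (if l = 2 then 4 else if l ≤ 4 then 3 else 2)) ∧
  (∀ l, 3 ≤ l → GenB (cre l) (ann l) 2) ∧
  (∀ l, 2 ≤ l → LenC l (if l = 2 then 3 else 2)) ∧
  (∀ l, 4 ≤ l → GenD (cre l) (ann l) 2) ∧
  (∀ n, 6 ≤ n → n ≤ 8 → GenLen (rootsE n 1) (rootsE n (-1)) 2) ∧
  GenLen (rootsF 1) (rootsF (-1)) 2 ∧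
  GenLen (rootsG 1 (cre 3) (ann 3)) (rootsG (-1) (ann 3) (cre 3)) 2

/-- S14: assembly -/
def TopSt : Prop :=
  PresSt → RelESt → RootESt → StepESt → StepFSt → StepACSt → StepBDSt → NotOneSt → LowSt →
    LowA2St → BaseSt → FinalSt

end Pool.Agent.Lib.MP_755cca_al.F
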