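import Pool.Agent.Lib.MP_755cca_al.Tr.D
import Pool.Agent.Lib.MP_755cca_al.F.Stmt

/-! The presentation of the special linear group over the integers. -/

open Matrix

namespace Pool.Agent.Lib.MP_755cca_al.F

open Tr

theorem pres_step {n : ℕ} (i j : Fin n) (c : ℤ) :
    step n (transvection i j c) = transvection i.succ j.succ c := by
  ext a b
  refine Fin.cases ?_ (fun a => ?_) a <;> refine Fin.cases ?_ (fun b => ?_) b <;>
    simp [step_apply, stepE, transvection, one_apply, single_apply, (Fin.succ_ne_zero _).symm]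

theorem pres_Um {ι : Type} [Fintype ι] [DecidableEq ι] (r : ι → ι → Prop) :
    Um r ≤ Um fun _ _ : ι => True := by
  refine Submonoid.closure_mono ?_
  rintro _ ⟨i, j, c, h, -, rfl⟩
  exact ⟨i, j, c, h, trivial, rfl⟩

/-- elementary matrices generate the special linear group -/
theorem pres_SL (n : ℕ) : ∀ g : Matrix (Fin (n + 2)) (Fin (n + 2)) ℤ, g.det = 1 →
    g ∈ Um fun _ _ : Fin (n + 2) => True := by
  induction n with
  | zero =>
    intro g hg
    have tv : ∀ (i j : Fin 2) (c : ℤ), i ≠ j → transvection i j c ∈ Um fun _ _ : Fin 2 => True :=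
      fun i j c h => Submonoid.subset_closure ⟨i, j, c, h, trivial, rfl⟩
    have key : ∀ A : SpecialLinearGroup (Fin 2) ℤ, A.1 ∈ Um fun _ _ : Fin 2 => True := by
      intro A
      have hA : A ∈ Subgroup.closure {ModularGroup.S, ModularGroup.T} := by
        rw [SpecialLinearGroup.SL2Z_generators]; trivial
      induction hA using Subgroup.closure_induction with
      | mem A hA =>
        rcases hA with rfl | rfl
        · have : (ModularGroup.S).1 =
              transvection 0 1 (-1) * transvection 1 0 1 * transvection 0 1 (-1) := by decide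
          rw [this]
          exact mul_mem (mul_mem (tv _ _ _ (by decide)) (tv _ _ _ (by decide)))
            (tv _ _ _ (by decide))
        · have : (ModularGroup.T).1 = transvection 0 1 1 := by decide
          rw [this]
          exact tv _ _ _ (by decide)
      | one => exact one_mem _
      | mul A B _ _ hA hB => exact mul_mem hA hB
      | inv A _ hA =>
        obtain ⟨B, hB, h1, -⟩ := Um.inv hA
        have : (A⁻¹).1 = B := by
          have e : (A⁻¹).1 * A.1 = 1 := congrArg Subtype.val (inv_mul_cancel A)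
          calc (A⁻¹).1 = (A⁻¹).1 * (A.1 * B) := by rw [h1, mul_one]
            _ = B := by rw [← mul_assoc, e, one_mul]
        rwa [this]
    exact key ⟨g, hg⟩
  | succ n ih =>
    intro g hg
    obtain ⟨S, h1, h2⟩ := step_fin (n := n + 2) (by omega) g (by rw [hg]; exact isUnit_one)
    obtain ⟨u₁, a1, v₁, a2, u₂, a3, v₂, a4, rfl⟩ := h2 S (Leads.refl _ _)
    refine mul_mem (mul_mem (mul_mem (mul_mem (pres_Um _ a1) (pres_Um _ a2)) ?_) (pres_Um _ a3))
      (pres_Um _ a4)
    refine Um.map (step (n + 2)) _ (fun i j c hij _ => ?_) (ih S (h1.trans hg))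
    rw [pres_step]
    exact Submonoid.subset_closure ⟨_, _, c, by simpa using hij, trivial, rfl⟩

section

variable {I : Type} [Fintype I] [DecidableEq I] {M : Type} [Monoid M]

/-- the pair of an elementary matrix and a root element -/
def presX (y : I → I → ℤ → M) (h0 : ∀ i j, i ≠ j → y i j 0 = 1)
    (ha : ∀ i j, i ≠ j → ∀ s t, y i j (s + t) = y i j s * y i j t) (i j : I) (t : ℤ) :
    SpecialLinearGroup I ℤ × Mˣ :=
  if h : i ≠ j then (⟨transvection i j t, det_transvection_of_ne i j h t⟩,
    ⟨y i j t, y i j (-t), by rw [← ha i j h, add_neg_cancel, h0 i j h],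
      by rw [← ha i j h, neg_add_cancel, h0 i j h]⟩) else 1

/-- the matrix of a pair -/
def presR1 (I M : Type) [Fintype I] [DecidableEq I] [Monoid M] :
    SpecialLinearGroup I ℤ × Mˣ →* Matrix I I ℤ where
  toFun g := g.1.1
  map_one' := rfl
  map_mul' _ _ := rfl

/-- the second component of a pair -/
def presR2 (I M : Type) [Fintype I] [DecidableEq I] [Monoid M] :
    SpecialLinearGroup I ℤ × Mˣ →* M where
  toFun g := g.2.1
  map_one' := rfl
  map_mul' _ _ := rfl

theorem pres_ext {g g' : SpecialLinearGroup I ℤ × Mˣ} (h1 : presR1 I M g = presR1 I M g')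
    (h2 : presR2 I M g = presR2 I M g') : g = g' :=
  Prod.ext (Subtype.ext h1) (Units.ext h2)

theorem pres_comm {i j k l : I} (hjk : j ≠ k) (hil : i ≠ l) (s t : ℤ) :
    transvection i j s * transvection k l t = transvection k l t * transvection i j s := by
  simp only [transvection, mul_add, add_mul, mul_one, one_mul, single_mul_single_of_ne _ _ _ _ hjk,
    single_mul_single_of_ne _ _ _ _ hil.symm]
  abel

theorem pres_st {i j k : I} (hjk : j ≠ k) (hik : i ≠ k) (s t : ℤ) :
    transvection i j s * transvection j k t =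
      transvection i k (s * t) * transvection j k t * transvection i j s := by
  simp only [transvection, mul_add, add_mul, mul_one, one_mul, single_mul_single_same,
    single_mul_single_of_ne _ _ _ _ hjk.symm, single_mul_single_of_ne _ _ _ _ hik.symm, add_zero]
  abel

/-- the presentation for an index type in which elementary matrices generate -/
theorem pres_gen (h3 : ∀ i j : I, ∃ k, k ≠ i ∧ k ≠ j)
    (hgen : ∀ g : Matrix I I ℤ, g.det = 1 → g ∈ Um fun _ _ : I => True) (y : I → I → ℤ → M)
    (h0 : ∀ i j, i ≠ j → y i j 0 = 1)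
    (ha : ∀ i j, i ≠ j → ∀ s t, y i j (s + t) = y i j s * y i j t)
    (hc : ∀ i j k l, i ≠ j → k ≠ l → j ≠ k → i ≠ l → ∀ s t,
      y i j s * y k l t = y k l t * y i j s)
    (hs : ∀ i j k, i ≠ j → j ≠ k → i ≠ k → ∀ s t,
      y i j s * y j k t = y j k t * y i j s * y i k (s * t))
    (h4 : ∀ i j, i ≠ j → (y i j 1 * y j i (-1) * y i j 1) ^ 4 = 1) :
    ∃ φ : SpecialLinearGroup I ℤ →* M, ∀ i j (h : i ≠ j) t,
      φ ⟨transvection i j t, det_transvection_of_ne i j h t⟩ = y i j t := by
  set x := presX y h0 ha with hx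
  have r1 : Rep x (presR1 I M) := fun i j t h => by simp [hx, presX, h, presR1]
  have r2 : ∀ i j t, i ≠ j → presR2 I M (x i j t) = y i j t := fun i j t h => by
    simp [hx, presX, h, presR2]
  have s0 : St0 x := by
    constructor
    · intro i j h s t
      refine pres_ext ?_ ?_
      · rw [map_mul, r1 _ _ _ h, r1 _ _ _ h, r1 _ _ _ h, transvection_mul_transvection_same _ _ h]
      · rw [map_mul, r2 _ _ _ h, r2 _ _ _ h, r2 _ _ _ h, ha _ _ h]
    · intro i j k l h1 h2 h3 h4 s t
      refine pres_ext ?_ ?_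
      · rw [map_mul, map_mul, r1 _ _ _ h1, r1 _ _ _ h2, pres_comm h3 h4]
      · rw [map_mul, map_mul, r2 _ _ _ h1, r2 _ _ _ h2, hc _ _ _ _ h1 h2 h3 h4]
    · intro i j k h1 h2 h3 s t
      refine pres_ext ?_ ?_
      · rw [map_mul, map_mul, map_mul, r1 _ _ _ h1, r1 _ _ _ h2, r1 _ _ _ h3, pres_st h2 h3]
      · rw [map_mul, map_mul, map_mul, r2 _ _ _ h1, r2 _ _ _ h2, r2 _ _ _ h3, hs _ _ _ h1 h2 h3,
          mul_assoc, hc _ _ _ _ h1 h3 h1.symm h3, ← mul_assoc, hc _ _ _ _ h2 h3 h3.symm h2]
  have s1 : St x := s0.toSt h3 fun {i j} h => by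
    refine pres_ext ?_ ?_
    · ext a l
      have e : w x i j ^ 4 = 1 * (w x i j * w x i j) * (w x i j * w x i j) := by
        simp [pow_succ, mul_assoc]
      rw [e, r1.mul_ww h, r1.mul_ww h]
      split_ifs <;> simp
    · rw [map_pow, w, map_mul, map_mul, r2 _ _ _ h, r2 _ _ _ h.symm, h4 _ _ h, map_one]
  let π : E x (pG Finset.univ) →* SpecialLinearGroup I ℤ :=
    (MonoidHom.fst _ _).comp (E x (pG Finset.univ)).subtype
  have hm : ∀ i j, i ≠ j → ∀ t, x i j t ∈ E x (pG Finset.univ) := fun i j h t =>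
    E_mem h ⟨Finset.mem_univ _, Finset.mem_univ _⟩ t
  have inj : Function.Injective π := by
    rw [injective_iff_map_eq_one]
    intro g hg
    exact Subtype.ext (r1.inj s1 _ g.1 g.2 (congrArg Subtype.val hg))
  have sur : Function.Surjective π := by
    have key : ∀ A ∈ Um fun _ _ : I => True, ∃ g, (π g).1 = A := by
      intro A hA
      induction hA using Submonoid.closure_induction with
      | mem A hA =>
        obtain ⟨i, j, c, h, -, rfl⟩ := hA
        exact ⟨⟨_, hm i j h c⟩, r1 i j c h⟩
      | one => exact ⟨1, rfl⟩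
      | mul A B _ _ hA hB =>
        obtain ⟨g, rfl⟩ := hA
        obtain ⟨g', rfl⟩ := hB
        exact ⟨g * g', rfl⟩
    intro A
    obtain ⟨g, hg⟩ := key A.1 (hgen _ A.2)
    exact ⟨g, Subtype.ext hg⟩
  let e := MulEquiv.ofBijective π ⟨inj, sur⟩
  refine ⟨(presR2 I M).comp ((E x (pG Finset.univ)).subtype.comp e.symm.toMonoidHom),
    fun i j h t => ?_⟩
  have : e.symm ⟨transvection i j t, det_transvection_of_ne i j h t⟩ = ⟨_, hm i j h t⟩ :=
    e.symm_apply_eq.2 (Subtype.ext (r1 i j t h).symm)
  exact (congrArg (fun g : E x (pG Finset.univ) => presR2 I M g.1) this).trans (r2 i j t h)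

end

theorem presSt : PresSt := by
  intro M _ n hn y h0 ha hc hs h4
  obtain ⟨n, rfl⟩ : ∃ m, n = m + 2 := ⟨n - 2, by omega⟩
  refine pres_gen (fun i j => ?_) (pres_SL n) y h0 ha hc hs h4
  have : (({i, j} : Finset (Fin (n + 2))).card) < (Finset.univ : Finset (Fin (n + 2))).card := by
    have := Finset.card_le_two (a := i) (b := j)
    rw [Finset.card_univ, Fintype.card_fin]; omega
  obtain ⟨k, -, hk⟩ := Finset.exists_mem_notMem_of_card_lt_card this
  exact ⟨k, by simpa using hk⟩

end Pool.Agent.Lib.MP_755cca_al.F
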