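import Pool.Agent.Lib.MP_755cca_al.F.Gen
import Pool.Agent.Lib.MP_755cca_al.F.Pres

/-! Words in the simple reflections. -/

open Matrix

namespace Pool.Agent.Lib.MP_755cca_al.F

namespace Wd

variable {S : Sys}

theorem pw_cons (i : Fin S.r) (l : List (Fin S.r)) : S.pw (i :: l) = S.sg i ∘ S.pw l := rfl

theorem pw_append (l l' : List (Fin S.r)) : S.pw (l ++ l') = S.pw l ∘ S.pw l' := by
  induction l with
  | nil => rfl
  | cons i l ih => rw [List.cons_append, pw_cons, pw_cons, ih]; rfl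

theorem pw_snoc (l : List (Fin S.r)) (i : Fin S.r) : S.pw (l ++ [i]) = S.pw l ∘ S.sg i := by
  rw [pw_append]; rfl

theorem pw_rev (h : S.Ax) (l : List (Fin S.r)) :
    S.pw l.reverse ∘ S.pw l = id ∧ S.pw l ∘ S.pw l.reverse = id := by
  induction l with
  | nil => exact ⟨rfl, rfl⟩
  | cons i l ih =>
    rw [List.reverse_cons, pw_snoc, pw_cons]
    constructor
    · funext c
      have := congrFun ih.1 c
      simpa [h.sg_sg] using this
    · funext c
      have := congrFun ih.2 (S.sg i c)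
      simp only [Function.comp, id] at this ⊢
      rw [this, h.sg_sg]

theorem pw_inj (h : S.Ax) (l : List (Fin S.r)) : Function.Injective (S.pw l) :=
  Function.LeftInverse.injective (g := S.pw l.reverse) fun c => congrFun (pw_rev h l).1 c

theorem dem_pw (l X : List (Fin S.r)) : ∃ l', S.dem (S.pw l) X = S.pw l' := by
  induction X generalizing l with
  | nil => exact ⟨l, rfl⟩
  | cons j X ih =>
    unfold Sys.dem
    rw [List.foldl_cons]
    split_ifs
    · rw [← pw_snoc]; exact ih _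
    · exact ih _

theorem nw_cons (R : Type) [CommRing R] (i : Fin S.r) (l : List (Fin S.r)) :
    S.nw R (i :: l) = S.nn R i * S.nw R l := by simp [Sys.nw]

theorem nw_append (R : Type) [CommRing R] (l l' : List (Fin S.r)) :
    S.nw R (l ++ l') = S.nw R l * S.nw R l' := by simp [Sys.nw]

theorem nw_snoc (R : Type) [CommRing R] (l : List (Fin S.r)) (i : Fin S.r) :
    S.nw R (l ++ [i]) = S.nw R l * S.nn R i := by simp [Sys.nw]

theorem nw_mono (h : S.Ax) (l : List (Fin S.r)) (c : Fin S.n) : ∃ e : ℤ, e * e = 1 ∧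
    ∀ (R : Type) [CommRing R] b, S.nw R l b c = if b = S.pw l c then (e : R) else 0 := by
  induction l with
  | nil => exact ⟨1, rfl, fun R _ b => by simp [Sys.nw, Sys.pw, one_apply]⟩
  | cons i l ih =>
    obtain ⟨e, he, ih⟩ := ih
    obtain ⟨e', he', h'⟩ := h.mono i (S.pw l c)
    refine ⟨e' * e, by linear_combination e * e * he' + he, fun R _ b => ?_⟩
    have e1 : S.nn R i = (S.nn ℤ i).map (Int.castRingHom R) := by
      rw [Sys.nn, Sys.nn, h.nat_p]; simp
    rw [nw_cons, mul_apply, Finset.sum_eq_single (S.pw l c), ih, if_pos rfl, e1, map_apply, h',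
      pw_cons]
    · by_cases hb : b = S.sg i (S.pw l c) <;> simp [hb]
    · intro m _ hm; rw [ih, if_neg hm, mul_zero]
    · simp

theorem xs_true (R : Type) [CommRing R] (a : Fin S.N) (t : R) : S.xs R (a, true) t = S.x R a t :=
  rfl

theorem xs_false (R : Type) [CommRing R] (a : Fin S.N) (t : R) :
    S.xs R (a, false) t = (S.x R a t)ᵀ := rfl

theorem p_lo (h : S.Ax) (R : Type) [CommRing R] (i : Fin S.r) (t : R) :
    S.p R i 1 0 t 1 = (S.x R (S.s i) t)ᵀ := by rw [← h.p_up, h.p_tr]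

theorem conj_one (h : S.Ax) (hb : S.Bas) (i : Fin S.r) (a : Fin S.N) : ∃ e : ℤ, e * e = 1 ∧
    ∀ (σ : Bool) (R : Type) [CommRing R] (t : R),
      S.nn R i * S.xs R (a, σ) t = S.xs R (S.act i (a, σ)) (e * t) * S.nn R i := by
  by_cases ha : a = S.s i
  · subst ha
    refine ⟨-1, by norm_num, fun σ R _ t => ?_⟩
    cases σ
    · simp only [Sys.act, if_true, Bool.not_false, xs_true, xs_false, ← h.p_up, h.p_tr, Sys.nn,
        h.p_mul]
      congr 1 <;> simp
    · simp only [Sys.act, if_true, Bool.not_true, xs_true, xs_false, ← h.p_up, h.p_tr, Sys.nn,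
        h.p_mul]
      congr 1 <;> simp
  · obtain ⟨e, he, h1⟩ := h.conj_n i a ha
    refine ⟨e, he, fun σ R _ t => ?_⟩
    cases σ
    · have h2 := congrArg transpose (h1 R t)
      have h3 : (S.nn R i)ᵀ = S.ni R i := h.p_tr _ _ _ _ _ _
      rw [transpose_mul, transpose_mul, h3] at h2
      simp only [Sys.act, if_neg ha, xs_false]
      calc S.nn R i * (S.x R a t)ᵀ = S.nn R i * ((S.x R a t)ᵀ * S.ni R i) * S.nn R i := by
            rw [mul_assoc, mul_assoc, (hb.nn_ni R i).2, mul_one]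
        _ = _ := by rw [h2, ← mul_assoc, (hb.nn_ni R i).1, one_mul]
    · simp only [Sys.act, if_neg ha, xs_true]
      exact h1 R t

theorem act_not (i : Fin S.r) (a : Fin S.N) (σ : Bool) :
    S.act i (a, !σ) = ((S.act i (a, σ)).1, !(S.act i (a, σ)).2) := by
  unfold Sys.act; split_ifs <;> rfl

theorem actw_cons (i : Fin S.r) (l : List (Fin S.r)) (a : Fin S.N × Bool) :
    S.actw (i :: l) a = S.act i (S.actw l a) := rfl

theorem actw_not (l : List (Fin S.r)) (a : Fin S.N) (σ : Bool) :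
    S.actw l (a, !σ) = ((S.actw l (a, σ)).1, !(S.actw l (a, σ)).2) := by
  induction l with
  | nil => rfl
  | cons i l ih => rw [actw_cons, ih, act_not]; rfl

theorem conj_w2 (h : S.Ax) (hb : S.Bas) (l : List (Fin S.r)) (a : Fin S.N) : ∃ e : ℤ, e * e = 1 ∧
    ∀ (σ : Bool) (R : Type) [CommRing R] (t : R),
      S.nw R l * S.xs R (a, σ) t = S.xs R (S.actw l (a, σ)) (e * t) * S.nw R l := by
  induction l with
  | nil => exact ⟨1, rfl, fun σ R _ t => by simp [Sys.nw, Sys.actw]⟩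
  | cons i l ih =>
    obtain ⟨e, he, ih⟩ := ih
    obtain ⟨e', he', h'⟩ := conj_one h hb i (S.actw l (a, true)).1
    refine ⟨e' * e, by linear_combination e * e * he' + he, fun σ R _ t => ?_⟩
    have e1 : S.actw l (a, σ) = ((S.actw l (a, true)).1, (S.actw l (a, σ)).2) := by
      cases σ
      · have := actw_not l a true
        exact Prod.ext (by simpa using congrArg Prod.fst this) rfl
      · rfl
    rw [nw_cons, mul_assoc, ih, ← mul_assoc, actw_cons, e1, h', mul_assoc, Int.cast_mul,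
      mul_assoc (e' : R)]

theorem up_iff (h : S.Ax) (hb : S.Bas) (l : List (Fin S.r)) (i : Fin S.r) :
    S.up (S.pw l) i ↔ (S.actw l (S.s i, true)).2 = true := by
  obtain ⟨e, -, h1⟩ := conj_w2 h hb l (S.s i)
  obtain ⟨eA, hA, mA⟩ := nw_mono h l (S.A i)
  obtain ⟨eB, -, mB⟩ := nw_mono h l (S.B i)
  obtain ⟨es, hs, ms⟩ := h.ent_s i
  have h2 := congrFun (congrFun (h1 true ℤ 1) (S.pw l (S.A i))) (S.B i)
  rw [mul_apply, mul_apply, Finset.sum_eq_single (S.A i), Finset.sum_eq_single (S.pw l (S.B i)),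
    mA, if_pos rfl, xs_true, ms] at h2
  · have h3 : S.xs ℤ (S.actw l (S.s i, true)) (e * 1) (S.pw l (S.A i)) (S.pw l (S.B i)) ≠ 0 := by
      intro h0
      simp only [Int.cast_id] at h2
      rw [h0, zero_mul] at h2
      have : (eA * (es * 1)) * (eA * (es * 1)) = 1 := by linear_combination es * es * hA + hs
      rw [h2] at this
      omega
    have hne : S.pw l (S.A i) ≠ S.pw l (S.B i) := fun e => by
      have := congrArg Fin.val (pw_inj h l e)
      have := (h.AB i).1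
      omega
    generalize S.actw l (S.s i, true) = a at h3
    obtain ⟨a, σ⟩ := a
    cases σ
    · rw [xs_false, transpose_apply] at h3
      simp only [Bool.false_eq_true, iff_false]
      exact fun hu => h3 (h.tri ℤ _ _ _ _ hu)
    · simp only [iff_true]
      exact lt_of_le_of_ne (not_lt.1 fun hu => h3 (h.tri ℤ _ _ _ _ hu)) hne
  · intro m _ hm; rw [mB, if_neg hm, mul_zero]
  · simp
  · intro m _ hm
    obtain ⟨_, -, mm⟩ := nw_mono h l m
    rw [mm, if_neg fun e => hm (pw_inj h l e).symm, zero_mul]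
  · simp

theorem up_flip (h : S.Ax) (l : List (Fin S.r)) (i : Fin S.r) :
    ¬ S.up (S.pw l) i ↔ S.up (S.pw l ∘ S.sg i) i := by
  have hne : S.pw l (S.B i) ≠ S.pw l (S.A i) := fun e => by
    have := congrArg Fin.val (pw_inj h l e)
    have := (h.AB i).1
    omega
  have e1 : S.sg i (S.B i) = S.A i := by rw [← (h.AB i).2, h.sg_sg]
  simp only [Sys.up, Function.comp, (h.AB i).2, e1, not_lt]
  exact ⟨fun h1 => lt_of_le_of_ne h1 hne, le_of_lt⟩

theorem exchange (l : List (Fin S.r)) (a : Fin S.N) (h0 : (S.actw l (a, true)).2 = false) :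
    ∃ l₁ i l₂, l = l₁ ++ i :: l₂ ∧ S.actw l₂ (a, true) = (S.s i, true) := by
  induction l with
  | nil => exact absurd h0 (by simp [Sys.actw])
  | cons i l ih =>
    cases h1 : (S.actw l (a, true)).2
    · obtain ⟨l₁, j, l₂, rfl, e⟩ := ih h1
      exact ⟨i :: l₁, j, l₂, rfl, e⟩
    · refine ⟨[], i, l, rfl, ?_⟩
      rw [actw_cons, Sys.act] at h0
      split_ifs at h0 with h2
      · exact Prod.ext h2 h1
      · rw [h1] at h0; exact absurd h0 (by simp)

theorem conj_xy (h : S.Ax) (hb : S.Bas) {l : List (Fin S.r)} {i k : Fin S.r}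
    (e0 : S.actw l (S.s i, true) = (S.s k, true)) : ∃ e : ℤ, e * e = 1 ∧
      ∀ (R : Type) [CommRing R] (t : R),
        S.nw R l * S.p R i 1 t 0 1 = S.p R k 1 (e * t) 0 1 * S.nw R l ∧
        S.nw R l * S.p R i 1 0 t 1 = S.p R k 1 0 (e * t) 1 * S.nw R l := by
  obtain ⟨e, he, h1⟩ := conj_w2 h hb l (S.s i)
  refine ⟨e, he, fun R _ t => ⟨?_, ?_⟩⟩
  · have := h1 true R t
    rwa [e0, xs_true, xs_true, ← h.p_up, ← h.p_up] at this
  · have := h1 false R t
    have e1 := actw_not l (S.s i) true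
    rw [e0] at e1
    rwa [show S.actw l (S.s i, false) = (S.s k, false) from e1, xs_false, xs_false, ← p_lo h,
      ← p_lo h] at this

theorem del_two (h : S.Ax) (hb : S.Bas) {l₁ l₂ : List (Fin S.r)} {i j : Fin S.r}
    (e0 : S.actw l₂ (S.s j, true) = (S.s i, true)) (R : Type) [CommRing R] :
    ∃ g ∈ S.T R, S.nw R (l₁ ++ i :: l₂ ++ [j]) = S.nw R (l₁ ++ l₂) * g := by
  obtain ⟨e, he, h1⟩ := conj_xy h hb e0
  have he' : (e : R) * e = 1 := by exact_mod_cast congrArg (Int.cast : ℤ → R) he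
  have e1 : S.nn R j = S.p R j 1 1 0 1 * S.p R j 1 0 (-1) 1 * S.p R j 1 1 0 1 := by
    simp only [Sys.nn, h.p_mul]; congr 1 <;> simp
  have e2 : S.nn R i * (S.nw R l₂ * S.nn R j) = S.p R i (-e) 0 0 (-e) * S.nw R l₂ := by
    rw [e1, ← mul_assoc (S.nw R l₂), ← mul_assoc (S.nw R l₂), (h1 R 1).1,
      mul_assoc _ (S.nw R l₂), (h1 R (-1)).2, mul_assoc, mul_assoc, (h1 R 1).1]
    simp only [← mul_assoc, Sys.nn, h.p_mul]
    congr 2
    · ring
    · linear_combination -he'
    · linear_combination he'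
    · linear_combination (e : R) * he'
  obtain ⟨g, hg, e3⟩ := (hb.nw_T R l₂ (S.p R i (-e) 0 0 (-e))
    (Submonoid.subset_closure ⟨i, _, _, by linear_combination he', rfl⟩)).2
  refine ⟨g, hg, ?_⟩
  rw [nw_snoc, nw_append, nw_cons, nw_append, mul_assoc, mul_assoc, e2, e3, mul_assoc]

theorem pw_of_nw (h : S.Ax) (hb : S.Bas) {l l' : List (Fin S.r)} {g : S.Mat ℤ} (hg : g ∈ S.T ℤ)
    (e : S.nw ℤ l = S.nw ℤ l' * g) : S.pw l = S.pw l' := by
  funext c
  obtain ⟨e1, h1, m1⟩ := nw_mono h l c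
  obtain ⟨e2, -, m2⟩ := nw_mono h l' c
  have h2 := congrFun (congrFun e (S.pw l c)) c
  rw [m1, if_pos rfl, mul_apply, Finset.sum_eq_single c, m2] at h2
  · by_contra hne
    rw [if_neg hne, zero_mul, Int.cast_id] at h2
    rw [h2] at h1
    omega
  · intro m _ hm; rw [hb.T_diag ℤ g hg hm, mul_zero]
  · simp

theorem all_up (h : S.Ax) (hb : S.Bas) (R : Type) [CommRing R] (n : ℕ) :
    ∀ l : List (Fin S.r), l.length < n → (∀ j, S.up (S.pw l) j) → S.nw R l ∈ S.T R := by
  induction n with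
  | zero => intro l hl; omega
  | succ n ih =>
    intro l hl hu
    rcases List.eq_nil_or_concat l with rfl | ⟨l₀, j, rfl⟩
    · exact one_mem _
    rw [List.concat_eq_append] at *
    have h1 := hu j
    rw [pw_snoc, ← up_flip h, up_iff h hb] at h1
    obtain ⟨l₁, i, l₂, rfl, e0⟩ := exchange l₀ (S.s j) (by simpa using h1)
    obtain ⟨g, hg, e1⟩ := del_two h hb (l₁ := l₁) e0 R
    obtain ⟨g', hg', e2⟩ := del_two h hb (l₁ := l₁) e0 ℤ
    rw [e1]
    refine mul_mem (ih _ (by simp at hl ⊢; omega) ?_) hg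
    rwa [← pw_of_nw h hb hg' e2]

theorem id_T (h : S.Ax) (hb : S.Bas) (R : Type) [CommRing R] {l : List (Fin S.r)}
    (e : S.pw l = id) : S.nw R l ∈ S.T R :=
  all_up h hb R _ l (Nat.lt_succ_self _) fun j => by
    have := (h.AB j).1
    rw [e, Sys.up, Fin.lt_def, id, id]
    omega

theorem collapse (h : S.Ax) (hb : S.Bas) (l l' : List (Fin S.r)) (e : S.pw l = S.pw l')
    (R : Type) [CommRing R] : ∃ g ∈ S.T R, S.nw R l = S.nw R l' * g := by
  have h1 := id_T h hb R (l := l'.reverse ++ l) (by rw [pw_append, e, (pw_rev h l').1])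
  have h2 := id_T h hb R (l := l' ++ l'.reverse) (by rw [pw_append, (pw_rev h l').2])
  rw [nw_append] at h1 h2
  obtain ⟨g, hg, e3⟩ := (hb.nw_T R l _ h2).2
  obtain ⟨g', hg', e4, -⟩ := hb.T_inv R g hg
  refine ⟨_, mul_mem h1 hg', ?_⟩
  rw [← mul_assoc, ← mul_assoc, e3, mul_assoc, e4, mul_one]

theorem x_mem (R : Type) [CommRing R] (a : Fin S.N) (t : R) : S.x R a t ∈ S.U R :=
  Submonoid.subset_closure ⟨a, t, rfl⟩

theorem y_mem (R : Type) [CommRing R] (a : Fin S.N) (t : R) : (S.x R a t)ᵀ ∈ S.V R :=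
  Submonoid.subset_closure ⟨_, ⟨a, t, rfl⟩, rfl⟩

theorem push (h : S.Ax) (hb : S.Bas) (R : Type) [CommRing R] (l : List (Fin S.r)) (j : Fin S.r)
    (hu : S.up (S.pw l) j) (u : S.Mat R) (hU : u ∈ S.U R) :
    ∃ u₁ ∈ S.U R, ∃ u₂ ∈ S.U R, S.nw R l * u * S.nn R j = u₁ * S.nw R (l ++ [j]) * u₂ := by
  obtain ⟨t, w, hw, rfl⟩ := (hb.U_split R j u hU).1
  obtain ⟨w', hw', e1⟩ := (hb.nn_norm R j w hw).2
  obtain ⟨e, -, h1⟩ := conj_w2 h hb l (S.s j)
  have h2 := h1 true R t
  rw [up_iff h hb] at hu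
  rw [show S.actw l (S.s j, true) = ((S.actw l (S.s j, true)).1, true) from Prod.ext rfl hu,
    xs_true, xs_true] at h2
  refine ⟨_, x_mem R (S.actw l (S.s j, true)).1 (e * t), w', hb.XZ_le R _ hw', ?_⟩
  rw [← mul_assoc, h2, mul_assoc, e1, nw_snoc]
  simp only [mul_assoc]

theorem n0_U (h : S.Ax) (hb : S.Bas) (R : Type) [CommRing R] (u : S.Mat R) (hU : u ∈ S.U R) :
    ∃ v ∈ S.V R, S.n0 R * u = v * S.n0 R := by
  induction hU using Submonoid.closure_induction with
  | mem u hu =>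
    obtain ⟨a, t, rfl⟩ := hu
    obtain ⟨e, -, h1⟩ := conj_w2 h hb S.base a
    have h2 := h1 true R t
    rw [show S.actw S.base (a, true) = ((S.actw S.base (a, true)).1, false) from
      Prod.ext rfl (h.base_neg a), xs_true, xs_false] at h2
    exact ⟨_, y_mem R _ _, h2⟩
  | one => exact ⟨1, one_mem _, by simp⟩
  | mul a b _ _ ha hb' =>
    obtain ⟨v, hv, e1⟩ := ha
    obtain ⟨v', hv', e2⟩ := hb'
    exact ⟨v * v', mul_mem hv hv', by rw [← mul_assoc, e1, mul_assoc, e2, mul_assoc]⟩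

theorem V_n0 (h : S.Ax) (hb : S.Bas) (R : Type) [CommRing R] (v : S.Mat R) (hV : v ∈ S.V R) :
    ∃ u ∈ S.U R, v * S.n0 R = S.n0 R * u := by
  induction hV using Submonoid.closure_induction with
  | mem v hv =>
    obtain ⟨_, ⟨a, t, rfl⟩, rfl⟩ := hv
    obtain ⟨b, e0⟩ := h.base_surj a
    obtain ⟨e, he, h1⟩ := conj_w2 h hb S.base b
    have he' : (e : R) * e = 1 := by exact_mod_cast congrArg (Int.cast : ℤ → R) he
    have h2 := h1 true R (e * t)
    rw [e0, xs_true, xs_false, ← mul_assoc (e : R), he', one_mul] at h2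
    exact ⟨_, x_mem R _ _, h2.symm⟩
  | one => exact ⟨1, one_mem _, by simp⟩
  | mul a b _ _ ha hb' =>
    obtain ⟨v, hv, e1⟩ := ha
    obtain ⟨v', hv', e2⟩ := hb'
    exact ⟨v * v', mul_mem hv hv', by rw [mul_assoc, e2, ← mul_assoc, e1, mul_assoc]⟩

theorem conj_p (h : S.Ax) (hb : S.Bas) (l : List (Fin S.r)) (i k : Fin S.r)
    (e0 : S.actw l (S.s i, true) = (S.s k, true)) : ∃ e : ℤ, e * e = 1 ∧
    ∀ a b c d, a * d - b * c = 1 →
      S.nw ℤ l * S.p ℤ i a b c d = S.p ℤ k a (e * b) (e * c) d * S.nw ℤ l := by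
  obtain ⟨e, he, h1⟩ := conj_xy h hb e0
  refine ⟨e, he, fun a b c d hd => ?_⟩
  have key : ∀ A ∈ Um fun _ _ : Fin 2 => True,
      S.nw ℤ l * S.p ℤ i (A 0 0) (A 0 1) (A 1 0) (A 1 1) =
        S.p ℤ k (A 0 0) (e * A 0 1) (e * A 1 0) (A 1 1) * S.nw ℤ l := by
    intro A hA
    induction hA using Submonoid.closure_induction with
    | mem A hA =>
      obtain ⟨u, v, t, huv, -, rfl⟩ := hA
      fin_cases u <;> fin_cases v
      · exact absurd rfl huv
      · simpa [transvection] using (h1 ℤ t).1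
      · simpa [transvection] using (h1 ℤ t).2
      · exact absurd rfl huv
    | one => simp [h.p_one]
    | mul A B _ _ hA hB =>
      simp only [mul_apply, Fin.sum_univ_two]
      rw [← h.p_mul, ← mul_assoc, hA, mul_assoc, hB, ← mul_assoc, h.p_mul]
      congr 2
      · linear_combination A 0 1 * B 1 0 * he
      · ring
      · ring
      · linear_combination A 1 0 * B 0 1 * he
  exact key !![a, b; c, d] (pres_SL 0 _ (by rw [det_fin_two_of]; exact hd))

end Wd

theorem wrdSt : WrdSt := fun S h hb =>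
  { pw_append := Wd.pw_append
    pw_snoc := Wd.pw_snoc
    pw_rev := Wd.pw_rev h
    dem_pw := Wd.dem_pw
    nw_mono := Wd.nw_mono h
    conj_w := fun l a => by
      obtain ⟨e, he, h1⟩ := Wd.conj_w2 h hb l a.1
      exact ⟨e, he, fun R _ t => h1 a.2 R t⟩
    up_iff := Wd.up_iff h hb
    up_flip := Wd.up_flip h
    collapse := Wd.collapse h hb
    push := Wd.push h hb
    n0_U := Wd.n0_U h hb
    V_n0 := Wd.V_n0 h hb
    conj_p := Wd.conj_p h hb }

end Pool.Agent.Lib.MP_755cca_al.F
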