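import Pool.Agent.Lib.MP_755cca_al.F.Tab
import Pool.Agent.Lib.MP_755cca_al.F.Bas
import Pool.Agent.Lib.MP_755cca_al.F.Wrd

/-! The smallest cell: the integral torus lies in `(U n₀) ^ 3 U`. -/

open Matrix
open scoped Pointwise

namespace Pool.Agent.Lib.MP_755cca_al.F

namespace CE

variable {S : Sys}

theorem split {M : Type} [Monoid M] (s : Set M) (a : M) (ha : a * a = 1)
    (hc : ∀ g ∈ Submonoid.closure s, a * g = g * a) (h : M)
    (hh : h ∈ Submonoid.closure (insert a s)) :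
    ∃ h' ∈ Submonoid.closure s, h = h' ∨ h = h' * a := by
  induction hh using Submonoid.closure_induction with
  | mem x hx =>
    rcases hx with rfl | hx
    · exact ⟨1, one_mem _, Or.inr (one_mul _).symm⟩
    · exact ⟨x, Submonoid.subset_closure hx, Or.inl rfl⟩
  | one => exact ⟨1, one_mem _, Or.inl rfl⟩
  | mul x y _ _ hx hy =>
    obtain ⟨x', hx', ex⟩ := hx
    obtain ⟨y', hy', ey⟩ := hy
    refine ⟨x' * y', mul_mem hx' hy', ?_⟩
    rcases ex with rfl | rfl <;> rcases ey with rfl | rfl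
    · exact Or.inl rfl
    · exact Or.inr (mul_assoc _ _ _).symm
    · right
      rw [mul_assoc, hc _ hy', mul_assoc]
    · left
      rw [mul_assoc, ← mul_assoc a, hc _ hy', mul_assoc y', ha, mul_one]

theorem tr_V {u : S.Mat ℤ} (hu : u ∈ S.U ℤ) : uᵀ ∈ S.V ℤ := by
  induction hu using Submonoid.closure_induction with
  | mem x hx => exact Submonoid.subset_closure ⟨x, hx, rfl⟩
  | one => rw [transpose_one]; exact one_mem _
  | mul x y _ _ hx hy => rw [transpose_mul]; exact mul_mem hy hx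

theorem diag_comm {n : ℕ} {g h : Matrix (Fin n) (Fin n) ℤ} (hg : g.IsDiag) (hh : h.IsDiag) :
    g * h = h * g := by
  rw [← hg.diagonal_diag, ← hh.diagonal_diag, diagonal_mul_diagonal, diagonal_mul_diagonal]
  congr 1
  funext i
  exact mul_comm _ _

theorem sq_T (A : S.Ax) (W : S.Wrd) : S.n0 ℤ * S.n0 ℤ ∈ S.T ℤ := by
  obtain ⟨h, hh, e⟩ := W.collapse (S.base ++ S.base) [] (by rw [A.base_sq]; rfl) ℤ
  have e2 : S.n0 ℤ * S.n0 ℤ = h := by
    simpa [Sys.n0, Sys.nw] using e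
  rw [e2]
  exact hh

theorem n0_V (A : S.Ax) (B : S.Bas) (W : S.Wrd) {v : S.Mat ℤ} (hv : v ∈ S.V ℤ) :
    ∃ u ∈ S.U ℤ, S.n0 ℤ * v = u * S.n0 ℤ := by
  obtain ⟨u, hu, e⟩ := W.V_n0 ℤ v hv
  have hz := sq_T A W
  obtain ⟨z, _, hz1, _⟩ := B.T_inv ℤ _ hz
  obtain ⟨u', hu', e'⟩ := (B.T_norm ℤ Set.univ _ hz u (B.U_eq ℤ ▸ hu)).1
  refine ⟨u', B.XZ_le ℤ _ hu', ?_⟩
  calc S.n0 ℤ * v = S.n0 ℤ * v * (S.n0 ℤ * S.n0 ℤ * z) := by rw [hz1, mul_one]
    _ = S.n0 ℤ * (v * S.n0 ℤ) * (S.n0 ℤ * z) := by simp only [mul_assoc]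
    _ = S.n0 ℤ * S.n0 ℤ * u * (S.n0 ℤ * z) := by rw [e]; simp only [mul_assoc]
    _ = u' * S.n0 ℤ * (S.n0 ℤ * S.n0 ℤ * z) := by rw [e']; simp only [mul_assoc]
    _ = u' * S.n0 ℤ := by rw [hz1, mul_one]

theorem x_U (a : Fin S.N) (t : ℤ) : S.x ℤ a t ∈ S.U ℤ := Submonoid.subset_closure ⟨a, t, rfl⟩

/-- the lift `n₀ h` is reached from `n₀` by the word `l` -/
def P (S : Sys) (l : List (Fin S.r)) (h : S.Mat ℤ) : Prop :=
  ∃ u₁ ∈ S.U ℤ, ∃ u₂ ∈ S.U ℤ, ∃ u₃ ∈ S.U ℤ, S.n0 ℤ * h = u₁ * S.n0 ℤ * u₂ * S.nw ℤ l * u₃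

theorem step (A : S.Ax) (B : S.Bas) (W : S.Wrd) {l : List (Fin S.r)} {j : Fin S.r}
    (hj : S.up (S.pw l) j) {h : S.Mat ℤ} (hh : h ∈ S.T ℤ) (hp : P S l h) (e : ℤ)
    (he : e * e = 1) : P S (l ++ [j]) (h * S.p ℤ j e 0 0 e) := by
  obtain ⟨u₁, h₁, u₂, h₂, u₃, h₃, hp⟩ := hp
  have k1 : S.p ℤ j e 0 0 e =
      (S.x ℤ (S.s j) e)ᵀ * (S.x ℤ (S.s j) (-e) * S.nn ℤ j * S.x ℤ (S.s j) (-e)) := by
    rw [← A.p_up, ← A.p_up, A.p_tr, Sys.nn, A.p_mul, A.p_mul, A.p_mul]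
    congr 1
    · ring
    · linear_combination he
    · linear_combination (-1 : ℤ) * he
    · linear_combination e * he
  obtain ⟨x', hx', ex⟩ := (B.T_norm ℤ Set.univ h hh (S.x ℤ (S.s j) e) (B.U_eq ℤ ▸ x_U _ _)).2
  have ht : hᵀ = h := (B.T_diag ℤ h hh).isSymm
  have ey : h * (S.x ℤ (S.s j) e)ᵀ = x'ᵀ * h := by
    have := congrArg transpose ex
    rwa [transpose_mul, transpose_mul, ht] at this
  obtain ⟨u', hu', eu⟩ := n0_V A B W (tr_V (B.XZ_le ℤ _ hx'))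
  obtain ⟨a, ha, b, hb, eab⟩ := W.push ℤ l j hj (u₃ * S.x ℤ (S.s j) (-e)) (mul_mem h₃ (x_U _ _))
  refine ⟨u' * u₁, mul_mem hu' h₁, u₂ * a, mul_mem h₂ ha, b * S.x ℤ (S.s j) (-e),
    mul_mem hb (x_U _ _), ?_⟩
  calc S.n0 ℤ * (h * S.p ℤ j e 0 0 e)
      = S.n0 ℤ * (h * (S.x ℤ (S.s j) e)ᵀ) *
          (S.x ℤ (S.s j) (-e) * S.nn ℤ j * S.x ℤ (S.s j) (-e)) := by
        rw [k1]; simp only [mul_assoc]
    _ = S.n0 ℤ * x'ᵀ * h * (S.x ℤ (S.s j) (-e) * S.nn ℤ j * S.x ℤ (S.s j) (-e)) := by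
        rw [ey]; simp only [mul_assoc]
    _ = u' * (S.n0 ℤ * h) * (S.x ℤ (S.s j) (-e) * S.nn ℤ j * S.x ℤ (S.s j) (-e)) := by
        rw [eu]; simp only [mul_assoc]
    _ = u' * u₁ * S.n0 ℤ * u₂ * (S.nw ℤ l * (u₃ * S.x ℤ (S.s j) (-e)) * S.nn ℤ j) *
          S.x ℤ (S.s j) (-e) := by
        rw [hp]; simp only [mul_assoc]
    _ = _ := by rw [eab]; simp only [mul_assoc]

/-- sign elements of the letters of a word -/
def sg (S : Sys) (l : List (Fin S.r)) : Set (S.Mat ℤ) :=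
  {g | ∃ k ∈ l, g = S.p ℤ k (-1) 0 0 (-1)}

theorem sg_T (l : List (Fin S.r)) : Submonoid.closure (sg S l) ≤ S.T ℤ :=
  Submonoid.closure_mono fun _ ⟨k, _, e⟩ => ⟨k, -1, -1, by norm_num, e⟩

theorem run (A : S.Ax) (B : S.Bas) (W : S.Wrd) (l : List (Fin S.r)) (hl : S.Red l) :
    ∀ h ∈ Submonoid.closure (sg S l), P S l h := by
  induction l using List.reverseRecOn with
  | nil =>
    intro h hh
    have e : sg S [] = ∅ := by
      ext g
      simp [sg]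
    rw [e, Submonoid.closure_empty, Submonoid.mem_bot] at hh
    exact ⟨1, one_mem _, 1, one_mem _, 1, one_mem _, by simp [hh, Sys.nw]⟩
  | append_singleton l j ih =>
    intro h hh
    have hr : S.Red l := fun l₁ i l₂ e => hl l₁ i (l₂ ++ [j]) (by simp [e])
    have hj : S.up (S.pw l) j := hl l j [] rfl
    have e : sg S (l ++ [j]) = insert (S.p ℤ j (-1) 0 0 (-1)) (sg S l) := by
      ext g
      simp only [sg, List.mem_append, List.mem_singleton, Set.mem_setOf_eq, Set.mem_insert_iff]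
      constructor
      · rintro ⟨k, hk | rfl, e⟩
        · exact Or.inr ⟨k, hk, e⟩
        · exact Or.inl e
      · rintro (e | ⟨k, hk, e⟩)
        · exact ⟨j, Or.inr rfl, e⟩
        · exact ⟨k, Or.inl hk, e⟩
    rw [e] at hh
    obtain ⟨h', hh', eh⟩ := split (sg S l) _ (by rw [A.p_mul]; simpa using A.p_one ℤ j)
      (fun g hg => diag_comm (A.tor_diag ℤ j _ _) (B.T_diag ℤ g (sg_T l hg))) h hh
    rcases eh with rfl | rfl
    · have := step A B W hj (sg_T l hh') (ih hr _ hh') 1 (by norm_num)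
      rwa [A.p_one, mul_one] at this
    · exact step A B W hj (sg_T l hh') (ih hr _ hh') (-1) (by norm_num)

end CE

/-- the smallest cell, for every system whose base word contains every letter -/
theorem coreE_of (S : Sys) (A : S.Ax) (hall : ∀ j, j ∈ S.base) : S.CoreE := by
  have B := basSt S A
  have W := wrdSt S A B
  intro h hh
  obtain ⟨z, hz, hz1, _⟩ := B.T_inv ℤ _ (CE.sq_T A W)
  have hm : z * h ∈ Submonoid.closure (CE.sg S S.base) := by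
    refine Submonoid.closure_mono ?_ (B.T_int (mul_mem hz hh))
    rintro _ ⟨k, e⟩
    exact ⟨k, hall k, e⟩
  obtain ⟨u₁, h₁, u₂, h₂, u₃, h₃, e⟩ := CE.run A B W S.base A.base_red _ hm
  have e2 : h = 1 * S.n0 ℤ * (u₁ * S.n0 ℤ) * (u₂ * S.n0 ℤ) * u₃ := by
    calc h = S.n0 ℤ * S.n0 ℤ * z * h := by rw [hz1, one_mul]
      _ = S.n0 ℤ * (S.n0 ℤ * (z * h)) := by simp only [mul_assoc]
      _ = _ := by rw [e]; simp only [mul_assoc, one_mul, Sys.n0]
  rw [e2, Sys.Th, pow_succ, pow_succ, pow_one]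
  exact Set.mul_mem_mul (Set.mul_mem_mul (Set.mul_mem_mul (Set.mul_mem_mul (one_mem (S.U ℤ)) rfl)
    (Set.mul_mem_mul h₁ rfl)) (Set.mul_mem_mul h₂ rfl)) h₃

theorem coreE_A2 (A : datA2.toSys.Ax) : datA2.toSys.CoreE := coreE_of _ A (by decide)
theorem coreE_A3 (A : datA3.toSys.Ax) : datA3.toSys.CoreE := coreE_of _ A (by decide)
theorem coreE_A5 (A : datA5.toSys.Ax) : datA5.toSys.CoreE := coreE_of _ A (by decide)
theorem coreE_C2 (A : datC2.toSys.Ax) : datC2.toSys.CoreE := coreE_of _ A (by decide)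
theorem coreE_C3 (A : datC3.toSys.Ax) : datC3.toSys.CoreE := coreE_of _ A (by decide)
theorem coreE_B3 (A : datB3.toSys.Ax) : datB3.toSys.CoreE := coreE_of _ A (by decide)
theorem coreE_D4 (A : datD4.toSys.Ax) : datD4.toSys.CoreE := coreE_of _ A (by decide)
theorem coreE_G2 (A : datG2.toSys.Ax) : datG2.toSys.CoreE := coreE_of _ A (by decide)

end Pool.Agent.Lib.MP_755cca_al.F
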