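import Pool.Agent.Lib.MP_755cca_al.F.Gen

/-! Almost all primes are generic. -/

open Matrix

namespace Pool.Agent.Lib.MP_755cca_al.F

namespace Fp

variable {S : Sys} {R R' : Type} [CommRing R] [CommRing R']

lemma map_U (A : S.Ax) (f : R →+* R') {u : S.Mat R} (hu : u ∈ S.U R) : u.map f ∈ S.U R' := by
  induction hu using Submonoid.closure_induction with
  | mem x hx =>
    obtain ⟨a, t, rfl⟩ := hx
    exact Submonoid.subset_closure ⟨a, f t, A.nat_x _ _ f a t⟩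
  | one =>
    rw [Matrix.map_one _ f.map_zero f.map_one]
    exact one_mem _
  | mul x y _ _ ix iy =>
    rw [Matrix.map_mul]
    exact mul_mem ix iy

lemma map_T (A : S.Ax) (f : R →+* R') {u : S.Mat R} (hu : u ∈ S.T R) : u.map f ∈ S.T R' := by
  induction hu using Submonoid.closure_induction with
  | mem x hx =>
    obtain ⟨i, u, v, e, rfl⟩ := hx
    exact Submonoid.subset_closure ⟨i, f u, f v, by rw [← map_mul, e, map_one],
      by rw [A.nat_p, map_zero]⟩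
  | one =>
    rw [Matrix.map_one _ f.map_zero f.map_one]
    exact one_mem _
  | mul x y _ _ ix iy =>
    rw [Matrix.map_mul]
    exact mul_mem ix iy

lemma map_Bo (A : S.Ax) (f : R →+* R') {b : S.Mat R} (hb : b ∈ S.Bo R) : b.map f ∈ S.Bo R' := by
  obtain ⟨h, hh, u, hu, rfl⟩ := hb
  exact ⟨_, map_T A f hh, _, map_U A f hu, Matrix.map_mul⟩

lemma map_nw (A : S.Ax) (f : R →+* R') (l : List (Fin S.r)) : (S.nw R l).map f = S.nw R' l := by
  induction l with
  | nil => exact Matrix.map_one _ f.map_zero f.map_one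
  | cons i l ih =>
    simp only [Sys.nw, List.map_cons, List.prod_cons] at ih ⊢
    rw [Matrix.map_mul, ih, Sys.nn, A.nat_p, map_zero, map_neg, map_one, Sys.nn]

lemma map_red (f : R →+* R') (g : S.Mat ℤ) : (S.red R g).map f = S.red R' g := by
  ext i j
  simp [Sys.red]

/-- `g` is `p`-integral inside `P` for almost all `p` -/
def Al (P : ∀ (R : Type) [CommRing R], Set (S.Mat R)) (g : S.Mat ℚ) : Prop :=
  ∃ m : ℕ, m ≠ 0 ∧ ∀ (p : ℕ) [Fact p.Prime], ¬ p ∣ m →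
    ∃ g' ∈ P ℤ_[p], g'.map PadicInt.Coe.ringHom = g.map (Rat.castHom ℚ_[p])

lemma lift (t : ℚ) (p : ℕ) [Fact p.Prime] (h : ¬ p ∣ t.den) :
    ∃ t' : ℤ_[p], PadicInt.Coe.ringHom t' = Rat.castHom ℚ_[p] t :=
  ⟨⟨t, Padic.norm_rat_le_one h⟩, rfl⟩

lemma Al.mul {P Q Z : ∀ (R : Type) [CommRing R], Set (S.Mat R)} {g h : S.Mat ℚ} (a : Al P g)
    (b : Al Q h) (c : ∀ (R : Type) [CommRing R], ∀ x ∈ P R, ∀ y ∈ Q R, x * y ∈ Z R) :
    Al Z (g * h) := by
  obtain ⟨m, hm, a⟩ := a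
  obtain ⟨n, hn, b⟩ := b
  refine ⟨m * n, mul_ne_zero hm hn, fun p _ q => ?_⟩
  obtain ⟨x, hx, ex⟩ := a p fun z => q (z.mul_right _)
  obtain ⟨y, hy, ey⟩ := b p fun z => q (z.mul_left _)
  exact ⟨_, c _ x hx y hy, by rw [Matrix.map_mul, Matrix.map_mul, ex, ey]⟩

lemma al_one {P : ∀ (R : Type) [CommRing R], Set (S.Mat R)}
    (h : ∀ (R : Type) [CommRing R], 1 ∈ P R) : Al P 1 :=
  ⟨1, one_ne_zero, fun p _ _ => ⟨1, h _, by
    rw [Matrix.map_one _ (map_zero _) (map_one _), Matrix.map_one _ (map_zero _) (map_one _)]⟩⟩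

lemma al_U (A : S.Ax) {u : S.Mat ℚ} (hu : u ∈ S.U ℚ) : Al (fun R _ => S.U R) u := by
  induction hu using Submonoid.closure_induction with
  | mem x hx =>
    obtain ⟨a, t, rfl⟩ := hx
    refine ⟨t.den, t.den_nz, fun p _ q => ?_⟩
    obtain ⟨t', e⟩ := lift t p q
    exact ⟨_, Submonoid.subset_closure ⟨a, t', rfl⟩, by rw [A.nat_x, A.nat_x, e]⟩
  | one => exact al_one fun R _ => one_mem (S.U R)
  | mul x y _ _ ix iy => exact ix.mul iy fun R _ x hx y hy => mul_mem (S := Submonoid _) hx hy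

lemma al_T (A : S.Ax) {u : S.Mat ℚ} (hu : u ∈ S.T ℚ) : Al (fun R _ => S.T R) u := by
  induction hu using Submonoid.closure_induction with
  | mem x hx =>
    obtain ⟨i, u, v, e, rfl⟩ := hx
    refine ⟨u.den * v.den, mul_ne_zero u.den_nz v.den_nz, fun p _ q => ?_⟩
    obtain ⟨u', eu⟩ := lift u p fun z => q (z.mul_right _)
    obtain ⟨v', ev⟩ := lift v p fun z => q (z.mul_left _)
    refine ⟨_, Submonoid.subset_closure ⟨i, u', v', ?_, rfl⟩,
      by rw [A.nat_p, A.nat_p, eu, ev, map_zero, map_zero]⟩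
    apply (show Function.Injective (PadicInt.Coe.ringHom (p := p)) from Subtype.val_injective)
    rw [map_mul, eu, ev, ← map_mul, e, map_one, map_one]
  | one => exact al_one fun R _ => one_mem (S.T R)
  | mul x y _ _ ix iy => exact ix.mul iy fun R _ x hx y hy => mul_mem (S := Submonoid _) hx hy

lemma al_Bo (A : S.Ax) {b : S.Mat ℚ} (hb : b ∈ S.Bo ℚ) : Al (fun R _ => S.Bo R) b := by
  obtain ⟨h, hh, u, hu, rfl⟩ := hb
  exact (al_T A hh).mul (al_U A hu) fun R _ x hx y hy => ⟨x, hx, y, hy, rfl⟩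

end Fp

theorem finSt : FinSt := by
  rintro S A - π g ⟨l, rfl, b, hb, b', hb', e⟩
  obtain ⟨m, hm, a⟩ := Fp.al_Bo A hb
  obtain ⟨n, hn, a'⟩ := Fp.al_Bo A hb'
  refine ⟨m * n, mul_ne_zero hm hn, fun p _ q => ?_⟩
  obtain ⟨x, hx, ex⟩ := a p fun z => q (z.mul_right _)
  obtain ⟨y, hy, ey⟩ := a' p fun z => q (z.mul_left _)
  have e1 : S.red ℤ_[p] g = x * S.nw ℤ_[p] l * y := by
    apply Matrix.map_injective
      (show Function.Injective (PadicInt.Coe.ringHom (p := p)) from Subtype.val_injective)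
    simp only []
    rw [Fp.map_red, Matrix.map_mul, Matrix.map_mul, ex, ey, Fp.map_nw A,
      ← Fp.map_red (Rat.castHom ℚ_[p]), e, Matrix.map_mul, Matrix.map_mul, Fp.map_nw A]
  refine ⟨l, rfl, _, Fp.map_Bo A PadicInt.toZMod hx, _, Fp.map_Bo A PadicInt.toZMod hy, ?_⟩
  rw [← Fp.map_red PadicInt.toZMod, e1, Matrix.map_mul, Matrix.map_mul, Fp.map_nw A]

end Pool.Agent.Lib.MP_755cca_al.F
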