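import Pool.Agent.Lib.MP_755cca_al.F.Gen

/-! Bruhat cells over a field. -/

open Matrix

namespace Pool.Agent.Lib.MP_755cca_al.F

namespace Fl

variable {S : Sys} {F : Type} [Field F]

theorem T_Bo {g : S.Mat F} (hg : g ∈ S.T F) : g ∈ S.Bo F := ⟨g, hg, 1, one_mem _, (mul_one _).symm⟩

theorem U_Bo {g : S.Mat F} (hg : g ∈ S.U F) : g ∈ S.Bo F := ⟨1, one_mem _, g, hg, (one_mul _).symm⟩

theorem x_U (a : Fin S.N) (t : F) : S.x F a t ∈ S.U F := Submonoid.subset_closure ⟨a, t, rfl⟩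

theorem nw_app (l l' : List (Fin S.r)) : S.nw F (l ++ l') = S.nw F l * S.nw F l' := by
  simp [Sys.nw]

theorem nw_one (i : Fin S.r) : S.nw F [i] = S.nn F i := by simp [Sys.nw]

theorem cell_l (hb : S.Bas) {π : Fin S.n → Fin S.n} {g b : S.Mat F} (hg : g ∈ S.Cell F π)
    (h : b ∈ S.Bo F) : b * g ∈ S.Cell F π := by
  obtain ⟨l, hl, b₁, h1, b₂, h2, rfl⟩ := hg
  exact ⟨l, hl, b * b₁, hb.Bo_mul F _ h _ h1, b₂, h2, by simp only [mul_assoc]⟩

theorem cell_r (hb : S.Bas) {π : Fin S.n → Fin S.n} {g b : S.Mat F} (hg : g ∈ S.Cell F π)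
    (h : b ∈ S.Bo F) : g * b ∈ S.Cell F π := by
  obtain ⟨l, hl, b₁, h1, b₂, h2, rfl⟩ := hg
  exact ⟨l, hl, b₁, h1, b₂ * b, hb.Bo_mul F _ h2 _ h, by simp only [mul_assoc]⟩

theorem nw_cell (l : List (Fin S.r)) : S.nw F l ∈ S.Cell F (S.pw l) :=
  ⟨l, rfl, 1, U_Bo (one_mem _), 1, U_Bo (one_mem _), by simp⟩

/-- an element of a cell is `b * n * u` -/
theorem cell_form (hb : S.Bas) {π : Fin S.n → Fin S.n} {g : S.Mat F} (hg : g ∈ S.Cell F π) :
    ∃ l, S.pw l = π ∧ ∃ b ∈ S.Bo F, ∃ u ∈ S.U F, g = b * (S.nw F l * u) := by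
  obtain ⟨l, hl, b₁, h1, _, ⟨t, ht, u, hu, rfl⟩, rfl⟩ := hg
  obtain ⟨t', ht', e⟩ := (hb.nw_T F l t ht).1
  exact ⟨l, hl, b₁ * t', hb.Bo_mul F _ h1 _ (T_Bo ht'), u, hu, by
    rw [mul_assoc, ← mul_assoc (S.nw F l), e]; simp only [mul_assoc]⟩

theorem step_up (hb : S.Bas) (hw : S.Wrd) {π : Fin S.n → Fin S.n} {i : Fin S.r} (hu : S.up π i)
    {g : S.Mat F} (hg : g ∈ S.Cell F π) (t : F) :
    g * S.x F (S.s i) t * S.ni F i ∈ S.Cell F (π ∘ S.sg i) := by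
  obtain ⟨l, rfl, b, h1, u, h2, rfl⟩ := cell_form hb hg
  obtain ⟨h', h3, e1⟩ := hb.ni_eq F i
  obtain ⟨u₁, h4, u₂, h5, e2⟩ := hw.push F l i hu _ (mul_mem h2 (x_U (S.s i) t))
  have e : b * (S.nw F l * u) * S.x F (S.s i) t * S.ni F i =
      b * (u₁ * (S.nw F (l ++ [i]) * u₂ * h')) := by
    rw [e1, ← mul_assoc u₁, ← mul_assoc u₁, ← e2]; simp only [mul_assoc]
  rw [e, ← hw.pw_snoc]
  exact cell_l hb (cell_l hb (cell_r hb (cell_r hb (nw_cell _) (U_Bo h5)) (T_Bo h3)) (U_Bo h4)) h1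

theorem p_split (h : S.Ax) (i : Fin S.r) {a b c d : F} (hd : a * d - b * c = 1) (hc : c ≠ 0) :
    S.p F i a b c d = S.x F (S.s i) (a / c) * S.ni F i * S.p F i c d 0 c⁻¹ := by
  rw [← h.p_up, Sys.ni, h.p_mul, h.p_mul]
  congr 1
  · field_simp; ring
  · linear_combination (-c⁻¹) * hd - b * (mul_inv_cancel₀ hc)
  · ring
  · ring

theorem step_down (h : S.Ax) (hb : S.Bas) (hw : S.Wrd) {π : Fin S.n → Fin S.n} {i : Fin S.r}
    (hu : ¬ S.up π i) {g : S.Mat F} (hg : g ∈ S.Cell F π) : ∃ t₀,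
    g * S.x F (S.s i) t₀ * S.ni F i ∈ S.Cell F (π ∘ S.sg i) ∧
    ∀ t, t ≠ t₀ → g * S.x F (S.s i) t * S.ni F i ∈ S.Cell F π := by
  obtain ⟨l, rfl, b, h1, u, h2, rfl⟩ := cell_form hb hg
  obtain ⟨c, w, h3, rfl⟩ := (hb.U_split F i u h2).2
  obtain ⟨w', h4, e1⟩ := (hb.nn_norm F i w h3).2
  have e2 : S.nw F l * w = S.nw F (l ++ [i]) * w' * S.ni F i := by
    rw [nw_app, nw_one, mul_assoc (S.nw F l), ← e1, mul_assoc, mul_assoc, (hb.nn_ni F i).1, mul_one]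
  have e3 : ∀ t, b * (S.nw F l * (w * S.x F (S.s i) c)) * S.x F (S.s i) t * S.ni F i =
      b * (S.nw F (l ++ [i]) * w' * S.p F i (-1) 0 (c + t) (-1)) := by
    intro t
    have : S.ni F i * (S.x F (S.s i) c * (S.x F (S.s i) t * S.ni F i)) =
        S.p F i (-1) 0 (c + t) (-1) := by
      simp only [← h.p_up, Sys.ni, h.p_mul]
      congr 1 <;> ring
    rw [← mul_assoc (S.nw F l), e2, ← this]
    simp only [mul_assoc]
  have c1 : S.nw F (l ++ [i]) * w' ∈ S.Cell F (S.pw l ∘ S.sg i) := by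
    rw [← hw.pw_snoc]
    exact cell_r hb (nw_cell _) (U_Bo (hb.XZ_le F _ h4))
  refine ⟨-c, ?_, fun t ht => ?_⟩
  · rw [e3, add_neg_cancel]
    exact cell_l hb (cell_r hb c1 (hb.Bo_p F i _ _ _ (by ring))) h1
  · have hc : c + t ≠ 0 := fun e => ht (by linear_combination e)
    have e4 : (S.pw l ∘ S.sg i) ∘ S.sg i = S.pw l := by
      funext a; simp [h.sg_sg]
    have c2 := step_up hb hw ((hw.up_flip l i).1 hu) c1 (-1 / (c + t))
    rw [e4] at c2
    rw [e3, p_split h i (by ring) hc, ← mul_assoc (_ * w'), ← mul_assoc (_ * w')]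
    exact cell_l hb (cell_r hb c2 (hb.Bo_p F i _ _ _ (mul_inv_cancel₀ hc))) h1

theorem step_any (h : S.Ax) (hb : S.Bas) (hw : S.Wrd) {π : Fin S.n → Fin S.n} (i : Fin S.r)
    {g : S.Mat F} (hg : g ∈ S.Cell F π) (t : F) :
    g * S.x F (S.s i) t * S.ni F i ∈ S.Cell F (π ∘ S.sg i) ∨
      g * S.x F (S.s i) t * S.ni F i ∈ S.Cell F π := by
  by_cases hu : S.up π i
  · exact Or.inl (step_up hb hw hu hg t)
  · obtain ⟨t₀, h1, h2⟩ := step_down h hb hw hu hg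
    by_cases e : t = t₀
    · exact Or.inl (e ▸ h1)
    · exact Or.inr (h2 t e)

theorem cover (h : S.Ax) (hb : S.Bas) (hw : S.Wrd) {g : S.Mat F} (hg : g ∈ S.G F) :
    ∃ l, g ∈ S.Cell F (S.pw l) := by
  let Good : S.Mat F → Prop := fun g => ∃ l, g ∈ S.Cell F (S.pw l)
  have gB : ∀ g b, Good g → b ∈ S.Bo F → Good (g * b) := fun g b ⟨l, hl⟩ h1 =>
    ⟨l, cell_r hb hl h1⟩
  have gi : ∀ g i, Good g → Good (g * S.ni F i) := by
    rintro g i ⟨l, hl⟩
    have := step_any h hb hw i hl 0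
    rw [h.x_zero, mul_one, ← hw.pw_snoc] at this
    exact this.elim (fun h1 => ⟨_, h1⟩) fun h1 => ⟨_, h1⟩
  have gn : ∀ g i, Good g → Good (g * S.nn F i) := by
    intro g i hg
    obtain ⟨t, ht, e⟩ := hb.ni_eq F i
    obtain ⟨t', ht', e', -⟩ := hb.T_inv F t ht
    have := gB _ _ (gi g i hg) (T_Bo ht')
    rwa [e, mul_assoc, mul_assoc, e', mul_one] at this
  have gw : ∀ l g, Good g ↔ Good (g * S.nw F l) := by
    intro l
    induction l with
    | nil => intro g; simp [Sys.nw]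
    | cons i l ih =>
      intro g
      rw [← List.singleton_append, nw_app, nw_one, ← mul_assoc, ← ih]
      refine ⟨gn g i, fun h1 => ?_⟩
      have := gi _ i h1
      rwa [mul_assoc, (hb.nn_ni F i).1, mul_one] at this
  induction hg using Submonoid.closure_induction_right with
  | one => exact ⟨[], nw_cell []⟩
  | mul_right g _ y hy ih =>
    rcases hy with hy | hy
    · exact gB _ _ ih (U_Bo (Submonoid.subset_closure hy))
    · obtain ⟨u, hu, e⟩ := hw.V_n0 F y (Submonoid.subset_closure hy)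
      refine (gw S.base _).2 ?_
      rw [mul_assoc, show S.nw F S.base = S.n0 F from rfl, e, ← mul_assoc]
      exact gB _ _ ((gw S.base _).1 ih) (U_Bo hu)

theorem cell_inv (hb : S.Bas) (hw : S.Wrd) (l : List (Fin S.r)) {g g' : S.Mat F}
    (hg : g ∈ S.Cell F (S.pw l)) (e : g * g' = 1) : g' ∈ S.Cell F (S.pw l.reverse) := by
  obtain ⟨l₀, hl, b₁, h1, b₂, h2, rfl⟩ := hg
  obtain ⟨c₁, k1, e1, -⟩ := hb.Bo_inv F b₁ h1
  obtain ⟨c₂, k2, e2, -⟩ := hb.Bo_inv F b₂ h2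
  obtain ⟨t, ht, e3⟩ := hw.collapse (l₀ ++ l₀.reverse) []
    (by rw [hw.pw_append, (hw.pw_rev l₀).2]; rfl) F
  obtain ⟨t', ht', e4, -⟩ := hb.T_inv F t ht
  rw [nw_app, show S.nw F [] = 1 from rfl, one_mul] at e3
  have e5 : S.pw l₀.reverse = S.pw l.reverse := by
    calc S.pw l₀.reverse = S.pw l₀.reverse ∘ (S.pw l ∘ S.pw l.reverse) := by
          rw [(hw.pw_rev l).2]; rfl
      _ = (S.pw l₀.reverse ∘ S.pw l₀) ∘ S.pw l.reverse := by rw [hl]; rfl
      _ = _ := by rw [(hw.pw_rev l₀).1]; rfl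
  have e6 : b₁ * S.nw F l₀ * b₂ * (c₂ * S.nw F l₀.reverse * (t' * c₁)) = 1 := by
    calc _ = b₁ * (S.nw F l₀ * (b₂ * c₂) * S.nw F l₀.reverse * t') * c₁ := by
          simp only [mul_assoc]
      _ = 1 := by rw [e2, mul_one, e3, e4, mul_one, e1]
  refine ⟨l₀.reverse, e5, c₂, k2, t' * c₁, hb.Bo_mul F _ (T_Bo ht') _ k1, ?_⟩
  calc g' = g' * (b₁ * S.nw F l₀ * b₂ * (c₂ * S.nw F l₀.reverse * (t' * c₁))) := by
        rw [e6, mul_one]
    _ = _ := by rw [← mul_assoc g', mul_eq_one_comm.1 e, one_mul]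

theorem cell_PP (h : S.Ax) (hb : S.Bas) (hw : S.Wrd) (L : List (Fin S.r × F × F × F × F))
    (hL : S.Dets L) : ∃ L' : List (Fin S.r × F × F × F × F),
    L'.Sublist L ∧ (∀ e ∈ L', e.2.2.2.1 ≠ 0) ∧ S.PP F L ∈ S.Cell F (S.pw (L'.map Prod.fst)) := by
  induction L using List.reverseRecOn with
  | nil => exact ⟨[], List.Sublist.refl _, by simp, nw_cell []⟩
  | append_singleton L e ih =>
    obtain ⟨L', h1, h2, h3⟩ := ih fun e he => hL e (List.mem_append_left _ he)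
    have hd := hL e (by simp)
    obtain ⟨i, a, b, c, d⟩ := e
    have e1 : S.PP F (L ++ [(i, a, b, c, d)]) = S.PP F L * S.p F i a b c d := by simp [Sys.PP]
    have h1' : L'.Sublist (L ++ [(i, a, b, c, d)]) := h1.trans (List.sublist_append_left _ _)
    rw [e1]
    by_cases hc : c = 0
    · subst hc
      exact ⟨L', h1', h2, cell_r hb h3 (hb.Bo_p F i _ _ _ (by simpa using hd))⟩
    rw [p_split h i hd hc, ← mul_assoc, ← mul_assoc]
    have hB := hb.Bo_p F i c d c⁻¹ (mul_inv_cancel₀ hc)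
    rcases step_any h hb hw i h3 (a / c) with h4 | h4
    · refine ⟨L' ++ [(i, a, b, c, d)], h1.append (List.Sublist.refl _), fun e he => ?_, ?_⟩
      · rcases List.mem_append.1 he with he | he
        · exact h2 e he
        · rw [List.mem_singleton.1 he]; exact hc
      · rw [List.map_append, List.map_singleton, hw.pw_snoc]
        exact cell_r hb h4 hB
    · exact ⟨L', h1', h2, cell_r hb h4 hB⟩

end Fl

theorem fldSt : FldSt := fun _ h hb hw =>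
  { cell_Bo := fun _ _ _ _ hg _ h1 => ⟨Fl.cell_l hb hg h1, Fl.cell_r hb hg h1⟩
    step_up := fun _ _ _ _ hu _ hg t => Fl.step_up hb hw hu hg t
    step_down := fun _ _ _ _ hu _ hg => Fl.step_down h hb hw hu hg
    cover := fun _ _ _ hg => Fl.cover h hb hw hg
    cell_inv := fun _ _ l _ hg _ e => Fl.cell_inv hb hw l hg e
    cell_PP := fun _ _ L hL => Fl.cell_PP h hb hw L hL }

end Pool.Agent.Lib.MP_755cca_al.F
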