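import Pool.Agent.Lib.MP_755cca_al.F.Gen

/-! Integral points of the rational Borel subgroup. -/

open Matrix

namespace Pool.Agent.Lib.MP_755cca_al.F

namespace I1

variable {S : Sys}

theorem red_inj {g g' : S.Mat ℤ} (h : S.red ℚ g = S.red ℚ g') : g = g' := by
  ext a b
  have := congrFun (congrFun h a) b
  simpa [Sys.red] using this

theorem red_one (R : Type) [CommRing R] : S.red R 1 = 1 := by
  simp [Sys.red]

theorem red_apply (R : Type) [CommRing R] (g : S.Mat ℤ) (a b : Fin S.n) :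
    S.red R g a b = (g a b : R) := rfl

theorem nw_snoc (R : Type) [CommRing R] (l : List (Fin S.r)) (j : Fin S.r) :
    S.nw R (l ++ [j]) = S.nw R l * S.nn R j := by
  simp [Sys.nw]

theorem red_nn (hB : S.Bas) (R : Type) [CommRing R] (i : Fin S.r) :
    S.red R (S.nn ℤ i) = S.nn R i := by
  simpa [Sys.nn] using hB.red_p R i 0 1 (-1) 0

theorem red_ni (hB : S.Bas) (R : Type) [CommRing R] (i : Fin S.r) :
    S.red R (S.ni ℤ i) = S.ni R i := by
  simpa [Sys.ni] using hB.red_p R i 0 (-1) 1 0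

theorem x_mem (R : Type) [CommRing R] (a : Fin S.N) (t : R) : S.x R a t ∈ S.U R :=
  Submonoid.subset_closure ⟨a, t, rfl⟩

theorem ent_mul {n : ℕ} {R : Type} [CommRing R] {u w : Matrix (Fin n) (Fin n) R}
    (hu : (∀ b c, c < b → u b c = 0) ∧ ∀ b, u b b = 1)
    (hw : (∀ b c, c < b → w b c = 0) ∧ ∀ b, w b b = 1) {a b : Fin n} (h : b.val = a.val + 1) :
    (u * w) a b = u a b + w a b := by
  have hab : a ≠ b := fun e => by rw [e] at h; omega
  rw [mul_apply, Finset.sum_eq_add_of_mem b a (Finset.mem_univ _) (Finset.mem_univ _) hab.symm,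
    hu.2, hw.2, mul_one, one_mul]
  rintro c - ⟨h1, h2⟩
  rcases lt_or_gt_of_ne h2 with h3 | h3
  · rw [hu.1 a c h3, zero_mul]
  · rw [hw.1 c b ?_, mul_zero]
    rw [Fin.lt_def] at h3 ⊢
    have : c.val ≠ b.val := fun e => h1 (Fin.ext e)
    omega

theorem ent_zero (hA : S.Ax) (hB : S.Bas) (R : Type) [CommRing R] (i : Fin S.r) {w : S.Mat R}
    (hw : w ∈ S.XZ R {a | a ≠ S.s i}) : w (S.A i) (S.B i) = 0 := by
  induction hw using Submonoid.closure_induction with
  | mem g hg =>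
    obtain ⟨a, ha, t, rfl⟩ := hg
    exact hA.ent_ne R i a t ha
  | one => exact one_apply_ne fun e => by have := (hA.AB i).1; rw [e] at this; omega
  | mul a b ha hb h1 h2 =>
    rw [ent_mul (hB.U_tri R a (hB.XZ_le R _ ha)) (hB.U_tri R b (hB.XZ_le R _ hb)) (hA.AB i).1, h1,
      h2, add_zero]

theorem peel (hA : S.Ax) (hB : S.Bas) (i : Fin S.r) {g : S.Mat ℤ} (hg : S.red ℚ g ∈ S.U ℚ) :
    ∃ (t : ℤ) (g' : S.Mat ℤ), S.red ℚ g' ∈ S.U ℚ ∧
      g * S.nn ℤ i = S.x ℤ (S.s i) t * S.nn ℤ i * g' := by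
  obtain ⟨⟨t, w, hw, e1⟩, -⟩ := hB.U_split ℚ i _ hg
  obtain ⟨e, he, h2⟩ := hA.ent_s i
  have h3 : ((g (S.A i) (S.B i) : ℤ) : ℚ) = e * t := by
    rw [← red_apply, e1, ent_mul (hB.U_tri ℚ _ (x_mem ℚ _ _)) (hB.U_tri ℚ w (hB.XZ_le ℚ _ hw))
      (hA.AB i).1, h2, ent_zero hA hB ℚ i hw, add_zero]
  have h4 : ((-(e * g (S.A i) (S.B i)) : ℤ) : ℚ) = -t := by
    have : (e : ℚ) * e = 1 := by exact_mod_cast he
    push_cast
    rw [h3, ← mul_assoc, this, one_mul]
  obtain ⟨w', hw', e2⟩ := (hB.nn_norm ℚ i w hw).2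
  refine ⟨e * g (S.A i) (S.B i), S.ni ℤ i * (S.x ℤ (S.s i) (-(e * g (S.A i) (S.B i))) * g *
    S.nn ℤ i), ?_, ?_⟩
  · rw [hB.red_mul, hB.red_mul, hB.red_mul, red_nn hB, red_ni hB, hB.red_x, h4, e1,
      ← mul_assoc (S.x ℚ _ _), ← hA.x_add, neg_add_cancel, hA.x_zero, one_mul, e2, ← mul_assoc,
      (hB.nn_ni ℚ i).2, one_mul]
    exact hB.XZ_le ℚ _ hw'
  · rw [mul_assoc, ← mul_assoc (S.nn ℤ i), (hB.nn_ni ℤ i).1, one_mul, ← mul_assoc, ← mul_assoc,
      ← hA.x_add, add_neg_cancel, hA.x_zero, one_mul]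

theorem chain (hA : S.Ax) (hB : S.Bas) (hW : S.Wrd) {g : S.Mat ℤ} (hg : S.red ℚ g ∈ S.U ℚ)
    (l : List (Fin S.r)) : S.Red l → ∃ u ∈ S.U ℤ, ∃ g' : S.Mat ℤ, S.red ℚ g' ∈ S.U ℚ ∧
      g * S.nw ℤ l = u * S.nw ℤ l * g' := by
  induction l using List.reverseRecOn with
  | nil => exact fun _ => ⟨1, one_mem _, g, hg, by simp [Sys.nw]⟩
  | append_singleton l j ih =>
    intro hr
    obtain ⟨u, hu, g', h1, e1⟩ := ih fun l₁ i l₂ e => hr l₁ i (l₂ ++ [j]) (by simp [e])
    obtain ⟨t, g'', h2, e2⟩ := peel hA hB j h1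
    obtain ⟨u₁, h3, u₂, h4, e3⟩ := hW.push ℤ l j (hr l j [] rfl) _ (x_mem ℤ (S.s j) t)
    refine ⟨u * u₁, mul_mem hu h3, u₂ * g'', ?_, ?_⟩
    · rw [hB.red_mul]; exact mul_mem (hB.red_U ℚ _ h4) h2
    · calc g * S.nw ℤ (l ++ [j]) = u * S.nw ℤ l * (g' * S.nn ℤ j) := by
            rw [nw_snoc, ← mul_assoc, e1, mul_assoc]
        _ = u * (S.nw ℤ l * S.x ℤ (S.s j) t * S.nn ℤ j) * g'' := by
            rw [e2]; simp only [mul_assoc]
        _ = _ := by rw [e3]; simp only [mul_assoc]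

theorem int_U (hA : S.Ax) (hB : S.Bas) (hW : S.Wrd) {g : S.Mat ℤ} (hg : S.red ℚ g ∈ S.U ℚ) :
    g ∈ S.U ℤ := by
  obtain ⟨u, hu, g', h1, e1⟩ := chain hA hB hW hg S.base hA.base_red
  obtain ⟨v, hv, e2⟩ := hW.n0_U ℚ _ h1
  obtain ⟨m, -, hm, -⟩ := hB.G_inv ℚ _ (hB.red_G ℚ _ (hB.nw_G S.base))
  obtain ⟨u', hu', -, h2⟩ := hB.U_inv ℚ _ (hB.red_U ℚ u hu)
  have e3 := congrArg (S.red ℚ) e1
  rw [hB.red_nw] at hm
  rw [hB.red_mul, hB.red_mul, hB.red_mul, hB.red_nw, mul_assoc] at e3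
  have e4 : S.red ℚ g = S.red ℚ u * v := by
    calc S.red ℚ g = S.red ℚ g * S.nw ℚ S.base * m := by rw [mul_assoc, hm, mul_one]
      _ = S.red ℚ u * (v * S.nw ℚ S.base) * m := by rw [e3]; exact congrArg (_ * · * m) e2
      _ = _ := by rw [mul_assoc, mul_assoc, hm, mul_one]
  have e5 : v = 1 := by
    refine hB.UV ℚ v ?_ hv
    have := mul_mem hu' hg
    rwa [e4, ← mul_assoc, h2, one_mul] at this
  rw [e5, mul_one] at e4
  rw [red_inj e4]; exact hu

/-- a torus element in coordinates -/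
def tor (S : Sys) (R : Type) [CommRing R] (s : Finset (Fin S.r)) (u v : Fin S.r → R) : S.Mat R :=
  diagonal fun c => ∏ i ∈ s, S.p R i (u i) 0 0 (v i) c c

theorem p_diag (hA : S.Ax) (R : Type) [CommRing R] (i : Fin S.r) (u v : R) :
    (diagonal fun c => S.p R i u 0 0 v c c) = S.p R i u 0 0 v :=
  (hA.tor_diag R i u v).diagonal_diag

theorem p_ent (hA : S.Ax) (R : Type) [CommRing R] (i : Fin S.r) (u v u' v' : R) (c : Fin S.n) :
    S.p R i u 0 0 v c c * S.p R i u' 0 0 v' c c = S.p R i (u * u') 0 0 (v * v') c c := by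
  have := hA.p_mul R i u 0 0 v u' 0 0 v'
  rw [← p_diag hA R i u v, ← p_diag hA R i u' v', diagonal_mul_diagonal] at this
  simpa using congrFun (congrFun this c) c

theorem tor_mul (hA : S.Ax) (R : Type) [CommRing R] (s : Finset (Fin S.r))
    (u v u' v' : Fin S.r → R) : tor S R s u v * tor S R s u' v' = tor S R s (u * u') (v * v') := by
  unfold tor
  rw [diagonal_mul_diagonal]
  congr 1
  funext c
  rw [← Finset.prod_mul_distrib]
  exact Finset.prod_congr rfl fun i _ => p_ent hA R i _ _ _ _ c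

theorem tor_one (hA : S.Ax) (R : Type) [CommRing R] (s : Finset (Fin S.r)) :
    tor S R s 1 1 = 1 := by
  simp [tor, hA.p_one]

theorem tor_mem (hA : S.Ax) (R : Type) [CommRing R] {u v : Fin S.r → R} (h : ∀ i, u i * v i = 1)
    (s : Finset (Fin S.r)) : tor S R s u v ∈ S.T R := by
  induction s using Finset.induction_on with
  | empty => simp [tor]
  | insert i s hi ih =>
    have : tor S R (insert i s) u v = S.p R i (u i) 0 0 (v i) * tor S R s u v := by
      conv_rhs => rw [← p_diag hA R i]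
      simp only [tor, diagonal_mul_diagonal, Finset.prod_insert hi]
    rw [this]
    exact mul_mem (Submonoid.subset_closure ⟨i, _, _, h i, rfl⟩) ih

theorem exists_tor (hA : S.Ax) (R : Type) [CommRing R] {h : S.Mat R} (hh : h ∈ S.T R) :
    ∃ u v : Fin S.r → R, (∀ i, u i * v i = 1) ∧ h = tor S R Finset.univ u v := by
  induction hh using Submonoid.closure_induction with
  | mem g hg =>
    obtain ⟨i, u, v, huv, rfl⟩ := hg
    refine ⟨fun j => if j = i then u else 1, fun j => if j = i then v else 1, fun j => ?_, ?_⟩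
    · by_cases h : j = i <;> simp [h, huv]
    · rw [← p_diag hA R i, tor]
      congr 1
      funext c
      rw [Finset.prod_eq_single i (fun j _ hj => by simp [hj, hA.p_one]) (by simp)]
      simp
  | one => exact ⟨1, 1, by simp, (tor_one hA R _).symm⟩
  | mul a b _ _ ha hb =>
    obtain ⟨u, v, h1, rfl⟩ := ha
    obtain ⟨u', v', h2, rfl⟩ := hb
    refine ⟨u * u', v * v', fun i => ?_, tor_mul hA R _ _ _ _ _⟩
    rw [Pi.mul_apply, Pi.mul_apply, mul_mul_mul_comm, h1, h2, one_mul]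

theorem tor_chi (hA : S.Ax) (R : Type) [CommRing R] {u v : Fin S.r → R} (h : ∀ i, u i * v i = 1)
    (k : Fin S.r) : ∏ j, tor S R Finset.univ u v (S.Cl k j) (S.Cl k j) = u k := by
  simp only [tor, diagonal_apply_eq]
  rw [Finset.prod_comm, Finset.prod_congr rfl fun i _ => hA.tor_C R i k _ _ (h i)]
  simp

theorem red_tor (hB : S.Bas) (R : Type) [CommRing R] (a b : Fin S.r → ℤ) :
    S.red R (tor S ℤ Finset.univ a b) =
      tor S R Finset.univ (fun i => (a i : R)) fun i => (b i : R) := by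
  unfold tor Sys.red
  rw [diagonal_map (map_zero _)]
  congr 1
  funext c
  rw [map_prod]
  refine Finset.prod_congr rfl fun i _ => ?_
  simpa [Sys.red] using congrFun (congrFun (hB.red_p R i (a i) 0 0 (b i)) c) c

end I1

open I1 in
theorem int1St : Int1St := by
  rintro S hA hB hW g hg ⟨h, hh, w, hw, e⟩
  obtain ⟨u, v, huv, rfl⟩ := exists_tor hA ℚ hh
  have hvu : ∀ i, v i * u i = 1 := fun i => by rw [mul_comm, huv]
  obtain ⟨g', -, h1, -⟩ := hB.G_inv ℤ g hg
  obtain ⟨w', hw', -, h2⟩ := hB.U_inv ℚ w hw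
  have h3 : tor S ℚ Finset.univ v u * tor S ℚ Finset.univ u v = 1 := by
    rw [tor_mul hA, show v * u = 1 from funext hvu, show u * v = 1 from funext huv, tor_one hA]
  have e' : S.red ℚ g' = w' * tor S ℚ Finset.univ v u := by
    have h4 : S.red ℚ g * S.red ℚ g' = 1 := by rw [← hB.red_mul, h1, red_one]
    calc S.red ℚ g' = w' * (tor S ℚ Finset.univ v u * tor S ℚ Finset.univ u v) * w * S.red ℚ g' := by
          rw [h3, mul_one, h2, one_mul]
      _ = w' * tor S ℚ Finset.univ v u * (S.red ℚ g * S.red ℚ g') := by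
          rw [e]; simp only [mul_assoc]
      _ = _ := by rw [h4, mul_one]
  have a1 : ∀ k, ((∏ j, g (S.Cl k j) (S.Cl k j) : ℤ) : ℚ) = u k := fun k => by
    rw [← tor_chi hA ℚ huv k, Int.cast_prod]
    refine Finset.prod_congr rfl fun j _ => ?_
    rw [← red_apply, e, tor, diagonal_mul, (hB.U_tri ℚ w hw).2, mul_one, diagonal_apply_eq]
  have a2 : ∀ k, ((∏ j, g' (S.Cl k j) (S.Cl k j) : ℤ) : ℚ) = v k := fun k => by
    rw [← tor_chi hA ℚ hvu k, Int.cast_prod]
    refine Finset.prod_congr rfl fun j _ => ?_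
    rw [← red_apply, e', tor, mul_diagonal, (hB.U_tri ℚ w' hw').2, one_mul, diagonal_apply_eq]
  obtain ⟨a, rfl⟩ : ∃ a : Fin S.r → ℤ, (fun k => (a k : ℚ)) = u := ⟨_, funext a1⟩
  obtain ⟨b, rfl⟩ : ∃ b : Fin S.r → ℤ, (fun k => (b k : ℚ)) = v := ⟨_, funext a2⟩
  have hab : ∀ i, a i * b i = 1 := fun i => by
    have : (a i : ℚ) * b i = 1 := huv i
    exact_mod_cast this
  refine ⟨tor S ℤ Finset.univ a b, tor_mem hA ℤ hab _, tor S ℤ Finset.univ b a * g,
    int_U hA hB hW ?_, ?_⟩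
  · rw [hB.red_mul, red_tor hB, e, ← mul_assoc, h3, one_mul]; exact hw
  · rw [← mul_assoc, tor_mul hA, show a * b = 1 from funext hab,
      show b * a = 1 from funext fun i => (mul_comm _ _).trans (hab i), tor_one hA, one_mul]

end Pool.Agent.Lib.MP_755cca_al.F
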