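import Pool.Agent.Lib.MP_755cca_al.F.Gen

/-! Factorisation along the base word. -/

open Matrix
open scoped Pointwise

namespace Pool.Agent.Lib.MP_755cca_al.F

namespace I2

variable {S : Sys}

theorem T_Bo {R : Type} [CommRing R] {h : S.Mat R} (hh : h ∈ S.T R) : h ∈ S.Bo R :=
  ⟨h, hh, 1, one_mem _, (mul_one h).symm⟩

theorem U_Bo {R : Type} [CommRing R] {u : S.Mat R} (hu : u ∈ S.U R) : u ∈ S.Bo R :=
  ⟨1, one_mem _, u, hu, (one_mul u).symm⟩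

theorem letter (hA : S.Ax) (hB : S.Bas) (i : Fin S.r) {b : S.Mat ℚ} (hb : b ∈ S.Bo ℚ) :
    ∃ a₁ a₂ a₃ a₄ : ℤ, a₁ * a₄ - a₂ * a₃ = 1 ∧ ∃ b' ∈ S.Bo ℚ,
      b * S.nn ℚ i = S.p ℚ i a₁ a₂ a₃ a₄ * b' := by
  obtain ⟨h, hh, u, hu, rfl⟩ := hb
  obtain ⟨u', hu', e1⟩ := (hB.T_norm ℚ Set.univ h hh u (hB.U_eq ℚ ▸ hu)).1
  rw [← hB.U_eq] at hu'
  obtain ⟨t, w, hw, e2⟩ := (hB.U_split ℚ i u' hu').1
  obtain ⟨h', hh', e3⟩ := (hB.nw_T ℚ [i] h hh).2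
  have e4 : S.nw ℚ [i] = S.nn ℚ i := by simp [Sys.nw]
  rw [e4] at e3
  obtain ⟨w', hw', e5⟩ := (hB.nn_norm ℚ i w hw).2
  obtain ⟨x, y, hxy⟩ : IsCoprime t.num (t.den : ℤ) := Int.isCoprime_iff_gcd_eq_one.2 t.reduced
  have hd : (t.den : ℚ) ≠ 0 := Nat.cast_ne_zero.2 t.den_nz
  have hxy' : (x : ℚ) * t.num + y * t.den = 1 := by exact_mod_cast hxy
  have hn : (t.num : ℚ) = t * t.den := (Rat.mul_den_eq_num t).symm
  have e6 : S.x ℚ (S.s i) t * S.nn ℚ i =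
      S.p ℚ i (t.num : ℤ) ((-y : ℤ) : ℚ) ((t.den : ℤ) : ℚ) (x : ℤ) *
        S.p ℚ i (-(t.den : ℚ)⁻¹) x 0 (-(t.den : ℚ)) := by
    rw [← hA.p_up, Sys.nn, hA.p_mul, hA.p_mul]
    congr 1
    · rw [hn]; field_simp; ring
    · push_cast; linear_combination -hxy'
    · push_cast; field_simp; ring
    · push_cast; ring
  refine ⟨t.num, -y, t.den, x, by linear_combination hxy,
    S.p ℚ i (-(t.den : ℚ)⁻¹) x 0 (-(t.den : ℚ)) * (w' * h'),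
    hB.Bo_mul ℚ _ (hB.Bo_p ℚ i _ _ _ (by field_simp)) _
      (hB.Bo_mul ℚ _ (U_Bo (hB.XZ_le ℚ _ hw')) _ (T_Bo hh')), ?_⟩
  rw [← mul_assoc, ← e6, e1, e2, mul_assoc, e3, mul_assoc, ← mul_assoc w, e5]
  simp only [mul_assoc]

theorem word (hA : S.Ax) (hB : S.Bas) (l : List (Fin S.r)) : ∀ b ∈ S.Bo ℚ,
    ∃ L : List (Fin S.r × ℤ × ℤ × ℤ × ℤ), S.Dets L ∧ L.map Prod.fst = l ∧ S.PP ℤ L ∈ S.G ℤ ∧
      ∃ b' ∈ S.Bo ℚ, b * S.nw ℚ l = S.red ℚ (S.PP ℤ L) * b' := by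
  induction l with
  | nil =>
    intro b hb
    refine ⟨[], fun e he => by simp at he, rfl, one_mem _, b, hb, ?_⟩
    simp [Sys.nw, Sys.PP, Sys.red]
  | cons i l ih =>
    intro b hb
    obtain ⟨a₁, a₂, a₃, a₄, h1, b₁, hb₁, e1⟩ := letter hA hB i hb
    obtain ⟨L, h2, h3, h4, b₂, hb₂, e2⟩ := ih b₁ hb₁
    have e3 : S.PP ℤ ((i, a₁, a₂, a₃, a₄) :: L) = S.p ℤ i a₁ a₂ a₃ a₄ * S.PP ℤ L := by
      simp [Sys.PP]
    refine ⟨(i, a₁, a₂, a₃, a₄) :: L, ?_, by simp [h3], ?_, b₂, hb₂, ?_⟩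
    · intro e he
      rcases List.mem_cons.1 he with rfl | he
      · exact h1
      · exact h2 e he
    · rw [e3]; exact mul_mem (hB.p_G i _ _ _ _ h1) h4
    · have e4 : S.nw ℚ (i :: l) = S.nn ℚ i * S.nw ℚ l := by simp [Sys.nw]
      rw [e3, hB.red_mul, hB.red_p, e4, ← mul_assoc, e1, mul_assoc, e2, mul_assoc]

end I2

theorem int2St : Int2St := by
  intro S hA hB hW hF hM hI g hg hD
  obtain ⟨l, hl⟩ := hF.cover ℚ _ (hB.red_G ℚ g hg)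
  have h1 : S.pw l = S.pw S.base := hA.big l fun k => (hM.cell ℚ k _ _ hl).1 (by
    rw [hM.red_D]; exact_mod_cast hD k)
  obtain ⟨l', h2, b, hb, b', hb', e⟩ := hl
  obtain ⟨h, hh, e1⟩ := hW.collapse l' S.base (h2.trans h1) ℚ
  obtain ⟨L, h3, h4, h5, b₂, hb₂, e2⟩ := I2.word hA hB S.base b hb
  obtain ⟨g', hg', i1, i2⟩ := hB.G_inv ℤ _ h5
  refine ⟨L, h3, h4, g' * g, hI _ (mul_mem hg' hg) ?_, by rw [← mul_assoc, i1, one_mul]⟩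
  have e3 : S.red ℚ g' * S.red ℚ (S.PP ℤ L) = 1 := by
    rw [← hB.red_mul, i2]; simp [Sys.red]
  have e4 : S.red ℚ (g' * g) = b₂ * (h * b') := by
    rw [hB.red_mul, e, e1, ← mul_assoc b, e2]
    calc _ = (S.red ℚ g' * S.red ℚ (S.PP ℤ L)) * (b₂ * (h * b')) := by simp only [mul_assoc]
      _ = _ := by rw [e3, one_mul]
  rw [e4]
  exact hB.Bo_mul ℚ _ hb₂ _ (hB.Bo_mul ℚ _ (I2.T_Bo hh) _ hb')

end Pool.Agent.Lib.MP_755cca_al.F
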