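import Pool.Agent.Lib.MP_755cca_al.F.Gen

/-! Minors. -/

open Matrix

namespace Pool.Agent.Lib.MP_755cca_al.F

namespace Mn

variable {R : Type} [CommRing R] {n m : ℕ}

lemma sub_right (g u : Matrix (Fin n) (Fin n) R) (r C : Fin m → Fin n) (hC : Function.Injective C)
    (h : ∀ j b, (∀ j', C j' ≠ b) → u b (C j) = 0) :
    (g * u).submatrix r C = g.submatrix r C * u.submatrix C C := by
  ext i j
  simp only [submatrix_apply, mul_apply]
  refine (Fintype.sum_of_injective C hC _ _ (fun b hb => ?_) fun _ => rfl).symm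
  rw [h j b fun j' e => hb ⟨j', e⟩, mul_zero]

lemma sub_left (u g : Matrix (Fin n) (Fin n) R) (r C : Fin m → Fin n) (hr : Function.Injective r)
    (h : ∀ j c, (∀ j', r j' ≠ c) → u (r j) c = 0) :
    (u * g).submatrix r C = u.submatrix r r * g.submatrix r C := by
  ext i j
  simp only [submatrix_apply, mul_apply]
  refine (Fintype.sum_of_injective r hr _ _ (fun b hb => ?_) fun _ => rfl).symm
  rw [h i b fun j' e => hb ⟨j', e⟩, zero_mul]

lemma det_uni (A : Matrix (Fin m) (Fin m) R) (h : ∀ b c, c < b → A b c = 0) (d : ∀ b, A b b = 1) :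
    A.det = 1 := by
  rw [det_of_upperTriangular (M := A) fun b c e => h b c e]
  exact Finset.prod_eq_one fun b _ => d b

lemma next_left (u g : Matrix (Fin n) (Fin n) R) (r C : Fin (m + 1) → Fin n) (hr : StrictMono r)
    (r1 : Fin n) (ne : ∀ j, r j ≠ r1) (tri : ∀ b c, c < b → u b c = 0) (d : ∀ b, u b b = 1)
    (h : ∀ j c, (∀ j', r j' ≠ c) → u (r j) c = 0)
    (h1 : ∀ c, (∀ j', r j' ≠ c) → c ≠ r1 → u r1 c = 0) :
    ((u * g).submatrix (Function.update r 0 r1) C).det =
      (g.submatrix (Function.update r 0 r1) C).det + u r1 (r 0) * (g.submatrix r C).det := by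
  have e : (u * g).submatrix (Function.update r 0 r1) C =
      u.submatrix (Function.update r 0 r1) (Function.update r 0 r1) *
        (g.submatrix (Function.update r 0 r1) C).updateRow 0
          (g.submatrix (Function.update r 0 r1) C 0 + u r1 (r 0) • g.submatrix r C 0) := by
    ext i j
    rw [mul_apply, Fin.sum_univ_succ]
    simp only [submatrix_apply, updateRow_self, updateRow_ne (Fin.succ_ne_zero _),
      Function.update_self, Function.update_of_ne (Fin.succ_ne_zero _), Pi.add_apply,
      Pi.smul_apply, smul_eq_mul]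
    refine Fin.cases ?_ (fun i => ?_) i
    · rw [Function.update_self, d, one_mul, mul_apply]
      have inj : Function.Injective fun o : Option (Fin (m + 1)) => o.elim r1 r := by
        rintro (_ | a) (_ | b) q
        · rfl
        · exact absurd q.symm (ne b)
        · exact absurd q (ne a)
        · exact congrArg some (hr.injective q)
      rw [← Fintype.sum_of_injective _ inj (fun o => u r1 (o.elim r1 r) * g (o.elim r1 r) (C j)) _
        (fun b hb => by
          rw [h1 b (fun j' q => hb ⟨some j', q⟩) (fun q => hb ⟨none, q.symm⟩), zero_mul])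
        fun _ => rfl, Fintype.sum_option, Fin.sum_univ_succ]
      simp only [Option.elim, d, one_mul, add_assoc]
    · rw [Function.update_of_ne (Fin.succ_ne_zero _), h _ r1 ne, zero_mul, zero_add, mul_apply,
        ← Fintype.sum_of_injective r hr.injective (fun o => u (r i.succ) (r o) * g (r o) (C j)) _
        (fun b hb => by rw [h _ b fun j' q => hb ⟨j', q⟩, zero_mul]) fun _ => rfl,
        Fin.sum_univ_succ, tri _ _ (hr (Fin.succ_pos i)), zero_mul, zero_add]
  have e2 : (g.submatrix (Function.update r 0 r1) C).updateRow 0 (g.submatrix r C 0) =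
      g.submatrix r C := by
    ext i j
    by_cases q : i = 0
    · rw [q, updateRow_self]
    · rw [updateRow_ne q, submatrix_apply, Function.update_of_ne q, submatrix_apply]
  rw [e, det_mul, det_uni (u.submatrix _ _) ?_ (fun b => d _), one_mul, det_updateRow_add, updateRow_eq_self,
    det_updateRow_smul, e2]
  intro b c q
  have hb : b ≠ 0 := (lt_of_le_of_lt (Fin.zero_le _) q).ne'
  rw [submatrix_apply, Function.update_of_ne hb]
  by_cases hc : c = 0
  · rw [hc, Function.update_self, h _ r1 ne]
  · rw [Function.update_of_ne hc, tri _ _ (hr q)]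

lemma diag_left {h : Matrix (Fin n) (Fin n) R} (hd : h.IsDiag) (g : Matrix (Fin n) (Fin n) R)
    (r C : Fin m → Fin n) :
    ((h * g).submatrix r C).det = (∏ j, h (r j) (r j)) * (g.submatrix r C).det := by
  rw [← det_diagonal, ← det_mul]
  congr 1
  ext i j
  rw [← hd.diagonal_diag]
  simp

lemma diag_right {h : Matrix (Fin n) (Fin n) R} (hd : h.IsDiag) (g : Matrix (Fin n) (Fin n) R)
    (r C : Fin m → Fin n) :
    ((g * h).submatrix r C).det = (g.submatrix r C).det * ∏ j, h (C j) (C j) := by
  rw [← det_diagonal, ← det_mul]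
  congr 1
  ext i j
  rw [← hd.diagonal_diag]
  simp

lemma diag_ne {F : Type} [Field F] {h h' : Matrix (Fin n) (Fin n) F} (hd : h.IsDiag)
    (e : h * h' = 1) (a : Fin n) : h a a ≠ 0 := by
  intro z
  have q := congrFun (congrFun e a) a
  rw [← hd.diagonal_diag, diagonal_mul, diag_apply, z, zero_mul, one_apply_eq] at q
  exact zero_ne_one q

variable {S : Sys}

lemma right (A : S.Ax) (k : Fin S.r) (r : Fin (S.m k + 1) → Fin S.n) {u : S.Mat R}
    (hu : u ∈ S.U R) (g : S.Mat R) :
    ((g * u).submatrix r (S.Cl k)).det = (g.submatrix r (S.Cl k)).det := by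
  induction hu using Submonoid.closure_induction generalizing g with
  | mem x hx =>
    obtain ⟨a, t, rfl⟩ := hx
    rw [sub_right _ _ _ _ (A.Cl_mono k).injective (A.Cl_cl R k a t), det_mul,
      det_uni ((S.x R a t).submatrix _ _) (fun b c q => A.tri R a t _ _ (A.Cl_mono k q))
        (fun b => A.diag R a t _), mul_one]
  | one => rw [mul_one]
  | mul x y _ _ ix iy => rw [← mul_assoc, iy, ix]

lemma left (A : S.Ax) (k : Fin S.r) {u : S.Mat R} (hu : u ∈ S.U R) (g : S.Mat R) :
    S.D R k (u * g) = S.D R k g ∧ S.D R k g ∣ S.Q R k (u * g) - S.Q R k g := by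
  induction hu using Submonoid.closure_induction generalizing g with
  | mem x hx =>
    obtain ⟨a, t, rfl⟩ := hx
    refine ⟨?_, ?_⟩
    · rw [Sys.D, sub_left _ _ _ _ (A.Rw_mono k).injective (A.Rw_cl R k a t), det_mul,
        det_uni ((S.x R a t).submatrix _ _) (fun b c q => A.tri R a t _ _ (A.Rw_mono k q))
          (fun b => A.diag R a t _), one_mul, Sys.D]
    · rw [Sys.Q, next_left _ _ _ _ (A.Rw_mono k) _ (A.R1_ne k) (A.tri R a t) (A.diag R a t)
        (A.Rw_cl R k a t) (A.R1_cl R k a t), Sys.Q, add_sub_cancel_left]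
      exact Dvd.intro_left _ rfl
  | one => simp
  | mul x y _ _ ix iy =>
    obtain ⟨a1, a2⟩ := ix (y * g)
    obtain ⟨b1, b2⟩ := iy g
    rw [mul_assoc, a1, b1]
    rw [b1] at a2
    exact ⟨rfl, by simpa using dvd_add a2 b2⟩

lemma word (A : S.Ax) (W : S.Wrd) (F : Type) [Field F] (k : Fin S.r) (l : List (Fin S.r)) :
    S.D F k (S.nw F l) ≠ 0 ↔ S.hit k (S.pw l) := by
  choose e he hw using W.nw_mono l
  constructor
  · intro h j
    by_contra z
    refine h (det_eq_zero_of_column_eq_zero j fun i => ?_)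
    rw [submatrix_apply, hw, if_neg fun q => z ⟨i, q.symm⟩]
  · intro h
    choose σ hσ using h
    have inj : Function.Injective σ := by
      intro a b q
      have q1 : S.pw l (S.Cl k a) = S.pw l (S.Cl k b) := by rw [hσ, hσ, q]
      exact (A.Cl_mono k).injective
        (Function.LeftInverse.injective (g := S.pw l.reverse) (f := S.pw l)
          (congrFun (W.pw_rev l).1) q1)
    let τ := Equiv.ofBijective σ (Finite.injective_iff_bijective.1 inj)
    have q := det_permute τ ((S.nw F l).submatrix (S.Rw k) (S.Cl k))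
    have e2 : ((S.nw F l).submatrix (S.Rw k) (S.Cl k)).submatrix τ id =
        diagonal fun j => (e (S.Cl k j) : F) := by
      ext i j
      simp only [submatrix_apply, id, hw, hσ, (A.Rw_mono k).injective.eq_iff, diagonal_apply, τ,
        Equiv.ofBijective_apply, inj.eq_iff]
      split_ifs with c
      · rw [c]
      · rfl
    intro z
    rw [e2, det_diagonal, show ((S.nw F l).submatrix (S.Rw k) (S.Cl k)).det = 0 from z, mul_zero,
      Finset.prod_eq_zero_iff] at q
    obtain ⟨j, -, q⟩ := q
    have := congrArg (Int.cast : ℤ → F) (he (S.Cl k j))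
    rw [Int.cast_mul, q, zero_mul, Int.cast_one] at this
    exact zero_ne_one this

end Mn

theorem mnrSt : MnrSt := by
  intro S A B W
  refine ⟨fun R _ k g u hu => ⟨Mn.right A k _ hu g, (Mn.left A k hu g).1, Mn.right A k _ hu g,
    (Mn.left A k hu g).2⟩, fun R _ k g => ((Int.castRingHom R).map_det _).symm, ?_⟩
  rintro F _ k π g ⟨l, rfl, b, ⟨h, hh, u, hu, rfl⟩, b', ⟨h', hh', u', hu', rfl⟩, rfl⟩
  obtain ⟨i, -, hi, -⟩ := B.T_inv F h hh
  obtain ⟨i', -, hi', -⟩ := B.T_inv F h' hh'
  have e : S.D F k (h * u * S.nw F l * (h' * u')) = (∏ j, h (S.Rw k j) (S.Rw k j)) *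
      S.D F k (S.nw F l) * ∏ j, h' (S.Cl k j) (S.Cl k j) := by
    rw [← mul_assoc, Sys.D, Mn.right A k _ hu', Mn.diag_right (B.T_diag F h' hh'), mul_assoc,
      Mn.diag_left (B.T_diag F h hh), ← (Mn.left A k hu (S.nw F l)).1, Sys.D]
  rw [e, ← Mn.word A W F k l, mul_ne_zero_iff, mul_ne_zero_iff]
  exact ⟨fun q => q.1.2, fun q => ⟨⟨Finset.prod_ne_zero_iff.2 fun j _ =>
    Mn.diag_ne (B.T_diag F h hh) hi _, q⟩, Finset.prod_ne_zero_iff.2 fun j _ =>
    Mn.diag_ne (B.T_diag F h' hh') hi' _⟩⟩

end Pool.Agent.Lib.MP_755cca_al.F
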