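import Pool.Agent.Lib.MP_755cca_al.F.Gen

/-! The normal form. -/

open Matrix
open scoped Pointwise

namespace Pool.Agent.Lib.MP_755cca_al.F

namespace NFm

variable {S : Sys}

theorem PP_nil (R : Type) [CommRing R] : S.PP R [] = 1 := rfl

theorem PP_cons (R : Type) [CommRing R] (i : Fin S.r) (a b c d : R)
    (L : List (Fin S.r × R × R × R × R)) :
    S.PP R ((i, a, b, c, d) :: L) = S.p R i a b c d * S.PP R L := by
  simp [Sys.PP]

theorem PP_append (R : Type) [CommRing R] (L L' : List (Fin S.r × R × R × R × R)) :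
    S.PP R (L ++ L') = S.PP R L * S.PP R L' := by
  simp [Sys.PP]

theorem dets_cons {R : Type} [CommRing R] {i : Fin S.r} {a b c d : R}
    {L : List (Fin S.r × R × R × R × R)} :
    S.Dets ((i, a, b, c, d) :: L) ↔ a * d - b * c = 1 ∧ S.Dets L := by
  simp only [Sys.Dets, List.forall_mem_cons]

theorem dets_append {R : Type} [CommRing R] {L L' : List (Fin S.r × R × R × R × R)} :
    S.Dets (L ++ L') ↔ S.Dets L ∧ S.Dets L' := by
  simp only [Sys.Dets, List.forall_mem_append]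

theorem dets_nil {R : Type} [CommRing R] : S.Dets ([] : List (Fin S.r × R × R × R × R)) :=
  fun _ h => absurd h List.not_mem_nil

theorem nw_snoc (R : Type) [CommRing R] (l : List (Fin S.r)) (i : Fin S.r) :
    S.nw R (l ++ [i]) = S.nw R l * S.nn R i := by
  simp [Sys.nw]

theorem one_Bo (R : Type) [CommRing R] : (1 : S.Mat R) ∈ S.Bo R :=
  ⟨1, one_mem _, 1, one_mem _, (mul_one 1).symm⟩

/-- the integral torus changes signs only -/
theorem tor_p (ax : S.Ax) (bs : S.Bas) {h : S.Mat ℤ} (hh : h ∈ S.T ℤ) (i : Fin S.r) :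
    ∃ e : ℤ, e * e = 1 ∧ ∀ a b c d : ℤ,
      h * S.p ℤ i a b c d = S.p ℤ i a (e * b) (e * c) d * h := by
  have hh' := bs.T_int hh
  clear hh
  induction hh' using Submonoid.closure_induction with
  | mem g hg =>
    obtain ⟨k, rfl⟩ := hg
    exact ax.sgn_p k i
  | one => exact ⟨1, by ring, fun a b c d => by simp⟩
  | mul g g' _ _ ih ih' =>
    obtain ⟨e, he, h1⟩ := ih
    obtain ⟨e', he', h2⟩ := ih'
    refine ⟨e * e', by linear_combination (e' * e') * he + he', fun a b c d => ?_⟩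
    rw [mul_assoc, h2, ← mul_assoc, h1, mul_assoc, mul_assoc e, mul_assoc e]

/-- moving a Borel element to the right -/
theorem shift (ax : S.Ax) (bs : S.Bas) {β : S.Mat ℤ} (hβ : β ∈ S.Bo ℤ) (i : Fin S.r)
    {a b c d : ℤ} (hd : a * d - b * c = 1) :
    ∃ a' b' c' d' : ℤ, a' * d' - b' * c' = 1 ∧ c' * c' = c * c ∧ ∃ β' ∈ S.Bo ℤ,
      β * S.p ℤ i a b c d = S.p ℤ i a' b' c' d' * β' := by
  obtain ⟨h, hh, u, hu, rfl⟩ := hβ
  obtain ⟨t, w, hw, rfl⟩ := (bs.U_split ℤ i u hu).2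
  obtain ⟨e, he, h1⟩ := tor_p ax bs hh i
  have hd' : (a + t * c) * d - (b + t * d) * c = 1 := by linear_combination hd
  obtain ⟨w', hw', h2⟩ := (bs.p_norm i {a | a ≠ S.s i} (by simp)
    (fun a ha => ⟨ax.ct_ne i a ha, ax.rho_ne i a ha⟩) _ _ _ _ hd' w hw).2
  refine ⟨a + t * c, e * (b + t * d), e * c, d,
    by linear_combination hd - (b + t * d) * c * he, by linear_combination c * c * he,
    h * w', ⟨h, hh, w', bs.XZ_le ℤ _ hw', rfl⟩, ?_⟩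
  have h3 : S.x ℤ (S.s i) t * S.p ℤ i a b c d = S.p ℤ i (a + t * c) (b + t * d) c d := by
    rw [← ax.p_up, ax.p_mul]
    simp
  rw [mul_assoc, mul_assoc, h3, h2, ← mul_assoc, h1, mul_assoc]

theorem mid_one (ax : S.Ax) (bs : S.Bas) (i : Fin S.r) {a b c d : ℤ} (hd : a * d - b * c = 1)
    (hc : c * c = 1) : ∃ t, ∃ β ∈ S.Bo ℤ, S.p ℤ i a b c d = S.x ℤ (S.s i) t * S.nn ℤ i * β := by
  refine ⟨a * c, S.p ℤ i (-c) (-d) 0 (-c), bs.Bo_p ℤ i _ _ _ (by linear_combination hc), ?_⟩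
  rw [← ax.p_up, Sys.nn, ax.p_mul, ax.p_mul]
  congr 1
  · linear_combination -a * hc
  · linear_combination -c * hd - b * hc
  · ring
  · ring

theorem mid_run (ax : S.Ax) (bs : S.Bas) (wr : S.Wrd) (Z : Set (Fin S.N))
    (L : List (Fin S.r × ℤ × ℤ × ℤ × ℤ)) : ∀ l : List (Fin S.r), S.Dets L →
    (∀ e ∈ L, e.2.2.2.1 * e.2.2.2.1 = 1) →
    (∀ l₁ i l₂, L.map Prod.fst = l₁ ++ i :: l₂ →
      ∃ a ∈ Z, S.actw (l ++ l₁) (S.s i, true) = (a, true)) →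
    ∀ β ∈ S.Bo ℤ, ∃ w ∈ S.XZ ℤ Z, ∃ β' ∈ S.Bo ℤ,
      S.nw ℤ l * β * S.PP ℤ L = w * S.nw ℤ (l ++ L.map Prod.fst) * β' := by
  induction L with
  | nil => exact fun l _ _ _ β hβ => ⟨1, one_mem _, β, hβ, by simp [PP_nil]⟩
  | cons e L ih =>
    obtain ⟨i, a, b, c, d⟩ := e
    intro l hD hc hact β hβ
    obtain ⟨hd, hD⟩ := dets_cons.mp hD
    obtain ⟨a', b', c', d', hd', hc', β₁, hβ₁, h1⟩ := shift ax bs hβ i hd
    obtain ⟨t, β₂, hβ₂, h2⟩ := mid_one ax bs i hd' (hc'.trans (hc _ List.mem_cons_self))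
    obtain ⟨z, hz, h3⟩ := hact [] i (L.map Prod.fst) rfl
    rw [List.append_nil] at h3
    obtain ⟨e, -, h4⟩ := wr.conj_w l (S.s i, true)
    have h5 : S.nw ℤ l * S.x ℤ (S.s i) t = S.x ℤ z (e * t) * S.nw ℤ l := by
      have := h4 ℤ t
      rw [h3] at this
      simpa [Sys.xs] using this
    obtain ⟨w, hw, β', hβ', h6⟩ := ih (l ++ [i]) hD
      (fun e he => hc e (List.mem_cons_of_mem _ he))
      (fun l₁ j l₂ h => by
        have := hact (i :: l₁) j l₂ (by simp [h])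
        simpa using this) (β₂ * β₁) (bs.Bo_mul ℤ _ hβ₂ _ hβ₁)
    refine ⟨S.x ℤ z (e * t) * w, mul_mem (Submonoid.subset_closure ⟨z, hz, _, rfl⟩) hw,
      β', hβ', ?_⟩
    have h7 : l ++ List.map Prod.fst ((i, a, b, c, d) :: L) = l ++ [i] ++ L.map Prod.fst := by
      simp
    calc S.nw ℤ l * β * S.PP ℤ ((i, a, b, c, d) :: L)
        = S.nw ℤ l * (β * S.p ℤ i a b c d) * S.PP ℤ L := by
          rw [PP_cons]; simp only [mul_assoc]
      _ = S.nw ℤ l * S.x ℤ (S.s i) t * (S.nn ℤ i * (β₂ * β₁) * S.PP ℤ L) := by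
          rw [h1, h2]; simp only [mul_assoc]
      _ = S.x ℤ z (e * t) * (S.nw ℤ (l ++ [i]) * (β₂ * β₁) * S.PP ℤ L) := by
          rw [h5, nw_snoc]; simp only [mul_assoc]
      _ = _ := by rw [h6, h7]; simp only [mul_assoc]

theorem simple_run (ax : S.Ax) (bs : S.Bas) (wr : S.Wrd)
    (L : List (Fin S.r × ℤ × ℤ × ℤ × ℤ)) : ∀ l ks : List (Fin S.r), S.Dets L →
    ks.length = L.length →
    (∀ l₁ i l₂ k₁ k k₂, L.map Prod.fst = l₁ ++ i :: l₂ → ks = k₁ ++ k :: k₂ →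
      k₁.length = l₁.length → S.actw (l ++ l₁) (S.s i, true) = (S.s k, true)) →
    ∀ β ∈ S.Bo ℤ, ∃ L', S.Dets L' ∧ L'.map Prod.fst = ks ∧ ∃ β' ∈ S.Bo ℤ,
      S.nw ℤ l * β * S.PP ℤ L = S.PP ℤ L' * S.nw ℤ (l ++ L.map Prod.fst) * β' := by
  induction L with
  | nil =>
    intro l ks _ hk _ β hβ
    obtain rfl := List.length_eq_zero_iff.mp hk
    exact ⟨[], dets_nil, rfl, β, hβ, by simp [PP_nil]⟩
  | cons e L ih =>
    obtain ⟨i, a, b, c, d⟩ := e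
    intro l ks hD hk hact β hβ
    obtain ⟨k, ks, rfl⟩ := List.exists_cons_of_length_eq_add_one hk
    obtain ⟨hd, hD⟩ := dets_cons.mp hD
    obtain ⟨a', b', c', d', hd', -, β₁, hβ₁, h1⟩ := shift ax bs hβ i hd
    have h3 := hact [] i (L.map Prod.fst) [] k ks rfl rfl rfl
    rw [List.append_nil] at h3
    obtain ⟨e, he, h4⟩ := wr.conj_p l i k h3
    have h2 : S.p ℤ i a' b' c' d' = S.p ℤ i b' (-a') d' (-c') * S.nn ℤ i := by
      rw [Sys.nn, ax.p_mul]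
      simp
    have h5 := h4 b' (-a') d' (-c') (by linear_combination hd')
    obtain ⟨L', hL', hk', β', hβ', h6⟩ := ih (l ++ [i]) ks hD (by simpa using hk)
      (fun l₁ j l₂ k₁ k' k₂ h h' h'' => by
        have := hact (i :: l₁) j l₂ (k :: k₁) k' k₂ (by simp [h]) (by simp [h']) (by simp [h''])
        simpa using this) β₁ hβ₁
    refine ⟨(k, b', e * -a', e * d', -c') :: L',
      dets_cons.mpr ⟨by linear_combination hd' + a' * d' * he, hL'⟩, by simp [hk'], β', hβ', ?_⟩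
    have h7 : l ++ List.map Prod.fst ((i, a, b, c, d) :: L) = l ++ [i] ++ L.map Prod.fst := by
      simp
    calc S.nw ℤ l * β * S.PP ℤ ((i, a, b, c, d) :: L)
        = S.nw ℤ l * (β * S.p ℤ i a b c d) * S.PP ℤ L := by
          rw [PP_cons]; simp only [mul_assoc]
      _ = S.nw ℤ l * S.p ℤ i b' (-a') d' (-c') * (S.nn ℤ i * β₁ * S.PP ℤ L) := by
          rw [h1, h2]; simp only [mul_assoc]
      _ = S.p ℤ k b' (e * -a') (e * d') (-c') * (S.nw ℤ (l ++ [i]) * β₁ * S.PP ℤ L) := by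
          rw [h5, nw_snoc]; simp only [mul_assoc]
      _ = _ := by rw [h6, h7, PP_cons]; simp only [mul_assoc]

theorem PP_norm (ax : S.Ax) (bs : S.Bas) (L : List (Fin S.r × ℤ × ℤ × ℤ × ℤ)) (hD : S.Dets L)
    (hc : ∀ e ∈ L, S.col e.1 = true) : ∀ w ∈ S.XZ ℤ (S.Zc true),
    ∃ w' ∈ S.XZ ℤ (S.Zc true), S.PP ℤ L * w = w' * S.PP ℤ L := by
  induction L with
  | nil => exact fun w hw => ⟨w, hw, by simp [PP_nil]⟩
  | cons e L ih =>
    obtain ⟨i, a, b, c, d⟩ := e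
    intro w hw
    obtain ⟨hd, hD⟩ := dets_cons.mp hD
    obtain ⟨w₁, hw₁, h1⟩ := ih hD (fun e he => hc e (List.mem_cons_of_mem _ he)) w hw
    have hi : S.col i = true := hc _ List.mem_cons_self
    have hct := ax.col_ct i
    rw [hi] at hct
    obtain ⟨w₂, hw₂, h2⟩ := (bs.p_norm i (S.Zc true) (fun h => h i hi rfl) hct a b c d hd w₁ hw₁).1
    exact ⟨w₂, hw₂, by rw [PP_cons, mul_assoc, h1, ← mul_assoc, h2, mul_assoc]⟩

theorem sgn_left (ax : S.Ax) (k : Fin S.r) (L : List (Fin S.r × ℤ × ℤ × ℤ × ℤ)) (hD : S.Dets L) :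
    ∃ L', S.Dets L' ∧ L'.map Prod.fst = L.map Prod.fst ∧
      S.PP ℤ L * S.p ℤ k (-1) 0 0 (-1) = S.p ℤ k (-1) 0 0 (-1) * S.PP ℤ L' := by
  induction L with
  | nil => exact ⟨[], dets_nil, rfl, by simp [PP_nil]⟩
  | cons e L ih =>
    obtain ⟨i, a, b, c, d⟩ := e
    obtain ⟨hd, hD⟩ := dets_cons.mp hD
    obtain ⟨L', hL', hk, h1⟩ := ih hD
    obtain ⟨e, he, h2⟩ := ax.sgn_p k i
    refine ⟨(i, a, e * b, e * c, d) :: L',
      dets_cons.mpr ⟨by linear_combination hd - b * c * he, hL'⟩, by simp [hk], ?_⟩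
    have h3 := h2 a (e * b) (e * c) d
    rw [← mul_assoc e, ← mul_assoc e, he, one_mul, one_mul] at h3
    rw [PP_cons, PP_cons, mul_assoc, h1, ← mul_assoc, ← h3, mul_assoc]

theorem sgn_abs (ax : S.Ax) (k : Fin S.r) (L : List (Fin S.r × ℤ × ℤ × ℤ × ℤ)) (hD : S.Dets L)
    (hk : k ∈ L.map Prod.fst) : ∃ L', S.Dets L' ∧ L'.map Prod.fst = L.map Prod.fst ∧
      S.PP ℤ L * S.p ℤ k (-1) 0 0 (-1) = S.PP ℤ L' := by
  induction L with
  | nil => simp at hk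
  | cons e L ih =>
    obtain ⟨i, a, b, c, d⟩ := e
    obtain ⟨hd, hD₁⟩ := dets_cons.mp hD
    by_cases hi : k = i
    · subst hi
      obtain ⟨L', hL', hk', h1⟩ := sgn_left ax k L hD₁
      refine ⟨(k, -a, -b, -c, -d) :: L',
        dets_cons.mpr ⟨by linear_combination hd, hL'⟩, by simp [hk'], ?_⟩
      rw [PP_cons, PP_cons, mul_assoc, h1, ← mul_assoc, ax.p_mul]
      simp
    · obtain ⟨L', hL', hk', h1⟩ := ih hD₁ (by simpa [hi] using hk)
      exact ⟨(i, a, b, c, d) :: L', dets_cons.mpr ⟨hd, hL'⟩, by simp [hk'],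
        by rw [PP_cons, PP_cons, mul_assoc, h1]⟩

theorem tor_abs (ax : S.Ax) (bs : S.Bas) {h : S.Mat ℤ} (hh : h ∈ S.T ℤ) (ks : List (Fin S.r))
    (hks : ∀ k, k ∈ ks) : ∀ L : List (Fin S.r × ℤ × ℤ × ℤ × ℤ), S.Dets L → L.map Prod.fst = ks →
      ∃ L', S.Dets L' ∧ L'.map Prod.fst = ks ∧ S.PP ℤ L * h = S.PP ℤ L' := by
  have hh' := bs.T_int hh
  clear hh
  induction hh' using Submonoid.closure_induction with
  | mem g hg =>
    obtain ⟨k, rfl⟩ := hg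
    intro L hD hk
    subst hk
    exact sgn_abs ax k L hD (hks k)
  | one => exact fun L hD hk => ⟨L, hD, hk, mul_one _⟩
  | mul g g' _ _ ih ih' =>
    intro L hD hk
    obtain ⟨L₁, hD₁, hk₁, h1⟩ := ih L hD hk
    obtain ⟨L₂, hD₂, hk₂, h2⟩ := ih' L₁ hD₁ hk₁
    exact ⟨L₂, hD₂, hk₂, by rw [← mul_assoc, h1, h2]⟩

theorem to_fun (L : List (Fin S.r × ℤ × ℤ × ℤ × ℤ)) (hD : S.Dets L)
    (hn : (L.map Prod.fst).Nodup) : ∃ a b c d : Fin S.r → ℤ,
    (∀ j, a j * d j - b j * c j = 1) ∧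
      ((L.map Prod.fst).map fun k => S.p ℤ k (a k) (b k) (c k) (d k)).prod = S.PP ℤ L := by
  induction L with
  | nil => exact ⟨1, 0, 0, 1, by simp, rfl⟩
  | cons e L ih =>
    obtain ⟨i, a₀, b₀, c₀, d₀⟩ := e
    obtain ⟨hd, hD⟩ := dets_cons.mp hD
    rw [List.map_cons, List.nodup_cons] at hn
    obtain ⟨a, b, c, d, h1, h2⟩ := ih hD hn.2
    refine ⟨Function.update a i a₀, Function.update b i b₀, Function.update c i c₀,
      Function.update d i d₀, fun j => ?_, ?_⟩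
    · by_cases hj : j = i
      · subst hj
        simpa using hd
      · simpa [Function.update_of_ne hj] using h1 j
    · rw [PP_cons, ← h2, List.map_cons, List.map_cons, List.prod_cons]
      congr 1
      · simp
      · congr 1
        apply List.map_congr_left
        intro j hj
        have : j ≠ i := fun h => hn.1 (h ▸ hj)
        simp [Function.update_of_ne this]

theorem red_PP (bs : S.Bas) (R : Type) [CommRing R] (L : List (Fin S.r × ℤ × ℤ × ℤ × ℤ)) :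
    S.red R (S.PP ℤ L) = S.PP R (L.map fun e =>
      (e.1, (e.2.1 : R), (e.2.2.1 : R), (e.2.2.2.1 : R), (e.2.2.2.2 : R))) := by
  induction L with
  | nil => exact bs.red_nw R []
  | cons e L ih =>
    obtain ⟨i, a, b, c, d⟩ := e
    rw [List.map_cons, PP_cons, PP_cons, bs.red_mul, bs.red_p, ih]

theorem sub_drop {α : Type} {l l₁ l₂ : List α} {e : α} (h : l.Sublist (l₁ ++ e :: l₂))
    (he : e ∉ l) : l.Sublist (l₁ ++ l₂) := by
  obtain ⟨m₁, m₂, rfl, h1, h2⟩ := List.sublist_append_iff.mp h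
  rcases List.sublist_cons_iff.mp h2 with h3 | ⟨r, rfl, -⟩
  · exact h1.append h3
  · simp at he

/-- the middle letters have unit corner -/
theorem mid_unit (ax : S.Ax) (bs : S.Bas) (fl : S.Fld) (mn : S.Mnr)
    {Lw Lm Lb : List (Fin S.r × ℤ × ℤ × ℤ × ℤ)} (hD : S.Dets (Lw ++ Lm ++ Lb))
    (hw : Lw.map Prod.fst = S.wl) (hm : Lm.map Prod.fst = S.mid) (hb : Lb.map Prod.fst = S.bl)
    {β : S.Mat ℤ} (hβ : β ∈ S.Bo ℤ)
    (hc : ∀ k k', k ≠ k' → IsCoprime (S.D ℤ k (S.PP ℤ (Lw ++ Lm ++ Lb) * β))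
      (S.D ℤ k' (S.PP ℤ (Lw ++ Lm ++ Lb) * β))) :
    ∀ e ∈ Lm, e.2.2.2.1 * e.2.2.2.1 = 1 := by
  intro e he
  by_contra hne
  obtain ⟨L₁, L₂, rfl⟩ := List.append_of_mem he
  obtain ⟨p, hp, hpc⟩ : ∃ p : ℕ, p.Prime ∧ (p : ℤ) ∣ e.2.2.2.1 := by
    obtain ⟨p, hp, h⟩ := Nat.exists_prime_and_dvd (n := e.2.2.2.1.natAbs) (fun h => hne (by
      rw [← Int.natAbs_mul_self, h]; rfl))
    exact ⟨p, hp, Int.natCast_dvd.mpr h⟩
  have : Fact p.Prime := ⟨hp⟩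
  obtain ⟨k, k', hkk, hdrop⟩ := ax.mid_drop (L₁.map Prod.fst) e.1 (L₂.map Prod.fst)
    (by rw [← hm]; simp)
  set φ : Fin S.r × ℤ × ℤ × ℤ × ℤ → Fin S.r × ZMod p × ZMod p × ZMod p × ZMod p := fun e =>
    (e.1, (e.2.1 : ZMod p), (e.2.2.1 : ZMod p), (e.2.2.2.1 : ZMod p), (e.2.2.2.2 : ZMod p))
    with hφ
  obtain ⟨L', hsub, hL', hcell⟩ := fl.cell_PP (ZMod p) ((Lw ++ (L₁ ++ e :: L₂) ++ Lb).map φ) (by
    intro e' he'
    obtain ⟨e₀, he₀, rfl⟩ := List.mem_map.mp he'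
    have := congrArg (Int.cast : ℤ → ZMod p) (hD e₀ he₀)
    simpa [hφ] using this)
  have hsub' : L'.Sublist ((Lw ++ L₁).map φ ++ (L₂ ++ Lb).map φ) := by
    apply sub_drop (e := φ e)
    · simpa using hsub
    · intro h
      exact hL' _ h ((ZMod.intCast_zmod_eq_zero_iff_dvd _ _).mpr hpc)
  have hfst : ∀ M : List (Fin S.r × ℤ × ℤ × ℤ × ℤ),
      (M.map φ).map Prod.fst = M.map Prod.fst := fun M => by
    rw [List.map_map]; rfl
  obtain ⟨h1, h2⟩ := hdrop (L'.map Prod.fst) (by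
    have := hsub'.map Prod.fst
    rw [List.map_append, hfst, hfst, List.map_append, List.map_append, hw, hb] at this
    simpa using this)
  have hred : S.red (ZMod p) (S.PP ℤ (Lw ++ (L₁ ++ e :: L₂) ++ Lb) * β) ∈
      S.Cell (ZMod p) (S.pw (L'.map Prod.fst)) := by
    rw [bs.red_mul, red_PP bs]
    refine (fl.cell_Bo (ZMod p) _ _ hcell _ ?_).2
    obtain ⟨h, hh, u, hu, rfl⟩ := hβ
    exact ⟨_, bs.red_T _ h hh, _, bs.red_U _ u hu, bs.red_mul _ _ _⟩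
  have key : ∀ j, ¬ S.hit j (S.pw (L'.map Prod.fst)) →
      (p : ℤ) ∣ S.D ℤ j (S.PP ℤ (Lw ++ (L₁ ++ e :: L₂) ++ Lb) * β) := by
    intro j hj
    rw [← ZMod.intCast_zmod_eq_zero_iff_dvd, ← mn.red_D]
    by_contra h0
    exact hj ((mn.cell (ZMod p) j _ _ hred).mp h0)
  have hu := (hc k k' hkk).isUnit_of_dvd' (key k h1) (key k' h2)
  exact (Nat.prime_iff_prime_int.mp hp).not_unit hu

end NFm

open NFm in
theorem nfSt : NFSt := by
  intro S ax bs wr fl mn i2 g hg ⟨h0, hc, _⟩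
  obtain ⟨L, hD, hL, β, hβ, rfl⟩ := i2 g hg h0
  obtain ⟨L₀, Lb, rfl, hL₀, hb⟩ := List.map_eq_append_iff.mp hL
  obtain ⟨Lw, Lm, rfl, hw, hm⟩ := List.map_eq_append_iff.mp hL₀
  have hunit := mid_unit ax bs fl mn hD hw hm hb hβ hc
  obtain ⟨hD₀, hDb⟩ := dets_append.mp hD
  obtain ⟨hDw, hDm⟩ := dets_append.mp hD₀
  obtain ⟨Lw', hDw', hw', β₁, hβ₁, e1⟩ := simple_run ax bs wr Lw [] S.wl hDw
    (by rw [← hw]; simp) (fun l₁ i l₂ k₁ k k₂ h h' h'' => by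
      rw [hw] at h
      obtain ⟨-, h3⟩ := List.append_inj (h'.symm.trans h) h''
      obtain rfl : k = i := (List.cons.inj h3).1
      exact ax.wl_act l₁ k l₂ h) 1 (one_Bo ℤ)
  obtain ⟨w, hwZ, β₂, hβ₂, e2⟩ := mid_run ax bs wr (S.Zc true) Lm S.wl hDm hunit
    (fun l₁ i l₂ h => ax.mid_act l₁ i l₂ (hm ▸ h)) β₁ hβ₁
  obtain ⟨Lb', hDb', hb', β₃, hβ₃, e3⟩ := simple_run ax bs wr Lb (S.wl ++ S.mid) S.bk hDb
    (by rw [ax.bk_len, ← hb]; simp)
    (fun l₁ i l₂ k₁ k k₂ h h' h'' => ax.bl_act l₁ i l₂ k₁ k k₂ (hb ▸ h) h' h'') β₂ hβ₂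
  obtain ⟨w', hw'Z, e4⟩ := PP_norm ax bs Lw' hDw'
    (fun e he => (ax.wl_mem _).mp (hw' ▸ List.mem_map_of_mem he)) w hwZ
  obtain ⟨h, hh, u', hu', e5⟩ := bs.Bo_mul ℤ _ hβ₃ _ hβ
  obtain ⟨h', hh', e6⟩ := (bs.nw_T ℤ S.base h hh).1
  have hall : ∀ k, k ∈ S.wl ++ S.bk := fun k => by
    rw [List.mem_append, ax.wl_mem, ax.bk_mem]
    cases S.col k <;> simp
  obtain ⟨L', hD', hL', e7⟩ := tor_abs ax bs hh' _ hall (Lw' ++ Lb')
    (dets_append.mpr ⟨hDw', hDb'⟩) (by rw [List.map_append, hw', hb'])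
  obtain ⟨a, b, c, d, hdet, e8⟩ := to_fun L' hD' (by
    rw [hL', List.nodup_append]
    refine ⟨ax.wl_nodup, ax.bk_nodup, fun k hk k' hk' hkk => ?_⟩
    subst hkk
    have h1 := (ax.wl_mem k).mp hk
    rw [(ax.bk_mem k).mp hk'] at h1
    exact absurd h1 (by simp))
  refine ⟨a, b, c, d, hdet, w', bs.XZ_le ℤ _ hw'Z, u', hu', ?_⟩
  rw [hL'] at e8
  rw [List.nil_append, hw] at e1
  rw [hm] at e2
  rw [hb] at e3
  have e0 : S.PP ℤ Lw = S.PP ℤ Lw' * S.nw ℤ S.wl * β₁ := by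
    rw [← e1]; simp [Sys.nw]
  calc S.PP ℤ (Lw ++ Lm ++ Lb) * β
      = S.PP ℤ Lw' * (S.nw ℤ S.wl * β₁ * S.PP ℤ Lm) * S.PP ℤ Lb * β := by
        rw [PP_append, PP_append, e0]; simp only [mul_assoc]
    _ = S.PP ℤ Lw' * w * (S.nw ℤ (S.wl ++ S.mid) * β₂ * S.PP ℤ Lb) * β := by
        rw [e2]; simp only [mul_assoc]
    _ = w' * (S.PP ℤ Lw' * S.PP ℤ Lb' * (S.nw ℤ S.base * (β₃ * β))) := by
        rw [e3, e4, Sys.base]; simp only [mul_assoc]
    _ = w' * (S.PP ℤ (Lw' ++ Lb') * h' * S.nw ℤ S.base) * u' := by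
        rw [e5, ← mul_assoc (S.nw ℤ S.base), e6, PP_append]; simp only [mul_assoc]
    _ = _ := by rw [e7, Sys.M, e8, Sys.n0]

end Pool.Agent.Lib.MP_755cca_al.F
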