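import Pool.Agent.Lib.MP_755cca_al.F.Tr0
import Pool.Agent.Lib.MP_755cca_al.F.Tab

/-! Transfer from the tables to the types `A` and `C`. -/

open Matrix

namespace Pool.Agent.Lib.MP_755cca_al.F

namespace TrA

open Tr0

theorem trA_gen (d : Dat) {n : ℕ} (f : Fin n → Fin (d.n + 1)) (hf : Function.Injective f)
    (hk : Keep d f) (h1 : ∀ a, ∃ i j, i < j ∧ Pat d f a (single i j 1) 0)
    (h2 : ∀ i j, i < j → ∃ a, Pat d f a (single i j 1) 0) {L : ℕ}
    (h : Up (d.toSys.pos ℤ) (transpose '' d.toSys.pos ℤ) L) : UpA n L := by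
  have e : ∀ (i j : Fin n) (t : ℤ), (1 : Matrix (Fin n) (Fin n) ℤ) + t • single i j (1 : ℤ) +
      t ^ 2 • (0 : Matrix (Fin n) (Fin n) ℤ) = 1 + single i j t := fun i j t => by simp
  refine up_block hf ?_ ?_ h
  · rintro _ ⟨a, t, rfl⟩
    obtain ⟨i, j, hij, hp⟩ := h1 a
    exact ⟨(hk.blk a t).1, (hk.blk a t).2, i, j, t, hij, (hp.eq hk t).trans (e i j t)⟩
  · rintro _ ⟨i, j, t, hij, rfl⟩
    obtain ⟨a, hp⟩ := h2 i j hij
    exact ⟨_, ⟨a, t, rfl⟩, (hp.eq hk t).trans (e i j t)⟩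

/-- the three kinds of positive root vectors -/
def nC {l : ℕ} (k : Fin 3) (i j : Fin l) : Matrix (Fin l ⊕ Fin l) (Fin l ⊕ Fin l) ℤ :=
  ![fromBlocks (single i j 1) 0 0 (-single j i 1), fromBlocks 0 (single i j 1 + single j i 1) 0 0,
    fromBlocks 0 (single i i 1) 0 0] k

theorem trC_gen (d : Dat) {l : ℕ} (f : Fin l ⊕ Fin l → Fin (d.n + 1)) (hf : Function.Injective f)
    (hk : Keep d f) (h1 : ∀ a, ∃ k i j, (k ≠ 2 → i < j) ∧ Pat d f a (nC k i j) 0)
    (h2 : ∀ k i j, (k ≠ 2 → i < j) → ∃ a, Pat d f a (nC k i j) 0) {L : ℕ}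
    (h : Up (d.toSys.pos ℤ) (transpose '' d.toSys.pos ℤ) L) : UpC l L := by
  have e0 : ∀ (i j : Fin l) (t : ℤ), 1 + t • nC 0 i j + t ^ 2 • (0 : Matrix _ _ ℤ) =
      fromBlocks (1 + single i j t) 0 0 (1 - single j i t) := fun i j t => by
    ext (a | a) (b | b) <;> simp only [Matrix.add_apply, Matrix.smul_apply] <;>
      simp [nC, one_apply, single_apply, sub_eq_add_neg]
  have e1 : ∀ (i j : Fin l) (t : ℤ), 1 + t • nC 1 i j + t ^ 2 • (0 : Matrix _ _ ℤ) =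
      fromBlocks 1 (single i j t + single j i t) 0 1 := fun i j t => by
    ext (a | a) (b | b) <;> simp only [Matrix.add_apply, Matrix.smul_apply] <;>
      simp [nC, one_apply, single_apply, mul_add]
  have e2 : ∀ (i j : Fin l) (t : ℤ), 1 + t • nC 2 i j + t ^ 2 • (0 : Matrix _ _ ℤ) =
      fromBlocks 1 (single i i t) 0 1 := fun i j t => by
    ext (a | a) (b | b) <;> simp only [Matrix.add_apply, Matrix.smul_apply] <;>
      simp [nC, one_apply, single_apply]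
  refine up_block hf ?_ ?_ h
  · rintro _ ⟨a, t, rfl⟩
    obtain ⟨k, i, j, hij, hp⟩ := h1 a
    refine ⟨(hk.blk a t).1, (hk.blk a t).2, i, j, t, ?_⟩
    have hk3 : k = 0 ∨ k = 1 ∨ k = 2 := by omega
    rcases hk3 with rfl | rfl | rfl
    · exact Or.inl ⟨hij (by decide), (hp.eq hk t).trans (e0 i j t)⟩
    · exact Or.inr (Or.inl ⟨hij (by decide), (hp.eq hk t).trans (e1 i j t)⟩)
    · exact Or.inr (Or.inr ((hp.eq hk t).trans (e2 i j t)))
  · rintro _ ⟨i, j, t, ⟨hij, rfl⟩ | ⟨hij, rfl⟩ | rfl⟩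
    · obtain ⟨a, hp⟩ := h2 0 i j fun _ => hij
      exact ⟨_, ⟨a, t, rfl⟩, (hp.eq hk t).trans (e0 i j t)⟩
    · obtain ⟨a, hp⟩ := h2 1 i j fun _ => hij
      exact ⟨_, ⟨a, t, rfl⟩, (hp.eq hk t).trans (e1 i j t)⟩
    · obtain ⟨a, hp⟩ := h2 2 i j fun x => absurd rfl x
      exact ⟨_, ⟨a, t, rfl⟩, (hp.eq hk t).trans (e2 i j t)⟩

end TrA

open TrA

theorem trA2 {L : ℕ} (h : Up (datA2.toSys.pos ℤ) (transpose '' datA2.toSys.pos ℤ) L) : UpA 3 L :=
  trA_gen datA2 (fun i : Fin 3 => fo datA2.n i) (by decide +kernel) (by decide +kernel)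
    (by decide +kernel) (by decide +kernel) h

theorem trA3 {L : ℕ} (h : Up (datA3.toSys.pos ℤ) (transpose '' datA3.toSys.pos ℤ) L) : UpA 4 L :=
  trA_gen datA3 (fun i : Fin 4 => fo datA3.n i) (by decide +kernel) (by decide +kernel)
    (by decide +kernel) (by decide +kernel) h

theorem trA5 {L : ℕ} (h : Up (datA5.toSys.pos ℤ) (transpose '' datA5.toSys.pos ℤ) L) : UpA 6 L :=
  trA_gen datA5 (fun i : Fin 6 => fo datA5.n i) (by decide +kernel) (by decide +kernel)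
    (by decide +kernel) (by decide +kernel) h

theorem trC2 {L : ℕ} (h : Up (datC2.toSys.pos ℤ) (transpose '' datC2.toSys.pos ℤ) L) : UpC 2 L :=
  trC_gen datC2 (Sum.elim (fun i : Fin 2 => fo datC2.n i) fun i : Fin 2 => fo datC2.n (3 - i))
    (by decide +kernel) (by decide +kernel) (by decide +kernel) (by decide +kernel) h

theorem trC3 {L : ℕ} (h : Up (datC3.toSys.pos ℤ) (transpose '' datC3.toSys.pos ℤ) L) : UpC 3 L :=
  trC_gen datC3 (Sum.elim (fun i : Fin 3 => fo datC3.n i) fun i : Fin 3 => fo datC3.n (5 - i))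
    (by decide +kernel) (by decide +kernel) (by decide +kernel) (by decide +kernel) h

end Pool.Agent.Lib.MP_755cca_al.F
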