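import Pool.Agent.Lib.MP_755cca_al.F.Dat

/-! Transfer of upper bounds along relations and to diagonal blocks. -/

open Matrix
open scoped Pointwise

namespace Pool.Agent.Lib.MP_755cca_al.F.Tr0

section Rel

variable {A M : Type} [Monoid A] [Monoid M] {r : A → M → Prop}

theorem push (h1 : r 1 1) (hm : ∀ a m b k, r a m → r b k → r (a * b) (m * k)) {s : Set A}
    {N : Submonoid M} (h : ∀ a ∈ s, ∃ m ∈ N, r a m) {a : A} (ha : a ∈ Submonoid.closure s) :
    ∃ m ∈ N, r a m := by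
  induction ha using Submonoid.closure_induction with
  | mem g hg => exact h g hg
  | one => exact ⟨1, one_mem _, h1⟩
  | mul a b _ _ ha hb =>
    obtain ⟨m, k1, k2⟩ := ha
    obtain ⟨m', k3, k4⟩ := hb
    exact ⟨_, mul_mem k1 k3, hm _ _ _ _ k2 k4⟩

/-- transfer along the graph `r` of a homomorphism defined on a submonoid -/
theorem up_rel (h1 : r 1 1) (hm : ∀ a m b k, r a m → r b k → r (a * b) (m * k))
    (hu : ∀ a m k, r a m → r a k → m = k) {p n : Set A} {p' n' : Set M}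
    (hp : ∀ a ∈ p, ∃ m ∈ Submonoid.closure p', r a m)
    (hn : ∀ a ∈ n, ∃ m ∈ Submonoid.closure n', r a m)
    (hb : ∀ m ∈ p' ∪ n', ∃ a ∈ Submonoid.closure (p ∪ n), r a m) {L : ℕ} (h : Up p n L) :
    Up p' n' L := by
  have key : ∀ L : ℕ, ∀ a ∈ Pw p n L, ∃ m ∈ Pw p' n' L, r a m := by
    intro L
    induction L with
    | zero =>
      intro a ha
      rw [Pw, pow_zero, Set.mem_one] at ha
      exact ⟨1, by rw [Pw, pow_zero]; exact Set.one_mem_one, ha ▸ h1⟩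
    | succ L ih =>
      intro a ha
      rw [Pw, pow_succ] at ha
      obtain ⟨b, hb, _, ⟨u, hu, v, hv, rfl⟩, rfl⟩ := ha
      obtain ⟨b', b1, b2⟩ := ih b hb
      obtain ⟨u', u1, u2⟩ := push h1 hm hp hu
      obtain ⟨v', v1, v2⟩ := push h1 hm hn hv
      refine ⟨b' * (u' * v'), ?_, hm _ _ _ _ b2 (hm _ _ _ _ u2 v2)⟩
      rw [Pw, pow_succ]
      exact ⟨b', b1, _, ⟨u', u1, v', v1, rfl⟩, rfl⟩
  intro m hm'
  obtain ⟨a, a1, a2⟩ := push (r := fun m a => r a m) h1 (fun _ _ _ _ => hm _ _ _ _) hb hm'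
  obtain ⟨k, k1, k2⟩ := key L a (h a1)
  rwa [hu a m k a2 k2]

end Rel

section Block

variable {ι κ : Type} [Fintype ι] [DecidableEq ι] [Fintype κ] [DecidableEq κ]

/-- the rows of the block vanish outside the block -/
def Blk (f : ι → κ) (G : Matrix κ κ ℤ) : Prop := ∀ i k, (∀ j, f j ≠ k) → G (f i) k = 0

theorem Blk.entry {f : ι → κ} (hf : Function.Injective f) {G : Matrix κ κ ℤ} (h : Blk f G)
    (H : Matrix κ κ ℤ) (i : ι) (k : κ) : (G * H) (f i) k = ∑ j, G (f i) (f j) * H (f j) k := by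
  rw [mul_apply, ← Finset.sum_image (s := Finset.univ) (g := f)
    (f := fun x => G (f i) x * H x k) fun _ _ _ _ e => hf e]
  refine (Finset.sum_subset (Finset.subset_univ _) fun x _ hx => ?_).symm
  rw [h i x fun j e => hx (Finset.mem_image.2 ⟨j, Finset.mem_univ _, e⟩), zero_mul]

omit [Fintype ι] [DecidableEq ι] [Fintype κ] in
theorem Blk.one (f : ι → κ) : Blk f 1 := fun i _ h => one_apply_ne (h i)

theorem Blk.mul {f : ι → κ} (hf : Function.Injective f) {G H : Matrix κ κ ℤ} (h : Blk f G)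
    (h' : Blk f H) : Blk f (G * H) := fun i k hk => by
  rw [h.entry hf]
  exact Finset.sum_eq_zero fun j _ => by rw [h' j k hk, mul_zero]

theorem Blk.sub_mul {f : ι → κ} (hf : Function.Injective f) {G : Matrix κ κ ℤ} (h : Blk f G)
    (H : Matrix κ κ ℤ) : (G * H).submatrix f f = G.submatrix f f * H.submatrix f f := by
  ext i j
  rw [submatrix_apply, h.entry hf, mul_apply]
  rfl

/-- transfer to any monoid through a diagonal block and a homomorphism -/
theorem up_block_hom {M : Type} [Monoid M] {f : ι → κ} (hf : Function.Injective f)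
    (Φ : Matrix ι ι ℤ →* M) {p n : Set (Matrix κ κ ℤ)} {p' n' : Set M}
    (hp : ∀ G ∈ p, Blk f G ∧ Φ (G.submatrix f f) ∈ Submonoid.closure p')
    (hn : ∀ G ∈ n, Blk f G ∧ Φ (G.submatrix f f) ∈ Submonoid.closure n')
    (hb : ∀ m ∈ p' ∪ n', ∃ G ∈ p ∪ n, Φ (G.submatrix f f) = m) {L : ℕ} (h : Up p n L) :
    Up p' n' L := by
  refine up_rel (r := fun G m => Blk f G ∧ Φ (G.submatrix f f) = m) ⟨Blk.one f, ?_⟩ ?_ ?_
    (fun G hG => ⟨_, (hp G hG).2, (hp G hG).1, rfl⟩)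
    (fun G hG => ⟨_, (hn G hG).2, (hn G hG).1, rfl⟩) (fun m hm => ?_) h
  · rw [submatrix_one f hf, map_one]
  · rintro G _ H _ ⟨a, rfl⟩ ⟨b, rfl⟩
    exact ⟨a.mul hf b, by rw [a.sub_mul hf, map_mul]⟩
  · rintro G _ _ ⟨-, rfl⟩ ⟨-, rfl⟩
    rfl
  · obtain ⟨G, hG, e⟩ := hb m hm
    exact ⟨G, Submonoid.subset_closure hG, hG.elim (fun k => (hp G k).1) fun k => (hn G k).1, e⟩

/-- transfer to a diagonal block -/
theorem up_block {f : ι → κ} (hf : Function.Injective f) {s : Set (Matrix κ κ ℤ)}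
    {t : Set (Matrix ι ι ℤ)} (h0 : ∀ G ∈ s, Blk f G ∧ Blk f Gᵀ ∧ G.submatrix f f ∈ t)
    (h2 : ∀ g ∈ t, ∃ G ∈ s, G.submatrix f f = g) {L : ℕ} (h : Up s (transpose '' s) L) :
    Up t (transpose '' t) L := by
  refine up_block_hom hf (MonoidHom.id _)
    (fun G hG => ⟨(h0 G hG).1, Submonoid.subset_closure (h0 G hG).2.2⟩) ?_ ?_ h
  · rintro _ ⟨G, hG, rfl⟩
    exact ⟨(h0 G hG).2.1, Submonoid.subset_closure ⟨_, (h0 G hG).2.2, rfl⟩⟩
  · rintro g (hg | ⟨g, hg, rfl⟩)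
    · obtain ⟨G, hG, e⟩ := h2 g hg
      exact ⟨G, Or.inl hG, e⟩
    · obtain ⟨G, hG, rfl⟩ := h2 g hg
      exact ⟨Gᵀ, Or.inr ⟨G, hG, rfl⟩, rfl⟩

end Block

/-- coefficient of `t ^ k` of an entry of a sparse matrix in one variable -/
def co (k : ℕ) (A : SM) (b c : ℕ) : ℤ :=
  (A.map fun e => if e.1 = b ∧ e.2.1 = c ∧ e.2.2.2.length = k then e.2.2.1 else 0).sum

theorem ev_co (n : ℕ) (t : ℤ) (A : SM) (h : ∀ e ∈ A, e.2.2.2.length ≤ 2) (b c : Fin n) :
    SM.ev n (fun _ => t) A b c = co 0 A b c + t * co 1 A b c + t ^ 2 * co 2 A b c := by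
  simp only [SM.ev, co, of_apply]
  induction A with
  | nil => simp
  | cons e A ih =>
    simp only [List.map_cons, List.sum_cons]
    rw [ih fun x hx => h x (List.mem_cons_of_mem _ hx)]
    have h1 := h e List.mem_cons_self
    have h2 : (e.2.2.2.map fun _ => t).prod = t ^ e.2.2.2.length := by simp
    rw [h2]
    by_cases hb : e.1 = b ∧ e.2.1 = c
    · have h3 : e.2.2.2.length = 0 ∨ e.2.2.2.length = 1 ∨ e.2.2.2.length = 2 := by omega
      rcases h3 with h3 | h3 | h3 <;> simp [hb, h3] <;> ring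
    · have h3 : ∀ k, ¬ (e.1 = b ∧ e.2.1 = c ∧ e.2.2.2.length = k) := fun k x => hb ⟨x.1, x.2.1⟩
      simp only [if_neg hb, if_neg (h3 _), zero_add]

variable {ι : Type} [Fintype ι] [DecidableEq ι]

/-- the tables keep the block -/
def Keep (d : Dat) (f : ι → Fin (d.n + 1)) : Prop :=
  ∀ a : Fin (d.N + 1), ∀ e ∈ d.X.getD a [], e.2.2.2.length ≤ 2 ∧
    ((∃ i, (f i).val = e.1) ↔ ∃ i, (f i).val = e.2.1)

instance (d : Dat) (f : ι → Fin (d.n + 1)) : Decidable (Keep d f) := by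
  unfold Keep; infer_instance

omit [Fintype ι] [DecidableEq ι] in
theorem Keep.blk {d : Dat} {f : ι → Fin (d.n + 1)} (h : Keep d f) (a : Fin (d.N + 1)) (t : ℤ) :
    Blk f (d.toSys.x ℤ a t) ∧ Blk f (d.toSys.x ℤ a t)ᵀ := by
  constructor <;> intro i k hk <;> refine List.sum_eq_zero fun x hx => ?_
  all_goals
    obtain ⟨e, he, rfl⟩ := List.mem_map.1 hx
    refine if_neg fun hc => ?_
  · obtain ⟨j, hj⟩ := (h a e he).2.1 ⟨i, hc.1.symm⟩
    exact hk j (Fin.ext (hj.trans hc.2))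
  · obtain ⟨j, hj⟩ := (h a e he).2.2 ⟨i, hc.2.symm⟩
    exact hk j (Fin.ext (hj.trans hc.1))

/-- the block of the root element `a` is `1 + t N + t ^ 2 N'` -/
def Pat (d : Dat) (f : ι → Fin (d.n + 1)) (a : Fin (d.N + 1)) (N N' : Matrix ι ι ℤ) : Prop :=
  ∀ b c, co 0 (d.X.getD a []) (f b) (f c) = (if b = c then 1 else 0) ∧
    co 1 (d.X.getD a []) (f b) (f c) = N b c ∧ co 2 (d.X.getD a []) (f b) (f c) = N' b c

instance (d : Dat) (f : ι → Fin (d.n + 1)) (a : Fin (d.N + 1)) (N N' : Matrix ι ι ℤ) :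
    Decidable (Pat d f a N N') :=
  @Fintype.decidableForallFintype _ _ (fun _ => Fintype.decidableForallFintype) _

omit [Fintype ι] in
theorem Pat.eq {d : Dat} {f : ι → Fin (d.n + 1)} (h : Keep d f) {a : Fin (d.N + 1)}
    {N N' : Matrix ι ι ℤ} (hp : Pat d f a N N') (t : ℤ) :
    (d.toSys.x ℤ a t).submatrix f f = 1 + t • N + t ^ 2 • N' := by
  ext b c
  have := ev_co (d.n + 1) t (d.X.getD a []) (fun e he => (h a e he).1) (f b) (f c)
  rw [(hp b c).1, (hp b c).2.1, (hp b c).2.2] at this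
  exact this.trans (by simp [one_apply])

end Pool.Agent.Lib.MP_755cca_al.F.Tr0
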