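import Pool.Agent.Lib.MP_755cca_al.F.Car
import Pool.Agent.Lib.MP_755cca_al.F.Tr0
import Pool.Agent.Lib.MP_755cca_al.F.Tab

/-! Transfer from the table of type `D₄` to rings with the anticommutation relations. -/

open Matrix

namespace Pool.Agent.Lib.MP_755cca_al.F

namespace TrD

open Car Tr0

/-- the basis of the spin module -/
def idx (a : Fin 16) : List (Fin 4) :=
  [[0, 1, 2, 3], [0, 1], [0, 2], [0, 3], [1, 2], [1, 3], [2, 3], [], [0, 1, 2], [0, 1, 3],
    [0, 2, 3], [0], [1, 2, 3], [1], [2], [3]].getD a []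

/-- the spin block -/
def spb (a : Fin 16) : Fin (datD4.n + 1) := fo datD4.n a

/-- the roots; `true` is a sum of two coordinates -/
def rt (a : Fin (datD4.N + 1)) : Fin 4 × Fin 4 × Bool :=
  [(0, 1, false), (1, 2, false), (2, 3, false), (2, 3, true), (0, 2, false), (1, 3, false),
    (1, 3, true), (0, 3, false), (0, 3, true), (1, 2, true), (0, 2, true),
    (0, 1, true)].getD a (0, 1, true)

/-- the root vectors -/
def rv (r : Fin 4 × Fin 4 × Bool) : Matrix (Fin 16) (Fin 16) ℤ :=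
  JW idx r.1 * if r.2.2 then JW idx r.2.1 else (JW idx r.2.1)ᵀ

theorem spb_inj : Function.Injective spb := by decide +kernel

theorem keep : Keep datD4 spb := by decide +kernel

theorem pat : ∀ a, Pat datD4 spb a (rv (rt a)) 0 := by decide +kernel

theorem rt_lt : ∀ a, (rt a).1 < (rt a).2.1 := by decide +kernel

theorem rt_surj : ∀ (i j : Fin 4) (b : Bool), i < j → ∃ a, rt a = (i, j, b) := by decide +kernel

theorem sub_eq (a : Fin (datD4.N + 1)) (t : ℤ) :
    (datD4.toSys.x ℤ a t).submatrix spb spb = 1 + t • rv (rt a) := by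
  rw [(pat a).eq keep t, smul_zero, add_zero]

end TrD

open TrD Car Tr0 in
theorem trD4 (h : Up (datD4.toSys.pos ℤ) (transpose '' datD4.toSys.pos ℤ) 2) : UpD 4 := by
  intro R _ e f c
  obtain ⟨Φ, hΦ⟩ := exists_hom c idx (by decide +kernel) (by decide +kernel)
  have v1 : ∀ a t, Φ ((datD4.toSys.x ℤ a t).submatrix spb spb) =
      1 + t • (e (rt a).1 * if (rt a).2.2 then e (rt a).2.1 else f (rt a).2.1) := by
    intro a t
    rw [sub_eq, map_add, map_one, map_zsmul, rv, map_mul, (hΦ _).1]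
    split_ifs
    · rw [(hΦ _).1]
    · rw [(hΦ _).2]
  have v2 : ∀ a t, Φ ((datD4.toSys.x ℤ a t)ᵀ.submatrix spb spb) =
      1 + (-t) • (f (rt a).1 * if (rt a).2.2 then f (rt a).2.1 else e (rt a).2.1) := by
    intro a t
    rw [← transpose_submatrix, sub_eq, transpose_add, transpose_one, transpose_smul, map_add,
      map_one, map_zsmul, rv, transpose_mul, map_mul, (hΦ _).2]
    split_ifs
    · rw [(hΦ _).2, c.ff, smul_neg, neg_smul]
    · rw [transpose_transpose, (hΦ _).1, c.symm.fe (rt_lt a).ne, smul_neg, neg_smul]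
  refine up_block_hom spb_inj Φ.toMonoidHom ?_ ?_ ?_ h
  · rintro _ ⟨a, t, rfl⟩
    refine ⟨(keep.blk a t).1, Submonoid.subset_closure ⟨_, _, t, rt_lt a, ?_⟩⟩
    have := v1 a t
    split_ifs at this
    · exact Or.inr this
    · exact Or.inl this
  · rintro _ ⟨_, ⟨a, t, rfl⟩, rfl⟩
    refine ⟨(keep.blk a t).2, Submonoid.subset_closure ⟨_, _, -t, rt_lt a, ?_⟩⟩
    have := v2 a t
    split_ifs at this
    · exact Or.inr this
    · exact Or.inl this
  · rintro m (⟨i, j, t, hij, rfl | rfl⟩ | ⟨i, j, t, hij, rfl | rfl⟩)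
    · obtain ⟨a, ha⟩ := rt_surj i j false hij
      exact ⟨_, Or.inl ⟨a, t, rfl⟩, (v1 a t).trans (by simp [ha])⟩
    · obtain ⟨a, ha⟩ := rt_surj i j true hij
      exact ⟨_, Or.inl ⟨a, t, rfl⟩, (v1 a t).trans (by simp [ha])⟩
    · obtain ⟨a, ha⟩ := rt_surj i j false hij
      exact ⟨_, Or.inr ⟨_, ⟨a, -t, rfl⟩, rfl⟩, (v2 a (-t)).trans (by simp [ha])⟩
    · obtain ⟨a, ha⟩ := rt_surj i j true hij
      exact ⟨_, Or.inr ⟨_, ⟨a, -t, rfl⟩, rfl⟩, (v2 a (-t)).trans (by simp [ha])⟩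

end Pool.Agent.Lib.MP_755cca_al.F
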