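import Pool.Agent.Lib.MP_755cca_al.F.Gen

/-! The double coset of the normal form depends on the classes only. -/

open Matrix
open scoped Pointwise

namespace Pool.Agent.Lib.MP_755cca_al.F

namespace Uq

theorem prod_mul {ι M : Type} [Monoid M] (f g : ι → M) :
    ∀ l : List ι, l.Nodup → (∀ i ∈ l, ∀ j ∈ l, i ≠ j → Commute (g i) (f j)) →
      (l.map fun k => f k * g k).prod = (l.map f).prod * (l.map g).prod
  | [], _, _ => by simp
  | i :: l, hn, hc => by
    rw [List.nodup_cons] at hn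
    have ih := prod_mul f g l hn.2 fun a ha b hb =>
      hc a (List.mem_cons_of_mem _ ha) b (List.mem_cons_of_mem _ hb)
    have h1 : Commute (g i) (l.map f).prod := by
      refine Commute.list_prod_right _ _ fun x hx => ?_
      obtain ⟨j, hj, rfl⟩ := List.mem_map.1 hx
      exact hc i List.mem_cons_self j (List.mem_cons_of_mem _ hj) fun e => hn.1 (e ▸ hj)
    simp only [List.map_cons, List.prod_cons, ih]
    rw [mul_assoc, ← mul_assoc (g i), h1.eq, mul_assoc, mul_assoc]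

theorem move_left {ι M : Type} [Monoid M] (N : Submonoid M) (f : ι → M) :
    ∀ l : List ι, (∀ i ∈ l, ∀ w ∈ N, ∃ w' ∈ N, f i * w = w' * f i) →
      ∀ w ∈ N, ∃ w' ∈ N, (l.map f).prod * w = w' * (l.map f).prod
  | [], _, w, hw => ⟨w, hw, by simp⟩
  | i :: l, h, w, hw => by
    obtain ⟨w1, h1, e1⟩ := move_left N f l (fun j hj => h j (List.mem_cons_of_mem _ hj)) w hw
    obtain ⟨w2, h2, e2⟩ := h i List.mem_cons_self w1 h1
    exact ⟨w2, h2, by rw [List.map_cons, List.prod_cons, mul_assoc, e1, ← mul_assoc, e2, mul_assoc]⟩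

theorem move_right {ι M : Type} [Monoid M] (N : Submonoid M) (f : ι → M) :
    ∀ l : List ι, (∀ i ∈ l, ∀ w ∈ N, ∃ w' ∈ N, w * f i = f i * w') →
      ∀ w ∈ N, ∃ w' ∈ N, w * (l.map f).prod = (l.map f).prod * w'
  | [], _, w, hw => ⟨w, hw, by simp⟩
  | i :: l, h, w, hw => by
    obtain ⟨w1, h1, e1⟩ := h i List.mem_cons_self w hw
    obtain ⟨w2, h2, e2⟩ := move_right N f l (fun j hj => h j (List.mem_cons_of_mem _ hj)) w1 h1
    exact ⟨w2, h2, by rw [List.map_cons, List.prod_cons, ← mul_assoc, e1, mul_assoc, e2, mul_assoc]⟩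

/-- transposes of a submonoid -/
def Tr {n : ℕ} (N : Submonoid (Matrix (Fin n) (Fin n) ℤ)) :
    Submonoid (Matrix (Fin n) (Fin n) ℤ) where
  carrier := {g | gᵀ ∈ N}
  one_mem' := by simp
  mul_mem' := fun {a b} ha hb => by
    show (a * b)ᵀ ∈ N
    rw [transpose_mul]
    exact mul_mem hb ha

variable {S : Sys}

theorem block (hA : S.Ax) {c0 : Bool} {l : List (Fin S.r)} (hn : l.Nodup)
    (hl : ∀ k ∈ l, S.col k = c0) (a b c d t s : Fin S.r → ℤ) :
    (l.map fun k => S.p ℤ k 1 (t k) 0 1 * S.p ℤ k (a k) (b k) (c k) (d k) *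
      S.p ℤ k 1 0 (s k) 1).prod = (l.map fun k => S.p ℤ k 1 (t k) 0 1).prod *
        (l.map fun k => S.p ℤ k (a k) (b k) (c k) (d k)).prod *
        (l.map fun k => S.p ℤ k 1 0 (s k) 1).prod := by
  have hc : ∀ i ∈ l, ∀ j ∈ l, i ≠ j → ∀ a b c d a' b' c' d' : ℤ,
      Commute (S.p ℤ i a b c d) (S.p ℤ j a' b' c' d') := fun i hi j hj h =>
    hA.p_comm ℤ i j h ((hl i hi).trans (hl j hj).symm)
  rw [prod_mul (fun k => S.p ℤ k 1 (t k) 0 1 * S.p ℤ k (a k) (b k) (c k) (d k)) _ l hn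
      fun i hi j hj h => (hc i hi j hj h _ _ _ _ _ _ _ _).mul_right (hc i hi j hj h _ _ _ _ _ _ _ _),
    prod_mul _ _ l hn fun i hi j hj h => hc i hi j hj h _ _ _ _ _ _ _ _]

theorem norm_c (hA : S.Ax) (hB : S.Bas) {c0 : Bool} {k : Fin S.r} (hk : S.col k = c0)
    {a b c d : ℤ} (h : a * d - b * c = 1) : ∀ w ∈ S.XZ ℤ (S.Zc c0),
      ∃ w' ∈ S.XZ ℤ (S.Zc c0), S.p ℤ k a b c d * w = w' * S.p ℤ k a b c d := by
  subst hk
  exact fun w hw => (hB.p_norm k (S.Zc (S.col k)) (fun h => h k rfl rfl) (hA.col_ct k) a b c d h w hw).1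

theorem xp_mem (hA : S.Ax) {c0 : Bool} {k : Fin S.r} (hk : S.col k ≠ c0) (t : ℤ) :
    S.p ℤ k 1 t 0 1 ∈ S.XZ ℤ (S.Zc c0) := by
  rw [hA.p_up]
  exact Submonoid.subset_closure
    ⟨_, fun j hj e => hk (by rw [hA.s_inj e]; exact hj), t, rfl⟩

end Uq

open Uq in
theorem uniqSt : UniqSt := by
  intro S hA hB hW a b c d a' b' c' h1 h2 hd hb
  choose t ht using hb
  set s : Fin S.r → ℤ := fun k => a' k * c k - a k * c' k + c k * c' k * t k with hs
  have key : ∀ k, S.p ℤ k (a k) (b k) (c k) (d k) =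
      S.p ℤ k 1 (t k) 0 1 * S.p ℤ k (a' k) (b' k) (c' k) (d k) * S.p ℤ k 1 0 (s k) 1 := by
    intro k
    have e2 : c k = c' k + d k * s k := by
      simp only [hs]
      linear_combination (-c k) * h2 k + c' k * h1 k + c k * c' k * ht k
    have e1 : a k = a' k + t k * c' k + (b' k + t k * d k) * s k := by
      refine mul_right_cancel₀ (hd k) ?_
      linear_combination h1 k - h2 k + c k * ht k + (b' k + t k * d k) * e2
    rw [hA.p_mul, hA.p_mul]
    congr 1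
    · linear_combination e1
    · linear_combination ht k
    · linear_combination e2
    · ring
  have hw : ∀ k ∈ S.wl, S.col k = true := fun k hk => (hA.wl_mem k).1 hk
  have hk : ∀ k ∈ S.bk, S.col k = false := fun k hk => (hA.bk_mem k).1 hk
  have eW := block hA hA.wl_nodup hw a' b' c' d t s
  have eB := block hA hA.bk_nodup hk a' b' c' d t s
  simp only [← key] at eW eB
  have m1 : (S.bk.map fun k => S.p ℤ k 1 (t k) 0 1).prod ∈ S.XZ ℤ (S.Zc true) :=
    list_prod_mem fun x hx => by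
      obtain ⟨k, h, rfl⟩ := List.mem_map.1 hx
      exact xp_mem hA (by simp [hk k h]) _
  have m2 : (S.wl.map fun k => S.p ℤ k 1 (t k) 0 1).prod ∈ S.XZ ℤ (S.Zc false) :=
    list_prod_mem fun x hx => by
      obtain ⟨k, h, rfl⟩ := List.mem_map.1 hx
      exact xp_mem hA (by simp [hw k h]) _
  have m3 : (S.wl.map fun k => S.p ℤ k 1 0 (s k) 1).prod ∈ Tr (S.XZ ℤ (S.Zc false)) :=
    list_prod_mem fun x hx => by
      obtain ⟨k, h, rfl⟩ := List.mem_map.1 hx
      show (S.p ℤ k 1 0 (s k) 1)ᵀ ∈ S.XZ ℤ (S.Zc false)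
      rw [hA.p_tr]
      exact xp_mem hA (by simp [hw k h]) _
  have m4 : (S.bk.map fun k => S.p ℤ k 1 0 (s k) 1).prod ∈ Tr (S.XZ ℤ (S.Zc true)) :=
    list_prod_mem fun x hx => by
      obtain ⟨k, h, rfl⟩ := List.mem_map.1 hx
      show (S.p ℤ k 1 0 (s k) 1)ᵀ ∈ S.XZ ℤ (S.Zc true)
      rw [hA.p_tr]
      exact xp_mem hA (by simp [hk k h]) _
  have hV : ∀ Z, ∀ g ∈ Tr (S.XZ ℤ Z), g ∈ S.V ℤ := fun Z g hg => by
    have := transpose_mem_closure (s := S.pos ℤ) (hB.XZ_le ℤ Z hg)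
    rwa [transpose_transpose] at this
  obtain ⟨u, hu, e1⟩ := move_left (S.XZ ℤ (S.Zc true))
    (fun k => S.p ℤ k (a k) (b k) (c k) (d k)) S.wl
    (fun k h => norm_c hA hB (hw k h) (h1 k)) _ m1
  obtain ⟨v, hv, e2⟩ := move_right (Tr (S.XZ ℤ (S.Zc false)))
    (fun k => S.p ℤ k (a' k) (b' k) (c' k) (d k)) S.bk (fun k h w hw' => by
      obtain ⟨w', h3, h4⟩ := norm_c hA hB (hk k h) (a := a' k) (b := c' k) (c := b' k) (d := d k)
        (by linear_combination h2 k) wᵀ hw'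
      refine ⟨w'ᵀ, h3, ?_⟩
      have := congrArg transpose h4
      rwa [transpose_mul, transpose_mul, transpose_transpose, hA.p_tr] at this) _ m3
  obtain ⟨u', hu', e3⟩ := hW.V_n0 ℤ _ (mul_mem (hV _ v hv) (hV _ _ m4))
  refine ⟨_, mul_mem (hB.XZ_le ℤ _ hu) (hB.XZ_le ℤ _ m2), u', hu', ?_⟩
  simp only [Sys.M, List.map_append, List.prod_append]
  rw [eB, ← mul_assoc, ← mul_assoc, e1, eW]
  simp only [mul_assoc] at e3 ⊢
  rw [← e3, ← mul_assoc _ (List.prod _) (List.prod _ * S.n0 ℤ), e2]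
  simp only [mul_assoc]

end Pool.Agent.Lib.MP_755cca_al.F
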