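import Pool.Agent.Lib.MP_755cca_al.F.Main
import Pool.Agent.Lib.MP_755cca_al.F.CoreE
import Pool.Agent.Lib.MP_755cca_al.F.Fld
import Pool.Agent.Lib.MP_755cca_al.F.Mnr
import Pool.Agent.Lib.MP_755cca_al.F.FinP
import Pool.Agent.Lib.MP_755cca_al.F.Cop
import Pool.Agent.Lib.MP_755cca_al.F.Int1
import Pool.Agent.Lib.MP_755cca_al.F.Int2
import Pool.Agent.Lib.MP_755cca_al.F.NF
import Pool.Agent.Lib.MP_755cca_al.F.Uniq
import Pool.Agent.Lib.MP_755cca_al.F.TrA
import Pool.Agent.Lib.MP_755cca_al.F.TrCar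
import Pool.Agent.Lib.MP_755cca_al.F.TrD

/-! The base cases from the table checks and the arithmetic cores. -/

open Matrix
open scoped Pointwise

namespace Pool.Agent.Lib.MP_755cca_al.F

/-- what one table has to supply: the axioms, a covering of the cells, and the cores -/
def Sys.Cores (S : Sys) (L : ℕ) : Prop :=
  S.Ax ∧ ∃ K : Fin S.r → Set (Fin S.r), S.CopAx K ∧ ∀ i, i ∈ K i → S.Core L i (K i)

theorem Sys.Cores.mk' {S : Sys} {L : ℕ} (A : S.Ax) (K : Fin S.r → Set (Fin S.r))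
    (hK : S.CopAx K) (hc : ∀ i, i ∈ K i → S.Core L i (K i)) : S.Cores L :=
  ⟨A, K, hK, hc⟩

/-- a core for a larger set of free minors gives the core for a smaller one -/
theorem Sys.Core.mono {S : Sys} {L : ℕ} {i : Fin S.r} {K K' : Set (Fin S.r)} (h : K ⊆ K')
    (hc : S.Core L i K') : S.Core L i K :=
  fun d q hd hq => hc d q ⟨hd.1, hd.2.1, fun k hk => hd.2.2 k fun hk' => hk (h hk')⟩ hq

/-- the generic machine, all generic pieces plugged in -/
theorem up_of_cores (S : Sys) {L : ℕ} (hL : 2 ≤ L) (hE : S.Ax → S.CoreE) (h : S.Cores L) :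
    Up (S.pos ℤ) (transpose '' S.pos ℤ) L := by
  obtain ⟨A, K, hK, hc⟩ := h
  have B := basSt S A
  have W := wrdSt S A B
  have F := fldSt S A B W
  have M := mnrSt S A B W
  have I := int1St S A B W
  exact mainSt S A B W F M (copSt S A B W F M (finSt S A B)) I
    (nfSt S A B W F M (int2St S A B W F M I)) (uniqSt S A B W) K L hL hK (hE A) hc

/-- the input for type `A₂` -/
def CoresA2 : Prop := datA2.toSys.Cores 4

/-- the input for type `A₃` -/
def CoresA3 : Prop := datA3.toSys.Cores 3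

/-- the input for type `A₅` -/
def CoresA5 : Prop := datA5.toSys.Cores 2

/-- the input for type `C₂` -/
def CoresC2 : Prop := datC2.toSys.Cores 3

/-- the input for type `C₃` -/
def CoresC3 : Prop := datC3.toSys.Cores 2

/-- the input for type `B₃` -/
def CoresB3 : Prop := datB3.toSys.Cores 2

/-- the input for type `D₄` -/
def CoresD4 : Prop := datD4.toSys.Cores 2

/-- the input for type `G₂` -/
def CoresG2 : Prop := datG2.toSys.Cores 2

theorem upA2_of (h : CoresA2) : UpA 3 4 := trA2 (up_of_cores _ (by omega) coreE_A2 h)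

theorem upA3_of (h : CoresA3) : UpA 4 3 := trA3 (up_of_cores _ (by omega) coreE_A3 h)

theorem upA5_of (h : CoresA5) : UpA 6 2 := trA5 (up_of_cores _ le_rfl coreE_A5 h)

theorem upC2_of (h : CoresC2) : UpC 2 3 := trC2 (up_of_cores _ (by omega) coreE_C2 h)

theorem upC3_of (h : CoresC3) : UpC 3 2 := trC3 (up_of_cores _ le_rfl coreE_C3 h)

theorem upB3_of (h : CoresB3) : UpB 3 := trB3 (up_of_cores _ le_rfl coreE_B3 h)

theorem upD4_of (h : CoresD4) : UpD 4 := trD4 (up_of_cores _ le_rfl coreE_D4 h)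

theorem upG2_of (h : CoresG2) : UpG := trG2 (up_of_cores _ le_rfl coreE_G2 h)

theorem baseSt_of (a2 : CoresA2) (a3 : CoresA3) (a5 : CoresA5) (c2 : CoresC2) (c3 : CoresC3)
    (b3 : CoresB3) (d4 : CoresD4) (g2 : CoresG2) : BaseSt :=
  ⟨upA2_of a2, upA3_of a3, upA5_of a5, upC2_of c2, upC3_of c3, upB3_of b3, upD4_of d4,
    upG2_of g2⟩

end Pool.Agent.Lib.MP_755cca_al.F
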