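import Pool.Agent.Lib.MP_755cca_al.F.Stmt

/-! A ring homomorphism from integer matrices into a ring with the anticommutation relations. -/

open Matrix

namespace Pool.Agent.Lib.MP_755cca_al.F.Car

variable {R : Type} [Ring R] {l : ℕ} {e f : Fin l → R}

/-- product of creation operators -/
def wA (e : Fin l → R) (S : List (Fin l)) : R := (S.map e).prod

/-- product of annihilation operators, in the opposite order -/
def wB (f : Fin l → R) : List (Fin l) → R
  | [] => 1
  | j :: S => wB f S * f j

/-- the vacuum projector -/
def vac (e f : Fin l → R) (L : List (Fin l)) : R := (L.map fun i => f i * e i).prod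

/-- insertion with sign -/
def ins (i : Fin l) : List (Fin l) → ℤ × List (Fin l)
  | [] => (1, [i])
  | j :: S => if i < j then (1, i :: j :: S) else if i = j then (0, [])
      else (-(ins i S).1, j :: (ins i S).2)

theorem wA_cons (j : Fin l) (S : List (Fin l)) : wA e (j :: S) = e j * wA e S := by
  simp [wA]

theorem wB_cons (j : Fin l) (S : List (Fin l)) : wB f (j :: S) = wB f S * f j := rfl

theorem vac_cons (j : Fin l) (L : List (Fin l)) : vac e f (j :: L) = f j * e j * vac e f L := by
  simp [vac]

theorem ins_A (h : CAR e f) (i : Fin l) (S : List (Fin l)) :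
    e i * wA e S = (ins i S).1 • wA e (ins i S).2 := by
  induction S with
  | nil => simp [ins, wA]
  | cons j S ih =>
    unfold ins
    split_ifs with h1 h2
    · simp [wA_cons]
    · subst h2
      rw [wA_cons, ← mul_assoc, h.e0]
      simp
    · rw [wA_cons, wA_cons, ← mul_assoc, h.ee i j, neg_mul, mul_assoc, ih, mul_smul_comm, neg_smul]

theorem ins_B (h : CAR e f) (i : Fin l) (S : List (Fin l)) :
    wB f S * f i = (ins i S).1 • wB f (ins i S).2 := by
  induction S with
  | nil => simp [ins, wB]
  | cons j S ih =>
    unfold ins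
    split_ifs with h1 h2
    · simp [wB_cons]
    · subst h2
      rw [wB_cons, mul_assoc, h.f0]
      simp
    · rw [wB_cons, wB_cons, mul_assoc, h.ff j i, mul_neg, ← mul_assoc, ih, smul_mul_assoc, neg_smul]

theorem q_e (h : CAR e f) {a i : Fin l} (hi : i ≠ a) : Commute (f a * e a) (e i) := by
  have h1 := h.fe hi
  change f a * e a * e i = e i * (f a * e a)
  rw [mul_assoc, h.ee a i, mul_neg, ← mul_assoc, h1]
  noncomm_ring

theorem q_f (h : CAR e f) {a i : Fin l} (hi : i ≠ a) : Commute (f a * e a) (f i) := by
  have h1 := h.symm.fe hi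
  change f a * e a * f i = f i * (f a * e a)
  rw [mul_assoc, h1, mul_neg, ← mul_assoc, h.ff a i]
  noncomm_ring

theorem q_A (h : CAR e f) {a : Fin l} {S : List (Fin l)} (hS : a ∉ S) :
    Commute (f a * e a) (wA e S) := by
  induction S with
  | nil => exact Commute.one_right _
  | cons j S ih =>
    rw [List.mem_cons, not_or] at hS
    rw [wA_cons]
    exact (q_e h (Ne.symm hS.1)).mul_right (ih hS.2)

theorem q_B (h : CAR e f) {a : Fin l} {S : List (Fin l)} (hS : a ∉ S) :
    Commute (f a * e a) (wB f S) := by
  induction S with
  | nil => exact Commute.one_right _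
  | cons j S ih =>
    rw [List.mem_cons, not_or] at hS
    rw [wB_cons]
    exact (ih hS.2).mul_right (q_f h (Ne.symm hS.1))

theorem q_vac (h : CAR e f) {a : Fin l} {S : List (Fin l)} (hS : a ∉ S) :
    Commute (f a * e a) (vac e f S) := by
  induction S with
  | nil => exact Commute.one_right _
  | cons j S ih =>
    rw [List.mem_cons, not_or] at hS
    rw [vac_cons]
    exact ((q_f h (Ne.symm hS.1)).mul_right (q_e h (Ne.symm hS.1))).mul_right (ih hS.2)

theorem ef_one (h : CAR e f) (a : Fin l) : e a * f a + f a * e a = 1 := by
  simpa using h.ef a a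

theorem e_q (h : CAR e f) (a : Fin l) : e a * (f a * e a) = e a := by
  have h1 : e a * f a = 1 - f a * e a := eq_sub_of_add_eq (ef_one h a)
  rw [← mul_assoc, h1, sub_mul, one_mul, mul_assoc, h.e0, mul_zero, sub_zero]

theorem q_q (h : CAR e f) (a : Fin l) : f a * e a * (f a * e a) = f a * e a := by
  rw [mul_assoc, e_q h]

theorem sum_units (h : CAR e f) {L : List (Fin l)} (hL : L.Nodup) :
    (L.sublists'.map fun S => wA e S * vac e f L * wB f S).sum = 1 := by
  induction L with
  | nil => simp [wA, wB, vac]
  | cons a L ih =>
    obtain ⟨ha, hL⟩ := List.nodup_cons.mp hL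
    have hn : ∀ S ∈ L.sublists', a ∉ S := fun S hS hs => ha ((List.mem_sublists'.mp hS).subset hs)
    have e1 : (L.sublists'.map fun S => wA e S * vac e f (a :: L) * wB f S) =
        L.sublists'.map fun S => f a * e a * (wA e S * vac e f L * wB f S) :=
      List.map_congr_left fun S hS => by
        rw [vac_cons, ← mul_assoc (wA e S), ← (q_A h (hn S hS)).eq]
        simp only [mul_assoc]
    have e2 : (L.sublists'.map fun S => wA e (a :: S) * vac e f (a :: L) * wB f (a :: S)) =
        L.sublists'.map fun S => e a * (wA e S * vac e f L * wB f S) * f a :=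
      List.map_congr_left fun S hS => by
        have := (q_A h (hn S hS)).eq
        rw [vac_cons, wA_cons, wB_cons]
        calc e a * wA e S * (f a * e a * vac e f L) * (wB f S * f a)
            = e a * (wA e S * (f a * e a)) * vac e f L * (wB f S * f a) := by
              simp only [mul_assoc]
          _ = e a * (f a * e a) * wA e S * vac e f L * (wB f S * f a) := by
              rw [← this]; simp only [mul_assoc]
          _ = _ := by rw [e_q h]; simp only [mul_assoc]
    rw [List.sublists'_cons, List.map_append, List.sum_append, List.map_map, e1]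
    change _ + (L.sublists'.map fun S => wA e (a :: S) * vac e f (a :: L) * wB f (a :: S)).sum = 1
    rw [e2, List.sum_map_mul_right, List.sum_map_mul_left, List.sum_map_mul_left, ih hL, mul_one,
      mul_one, add_comm, ef_one h]

theorem orth (h : CAR e f) {L : List (Fin l)} (hL : L.Nodup) : ∀ {S T : List (Fin l)},
    S.Sublist L → T.Sublist L →
      vac e f L * wB f S * (wA e T * vac e f L) = if S = T then vac e f L else 0 := by
  induction L with
  | nil =>
    intro S T hS hT
    rw [List.sublist_nil.mp hS, List.sublist_nil.mp hT]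
    simp [wA, wB, vac]
  | cons a L ih =>
    intro S T hS0 hT0
    obtain ⟨ha, hL⟩ := List.nodup_cons.mp hL
    have cv := (q_vac h ha).eq
    have main : ∀ {S T : List (Fin l)}, S.Sublist L → T.Sublist L →
        f a * e a * (vac e f L * wB f S * (wA e T * vac e f L)) =
          if S = T then f a * e a * vac e f L else 0 := fun hS hT => by
      rw [ih hL hS hT]
      split_ifs <;> simp
    rw [vac_cons]
    rcases List.sublist_cons_iff.mp hS0 with hS | ⟨S, rfl, hS⟩ <;>
      rcases List.sublist_cons_iff.mp hT0 with hT | ⟨T, rfl, hT⟩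
    all_goals
      have cB := (q_B h fun hs => ha (hS.subset hs)).eq
      have cA := (q_A h fun hs => ha (hT.subset hs)).eq
    · rw [← main hS hT]
      generalize f a * e a = q, q_q h a = hq at *
      calc q * vac e f L * wB f S * (wA e T * (q * vac e f L))
          = q * (vac e f L * (wB f S * (wA e T * q))) * vac e f L := by simp only [mul_assoc]
        _ = q * q * vac e f L * wB f S * wA e T * vac e f L := by
          rw [← cA, ← mul_assoc (wB f S), ← cB, ← mul_assoc (vac e f L), ← mul_assoc (vac e f L),
            ← cv]
          simp only [mul_assoc]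
        _ = _ := by rw [hq]; simp only [mul_assoc]
    · rw [if_neg fun hh => ha (hS.subset (by rw [hh]; exact List.mem_cons_self)), wA_cons, cv,
        mul_assoc (vac e f L), cB]
      have : f a * e a * e a = 0 := by rw [mul_assoc, h.e0, mul_zero]
      calc _ = vac e f L * wB f S * (f a * e a * e a) * wA e T * (vac e f L * (f a * e a)) := by
            simp only [mul_assoc]
        _ = 0 := by rw [this]; simp
    · rw [if_neg fun hh => ha (hT.subset (by rw [← hh]; exact List.mem_cons_self)), wB_cons,
        ← mul_assoc (wA e T), ← cA]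
      have : f a * (f a * e a) = 0 := by rw [← mul_assoc, h.f0, zero_mul]
      calc _ = f a * e a * vac e f L * wB f S * (f a * (f a * e a)) * wA e T * vac e f L := by
            simp only [mul_assoc]
        _ = 0 := by rw [this]; simp
    · simp only [List.cons.injEq, true_and]
      rw [← main hS hT, wA_cons, wB_cons]
      have hq := q_q h a
      calc _ = f a * e a * (vac e f L * (wB f S * (f a * e a * (wA e T * (f a * e a))))) *
            vac e f L := by simp only [mul_assoc]
        _ = _ := by
          generalize f a * e a = q at *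
          rw [← cA, ← mul_assoc q q, hq, ← mul_assoc (wB f S), ← cB, ← mul_assoc (vac e f L),
            ← mul_assoc (vac e f L), ← cv, ← mul_assoc q, ← mul_assoc q, ← mul_assoc q q, hq]
          simp only [mul_assoc]

/-- the matrix of a creation operator in the basis `idx` -/
def JW {ι : Type} (idx : ι → List (Fin l)) (i : Fin l) : Matrix ι ι ℤ :=
  of fun b a => if idx b = (ins i (idx a)).2 then (ins i (idx a)).1 else 0

/-- the homomorphism -/
theorem exists_hom (h : CAR e f) {n : ℕ} (idx : Fin n → List (Fin l))
    (hp : ((List.finRange n).map idx).Perm (List.finRange l).sublists')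
    (hc : ∀ i a, ∃ b, idx b = (ins i (idx a)).2) :
    ∃ Φ : Matrix (Fin n) (Fin n) ℤ →+* R, ∀ i, Φ (JW idx i) = e i ∧ Φ (JW idx i)ᵀ = f i := by
  have hL := List.nodup_finRange l
  set L := List.finRange l
  have hinj : Function.Injective idx := fun a b hab =>
    List.inj_on_of_nodup_map (hp.nodup_iff.mpr (List.nodup_sublists'.mpr hL))
      (List.mem_finRange a) (List.mem_finRange b) hab
  have hsub : ∀ a, (idx a).Sublist L := fun a =>
    List.mem_sublists'.mp (hp.subset (List.mem_map_of_mem (List.mem_finRange a)))
  have E1 : ∀ a k j b, wA e (idx a) * vac e f L * wB f (idx k) *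
      (wA e (idx j) * vac e f L * wB f (idx b)) =
        if k = j then wA e (idx a) * vac e f L * wB f (idx b) else 0 := by
    intro a k j b
    calc _ = wA e (idx a) * (vac e f L * wB f (idx k) * (wA e (idx j) * vac e f L)) *
          wB f (idx b) := by simp only [mul_assoc]
      _ = _ := by
        rw [orth h hL (hsub k) (hsub j)]
        simp only [hinj.eq_iff]
        split_ifs <;> simp
  have E2 : ∑ a, wA e (idx a) * vac e f L * wB f (idx a) = 1 := by
    rw [← sum_units h hL, ← (hp.map _).sum_eq, List.map_map, Fin.sum_univ_def]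
    rfl
  let φ := unitsHom (fun a b => wA e (idx a) * vac e f L * wB f (idx b)) E1 E2
  have hφ : ∀ M, φ M = ∑ a, ∑ b, M a b • (wA e (idx a) * vac e f L * wB f (idx b)) :=
    fun _ => rfl
  refine ⟨{ φ with
    map_zero' := by simp [hφ]
    map_add' := fun M N => by simp [hφ, add_smul, Finset.sum_add_distrib] }, fun i => ⟨?_, ?_⟩⟩
  · change φ _ = _
    rw [hφ, Finset.sum_comm, ← mul_one (e i), ← E2, Finset.mul_sum]
    refine Finset.sum_congr rfl fun a _ => ?_
    obtain ⟨b, hb⟩ := hc i a
    rw [← mul_assoc, ← mul_assoc, ins_A h, ← hb, Finset.sum_eq_single b]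
    · rw [smul_mul_assoc, smul_mul_assoc, JW, of_apply, if_pos hb]
    · intro c _ hcb
      simp [JW, ← hb, hinj.eq_iff, hcb]
    · simp
  · change φ _ = _
    rw [hφ, ← one_mul (f i), ← E2, Finset.sum_mul]
    refine Finset.sum_congr rfl fun a _ => ?_
    obtain ⟨b, hb⟩ := hc i a
    rw [mul_assoc _ _ (f i), ins_B h, ← hb, Finset.sum_eq_single b]
    · rw [mul_smul_comm, transpose_apply, JW, of_apply, if_pos hb]
    · intro c _ hcb
      simp [JW, ← hb, hinj.eq_iff, hcb]
    · simp

end Pool.Agent.Lib.MP_755cca_al.F.Car
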