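import Pool.Agent.Lib.MP_755cca_al.F.CoreD

/-! Chain parameters. -/

namespace Pool.Agent.Lib.MP_755cca_al.F

def cdA2_0 : CD where
  word := [0, 1, 0, 0, 1, 0, 0, 1, 0, 0, 1, 0, 0, 1, 0, 0]
  t := [[(1, [])],
    [(-1, [])],
    [(2, []), (2, [2]), (2, [4])],
    [(3, [2]), (1, [4]), (2, [5]), (2, [2, 2]), (1, [2, 4]), (1, [2, 5])],
    [(6, []), (-6, [2]), (-3, [4]), (-5, [5]), (-16, [2, 2]), (-11, [2, 4]), (-7, [2, 5]), (-2, [4, 4]), (-6, [2, 2, 2]), (-6, [2, 2, 4]), (-2, [2, 2, 5]), (-2, [2, 4, 4])],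
    [(3, []), (2, [2]), (2, [4])],
    [(2, []), (1, [2]), (1, [4])],
    [(1, [2]), (1, [4])],
    [(-3, [2]), (-2, [4]), (-1, [5]), (-4, [2, 2]), (-2, [2, 4]), (-2, [2, 5])],
    [(2, [2]), (1, [4])],
    [(2, []), (-5, [2]), (-2, [4]), (-2, [5]), (-6, [2, 2]), (-2, [2, 4]), (-4, [2, 5])],
    [(3, []), (2, [2]), (2, [5]), (1, [6]), (1, [2, 6]), (-1, [3, 5]), (1, [4, 6]), (1, [2, 4, 6])],
    [(1, []), (1, [1])],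
    [(1, [3]), (-1, [6]), (2, [1, 2]), (1, [1, 3]), (1, [1, 4]), (1, [1, 5]), (-1, [1, 6]), (3, [2, 6]), (3, [4, 6]), (1, [5, 6]), (3, [1, 2, 6]), (3, [1, 4, 6]), (1, [1, 5, 6]), (3, [2, 2, 6]), (3, [2, 4, 6]), (1, [2, 5, 6]), (1, [4, 4, 6]), (3, [1, 2, 2, 6]), (3, [1, 2, 4, 6]), (1, [1, 2, 5, 6]), (1, [1, 4, 4, 6])],
    [(-2, [2]), (-1, [3]), (-1, [4]), (-1, [5]), (1, [6]), (-3, [2, 6]), (-3, [4, 6]), (-1, [5, 6]), (-3, [2, 2, 6]), (-3, [2, 4, 6]), (-1, [2, 5, 6]), (-1, [4, 4, 6])],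
    [(1, [2]), (1, [4]), (1, [7]), (1, [1, 2]), (1, [1, 4]), (1, [2, 2]), (1, [2, 4]), (1, [1, 2, 2]), (1, [1, 2, 4])]]
  rules := pathRules 2 [0, 1] 1 (-1, []) (1, []) (1, []) (1, [1]) (-1, [0])
  cut := 9
  A := [[(1, [6])], [(1, [])]]
  B := [[(1, [1])], [(-1, [6])]]

def cdA2_1 : CD where
  word := [0, 1, 0, 0, 1, 0, 0, 1, 0, 0, 1, 0, 0, 1, 0, 1]
  t := [[(1, [])],
    [(-1, []), (-1, [4])],
    [(3, []), (1, [4])],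
    [(1, [])],
    [(-1, []), (2, [2]), (1, [3]), (1, [4]), (1, [5]), (1, [2, 6]), (2, [4, 6])],
    [(1, []), (-5, [2]), (-3, [3]), (-3, [4]), (-2, [5]), (-2, [2, 6]), (-5, [4, 6])],
    [(1, [2]), (1, [4])],
    [(-2, [2]), (-3, [4])],
    [(4, [])],
    [(2, [])],
    [(4, [2]), (2, [3]), (1, [4]), (3, [5]), (3, [2, 2]), (4, [2, 4]), (6, [2, 6]), (1, [3, 4]), (1, [4, 4]), (8, [4, 6]), (3, [2, 4, 6]), (4, [4, 4, 6])],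
    [(-3, [2]), (-2, [3]), (-1, [4]), (-2, [5]), (-2, [2, 2]), (-3, [2, 4]), (-4, [2, 6]), (-1, [3, 4]), (-1, [4, 4]), (-6, [4, 6]), (-2, [2, 4, 6]), (-3, [4, 4, 6])],
    [(3, [2]), (1, [3]), (1, [4]), (3, [4, 6])],
    [(-2, [2]), (-1, [3]), (-1, [4]), (-2, [4, 6])],
    [(1, []), (1, [0])],
    [(-1, [2]), (-1, [4]), (-3, [0, 2]), (-4, [0, 4]), (-1, [3, 7]), (-1, [1, 4, 4])]]
  rules := pathRules 2 [0, 1] 1 (-1, []) (1, []) (1, []) (-1, [1]) (1, [0])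
  cut := 14
  A := [[(1, [])], [(1, [6])]]
  B := [[(-1, [6])], [(1, [0])]]

end Pool.Agent.Lib.MP_755cca_al.F
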