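import Pool.Agent.Lib.MP_755cca_al.F.CoreD

/-! Chain parameters. -/

namespace Pool.Agent.Lib.MP_755cca_al.F

def cdA3_0 : CD where
  word := [0, 2, 1, 0, 2, 1, 0, 2, 1, 0, 2, 1, 0, 2, 1, 0, 2, 1, 0]
  t := [[(1, [])],
    [(1, [])],
    [(1, [7])],
    [(1, []), (-1, [7])],
    [(-1, []), (-1, [7])],
    [(1, [6]), (1, [7]), (1, [0, 3]), (-1, [1, 3]), (-1, [2, 3]), (-1, [3, 3]), (-1, [4, 8]), (1, [0, 1, 5]), (1, [0, 2, 5]), (1, [0, 3, 5]), (-1, [1, 2, 5]), (-1, [2, 3, 5]), (1, [0, 2, 5, 5]), (-1, [0, 1, 2, 5, 5])],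
    [(-1, [6]), (-1, [0, 3]), (1, [1, 3]), (1, [2, 3]), (1, [3, 3]), (1, [4, 8]), (-1, [0, 1, 5]), (-1, [0, 2, 5]), (-1, [0, 3, 5]), (1, [1, 2, 5]), (1, [2, 3, 5]), (-1, [0, 2, 5, 5]), (1, [0, 1, 2, 5, 5])],
    [(2, []), (1, [6]), (1, [0, 3]), (-1, [1, 3]), (-1, [2, 3]), (-1, [3, 3]), (-1, [4, 8]), (1, [0, 1, 5]), (1, [0, 2, 5]), (1, [0, 3, 5]), (-1, [1, 2, 5]), (-1, [2, 3, 5]), (1, [0, 2, 5, 5]), (-1, [0, 1, 2, 5, 5])],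
    [(-2, []), (-1, [5]), (-1, [6]), (-1, [0, 3]), (1, [1, 3]), (1, [2, 3]), (1, [3, 3]), (1, [4, 8]), (-1, [0, 1, 5]), (-1, [0, 2, 5]), (-1, [0, 3, 5]), (1, [1, 2, 5]), (1, [2, 3, 5]), (-1, [0, 2, 5, 5]), (1, [0, 1, 2, 5, 5])],
    [(-1, []), (-1, [3]), (-1, [5]), (1, [0, 5])],
    [(1, []), (-1, [3]), (1, [5]), (-1, [2, 5])],
    [(1, [5]), (1, [6]), (1, [0, 3]), (-1, [0, 5]), (-1, [2, 3]), (-1, [2, 5]), (1, [0, 2, 5])],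
    [(1, []), (1, [1]), (-1, [2]), (1, [3]), (1, [4, 6]), (-1, [0, 1, 7]), (-1, [0, 3, 7]), (-1, [0, 2, 5, 7]), (-1, [0, 1, 2, 3, 5, 7])],
    [(1, [0]), (1, [4, 6]), (1, [1, 2, 7]), (1, [2, 3, 7]), (-1, [0, 2, 5, 7]), (-1, [0, 1, 2, 3, 5, 7])],
    [(1, []), (1, [3]), (1, [4]), (-1, [0, 7]), (1, [1, 4]), (1, [1, 5]), (1, [2, 7]), (1, [3, 5]), (-1, [0, 3, 7]), (1, [4, 4, 6]), (-1, [0, 1, 4, 7]), (-1, [0, 1, 5, 7]), (-1, [0, 2, 4, 7]), (-1, [0, 2, 5, 7]), (-1, [0, 3, 5, 7]), (1, [1, 2, 3, 7]), (1, [1, 2, 4, 7]), (1, [2, 3, 3, 7]), (-3, [0, 1, 2, 5, 7]), (-1, [0, 2, 3, 5, 7]), (-2, [0, 2, 4, 5, 7]), (-1, [0, 2, 5, 5, 7]), (1, [1, 1, 2, 5, 7]), (2, [1, 2, 3, 5, 7]), (1, [2, 3, 3, 5, 7]), (-1, [0, 1, 2, 3, 7, 7]), (-2, [0, 1, 2, 5, 5, 7]), (-1, [0, 2, 3, 3, 7, 7]), (-1, [0, 2, 3, 5, 5,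 7]), (1, [0, 0, 1, 2, 5, 7, 7]), (1, [0, 0, 2, 3, 5, 7, 7]), (-1, [0, 1, 1, 2, 5, 7, 7]), (-1, [0, 1, 2, 2, 5, 7, 7]), (-2, [0, 1, 2, 3, 5, 7, 7]), (-1, [0, 2, 2, 3, 5, 7, 7]), (-1, [0, 2, 3, 3, 5, 7, 7]), (2, [0, 0, 1, 2, 5, 5, 7, 7]), (1, [0, 0, 2, 2, 5, 5, 7, 7]), (1, [0, 0, 2, 3, 5, 5, 7, 7]), (-2, [0, 1, 2, 2, 5, 5, 7, 7]), (-1, [0, 2, 2, 3, 5, 5, 7, 7]), (1, [0, 0, 2, 2, 5, 5, 5, 7, 7]), (1, [0, 0, 1, 1, 2, 2, 5, 5, 5, 7, 7])],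
    [(-1, []), (-1, [4]), (-1, [5]), (-1, [2, 3, 7]), (1, [0, 2, 5, 7]), (-1, [1, 2, 5, 7]), (-1, [2, 3, 5, 7]), (1, [0, 2, 5, 5, 7])],
    [(-1, [3]), (-1, [4]), (-1, [1, 5]), (-1, [3, 5]), (1, [0, 3, 7]), (1, [0, 1, 5, 7]), (1, [0, 2, 5, 7]), (1, [0, 3, 5, 7]), (1, [0, 2, 5, 5, 7])],
    [(1, []), (1, [1]), (1, [5])],
    [(1, []), (1, [1]), (1, [3])]]
  rules := leafRules 3 [0, 1, 2] (1, []) (-1, [0, 1, 2]) (-1, []) (1, []) (1, [])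
  cut := 12
  A := [[(1, [3])], [(1, [3])], [(1, [3])]]
  B := [[(1, [])], [(1, [0, 2])], [(-1, [])]]

def cdA3_1 : CD where
  word := [0, 2, 1, 0, 2, 1, 0, 2, 1, 0, 2, 1, 0, 2, 1, 0, 2, 1, 1]
  t := [[(1, [])],
    [(1, [])],
    [(1, [])],
    [(-2, [])],
    [(-2, [])],
    [(5, [])],
    [(4, [])],
    [(4, [])],
    [(5, []), (-2, [3]), (-1, [5]), (-1, [6])],
    [(-2, []), (3, [3]), (2, [5]), (1, [6])],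
    [(-2, []), (1, [3]), (1, [6])],
    [(1, []), (-2, [3]), (-1, [6])],
    [(1, [2])],
    [(2, []), (1, [0])],
    [(1, [6]), (1, [0, 3]), (1, [0, 6]), (-1, [2, 3]), (-1, [2, 6]), (1, [3, 7]), (-2, [0, 2, 3]), (-1, [0, 2, 4]), (-1, [0, 2, 5]), (-1, [0, 2, 6]), (1, [0, 3, 7]), (1, [0, 5, 7]), (-1, [2, 3, 7]), (-1, [2, 5, 7]), (-1, [0, 2, 3, 7]), (-2, [0, 2, 5, 7])],
    [(1, [3]), (1, [6]), (2, [0, 3]), (1, [0, 4]), (1, [0, 5]), (1, [0, 6]), (1, [3, 7]), (1, [5, 7]), (1, [0, 3, 7]), (2, [0, 5, 7])],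
    [(-1, [3]), (-1, [6]), (2, [2, 3]), (1, [2, 4]), (1, [2, 5]), (1, [2, 6]), (-1, [3, 7]), (-1, [5, 7]), (1, [2, 3, 7]), (2, [2, 5, 7])],
    [(-2, [3]), (-1, [4]), (-1, [5]), (-1, [6]), (-1, [3, 7]), (-2, [5, 7])],
    [(1, [3]), (1, [0, 3]), (1, [0, 5]), (-1, [2, 3]), (-1, [2, 5]), (-1, [4, 8]), (-1, [0, 2, 3]), (-2, [0, 2, 5]), (-1, [1, 5, 5])]]
  rules := pathRules 3 [1] 1 (-1, []) (1, []) (1, []) (-1, [1]) (1, [0, 2])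
  cut := 18
  A := [[], [(1, [7])], []]
  B := [[], [(1, [0, 2])], []]

def cdA3_2 : CD where
  word := [0, 2, 1, 0, 2, 1, 0, 2, 1, 0, 2, 1, 0, 2, 1, 0, 2, 1, 2]
  t := [[(1, [])],
    [(1, [])],
    [(1, []), (1, [3]), (1, [5])],
    [(-2, []), (-1, [3]), (-1, [5])],
    [(-2, []), (-1, [3]), (-1, [5])],
    [(4, []), (1, [3]), (1, [5])],
    [(2, []), (2, [3]), (1, [5]), (1, [6])],
    [(2, []), (2, [3]), (1, [5])],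
    [(7, [3]), (3, [5]), (3, [6]), (5, [3, 3]), (4, [3, 5]), (2, [3, 6]), (1, [5, 5])],
    [(-3, []), (-2, [3]), (-1, [5])],
    [(-3, []), (-2, [3]), (-1, [5]), (-1, [6]), (-1, [7]), (-1, [0, 3]), (-1, [0, 5]), (1, [4, 6]), (-1, [3, 5, 7])],
    [(1, []), (-1, [3]), (-1, [4]), (-1, [5]), (-1, [3, 7]), (-2, [5, 7]), (-1, [0, 3, 3]), (-2, [0, 3, 5]), (-1, [0, 5, 5])],
    [(-2, [3]), (-1, [4]), (-1, [5]), (-1, [6]), (-3, [3, 7]), (-3, [5, 7]), (-1, [6, 7]), (-3, [0, 3, 3]), (-3, [0, 3, 5]), (-1, [0, 3, 6]), (-1, [0, 5, 5])],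
    [(-1, [3]), (-1, [5])],
    [(-2, [3]), (-1, [5]), (-1, [6])],
    [(-1, []), (-1, [0])],
    [(-1, []), (1, [2]), (-2, [7]), (-1, [8]), (-2, [0, 3]), (-1, [0, 5]), (1, [4, 6]), (-1, [3, 5, 7])],
    [(1, [4]), (1, [8]), (2, [0, 3]), (1, [0, 4]), (1, [0, 5]), (-1, [2, 3]), (-1, [2, 5]), (2, [3, 7]), (1, [3, 8]), (3, [5, 7]), (1, [5, 8]), (-1, [0, 2, 3]), (-1, [0, 2, 5]), (2, [0, 3, 3]), (3, [0, 3, 5]), (2, [0, 3, 7]), (1, [0, 3, 8]), (1, [0, 5, 5]), (3, [0, 5, 7]), (1, [0, 5, 8]), (2, [0, 0, 3, 3]), (3, [0, 0, 3, 5]), (1, [0, 0, 5, 5])],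
    [(1, []), (1, [3]), (1, [5]), (1, [0, 3]), (1, [0, 5])]]
  rules := pathRules 3 [0, 1, 2] 1 (-1, []) (1, []) (1, []) (-1, [0, 2]) (1, [1])
  cut := 17
  A := [[(1, [])], [(1, [7])], [(1, [])]]
  B := [[(-1, [7])], [(1, [0, 2])], [(1, [7])]]

end Pool.Agent.Lib.MP_755cca_al.F
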