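import Pool.Agent.Lib.MP_755cca_al.F.CoreD

/-! Chain parameters. -/

namespace Pool.Agent.Lib.MP_755cca_al.F

def cdB3_0 : CD where
  word := [0, 2, 1, 0, 2, 1, 0, 2, 1, 0]
  t := [[(1, [5])],
    [(-1, [4]), (-1, [0, 3]), (-1, [3, 8]), (1, [0, 1, 5]), (1, [1, 5, 8]), (-1, [2, 2, 3, 5]), (-1, [0, 2, 2, 5, 7]), (1, [1, 2, 2, 5, 5])],
    [(1, [0, 3, 3]), (-1, [1, 4, 5]), (1, [3, 3, 8]), (-2, [0, 1, 3, 5]), (-2, [1, 3, 5, 8]), (1, [0, 1, 1, 5, 5]), (1, [1, 1, 5, 5, 8]), (1, [2, 2, 3, 3, 5]), (1, [0, 2, 2, 3, 5, 7]), (-2, [1, 2, 2, 3, 5, 5]), (-2, [0, 1, 2, 2, 5, 5, 7]), (1, [1, 1, 2, 2, 5, 5, 5])],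
    [(-1, [0, 6]), (1, [1, 4]), (-1, [6, 8]), (2, [0, 1, 3]), (2, [1, 3, 8]), (-1, [0, 1, 1, 5]), (-1, [1, 1, 5, 8]), (-1, [2, 2, 3, 3]), (-1, [0, 2, 2, 3, 7]), (2, [1, 2, 2, 3, 5]), (2, [0, 1, 2, 2, 5, 7]), (-1, [1, 1, 2, 2, 5, 5])],
    [(1, [3]), (-1, [1, 5])],
    [(1, [6]), (-2, [1, 3]), (1, [1, 1, 5])],
    [(-1, [7])],
    [(1, [1]), (1, [2]), (1, [4, 6]), (-1, [2, 2, 3]), (-1, [0, 2, 2, 7]), (1, [1, 2, 2, 5]), (1, [0, 1, 2, 2, 3, 5, 7])],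
    [(-1, [1]), (-1, [3]), (2, [2, 2, 7]), (2, [2, 3, 3]), (2, [2, 4, 7]), (1, [0, 1, 4, 7]), (2, [0, 2, 3, 7]), (-2, [1, 2, 3, 5]), (-1, [2, 2, 5, 7]), (1, [4, 4, 6, 7]), (-2, [0, 1, 2, 5, 7]), (-1, [2, 2, 3, 3, 3]), (-2, [0, 2, 2, 3, 3, 7]), (-2, [0, 2, 2, 4, 7, 7]), (2, [1, 2, 2, 3, 3, 5]), (2, [1, 2, 2, 4, 5, 7]), (2, [2, 2, 2, 3, 5, 7]), (-1, [0, 0, 2, 2, 3, 7, 7]), (4, [0, 1, 2, 2, 3, 5, 7]), (-2, [0, 1, 2, 2, 5, 7, 7]), (2, [0, 2, 2, 2, 5, 7, 7]), (-1, [1, 1, 2, 2, 3, 5, 5]), (-2, [1, 2, 2, 2, 5, 5, 7]), (2, [0, 0, 1, 2, 2, 5, 7, 7]), (-2, [0, 1, 1, 2, 2, 5, 5, 7]), (-1, [2, 2, 2, 2, 3, 3, 5, 7]), (-2, [0, 2, 2, 2, 2, 3, 5, 7, 7]), (2, [1, 2, 2, 2, 2, 3, 5, 5, 7]), (-1, [0, 0, 2, 2, 2, 2, 5, 7, 7, 7]), (4, [0, 1, 2, 2,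 2, 2, 5, 5, 7, 7]), (-1, [1, 1, 2, 2, 2, 2, 5, 5, 5, 7]), (-1, [0, 0, 1, 1, 2, 2, 2, 2, 5, 5, 5, 7, 7, 7])],
    [(-1, [8]), (2, [2, 2]), (2, [2, 4]), (1, [0, 1, 4]), (2, [0, 2, 3]), (1, [1, 4, 8]), (-1, [2, 2, 5]), (2, [2, 3, 8]), (1, [4, 4, 6]), (-2, [0, 1, 2, 5]), (1, [0, 2, 2, 3]), (-2, [1, 2, 5, 8]), (-2, [0, 1, 2, 2, 5]), (-2, [0, 2, 2, 3, 3]), (-2, [0, 2, 2, 4, 7]), (2, [1, 2, 2, 4, 5]), (2, [2, 2, 2, 3, 5]), (-1, [2, 2, 3, 3, 8]), (-1, [0, 0, 2, 2, 3, 7]), (4, [0, 1, 2, 2, 3, 5]), (-2, [0, 1, 2, 2, 5, 7]), (2, [0, 2, 2, 2, 5, 7]), (-2, [1, 2, 2, 2, 5, 5]), (2, [1, 2, 2, 3, 5, 8]), (2, [0, 0, 1, 2, 2, 5, 7]), (-1, [0, 1, 1, 2, 2, 5, 5]), (-1, [1, 1, 2, 2, 5, 5, 8]), (-1, [2, 2, 2, 2, 3, 3, 5]), (-2, [0, 2, 2, 2, 2, 3,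 5, 7]), (2, [1, 2, 2, 2, 2, 3, 5, 5]), (-1, [0, 0, 2, 2, 2, 2, 5, 7, 7]), (4, [0, 1, 2, 2, 2, 2, 5, 5, 7]), (-1, [1, 1, 2, 2, 2, 2, 5, 5, 5]), (-1, [0, 0, 1, 1, 2, 2, 2, 2, 5, 5, 5, 7, 7])]]
  rules := leafRules 3 [0, 1, 2] (-1, []) (-1, [0, 1, 2, 2]) (1, []) (1, []) (-1, [])
  cut := 6
  A := [[(1, [3])], [(1, [3])], [(1, [3])]]
  B := [[(-1, [1])], [(-1, [])], [(1, [1])]]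

def cdB3_1 : CD where
  word := [0, 2, 1, 0, 2, 1, 0, 2, 1, 1]
  t := [[(1, [7])],
    [(1, [])],
    [(-1, [])],
    [(-1, [8]), (-1, [2, 2, 5])],
    [(1, []), (1, [3]), (1, [0, 2, 5])],
    [(-1, [8]), (-2, [3, 8]), (-1, [1, 3, 3]), (-1, [2, 2, 5]), (-1, [3, 3, 8]), (-2, [0, 2, 5, 8]), (-2, [2, 2, 3, 5]), (-2, [0, 1, 2, 3, 5]), (1, [0, 2, 2, 4, 5]), (-2, [0, 2, 3, 5, 8]), (-1, [2, 2, 3, 3, 5]), (-2, [0, 2, 2, 2, 5, 5]), (-1, [1, 2, 2, 3, 5, 7]), (-1, [0, 0, 1, 2, 2, 5, 5]), (-1, [0, 0, 2, 2, 5, 5, 8]), (-2, [0, 2, 2, 2, 3, 5, 5]), (-2, [0, 1, 2, 2, 2, 5, 5, 7]), (-1, [0, 0, 2, 2, 2, 2, 5, 5, 5])],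
    [(-1, []), (-2, [3]), (1, [0, 4]), (-1, [3, 3]), (-2, [0, 2, 5]), (-1, [1, 3, 7]), (-2, [0, 2, 3, 5]), (-2, [0, 1, 2, 5, 7]), (-1, [0, 0, 2, 2, 5, 5])],
    [(1, [8]), (1, [1, 3]), (-1, [2, 4]), (1, [3, 8]), (1, [2, 2, 5]), (1, [0, 1, 2, 5]), (1, [0, 2, 5, 8]), (1, [2, 2, 3, 5]), (1, [1, 2, 2, 5, 7]), (1, [0, 2, 2, 2, 5, 5])],
    [(-2, [2]), (-1, [8]), (-1, [1, 3]), (2, [2, 4]), (-2, [3, 8]), (1, [0, 1, 4]), (1, [0, 4, 8]), (-2, [1, 3, 3]), (-1, [2, 2, 5]), (-1, [3, 3, 8]), (1, [4, 4, 6]), (-2, [0, 2, 5, 8]), (-1, [1, 1, 3, 7]), (2, [1, 2, 4, 7]), (-2, [2, 2, 3, 5]), (-4, [0, 1, 2, 3, 5]), (2, [0, 2, 2, 4, 5]), (-2, [0, 2, 3, 5, 8]), (-2, [1, 2, 2, 5, 7]), (-1, [2, 2, 3, 3, 5]), (-2, [0, 1, 1, 2, 5, 7]), (-2, [0, 1, 2, 2,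 5, 7]), (-2, [0, 2, 2, 2, 5, 5]), (-2, [1, 2, 2, 3, 5, 7]), (-1, [0, 0, 1, 2, 2, 5, 5]), (-1, [0, 0, 2, 2, 5, 5, 8]), (-2, [0, 2, 2, 2, 3, 5, 5]), (-1, [1, 1, 2, 2, 5, 7, 7]), (-4, [0, 1, 2, 2, 2, 5, 5, 7]), (-1, [0, 0, 2, 2, 2, 2, 5, 5, 5]), (-1, [0, 0, 1, 1, 2, 2, 2, 2, 5, 5, 5, 7, 7])],
    [(1, [5])]]
  rules := leafRules 3 [0, 1, 2] (-1, []) (-1, [0, 1, 2, 2]) (1, []) (1, []) (-1, [])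
  cut := 7
  A := [[(1, [])], [(1, [])], [(1, [])]]
  B := [[(-1, [1, 3])], [(1, [3])], [(-1, [1, 3])]]

def cdB3_2 : CD where
  word := [0, 2, 1, 0, 2, 1, 0, 2, 1, 2]
  t := [[(-2, [3]), (-1, [5]), (1, [1, 4]), (1, [1, 6]), (-1, [0, 1, 3, 7, 7]), (-2, [0, 1, 5, 7, 7])],
    [(1, [3]), (1, [5])],
    [(1, [3, 3]), (2, [3, 5]), (1, [5, 5]), (-1, [1, 4, 5]), (1, [0, 1, 3, 5, 7, 7]), (2, [0, 1, 5, 5, 7, 7])],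
    [(1, [5])],
    [(-1, [3]), (-1, [5]), (1, [1, 4]), (-1, [0, 1, 5, 7, 7])],
    [(-1, [5]), (1, [1, 4])],
    [(1, []), (1, [0]), (-1, [4, 6]), (1, [0, 1, 7, 7]), (1, [0, 1, 3, 5, 7, 7])],
    [(-1, []), (-1, [7])],
    [(1, [4]), (-1, [0, 3]), (1, [1, 6]), (-2, [3, 7]), (-2, [0, 3, 7]), (-2, [0, 5, 7]), (2, [1, 6, 7]), (-2, [3, 7, 7]), (-1, [5, 7, 7]), (-1, [0, 3, 7, 7]), (-2, [0, 5, 7, 7]), (1, [1, 4, 7, 7]), (1, [1, 6, 7, 7]), (-1, [0, 1, 3, 7, 7]), (-2, [0, 1, 3, 7, 7, 7]), (-2, [0, 1, 5, 7, 7, 7]), (-1, [0, 1, 3, 7, 7, 7, 7]), (-2, [0, 1, 5, 7, 7, 7, 7])],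
    [(-1, [3]), (-1, [0, 3]), (-1, [0, 5]), (1, [1, 6]), (-2, [3, 7]), (-1, [5, 7]), (-1, [0, 3, 7]), (-2, [0, 5, 7]), (1, [1, 4, 7]), (1, [1, 4, 8]), (1, [1, 6, 7]), (-1, [0, 1, 3, 7, 7]), (-1, [0, 1, 5, 7, 7]), (1, [0, 1, 2, 5, 5, 7]), (-1, [0, 1, 3, 7, 7, 7]), (-2, [0, 1, 5, 7, 7, 7])]]
  rules := pathRules 3 [2] 2 (1, [1]) (-1, [0]) (-1, [1]) (1, [2]) (1, [1])
  cut := 7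
  A := [[], [], [(1, [7])]]
  B := [[], [], [(1, [1])]]

end Pool.Agent.Lib.MP_755cca_al.F
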