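import Pool.Agent.Lib.MP_755cca_al.F.CoreD

/-! Chain parameters. -/

namespace Pool.Agent.Lib.MP_755cca_al.F

def cdC2_0 : CD where
  word := [0, 1, 0, 1, 0, 1, 0, 1, 0, 1, 0, 1, 0]
  t := [[(1, [])],
    [(1, [])],
    [(-2, [])],
    [(4, []), (1, [6])],
    [(3, []), (1, [6])],
    [(3, []), (-1, [5]), (1, [6]), (-2, [0, 2]), (1, [1, 2]), (-1, [3, 7]), (-1, [0, 0, 4]), (2, [0, 1, 4]), (-1, [0, 0, 1, 4, 4])],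
    [(-2, []), (1, [5]), (2, [0, 2]), (-1, [1, 2]), (1, [3, 7]), (1, [0, 0, 4]), (-2, [0, 1, 4]), (1, [0, 0, 1, 4, 4])],
    [(2, []), (1, [4]), (-1, [5]), (-2, [0, 2]), (1, [1, 2]), (-1, [3, 7]), (-1, [0, 0, 4]), (2, [0, 1, 4]), (-1, [0, 0, 1, 4, 4])],
    [(1, []), (1, [2]), (1, [4]), (1, [0, 4])],
    [(2, [2]), (1, [4]), (1, [5]), (2, [0, 2]), (2, [0, 4]), (1, [0, 0, 4])],
    [(-1, []), (-1, [0]), (1, [1]), (1, [3, 5]), (1, [0, 1, 6]), (1, [0, 0, 1, 2, 4, 6])],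
    [(1, [1, 2]), (2, [1, 3]), (-1, [1, 1, 4]), (1, [3, 3, 5]), (-1, [0, 0, 3, 6]), (2, [0, 1, 2, 6]), (2, [0, 1, 3, 6]), (-2, [0, 1, 1, 4, 6]), (1, [0, 0, 1, 2, 6, 6]), (2, [0, 0, 0, 1, 4, 6, 6]), (-1, [0, 0, 1, 1, 4, 6, 6]), (-1, [0, 0, 0, 0, 1, 1, 4, 4, 4, 6, 6])],
    [(-1, [2]), (-1, [3]), (1, [1, 4]), (-1, [0, 2, 6]), (-1, [0, 0, 4, 6]), (1, [0, 1, 4, 6])]]
  rules := leafRules 2 [0, 1] (-1, []) (-1, [0, 0, 1]) (1, []) (1, []) (1, [])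
  cut := 8
  A := [[(1, [2])], [(1, [2])]]
  B := [[(1, [])], [(-1, [0, 0])]]

def cdC2_1 : CD where
  word := [0, 1, 0, 1, 0, 1, 0, 1, 0, 1, 0, 1, 1]
  t := [[(1, [])],
    [(1, [])],
    [(-2, [])],
    [(3, [])],
    [(2, [])],
    [(1, []), (2, [2]), (1, [4]), (-1, [5])],
    [(-3, [2]), (-2, [4]), (1, [5])],
    [(-1, []), (4, [2]), (4, [4]), (-1, [5])],
    [(2, []), (-1, [0])],
    [(1, [5]), (2, [0, 2]), (-2, [0, 5]), (1, [2, 6]), (-2, [0, 0, 2]), (1, [0, 0, 3]), (-1, [0, 0, 4]), (1, [0, 0, 5]), (-2, [0, 2, 6]), (-2, [0, 4, 6]), (1, [0, 0, 2, 6]), (2, [0, 0, 4, 6])],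
    [(1, [2]), (-1, [5]), (-2, [0, 2]), (1, [0, 3]), (-1, [0, 4]), (1, [0, 5]), (-1, [2, 6]), (-1, [4, 6]), (1, [0, 2, 6]), (2, [0, 4, 6])],
    [(-2, [2]), (1, [3]), (-1, [4]), (1, [5]), (1, [2, 6]), (2, [4, 6])],
    [(1, [2]), (-2, [0, 2]), (-2, [0, 4]), (1, [3, 7]), (1, [0, 0, 2]), (2, [0, 0, 4]), (-1, [1, 4, 4])]]
  rules := pathRules 2 [0, 1] 1 (1, []) (1, []) (-1, []) (1, [1]) (1, [0, 0])
  cut := 12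
  A := [[(1, [])], [(1, [6])]]
  B := [[(-1, [6])], [(-1, [0, 0])]]

end Pool.Agent.Lib.MP_755cca_al.F
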