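import Pool.Agent.Lib.MP_755cca_al.F.CoreD

/-! Chain parameters. -/

namespace Pool.Agent.Lib.MP_755cca_al.F

def cdC3_0 : CD where
  word := [0, 2, 1, 0, 2, 1, 0, 2, 1, 0]
  t := [[(-1, [5]), (-1, [6])],
    [(-2, [3, 3]), (-2, [3, 5]), (-2, [3, 6]), (-1, [5, 5]), (-1, [6, 6])],
    [(-1, [3, 3]), (-1, [3, 5]), (-1, [3, 6]), (-1, [5, 5])],
    [(-1, [3]), (-1, [5])],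
    [(-1, [3, 3]), (-1, [5, 5])],
    [(-1, [5])],
    [(-1, []), (-1, [7])],
    [(-1, []), (-1, [2])],
    [(-1, [4]), (1, [6]), (1, [2, 5]), (1, [2, 6]), (1, [3, 7]), (1, [6, 7]), (1, [2, 3, 7]), (1, [2, 5, 7]), (1, [2, 6, 7])],
    [(1, [3]), (1, [6]), (1, [2, 3]), (1, [2, 5]), (1, [2, 6]), (1, [1, 4, 8]), (-1, [0, 1, 2, 5, 5])]]
  rules := pathRules 3 [0] 1 (1, [1]) (-1, [2]) (1, []) (-1, [0]) (-1, [1])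
  cut := 6
  A := [[(1, [7])], [], []]
  B := [[(1, [1])], [], []]

def cdC3_1 : CD where
  word := [0, 2, 1, 0, 2, 1, 0, 2, 1, 1]
  t := [[(1, [])],
    [(1, [])],
    [(1, [4]), (1, [0, 5])],
    [(-1, [4]), (-1, [5]), (-1, [0, 5])],
    [(1, [4, 4]), (2, [0, 4, 5]), (1, [2, 4, 4]), (-1, [0, 0, 3, 3]), (1, [0, 0, 5, 5]), (2, [0, 2, 4, 5]), (-2, [0, 3, 5, 7]), (-1, [5, 5, 7, 7]), (1, [0, 0, 2, 5, 5])],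
    [(-1, [4, 4]), (-1, [4, 5]), (1, [0, 3, 3]), (-2, [0, 4, 5]), (-1, [0, 5, 5]), (-1, [2, 4, 4]), (-1, [2, 4, 5]), (1, [3, 5, 7]), (1, [0, 0, 3, 3]), (-1, [0, 0, 5, 5]), (-2, [0, 2, 4, 5]), (-1, [0, 2, 5, 5]), (2, [0, 3, 5, 7]), (1, [5, 5, 7, 7]), (-1, [0, 0, 2, 5, 5])],
    [(-1, [4]), (-1, [0, 5]), (1, [0, 6]), (-1, [2, 4]), (1, [3, 7]), (-1, [0, 2, 5])],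
    [(-1, [3, 3]), (1, [4, 4]), (2, [4, 5]), (1, [5, 5]), (-2, [0, 3, 3]), (2, [0, 4, 5]), (2, [0, 5, 5]), (1, [2, 4, 4]), (2, [2, 4, 5]), (1, [2, 5, 5]), (-2, [3, 5, 7]), (-1, [0, 0, 3, 3]), (1, [0, 0, 5, 5]), (2, [0, 2, 4, 5]), (2, [0, 2, 5, 5]), (-2, [0, 3, 5, 7]), (-1, [5, 5, 7, 7]), (1, [0, 0, 2, 5, 5])],
    [(1, [4]), (1, [5]), (-1, [6]), (1, [0, 5]), (-1, [0, 6]), (1, [2, 4]), (1, [2, 5]), (-1, [3, 7]), (1, [0, 2, 5])],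
    [(1, [5]), (1, [8])]]
  rules := pathRules 3 [0, 1] 1 (-1, []) (1, []) (1, []) (1, [0]) (1, [1])
  cut := 9
  A := [[(1, [])], [(1, [7])], []]
  B := [[(1, [7])], [(-1, [0, 2])], []]

def cdC3_2 : CD where
  word := [0, 2, 1, 0, 2, 1, 0, 2, 1, 2]
  t := [[(1, [7])],
    [(1, [5])],
    [(1, [0, 3, 5, 11]), (1, [3, 3, 11, 12]), (1, [4, 5, 7, 11, 12]), (2, [0, 2, 3, 5, 7, 11]), (1, [2, 4, 5, 7, 7, 11, 12]), (1, [0, 0, 2, 5, 5, 7, 11, 12]), (1, [0, 1, 1, 5, 5, 7, 7, 11]), (1, [1, 1, 3, 5, 7, 7, 11, 12]), (1, [0, 0, 2, 2, 5, 5, 7, 7, 11, 12]), (2, [0, 1, 1, 2, 5, 5, 7, 7, 7, 11])],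
    [(-1, [3, 8, 11]), (-1, [0, 2, 5, 12]), (-1, [4, 5, 11, 12]), (-2, [0, 2, 3, 5, 11]), (-1, [0, 5, 8, 11, 12]), (-1, [2, 4, 5, 7, 11, 12]), (-1, [0, 0, 2, 5, 5, 11, 12]), (-1, [0, 1, 1, 5, 5, 7, 11]), (-1, [1, 1, 3, 5, 7, 11, 12]), (-1, [0, 0, 2, 2, 5, 5, 7, 11, 12]), (-2, [0, 1, 1, 2, 5, 5, 7, 7, 11])],
    [(1, [3, 3, 6]), (2, [3, 7, 11]), (1, [0, 0, 3, 3, 5]), (2, [0, 3, 3, 3, 12]), (2, [0, 5, 7, 11, 12]), (2, [2, 3, 7, 7, 11]), (1, [2, 4, 7, 7, 11]), (1, [4, 4, 5, 7, 7]), (2, [0, 2, 3, 7, 11, 12]), (1, [1, 1, 3, 7, 7, 11]), (6, [0, 0, 2, 3, 3, 5, 7]), (4, [0, 2, 3, 3, 3, 7, 12]), (6, [0, 2, 5, 7, 7, 11, 12]), (2, [1, 1, 3, 3, 3, 7, 7]), (2, [1, 1, 5, 7, 7, 7, 11]), (2, [2, 4, 4, 5, 7, 7, 7]), (1, [0,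 0, 2, 2, 5, 7, 7, 11]), (2, [0, 0, 2, 4, 5, 5, 7, 7]), (2, [0, 0, 0, 2, 3, 5, 5, 7, 12]), (2, [0, 0, 1, 1, 3, 5, 5, 7, 7]), (6, [0, 0, 2, 2, 3, 3, 5, 7, 7]), (4, [0, 1, 1, 3, 3, 5, 7, 7, 12]), (4, [0, 2, 2, 5, 7, 7, 7, 11, 12]), (2, [1, 1, 2, 5, 7, 7, 7, 7, 11]), (1, [2, 2, 4, 4, 5, 7, 7, 7, 7]), (4, [0, 0, 2, 2, 4, 5, 5, 7, 7, 7]), (2, [0, 1, 1, 2, 5, 7, 7, 7, 11, 12]), (2, [0, 1, 1, 4, 5, 5, 7, 7, 7, 12]), (1, [0, 0, 0, 0, 2, 2, 5, 5, 5, 7, 7]), (6, [0, 0, 0, 2, 2, 3, 5, 5, 7, 7, 12]), (12, [0, 0, 1, 1, 2, 3, 5, 5, 7, 7, 7]), (8, [0, 1, 1, 2, 3, 3, 5, 7, 7, 7, 12]), (1, [1, 1, 1, 1, 3, 3, 5, 7, 7, 7, 7]), (2, [0, 0, 2, 2, 2, 4, 5, 5, 7, 7, 7, 7]), (6, [0, 1, 1, 2, 4, 5, 5, 7, 7, 7, 7, 12]), (2, [0, 0, 0,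 0, 2, 2, 2, 5, 5, 5, 7, 7, 7]), (4, [0, 0, 0, 1, 1, 2, 5, 5, 5, 7, 7, 7, 12]), (4, [0, 0, 0, 2, 2, 2, 3, 5, 5, 7, 7, 7, 12]), (1, [0, 0, 1, 1, 1, 1, 5, 5, 5, 7, 7, 7, 7]), (12, [0, 0, 1, 1, 2, 2, 3, 5, 5, 7, 7, 7, 7]), (2, [0, 1, 1, 1, 1, 3, 5, 5, 7, 7, 7, 7, 12]), (4, [0, 1, 1, 2, 2, 4, 5, 5, 7, 7, 7, 7, 7, 12]), (1, [0, 0, 0, 0, 2, 2, 2, 2, 5, 5, 5, 7, 7, 7, 7]), (12, [0, 0, 0, 1, 1, 2, 2, 5, 5, 5, 7, 7, 7, 7, 12]), (6, [0, 0, 1, 1, 1, 1, 2, 5, 5, 5, 7, 7, 7, 7, 7]), (4, [0, 1, 1, 1, 1, 2, 3, 5, 5, 7, 7, 7, 7, 7, 12]), (8, [0, 0, 0, 1, 1, 2, 2, 2, 5, 5, 5, 7, 7, 7, 7, 7, 12]), (6, [0, 0, 1, 1, 1, 1, 2, 2, 5, 5, 5, 7, 7, 7, 7, 7, 7])],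
    [(-1, [12]), (-1, [0, 2]), (-2, [3, 11]), (-1, [2, 7, 12]), (-2, [0, 3, 3, 8]), (-1, [0, 4, 5, 11]), (-2, [0, 5, 11, 12]), (-2, [2, 3, 7, 11]), (-1, [2, 4, 7, 11]), (-1, [3, 6, 8, 12]), (-1, [4, 4, 5, 7]), (-3, [0, 2, 3, 3, 11]), (-2, [0, 2, 3, 11, 12]), (-1, [1, 1, 3, 7, 11]), (-6, [0, 0, 2, 3, 3, 5]), (-1, [0, 0, 3, 5, 8, 12]), (-4, [0, 2, 3, 3, 3, 12]), (-2, [0, 2, 4, 5, 7, 11]), (-6, [0, 2, 5, 7, 11, 12]), (-2, [1, 1, 3, 3, 3, 7]), (-2, [1, 1, 5, 7, 7, 11]), (-2, [2, 4, 4, 5, 7, 7]), (-1, [0, 0, 0, 2, 5, 5, 11]), (-1, [0, 0, 2, 2, 5, 7, 11]), (-4, [0, 0, 2, 3, 5, 11, 12]), (-2, [0, 0, 2, 4, 5, 5, 7]), (-2, [0, 1, 1, 3, 5, 7, 11]), (-1, [1, 1, 3, 3, 7, 11, 12]), (-2, [0, 0, 0, 2, 3, 5, 5, 12]), (-2,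 [0, 0, 1, 1, 3, 5, 5, 7]), (-6, [0, 0, 2, 2, 3, 3, 5, 7]), (-4, [0, 1, 1, 3, 3, 5, 7, 12]), (-1, [0, 2, 2, 4, 5, 7, 7, 11]), (-4, [0, 2, 2, 5, 7, 7, 11, 12]), (-2, [1, 1, 2, 5, 7, 7, 7, 11]), (-1, [2, 2, 4, 4, 5, 7, 7, 7]), (-2, [0, 0, 0, 2, 2, 5, 5, 7, 11]), (-1, [0, 0, 1, 1, 5, 5, 7, 11, 12]), (-3, [0, 0, 2, 2, 3, 5, 7, 11, 12]), (-4, [0, 0, 2, 2, 4, 5, 5, 7, 7]), (-3, [0, 1, 1, 2, 3, 5, 7, 7, 11]), (-2, [0, 1, 1, 2, 5, 7, 7, 11, 12]), (-2, [0, 1, 1, 4, 5, 5, 7, 7, 12]), (-1, [0, 0, 0, 0, 2, 2, 5, 5, 5, 7]), (-6, [0, 0, 0, 2, 2, 3, 5, 5, 7, 12]), (-12, [0, 0, 1, 1, 2, 3, 5, 5, 7, 7]), (-8, [0, 1, 1, 2, 3, 3, 5, 7, 7, 12]), (-1, [1, 1, 1, 1, 3, 3, 5, 7, 7, 7]), (-1, [0, 0, 0, 2, 2, 2, 5, 5, 7, 7, 11]), (-4,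 [0, 0, 1, 1, 2, 5, 5, 7, 7, 11, 12]), (-2, [0, 0, 2, 2, 2, 4, 5, 5, 7, 7, 7]), (-6, [0, 1, 1, 2, 4, 5, 5, 7, 7, 7, 12]), (-2, [0, 0, 0, 0, 2, 2, 2, 5, 5, 5, 7, 7]), (-4, [0, 0, 0, 1, 1, 2, 5, 5, 5, 7, 7, 12]), (-4, [0, 0, 0, 2, 2, 2, 3, 5, 5, 7, 7, 12]), (-1, [0, 0, 1, 1, 1, 1, 5, 5, 5, 7, 7, 7]), (-12, [0, 0, 1, 1, 2, 2, 3, 5, 5, 7, 7, 7]), (-2, [0, 1, 1, 1, 1, 3, 5, 5, 7, 7, 7, 12]), (-3, [0, 0, 1, 1, 2, 2, 5, 5, 7, 7, 7, 11, 12]), (-4, [0, 1, 1, 2, 2, 4, 5, 5, 7, 7, 7, 7, 12]), (-1, [0, 0, 0, 0, 2, 2, 2, 2, 5, 5, 5, 7, 7, 7]), (-12, [0, 0, 0, 1, 1, 2, 2, 5, 5, 5, 7, 7, 7, 12]), (-6, [0, 0, 1, 1, 1, 1, 2, 5, 5, 5, 7, 7, 7, 7]), (-4, [0, 1, 1, 1, 1, 2, 3, 5, 5, 7, 7, 7, 7, 12]), (-8, [0, 0, 0, 1, 1, 2, 2,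 2, 5, 5, 5, 7, 7, 7, 7, 12]), (-6, [0, 0, 1, 1, 1, 1, 2, 2, 5, 5, 5, 7, 7, 7, 7, 7])],
    [(-1, [0, 3, 11]), (-1, [6, 11, 12]), (-1, [4, 7, 11, 12]), (-2, [0, 2, 3, 7, 11]), (-1, [2, 4, 7, 7, 11, 12]), (-1, [0, 0, 2, 5, 7, 11, 12]), (-1, [0, 1, 1, 5, 7, 7, 11]), (-1, [1, 1, 3, 7, 7, 11, 12]), (-1, [0, 0, 2, 2, 5, 7, 7, 11, 12]), (-2, [0, 1, 1, 2, 5, 7, 7, 7, 11])],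
    [(2, [2, 12]), (2, [2, 3, 11]), (1, [2, 4, 11]), (1, [4, 4, 5]), (1, [6, 8, 8]), (2, [8, 11, 12]), (2, [0, 2, 8, 11]), (2, [0, 4, 5, 8]), (1, [1, 1, 3, 11]), (1, [0, 0, 2, 2, 5]), (1, [0, 0, 5, 8, 8]), (4, [0, 2, 3, 3, 8]), (4, [0, 2, 4, 5, 11]), (6, [0, 2, 5, 11, 12]), (2, [0, 3, 8, 8, 12]), (2, [1, 1, 3, 3, 3]), (2, [1, 1, 5, 7, 11]), (2, [2, 4, 4, 5, 7]), (1, [0, 0, 2, 2, 5, 11]), (2, [0, 0, 2, 4, 5, 5]), (2, [0, 0, 2, 5, 8, 11]), (4, [0, 1, 1, 3, 5, 11]), (2, [0, 2, 3, 8, 11, 12]), (2, [1, 1, 3, 3, 11, 12]), (2, [0, 0, 0, 2, 5, 5, 8]), (2, [0, 0, 1, 1, 3, 5, 5]), (6, [0, 0, 2, 2, 3, 3, 5]), (6, [0, 0, 2, 3, 5, 8, 12]), (4, [0, 1, 1, 3, 3, 5, 12]), (2, [0, 2, 2, 4, 5, 7, 11]), (4, [0, 2, 2, 5, 7, 11,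 12]), (2, [1, 1, 2, 5, 7, 7, 11]), (1, [2, 2, 4, 4, 5, 7, 7]), (4, [0, 0, 0, 2, 2, 5, 5, 11]), (2, [0, 0, 1, 1, 5, 5, 11, 12]), (6, [0, 0, 2, 2, 3, 5, 11, 12]), (4, [0, 0, 2, 2, 4, 5, 5, 7]), (6, [0, 1, 1, 2, 3, 5, 7, 11]), (2, [0, 1, 1, 2, 5, 7, 11, 12]), (2, [0, 1, 1, 4, 5, 5, 7, 12]), (1, [0, 0, 0, 0, 2, 2, 5, 5, 5]), (6, [0, 0, 0, 2, 2, 3, 5, 5, 12]), (12, [0, 0, 1, 1, 2, 3, 5, 5, 7]), (8, [0, 1, 1, 2, 3, 3, 5, 7, 12]), (1, [1, 1, 1, 1, 3, 3, 5, 7, 7]), (2, [0, 0, 0, 2, 2, 2, 5, 5, 7, 11]), (8, [0, 0, 1, 1, 2, 5, 5, 7, 11, 12]), (2, [0, 0, 2, 2, 2, 4, 5, 5, 7, 7]), (6, [0, 1, 1, 2, 4, 5, 5, 7, 7, 12]), (2, [0, 0, 0, 0, 2, 2, 2, 5, 5, 5, 7]), (2, [0, 0, 0, 1, 1, 2, 5, 5, 5, 7, 12]), (4, [0, 0, 0, 2, 2,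 2, 3, 5, 5, 7, 12]), (1, [0, 0, 1, 1, 1, 1, 5, 5, 5, 7, 7]), (12, [0, 0, 1, 1, 2, 2, 3, 5, 5, 7, 7]), (2, [0, 1, 1, 1, 1, 3, 5, 5, 7, 7, 12]), (6, [0, 0, 1, 1, 2, 2, 5, 5, 7, 7, 11, 12]), (4, [0, 1, 1, 2, 2, 4, 5, 5, 7, 7, 7, 12]), (1, [0, 0, 0, 0, 2, 2, 2, 2, 5, 5, 5, 7, 7]), (12, [0, 0, 0, 1, 1, 2, 2, 5, 5, 5, 7, 7, 12]), (6, [0, 0, 1, 1, 1, 1, 2, 5, 5, 5, 7, 7, 7]), (4, [0, 1, 1, 1, 1, 2, 3, 5, 5, 7, 7, 7, 12]), (8, [0, 0, 0, 1, 1, 2, 2, 2, 5, 5, 5, 7, 7, 7, 12]), (6, [0, 0, 1, 1, 1, 1, 2, 2, 5, 5, 5, 7, 7, 7, 7])],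
    [(-1, [1]), (1, [0, 2, 12]), (1, [4, 6, 8]), (1, [4, 11, 12]), (1, [0, 1, 1, 12]), (2, [0, 2, 3, 11]), (1, [0, 8, 11, 12]), (1, [2, 4, 7, 11, 12]), (1, [0, 0, 2, 5, 11, 12]), (1, [0, 1, 1, 5, 7, 11]), (1, [1, 1, 3, 7, 11, 12]), (1, [0, 0, 2, 2, 5, 7, 11, 12]), (2, [0, 1, 1, 2, 5, 7, 7, 11]), (-1, [0, 0, 1, 1, 2, 3, 5, 7, 11]), (-1, [0, 0, 1, 1, 2, 5, 7, 11, 12]), (-1, [0, 0, 1, 1, 2, 3, 3, 5, 7, 12])],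
    [(1, [3, 11]), (1, [4, 4, 6]), (-2, [1, 4, 7, 11]), (1, [0, 0, 2, 4, 11]), (-2, [0, 1, 3, 11, 12]), (1, [0, 0, 1, 1, 3, 11]), (1, [1, 1, 5, 7, 7, 11]), (-2, [0, 0, 1, 2, 5, 7, 11]), (2, [0, 1, 1, 4, 7, 11, 12]), (-2, [0, 0, 1, 1, 2, 5, 7, 7, 11]), (-2, [0, 1, 1, 1, 5, 7, 7, 11, 12]), (2, [0, 0, 0, 1, 1, 2, 5, 7, 11, 12]), (1, [0, 0, 1, 1, 1, 1, 5, 7, 7, 11]), (-1, [0, 0, 0, 0, 1, 1, 1, 1, 2, 2, 5, 5, 5, 7, 7, 7, 7])]]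
  rules := [(3, 4, [(1, [11]), (1, [0, 0, 1, 1, 2, 5, 5, 7, 7])]), (5, 6, [(1, [11]), (1, [3, 3])]), (7, 8, [(1, [11]), (1, [3, 12])]), (11, 11, [(1, [])]), (12, 12, [(1, [])])]
  cut := 8
  A := [[(1, [3])], [(1, [3])], [(1, [3])]]
  B := [[(1, [])], [(-1, [0, 2, 11])], [(-1, [])]]

end Pool.Agent.Lib.MP_755cca_al.F
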