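import Pool.Agent.Lib.MP_755cca_al.F.CoreD

/-! Chain parameters. -/

namespace Pool.Agent.Lib.MP_755cca_al.F

def cdD4_0 : CD where
  word := [0, 2, 3, 1, 0, 2, 3, 1, 0, 2, 3, 1, 0]
  t := [[(1, [8])],
    [(1, [6])],
    [(1, [4]), (-1, [5]), (-1, [2, 5]), (-1, [0, 2, 4]), (-1, [1, 6, 8]), (-1, [0, 2, 3, 6]), (-1, [1, 2, 6, 8]), (1, [0, 1, 2, 6, 8]), (1, [0, 1, 2, 2, 6, 8])],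
    [(1, [5]), (1, [1, 6, 8]), (-1, [0, 1, 2, 6, 8])],
    [(-1, [1, 6]), (-1, [5, 9]), (1, [0, 1, 2, 6]), (-1, [0, 1, 2, 3, 6, 6])],
    [(-1, [3]), (-1, [1, 8]), (1, [5, 7]), (1, [0, 1, 2, 8]), (1, [0, 1, 2, 3, 4, 6, 8])],
    [(1, [])],
    [(-1, [1]), (-1, [3, 9]), (1, [0, 1, 2]), (1, [1, 2, 4]), (-1, [2, 3, 5]), (1, [5, 7, 9]), (-1, [0, 2, 3, 4]), (1, [1, 2, 3, 6]), (-1, [0, 1, 2, 3, 6]), (-1, [0, 2, 3, 3, 6]), (1, [0, 1, 2, 3, 4, 6]), (1, [0, 1, 2, 2, 3, 6, 8]), (1, [0, 1, 2, 3, 4, 4, 6])],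
    [(1, [5]), (1, [7]), (1, [0, 4]), (1, [3, 4]), (1, [0, 3, 6]), (-1, [1, 2, 4, 8]), (1, [2, 3, 5, 8]), (-1, [0, 1, 2, 6, 8]), (1, [0, 2, 3, 4, 8]), (-1, [1, 2, 3, 6, 8]), (1, [0, 2, 3, 3, 6, 8]), (-1, [0, 1, 2, 2, 3, 6, 8, 8])],
    [(-1, [9]), (-1, [2, 5]), (1, [1, 2, 6]), (-1, [0, 2, 3, 6])],
    [(1, [1]), (-1, [1, 4]), (1, [3, 5]), (1, [3, 9]), (-1, [0, 1, 2]), (-1, [1, 2, 4]), (-1, [1, 3, 6]), (1, [2, 3, 5]), (-1, [5, 7, 9]), (1, [0, 2, 3, 4]), (-1, [1, 2, 3, 6]), (1, [0, 1, 2, 3, 6]), (1, [0, 2, 3, 3, 6]), (-1, [0, 1, 2, 3, 4, 6]), (-1, [0, 1, 2, 3, 6, 8]), (-1, [0, 1, 2, 2, 3, 6, 8]), (-1, [0, 1, 2, 3, 4, 4, 6])],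
    [(1, [3]), (1, [0, 2]), (-1, [1, 2]), (2, [2, 3]), (-1, [5, 5]), (-1, [5, 9]), (-1, [7, 9]), (1, [0, 2, 3]), (-1, [0, 4, 9]), (1, [1, 2, 4]), (-1, [1, 2, 8]), (1, [1, 4, 4]), (1, [1, 5, 6]), (-1, [2, 3, 5]), (-1, [2, 5, 5]), (-1, [2, 5, 7]), (-1, [3, 4, 9]), (1, [0, 1, 2, 6]), (1, [0, 1, 4, 6]), (-1, [0, 2, 3, 4]), (-1, [0, 3, 5, 6]), (-1, [0, 3, 6, 9]), (-1, [1, 2, 2, 8]), (1, [1, 2, 3, 6]), (2, [1, 2, 4, 4]), (1, [1, 2, 5, 6]), (1, [1, 3, 4, 6]), (2, [0, 1, 2, 4, 6]), (1, [0, 1, 3, 6, 6]), (1, [0, 2, 2, 3, 8]), (-1, [0, 2, 3, 3, 6]), (-2, [0, 2, 3, 4, 4]), (-2, [0, 2, 3, 5, 6]), (2, [1, 2, 3, 4, 6]), (-1, [2, 3, 5, 5, 8]), (-1, [0, 0, 2, 3, 4, 6]), (1, [0, 1, 2, 3, 6, 6]), (1, [0, 1, 2, 5, 6, 8]), (-2,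 [0, 2, 3, 3, 4, 6]), (-1, [1, 1, 2, 4, 6, 8]), (2, [1, 2, 3, 5, 6, 8]), (-1, [2, 2, 3, 5, 5, 8]), (-1, [0, 0, 2, 3, 3, 6, 6]), (-1, [0, 1, 1, 2, 6, 6, 8]), (1, [0, 1, 2, 2, 3, 6, 8]), (1, [0, 1, 2, 2, 5, 6, 8]), (2, [0, 1, 2, 3, 4, 6, 8]), (-1, [0, 2, 3, 3, 5, 6, 8]), (-1, [1, 1, 2, 2, 4, 6, 8]), (-1, [1, 1, 2, 3, 6, 6, 8]), (2, [1, 2, 2, 3, 5, 6, 8]), (1, [0, 0, 1, 2, 3, 6, 6, 8]), (-1, [0, 1, 1, 2, 2, 6, 6, 8]), (3, [0, 1, 2, 2, 3, 4, 6, 8]), (2, [0, 1, 2, 3, 3, 6, 6, 8]), (-2, [0, 2, 2, 3, 3, 5, 6, 8]), (-1, [1, 1, 2, 2, 3, 6, 6, 8]), (2, [0, 0, 1, 2, 2, 3, 6, 6, 8]), (-1, [0, 0, 2, 2, 3, 3, 4, 6, 8]), (4, [0, 1, 2, 2, 3, 3, 6, 6, 8]), (1, [0, 1, 2, 2, 3, 5, 6, 8, 8]), (-1, [0, 0, 2, 2, 3, 3, 3, 6, 6, 8]),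 (-2, [0, 1, 1, 2, 2, 3, 6, 6, 8, 8]), (1, [0, 1, 2, 2, 2, 3, 5, 6, 8, 8]), (1, [0, 0, 1, 2, 2, 3, 3, 6, 6, 8, 8]), (-2, [0, 1, 1, 2, 2, 2, 3, 6, 6, 8, 8]), (2, [0, 0, 1, 2, 2, 2, 3, 3, 6, 6, 8, 8])],
    [(1, [5]), (1, [9]), (-1, [1, 6]), (1, [2, 5]), (-1, [1, 2, 6]), (1, [0, 2, 3, 6])]]
  rules := leafRules 4 [0, 1, 2, 3] (-1, []) (-1, [0, 1, 2, 3]) (1, []) (1, []) (1, [])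
  cut := 6
  A := [[(1, [])], [(1, [])], [(1, [])], [(1, [])]]
  B := [[(-1, [1, 4])], [(-1, [4])], [(1, [1, 4])], [(-1, [1, 4])]]

def cdD4_1 : CD where
  word := [0, 2, 3, 1, 0, 2, 3, 1, 0, 2, 3, 1, 1]
  t := [[(1, [])],
    [(1, [])],
    [(1, [])],
    [(-1, [6])],
    [(-1, [4]), (1, [6]), (1, [0, 6])],
    [(1, [4]), (1, [6]), (1, [2, 6])],
    [(1, [4]), (1, [6]), (1, [3, 6])],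
    [(-1, [4, 4]), (1, [4, 6]), (-1, [4, 7]), (1, [6, 6]), (1, [0, 4, 4]), (2, [0, 4, 6]), (1, [0, 6, 6]), (-1, [2, 4, 4]), (1, [2, 6, 6]), (-1, [3, 4, 4]), (1, [3, 6, 6]), (1, [0, 2, 4, 6]), (1, [0, 2, 6, 6]), (1, [0, 3, 4, 6]), (1, [0, 3, 6, 6]), (-1, [2, 3, 4, 6]), (1, [2, 3, 6, 6]), (1, [0, 2, 3, 6, 6])],
    [(-2, [4]), (-1, [6]), (-1, [7]), (-1, [2, 4]), (-1, [2, 6]), (-1, [3, 4]), (-1, [3, 6]), (-1, [2, 3, 6])],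
    [(-1, [6]), (1, [7]), (-1, [0, 4]), (-1, [0, 6]), (1, [3, 4]), (-1, [3, 6]), (-1, [0, 3, 6])],
    [(-1, [6]), (1, [7]), (-1, [0, 4]), (-1, [0, 6]), (1, [2, 4]), (-1, [2, 6]), (-1, [0, 2, 6])],
    [(1, [4]), (1, [6]), (-1, [7]), (2, [0, 4]), (1, [0, 6]), (1, [0, 7]), (1, [2, 6]), (-1, [2, 7]), (1, [3, 6]), (-1, [3, 7]), (2, [4, 8]), (1, [0, 2, 4]), (1, [0, 2, 6]), (1, [0, 3, 4]), (1, [0, 3, 6]), (-1, [2, 3, 4]), (1, [2, 3, 6]), (1, [5, 7, 7]), (1, [0, 2, 3, 6]), (-1, [4, 4, 4, 8])],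
    [(1, [9])]]
  rules := pathRules 4 [1] 1 (-1, []) (1, []) (1, []) (1, []) (1, [1])
  cut := 10
  A := [[], [(1, [8])], [], []]
  B := [[], [(-1, [0, 2, 3])], [], []]

def cdD4_2 : CD where
  word := [0, 2, 3, 1, 0, 2, 3, 1, 0, 2, 3, 1, 2]
  t := [[(1, [6])],
    [(1, [8])],
    [(-1, [4]), (-1, [5]), (1, [1, 6, 8]), (-1, [0, 2, 3, 6])],
    [(-1, [5]), (1, [1, 6, 8])],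
    [(1, [3]), (-1, [1, 8]), (-1, [5, 7]), (1, [0, 2, 3]), (-1, [0, 1, 2, 3, 4, 6, 8])],
    [(-1, [1, 6]), (-1, [5, 9]), (-1, [0, 1, 2, 3, 6, 6])],
    [(-1, []), (-1, [0])],
    [(1, [1]), (1, [0, 1]), (1, [3, 9]), (-1, [0, 1, 4]), (1, [0, 3, 5]), (1, [0, 3, 9]), (-1, [5, 7, 9]), (-1, [0, 1, 3, 6]), (1, [0, 2, 3, 4]), (1, [0, 2, 3, 9]), (-1, [0, 5, 7, 9]), (1, [0, 0, 2, 3, 4]), (1, [0, 0, 2, 3, 5]), (1, [0, 0, 2, 3, 9]), (1, [0, 1, 2, 3, 6]), (1, [0, 2, 3, 3, 6]), (1, [0, 0, 2, 3, 3, 6]), (1, [0, 1, 2, 3, 4, 6]), (1, [0, 0, 1, 2, 3, 4, 6]), (-1, [0, 0, 1, 2, 3, 6, 8]), (1, [0, 0, 2, 2, 3, 3, 6]), (-1, [0, 1, 2, 3, 4, 4, 6]), (1, [0, 0, 0, 2, 2, 3, 3, 6]), (-1, [0, 0, 1, 2, 3, 4, 4, 6])],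
    [(-1, [9]), (-1, [0, 5]), (-1, [0, 9]), (1, [0, 1, 6]), (-1, [0, 2, 3, 6]), (-1, [0, 0, 2, 3, 6])],
    [(1, [5]), (-1, [7]), (-1, [0, 7]), (1, [2, 4]), (-1, [3, 4]), (1, [0, 2, 4]), (1, [0, 2, 5]), (-1, [0, 3, 4]), (1, [2, 3, 6]), (1, [0, 1, 4, 8]), (-1, [0, 2, 3, 4]), (1, [0, 2, 3, 6]), (-1, [0, 3, 5, 8]), (-1, [0, 0, 2, 3, 4]), (-1, [0, 1, 2, 6, 8]), (1, [0, 1, 3, 6, 8]), (1, [0, 2, 2, 3, 6]), (-1, [0, 2, 3, 4, 8]), (1, [0, 0, 2, 2, 3, 6]), (-1, [0, 0, 2, 3, 4, 8]), (-1, [0, 0, 2, 3, 5, 8]), (-1, [0, 2, 3, 3, 6, 8]), (1, [0, 0, 1, 2, 3, 6, 8]), (-1, [0, 0, 2, 3, 3, 6, 8]), (1, [0, 0, 1, 2, 3, 6, 8, 8]), (-1, [0, 0, 2, 2, 3, 3, 6, 8]), (-1, [0, 0, 0, 2, 2, 3, 3, 6, 8])],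
    [(1, [1]), (-1, [1, 4]), (1, [3, 5]), (1, [3, 9]), (-1, [1, 3, 6]), (-1, [5, 7, 9]), (1, [0, 2, 3, 4]), (1, [0, 2, 3, 5]), (1, [0, 2, 3, 9]), (1, [0, 2, 3, 3, 6]), (1, [0, 1, 2, 3, 4, 6]), (-1, [0, 1, 2, 3, 6, 8]), (1, [0, 0, 2, 2, 3, 3, 6]), (-1, [0, 1, 2, 3, 4, 4, 6])],
    [(1, [3]), (-1, [0, 1]), (-1, [0, 2]), (2, [0, 3]), (1, [5, 5]), (1, [5, 9]), (-1, [7, 9]), (-1, [0, 1, 4]), (-1, [0, 1, 8]), (2, [0, 2, 3]), (1, [0, 3, 5]), (-1, [0, 5, 7]), (-1, [0, 7, 9]), (1, [1, 4, 4]), (-1, [1, 5, 6]), (1, [2, 4, 9]), (-1, [3, 4, 9]), (3, [0, 0, 2, 3]), (1, [0, 1, 2, 6]), (-1, [0, 1, 3, 6]), (2, [0, 1, 4, 4]), (1, [0, 2, 3, 4]), (1, [0, 2, 4, 9]), (1, [0, 2, 5, 5]), (1, [0, 2, 5, 9]), (-1, [0, 3, 4, 9]), (-1,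 [1, 2, 4, 6]), (1, [1, 3, 4, 6]), (1, [2, 3, 5, 6]), (1, [2, 3, 6, 9]), (1, [0, 0, 2, 3, 4]), (1, [0, 0, 2, 3, 5]), (1, [0, 0, 2, 3, 8]), (-2, [0, 1, 2, 4, 6]), (-1, [0, 1, 2, 5, 6]), (2, [0, 1, 3, 4, 6]), (1, [0, 2, 3, 3, 6]), (-2, [0, 2, 3, 4, 4]), (-1, [0, 2, 3, 4, 9]), (2, [0, 2, 3, 5, 6]), (1, [0, 2, 3, 6, 9]), (-1, [0, 3, 5, 5, 8]), (-1, [1, 2, 3, 6, 6]), (-1, [0, 0, 1, 2, 3, 6]), (1, [0, 0, 2, 3, 3, 6]), (-2, [0, 0, 2, 3, 4, 4]), (-1, [0, 0, 2, 3, 4, 9]), (-1, [0, 1, 1, 4, 6, 8]), (1, [0, 1, 2, 3, 4, 6]), (-1, [0, 1, 2, 3, 6, 6]), (-1, [0, 1, 2, 5, 6, 8]), (2, [0, 1, 3, 5, 6, 8]), (1, [0, 2, 2, 3, 4, 6]), (1, [0, 2, 2, 3, 5, 6]), (1, [0, 2, 2, 3, 6, 9]), (-2, [0, 2, 3, 3, 4, 6]), (2, [0, 0, 1, 2, 3,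 4, 6]), (-1, [0, 0, 1, 2, 3, 6, 8]), (1, [0, 0, 2, 2, 3, 3, 6]), (1, [0, 0, 2, 2, 3, 4, 6]), (2, [0, 0, 2, 2, 3, 5, 6]), (1, [0, 0, 2, 2, 3, 6, 9]), (-2, [0, 0, 2, 3, 3, 4, 6]), (-1, [0, 0, 2, 3, 5, 5, 8]), (1, [0, 1, 1, 2, 6, 6, 8]), (-1, [0, 1, 1, 3, 6, 6, 8]), (-1, [0, 1, 2, 2, 3, 6, 6]), (2, [0, 1, 2, 3, 4, 6, 8]), (1, [0, 2, 2, 3, 3, 6, 6]), (-1, [0, 2, 3, 3, 5, 6, 8]), (1, [0, 0, 0, 2, 2, 3, 3, 6]), (-1, [0, 0, 1, 2, 2, 3, 6, 6]), (3, [0, 0, 1, 2, 3, 4, 6, 8]), (2, [0, 0, 1, 2, 3, 5, 6, 8]), (-2, [0, 0, 2, 2, 3, 3, 4, 6]), (1, [0, 0, 2, 2, 3, 3, 6, 6]), (-2, [0, 0, 2, 3, 3, 5, 6, 8]), (-1, [0, 1, 2, 2, 3, 6, 6, 8]), (2, [0, 1, 2, 3, 3, 6, 6, 8]), (-2, [0, 0, 0, 2, 2, 3, 3, 4, 6]), (-1, [0, 0, 1, 1, 2,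 3, 6, 6, 8]), (-2, [0, 0, 1, 2, 2, 3, 6, 6, 8]), (4, [0, 0, 1, 2, 3, 3, 6, 6, 8]), (1, [0, 0, 1, 2, 3, 5, 6, 8, 8]), (1, [0, 0, 2, 2, 2, 3, 3, 6, 6]), (-1, [0, 0, 2, 2, 3, 3, 4, 6, 8]), (-1, [0, 0, 2, 2, 3, 3, 5, 6, 8]), (1, [0, 0, 0, 2, 2, 2, 3, 3, 6, 6]), (-1, [0, 0, 0, 2, 2, 3, 3, 4, 6, 8]), (-2, [0, 0, 0, 2, 2, 3, 3, 5, 6, 8]), (-2, [0, 0, 1, 1, 2, 3, 6, 6, 8, 8]), (2, [0, 0, 1, 2, 2, 3, 3, 6, 6, 8]), (-1, [0, 0, 2, 2, 3, 3, 3, 6, 6, 8]), (4, [0, 0, 0, 1, 2, 2, 3, 3, 6, 6, 8]), (-1, [0, 0, 0, 2, 2, 3, 3, 3, 6, 6, 8]), (1, [0, 0, 1, 2, 2, 3, 3, 6, 6, 8, 8]), (2, [0, 0, 0, 1, 2, 2, 3, 3, 6, 6, 8, 8]), (-1, [0, 0, 0, 2, 2, 2, 3, 3, 3, 6, 6, 8]), (-1, [0, 0, 0, 0, 2, 2, 2, 3, 3, 3, 6, 6, 8])],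
    [(-1, [5]), (-1, [9]), (1, [1, 6]), (-1, [0, 2, 3, 6])]]
  rules := leafRules 4 [0, 1, 2, 3] (-1, []) (-1, [0, 1, 2, 3]) (1, []) (1, []) (-1, [])
  cut := 9
  A := [[(1, [])], [(1, [])], [(1, [])], [(1, [])]]
  B := [[(1, [1, 4])], [(1, [4])], [(-1, [1, 4])], [(1, [1, 4])]]

def cdD4_3 : CD where
  word := [0, 2, 3, 1, 0, 2, 3, 1, 0, 2, 3, 1, 3]
  t := [[(1, [4]), (1, [5]), (1, [2, 4]), (-1, [1, 6, 8]), (1, [0, 2, 3, 6]), (-1, [1, 2, 6, 8])],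
    [(1, [6])],
    [(1, [8])],
    [(-1, [4]), (1, [1, 6, 8])],
    [(1, [])],
    [(-1, [0]), (-1, [1, 8]), (-1, [5, 7]), (1, [0, 2, 3]), (-1, [0, 1, 2, 3, 4, 6, 8])],
    [(1, [9]), (-1, [1, 6])],
    [(-1, [1]), (1, [0, 2, 4]), (1, [0, 5, 9]), (1, [1, 2, 5]), (-1, [0, 1, 2, 6]), (-1, [0, 2, 3, 5]), (1, [5, 5, 7, 9]), (1, [0, 0, 2, 3, 6]), (-2, [0, 1, 2, 3, 6]), (-1, [0, 2, 2, 3, 4]), (-1, [0, 2, 3, 5, 9]), (1, [0, 1, 2, 2, 3, 6]), (-2, [0, 1, 2, 3, 4, 6]), (-1, [0, 1, 2, 3, 5, 6]), (1, [0, 0, 1, 2, 3, 6, 6]), (-1, [0, 0, 2, 2, 3, 3, 6]), (1, [0, 1, 2, 2, 3, 6, 8]), (-1, [0, 0, 1, 2, 2, 3, 3, 6, 6]), (-1, [0, 0, 1, 1, 2, 2, 3, 3, 6, 6, 6, 8]), (-1, [0, 0, 1, 1, 2, 2, 3, 3, 4, 6, 6, 6, 8])],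
    [(1, [1]), (-1, [0, 4]), (-1, [1, 5]), (1, [0, 1, 6]), (-1, [0, 2, 4]), (-1, [0, 5, 9]), (-1, [1, 2, 5]), (1, [0, 1, 2, 6]), (1, [0, 2, 3, 4]), (1, [0, 2, 3, 5]), (-1, [5, 5, 7, 9]), (-1, [0, 0, 2, 3, 6]), (1, [0, 1, 2, 3, 6]), (1, [0, 2, 2, 3, 4]), (1, [0, 2, 3, 5, 9]), (-1, [0, 1, 2, 2, 3, 6]), (2, [0, 1, 2, 3, 4, 6]), (1, [0, 1, 2, 3, 5, 6]), (-1, [0, 1, 2, 3, 6, 8]), (-1, [0, 0, 1, 2, 3, 6, 6]), (1, [0, 0, 2, 2, 3, 3, 6]), (-1, [0, 1, 2, 2, 3, 6, 8]), (1, [0, 0, 1, 2, 2, 3, 3, 6, 6]), (1, [0, 0, 1, 1, 2, 2, 3, 3, 6, 6, 6, 8]), (1, [0, 0, 1, 1, 2, 2, 3, 3, 4, 6, 6, 6, 8])],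
    [(1, [2, 4]), (1, [5, 9]), (-1, [1, 2, 6]), (1, [0, 2, 3, 6]), (1, [0, 1, 2, 3, 6, 6])],
    [(-1, [4]), (-1, [0, 5]), (1, [3, 5]), (-1, [0, 3, 6]), (1, [2, 3, 4]), (-1, [5, 5, 7]), (1, [0, 2, 3, 5]), (-1, [0, 2, 4, 8]), (-1, [1, 2, 5, 8]), (1, [0, 1, 2, 6, 8]), (1, [0, 2, 3, 3, 6]), (1, [0, 2, 3, 5, 8]), (-1, [1, 2, 3, 6, 8]), (-1, [0, 0, 2, 3, 6, 8]), (2, [0, 1, 2, 3, 6, 8]), (1, [0, 2, 2, 3, 4, 8]), (-1, [0, 1, 2, 2, 3, 6, 8]), (1, [0, 0, 2, 2, 3, 3, 6, 8]), (-1, [0, 1, 2, 2, 3, 6, 8, 8]), (1, [0, 0, 1, 1, 2, 2, 3, 3, 6, 6, 6, 8, 8])],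
    [(1, [0]), (1, [9]), (2, [0, 2]), (1, [1, 2]), (-1, [2, 3]), (-1, [4, 4]), (-2, [0, 2, 3]), (1, [0, 2, 4]), (1, [1, 2, 5]), (1, [1, 2, 8]), (1, [1, 4, 6]), (-1, [1, 5, 5]), (-1, [2, 3, 9]), (-1, [2, 4, 4]), (1, [2, 5, 7]), (-1, [0, 1, 2, 6]), (1, [0, 1, 5, 6]), (-2, [0, 2, 2, 3]), (-1, [0, 2, 3, 5]), (-1, [0, 3, 4, 6]), (-1, [0, 5, 5, 9]), (1, [1, 2, 2, 8]), (1, [1, 2, 3, 6]), (1, [1, 2, 4, 6]), (-2, [1, 2, 5, 5]), (-1, [1, 3, 5, 6]), (1, [2, 3, 4, 4]), (1, [3, 5, 5, 9]), (1, [0, 0, 2, 3, 6]), (-3, [0, 1, 2, 3, 6]), (2, [0, 1, 2, 5, 6]), (1, [0, 1, 3, 6, 6]), (-1, [0, 2, 2, 3, 4]), (-1, [0, 2, 2, 3, 8]), (-2, [0, 2, 3, 4, 6]), (2, [0, 2, 3, 5, 5]), (-1, [0, 2, 4, 4, 8]), (-1, [0, 3, 5, 6, 9]), (-1, [1,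 2, 3, 4, 6]), (-2, [1, 2, 3, 5, 6]), (1, [2, 2, 3, 4, 4]), (-1, [5, 5, 5, 7, 9]), (-2, [0, 0, 2, 3, 5, 6]), (1, [0, 1, 2, 2, 3, 6]), (1, [0, 1, 2, 3, 5, 6]), (2, [0, 1, 2, 3, 6, 6]), (2, [0, 1, 2, 4, 6, 8]), (-1, [0, 2, 2, 4, 4, 8]), (1, [0, 2, 3, 3, 4, 6]), (1, [0, 2, 3, 3, 5, 6]), (1, [0, 2, 3, 5, 5, 9]), (1, [1, 1, 2, 5, 6, 8]), (-1, [1, 2, 2, 3, 4, 6]), (-1, [1, 2, 3, 4, 6, 8]), (-1, [0, 0, 2, 2, 3, 3, 6]), (-1, [0, 0, 2, 3, 3, 6, 6]), (-1, [0, 0, 2, 3, 4, 6, 8]), (-1, [0, 1, 1, 2, 6, 6, 8]), (-2, [0, 1, 2, 2, 3, 5, 6]), (1, [0, 1, 2, 2, 3, 6, 8]), (2, [0, 1, 2, 2, 4, 6, 8]), (-1, [0, 1, 2, 3, 3, 6, 6]), (1, [0, 1, 2, 3, 5, 5, 6]), (-2, [0, 1, 2, 3, 5, 6, 8]), (2, [0, 2, 2, 3, 3, 4, 6]), (1, [0, 2, 2,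 3, 4, 4, 8]), (1, [0, 2, 3, 3, 5, 6, 9]), (1, [1, 1, 2, 2, 5, 6, 8]), (1, [1, 1, 2, 3, 6, 6, 8]), (-1, [1, 2, 2, 3, 4, 6, 8]), (-1, [0, 0, 1, 2, 3, 5, 6, 6]), (2, [0, 0, 1, 2, 3, 6, 6, 8]), (2, [0, 0, 2, 2, 3, 3, 5, 6]), (-2, [0, 0, 2, 2, 3, 4, 6, 8]), (-1, [0, 1, 1, 2, 2, 6, 6, 8]), (-2, [0, 1, 2, 2, 3, 3, 6, 6]), (-1, [0, 1, 2, 2, 3, 4, 6, 8]), (-4, [0, 1, 2, 2, 3, 5, 6, 8]), (1, [0, 1, 2, 3, 3, 5, 6, 6]), (-1, [0, 1, 2, 3, 3, 6, 6, 8]), (1, [0, 2, 2, 2, 3, 4, 4, 8]), (1, [1, 1, 2, 2, 3, 6, 6, 8]), (4, [0, 0, 1, 2, 2, 3, 6, 6, 8]), (-1, [0, 0, 1, 2, 3, 3, 6, 6, 6]), (1, [0, 0, 2, 2, 3, 3, 3, 6, 6]), (1, [0, 0, 2, 2, 3, 3, 4, 6, 8]), (1, [0, 0, 2, 2, 3, 3, 5, 6, 8]), (1, [0, 1, 1, 2, 2, 3, 6, 6, 8]), (-2,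 [0, 1, 2, 2, 2, 3, 4, 6, 8]), (-2, [0, 1, 2, 2, 3, 3, 6, 6, 8]), (-1, [0, 1, 2, 2, 3, 4, 6, 8, 8]), (-1, [0, 0, 0, 2, 2, 3, 3, 6, 6, 8]), (1, [0, 0, 1, 2, 2, 3, 3, 5, 6, 6]), (-2, [0, 0, 1, 2, 2, 3, 3, 6, 6, 8]), (2, [0, 0, 2, 2, 2, 3, 3, 4, 6, 8]), (1, [0, 1, 1, 2, 2, 2, 3, 6, 6, 8]), (2, [0, 1, 1, 2, 2, 3, 6, 6, 8, 8]), (-1, [0, 1, 2, 2, 2, 3, 4, 6, 8, 8]), (-4, [0, 0, 1, 2, 2, 2, 3, 3, 6, 6, 8]), (1, [0, 0, 1, 2, 2, 3, 3, 3, 6, 6, 6]), (-1, [0, 0, 1, 2, 2, 3, 3, 6, 6, 8, 8]), (2, [0, 1, 1, 2, 2, 2, 3, 6, 6, 8, 8]), (1, [0, 0, 0, 2, 2, 2, 3, 3, 3, 6, 6, 8]), (-3, [0, 0, 1, 1, 2, 2, 3, 3, 6, 6, 6, 8]), (-2, [0, 0, 1, 2, 2, 2, 3, 3, 6, 6, 8, 8]), (1, [0, 0, 1, 1, 2, 2, 3, 3, 5, 6, 6, 6, 8]), (-1, [0, 0, 0,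 1, 1, 1, 2, 2, 2, 3, 3, 3, 6, 6, 6, 6, 6, 8, 8])],
    [(-1, [4]), (1, [1, 6]), (-1, [2, 4]), (-1, [5, 9]), (1, [1, 2, 6]), (-1, [0, 2, 3, 6]), (-1, [0, 1, 2, 3, 6, 6])]]
  rules := leafRules 4 [0, 1, 2, 3] (-1, []) (-1, [0, 1, 2, 3]) (1, []) (1, []) (1, [])
  cut := 9
  A := [[(1, [4])], [(1, [4])], [(1, [4])], [(1, [4])]]
  B := [[(1, [1])], [(1, [])], [(1, [1])], [(-1, [1])]]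

end Pool.Agent.Lib.MP_755cca_al.F
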