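import Pool.Agent.Lib.MP_755cca_al.F.CoreD

/-! Chain parameters. -/

namespace Pool.Agent.Lib.MP_755cca_al.F

def cdG2_0 : CD where
  word := [0, 1, 0, 1, 0, 1, 0]
  t := [[(1, [4])],
    [(1, [2, 2, 2]), (1, [4, 4, 4])],
    [(-1, [2, 5]), (-1, [4, 4])],
    [(-3, [2]), (2, [2, 2, 2]), (1, [4, 4, 4]), (1, [5, 5, 5])],
    [(1, [4]), (-2, [2, 6]), (-1, [3, 5, 5]), (1, [2, 2, 2, 6])],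
    [(-1, []), (1, [1]), (-3, [2, 5, 6]), (-6, [3, 5, 6]), (-1, [6, 6, 6]), (-3, [2, 4, 6, 6]), (-3, [3, 4, 6, 6]), (3, [2, 2, 2, 4, 6, 6]), (1, [3, 3, 3, 5, 5, 5]), (3, [2, 4, 4, 4, 6, 6, 6]), (-1, [2, 2, 2, 4, 4, 4, 6, 6, 6])],
    [(1, [7]), (2, [4, 6]), (-1, [2, 6, 6]), (1, [3, 3, 5]), (-1, [4, 4, 4, 6, 6])]]
  rules := pathRules 2 [0] 1 (-1, []) (1, []) (1, []) (1, [1]) (-1, [0])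
  cut := 6
  A := [[(1, [6])], []]
  B := [[(1, [1])], []]

def cdG2_1 : CD where
  word := [0, 1, 0, 1, 0, 1, 1]
  t := [[(1, [])],
    [(3, [0, 5]), (-2, [2, 6]), (3, [0, 0, 2]), (-1, [3, 5, 5]), (1, [0, 0, 0, 4]), (1, [2, 2, 2, 6])],
    [(1, [5]), (2, [0, 2]), (-3, [0, 5]), (2, [2, 6]), (-3, [0, 0, 2]), (1, [0, 0, 4]), (1, [3, 5, 5]), (-1, [0, 0, 0, 4]), (-1, [2, 2, 2, 6])],
    [(-6, [0, 0]), (6, [0, 6]), (-1, [2, 5]), (3, [5, 5]), (4, [6, 6]), (12, [0, 0, 0]), (-6, [0, 0, 6]), (-3, [0, 2, 2]), (12, [0, 2, 5]), (-15, [0, 5, 5]), (6, [2, 5, 6]), (-4, [5, 5, 6]), (-6, [0, 0, 0, 0]), (18, [0, 0, 2, 2]), (-3, [0, 0, 2, 4]), (-30, [0, 0, 2, 5]), (-3, [0, 0, 3, 5]), (15, [0, 0, 5, 5]), (-12, [0, 2, 5, 6]), (-6, [2, 2, 6, 6]), (3, [3, 5, 5, 5]), (-30, [0, 0, 0,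 2, 2]), (12, [0, 0, 0, 2, 4]), (20, [0, 0, 0, 2, 5]), (2, [0, 0, 0, 3, 5]), (-1, [0, 0, 0, 4, 4]), (3, [0, 0, 2, 4, 6]), (-6, [0, 3, 5, 5, 5]), (-3, [2, 2, 2, 5, 6]), (2, [2, 2, 5, 5, 6]), (15, [0, 0, 0, 0, 2, 2]), (-15, [0, 0, 0, 0, 2, 4]), (3, [0, 0, 0, 0, 4, 4]), (-2, [0, 0, 0, 2, 4, 6]), (6, [0, 2, 2, 2, 5, 6]), (4, [2, 2, 2, 2, 6, 6]), (1, [3, 3, 5, 5, 5, 5]), (6, [0, 0, 0, 0, 0, 2, 4]), (-3, [0, 0, 0, 0, 0, 4, 4]), (1, [0, 0, 0, 0, 0, 0, 4, 4]), (-1, [2, 2, 2, 2, 2, 2, 6, 6])],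
    [(1, [2]), (-2, [5]), (-4, [0, 2]), (1, [0, 4]), (3, [0, 5]), (-2, [2, 6]), (3, [0, 0, 2]), (-2, [0, 0, 4]), (-1, [3, 5, 5]), (1, [0, 0, 0, 4]), (1, [2, 2, 2, 6])],
    [(-3, [2]), (1, [4]), (3, [5]), (6, [0, 2]), (-3, [0, 4]), (-3, [0, 5]), (2, [2, 6]), (-3, [0, 0, 2]), (3, [0, 0, 4]), (1, [3, 5, 5]), (-1, [0, 0, 0, 4]), (-1, [2, 2, 2, 6])],
    [(-1, [5]), (-3, [0, 2]), (-1, [3, 7]), (-3, [0, 0, 4]), (-1, [1, 4, 4])]]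
  rules := pathRules 2 [0, 1] 1 (-1, []) (1, []) (1, []) (-1, [1]) (1, [0, 0, 0])
  cut := 6
  A := [[(1, [])], [(1, [6])]]
  B := [[(1, [6])], [(1, [0, 0, 0])]]

end Pool.Agent.Lib.MP_755cca_al.F
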