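import Pool.Agent.Lib.MP_755cca_al.F.Main

/-! Chains of simple root elements and reflections along powers of the base word. -/

open Matrix
open scoped Pointwise

namespace Pool.Agent.Lib.MP_755cca_al.F

/-- product of `x (s i) t * nn i` along a list -/
def Sys.chain (S : Sys) (l : List (Fin S.r × ℤ)) : S.Mat ℤ :=
  (l.map fun e => S.x ℤ (S.s e.1) e.2 * S.nn ℤ e.1).prod

namespace Ch

variable {S : Sys}

theorem chain_nil : S.chain [] = 1 := rfl

theorem chain_cons (e : Fin S.r × ℤ) (l : List (Fin S.r × ℤ)) :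
    S.chain (e :: l) = S.x ℤ (S.s e.1) e.2 * S.nn ℤ e.1 * S.chain l := by
  simp [Sys.chain]

theorem chain_append (l l' : List (Fin S.r × ℤ)) :
    S.chain (l ++ l') = S.chain l * S.chain l' := by
  simp [Sys.chain]

theorem x_U (a : Fin S.N) (t : ℤ) : S.x ℤ a t ∈ S.U ℤ := Submonoid.subset_closure ⟨a, t, rfl⟩

theorem nw_snoc (w : List (Fin S.r)) (j : Fin S.r) :
    S.nw ℤ (w ++ [j]) = S.nw ℤ w * S.nn ℤ j := by
  simp [Sys.nw]

/-- along a reduced word the root elements move to the left -/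
theorem chain_red (hw : S.Wrd) : ∀ (l : List (Fin S.r × ℤ)) (w : List (Fin S.r)),
    S.Red (w ++ l.map Prod.fst) →
      ∃ u ∈ S.U ℤ, S.nw ℤ w * S.chain l = u * S.nw ℤ (w ++ l.map Prod.fst)
  | [], w, _ => ⟨1, one_mem _, by simp [chain_nil]⟩
  | (j, t) :: l, w, h => by
    have up : S.up (S.pw w) j := h w j (l.map Prod.fst) rfl
    have pos := (hw.up_iff w j).1 up
    obtain ⟨e, -, he⟩ := hw.conj_w w (S.s j, true)
    have e1 := he ℤ t
    have e2 : S.xs ℤ (S.actw w (S.s j, true)) (e * t) ∈ S.U ℤ := by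
      unfold Sys.xs
      rw [if_pos pos]
      exact x_U _ _
    have e3 : S.xs ℤ (S.s j, true) t = S.x ℤ (S.s j) t := rfl
    have h' : S.Red ((w ++ [j]) ++ l.map Prod.fst) := by
      rw [List.append_assoc]; exact h
    obtain ⟨u, hu, e4⟩ := chain_red hw l (w ++ [j]) h'
    refine ⟨_ * u, mul_mem e2 hu, ?_⟩
    rw [chain_cons, ← mul_assoc, ← mul_assoc, ← e3, e1, mul_assoc _ (S.nw ℤ w), ← nw_snoc,
      mul_assoc, e4, List.append_assoc, mul_assoc]
    rfl

theorem chain_base (ha : S.Ax) (hw : S.Wrd) (l : List (Fin S.r × ℤ))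
    (hl : l.map Prod.fst = S.base) : ∃ u ∈ S.U ℤ, S.chain l = u * S.n0 ℤ := by
  obtain ⟨u, hu, e⟩ := chain_red hw l [] (by rw [List.nil_append, hl]; exact ha.base_red)
  refine ⟨u, hu, ?_⟩
  rw [List.nil_append, hl] at e
  simpa [Sys.nw, Sys.n0] using e

theorem chain_th (ha : S.Ax) (hw : S.Wrd) (i : Fin S.r) : ∀ (k : ℕ) (l : List (Fin S.r × ℤ)),
    l.map Prod.fst = (List.replicate k S.base).flatten ++ [i] →
      ∃ y ∈ S.Th k, S.chain l = y * S.nn ℤ i
  | 0, l, hl => by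
    obtain ⟨⟨j, t⟩, rfl, rfl⟩ : ∃ e, l = [e] ∧ e.1 = i := by
      simpa using hl
    exact ⟨_, Mn.th_zero.2 (x_U (S.s j) t), by simp [Sys.chain]⟩
  | k + 1, l, hl => by
    rw [List.replicate_succ, List.flatten_cons, List.append_assoc] at hl
    obtain ⟨l₁, l₂, rfl, h₁, h₂⟩ := List.map_eq_append_iff.1 hl
    obtain ⟨u, hu, e₁⟩ := chain_base ha hw l₁ h₁
    obtain ⟨y, hy, e₂⟩ := chain_th ha hw i k l₂ h₂
    exact ⟨_, Mn.th_cons hu hy, by rw [chain_append, e₁, e₂, mul_assoc _ y]⟩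

end Ch

/-- a chain along `base ^ k ++ [i]`, after `n₀`, lies in `Th (k + 1) nn i` -/
theorem chain_mem {S : Sys} (ha : S.Ax) (_hb : S.Bas) (hw : S.Wrd) (k : ℕ) (i : Fin S.r)
    (l : List (Fin S.r × ℤ))
    (hl : l.map Prod.fst = (List.replicate k S.base).flatten ++ [i]) :
    S.n0 ℤ * S.chain l ∈ S.Th (k + 1) * {S.nn ℤ i} := by
  obtain ⟨y, hy, e⟩ := Ch.chain_th ha hw i k l hl
  have := Mn.th_cons (S.U ℤ).one_mem hy
  rw [one_mul] at this
  rw [e, ← mul_assoc]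
  exact Set.mul_mem_mul this rfl

end Pool.Agent.Lib.MP_755cca_al.F
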