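import Pool.Agent.Lib.MP_755cca_al.F.ChkE0
import Pool.Agent.Lib.MP_755cca_al.F.Tab

/-! The axioms on single matrices for the eight tables. -/

namespace Pool.Agent.Lib.MP_755cca_al.F

theorem axE_A2 : datA2.toSys.AxE := datA2.axE (by decide +kernel)

theorem axE_A3 : datA3.toSys.AxE := datA3.axE (by decide +kernel)

theorem axE_A5 : datA5.toSys.AxE := datA5.axE (by decide +kernel)

theorem axE_C2 : datC2.toSys.AxE := datC2.axE (by decide +kernel)

theorem axE_C3 : datC3.toSys.AxE := datC3.axE (by decide +kernel)

theorem axE_B3 : datB3.toSys.AxE := datB3.axE (by decide +kernel)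

theorem axE_D4 : datD4.toSys.AxE := datD4.axE (by decide +kernel)

theorem axE_G2 : datG2.toSys.AxE := datG2.axE (by decide +kernel)

end Pool.Agent.Lib.MP_755cca_al.F
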