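import Pool.Agent.Lib.MP_755cca_al.F.Dat

/-! The axioms on single matrices: statement and evaluation lemmas. -/

open Matrix

namespace Pool.Agent.Lib.MP_755cca_al.F

/-- the fields of the axioms without products of matrices -/
structure Sys.AxE (S : Sys) : Prop where
  nat_x : ∀ (R R' : Type) [CommRing R] [CommRing R'] (f : R →+* R') a t,
    (S.x R a t).map f = S.x R' a (f t)
  nat_p : ∀ (R R' : Type) [CommRing R] [CommRing R'] (f : R →+* R') i a b c d,
    (S.p R i a b c d).map f = S.p R' i (f a) (f b) (f c) (f d)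
  x_zero : ∀ (R : Type) [CommRing R] a, S.x R a 0 = 1
  p_one : ∀ (R : Type) [CommRing R] i, S.p R i 1 0 0 1 = 1
  p_up : ∀ (R : Type) [CommRing R] i t, S.p R i 1 t 0 1 = S.x R (S.s i) t
  p_tr : ∀ (R : Type) [CommRing R] i a b c d, (S.p R i a b c d)ᵀ = S.p R i a c b d
  tor_diag : ∀ (R : Type) [CommRing R] i u v, (S.p R i u 0 0 v).IsDiag
  tor_C : ∀ (R : Type) [CommRing R] i k u v, u * v = 1 →
    ∏ j, S.p R i u 0 0 v (S.Cl k j) (S.Cl k j) = if i = k then u else 1
  tri : ∀ (R : Type) [CommRing R] a t b c, c < b → S.x R a t b c = 0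
  diag : ∀ (R : Type) [CommRing R] a t b, S.x R a t b b = 1
  mono : ∀ i c, ∃ e : ℤ, e * e = 1 ∧ ∀ b, S.nn ℤ i b c = if b = S.sg i c then e else 0
  ent_s : ∀ i, ∃ e : ℤ, e * e = 1 ∧ ∀ (R : Type) [CommRing R] t,
    S.x R (S.s i) t (S.A i) (S.B i) = e * t
  ent_ne : ∀ (R : Type) [CommRing R] i a t, a ≠ S.s i → S.x R a t (S.A i) (S.B i) = 0
  Cl_cl : ∀ (R : Type) [CommRing R] k a t j b, (∀ j', S.Cl k j' ≠ b) → S.x R a t b (S.Cl k j) = 0
  Rw_cl : ∀ (R : Type) [CommRing R] k a t j c, (∀ j', S.Rw k j' ≠ c) → S.x R a t (S.Rw k j) c = 0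
  R1_cl : ∀ (R : Type) [CommRing R] k a t c, (∀ j', S.Rw k j' ≠ c) → c ≠ S.R1 k →
    S.x R a t (S.R1 k) c = 0

namespace CE

variable {R : Type} [CommRing R] {n : ℕ}

theorem ev_nil (v : ℕ → R) (b c : Fin n) : SM.ev n v [] b c = 0 := rfl

theorem ev_cons (v : ℕ → R) (e : ℕ × ℕ × ℤ × List ℕ) (A : SM) (b c : Fin n) :
    SM.ev n v (e :: A) b c =
      (if e.1 = b.val ∧ e.2.1 = c.val then (e.2.2.1 : R) * (e.2.2.2.map v).prod else 0) +
        SM.ev n v A b c := by
  simp [SM.ev]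

theorem ev_map {R' : Type} [CommRing R'] (f : R →+* R') (v : ℕ → R) (A : SM) :
    (SM.ev n v A).map f = SM.ev n (fun k => f (v k)) A := by
  ext b c
  rw [map_apply]
  induction A with
  | nil => simp [ev_nil]
  | cons e A ih =>
    rw [ev_cons, ev_cons, map_add, ih]
    congr 1
    split_ifs
    · rw [map_mul, map_intCast, map_list_prod, List.map_map]; rfl
    · exact map_zero f

theorem ev_zero (v : ℕ → R) (A : SM) (b c : Fin n)
    (h : ∀ e ∈ A, e.1 = b.val → e.2.1 = c.val → (e.2.2.2.map v).prod = 0) :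
    SM.ev n v A b c = 0 := by
  induction A with
  | nil => rfl
  | cons e A ih =>
    rw [ev_cons, ih fun e he => h e (List.mem_cons_of_mem _ he), add_zero]
    split_ifs with h1
    · rw [h e List.mem_cons_self h1.1 h1.2, mul_zero]
    · rfl

theorem ev_perm (v : ℕ → R) {A B : SM} (h : A.Perm B) : SM.ev n v A = SM.ev n v B := by
  ext b c
  exact (h.map _).sum_eq

/-- the terms at a position -/
def ent (A : SM) (b c : ℕ) : SM := A.filter fun e => e.1 = b ∧ e.2.1 = c

theorem ev_ent (v : ℕ → R) (A : SM) (b c : Fin n) :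
    SM.ev n v A b c = SM.ev n v (ent A b c) b c := by
  induction A with
  | nil => rfl
  | cons e A ih =>
    rw [ev_cons, ih, ent, ent, List.filter_cons]
    by_cases h : e.1 = b.val ∧ e.2.1 = c.val
    · rw [if_pos (decide_eq_true h), ev_cons]
    · rw [if_neg h, if_neg (by simpa using h), zero_add]

theorem ev_one (v : ℕ → R) {A : SM} {b c : Fin n} {z : ℤ} {m : List ℕ}
    (h : ent A b c = [(b.val, c.val, z, m)]) : SM.ev n v A b c = z * (m.map v).prod := by
  rw [ev_ent, h, ev_cons, ev_nil]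
  simp

/-- substitution of monomials or zero in a monomial -/
def msub (σ : ℕ → Option (List ℕ)) : List ℕ → Option (List ℕ)
  | [] => some []
  | k :: m => (σ k).bind fun l => (msub σ m).map fun l' => l ++ l'

/-- value of a monomial or zero -/
def oval (v : ℕ → R) (o : Option (List ℕ)) : R := o.elim 0 fun l => (l.map v).prod

theorem msub_val {σ : ℕ → Option (List ℕ)} {v w : ℕ → R} (h : ∀ k, v k = oval w (σ k))
    (m : List ℕ) : (m.map v).prod = oval w (msub σ m) := by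
  induction m with
  | nil => simp [msub, oval]
  | cons k m ih =>
    rw [List.map_cons, List.prod_cons, ih, h, msub]
    cases σ k <;> cases msub σ m <;> simp [oval]

/-- substitution in a sparse matrix, with sorted monomials -/
def sub (σ : ℕ → Option (List ℕ)) (A : SM) : SM :=
  A.filterMap fun e => (msub σ e.2.2.2).map fun m =>
    (e.1, e.2.1, e.2.2.1, m.insertionSort (· ≤ ·))

theorem ev_sub {σ : ℕ → Option (List ℕ)} {v w : ℕ → R} (h : ∀ k, v k = oval w (σ k)) (A : SM) :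
    SM.ev n v A = SM.ev n w (sub σ A) := by
  ext b c
  induction A with
  | nil => rfl
  | cons e A ih =>
    rw [ev_cons, ih, msub_val h, sub, sub, List.filterMap_cons]
    cases msub σ e.2.2.2 with
    | none => simp [oval]
    | some m =>
      simp only [Option.map_some, ev_cons, oval, Option.elim_some]
      rw [((List.perm_insertionSort (· ≤ ·) m).map w).prod_eq]

/-- transposed sparse matrix -/
def tr (A : SM) : SM := A.map fun e => (e.2.1, e.1, e.2.2)

theorem ev_tr (v : ℕ → R) (A : SM) : (SM.ev n v A)ᵀ = SM.ev n v (tr A) := by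
  ext b c
  rw [transpose_apply]
  induction A with
  | nil => rfl
  | cons e A ih =>
    rw [tr, List.map_cons, ev_cons, ev_cons, ih, tr]
    simp only [and_comm]

/-- the valuation of the four entries -/
def v4 (a b c d : R) : ℕ → R := fun k => [a, b, c, d].getD k 0

/-- upper unitriangular element -/
def sU : ℕ → Option (List ℕ)
  | 0 => some []
  | 1 => some [0]
  | 3 => some []
  | _ => none

/-- exchange of the two middle entries -/
def sT : ℕ → Option (List ℕ)
  | 1 => some [2]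
  | 2 => some [1]
  | k => some [k]

/-- diagonal element -/
def sD : ℕ → Option (List ℕ)
  | 0 => some [0]
  | 3 => some [3]
  | _ => none

theorem v4_U (t : R) : ∀ k, v4 1 t 0 1 k = oval (fun _ => t) (sU k)
  | 0 => by simp [v4, oval, sU]
  | 1 => by simp [v4, oval, sU]
  | 2 => by simp [v4, oval, sU]
  | 3 => by simp [v4, oval, sU]
  | _ + 4 => by simp [v4, oval, sU]

theorem v4_T (a b c d : R) : ∀ k, v4 a c b d k = oval (v4 a b c d) (sT k)
  | 0 => by simp [v4, oval, sT]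
  | 1 => by simp [v4, oval, sT]
  | 2 => by simp [v4, oval, sT]
  | 3 => by simp [v4, oval, sT]
  | _ + 4 => by simp [v4, oval, sT]

theorem v4_D (u v : R) : ∀ k, v4 u 0 0 v k = oval (v4 u 0 0 v) (sD k)
  | 0 => by simp [v4, oval, sD]
  | 1 => by simp [v4, oval, sD]
  | 2 => by simp [v4, oval, sD]
  | 3 => by simp [v4, oval, sD]
  | _ + 4 => by simp [v4, oval, sD]

theorem v4_map {R' : Type} [CommRing R'] (f : R →+* R') (a b c d : R) :
    (fun k => f (v4 a b c d k)) = v4 (f a) (f b) (f c) (f d) := by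
  funext k
  match k with
  | 0 => rfl
  | 1 => rfl
  | 2 => rfl
  | 3 => rfl
  | _ + 4 => simp [v4]

/-- the monomial of the first term -/
def mon (A : SM) : List ℕ := (A.headD (0, 0, 0, [])).2.2.2

theorem prod_pow (u v : R) (m : List ℕ) (h : ∀ k ∈ m, k = 0 ∨ k = 3) :
    (m.map (v4 u 0 0 v)).prod = u ^ m.count 0 * v ^ m.count 3 := by
  induction m with
  | nil => simp
  | cons k m ih =>
    rw [List.map_cons, List.prod_cons, ih fun k hk => h k (List.mem_cons_of_mem _ hk)]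
    rcases h k List.mem_cons_self with rfl | rfl
    · simp [v4, pow_succ]; ring
    · simp [v4, pow_succ]; ring

end CE

open CE

/-- closure of the index sets of the minors -/
def Dat.OkE0 (d : Dat) (b c : ℕ) (k : Fin d.toSys.r) : Prop :=
  ((∃ j, (d.toSys.Cl k j).val = c) → ∃ j, (d.toSys.Cl k j).val = b) ∧
    ((∃ j, (d.toSys.Rw k j).val = b) → ∃ j, (d.toSys.Rw k j).val = c) ∧
    ((d.toSys.R1 k).val = b → (d.toSys.R1 k).val = c ∨ ∃ j, (d.toSys.Rw k j).val = c)

instance (d : Dat) (b c : ℕ) (k : Fin d.toSys.r) : Decidable (d.OkE0 b c k) := by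
  unfold Dat.OkE0; infer_instance

/-- supports of the root elements -/
def Dat.OkE1 (d : Dat) (a : Fin d.toSys.N) (e : ℕ × ℕ × ℤ × List ℕ) : Prop :=
  e.1 ≤ e.2.1 ∧ (e.1 ≠ e.2.1 → e.2.2.2 ≠ []) ∧
    (∀ i, a ≠ d.toSys.s i → ¬ (e.1 = (d.toSys.A i).val ∧ e.2.1 = (d.toSys.B i).val)) ∧
    ∀ k, d.OkE0 e.1 e.2.1 k

instance (d : Dat) (a : Fin d.toSys.N) (e : ℕ × ℕ × ℤ × List ℕ) : Decidable (d.OkE1 a e) := by
  unfold Dat.OkE1; infer_instance

/-- a diagonal entry of the torus -/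
def OkE2 (A : SM) (b : ℕ) : Prop :=
  ent A b b = [(b, b, 1, mon (ent A b b))] ∧ ∀ z ∈ mon (ent A b b), z = 0 ∨ z = 3

instance (A : SM) (b : ℕ) : Decidable (OkE2 A b) := by unfold OkE2; infer_instance

/-- characters of the torus -/
def Dat.OkE3 (d : Dat) (A : SM) (i k : Fin d.toSys.r) : Prop :=
  (∀ j, OkE2 A (d.toSys.Cl k j)) ∧
    ∑ j, (mon (ent A (d.toSys.Cl k j) (d.toSys.Cl k j))).count 0 =
      ∑ j, (mon (ent A (d.toSys.Cl k j) (d.toSys.Cl k j))).count 3 + if i = k then 1 else 0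

instance (d : Dat) (A : SM) (i k : Fin d.toSys.r) : Decidable (d.OkE3 A i k) := by
  unfold Dat.OkE3; infer_instance

/-- monomial matrices -/
def Dat.OkE4 (d : Dat) (i : Fin d.toSys.r) (c : Fin d.toSys.n) : Prop :=
  d.toSys.nn ℤ i (d.toSys.sg i c) c * d.toSys.nn ℤ i (d.toSys.sg i c) c = 1 ∧
    ∀ b, b ≠ d.toSys.sg i c → d.toSys.nn ℤ i b c = 0

instance (d : Dat) (i : Fin d.toSys.r) (c : Fin d.toSys.n) : Decidable (d.OkE4 i c) := by
  unfold Dat.OkE4; infer_instance

/-- the test entry -/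
def OkE5 (A : SM) (b c : ℕ) : Prop :=
  ent A b c = [(b, c, 1, [0])] ∨ ent A b c = [(b, c, -1, [0])]

instance (A : SM) (b c : ℕ) : Decidable (OkE5 A b c) := by unfold OkE5; infer_instance

/-- the simple roots -/
def Dat.OkE6 (d : Dat) (i : Fin d.toSys.r) : Prop :=
  sub sU (d.P.getD i []) = d.X.getD (d.toSys.s i) [] ∧
    (tr (d.P.getD i [])).Perm (sub sT (d.P.getD i [])) ∧
    (∀ e ∈ sub sD (d.P.getD i []), e.1 = e.2.1) ∧
    (∀ k, d.OkE3 (sub sD (d.P.getD i [])) i k) ∧ (∀ c, d.OkE4 i c) ∧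
    OkE5 (d.X.getD (d.toSys.s i) []) (d.toSys.A i) (d.toSys.B i)

instance (d : Dat) (i : Fin d.toSys.r) : Decidable (d.OkE6 i) := by
  unfold Dat.OkE6; infer_instance

/-- the finite check -/
def Dat.OkE (d : Dat) : Prop :=
  (∀ a : Fin d.toSys.N, ∀ e ∈ d.X.getD a [], d.OkE1 a e) ∧
  (∀ (a : Fin d.toSys.N) (b : Fin d.toSys.n), ent (d.X.getD a []) b b = [(b.val, b.val, 1, [])]) ∧
  ∀ i : Fin d.toSys.r, d.OkE6 i

instance (d : Dat) : Decidable d.OkE := by unfold Dat.OkE; infer_instance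

theorem Dat.axE (d : Dat) (h : d.OkE) : d.toSys.AxE := by
  obtain ⟨h1, h2, h3⟩ := h
  have hx : ∀ (R : Type) [CommRing R] a (t : R),
      d.toSys.x R a t = SM.ev d.toSys.n (fun _ => t) (d.X.getD a []) := fun _ _ _ _ => rfl
  have hp : ∀ (R : Type) [CommRing R] i (a b c e : R),
      d.toSys.p R i a b c e = SM.ev d.toSys.n (v4 a b c e) (d.P.getD i []) :=
    fun _ _ _ _ _ _ _ => rfl
  have dg : ∀ (R : Type) [CommRing R] a (t : R) b, d.toSys.x R a t b b = 1 := by
    intro R _ a t b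
    rw [hx, ev_one _ (h2 a b)]
    simp
  have xz : ∀ (R : Type) [CommRing R] a, d.toSys.x R a 0 = 1 := by
    intro R _ a
    ext b c
    by_cases hbc : b = c
    · rw [hbc, dg, one_apply_eq]
    · rw [one_apply_ne hbc, hx]
      refine ev_zero _ _ _ _ fun e he e1 e2 => ?_
      have := (h1 a e he).2.1 (by rw [e1, e2]; exact fun h => hbc (Fin.ext h))
      obtain ⟨k, m, hm⟩ := List.exists_cons_of_ne_nil this
      simp [hm]
  have pu : ∀ (R : Type) [CommRing R] i (t : R),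
      d.toSys.p R i 1 t 0 1 = d.toSys.x R (d.toSys.s i) t := by
    intro R _ i t
    rw [hp, hx, ev_sub (v4_U t), (h3 i).1]
  refine ⟨fun R R' _ _ f a t => ?_, fun R R' _ _ f i a b c e => ?_, xz, fun R _ i => ?_, pu,
    fun R _ i a b c e => ?_, fun R _ i u v => ?_, fun R _ i k u v huv => ?_,
    fun R _ a t b c hbc => ?_, dg, fun i c => ?_, fun i => ?_, fun R _ i a t ha => ?_,
    fun R _ k a t j b hb => ?_, fun R _ k a t j c hc => ?_, fun R _ k a t c hc hc' => ?_⟩
  · rw [hx, hx, ev_map]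
  · rw [hp, hp, ev_map, v4_map]
  · rw [pu, xz]
  · rw [hp, hp, ev_tr, ev_perm _ (h3 i).2.1, ev_sub (v4_T a b c e)]
  · intro b c hbc
    rw [hp, ev_sub (v4_D u v)]
    refine ev_zero _ _ _ _ fun e he e1 e2 => (hbc (Fin.ext ?_)).elim
    rw [← e1, ← e2, (h3 i).2.2.1 e he]
  · obtain ⟨k1, k2⟩ := (h3 i).2.2.2.1 k
    rw [hp, ev_sub (v4_D u v),
      Finset.prod_congr rfl fun j _ => (ev_one _ (k1 j).1).trans (by
        rw [prod_pow u v _ (k1 j).2, Int.cast_one, one_mul]),
      Finset.prod_mul_distrib, Finset.prod_pow_eq_pow_sum, Finset.prod_pow_eq_pow_sum, k2, pow_add,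
      mul_right_comm, ← mul_pow, huv, one_pow, one_mul]
    split_ifs <;> simp
  · rw [hx]
    refine ev_zero _ _ _ _ fun e he e1 e2 => ?_
    have := (h1 a e he).1
    rw [e1, e2] at this
    exact absurd hbc (not_lt.2 this)
  · obtain ⟨k1, k2⟩ := (h3 i).2.2.2.2.1 c
    refine ⟨_, k1, fun b => ?_⟩
    split_ifs with hb
    · rw [hb]
    · exact k2 b hb
  · rcases (h3 i).2.2.2.2.2 with k | k
    · exact ⟨1, by simp, fun R _ t => by rw [hx, ev_one _ k]; simp⟩
    · exact ⟨-1, by simp, fun R _ t => by rw [hx, ev_one _ k]; simp⟩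
  · rw [hx]
    exact ev_zero _ _ _ _ fun e he e1 e2 => ((h1 a e he).2.2.1 i ha ⟨e1, e2⟩).elim
  · rw [hx]
    refine ev_zero _ _ _ _ fun e he e1 e2 => ?_
    obtain ⟨j', hj⟩ := ((h1 a e he).2.2.2 k).1 ⟨j, e2.symm⟩
    exact (hb j' (Fin.ext (hj.trans e1))).elim
  · rw [hx]
    refine ev_zero _ _ _ _ fun e he e1 e2 => ?_
    obtain ⟨j', hj⟩ := ((h1 a e he).2.2.2 k).2.1 ⟨j, e1.symm⟩
    exact (hc j' (Fin.ext (hj.trans e2))).elim
  · rw [hx]
    refine ev_zero _ _ _ _ fun e he e1 e2 => ?_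
    rcases ((h1 a e he).2.2.2 k).2.2 e1.symm with hj | ⟨j', hj⟩
    · exact (hc' (Fin.ext (hj.trans e2).symm)).elim
    · exact (hc j' (Fin.ext (hj.trans e2))).elim

end Pool.Agent.Lib.MP_755cca_al.F
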