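import Pool.Agent.Lib.MP_755cca_al.F.SMx

/-! Reflective check of the axioms that involve products of matrices. -/

open Matrix

namespace Pool.Agent.Lib.MP_755cca_al.F

/-- the axioms with products -/
structure Sys.AxP (S : Sys) : Prop where
  x_add : ∀ (R : Type) [CommRing R] a u t, S.x R a (u + t) = S.x R a u * S.x R a t
  p_mul : ∀ (R : Type) [CommRing R] i a b c d a' b' c' d',
    S.p R i a b c d * S.p R i a' b' c' d' =
      S.p R i (a * a' + b * c') (a * b' + b * d') (c * a' + d * c') (c * b' + d * d')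
  p_comm : ∀ (R : Type) [CommRing R] i j, i ≠ j → S.col i = S.col j → ∀ a b c d a' b' c' d',
    S.p R i a b c d * S.p R j a' b' c' d' = S.p R j a' b' c' d' * S.p R i a b c d
  conj_x : ∀ (R : Type) [CommRing R] i a, a ≠ S.s i → ∀ u t, ∃ w ∈ S.XZ R {b | b ∈ S.ct i a},
    S.x R (S.s i) u * S.x R a t = w * S.x R (S.s i) u
  conj_n : ∀ i a, a ≠ S.s i → ∃ e : ℤ, e * e = 1 ∧ ∀ (R : Type) [CommRing R] t,
    S.nn R i * S.x R a t = S.x R (S.rho i a) (e * t) * S.nn R i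
  tor_x : ∀ (R : Type) [CommRing R] i a u v, u * v = 1 → ∀ t, ∃ c,
    S.p R i u 0 0 v * S.x R a t = S.x R a c * S.p R i u 0 0 v
  tor_n : ∀ (R : Type) [CommRing R] i j u v, u * v = 1 → ∃ h ∈ S.T R,
    S.nn R j * S.p R i u 0 0 v = h * S.nn R j
  sgn_p : ∀ k i, ∃ e : ℤ, e * e = 1 ∧ ∀ a b c d : ℤ,
    S.p ℤ k (-1) 0 0 (-1) * S.p ℤ i a b c d = S.p ℤ i a (e * b) (e * c) d * S.p ℤ k (-1) 0 0 (-1)
  DQ : ∀ k, ∃ e e' : ℤ, e * e = 1 ∧ e' * e' = 1 ∧ ∀ a b c d : Fin S.r → ℤ,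
    (∀ j, a j * d j - b j * c j = 1) → S.D ℤ k (S.M a b c d) = e * d (S.st k) ∧
      S.Q ℤ k (S.M a b c d) = e' * b (S.st k) * ∏ j, d j ^ S.nu k j

namespace CP

open PM

/-- witnesses -/
structure Wit where
  ctp : List (List (List (ℕ × Po)))
  eta : List (List ℤ)
  tx : List (List Po)
  tn : List (List (Po × Po))
  sg : List (List ℤ)
  eD : List ℤ
  eQ : List ℤ

variable (d : Dat) (w : Wit)

def xs (a : Fin d.toSys.N) (q : Po) : SM := smap (sub fun _ => q) (d.X.getD a [])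

def ps (i : Fin d.toSys.r) (a b c e : Po) : SM :=
  smap (sub fun k => [a, b, c, e].getD k []) (d.P.getD i [])

def ns (i : Fin d.toSys.r) : SM := ps d i (C 0) (C 1) (C (-1)) (C 0)

def mu (A B : SM) : SM := smul d.toSys.n A B

def dot (a b c e : ℕ) : Po := add (mul (X a) (X b)) (mul (X c) (X e))

/-- reduction by `X 0 * X 1 = 1` -/
def uv (p : Po) : Po := rd 0 1 (C 1) 6 p

def tr (i : Fin d.toSys.r) : SM := ps d i (X 0) (C 0) (C 0) (X 1)

def ms (i : Fin d.toSys.r) : SM := ps d i (C (-1)) (C 0) (C 0) (C (-1))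

/-- the normal form as a polynomial matrix -/
def Ms : SM :=
  mu d (sprod d.toSys.n ((d.toSys.wl ++ d.toSys.bk).map fun k : Fin d.toSys.r =>
      ps d k (X (4 * k)) (X (4 * k + 1)) (X (4 * k + 2)) (X (4 * k + 3))))
    (sprod d.toSys.n (d.toSys.base.map (ns d)))

/-- reduction by the determinant relations -/
def dr (L : List (Fin d.toSys.r)) (p : Po) : Po :=
  L.foldr (fun k p => rd (4 * k) (4 * k + 3) (add (C 1) (mul (X (4 * k + 1)) (X (4 * k + 2)))) 4 p) p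

def R2 (k : Fin d.toSys.r) (i : Fin (d.toSys.m k + 1)) : Fin d.toSys.n :=
  if i = 0 then d.toSys.R1 k else d.toSys.Rw k i

def fN (k : ℕ) : Fin d.toSys.N := fo d.N k

def fR (k : ℕ) : Fin d.toSys.r := fo d.r k

def g2 {α : Type} (L : List (List α)) (i j : ℕ) (z : α) : α := (L.getD i []).getD j z

/-- the checks -/
structure Chk : Prop where
  x_add : ∀ a, seq (xs d a (add (X 0) (X 1))) (mu d (xs d a (X 0)) (xs d a (X 1))) = true
  p_mul : ∀ i, seq (mu d (ps d i (X 0) (X 1) (X 2) (X 3)) (ps d i (X 4) (X 5) (X 6) (X 7)))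
    (ps d i (dot 0 4 1 6) (dot 0 5 1 7) (dot 2 4 3 6) (dot 2 5 3 7)) = true
  p_comm : ∀ i j : Fin d.toSys.r, i < j → d.toSys.col i = d.toSys.col j →
    seq (mu d (ps d i (X 0) (X 1) (X 2) (X 3)) (ps d j (X 4) (X 5) (X 6) (X 7)))
      (mu d (ps d j (X 4) (X 5) (X 6) (X 7)) (ps d i (X 0) (X 1) (X 2) (X 3))) = true
  conj_x : ∀ (i : Fin d.toSys.r) (a : Fin d.toSys.N), a ≠ d.toSys.s i →
    (∀ e ∈ g2 w.ctp i a [], fN d e.1 ∈ d.toSys.ct i a) ∧
    seq (mu d (xs d (d.toSys.s i) (X 0)) (xs d a (X 1)))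
      (mu d (sprod d.toSys.n ((g2 w.ctp i a []).map fun e => xs d (fN d e.1) e.2))
        (xs d (d.toSys.s i) (X 0))) = true
  conj_n : ∀ (i : Fin d.toSys.r) (a : Fin d.toSys.N), a ≠ d.toSys.s i →
    g2 w.eta i a 0 * g2 w.eta i a 0 = 1 ∧ seq (mu d (ns d i) (xs d a (X 0)))
      (mu d (xs d (d.toSys.rho i a) (mul (C (g2 w.eta i a 0)) (X 0))) (ns d i)) = true
  tor_x : ∀ (i : Fin d.toSys.r) (a : Fin d.toSys.N),
    seq (smap uv (mu d (tr d i) (xs d a (X 2))))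
      (smap uv (mu d (xs d a (g2 w.tx i a [])) (tr d i))) = true
  tor_n : ∀ i j : Fin d.toSys.r,
    peq (uv (mul (g2 w.tn i j ([], [])).1 (g2 w.tn i j ([], [])).2)) (C 1) = true ∧
    seq (smap uv (mu d (ns d j) (tr d i))) (smap uv (mu d (mu d (tr d i)
      (ps d j (g2 w.tn i j ([], [])).1 (C 0) (C 0) (g2 w.tn i j ([], [])).2)) (ns d j))) = true
  sgn_p : ∀ k i : Fin d.toSys.r, g2 w.sg k i 0 * g2 w.sg k i 0 = 1 ∧
    seq (mu d (ms d k) (ps d i (X 0) (X 1) (X 2) (X 3))) (mu d (ps d i (X 0)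
      (mul (C (g2 w.sg k i 0)) (X 1)) (mul (C (g2 w.sg k i 0)) (X 2)) (X 3)) (ms d k)) = true
  DQ : ∀ k : Fin d.toSys.r, w.eD.getD k 0 * w.eD.getD k 0 = 1 ∧ w.eQ.getD k 0 * w.eQ.getD k 0 = 1 ∧
    peq (dr d (List.finRange _) (sdet (Ms d) _ (fun i => (d.toSys.Rw k i).val)
      fun i => (d.toSys.Cl k i).val)) (mul (C (w.eD.getD k 0)) (X (4 * (d.toSys.st k).val + 3))) = true ∧
    peq (dr d (List.finRange _) (sdet (Ms d) _ (fun i => (R2 d k i).val)
      fun i => (d.toSys.Cl k i).val)) (mul (mul (C (w.eQ.getD k 0)) (X (4 * (d.toSys.st k).val + 1)))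
        (pprod ((List.finRange d.toSys.r).map fun j : Fin d.toSys.r =>
          ppow (X (4 * j + 3)) (d.toSys.nu k j)))) = true

section

variable {R : Type} [CommRing R] (v : ℕ → R)

theorem ev_xs (a : Fin d.toSys.N) (q : Po) :
    SM.ev d.toSys.n v (xs d a q) = d.toSys.x R a (ev v q) :=
  sev_smap _ v (fun p => ev_sub v _ p) _

theorem ev_ps (i : Fin d.toSys.r) (a b c e : Po) :
    SM.ev d.toSys.n v (ps d i a b c e) = d.toSys.p R i (ev v a) (ev v b) (ev v c) (ev v e) := by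
  refine sev_smap _ v (fun p => (ev_sub v _ p).trans ?_) _
  congr 1
  funext k
  rcases k with _ | _ | _ | _ | k <;> rfl

theorem ev_ns (i : Fin d.toSys.r) : SM.ev d.toSys.n v (ns d i) = d.toSys.nn R i := by
  rw [ns, ev_ps]; simp [Sys.nn]

theorem ev_mu (A B : SM) : SM.ev d.toSys.n v (mu d A B) =
    SM.ev d.toSys.n v A * SM.ev d.toSys.n v B := sev_smul _ v A B

theorem ev_dot (a b c e : ℕ) : ev v (dot a b c e) = v a * v b + v c * v e := by simp [dot]

theorem ev_uv (h : v 0 * v 1 = 1) (p : Po) : ev v (uv p) = ev v p :=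
  ev_rd v (by simpa using h) 6 p

theorem ev_suv (h : v 0 * v 1 = 1) (A : SM) :
    SM.ev d.toSys.n v (smap uv A) = SM.ev d.toSys.n v A := sev_smap _ v (ev_uv v h) A

theorem ev_tr (i : Fin d.toSys.r) :
    SM.ev d.toSys.n v (tr d i) = d.toSys.p R i (v 0) 0 0 (v 1) := by
  rw [tr, ev_ps]; simp

theorem ev_Ms : SM.ev d.toSys.n v (Ms d) = (((d.toSys.wl ++ d.toSys.bk).map fun k : Fin d.toSys.r =>
    d.toSys.p R k (v (4 * k)) (v (4 * k + 1)) (v (4 * k + 2)) (v (4 * k + 3))).prod *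
      d.toSys.n0 R) := by
  rw [Ms, ev_mu, sev_sprod, sev_sprod, List.map_map, List.map_map]
  congr 3
  · funext k
    simp [ev_ps]
  · funext k
    exact ev_ns d v k

theorem ev_dr (h : ∀ k : Fin d.toSys.r, v (4 * k) * v (4 * k + 3) = 1 + v (4 * k + 1) * v (4 * k + 2))
    (L : List (Fin d.toSys.r)) (p : Po) : ev v (dr d L p) = ev v p := by
  induction L with
  | nil => rfl
  | cons k L ih => exact (ev_rd v (by simpa using h k) 4 _).trans ih

end

/-- values of the variables -/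
def vl {R : Type} [CommRing R] (L : List R) (k : ℕ) : R := L.getD k 0

def v4 (a b c e : Fin d.toSys.r → ℤ) (m : ℕ) : ℤ := [a, b, c, e].getD (m % 4) 0 (fR d (m / 4))

theorem v4_eq (a b c e : Fin d.toSys.r → ℤ) (k : Fin d.toSys.r) :
    v4 d a b c e (4 * k) = a k ∧ v4 d a b c e (4 * k + 1) = b k ∧ v4 d a b c e (4 * k + 2) = c k ∧
      v4 d a b c e (4 * k + 3) = e k := by
  have h : fR d k = k := Fin.ext (Nat.mod_eq_of_lt k.2)
  have h0 : 4 * k.val % 4 = 0 ∧ 4 * k.val / 4 = k := by omega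
  have h1 : (4 * k.val + 1) % 4 = 1 ∧ (4 * k.val + 1) / 4 = k := by omega
  have h2 : (4 * k.val + 2) % 4 = 2 ∧ (4 * k.val + 2) / 4 = k := by omega
  have h3 : (4 * k.val + 3) % 4 = 3 ∧ (4 * k.val + 3) / 4 = k := by omega
  unfold v4
  rw [h0.1, h0.2, h1.1, h1.2, h2.1, h2.2, h3.1, h3.2, h]
  exact ⟨rfl, rfl, rfl, rfl⟩

variable {d w}

theorem axP (h : Chk d w) : d.toSys.AxP where
  x_add R _ a u t := by
    have := sev_seq d.toSys.n (vl [u, t]) (h.x_add a)
    rw [ev_mu, ev_xs, ev_xs, ev_xs, ev_add, ev_X, ev_X] at this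
    exact this
  p_mul R _ i a b c e a' b' c' e' := by
    have := sev_seq d.toSys.n (vl [a, b, c, e, a', b', c', e']) (h.p_mul i)
    simp only [ev_mu, ev_ps, ev_X, ev_dot] at this
    exact this
  p_comm R _ i j hij hc a b c e a' b' c' e' := by
    rcases lt_or_gt_of_ne hij with h1 | h1
    · have := sev_seq d.toSys.n (vl [a, b, c, e, a', b', c', e']) (h.p_comm i j h1 hc)
      simp only [ev_mu, ev_ps, ev_X] at this
      exact this
    · have := sev_seq d.toSys.n (vl [a', b', c', e', a, b, c, e]) (h.p_comm j i h1 hc.symm)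
      simp only [ev_mu, ev_ps, ev_X] at this
      exact this.symm
  conj_x R _ i a ha u t := by
    obtain ⟨h1, h2⟩ := h.conj_x i a ha
    have := sev_seq d.toSys.n (vl [u, t]) h2
    rw [ev_mu, ev_mu, ev_xs, ev_xs, ev_X, ev_X, sev_sprod] at this
    refine ⟨_, list_prod_mem fun g hg => ?_, this⟩
    obtain ⟨A, hA, rfl⟩ := List.mem_map.1 hg
    obtain ⟨e, he, rfl⟩ := List.mem_map.1 hA
    exact Submonoid.subset_closure ⟨_, h1 e he, _, ev_xs d _ _ _⟩
  conj_n i a ha := by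
    obtain ⟨h1, h2⟩ := h.conj_n i a ha
    refine ⟨_, h1, fun R _ t => ?_⟩
    have := sev_seq d.toSys.n (vl [t]) h2
    rw [ev_mu, ev_mu, ev_xs, ev_xs, ev_ns, ev_mul, ev_C, ev_X] at this
    exact this
  tor_x R _ i a u v huv t := by
    have := sev_seq d.toSys.n (vl [u, v, t]) (h.tor_x i a)
    rw [ev_suv d _ huv, ev_suv d _ huv, ev_mu, ev_mu, ev_xs, ev_xs, ev_tr, ev_X] at this
    exact ⟨_, this⟩
  tor_n R _ i j u v huv := by
    obtain ⟨h1, h2⟩ := h.tor_n i j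
    have h3 := ev_peq (vl [u, v]) h1
    rw [ev_uv _ huv, ev_mul, ev_C, Int.cast_one] at h3
    have := sev_seq d.toSys.n (vl [u, v]) h2
    rw [ev_suv d _ huv, ev_suv d _ huv, ev_mu, ev_mu, ev_mu, ev_ns, ev_tr, ev_ps, ev_C,
      Int.cast_zero] at this
    exact ⟨_, mul_mem (Submonoid.subset_closure ⟨i, u, v, huv, rfl⟩)
      (Submonoid.subset_closure ⟨j, _, _, h3, rfl⟩), this⟩
  sgn_p k i := by
    obtain ⟨h1, h2⟩ := h.sgn_p k i
    refine ⟨_, h1, fun a b c e => ?_⟩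
    have := sev_seq d.toSys.n (vl [a, b, c, e]) h2
    simp only [ev_mu, ms, ev_ps, ev_mul, ev_C, ev_X, Int.cast_id] at this
    exact this
  DQ k := by
    obtain ⟨h1, h2, h3, h4⟩ := h.DQ k
    refine ⟨_, _, h1, h2, fun a b c e hd => ?_⟩
    have q := v4_eq d a b c e
    have hv : ∀ j : Fin d.toSys.r, v4 d a b c e (4 * j) * v4 d a b c e (4 * j + 3) =
        1 + v4 d a b c e (4 * j + 1) * v4 d a b c e (4 * j + 2) := fun j => by
      rw [(q j).1, (q j).2.1, (q j).2.2.1, (q j).2.2.2]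
      linear_combination hd j
    have hM : SM.ev d.toSys.n (v4 d a b c e) (Ms d) = d.toSys.M a b c e := by
      rw [ev_Ms]
      simp only [(q _).1, (q _).2.1, (q _).2.2.1, (q _).2.2.2]
      rfl
    have e1 := ev_peq (v4 d a b c e) h3
    have e2 := ev_peq (v4 d a b c e) h4
    rw [ev_dr d _ hv, ev_sdet d.toSys.n, hM, ev_mul, ev_C, ev_X, (q _).2.2.2] at e1
    rw [ev_dr d _ hv, ev_sdet d.toSys.n, hM, ev_mul, ev_mul, ev_C, ev_X, (q _).2.1, ev_pprod,
      List.map_map] at e2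
    have e3 : R2 d k = Function.update (d.toSys.Rw k) 0 (d.toSys.R1 k) :=
      funext fun i => (Function.update_apply _ _ _ _).symm
    rw [e3] at e2
    refine ⟨e1, e2.trans ?_⟩
    congr 1
    rw [← Fin.prod_univ_def]
    exact Finset.prod_congr rfl fun j _ => by
      rw [Function.comp_apply, ev_ppow, ev_X, (q j).2.2.2]

end CP

end Pool.Agent.Lib.MP_755cca_al.F
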