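import Pool.Agent.Lib.MP_755cca_al.F.Dat

/-! Reflective check of the axioms on words. -/

namespace Pool.Agent.Lib.MP_755cca_al.F

namespace CW

/-- digit in base 32 -/
def get (x j : ℕ) : ℕ := x / 32 ^ j % 32

/-- number with given digits -/
def pk (f : ℕ → ℕ) : ℕ → ℕ
  | 0 => 0
  | m + 1 => pk f m + f m * 32 ^ m

theorem pk_congr {f g : ℕ → ℕ} {m : ℕ} (h : ∀ j < m, f j = g j) : pk f m = pk g m := by
  induction m with
  | zero => rfl
  | succ m ih => rw [pk, pk, ih fun j hj => h j (by omega), h m (by omega)]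

theorem pk_lt {f : ℕ → ℕ} {m : ℕ} (h : ∀ j < m, f j < 32) : pk f m < 32 ^ m := by
  induction m with
  | zero => simp [pk]
  | succ m ih =>
    have h1 := ih fun j hj => h j (by omega)
    have h2 : f m * 32 ^ m ≤ 31 * 32 ^ m := Nat.mul_le_mul_right _ (by have := h m (by omega); omega)
    rw [pk, pow_succ]; omega

theorem get_pk {f : ℕ → ℕ} {m j : ℕ} (h : ∀ j < m, f j < 32) (hj : j < m) :
    get (pk f m) j = f j := by
  induction m with
  | zero => omega
  | succ m ih =>
    have h' : ∀ j < m, f j < 32 := fun j hj => h j (by omega)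
    rw [pk, get]
    rcases Nat.lt_succ_iff_lt_or_eq.1 hj with h1 | rfl
    · obtain ⟨k, rfl⟩ : ∃ k, m = j + 1 + k := ⟨m - j - 1, by omega⟩
      have e : f (j + 1 + k) * 32 ^ (j + 1 + k) = f (j + 1 + k) * 32 ^ k * 32 * 32 ^ j := by ring
      rw [e, Nat.add_mul_div_right _ _ (by positivity), Nat.add_mul_mod_self_right]
      exact ih h' h1
    · rw [Nat.add_mul_div_right _ _ (by positivity), Nat.div_eq_of_lt (pk_lt h'), zero_add,
        Nat.mod_eq_of_lt (h j hj)]

/-- code of a map -/
def code {m n : ℕ} (f : Fin m → Fin n) : ℕ := pk (fun j => if h : j < m then f ⟨j, h⟩ else 0) m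

theorem get_code {m n : ℕ} (hn : n ≤ 32) (f : Fin m → Fin n) (j : Fin m) :
    get (code f) j = f j := by
  rw [code, get_pk _ j.2, dif_pos j.2]
  intro k hk
  rw [dif_pos hk]
  exact lt_of_lt_of_le (f _).2 hn

theorem code_inj {m n : ℕ} (hn : n ≤ 32) {f g : Fin m → Fin n} (h : code f = code g) : f = g :=
  funext fun j => Fin.ext (by rw [← get_code hn, h, get_code hn])

/-- composition of codes -/
def comp (a b m : ℕ) : ℕ := pk (fun j => get a (get b j)) m

theorem comp_code {m n : ℕ} (hn : n ≤ 32) (f : Fin n → Fin n) (g : Fin m → Fin n) :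
    comp (code f) (code g) m = code (f ∘ g) :=
  pk_congr fun j hj => by
    rw [dif_pos hj, show get (code g) j = g ⟨j, hj⟩ from get_code hn g ⟨j, hj⟩, get_code hn]; rfl

/-- evaluate, then continue -/
def force {α : Type} (x : ℕ) (f : ℕ → α) : α :=
  match x with
  | 0 => f 0
  | n + 1 => f (n + 1)

theorem force_eq {α : Type} (x : ℕ) (f : ℕ → α) : force x f = f x := by cases x <;> rfl

/-- the same for a list -/
def forceL {α : Type} : List ℕ → (List ℕ → α) → α
  | [], f => f []
  | a :: l, f => force a fun a => forceL l fun l => f (a :: l)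

theorem forceL_eq {α : Type} (l : List ℕ) (f : List ℕ → α) : forceL l f = f l := by
  induction l generalizing f with
  | nil => rfl
  | cons a l ih => rw [forceL, force_eq, ih]

/-- bounded conjunction -/
def allLt (p : ℕ → Bool) : ℕ → Bool
  | 0 => true
  | m + 1 => p m && allLt p m

theorem allLt_iff {p : ℕ → Bool} {m : ℕ} : allLt p m = true ↔ ∀ j < m, p j = true := by
  induction m with
  | zero => simp [allLt]
  | succ m ih => rw [allLt, Bool.and_eq_true, ih, Nat.forall_lt_succ_right, and_comm]

/-- a property of all splittings of a list -/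
def Spl {α : Type} (P : List α → α → List α → Prop) : List α → List α → Prop
  | _, [] => True
  | u, i :: l => P u i l ∧ Spl P (u ++ [i]) l

instance Spl.dec {α : Type} (P : List α → α → List α → Prop) [∀ a b c, Decidable (P a b c)] :
    ∀ u l, Decidable (Spl P u l)
  | _, [] => isTrue trivial
  | u, i :: l => @instDecidableAnd _ _ _ (Spl.dec P (u ++ [i]) l)

theorem Spl.out' {α : Type} {P : List α → α → List α → Prop} {l₁ l₂ : List α} {i : α} :
    ∀ u, Spl P u (l₁ ++ i :: l₂) → P (u ++ l₁) i l₂ := by
  induction l₁ with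
  | nil => intro u h; rw [List.append_nil]; exact h.1
  | cons a l₁ ih => intro u h; have := ih _ h.2; rwa [List.append_assoc] at this

theorem Spl.out {α : Type} {P : List α → α → List α → Prop} {l : List α} (h : Spl P [] l)
    (l₁ : List α) (i : α) (l₂ : List α) (e : l = l₁ ++ i :: l₂) : P l₁ i l₂ :=
  Spl.out' [] (e ▸ h)

/-- search trees -/
inductive BT : Type
  | nil : BT
  | node : BT → ℕ → ℕ → List ℕ → BT → BT

/-- search -/
def BT.mem (x : ℕ) : BT → Bool
  | .nil => false
  | .node l v _ _ r => bif x.beq v then true else bif x.blt v then l.mem x else r.mem x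

/-- all nodes -/
def BT.all (p : ℕ → ℕ → List ℕ → Bool) : BT → Bool
  | .nil => true
  | .node l v i w r => p v i w && (l.all p && r.all p)

theorem BT.out {p : ℕ → ℕ → List ℕ → Bool} {x : ℕ} {t : BT} (h : t.mem x = true)
    (ha : t.all p = true) : ∃ i w, p x i w = true := by
  induction t with
  | nil => exact absurd h (by simp [BT.mem])
  | node l v i w r ihl ihr =>
    simp only [BT.all, Bool.and_eq_true] at ha
    rw [BT.mem] at h
    cases e : x.beq v
    · rw [e, cond_false] at h
      cases e' : x.blt v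
      · rw [e', cond_false] at h; exact ihr h ha.2.2
      · rw [e', cond_true] at h; exact ihl h ha.2.1
    · exact ⟨i, w, Nat.eq_of_beq_eq_true e ▸ ha.1⟩

/-- codes of the tables -/
structure Crt where
  sg : List ℕ
  cl : List ℕ
  rw : List ℕ

variable (S : Sys) (c : Crt)

/-- the codes are right -/
def Ok : Prop := S.n ≤ 32 ∧ (∀ i, c.sg.getD i.val 0 = code (S.sg i)) ∧
  (∀ k, c.cl.getD k.val 0 = code (S.Cl k)) ∧
  ∀ k (b : Fin S.n), (c.rw.getD k.val 0).testBit b = true ↔ ∃ j, b = S.Rw k j

instance : Decidable (Ok S c) := by unfold Ok; infer_instance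

/-- right multiplication -/
def rs (N : ℕ) (i : Fin S.r) : ℕ := comp N (c.sg.getD i.val 0) S.n

/-- step up -/
def upC (N : ℕ) (i : Fin S.r) : Bool := (get N (S.A i)).blt (get N (S.B i))

/-- test of a tuple -/
def hitT (k : Fin S.r) (t : ℕ) : Bool :=
  allLt (fun j => (c.rw.getD k.val 0).testBit (get t j)) (S.m k + 1)

/-- test of a permutation -/
def hitC (k : Fin S.r) (N : ℕ) : Bool :=
  allLt (fun j => (c.rw.getD k.val 0).testBit (get N (get (c.cl.getD k.val 0) j))) (S.m k + 1)

/-- Demazure product -/
def demC : List (Fin S.r) → ℕ → ℕ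
  | [], N => N
  | j :: l, N => bif upC S N j then force (rs S c N j) (demC l) else demC l N

/-- product -/
def mulC : List (Fin S.r) → ℕ → ℕ
  | [], N => N
  | j :: l, N => force (rs S c N j) (mulC l)

/-- single drop paths -/
def drops (K : Fin S.r → Bool) : List (Fin S.r) → ℕ → Bool
  | [], _ => true
  | j :: l, N => bif upC S N j then force (rs S c N j) (drops K l) else
      (force (rs S c N j) fun N' => force (demC S c l N') fun M =>
        (List.finRange S.r).any fun k₀ => K k₀ &&
          (List.finRange S.r).all fun k => decide (k = k₀) || hitC S c k M) && drops K l N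

/-- tuples reached by subwords -/
def reach (k : Fin S.r) : List (Fin S.r) → List ℕ
  | [] => [c.cl.getD k.val 0]
  | i :: l => forceL (reach k l) fun R => R.foldr (fun t A =>
      force (comp (c.sg.getD i.val 0) t (S.m k + 1)) fun t' => bif R.any (Nat.beq t') then A
        else t' :: A) R

variable {S c}

theorem rs_code (h : Ok S c) (π : Fin S.n → Fin S.n) (i : Fin S.r) :
    rs S c (code π) i = code (π ∘ S.sg i) := by rw [rs, h.2.1, comp_code h.1]

theorem upC_code (h : Ok S c) (π : Fin S.n → Fin S.n) (i : Fin S.r) :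
    upC S (code π) i = true ↔ S.up π i := by
  rw [upC, get_code h.1, get_code h.1, Nat.blt_eq]; rfl

theorem hitT_code (h : Ok S c) (k : Fin S.r) (π : Fin S.n → Fin S.n) :
    hitT S c k (code (π ∘ S.Cl k)) = true ↔ S.hit k π := by
  rw [hitT, allLt_iff]
  constructor
  · intro h1 j
    have := h1 j j.2
    rwa [get_code h.1, h.2.2.2] at this
  · intro h1 j hj
    rw [show get (code (π ∘ S.Cl k)) j = _ from get_code h.1 _ ⟨j, hj⟩, h.2.2.2]
    exact h1 _

theorem hitC_code (h : Ok S c) (k : Fin S.r) (π : Fin S.n → Fin S.n) :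
    hitC S c k (code π) = true ↔ S.hit k π := by
  rw [hitC, allLt_iff, h.2.2.1]
  constructor
  · intro h1 j
    have := h1 j j.2
    rwa [get_code h.1, get_code h.1, h.2.2.2] at this
  · intro h1 j hj
    rw [show get (code (S.Cl k)) j = _ from get_code h.1 _ ⟨j, hj⟩, get_code h.1, h.2.2.2]
    exact h1 _

theorem dem_up {π : Fin S.n → Fin S.n} {j : Fin S.r} (h : S.up π j) (l : List (Fin S.r)) :
    S.dem π (j :: l) = S.dem (π ∘ S.sg j) l := by simp [Sys.dem, h]

theorem dem_down {π : Fin S.n → Fin S.n} {j : Fin S.r} (h : ¬ S.up π j) (l : List (Fin S.r)) :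
    S.dem π (j :: l) = S.dem π l := by simp [Sys.dem, h]

theorem demC_code (h : Ok S c) (l : List (Fin S.r)) (π : Fin S.n → Fin S.n) :
    demC S c l (code π) = code (S.dem π l) := by
  induction l generalizing π with
  | nil => rfl
  | cons j l ih =>
    rw [demC]
    by_cases hu : S.up π j
    · rw [(upC_code h π j).2 hu, cond_true, force_eq, rs_code h, ih, dem_up hu]
    · rw [Bool.eq_false_iff.2 (mt (upC_code h π j).1 hu), cond_false, ih, dem_down hu]

theorem mulC_code (h : Ok S c) (l : List (Fin S.r)) (π : Fin S.n → Fin S.n) :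
    mulC S c l (code π) = code (π ∘ S.pw l) := by
  induction l generalizing π with
  | nil => rfl
  | cons j l ih => rw [mulC, force_eq, rs_code h, ih]; rfl

theorem drops_out (h : Ok S c) {K : Fin S.r → Bool} (l₁ : List (Fin S.r)) (j : Fin S.r)
    (l₂ : List (Fin S.r)) (π : Fin S.n → Fin S.n)
    (hd : drops S c K (l₁ ++ j :: l₂) (code π) = true) (hu : ¬ S.up (S.dem π l₁) j) :
    ∃ k₀, K k₀ = true ∧ ∀ k, k ≠ k₀ → S.hit k (S.dem (S.dem π l₁ ∘ S.sg j) l₂) := by
  induction l₁ generalizing π with
  | nil =>
    have hu' : ¬ S.up π j := hu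
    rw [List.nil_append, drops, Bool.eq_false_iff.2 (mt (upC_code h π j).1 hu'), cond_false,
      force_eq, force_eq, rs_code h, demC_code h, Bool.and_eq_true, List.any_eq_true] at hd
    obtain ⟨⟨k₀, -, h1⟩, -⟩ := hd
    rw [Bool.and_eq_true, List.all_eq_true] at h1
    refine ⟨k₀, h1.1, fun k hk => ?_⟩
    have := h1.2 k (List.mem_finRange k)
    rw [decide_eq_false hk, Bool.false_or, hitC_code h] at this
    exact this
  | cons a l₁ ih =>
    rw [List.cons_append, drops] at hd
    by_cases ha : S.up π a
    · rw [(upC_code h π a).2 ha, cond_true, force_eq, rs_code h] at hd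
      rw [dem_up ha] at hu ⊢
      exact ih _ hd hu
    · rw [Bool.eq_false_iff.2 (mt (upC_code h π a).1 ha), cond_false, Bool.and_eq_true] at hd
      rw [dem_down ha] at hu ⊢
      exact ih _ hd.2 hu

theorem mem_step (f : ℕ → ℕ) (R L : List ℕ) {x : ℕ} (hx : x ∈ R ∨ ∃ t ∈ L, x = f t) :
    x ∈ L.foldr (fun t A => force (f t) fun t' => bif R.any (Nat.beq t') then A else t' :: A) R := by
  by_cases hR : x ∈ R
  · clear hx
    induction L with
    | nil => exact hR
    | cons a L ih =>
      rw [List.foldr_cons, force_eq]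
      cases R.any (Nat.beq (f a))
      · exact List.mem_cons_of_mem _ ih
      · exact ih
  obtain ⟨t, ht, rfl⟩ := hx.resolve_left hR
  clear hx
  induction L with
  | nil => cases ht
  | cons a L ih =>
    rw [List.foldr_cons, force_eq]
    rcases List.mem_cons.1 ht with rfl | ht
    · cases e : R.any (Nat.beq (f t))
      · exact List.mem_cons_self
      · obtain ⟨y, hy, e'⟩ := List.any_eq_true.1 e
        exact absurd (Nat.eq_of_beq_eq_true e' ▸ hy) hR
    · cases R.any (Nat.beq (f a))
      · exact List.mem_cons_of_mem _ (ih ht)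
      · exact ih ht

theorem reach_mem (h : Ok S c) (k : Fin S.r) {l w : List (Fin S.r)} (hl : l.Sublist w) :
    code (S.pw l ∘ S.Cl k) ∈ reach S c k w := by
  induction hl with
  | slnil => rw [reach, h.2.2.1]; exact List.mem_singleton.2 rfl
  | cons a _ ih => rw [reach, forceL_eq]; exact mem_step _ _ _ (Or.inl ih)
  | cons_cons a _ ih =>
    rw [reach, forceL_eq]
    exact mem_step _ _ _ (Or.inr ⟨_, ih, by rw [h.2.1, comp_code h.1]; rfl⟩)

theorem pw_append (l l' : List (Fin S.r)) : S.pw (l ++ l') = S.pw l ∘ S.pw l' := by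
  induction l with
  | nil => rfl
  | cons i l ih => exact congrArg (S.sg i ∘ ·) ih

theorem pw_rev (h : ∀ i c, S.sg i (S.sg i c) = c) (l : List (Fin S.r)) :
    S.pw l.reverse ∘ S.pw l = id ∧ S.pw l ∘ S.pw l.reverse = id := by
  induction l with
  | nil => exact ⟨rfl, rfl⟩
  | cons i l ih =>
    rw [List.reverse_cons, pw_append]
    refine ⟨funext fun a => ?_, funext fun a => ?_⟩
    · exact (congrArg (S.pw l.reverse) (h i _)).trans (congrFun ih.1 a)
    · exact (congrArg (S.sg i) (congrFun ih.2 (S.sg i a))).trans (h i a)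

/-- the tree contains the identity and is closed -/
def closed (S : Sys) (c : Crt) (t : BT) : Bool :=
  t.mem (code (id : Fin S.n → Fin S.n)) &&
    t.all fun N _ _ => (List.finRange S.r).all fun i => force (rs S c N i) fun M => t.mem M

theorem closed_mem (h : Ok S c) {t : BT} (ht : closed S c t = true) (l : List (Fin S.r)) :
    t.mem (code (S.pw l)) = true := by
  rw [closed, Bool.and_eq_true] at ht
  induction l using List.reverseRecOn with
  | nil => exact ht.1
  | append_singleton l i ih =>
    obtain ⟨_, _, h1⟩ := BT.out ih ht.2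
    have := List.all_eq_true.1 h1 i (List.mem_finRange i)
    rw [force_eq, rs_code h] at this
    rw [pw_append]
    exact this

end CW

end Pool.Agent.Lib.MP_755cca_al.F
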