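import Pool.Agent.Lib.MP_755cca_al.F.ChkW

/-! The axioms on words from one decidable check. -/

namespace Pool.Agent.Lib.MP_755cca_al.F

/-- the fields of `Sys.Ax` that only speak of words and tables -/
structure Sys.AxW (S : Sys) : Prop where
  s_inj : Function.Injective S.s
  ct_ne : ∀ i a, a ≠ S.s i → ∀ b ∈ S.ct i a, b ≠ S.s i
  rho_ne : ∀ i a, a ≠ S.s i → S.rho i a ≠ S.s i
  rho_inj : ∀ i a b, a ≠ S.s i → b ≠ S.s i → S.rho i a = S.rho i b → a = b
  col_ct : ∀ k, ∀ a ∈ S.Zc (S.col k), (∀ b ∈ S.ct k a, b ∈ S.Zc (S.col k)) ∧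
    S.rho k a ∈ S.Zc (S.col k)
  sg_sg : ∀ i c, S.sg i (S.sg i c) = c
  AB : ∀ i, (S.B i).val = (S.A i).val + 1 ∧ S.sg i (S.A i) = S.B i
  Cl_mono : ∀ k, StrictMono (S.Cl k)
  Rw_mono : ∀ k, StrictMono (S.Rw k)
  R1_ne : ∀ k j, S.Rw k j ≠ S.R1 k
  base_red : S.Red S.base
  base_neg : ∀ b, (S.actw S.base (b, true)).2 = false
  base_surj : ∀ a, ∃ b, S.actw S.base (b, true) = (a, false)
  base_sq : S.pw (S.base ++ S.base) = id
  big : ∀ l, (∀ k, S.hit k (S.pw l)) → S.pw l = S.pw S.base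
  wl_mem : ∀ k, k ∈ S.wl ↔ S.col k = true
  bk_mem : ∀ k, k ∈ S.bk ↔ S.col k = false
  wl_nodup : S.wl.Nodup
  bk_nodup : S.bk.Nodup
  bk_len : S.bk.length = S.bl.length
  wl_act : ∀ l₁ i l₂, S.wl = l₁ ++ i :: l₂ → S.actw l₁ (S.s i, true) = (S.s i, true)
  mid_act : ∀ l₁ i l₂, S.mid = l₁ ++ i :: l₂ →
    ∃ a ∈ S.Zc true, S.actw (S.wl ++ l₁) (S.s i, true) = (a, true)
  bl_act : ∀ l₁ i l₂ k₁ k k₂, S.bl = l₁ ++ i :: l₂ → S.bk = k₁ ++ k :: k₂ →
    k₁.length = l₁.length → S.actw (S.wl ++ S.mid ++ l₁) (S.s i, true) = (S.s k, true)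
  mid_drop : ∀ l₁ i l₂, S.mid = l₁ ++ i :: l₂ → ∃ k k', k ≠ k' ∧
    ∀ l, l.Sublist (S.wl ++ (l₁ ++ l₂) ++ S.bl) → ¬ S.hit k (S.pw l) ∧ ¬ S.hit k' (S.pw l)
  st_st : ∀ k, S.st (S.st k) = k
  nu_st : ∀ k, S.nu k (S.st k) = 0

namespace CW

instance (S : Sys) (c : Bool) (a : Fin S.N) : Decidable (a ∈ S.Zc c) :=
  inferInstanceAs (Decidable (∀ k, S.col k = c → a ≠ S.s k))

/-- no subword reaches the rows -/
def miss (S : Sys) (c : Crt) (w : List (Fin S.r)) (k : Fin S.r) : Bool :=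
  (reach S c k w).all fun t => !hitT S c k t

/-- small checks -/
def Chk1 (S : Sys) : Prop :=
  (∀ i j, S.s i = S.s j → i = j) ∧ (∀ i a, a ≠ S.s i → ∀ b ∈ S.ct i a, b ≠ S.s i) ∧
  (∀ i a, a ≠ S.s i → S.rho i a ≠ S.s i) ∧
  (∀ i a b, a ≠ S.s i → b ≠ S.s i → S.rho i a = S.rho i b → a = b) ∧
  (∀ k, ∀ a ∈ S.Zc (S.col k), (∀ b ∈ S.ct k a, b ∈ S.Zc (S.col k)) ∧
    S.rho k a ∈ S.Zc (S.col k)) ∧
  (∀ i c, S.sg i (S.sg i c) = c) ∧
  (∀ i, (S.B i).val = (S.A i).val + 1 ∧ S.sg i (S.A i) = S.B i) ∧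
  (∀ k a b, a < b → S.Cl k a < S.Cl k b) ∧ (∀ k a b, a < b → S.Rw k a < S.Rw k b) ∧
  (∀ k j, S.Rw k j ≠ S.R1 k) ∧ (∀ k, S.st (S.st k) = k) ∧ ∀ k, S.nu k (S.st k) = 0

instance (S : Sys) : Decidable (Chk1 S) := by
  unfold Chk1
  repeat refine @instDecidableAnd _ _ inferInstance ?_
  infer_instance

/-- checks on the base word -/
def Chk2 (S : Sys) : Prop :=
  Spl (fun l₁ i _ => S.up (S.pw l₁) i) [] S.base ∧
  (∀ b, (S.actw S.base (b, true)).2 = false) ∧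
  (∀ a, ∃ b, S.actw S.base (b, true) = (a, false)) ∧
  (∀ c, S.pw (S.base ++ S.base) c = c) ∧
  (∀ k, k ∈ S.wl ↔ S.col k = true) ∧ (∀ k, k ∈ S.bk ↔ S.col k = false) ∧
  S.wl.Nodup ∧ S.bk.Nodup ∧ S.bk.length = S.bl.length ∧
  Spl (fun l₁ i _ => S.actw l₁ (S.s i, true) = (S.s i, true)) [] S.wl ∧
  Spl (fun l₁ i _ => ∃ a ∈ S.Zc true, S.actw (S.wl ++ l₁) (S.s i, true) = (a, true)) [] S.mid ∧
  Spl (fun l₁ i _ => Spl (fun k₁ k _ => k₁.length = l₁.length →
    S.actw (S.wl ++ S.mid ++ l₁) (S.s i, true) = (S.s k, true)) [] S.bk) [] S.bl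

instance (S : Sys) : Decidable (Chk2 S) := by unfold Chk2; infer_instance

/-- dropping a middle letter; `f` gives the two nodes -/
def Chk3 (S : Sys) (c : Crt) (f : ℕ → Fin S.r × Fin S.r) : Prop :=
  Spl (fun l₁ _ l₂ => (f l₁.length).1 ≠ (f l₁.length).2 ∧
    miss S c (S.wl ++ (l₁ ++ l₂) ++ S.bl) (f l₁.length).1 = true ∧
    miss S c (S.wl ++ (l₁ ++ l₂) ++ S.bl) (f l₁.length).2 = true) [] S.mid

instance (S : Sys) (c : Crt) (f : ℕ → Fin S.r × Fin S.r) : Decidable (Chk3 S c f) := by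
  unfold Chk3; infer_instance

/-- only the longest element meets all minors -/
def chk4 (S : Sys) (c : Crt) (t : BT) : Bool :=
  force (mulC S c S.base (code (id : Fin S.n → Fin S.n))) fun w =>
    t.all fun N _ _ => N.beq w || (List.finRange S.r).any fun k => !hitC S c k N

variable {S : Sys} {c : Crt}

theorem miss_out (h : Ok S c) {w l : List (Fin S.r)} {k : Fin S.r} (hm : miss S c w k = true)
    (hl : l.Sublist w) : ¬ S.hit k (S.pw l) := by
  have := List.all_eq_true.1 hm _ (reach_mem h k hl)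
  rw [← hitT_code h]
  simpa using this

theorem axW_of {t : BT} {f : ℕ → Fin S.r × Fin S.r} (h : Ok S c) (ht : closed S c t = true)
    (h1 : Chk1 S) (h2 : Chk2 S) (h3 : Chk3 S c f) (h4 : chk4 S c t = true) : S.AxW := by
  obtain ⟨a1, a2, a3, a4, a5, a6, a7, a8, a9, a10, a11, a12⟩ := h1
  obtain ⟨b1, b2, b3, b4, b5, b6, b7, b8, b9, b10, b11, b12⟩ := h2
  refine ⟨a1, a2, a3, a4, a5, a6, a7, a8, a9, a10, b1.out, b2, b3, funext b4, fun l hl => ?_,
    b5, b6, b7, b8, b9, b10.out, b11.out,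
    fun l₁ i l₂ k₁ k k₂ e1 e2 => (b12.out l₁ i l₂ e1).out k₁ k k₂ e2, fun l₁ i l₂ e => ?_, a11, a12⟩
  · rw [chk4, force_eq, mulC_code h] at h4
    obtain ⟨_, _, h5⟩ := BT.out (closed_mem h ht l) h4
    rw [Bool.or_eq_true, List.any_eq_true] at h5
    rcases h5 with h5 | ⟨k, -, h5⟩
    · exact code_inj h.1 (Nat.eq_of_beq_eq_true h5)
    · rw [(hitC_code h k _).2 (hl k)] at h5
      exact absurd h5 (by simp)
  · obtain ⟨c1, c2, c3⟩ := Spl.out h3 l₁ i l₂ e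
    exact ⟨_, _, c1, fun l hl => ⟨miss_out h c2 hl, miss_out h c3 hl⟩⟩

/-- check for one cell -/
def okC (S : Sys) (c : Crt) (K : Fin S.r → Bool) (Y : List (Fin S.r)) (N : ℕ) : Bool :=
  (force (demC S c Y N) fun M => (List.finRange S.r).all fun k => hitC S c k M) && drops S c K Y N

/-- check for one node -/
def ChkI (S : Sys) (c : Crt) (t : BT) (K : Fin S.r → Bool) (i : Fin S.r) (X : List (Fin S.r)) :
    Prop :=
  K i = true ∧ Spl (fun l₁ j _ => S.up (S.pw l₁) j) [] (i :: X) ∧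
  (∀ a, S.pw (i :: X) a = S.pw S.base a) ∧
  (t.all fun N _ _ => force (demC S c X.reverse N) fun M =>
    (List.finRange S.r).all fun k => decide (k = i) || hitC S c k M) = true

instance (S : Sys) (c : Crt) (t : BT) (K : Fin S.r → Bool) (i : Fin S.r) (X : List (Fin S.r)) :
    Decidable (ChkI S c t K i X) := by unfold ChkI; infer_instance

/-- check for all cells -/
def chkC (S : Sys) (c : Crt) (t : BT) (f : ℕ → Fin S.r) (K : Fin S.r → Fin S.r → Bool)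
    (X : Fin S.r → List (Fin S.r)) : Bool :=
  force (code (id : Fin S.n → Fin S.n)) fun e => t.all fun N i w => N.beq e ||
    bif w.isEmpty then okC S c (K (f i)) (X (f i)).reverse N else
      N.beq (mulC S c (w.map f) e) &&
        force (mulC S c (w.map f).reverse e) (okC S c (K (f i)) (X (f i)).reverse)

theorem copOK_of (h : Ok S c) {t : BT} (ht : closed S c t = true) {K : Fin S.r → Bool}
    {i : Fin S.r} {X : List (Fin S.r)} (hi : ChkI S c t K i X) {π : Fin S.n → Fin S.n}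
    (ho : okC S c K X.reverse (code π) = true) : S.CopOK {k | K k = true} π i X := by
  rw [okC, Bool.and_eq_true, force_eq, demC_code h, List.all_eq_true] at ho
  refine ⟨hi.1, hi.2.1.out, funext hi.2.2.1,
    fun k => (hitC_code h k _).1 (ho.1 k (List.mem_finRange k)), fun l k hk => ?_,
    fun l₁ j l₂ e hu => drops_out h l₁ j l₂ π (e ▸ ho.2) hu⟩
  obtain ⟨_, _, h5⟩ := BT.out (closed_mem h ht l) hi.2.2.2
  rw [force_eq, demC_code h, List.all_eq_true] at h5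
  have := h5 k (List.mem_finRange k)
  rwa [decide_eq_false hk, Bool.false_or, hitC_code h] at this

theorem copAx_of (h : Ok S c) (hs : ∀ i a, S.sg i (S.sg i a) = a) {t : BT}
    (ht : closed S c t = true) {f : ℕ → Fin S.r} {K : Fin S.r → Fin S.r → Bool}
    {X : Fin S.r → List (Fin S.r)} (hi : ∀ i, ChkI S c t (K i) i (X i))
    (hc : chkC S c t f K X = true) : S.CopAx fun i => {k | K i k = true} := by
  intro l
  rw [chkC, force_eq] at hc
  obtain ⟨i, w, h5⟩ := BT.out (closed_mem h ht l) hc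
  rw [Bool.or_eq_true] at h5
  rcases h5 with h5 | h5
  · exact Or.inl (code_inj h.1 (Nat.eq_of_beq_eq_true h5))
  refine Or.inr ⟨f i, X (f i), ?_⟩
  cases e : w.isEmpty
  · rw [e, cond_false, Bool.and_eq_true, force_eq, mulC_code h, mulC_code h] at h5
    have e1 : S.pw l = S.pw (w.map f) := code_inj h.1 (Nat.eq_of_beq_eq_true h5.1)
    have e2 : S.pw l.reverse = S.pw (w.map f).reverse := by
      calc S.pw l.reverse = S.pw l.reverse ∘ (S.pw (w.map f) ∘ S.pw (w.map f).reverse) := by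
            rw [(pw_rev hs _).2]; rfl
        _ = (S.pw l.reverse ∘ S.pw l) ∘ S.pw (w.map f).reverse := by rw [e1]; rfl
        _ = _ := by rw [(pw_rev hs _).1]; rfl
    rw [e2]
    exact Or.inr (copOK_of h ht (hi _) h5.2)
  · rw [e, cond_true] at h5
    exact Or.inl (copOK_of h ht (hi _) h5)

theorem copOK_mono {K K' : Set (Fin S.r)} (hK : K ⊆ K') {π : Fin S.n → Fin S.n} {i : Fin S.r}
    {X : List (Fin S.r)} (h : S.CopOK K π i X) : S.CopOK K' π i X :=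
  ⟨hK h.1, h.2.1, h.2.2.1, h.2.2.2.1, h.2.2.2.2.1, fun l₁ j l₂ e hu =>
    (h.2.2.2.2.2 l₁ j l₂ e hu).imp fun _ hk => ⟨hK hk.1, hk.2⟩⟩

theorem copAx_mono {K K' : Fin S.r → Set (Fin S.r)} (hK : ∀ i, K i ⊆ K' i) (h : S.CopAx K) :
    S.CopAx K' := fun l => (h l).imp_right fun ⟨i, X, h⟩ =>
  ⟨i, X, h.imp (copOK_mono (hK i)) (copOK_mono (hK i))⟩

end CW

/-- admissible nodes from a table -/
def Dat.KB (d : Dat) (T : List (List ℕ)) (i k : Fin d.toSys.r) : Bool :=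
  (T.getD i.val []).contains k.val

/-- admissible nodes from a table, as sets -/
def Dat.KS (d : Dat) (T : List (List ℕ)) (i : Fin d.toSys.r) : Set (Fin d.toSys.r) :=
  {k | d.KB T i k = true}

/-- words from a table -/
def Dat.XW (d : Dat) (T : List (List ℕ)) (i : Fin d.toSys.r) : List (Fin d.toSys.r) :=
  (T.getD i.val []).map (fo d.r)

/-- pairs of nodes from a table -/
def Dat.PR (d : Dat) (T : List (ℕ × ℕ)) (j : ℕ) : Fin d.toSys.r × Fin d.toSys.r :=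
  (fo d.r (T.getD j (0, 0)).1, fo d.r (T.getD j (0, 0)).2)

end Pool.Agent.Lib.MP_755cca_al.F
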