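import Pool.Agent.Lib.MP_755cca_al.F.ChkW2

/-! A second covering of the cells for the table of type `G₂`. -/

namespace Pool.Agent.Lib.MP_755cca_al.F

open CW

/-- the Weyl group, with the node chosen for each element -/
def btG2b : BT :=
    (.node (.node (.node (lf 1144132807 1 []) 2184321191 1 [] (lf 34531805414 1 [])) 39732747334 1
    [] (.node (lf 68925097189 1 []) 75166227493 1 [] .nil)) 173110591682 1 [] (.node (.node (lf
    179351721986 1 [1, 0]) 208544071841 1 [] .nil) 213745013761 0 [] (.node (lf 246092497984 1 [])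
    247132686368 0 [] .nil)))

theorem clG2b : closed datG2.toSys crtG2 btG2b = true := by decide +kernel

/-- admissible nodes -/
def ktG2b : List (List ℕ) := [[0], [0, 1]]

theorem copAxG2b : datG2.toSys.CopAx (datG2.KS ktG2b) :=
  copAx_of (f := fo datG2.r) (X := datG2.XW
    [[1, 0, 1, 0, 1], [0, 1, 0, 1, 0]])
    okG2 axWG2.sg_sg clG2b (by decide +kernel) (by decide +kernel)

end Pool.Agent.Lib.MP_755cca_al.F
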