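import Mathlib

/-! Chinese remainder lemmas for the cores. -/

namespace Pool.Agent.Lib.MP_755cca_al.F

theorem crt_cop {m a b c : ℤ} (hb : IsCoprime b m) (h : m ∣ a * c - b) : IsCoprime c m := by
  obtain ⟨k, hk⟩ := h
  obtain ⟨u, v, e⟩ := hb
  exact ⟨u * a, v - u * k, by linear_combination e + u * hk⟩

theorem crt_units {ι : Type} [Finite ι] (m a b : ι → ℤ)
    (hm : ∀ i j, i ≠ j → IsCoprime (m i) (m j)) (ha : ∀ j, IsCoprime (a j) (m j))
    (hb : ∀ j, IsCoprime (b j) (m j)) :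
    ∃ c : ℤ, (∀ j, m j ∣ a j * c - b j) ∧ ∀ j, IsCoprime c (m j) := by
  choose u v e using ha
  obtain ⟨c, hc⟩ := Ideal.exists_forall_sub_mem_ideal (I := fun j => Ideal.span {m j})
    (fun i j h => (Ideal.isCoprime_span_singleton_iff _ _).2 (hm i j h)) fun j => u j * b j
  have h : ∀ j, m j ∣ a j * c - b j := fun j => by
    obtain ⟨k, hk⟩ := Ideal.mem_span_singleton.1 (hc j)
    exact ⟨a j * k - v j * b j, by linear_combination a j * hk + b j * e j⟩
  exact ⟨c, h, fun j => crt_cop (hb j) (h j)⟩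

theorem crt_aux {m M a b : ℤ} (hM : IsCoprime m M) (ha : IsCoprime a m) (hb : IsCoprime b m) :
    ∃ z : ℤ, z ≠ 0 ∧ m ∣ a * z - b ∧ IsCoprime z m ∧ IsCoprime z M := by
  obtain ⟨u, v, e⟩ := ha
  obtain ⟨r, s, e'⟩ := hM
  have h1 : m ∣ a * (u * b * s * M + r * m) - b :=
    ⟨a * r - b * v - a * u * b * r, by linear_combination b * e + a * u * b * e'⟩
  have h2 : IsCoprime (u * b * s * M + r * m) M := ⟨1, s - u * b * s, by linear_combination e'⟩
  by_cases h : u * b * s * M + r * m = 0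
  · have h3 := crt_cop hb h1
    rw [h] at h3
    exact ⟨1, one_ne_zero, (isCoprime_zero_left.1 h3).dvd, isCoprime_one_left, isCoprime_one_left⟩
  · exact ⟨_, h, h1, crt_cop hb h1, h2⟩

/-- the same without coprimality of `m` and `M`, for `M ≠ 0` -/
theorem crt_aux_ne {m M a b : ℤ} (hm : m ≠ 0) (hM : M ≠ 0) (ha : IsCoprime a m)
    (hb : IsCoprime b m) :
    ∃ z : ℤ, Prime z ∧ m ∣ a * z - b ∧ IsCoprime z m ∧ IsCoprime z M := by
  obtain ⟨u, v, e⟩ := ha
  have h0 : m ∣ a * (u * b) - b := ⟨- b * v, by linear_combination b * e⟩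
  obtain ⟨p, hp, hpp, hc⟩ := Nat.forall_exists_prime_gt_and_zmodEq M.natAbs
    (q := m.natAbs) (a := u * b) (Int.natAbs_ne_zero.2 hm) (by
      rw [Int.natCast_natAbs, IsCoprime.abs_right_iff]
      exact crt_cop hb h0)
  have h1 : m ∣ a * p - b := by
    have := Int.natAbs_dvd.1 hc.symm.dvd
    have e2 : a * p - b = a * (p - u * b) + (a * (u * b) - b) := by ring
    rw [e2]
    exact dvd_add (this.mul_left a) h0
  have hz : Prime (p : ℤ) := Nat.prime_iff_prime_int.1 hpp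
  refine ⟨p, hz, h1, crt_cop hb h1, (Prime.coprime_iff_not_dvd hz).2 fun h => ?_⟩
  exact absurd (Nat.le_of_dvd (Int.natAbs_pos.2 hM) (Int.natCast_dvd.1 h)) (not_le.2 hp)

end Pool.Agent.Lib.MP_755cca_al.F
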