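import Mathlib

/-! Arithmetic for the leaf lemmas. -/

open scoped NumberTheorySymbols

namespace Pool.Agent.Lib.MP_755cca_al.F.Lf

/-- powers of a two by two matrix -/
theorem pow_mat (a d n δ : ℤ) (h : a * d - n = δ) (m : ℕ) :
    ∃ X Y : ℤ, X ^ 2 + (a + d) * X * Y + δ * Y ^ 2 = δ ^ m ∧ n ∣ X + Y * a - a ^ m := by
  induction m with
  | zero => exact ⟨1, 0, by ring, by simp⟩
  | succ m ih =>
    obtain ⟨X, Y, h1, z, h2⟩ := ih
    refine ⟨-δ * Y, X + (a + d) * Y, ?_, a * z + Y, ?_⟩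
    · rw [pow_succ δ m, ← h1]; ring
    · rw [pow_succ a m]
      linear_combination a * h2 + Y * h

theorem pow_mat' (a d n δ : ℤ) (h : a * d - n = δ) (m : ℕ) :
    ∃ x x' y y' : ℤ, x * x' = δ ^ m + n * y ^ 2 ∧ y * y' = x ^ 2 - δ ^ m ∧ n ∣ x - a ^ m := by
  obtain ⟨X, Y, h1, h2⟩ := pow_mat a d n δ h m
  refine ⟨X + Y * a, X + Y * d, Y, 2 * X * a + Y * a ^ 2 - (a + d) * X - δ * Y, ?_, ?_, h2⟩
  · linear_combination h1 + Y ^ 2 * h
  · linear_combination -h1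

/-- an even exponent killing `c` modulo `P` -/
theorem exists_exp (P c : ℤ) (hP : P ≠ 0) (h : IsCoprime c P) :
    ∃ j : ℕ, Odd j ∧ P ∣ c ^ (j + 1) - 1 := by
  have hn : 0 < P.natAbs := Int.natAbs_pos.mpr hP
  have ht : 0 < P.natAbs.totient := Nat.totient_pos.mpr hn
  have h1 : c.natAbs ^ P.natAbs.totient ≡ 1 [MOD P.natAbs] :=
    Nat.ModEq.pow_totient (Int.isCoprime_iff_gcd_eq_one.mp h)
  obtain ⟨t, ht'⟩ : ∃ t, P.natAbs.totient = t + 1 := ⟨_, (Nat.succ_pred_eq_of_pos ht).symm⟩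
  refine ⟨2 * t + 1, ⟨t, rfl⟩, ?_⟩
  have h2 : P ∣ |c| ^ (t + 1) - 1 := by
    rw [← ht']
    have := h1.symm.dvd
    simpa using this
  have : c ^ (2 * t + 1 + 1) - 1 = (|c| ^ (t + 1) - 1) * (|c| ^ (t + 1) + 1) := by
    have h3 : c ^ (2 * t + 1 + 1) = (|c| ^ 2) ^ (t + 1) := by rw [sq_abs]; ring
    rw [h3]; ring
  rw [this]
  exact h2.mul_right _

/-- the auxiliary prime and the exponent -/
theorem core (P c : ℤ) (j : ℕ) (hj : Odd j) (hc : P ∣ c ^ (j + 1) - 1) (p : ℕ) (hp : p.Prime)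
    (hpj : 2 * (j + 1) < p) (u : ℤ) (hu : IsCoprime u p) :
    ∃ r m : ℕ, r.Prime ∧ p < r ∧ r % 4 = 3 ∧ (p : ℤ) ∣ r - u ∧ Odd m ∧
      (∀ a : ℤ, P ∣ a - c → P ∣ a ^ m - c) ∧ ∀ a : ℤ, (r : ℤ) ∣ a ^ m - J(a | r) ^ j := by
  have hcop : IsCoprime ((2 * (j + 1) : ℕ) : ℤ) (p : ℤ) := by
    rw [Nat.isCoprime_iff_coprime]
    exact (Nat.coprime_of_lt_prime (by omega) hpj hp).symm
  obtain ⟨α, β, hαβ⟩ := hcop
  set K : ℤ := ((2 * (j + 1) : ℕ) : ℤ) with hK
  have hw : IsCoprime (u * (α * K) - β * p) ((2 * (j + 1) * p : ℕ) : ℤ) := by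
    rw [Nat.cast_mul _ p, ← hK]
    apply IsCoprime.mul_right
    · exact ⟨-1, α * (u + 1), by linear_combination hαβ⟩
    · obtain ⟨e, f, hef⟩ := hu
      exact ⟨e, f + e * β * (u + 1), by linear_combination hef + e * u * hαβ⟩
  obtain ⟨r, hr, hrp, hmod⟩ := Nat.forall_exists_prime_gt_and_zmodEq p
    (q := 2 * (j + 1) * p) (by have := hp.pos; positivity) hw
  obtain ⟨z, hz⟩ := hmod.dvd
  rw [Nat.cast_mul _ p, ← hK] at hz
  have hK1 : ((2 * (j + 1) : ℕ) : ℤ) ∣ ((r + 1 : ℕ) : ℤ) := by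
    rw [← hK]
    refine ⟨α * (u + 1) - p * z, ?_⟩
    push_cast
    linear_combination -hz - hαβ
  obtain ⟨t, ht⟩ := Int.natCast_dvd_natCast.mp hK1
  obtain ⟨i, rfl⟩ := hj
  have ht0 : 0 < t := by
    rcases Nat.eq_zero_or_pos t with h | h
    · simp [h] at ht
    · exact h
  have ht4 : r + 1 = 4 * ((i + 1) * t) := by rw [ht]; ring
  have hh : r / 2 + 1 = (2 * i + 1 + 1) * t := by
    have : (2 * i + 1 + 1) * t = 2 * ((i + 1) * t) := by ring
    omega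
  obtain ⟨n, hn⟩ : ∃ n, t * (2 * i + 1) = n + 1 :=
    ⟨_, (Nat.succ_pred_eq_of_pos (by positivity)).symm⟩
  have hm : r / 2 * (2 * i + 1) = (2 * i + 1 + 1) * n + 1 := by
    have : (r / 2 + 1) * (2 * i + 1) = (2 * i + 1 + 1) * (n + 1) := by
      rw [hh, ← hn]; ring
    nlinarith
  refine ⟨r, r / 2 * (2 * i + 1), hrp, hr, by omega, ?_, ?_, ?_, ?_⟩
  · refine ⟨-(β * (u + 1)) - K * z, ?_⟩
    linear_combination -hz + u * hαβ
  · rw [hm]
    exact ⟨(i + 1) * n, by ring⟩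
  · intro a ha
    have h1 : P ∣ a ^ (r / 2 * (2 * i + 1)) - c ^ (r / 2 * (2 * i + 1)) :=
      ha.trans (sub_dvd_pow_sub_pow _ _ _)
    have h2 : P ∣ (c ^ (2 * i + 1 + 1)) ^ n - 1 ^ n := hc.trans (sub_dvd_pow_sub_pow _ _ _)
    have h3 : a ^ (r / 2 * (2 * i + 1)) - c =
        (a ^ (r / 2 * (2 * i + 1)) - c ^ (r / 2 * (2 * i + 1))) +
          ((c ^ (2 * i + 1 + 1)) ^ n - 1 ^ n) * c := by
      rw [← pow_mul, hm]; ring
    rw [h3]
    exact h1.add (h2.mul_right _)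
  · intro a
    have : Fact r.Prime := ⟨hrp⟩
    have h1 : (r : ℤ) ∣ a ^ (r / 2) - J(a | r) := by
      rw [← ZMod.intCast_zmod_eq_zero_iff_dvd, ← jacobiSym.legendreSym.to_jacobiSym]
      push_cast
      rw [legendreSym.eq_pow, sub_self]
    rw [pow_mul]
    exact h1.trans (sub_dvd_pow_sub_pow _ _ _)

/-- an odd representative -/
theorem exists_odd (P c : ℤ) (h : IsCoprime c P) :
    ∃ c' : ℤ, P ∣ c' - c ∧ IsCoprime c' (4 * P) := by
  have key : ∀ c' : ℤ, Odd c' → IsCoprime c' P → IsCoprime c' (4 * P) := by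
    rintro c' ⟨k, rfl⟩ h'
    refine IsCoprime.mul_right ⟨1 - 2 * k, k ^ 2, by ring⟩ h'
  rcases Int.even_or_odd c with hc | hc
  · have hP : Odd P := by
      rcases Int.even_or_odd P with hP | hP
      · obtain ⟨a, b, hab⟩ := h
        have : Even (1 : ℤ) := hab ▸ (hc.mul_left a).add (hP.mul_left b)
        exact absurd this (by decide)
      · exact hP
    refine ⟨c + P, by simp, key _ (hc.add_odd hP) ?_⟩
    obtain ⟨a, b, hab⟩ := h
    exact ⟨a, b - a, by linear_combination hab⟩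
  · exact ⟨c, by simp, key _ hc h⟩

/-- a large prime in a class modulo `4 P` -/
theorem exists_prime (P c : ℤ) (hP : P ≠ 0) (h : IsCoprime c (4 * P)) (N : ℕ) :
    ∃ p : ℕ, N < p ∧ p.Prime ∧ 4 * P ∣ p - c ∧ IsCoprime (4 * P) p := by
  have h4 : (4 * P).natAbs ≠ 0 := by simpa using hP
  obtain ⟨p, hp, hpp, hmod⟩ := Nat.forall_exists_prime_gt_and_zmodEq N h4 (a := c)
    (by rw [Int.natCast_natAbs]; exact h.abs_right)
  have h1 : 4 * P ∣ p - c := by
    have := hmod.symm.dvd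
    rwa [Int.natCast_natAbs, abs_dvd] at this
  refine ⟨p, hp, hpp, h1, ?_⟩
  obtain ⟨z, hz⟩ := h1
  obtain ⟨a, b, hab⟩ := h
  exact ⟨b - a * z, a, by linear_combination hab + a * hz⟩

theorem pow_odd_sign {e : ℤ} (he : e * e = 1) {j : ℕ} (hj : Odd j) : e ^ j = e := by
  obtain ⟨i, rfl⟩ := hj
  rw [pow_succ, pow_mul, pow_two, he, one_pow, one_mul]

theorem jac_sq {a : ℤ} {b : ℕ} (h : IsCoprime a b) : J(a | b) * J(a | b) = 1 := by
  rw [← pow_two]
  exact jacobiSym.sq_one (Int.isCoprime_iff_gcd_eq_one.mp h)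

theorem jac_sign {e : ℤ} (he : e * e = 1) {b : ℕ} (hb : b % 4 = 3) : J(e | b) = e := by
  rcases Int.eq_one_or_neg_one_of_mul_eq_one he with rfl | rfl
  · exact jacobiSym.one_left b
  · rw [jacobiSym.at_neg_one (Nat.odd_iff.mpr (by omega)), ZMod.χ₄_nat_three_mod_four hb]

theorem jac_congr {a a' : ℤ} {b : ℕ} (h : (b : ℤ) ∣ a - a') : J(a | b) = J(a' | b) :=
  jacobiSym.mod_left' (Int.modEq_iff_dvd.mpr h).symm

/-- the leaf lemma -/
theorem leaf (P c s₁ s₃ : ℤ) (hP : P ≠ 0) (hc : IsCoprime c P) (h₁ : s₁ * s₁ = 1)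
    (h₃ : s₃ * s₃ = 1) :
    ∃ x x' y y' b b' : ℤ, P ∣ x - c ∧ x * x' = s₁ + b * y ^ 2 * P ∧ y * y' = x ^ 2 - 1 ∧
      b * b' = x + s₃ := by
  obtain ⟨j, hj, hcj⟩ := exists_exp P c hP hc
  obtain ⟨c', hc', hc4⟩ := exists_odd P c hc
  obtain ⟨η, hη, hη4⟩ : ∃ η : ℤ, η * η = 1 ∧ (η * c') % 4 = 3 := by
    have hodd : c' % 2 = 1 := by
      obtain ⟨a, b, hab⟩ := hc4
      rcases Int.emod_two_eq_zero_or_one c' with h | h
      · obtain ⟨k, rfl⟩ := Int.dvd_of_emod_eq_zero h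
        have : 2 * (a * k + b * 2 * P) = 1 := by linear_combination hab
        omega
      · exact h
    by_cases h : c' % 4 = 3
    · exact ⟨1, by ring, by omega⟩
    · exact ⟨-1, by ring, by omega⟩
  have hcop : IsCoprime (η * c') (4 * P) := by
    obtain ⟨a, b, hab⟩ := hc4
    exact ⟨a * η, b, by linear_combination hab + a * c' * hη⟩
  obtain ⟨p, hpj, hp, ⟨z, hz⟩, hpP⟩ := exists_prime P _ hP hcop (2 * (j + 1))
  have hp4 : p % 4 = 3 := by
    have : (p : ℤ) = η * c' + 4 * (P * z) := by linear_combination hz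
    omega
  obtain ⟨e, f, hef⟩ := hpP
  -- `w` is the class of `b` modulo `p`
  set w : ℤ := -(s₁ * (4 * e)) with hw
  have hwp : IsCoprime w p := ⟨-(s₁ * P), f, by
    rw [hw]; linear_combination hef + 4 * e * P * h₁⟩
  have hJ := jac_sq hwp
  set θ : ℤ := s₃ * η * J(w | p) with hθ
  have hθ2 : θ * θ = 1 := by
    have : θ * θ = (s₃ * s₃) * (η * η) * (J(w | p) * J(w | p)) := by rw [hθ]; ring
    rw [this, h₃, hη, hJ]; ring
  have hup : IsCoprime (θ * w) p := by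
    obtain ⟨a, b, hab⟩ := hwp
    exact ⟨a * θ, b, by linear_combination hab + a * w * hθ2⟩
  obtain ⟨r, m, -, -, hr4, hru, -, hmP, hmr⟩ := core P c j hj hcj p hp hpj _ hup
  have hJr : J(η * p | r) = -s₃ := by
    rw [jacobiSym.mul_left, jac_sign hη hr4,
      jacobiSym.quadratic_reciprocity_three_mod_four hp4 hr4, jac_congr hru,
      jacobiSym.mul_left, jac_sign hθ2 hp4, hθ]
    linear_combination (-(s₃ * η * η)) * hJ - s₃ * hη
  obtain ⟨g, hg⟩ := hru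
  obtain ⟨x, x', y, y', e1, e2, e3⟩ := pow_mat' (η * p) (η * (f + s₁ * θ * g * P))
    (s₁ * (θ * r) * P) 1 (by
      have hr : (r : ℤ) = θ * w + p * g := by linear_combination hg
      rw [hr, hw]
      linear_combination (p * (f + s₁ * θ * g * P)) * hη + hef +
        (4 * e * P * s₁ * s₁) * hθ2 + 4 * e * P * h₁) m
  have hb : θ * r ∣ x + s₃ := by
    have t1 : (r : ℤ) ∣ x - (η * p) ^ m :=
      (Dvd.intro (s₁ * θ * P) (by ring)).trans e3
    have t2 := hmr (η * p)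
    rw [hJr, pow_odd_sign (by linear_combination h₃) hj] at t2
    obtain ⟨k, hk⟩ := t1.add t2
    exact ⟨θ * k, by linear_combination hk - r * k * hθ2⟩
  obtain ⟨b', hb'⟩ := hb
  refine ⟨x, s₁ * x', y, y', θ * r, b', ?_, ?_, by simpa using e2, hb'.symm⟩
  · have t1 : P ∣ x - (η * p) ^ m := (Dvd.intro_left _ rfl).trans e3
    have t2 : P ∣ (η * p) ^ m - c := by
      apply hmP
      obtain ⟨k, hk⟩ := hc'
      exact ⟨k + η * 4 * z, by linear_combination hk + η * hz + c' * hη⟩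
    simpa using t1.add t2
  · rw [one_pow] at e1
    linear_combination s₁ * e1 + θ * r * P * y ^ 2 * h₁

theorem jac_flip (N : ℕ) (hN : 0 < N) {p q : ℕ} (hp : Odd p) (hq : Odd q)
    (h : (4 * N : ℤ) ∣ p + q) : J(-(N : ℤ) | q) = -J(-(N : ℤ) | p) := by
  obtain ⟨M, hM⟩ : ∃ M, 4 * N = M + 1 := ⟨_, (Nat.succ_pred_eq_of_pos (by omega)).symm⟩
  have hMz : (4 * N : ℤ) = M + 1 := by exact_mod_cast hM
  have hMo : Odd M := Nat.odd_iff.mpr (by omega)
  have h1 : q ≡ p * M [MOD 4 * N] := by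
    rw [Nat.modEq_iff_dvd]
    obtain ⟨k, hk⟩ := h
    refine ⟨p - k, ?_⟩
    push_cast
    linear_combination -hk - p * hMz
  have h2 : J(-(N : ℤ) | q) = J(-(N : ℤ) | p * M) := by
    rw [jacobiSym.mod_right _ hq, jacobiSym.mod_right _ (hp.mul hMo), Int.natAbs_neg,
      Int.natAbs_natCast, h1]
  have h3 : J(-(N : ℤ) | M) = -1 := by
    have h4 : J(4 * -(N : ℤ) | M) = J(-1 | M) := jac_congr ⟨-1, by linear_combination -hMz⟩
    rw [jacobiSym.mul_left, jacobiSym.at_four hMo, one_mul,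
      jac_sign (e := -1) (by ring) (by omega)] at h4
    exact h4
  rw [h2, jacobiSym.mul_right' _ hp.pos.ne' hMo.pos.ne', h3]
  ring

/-- the leaf lemma with a square -/
theorem leafSq (P c : ℤ) (hP : P ≠ 0) (hc : IsCoprime c P) :
    ∃ s x x' y y' b b' : ℤ, s * s = 1 ∧ P ∣ x - c ∧ x * x' = P.sign + b ^ 2 * y ^ 2 * P ∧
      y * y' = x ^ 2 + P.sign ∧ b * b' = x + s := by
  obtain ⟨j, hj, hcj⟩ := exists_exp P c hP hc
  obtain ⟨c', hc', hc4⟩ := exists_odd P c hc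
  have hN : 0 < P.natAbs := Int.natAbs_pos.mpr hP
  have hσ : P.sign * P.sign = 1 := by
    rcases lt_or_gt_of_ne hP with h | h
    · rw [Int.sign_eq_neg_one_of_neg h]; ring
    · rw [Int.sign_eq_one_of_pos h]; ring
  have hσP : P.sign * (P.natAbs : ℤ) = P := Int.sign_mul_natAbs P
  obtain ⟨η, p, hη, hpj, hp, hz, hpP, hJ⟩ : ∃ (η : ℤ) (p : ℕ), η * η = 1 ∧ 2 * (j + 1) < p ∧
      p.Prime ∧ 4 * P ∣ p - η * c' ∧ IsCoprime (4 * P) p ∧ J(-(P.natAbs : ℤ) | p) = 1 := by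
    obtain ⟨p, hpj, hp, hz, hpP⟩ := exists_prime P _ hP hc4 (2 * (j + 1))
    obtain ⟨q, hqj, hq, hz', hqP⟩ := exists_prime P _ hP hc4.neg_left (2 * (j + 1))
    have hflip := jac_flip P.natAbs hN (hp.odd_of_ne_two (by omega)) (hq.odd_of_ne_two (by omega))
      (by
        obtain ⟨k, hk⟩ := hz.add hz'
        exact ⟨P.sign * k, by linear_combination hk - 4 * k * hσP⟩)
    have hcop : IsCoprime (-(P.natAbs : ℤ)) p := by
      obtain ⟨a, b, hab⟩ := hpP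
      exact ⟨-(a * 4 * P.sign), b, by linear_combination hab + a * 4 * hσP⟩
    rcases Int.eq_one_or_neg_one_of_mul_eq_one (jac_sq hcop) with h | h
    · exact ⟨1, p, by ring, hpj, hp, by simpa using hz, hpP, h⟩
    · exact ⟨-1, q, by ring, hqj, hq, by simpa using hz', hqP, by rw [hflip, h]; ring⟩
  have : Fact p.Prime := ⟨hp⟩
  obtain ⟨v, hv⟩ := ZMod.isSquare_of_jacobiSym_eq_one hJ
  obtain ⟨v, rfl⟩ := ZMod.intCast_surjective v
  have hv' : (p : ℤ) ∣ -(P.natAbs : ℤ) - v * v := by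
    rw [← ZMod.intCast_zmod_eq_zero_iff_dvd, Int.cast_sub, hv, Int.cast_mul, sub_self]
  obtain ⟨k, hk⟩ := hv'
  obtain ⟨e, f, hef⟩ := hpP
  obtain ⟨z, hz⟩ := hz
  -- `u` is the inverse of `v`
  set u : ℤ := -(4 * e * P.sign * v) with hu
  have huv : u * v + (f - 4 * e * P.sign * k) * p = 1 := by
    rw [hu]
    linear_combination hef + 4 * e * P.sign * hk + 4 * e * hσP
  obtain ⟨r, m, hr, hpr, -, ⟨g, hg⟩, hm, hmP, hmr⟩ := core P c j hj hcj p hp hpj u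
    ⟨v, f - 4 * e * P.sign * k, by linear_combination huv⟩
  have hd : (p : ℤ) ∣ -P.sign - r ^ 2 * P := by
    have t1 : (p : ℤ) ∣ r * v - 1 :=
      ⟨g * v - (f - 4 * e * P.sign * k), by linear_combination v * hg + huv⟩
    obtain ⟨l, hl⟩ := t1
    refine ⟨P.sign * (l * (r * v + 1) + r ^ 2 * k), ?_⟩
    linear_combination P.sign * (r * v + 1) * hl + P.sign * r ^ 2 * hk + r ^ 2 * hσP
  obtain ⟨d, hd⟩ := hd
  obtain ⟨x, x', y, y', e1, e2, e3⟩ := pow_mat' (η * p) (η * d) (-(r ^ 2 * P)) (-P.sign)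
    (by linear_combination (p * d) * hη - hd) m
  rw [pow_odd_sign (by linear_combination hσ) hm] at e1 e2
  have hcop : IsCoprime (η * p) r := by
    have t : IsCoprime (p : ℤ) r := by
      rw [Nat.isCoprime_iff_coprime]
      exact (Nat.coprime_primes hp hr).mpr hpr.ne
    obtain ⟨a, b, hab⟩ := t
    exact ⟨a * η, b, by linear_combination hab + a * p * hη⟩
  have hs := jac_sq hcop
  have hb : (r : ℤ) ∣ x + -J(η * p | r) := by
    have t1 : (r : ℤ) ∣ x - (η * p) ^ m := (Dvd.intro (-(r * P)) (by ring)).trans e3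
    have t2 := hmr (η * p)
    rw [pow_odd_sign hs hj] at t2
    simpa [sub_eq_add_neg] using t1.add t2
  obtain ⟨b', hb'⟩ := hb
  refine ⟨-J(η * p | r), x, -x', y, y', r, b', by linear_combination hs, ?_,
    by linear_combination -e1, by linear_combination e2, hb'.symm⟩
  have t1 : P ∣ x - (η * p) ^ m := (Dvd.intro_left (-((r : ℤ) ^ 2)) (by ring)).trans e3
  have t2 : P ∣ (η * p) ^ m - c := by
    apply hmP
    obtain ⟨k, hk⟩ := hc'
    exact ⟨k + η * 4 * z, by linear_combination hk + η * hz + c' * hη⟩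
  simpa using t1.add t2

end Pool.Agent.Lib.MP_755cca_al.F.Lf
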