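import Pool.Agent.Lib.MP_755cca_al.F.Stmt
import Pool.Agent.Lib.MP_755cca_al.F.LeafA

/-! The leaf lemmas. -/

namespace Pool.Agent.Lib.MP_755cca_al.F

theorem leafSt : LeafSt := fun P c s₁ s₃ hP hc h₁ h₃ => Lf.leaf P c s₁ s₃ hP hc h₁ h₃

theorem leafSqSt : LeafSqSt := fun P c hP hc => Lf.leafSq P c hP hc

end Pool.Agent.Lib.MP_755cca_al.F
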