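import Pool.Agent.Lib.MP_755cca_al.F.Stmt
import Pool.Agent.Lib.MP_755cca_al.F.LeafA

/-! The path lemma. -/

open scoped NumberTheorySymbols

namespace Pool.Agent.Lib.MP_755cca_al.F

namespace Pa

open Lf

/-- lifting a congruence `a ^ m u + v ≡ 0` to prime powers -/
theorem lift (q : ℕ) (hq : q.Prime) (h3 : 3 ≤ q) (a u v : ℤ) (ha : IsCoprime a q)
    (hu : IsCoprime u q) (h1 : (q : ℤ) ∣ a * u + v) (h2 : ¬ (q : ℤ) ^ 2 ∣ a ^ (q - 1) - 1)
    (n : ℕ) : ∃ m : ℕ, (q : ℤ) ^ (n + 1) ∣ a ^ m * u + v := by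
  have hqz : Prime (q : ℤ) := Nat.prime_iff_prime_int.mp hq
  obtain ⟨t, ht⟩ : (q : ℤ) ∣ a ^ (q - 1) - 1 :=
    (Int.ModEq.pow_card_sub_one_eq_one hq ha).symm.dvd
  have hqt : ¬ (q : ℤ) ∣ t := by
    rintro ⟨z, rfl⟩
    exact h2 ⟨z, by rw [ht]; ring⟩
  induction n with
  | zero => exact ⟨1, by simpa using h1⟩
  | succ n ih =>
    obtain ⟨m, h, hm⟩ := ih
    obtain ⟨y, hy⟩ := ZMod.exists_one_add_mul_pow_prime_pow_eq (R := ℤ) (u := (q : ℤ))
      (v := (q : ℤ)) hq dvd_rfl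
      (by
        have : (q : ℤ) * q * q = q ^ 3 := by ring
        rw [this]
        exact pow_dvd_pow _ h3) t n
    have hT : IsCoprime (t + q * y) q := by
      have : IsCoprime t q := ((Prime.coprime_iff_not_dvd hqz).mpr hqt).symm
      obtain ⟨e, f, hef⟩ := this
      exact ⟨e, f - e * y, by linear_combination hef⟩
    have hA : IsCoprime (a ^ m * u * (t + q * y)) q := (ha.pow_left.mul_left hu).mul_left hT
    obtain ⟨e, f, hef⟩ := hA
    have hq0 : (q : ℤ) ≠ 0 := hqz.ne_zero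
    obtain ⟨i, hi⟩ := Int.eq_ofNat_of_zero_le (Int.emod_nonneg (-(h * e)) hq0)
    have hi' := Int.emod_add_mul_ediv (-(h * e)) q
    rw [hi] at hi'
    obtain ⟨z, hz⟩ := sq_dvd_add_pow_sub_sub ((q : ℤ) ^ n * q * (t + q * y)) 1 i
    refine ⟨m + (q - 1) * (q ^ n * i), h * f - a ^ m * u * (t + q * y) * (-(h * e) / q) +
      a ^ m * u * q ^ n * (t + q * y) ^ 2 * z, ?_⟩
    have e1 : a ^ (q - 1) = 1 + q * t := by linear_combination ht
    rw [pow_add, pow_mul, e1, pow_mul, hy]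
    simp only [one_pow, one_mul] at hz
    rw [pow_succ, pow_succ]
    rw [pow_succ] at hm
    linear_combination hm + a ^ m * u * hz + q ^ n * q * a ^ m * u * (t + q * y) * hi' -
      q ^ n * q * h * hef

/-- a class modulo `q ^ 2` above `w` whose `q - 1`-st power is not one -/
theorem exists_wit (q : ℕ) (hq : q.Prime) (w : ℤ) (hw : IsCoprime w q) :
    ∃ w' : ℤ, (q : ℤ) ∣ w' - w ∧ ¬ (q : ℤ) ^ 2 ∣ w' ^ (q - 1) - 1 := by
  by_cases h : (q : ℤ) ^ 2 ∣ w ^ (q - 1) - 1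
  · refine ⟨w + q, by simp, fun h' => ?_⟩
    have hqz : Prime (q : ℤ) := Nat.prime_iff_prime_int.mp hq
    have h1 := sq_dvd_add_pow_sub_sub (q : ℤ) w (q - 1)
    have h2 : (q : ℤ) ^ 2 ∣ q * (w ^ (q - 1 - 1) * ((q - 1 : ℕ) : ℤ)) := by
      obtain ⟨a, ha⟩ := h'
      obtain ⟨b, hb⟩ := h
      obtain ⟨d, hd⟩ := h1
      exact ⟨a - b - d, by linear_combination ha - hb - hd⟩
    rw [pow_two, mul_dvd_mul_iff_left hqz.ne_zero] at h2
    have h3 : IsCoprime (w ^ (q - 1 - 1) * ((q - 1 : ℕ) : ℤ)) q := by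
      apply hw.pow_left.mul_left
      rw [Nat.cast_sub hq.one_le]
      exact ⟨-1, 1, by simp⟩
    exact hqz.not_isUnit (h3.symm.isUnit_of_dvd h2)
  · exact ⟨w, by simp, h⟩

/-- a prime `D s + 1` with `s` in a class modulo `J` and in a class modulo `M` -/
theorem core2 (J D s₀ M : ℕ) (hJ : 0 < J) (hD : 0 < D) (hM : M ≠ 0)
    (hMc : IsCoprime ((D * J : ℕ) : ℤ) (M : ℤ)) (h1 : Nat.Coprime (D * s₀ + 1) J) (w : ℤ)
    (hw : IsCoprime w M) :
    ∃ r s : ℕ, r.Prime ∧ r = D * s + 1 ∧ s ≡ s₀ [MOD J] ∧ (M : ℤ) ∣ r - w := by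
  obtain ⟨α, β, hαβ⟩ := hMc
  have h2 : IsCoprime ((D * s₀ + 1 : ℕ) : ℤ) ((D * J : ℕ) : ℤ) := by
    rw [Nat.isCoprime_iff_coprime]
    exact Nat.Coprime.mul_right (by simp) h1
  obtain ⟨e, f, hef⟩ := h2
  obtain ⟨e', f', hef'⟩ := hw
  push_cast at hαβ hef
  have hc : IsCoprime (w * (α * (D * J)) + (D * s₀ + 1) * (β * M)) ((D * J * M : ℕ) : ℤ) := by
    push_cast
    apply IsCoprime.mul_right
    · exact ⟨e, f - e * α * (w - (D * s₀ + 1)), by
        linear_combination hef + e * (D * s₀ + 1) * hαβ⟩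
    · exact ⟨e', f' - e' * β * (D * s₀ + 1 - w), by linear_combination hef' + e' * w * hαβ⟩
  obtain ⟨r, -, hr, hmod⟩ := Nat.forall_exists_prime_gt_and_zmodEq 0 (q := D * J * M)
    (by positivity) hc
  obtain ⟨z, hz⟩ := hmod.dvd
  push_cast at hz
  obtain ⟨r', rfl⟩ : ∃ r', r = r' + 1 := ⟨_, (Nat.succ_pred_eq_of_pos hr.pos).symm⟩
  push_cast at hz
  have h3 : (r' : ℤ) = D * (s₀ + J * (α * (w - (D * s₀ + 1)) - M * z)) := by
    linear_combination -hz + (D * s₀ + 1) * hαβ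
  obtain ⟨s, rfl⟩ := Int.natCast_dvd_natCast.mp ⟨_, h3⟩
  refine ⟨_, s, hr, rfl, ?_, ⟨β * (D * s₀ + 1 - w) - D * J * z, ?_⟩⟩
  · rw [Nat.modEq_iff_dvd]
    push_cast at h3
    have h4 := mul_left_cancel₀ (by exact_mod_cast hD.ne' : (D : ℤ) ≠ 0) h3
    exact ⟨-(α * (w - (D * s₀ + 1)) - M * z), by linear_combination -h4⟩
  · push_cast at hz ⊢
    linear_combination -hz + w * hαβ

/-- an odd class with `s` and `4 s + 1` prime to `J` -/
theorem exists_s0 (J : ℕ) (hJ : J ≠ 0) :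
    ∃ s : ℕ, Nat.Coprime s J ∧ Nat.Coprime (4 * s + 1) J := by
  obtain ⟨e, J', h5, rfl⟩ := Nat.exists_eq_pow_mul_and_not_dvd hJ 5 (by norm_num)
  have c5 : ∀ n : ℕ, n % 5 ≠ 0 → Nat.Coprime n (5 ^ e) := fun n hn =>
    Nat.Coprime.pow_right _ ((Nat.Prime.coprime_iff_not_dvd Nat.prime_five).mpr (by omega)).symm
  obtain ⟨l, h0, h1⟩ : ∃ l, (1 + J' * l) % 5 ≠ 0 ∧ (4 * (1 + J' * l) + 1) % 5 ≠ 0 := by
    by_cases h : J' % 5 = 4
    · exact ⟨2, by omega, by omega⟩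
    · exact ⟨1, by omega, by omega⟩
  refine ⟨1 + J' * l, (c5 _ h0).mul_right (by simp), (c5 _ h1).mul_right ?_⟩
  have : 4 * (1 + J' * l) + 1 = 5 + J' * (4 * l) := by ring
  rw [this, Nat.coprime_add_mul_left_left]
  exact (Nat.Prime.coprime_iff_not_dvd Nat.prime_five).mpr h5

/-- the exponent -/
theorem expo (P c : ℤ) (j : ℕ) (hj : Odd j) (hc : P ∣ c ^ (j + 1) - 1) (s : ℕ)
    (hs : Nat.Coprime s (j + 1)) :
    Odd s ∧ ∃ s' : ℕ, Odd s' ∧ ∀ a : ℤ, P ∣ a - c → P ∣ a ^ (s * s') - c := by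
  obtain ⟨s', -, h⟩ := Nat.exists_mul_mod_eq_one_of_coprime hs (by have := hj.pos; omega)
  have h1 := Nat.div_add_mod (s * s') (j + 1)
  rw [h] at h1
  set n := s * s' / (j + 1)
  have ho : Odd (s * s') := by
    rw [← h1]
    exact (hj.add_one.mul_right n).add_one
  refine ⟨(Nat.odd_mul.mp ho).1, s', (Nat.odd_mul.mp ho).2, fun a ha => ?_⟩
  have h2 : P ∣ a ^ (s * s') - c ^ (s * s') := ha.trans (sub_dvd_pow_sub_pow _ _ _)
  have h3 : P ∣ (c ^ (j + 1)) ^ n - 1 ^ n := hc.trans (sub_dvd_pow_sub_pow _ _ _)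
  have h4 : a ^ (s * s') - c = (a ^ (s * s') - c ^ (s * s')) + ((c ^ (j + 1)) ^ n - 1 ^ n) * c := by
    rw [← pow_mul, ← h1]; ring
  rw [h4]
  exact h2.add (h3.mul_right _)

theorem euler {r : ℕ} (hr : r.Prime) (a : ℤ) {s' : ℕ} (hs : Odd s')
    (h : J(a | r) * J(a | r) = 1) : (r : ℤ) ∣ a ^ (r / 2 * s') - J(a | r) := by
  have : Fact r.Prime := ⟨hr⟩
  have h1 : (r : ℤ) ∣ a ^ (r / 2) - J(a | r) := by
    rw [← ZMod.intCast_zmod_eq_zero_iff_dvd, ← jacobiSym.legendreSym.to_jacobiSym]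
    push_cast
    rw [legendreSym.eq_pow, sub_self]
  have h2 := h1.trans (sub_dvd_pow_sub_pow _ _ s')
  rwa [← pow_mul, pow_odd_sign h hs] at h2

/-- the end of the argument -/
theorem fin (k : ℕ) (hk : k ≠ 0) (s₁ s₂ u v a b : ℤ) (h₁ : s₁ * s₁ = 1)
    (hab : a ∣ 1 + s₁ * s₂ * b ^ k) (m : ℕ) (hb : b ∣ a ^ m * u + v) :
    ∃ x x' y y' b' : ℤ, x * x' = s₁ + s₂ * b ^ k * y ^ 2 ∧ y * y' = x ^ 2 - 1 ∧
      b * b' = x * u + v := by
  obtain ⟨d, hd⟩ := hab
  obtain ⟨x, x', y, y', e1, e2, e3⟩ := pow_mat' a d (s₁ * s₂ * b ^ k) 1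
    (by linear_combination -hd) m
  rw [one_pow] at e1 e2
  have t1 : b ∣ x - a ^ m := ((dvd_pow_self b hk).mul_left _).trans e3
  obtain ⟨b', hb'⟩ := (t1.mul_right u).add hb
  exact ⟨x, s₁ * x', y, y', b', by linear_combination s₁ * e1 + s₂ * b ^ k * y ^ 2 * h₁, e2,
    by linear_combination -hb'⟩

end Pa

open Lf Pa in
theorem pathSt : PathSt := by
  intro k P c s₁ s₂ u v hk hP hc h₁ h₂ hu hv
  obtain ⟨j, hj, hcj⟩ := exists_exp P c hP hc
  obtain ⟨c', hc', hc4⟩ := exists_odd P c hc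
  obtain ⟨η, hη, hη4⟩ : ∃ η : ℤ, η * η = 1 ∧ (η * c') % 4 = 3 := by
    have hodd : c' % 2 = 1 := by
      obtain ⟨a, b, hab⟩ := hc4
      rcases Int.emod_two_eq_zero_or_one c' with h | h
      · obtain ⟨k, rfl⟩ := Int.dvd_of_emod_eq_zero h
        have : 2 * (a * k + b * 2 * P) = 1 := by linear_combination hab
        omega
      · exact h
    by_cases h : c' % 4 = 3
    · exact ⟨1, by ring, by omega⟩
    · exact ⟨-1, by ring, by omega⟩
  have hcop : IsCoprime (η * c') (4 * P) := by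
    obtain ⟨a, b, hab⟩ := hc4
    exact ⟨a * η, b, by linear_combination hab + a * c' * hη⟩
  obtain ⟨q, hqj, hq, ⟨z, hz⟩, hqP⟩ := exists_prime P _ hP hcop (4 * (j + 1))
  have hq4 : q % 4 = 3 := by
    have : (q : ℤ) = η * c' + 4 * (P * z) := by linear_combination hz
    omega
  have hqc : P ∣ η * q - c := by
    obtain ⟨k, hk⟩ := hc'
    exact ⟨k + η * 4 * z, by linear_combination hk + η * hz + c' * hη⟩
  have huq : IsCoprime u q := hqP.of_isCoprime_of_dvd_left (hu.mul_left 4)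
  have hvq : IsCoprime v q := hqP.of_isCoprime_of_dvd_left (hv.mul_left 4)
  obtain ⟨e, f, hef⟩ := id huq
  have heq : IsCoprime e q := ⟨u, f, by linear_combination hef⟩
  obtain ⟨w, ⟨l, hl⟩, hw2⟩ := exists_wit q hq (-(v * e)) (hvq.mul_left heq).neg_left
  have hwq : IsCoprime w q := by
    obtain ⟨a, b, hab⟩ := (hvq.mul_left heq).neg_left
    exact ⟨a, b - a * l, by linear_combination hab + a * hl⟩
  have hJ := jac_sq hwq
  -- the common part
  have main : ∀ (D s₀ : ℕ) (θ : ℤ), 0 < D → D ≤ 4 → θ * θ = 1 → Nat.Coprime s₀ (j + 1) →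
      Nat.Coprime (D * s₀ + 1) (j + 1) →
      (∀ r s s' : ℕ, r.Prime → r = D * s + 1 → Odd s → Odd s' → J(r | q) = θ * J(w | q) →
        (r : ℤ) ∣ 1 + s₁ * s₂ * (η * q ^ (s * s')) ^ k) →
      ∃ x x' y y' b b' : ℤ, P ∣ b - c ∧ x * x' = s₁ + s₂ * b ^ k * y ^ 2 ∧
        y * y' = x ^ 2 - 1 ∧ b * b' = x * u + v := by
    intro D s₀ θ hD hD4 hθ hs₀ hs₁ H
    have hθw : IsCoprime (θ * w) q := by
      obtain ⟨a, b, hab⟩ := hwq
      exact ⟨a * θ, b, by linear_combination hab + a * w * hθ⟩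
    obtain ⟨r, s, hr, hrs, hss, g, hg⟩ := core2 (j + 1) D s₀ (q ^ 2) (by omega) hD
      (pow_ne_zero _ hq.ne_zero)
      (by
        rw [Nat.isCoprime_iff_coprime]
        apply Nat.Coprime.pow_right
        exact (Nat.coprime_of_lt_prime (by positivity) (by nlinarith) hq).symm)
      hs₁ (θ * w) (by push_cast; exact hθw.pow_right)
    push_cast at hg
    have hs : Nat.Coprime s (j + 1) := by
      unfold Nat.Coprime
      rw [hss.gcd_eq]
      exact hs₀
    obtain ⟨hso, s', hs', hP'⟩ := expo P c j hj hcj s hs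
    have hJr : J(r | q) = θ * J(w | q) := by
      rw [jac_congr (a := r) (a' := θ * w) ⟨q * g, by linear_combination hg⟩, jacobiSym.mul_left,
        jac_sign hθ hq4]
    have hdiv := H r s s' hr hrs hso hs' hJr
    have ha : θ * r = w + q ^ 2 * (θ * g) := by linear_combination θ * hg + w * hθ
    obtain ⟨n, hn⟩ : ∃ n, s * s' = n + 1 :=
      ⟨_, (Nat.succ_pred_eq_of_pos (hso.mul hs').pos).symm⟩
    obtain ⟨m, hm⟩ := lift q hq (by omega) (θ * r) u v
      (by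
        obtain ⟨a, b, hab⟩ := hwq
        exact ⟨a, b - a * q * θ * g, by linear_combination hab + a * ha⟩)
      huq ⟨v * f + l * u + q * θ * g * u, by linear_combination u * ha + u * hl - v * hef⟩
      (fun h => hw2 (by
        have t : (q : ℤ) ^ 2 ∣ (θ * r) ^ (q - 1) - w ^ (q - 1) :=
          (Dvd.intro (θ * g) (by linear_combination -ha)).trans (sub_dvd_pow_sub_pow _ _ _)
        simpa using h.sub t)) n
    rw [← hn] at hm
    obtain ⟨x, x', y, y', b', e1, e2, e3⟩ := fin k (by omega) s₁ s₂ u v (θ * r)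
      (η * q ^ (s * s')) h₁
      (by
        obtain ⟨d, hd⟩ := hdiv
        exact ⟨θ * d, by linear_combination hd - r * d * hθ⟩) m
      (by
        obtain ⟨d, hd⟩ := hm
        exact ⟨η * d, by linear_combination hd - q ^ (s * s') * d * hη⟩)
    refine ⟨x, x', y, y', _, b', ?_, e1, e2, e3⟩
    have t := hP' _ hqc
    rwa [mul_pow, pow_odd_sign hη (hso.mul hs')] at t
  have hσ : s₁ * s₂ * (s₁ * s₂) = 1 := by linear_combination s₂ * s₂ * h₁ + h₂
  by_cases hcase : k = 2 ∧ s₁ * s₂ = 1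
  · obtain ⟨rfl, hs⟩ := hcase
    obtain ⟨s₀, h0, h1⟩ := exists_s0 (j + 1) (by omega)
    refine main 4 s₀ (-J(w | q)) (by norm_num) le_rfl (by linear_combination hJ) h0 h1 ?_
    intro r s s' hr hrs hso hs' hJr
    have hJq : J(q | r) = -1 := by
      rw [← jacobiSym.quadratic_reciprocity_one_mod_four (a := r) (b := q) (by omega)
        (Nat.odd_iff.mpr (by omega)), hJr]
      linear_combination -hJ
    have t := euler hr q hs' (by rw [hJq]; ring)
    have h2 : r / 2 * s' = s * s' * 2 := by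
      have : r / 2 = 2 * s := by omega
      rw [this]; ring
    rw [hJq, h2, pow_mul] at t
    obtain ⟨d, hd⟩ := t
    exact ⟨d, by rw [hs]; linear_combination hd + ((q : ℤ) ^ (s * s')) ^ 2 * hη⟩
  · refine main 2 j (s₁ * s₂ * η * J(w | q)) (by norm_num) (by norm_num) ?_ (by simp) ?_ ?_
    · linear_combination η * η * J(w | q) * J(w | q) * hσ + J(w | q) * J(w | q) * hη + hJ
    · have : 2 * j + 1 = j + (j + 1) := by ring
      rw [this]
      simp
    · intro r s s' hr hrs hso hs' hJr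
      obtain ⟨i, hi⟩ := hso
      have hJq : J(q | r) = -(s₁ * s₂ * η) := by
        rw [jacobiSym.quadratic_reciprocity_three_mod_four hq4 (by omega), hJr]
        linear_combination -(s₁ * s₂ * η) * hJ
      have t := euler hr q hs' (by rw [hJq]; linear_combination η * η * hσ + hη)
      have h2 : r / 2 = s := by omega
      rw [hJq, h2] at t
      obtain ⟨d, hd⟩ := t
      rcases hk with rfl | rfl
      · exact ⟨s₁ * s₂ * η * d, by linear_combination s₁ * s₂ * η * hd - η * η * hσ - hη⟩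
      · have hs : s₁ * s₂ = -1 := by
          rcases Int.eq_one_or_neg_one_of_mul_eq_one hσ with h | h
          · exact absurd ⟨rfl, h⟩ hcase
          · exact h
        rw [hs] at hd ⊢
        exact ⟨-(d * (q ^ (s * s') + η)), by
          linear_combination -(q ^ (s * s') + η) * hd - (1 + (q ^ (s * s')) ^ 2) * hη⟩

end Pool.Agent.Lib.MP_755cca_al.F
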