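import Pool.Agent.Lib.MP_755cca_al.F.CoreQ
import Pool.Agent.Lib.MP_755cca_al.F.Chain
import Pool.Agent.Lib.MP_755cca_al.F.Crt
import Pool.Agent.Lib.MP_755cca_al.F.Leaf
import Pool.Agent.Lib.MP_755cca_al.F.Path

/-! Certificates for the arithmetic cores. -/

open Matrix
open scoped Pointwise

namespace Pool.Agent.Lib.MP_755cca_al.F.CQ

/-- signed monomials -/
abbrev Mo : Type := ℤ × List ℕ

def Mo.q (m : Mo) : Q := [(m.2.prod, m.1)]

def Mo.ev (v : ℕ → ℤ) (m : Mo) : ℤ := m.1 * (m.2.map v).prod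

def Mo.ok (S : List ℕ) (m : Mo) : Bool := m.1 * m.1 == 1 && m.2.all fun p => S.contains p

theorem Mo.ok_iff {S : List ℕ} {m : Mo} (h : m.ok S = true) : m.1 * m.1 = 1 ∧ ∀ p ∈ m.2, p ∈ S := by
  simpa [Mo.ok] using h

theorem Mo.ev_q (v : ℕ → ℤ) {S : List ℕ} {m : Mo} (h : m.ok S = true) (hS : ∀ p ∈ S, p.Prime) :
    CQ.ev v m.q = m.ev v := by
  simp [Mo.q, Mo.ev, mev_prod v fun p hp => hS p ((Mo.ok_iff h).2 p hp)]

theorem Mo.ev_congr {v v' : ℕ → ℤ} {S : List ℕ} {m : Mo} (h : m.ok S = true)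
    (hS : ∀ p ∈ S, v p = v' p) : m.ev v = m.ev v' := by
  rw [Mo.ev, Mo.ev, List.map_congr_left fun p hp => hS p ((Mo.ok_iff h).2 p hp)]

theorem Mo.cop {v : ℕ → ℤ} {S : List ℕ} {m : Mo} (h : m.ok S = true) {D : ℤ}
    (hS : ∀ p ∈ S, IsCoprime (v p) D) : IsCoprime (m.ev v) D := by
  obtain ⟨h1, h2⟩ := Mo.ok_iff h
  refine IsCoprime.mul_left ⟨m.1, 0, by linear_combination h1⟩ ?_
  refine List.prod_induction (fun x => IsCoprime x D) (fun a b => IsCoprime.mul_left)
    isCoprime_one_left ?_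
  intro x hx
  obtain ⟨p, hp, rfl⟩ := List.mem_map.mp hx
  exact hS p (h2 p hp)

theorem Mo.ne {v : ℕ → ℤ} {S : List ℕ} {m : Mo} (h : m.ok S = true)
    (hS : ∀ p ∈ S, v p ≠ 0) : m.ev v ≠ 0 := by
  obtain ⟨h1, h2⟩ := Mo.ok_iff h
  refine mul_ne_zero (fun h0 => by simp [h0] at h1) (List.prod_ne_zero ?_)
  intro hx
  obtain ⟨p, hp, e⟩ := List.mem_map.mp hx
  exact hS p (h2 p hp) e

theorem Mo.sq {v : ℕ → ℤ} {S : List ℕ} {m : Mo} (h : m.ok S = true)
    (hS : ∀ p ∈ S, v p * v p = 1) : m.ev v * m.ev v = 1 := by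
  obtain ⟨h1, h2⟩ := Mo.ok_iff h
  have : (m.2.map v).prod * (m.2.map v).prod = 1 := by
    refine List.prod_induction (fun x => x * x = 1)
      (fun a b ha hb => by linear_combination (b * b) * ha + hb) (by ring) ?_
    intro x hx
    obtain ⟨p, hp, rfl⟩ := List.mem_map.mp hx
    exact hS p (h2 p hp)
  rw [Mo.ev]
  linear_combination ((m.2.map v).prod * (m.2.map v).prod) * h1 + this

theorem Mo.dvd (v : ℕ → ℤ) {m : Mo} {p : ℕ} (h : p ∈ m.2) : v p ∣ m.ev v :=
  (List.dvd_prod (List.mem_map_of_mem h)).mul_left _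

/-- names of the lowest minors -/
def dv (k : ℕ) : ℕ := [31, 37, 41, 43, 47].getD k 0

/-- names of the classes -/
def qv (k : ℕ) : ℕ := [53, 59, 61, 67, 71].getD k 0

/-- values of the variables -/
def val (l : Fin 8 → ℤ) (σ z : ℤ) (d q : ℕ → ℤ) (p : ℕ) : ℤ :=
  (([(2, l 0), (3, l 1), (5, l 2), (7, l 3), (11, l 4), (13, l 5), (17, l 6), (19, l 7),
    (23, σ), (29, z), (31, d 0), (37, d 1), (41, d 2), (43, d 3), (47, d 4),
    (53, q 0), (59, q 1), (61, q 2), (67, q 3), (71, q 4)] : List (ℕ × ℤ)).lookup p).getD 0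

theorem val_dv (l : Fin 8 → ℤ) (σ z : ℤ) (d q : ℕ → ℤ) {k : ℕ} (h : k < 5) :
    val l σ z d q (dv k) = d k := by
  interval_cases k <;> rfl

theorem val_qv (l : Fin 8 → ℤ) (σ z : ℤ) (d q : ℕ → ℤ) {k : ℕ} (h : k < 5) :
    val l σ z d q (qv k) = q k := by
  interval_cases k <;> rfl

theorem dv_prime {k : ℕ} (h : k < 5) : (dv k).Prime := by
  interval_cases k <;> simp only [dv, List.getD_cons_succ, List.getD_cons_zero] <;> norm_num

theorem qv_prime {k : ℕ} (h : k < 5) : (qv k).Prime := by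
  interval_cases k <;> simp only [qv, List.getD_cons_succ, List.getD_cons_zero] <;> norm_num

/-- data for one class -/
structure Cls where
  A : Mo
  a : Mo
  b : Mo
  a' : Mo
  b' : Mo
  W : Q
  W' : Q

/-- certificate; kinds: 0 leaf, 1 and 2 path, 3 leaf with a square -/
structure Cert where
  kind : ℕ
  useZ : Bool
  P : Mo
  s₁ : Mo
  s₂ : Mo
  u : Mo
  w : Mo
  az : Mo
  bz : Mo
  cl : List Cls
  ts : List Q

def X (p : ℕ) : Q := [(p, 1)]

theorem ev_X (v : ℕ → ℤ) {p : ℕ} (h : p.Prime) : ev v (X p) = v p := by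
  simp [X, mev_prime v h]

namespace Cert

variable (c : Cert)

def path : Bool := c.kind == 1 || c.kind == 2

/-- the variable that carries the classes -/
def mv : ℕ := bif c.path then 11 else 2

/-- the modulus -/
def PP : Mo := bif c.path then (1, c.u.2 ++ c.w.2 ++ c.P.2) else c.P

def rules0 : List (ℕ × Q) :=
  match c.kind with
  | 0 => [(6, add c.s₁.q (tmul (275, 1) c.P.q)), (35, [(1, -1), (4, 1)]),
      (143, add (X 2) c.s₂.q)]
  | 1 => [(6, add c.s₁.q (tmul (275, 1) c.s₂.q)), (35, [(1, -1), (4, 1)]),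
      (143, add (tmul (2, 1) c.u.q) c.w.q)]
  | 2 => [(6, add c.s₁.q (tmul (3025, 1) c.s₂.q)), (35, [(1, -1), (4, 1)]),
      (143, add (tmul (2, 1) c.u.q) c.w.q)]
  | _ => [(6, add (X 23) (tmul (3025, 1) c.P.q)), (35, [(4, 1), (23, 1)]),
      (143, [(2, 1), (17, 1)]), (289, [(1, 1)]), (529, [(1, 1)])]

def lin (a b : Mo) (p : ℕ) : Q := sub (tmul (p, 1) a.q) b.q

def rules (r : ℕ) (K : List ℕ) : List (ℕ × Q) :=
  c.rules0 ++ ((bif c.useZ then [(551, lin c.az c.bz c.mv)] else []) ++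
    ((List.range r).filter fun k => !K.contains k).map fun k => (dv k * dv k, [(1, 1)]))

def cls (k : ℕ) : Cls := c.cl.getD k ⟨(1, []), (1, []), (1, []), (1, []), (1, []), [], []⟩

end Cert

def others (r k : ℕ) : List ℕ := ((List.range r).filter fun j => j != k).map dv

def units (r : ℕ) (K : List ℕ) : List ℕ := ((List.range r).filter fun k => !K.contains k).map dv

def alld (r : ℕ) : List ℕ := (List.range r).map dv

/-- side conditions -/
def side (r : ℕ) (K : List ℕ) (c : Cert) : Bool :=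
  Nat.ble r 5 && c.PP.ok ((bif c.useZ then [29] else []) ++ alld r) &&
  c.s₁.ok (units r K) && c.s₂.ok (units r K) && c.u.ok (29 :: alld r) && c.w.ok (29 :: alld r) &&
  c.az.ok (23 :: alld r) && c.bz.ok (23 :: alld r) && (!c.useZ || c.PP.2.contains 29) &&
  (List.range r).all fun k => (c.cls k).A.ok (c.mv :: 23 :: 29 :: others r k) &&
    (c.cls k).a.ok (23 :: 29 :: qv k :: others r k) &&
    (c.cls k).b.ok (23 :: 29 :: qv k :: others r k) &&
    (c.cls k).a'.ok (qv k :: others r k) && (c.cls k).b'.ok (qv k :: others r k) &&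
    (((c.cls k).W.isEmpty && !(c.cls k).A.2.contains c.mv) || c.PP.2.contains (dv k))

theorem val_hi (l l' : Fin 8 → ℤ) (σ z : ℤ) (d q : ℕ → ℤ) {p : ℕ} (h : 20 ≤ p) :
    val l σ z d q p = val l' σ z d q p := by
  have e : ∀ k, k < 20 → (p == k) = false := fun k hk => by simp; omega
  simp only [val, List.lookup, e 2, e 3, e 5, e 7, e 11, e 13, e 17, e 19, Nat.reduceLT]

theorem val_hi' (l : Fin 8 → ℤ) (σ σ' z : ℤ) (d q : ℕ → ℤ) {p : ℕ} (h : 24 ≤ p) :
    val l σ z d q p = val l σ' z d q p := by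
  have e : ∀ k, k < 24 → (p == k) = false := fun k hk => by simp; omega
  simp only [val, List.lookup, e 2, e 3, e 5, e 7, e 11, e 13, e 17, e 19, e 23, Nat.reduceLT]

theorem mem_alld {r p : ℕ} : p ∈ alld r ↔ ∃ k < r, dv k = p := by simp [alld]

theorem mem_others {r k p : ℕ} : p ∈ others r k ↔ ∃ j < r, j ≠ k ∧ dv j = p := by
  simp [others, and_assoc]

theorem mem_units {r p : ℕ} {K : List ℕ} : p ∈ units r K ↔ ∃ j < r, j ∉ K ∧ dv j = p := by
  simp [units, and_assoc]

theorem dv_ge {k : ℕ} (h : k < 5) : 31 ≤ dv k := by interval_cases k <;> simp [dv]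

theorem qv_ge {k : ℕ} (h : k < 5) : 31 ≤ qv k := by interval_cases k <;> simp [qv]

theorem ev_lin (v : ℕ → ℤ) {S : List ℕ} {a b : Mo} (ha : a.ok S = true) (hb : b.ok S = true)
    (hS : ∀ p ∈ S, p.Prime) {p : ℕ} (hp : p.Prime) :
    ev v (Cert.lin a b p) = a.ev v * v p - b.ev v := by
  rw [Cert.lin, ev_sub, ev_tmul, Mo.ev_q v ha hS, Mo.ev_q v hb hS, mev_prime v hp]
  ring

theorem mev_two (v : ℕ → ℤ) {p q : ℕ} (hp : p.Prime) (hq : q.Prime) :
    mev v (p * q) = v p * v q := by rw [mev_mul, mev_prime v hp, mev_prime v hq]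

/-- the leaf and path lemmas give the first variables -/
theorem engine {c : Cert} {S U : List ℕ} (hS : ∀ p ∈ S, p.Prime ∧ 24 ≤ p)
    (hU : ∀ p ∈ U, p.Prime ∧ 24 ≤ p) (hP : c.PP.ok S = true) (h1 : c.s₁.ok U = true)
    (h2 : c.s₂.ok U = true) {S' : List ℕ} (hS' : ∀ p ∈ S', p.Prime ∧ 24 ≤ p)
    (h3 : c.u.ok S' = true) (h4 : c.w.ok S' = true) (σ z : ℤ) (d q : ℕ → ℤ)
    (hun : ∀ p ∈ U, val 0 σ z d q p * val 0 σ z d q p = 1)
    (hne : c.PP.ev (val 0 σ z d q) ≠ 0) (hσ : σ = (c.PP.ev (val 0 σ z d q)).sign) (e : ℤ)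
    (he : IsCoprime e (c.PP.ev (val 0 σ z d q))) :
    ∃ x x' y y' b b' s : ℤ, ∀ t : ℤ, Rules (val ![x, x', y, y', b, b', s, t] σ z d q) c.rules0 ∧
      c.PP.ev (val 0 σ z d q) ∣ val ![x, x', y, y', b, b', s, t] σ z d q c.mv - e := by
  have p2 : Nat.Prime 2 := by norm_num
  have p3 : Nat.Prime 3 := by norm_num
  have p5 : Nat.Prime 5 := by norm_num
  have p7 : Nat.Prime 7 := by norm_num
  have p11 : Nat.Prime 11 := by norm_num
  have p13 : Nat.Prime 13 := by norm_num
  have p17 : Nat.Prime 17 := by norm_num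
  have p23 : Nat.Prime 23 := by norm_num
  have key : ∀ (l : Fin 8 → ℤ) {T : List ℕ} {m : Mo}, m.ok T = true →
      (∀ p ∈ T, p.Prime ∧ 24 ≤ p) → ev (val l σ z d q) m.q = m.ev (val 0 σ z d q) := by
    intro l T m hm hT
    rw [Mo.ev_q _ hm fun p hp => (hT p hp).1]
    exact Mo.ev_congr hm fun p hp => val_hi _ _ _ _ _ _ (by have := (hT p hp).2; omega)
  have m6 : ∀ v, mev v 6 = v 2 * v 3 := fun v => mev_two v p2 p3
  have m35 : ∀ v, mev v 35 = v 5 * v 7 := fun v => mev_two v p5 p7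
  have m143 : ∀ v, mev v 143 = v 11 * v 13 := fun v => mev_two v p11 p13
  have m4 : ∀ v, mev v 4 = v 2 * v 2 := fun v => mev_two v p2 p2
  have m289 : ∀ v, mev v 289 = v 17 * v 17 := fun v => mev_two v p17 p17
  have m529 : ∀ v, mev v 529 = v 23 * v 23 := fun v => mev_two v p23 p23
  have m275 : ∀ v, mev v 275 = v 11 * (v 5 * v 5) := fun v => by
    rw [← mev_two v p5 p5, ← mev_prime v p11, ← mev_mul]
  have m3025 : ∀ v, mev v 3025 = v 11 * v 11 * (v 5 * v 5) := fun v => by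
    rw [← mev_two v p5 p5, ← mev_two v p11 p11, ← mev_mul]
  have q1 := Mo.sq h1 hun
  have q2 := Mo.sq h2 hun
  have path : ∀ k, c.kind = k → k = 1 ∨ k = 2 → c.PP = (1, c.u.2 ++ c.w.2 ++ c.P.2) ∧ c.mv = 11 ∧
      c.u.ev (val 0 σ z d q) ∣ c.PP.ev (val 0 σ z d q) ∧
      c.w.ev (val 0 σ z d q) ∣ c.PP.ev (val 0 σ z d q) := by
    intro k hk hk'
    have : c.path = true := by rcases hk' with rfl | rfl <;> simp [Cert.path, hk]
    have e1 : c.PP = (1, c.u.2 ++ c.w.2 ++ c.P.2) := by simp [Cert.PP, this]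
    refine ⟨e1, by simp [Cert.mv, this], ?_, ?_⟩
    · refine ⟨c.u.1 * ((c.w.2 ++ c.P.2).map (val 0 σ z d q)).prod, ?_⟩
      simp only [e1, Mo.ev, List.map_append, List.prod_append]
      linear_combination -((c.u.2.map (val 0 σ z d q)).prod * ((c.w.2.map (val 0 σ z d q)).prod *
        (c.P.2.map (val 0 σ z d q)).prod)) * (Mo.ok_iff h3).1
    · refine ⟨c.w.1 * ((c.u.2 ++ c.P.2).map (val 0 σ z d q)).prod, ?_⟩
      simp only [e1, Mo.ev, List.map_append, List.prod_append]
      linear_combination -((c.u.2.map (val 0 σ z d q)).prod * ((c.w.2.map (val 0 σ z d q)).prod *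
        (c.P.2.map (val 0 σ z d q)).prod)) * (Mo.ok_iff h4).1
  obtain hk | hk | hk | hk : c.kind = 0 ∨ c.kind = 1 ∨ c.kind = 2 ∨ ∃ k, c.kind = k + 3 := by
    rcases c.kind with _ | _ | _ | k <;> simp
  · have e1 : c.PP = c.P := by simp [Cert.PP, Cert.path, hk]
    have e2 : c.mv = 2 := by simp [Cert.mv, Cert.path, hk]
    obtain ⟨x, x', y, y', b, b', r0, r1, r2, r3⟩ := leafSt _ e _ _ hne he q1 q2
    refine ⟨x, x', y, y', b, b', 1, fun t => ⟨?_, by rw [e2]; exact r0⟩⟩
    rw [e1] at hP r1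
    simp only [Rules, Cert.rules0, hk, List.forall_mem_cons, ev_add, ev_tmul, key _ h1 hU,
      key _ h2 hU, key _ hP hS, ev_X _ p2, m6, m35, m143, m275, m4, ev_cons, ev_nil, mev_one]
    refine ⟨?_, ?_, ?_, by simp⟩
    · exact r1.trans (by change _ = _ + 1 * (b * (y * y)) * _; ring)
    · exact r2.trans (by change _ = _ + (1 * (x * x) + 0); ring)
    · exact r3
  · obtain ⟨-, e2, d1, d2⟩ := path 1 hk (Or.inl rfl)
    obtain ⟨x, x', y, y', b, b', r0, r1, r2, r3⟩ :=
      pathSt 1 _ e _ _ _ _ (Or.inl rfl) hne he q1 q2 d1 d2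
    refine ⟨x, x', y, y', b, b', 1, fun t => ⟨?_, by rw [e2]; exact r0⟩⟩
    simp only [Rules, Cert.rules0, hk, List.forall_mem_cons, ev_add, ev_tmul, key _ h1 hU,
      key _ h2 hU, key _ h3 hS', key _ h4 hS', mev_prime _ p2, m6, m35, m143, m275, m4,
      ev_cons, ev_nil, mev_one]
    refine ⟨?_, ?_, ?_, by simp⟩
    · exact r1.trans (by change _ = _ + 1 * (b * (y * y)) * _; ring)
    · exact r2.trans (by change _ = _ + (1 * (x * x) + 0); ring)
    · exact r3.trans (by change _ = 1 * x * _ + _; ring)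
  · obtain ⟨-, e2, d1, d2⟩ := path 2 hk (Or.inr rfl)
    obtain ⟨x, x', y, y', b, b', r0, r1, r2, r3⟩ :=
      pathSt 2 _ e _ _ _ _ (Or.inr rfl) hne he q1 q2 d1 d2
    refine ⟨x, x', y, y', b, b', 1, fun t => ⟨?_, by rw [e2]; exact r0⟩⟩
    simp only [Rules, Cert.rules0, hk, List.forall_mem_cons, ev_add, ev_tmul, key _ h1 hU,
      key _ h2 hU, key _ h3 hS', key _ h4 hS', mev_prime _ p2, m6, m35, m143, m3025, m4,
      ev_cons, ev_nil, mev_one]
    refine ⟨?_, ?_, ?_, by simp⟩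
    · exact r1.trans (by change _ = _ + 1 * (b * b * (y * y)) * _; ring)
    · exact r2.trans (by change _ = _ + (1 * (x * x) + 0); ring)
    · exact r3.trans (by change _ = 1 * x * _ + _; ring)
  · obtain ⟨k, hk⟩ := hk
    have e1 : c.PP = c.P := by simp [Cert.PP, Cert.path, hk]
    have e2 : c.mv = 2 := by simp [Cert.mv, Cert.path, hk]
    obtain ⟨s, x, x', y, y', b, b', rs, r0, r1, r2, r3⟩ := leafSqSt _ e hne he
    have hσ2 : σ * σ = 1 := by
      rw [hσ]
      rcases lt_or_gt_of_ne hne with t | t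
      · rw [Int.sign_eq_neg_one_of_neg t]; ring
      · rw [Int.sign_eq_one_of_pos t]; ring
    refine ⟨x, x', y, y', b, b', s, fun t => ⟨?_, by rw [e2]; exact r0⟩⟩
    rw [← hσ] at r1 r2
    rw [e1] at hP r1
    simp only [Rules, Cert.rules0, hk, List.forall_mem_cons, ev_add, ev_tmul,
      key _ hP hS, ev_X _ p23, mev_prime _ p2, mev_prime _ p17, mev_prime _ p23, m6, m35, m143,
      m3025, m4, m289, m529, ev_cons, ev_nil, mev_one]
    refine ⟨?_, ?_, ?_, ?_, ?_, by simp⟩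
    · exact r1.trans (by change _ = σ + 1 * (b * b * (y * y)) * _; ring)
    · exact r2.trans (by change _ = 1 * (x * x) + (1 * σ + 0); ring)
    · exact r3.trans (by change _ = 1 * x + (1 * s + 0); ring)
    · exact rs.trans (by ring)
    · exact hσ2.trans (by ring)

theorem mem_bif {α : Type} {b : Bool} {x p : α} (h : p ∈ (bif b then [x] else [])) :
    p = x ∧ b = true := by
  cases b <;> simpa using h

/-- the arithmetic: values for all variables -/
theorem exists_val {r : ℕ} {K : List ℕ} {c : Cert} (h : side r K c = true) (d q : ℕ → ℤ)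
    (h0 : ∀ k < r, d k ≠ 0) (hc : ∀ k < r, ∀ j < r, k ≠ j → IsCoprime (d k) (d j))
    (hu : ∀ k < r, k ∉ K → d k * d k = 1) (hq : ∀ k < r, IsCoprime (q k) (d k)) :
    ∃ v : ℕ → ℤ, Rules v (c.rules r K) ∧ ∀ k < r, v (dv k) = d k ∧ v (qv k) = q k ∧
      IsCoprime (ev v (c.cls k).A.q) (d k) ∧
      d k ∣ ev v (mul (c.cls k).W (Cert.lin (c.cls k).a (c.cls k).b c.mv)) ∧
      d k ∣ ev v (Cert.lin (c.cls k).a' (c.cls k).b' 29) := by
  simp only [side, Bool.and_eq_true, List.all_eq_true, List.mem_range, Bool.or_eq_true,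
    Bool.not_eq_true', List.contains_iff_mem, List.isEmpty_iff, Nat.ble_eq] at h
  obtain ⟨⟨⟨⟨⟨⟨⟨⟨⟨hr, hP⟩, h1⟩, h2⟩, h3⟩, h4⟩, haz⟩, hbz⟩, hz⟩, hk⟩ := h
  have p2 : Nat.Prime 2 := by norm_num
  have p11 : Nat.Prime 11 := by norm_num
  have p19 : Nat.Prime 19 := by norm_num
  have p23 : Nat.Prime 23 := by norm_num
  have p29 : Nat.Prime 29 := by norm_num
  have pm : c.mv.Prime := by
    unfold Cert.mv
    cases c.path
    · exact p2
    · exact p11
  have vd : ∀ l σ z, ∀ k < r, val l σ z d q (dv k) = d k := fun l σ z k hk =>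
    val_dv l σ z d q (by omega)
  have vq : ∀ l σ z, ∀ k < r, val l σ z d q (qv k) = q k := fun l σ z k hk =>
    val_qv l σ z d q (by omega)
  have co : ∀ l σ z, ∀ k < r, ∀ p ∈ others r k, IsCoprime (val l σ z d q p) (d k) := by
    intro l σ z k hk p hp
    obtain ⟨j, hj, hjk, rfl⟩ := mem_others.mp hp
    rw [vd l σ z j hj]
    exact hc j hj k hk hjk
  have co' : ∀ l σ z, ∀ k < r, ∀ p ∈ qv k :: others r k, IsCoprime (val l σ z d q p) (d k) := by
    intro l σ z k hk p hp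
    rcases List.mem_cons.mp hp with rfl | hp
    · rw [vq l σ z k hk]; exact hq k hk
    · exact co l σ z k hk p hp
  have pa : ∀ p ∈ alld r, p.Prime ∧ 31 ≤ p := by
    intro p hp
    obtain ⟨j, hj, rfl⟩ := mem_alld.mp hp
    exact ⟨dv_prime (by omega), dv_ge (by omega)⟩
  have po : ∀ k, ∀ p ∈ others r k, p.Prime ∧ 31 ≤ p := by
    intro k p hp
    obtain ⟨j, hj, -, rfl⟩ := mem_others.mp hp
    exact ⟨dv_prime (by omega), dv_ge (by omega)⟩
  have pq : ∀ k < r, ∀ p ∈ qv k :: others r k, p.Prime ∧ 31 ≤ p := by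
    intro k hk p hp
    rcases List.mem_cons.mp hp with rfl | hp
    · exact ⟨qv_prime (by omega), qv_ge (by omega)⟩
    · exact po k p hp
  -- the auxiliary variable
  obtain ⟨c', hc', hc''⟩ := crt_units (fun k : Fin r => d k)
    (fun k => (c.cls k).a'.ev (val 0 1 1 d q)) (fun k => (c.cls k).b'.ev (val 0 1 1 d q))
    (fun i j h => hc i i.2 j j.2 fun e => h (Fin.ext e))
    (fun k => Mo.cop (hk k k.2).1.1.2 (co' _ _ _ k k.2))
    (fun k => Mo.cop (hk k k.2).1.2 (co' _ _ _ k k.2))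
  obtain ⟨z, hz0, hz1, hz2, -⟩ := crt_aux (m := ∏ k : Fin r, d k) (M := 1) (a := 1) (b := c')
    isCoprime_one_right isCoprime_one_left (IsCoprime.prod_right fun k _ => hc'' k)
  have dprod : ∀ k < r, d k ∣ ∏ k : Fin r, d k := fun k hk =>
    Finset.dvd_prod_of_mem (fun k : Fin r => d k) (Finset.mem_univ ⟨k, hk⟩)
  have zd : ∀ k < r, IsCoprime z (d k) := fun k hk => hz2.of_isCoprime_of_dvd_right (dprod k hk)
  have pS : ∀ p ∈ (bif c.useZ then [29] else []) ++ alld r, p.Prime ∧ 24 ≤ p := by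
    intro p hp
    rcases List.mem_append.mp hp with hp | hp
    · have : p = 29 := (mem_bif hp).1
      exact this ▸ ⟨p29, by omega⟩
    · exact ⟨(pa p hp).1, by have := (pa p hp).2; omega⟩
  obtain ⟨σ, hσ⟩ : ∃ σ, σ = (c.PP.ev (val 0 1 z d q)).sign := ⟨_, rfl⟩
  have eP : c.PP.ev (val 0 1 z d q) = c.PP.ev (val 0 σ z d q) :=
    Mo.ev_congr hP fun p hp => val_hi' _ _ _ _ _ _ (pS p hp).2
  rw [eP] at hσ
  have hne : c.PP.ev (val 0 σ z d q) ≠ 0 := by
    refine Mo.ne hP fun p hp => ?_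
    rcases List.mem_append.mp hp with hp | hp
    · have : p = 29 := (mem_bif hp).1
      exact this ▸ hz0
    · obtain ⟨j, hj, rfl⟩ := mem_alld.mp hp
      rw [vd _ _ _ j hj]
      exact h0 j hj
  have hσ2 : σ * σ = 1 := by
    rcases lt_or_gt_of_ne hne with t | t
    · rw [Int.sign_eq_neg_one_of_neg t] at hσ; rw [hσ]; ring
    · rw [Int.sign_eq_one_of_pos t] at hσ; rw [hσ]; ring
  have σc : ∀ D, IsCoprime σ D := fun D => ⟨σ, 0, by linear_combination hσ2⟩
  have co2 : ∀ l, ∀ k < r, ∀ p ∈ 23 :: 29 :: qv k :: others r k,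
      IsCoprime (val l σ z d q p) (d k) := by
    intro l k hk p hp
    rcases List.mem_cons.mp hp with rfl | hp
    · exact σc _
    rcases List.mem_cons.mp hp with rfl | hp
    · exact zd k hk
    · exact co' l σ z k hk p hp
  obtain ⟨Z, hZ⟩ : ∃ Z, Z = bif c.useZ then z else 1 := ⟨_, rfl⟩
  have Zd : ∀ k < r, IsCoprime (d k) Z := by
    intro k hk
    rw [hZ]
    cases c.useZ
    · exact isCoprime_one_right
    · exact (zd k hk).symm
  have coz : ∀ p ∈ 23 :: alld r, IsCoprime (val 0 σ z d q p) Z := by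
    intro p hp
    rcases List.mem_cons.mp hp with rfl | hp
    · exact σc _
    · obtain ⟨j, hj, rfl⟩ := mem_alld.mp hp
      rw [vd _ _ _ j hj]
      exact Zd j hj
  obtain ⟨e, he, he'⟩ := crt_units (ι := Option (Fin r)) (fun o => o.elim Z fun k => d k)
    (fun o => o.elim (c.az.ev (val 0 σ z d q)) fun k => (c.cls k).a.ev (val 0 σ z d q))
    (fun o => o.elim (c.bz.ev (val 0 σ z d q)) fun k => (c.cls k).b.ev (val 0 σ z d q))
    (by
      rintro (_ | i) (_ | j) h
      · exact absurd rfl h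
      · exact (Zd j j.2).symm
      · exact Zd i i.2
      · exact hc i i.2 j j.2 fun e => h (congrArg some (Fin.ext e)))
    (by
      rintro (_ | k)
      · exact Mo.cop haz coz
      · exact Mo.cop (hk k k.2).1.1.1.1.2 (co2 _ k k.2))
    (by
      rintro (_ | k)
      · exact Mo.cop hbz coz
      · exact Mo.cop (hk k k.2).1.1.1.2 (co2 _ k k.2))
  have ed : ∀ k < r, IsCoprime e (d k) := fun k hk => he' (some ⟨k, hk⟩)
  have eP' : IsCoprime e (c.PP.ev (val 0 σ z d q)) := by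
    refine (Mo.cop hP fun p hp => ?_).symm
    rcases List.mem_append.mp hp with hp | hp
    · have t : p = 29 ∧ c.useZ = true := mem_bif hp
      have t2 : IsCoprime e Z := he' none
      rw [hZ, t.2] at t2
      exact t.1 ▸ t2.symm
    · obtain ⟨j, hj, rfl⟩ := mem_alld.mp hp
      rw [vd _ _ _ j hj]
      exact (ed j hj).symm
  obtain ⟨x, x', y, y', b, b', s, H⟩ := engine pS (U := units r K)
    (fun p hp => by
      obtain ⟨j, hj, -, rfl⟩ := mem_units.mp hp
      exact ⟨dv_prime (by omega), by have := dv_ge (k := j) (by omega); omega⟩) hP h1 h2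
    (S' := 29 :: alld r) (fun p hp => by
      rcases List.mem_cons.mp hp with rfl | hp
      · exact ⟨p29, by omega⟩
      · exact ⟨(pa p hp).1, by have := (pa p hp).2; omega⟩) h3 h4 σ z d q
    (fun p hp => by
      obtain ⟨j, hj, hj', rfl⟩ := mem_units.mp hp
      rw [vd _ _ _ j hj]
      exact hu j hj hj') hne hσ e eP'
  obtain ⟨m, hm⟩ : ∃ m, ∀ t, val ![x, x', y, y', b, b', s, t] σ z d q c.mv = m := by
    unfold Cert.mv
    cases c.path
    · exact ⟨x, fun _ => rfl⟩
    · exact ⟨b, fun _ => rfl⟩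
  have hme : c.PP.ev (val 0 σ z d q) ∣ m - e := hm 0 ▸ (H 0).2
  have lin_dvd : ∀ {D a b : ℤ}, D ∣ m - e → D ∣ a * e - b → D ∣ a * m - b := by
    intro D a b t1 t2
    have : a * m - b = a * (m - e) + (a * e - b) := by ring
    rw [this]
    exact (t1.mul_left a).add t2
  obtain ⟨t, ht⟩ : ∃ t, c.useZ = true →
      c.az.ev (val 0 σ z d q) * m - c.bz.ev (val 0 σ z d q) = z * t := by
    cases hb : c.useZ
    · exact ⟨0, by simp⟩
    · have t1 : z ∣ c.PP.ev (val 0 σ z d q) :=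
        Mo.dvd (val 0 σ z d q) (p := 29) (hz.resolve_left (by simp [hb]))
      have t2 : Z ∣ _ := he none
      rw [hZ, hb] at t2
      obtain ⟨t, ht⟩ := lin_dvd (t1.trans hme) t2
      exact ⟨t, fun _ => ht⟩
  have hi : ∀ {T : List ℕ} {n : Mo}, n.ok T = true → (∀ p ∈ T, 20 ≤ p) →
      n.ev (val ![x, x', y, y', b, b', s, t] σ z d q) = n.ev (val 0 σ z d q) :=
    fun hn hT => Mo.ev_congr hn fun p hp => val_hi _ _ _ _ _ _ (hT p hp)
  refine ⟨val ![x, x', y, y', b, b', s, t] σ z d q, ?_, fun k hk' => ⟨vd _ _ _ k hk',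
    vq _ _ _ k hk', ?_, ?_, ?_⟩⟩
  · intro ρ hρ
    rcases List.mem_append.mp hρ with hρ | hρ
    · exact (H t).1 ρ hρ
    rcases List.mem_append.mp hρ with hρ | hρ
    · obtain ⟨rfl, hb⟩ := mem_bif hρ
      have pT : ∀ p ∈ 23 :: alld r, p.Prime ∧ 20 ≤ p := by
        intro p hp
        rcases List.mem_cons.mp hp with rfl | hp
        · exact ⟨p23, by omega⟩
        · exact ⟨(pa p hp).1, by have := (pa p hp).2; omega⟩
      rw [ev_lin _ haz hbz (fun p hp => (pT p hp).1) pm, hm, hi haz fun p hp => (pT p hp).2,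
        hi hbz fun p hp => (pT p hp).2, ht hb]
      exact mev_two _ p29 p19
    · obtain ⟨j, hj, rfl⟩ := List.mem_map.mp hρ
      have hj' : j < r ∧ j ∉ K := by simpa using hj
      have := dv_prime (k := j) (by omega)
      simp only [mev_two _ this this, vd _ _ _ j hj'.1, hu j hj'.1 hj'.2, ev_cons, ev_nil, mev_one]
      ring
  · have hA := (hk k hk').1.1.1.1.1
    rw [Mo.ev_q _ hA (by
      intro p hp
      simp only [List.mem_cons] at hp
      rcases hp with rfl | rfl | rfl | hp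
      exacts [pm, p23, p29, (po k p hp).1])]
    by_cases hmA : c.mv ∈ (c.cls k).A.2 → IsCoprime m (d k)
    · obtain ⟨a1, a2⟩ := Mo.ok_iff hA
      have hA' : (c.cls k).A.ok (c.cls k).A.2 = true := by simp [Mo.ok, a1]
      refine Mo.cop hA' fun p hp => ?_
      have := a2 p hp
      simp only [List.mem_cons] at this
      rcases this with rfl | rfl | rfl | this
      · rw [hm]; exact hmA hp
      · exact σc _
      · exact zd k hk'
      · exact co _ _ _ k hk' p this
    · exfalso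
      apply hmA
      intro hp
      rcases (hk k hk').2 with t1 | t1
      · exact absurd (List.contains_iff_mem.mpr hp) (by rw [t1.2]; simp)
      · have t2 : d k ∣ m - e := (vd 0 σ z k hk' ▸ Mo.dvd (val 0 σ z d q) t1).trans hme
        obtain ⟨g, hg⟩ := t2
        obtain ⟨α, β, hαβ⟩ := ed k hk'
        exact ⟨α, β - α * g, by linear_combination hαβ + α * hg⟩
  · rw [ev_mul]
    rcases (hk k hk').2 with t1 | t1
    · rw [t1.1]; simp
    · have pT : ∀ p ∈ 23 :: 29 :: qv k :: others r k, p.Prime ∧ 20 ≤ p := by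
        intro p hp
        rcases List.mem_cons.mp hp with rfl | hp
        · exact ⟨p23, by omega⟩
        rcases List.mem_cons.mp hp with rfl | hp
        · exact ⟨p29, by omega⟩
        · exact ⟨(pq k hk' p hp).1, by have := (pq k hk' p hp).2; omega⟩
      have ha := (hk k hk').1.1.1.1.2
      have hb := (hk k hk').1.1.1.2
      rw [ev_lin _ ha hb (fun p hp => (pT p hp).1) pm, hm, hi ha fun p hp => (pT p hp).2,
        hi hb fun p hp => (pT p hp).2]
      exact (lin_dvd ((vd 0 σ z k hk' ▸ Mo.dvd (val 0 σ z d q) t1).trans hme)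
        (he (some ⟨k, hk'⟩))).mul_left _
  · have ha := (hk k hk').1.1.2
    have hb := (hk k hk').1.2
    have hi2 : ∀ {n : Mo}, n.ok (qv k :: others r k) = true →
        n.ev (val ![x, x', y, y', b, b', s, t] σ z d q) = n.ev (val 0 1 1 d q) := by
      intro n hn
      refine Mo.ev_congr hn fun p hp => ?_
      rcases List.mem_cons.mp hp with rfl | hp
      · rw [vq _ _ _ k hk', vq _ _ _ k hk']
      · obtain ⟨j, hj, -, rfl⟩ := mem_others.mp hp
        rw [vd _ _ _ j hj, vd _ _ _ j hj]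
    rw [ev_lin _ ha hb (fun p hp => (pq k hk' p hp).1) p29, hi2 ha, hi2 hb]
    have t1 : d k ∣ 1 * z - c' := (dprod k hk').trans hz1
    have t2 : d k ∣ _ := hc' ⟨k, hk'⟩
    have := (t1.mul_left ((c.cls k).a'.ev (val 0 1 1 d q))).add t2
    have e9 : ∀ a b : ℤ, a * (1 * z - c') + (a * c' - b) = a * z - b := fun a b => by ring
    rw [e9] at this
    exact this

/-- values for the lift of a reflection -/
def wn (k : ℕ) : Q := [[], [(1, 1)], [(1, -1)], []].getD k []

/-- one row of the chain -/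
def run (D : Dat) (f : Q → Q) : List (Fin (D.r + 1) × Q) → List Q → List Q
  | [], row => row
  | e :: l, row => run D f l (rstep (D.n + 1) f wn (D.P.getD e.1 [])
      (rstep (D.n + 1) f (fun _ => e.2) (D.X.getD (D.toSys.s e.1) []) row))

theorem rev_run (v : ℕ → ℤ) (D : Dat) {f : Q → Q} (hf : ∀ p, ev v (f p) = ev v p)
    (l : List (Fin (D.r + 1) × Q)) (row : List Q) :
    rev v (D.n + 1) (run D f l row) =
      rev v (D.n + 1) row ᵥ* D.toSys.chain (l.map fun e => (e.1, ev v e.2)) := by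
  induction l generalizing row with
  | nil => exact (vecMul_one _).symm
  | cons e l ih =>
    have e1 : (fun j => ev v (wn j)) = fun k => [(0 : ℤ), 1, -1, 0].getD k 0 := by
      funext j
      rcases j with _ | _ | _ | _ | j <;> simp [wn, mev_one]
    rw [run, ih, rev_rstep v _ hf, rev_rstep v _ hf, e1, List.map_cons, Ch.chain_cons,
      vecMul_vecMul, vecMul_vecMul, ← Matrix.mul_assoc]
    rfl

/-- unit row -/
def urow (n ρ : ℕ) : List Q := (List.range n).map fun c => bif Nat.beq c ρ then [(1, 1)] else []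

theorem rev_urow (v : ℕ → ℤ) (n : ℕ) (ρ : Fin n) : rev v n (urow n ρ) = Pi.single ρ 1 := by
  funext c
  rw [rev, urow, List.getD_eq_getElem _ _ (by simp), List.getElem_map, List.getElem_range]
  by_cases h : c = ρ
  · subst h
    simp [Nat.beq_refl, mev_one]
  · have : Nat.beq c ρ = false := by
      cases t : Nat.beq c ρ
      · rfl
      · exact absurd (Fin.ext (Nat.eq_of_beq_eq_true t)) h
    simp [this, h]

/-- the word -/
def word (D : Dat) (L : ℕ) (i : Fin D.toSys.r) : List (Fin D.toSys.r) :=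
  (List.replicate (2 * L - 2) D.toSys.base).flatten ++ [i]

/-- entries of the chain -/
def entry (D : Dat) (L : ℕ) (i : Fin (D.r + 1)) (f : Q → Q) (ts : List Q) (ρ c : ℕ) : Q :=
  (run D f ((word D L i).zip ts) (urow (D.n + 1) ρ)).getD c []

/-- the check for one minor -/
def chk1 (D : Dat) (K : List ℕ) (c : Cert) (f : Q → Q) (G : ℕ → ℕ → Q) (k : Fin (D.r + 1)) : Bool :=
  (f (sub (qdet f G _ (fun j => (D.toSys.Rw k j).val) fun j => (D.toSys.Cl k j).val)
    (X (dv k)))).isEmpty &&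
  (!K.contains k || (f (sub (sub (mul (c.cls k).A.q (sub (qdet f G _
      (fun j => (Function.update (D.toSys.Rw k) 0 (D.toSys.R1 k) j).val)
      fun j => (D.toSys.Cl k j).val) (X (qv k))))
    (mul (c.cls k).W (Cert.lin (c.cls k).a (c.cls k).b c.mv)))
    (mul (c.cls k).W' (Cert.lin (c.cls k).a' (c.cls k).b' 29)))).all
      fun a => Nat.beq (a.1 % dv k) 0)

/-- the check -/
def check (D : Dat) (L : ℕ) (i : Fin (D.r + 1)) (K : List ℕ) (c : Cert) : Bool :=
  side (D.r + 1) K c && Nat.beq (word D L i).length c.ts.length &&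
    (List.finRange (D.r + 1)).all (chk1 D K c (red (c.rules (D.r + 1) K) 99)
      (entry D L i (red (c.rules (D.r + 1) K) 99) c.ts))

theorem core_of_check {D : Dat} (A : D.toSys.Ax) (W : D.toSys.Wrd) {L : ℕ} {i : Fin (D.r + 1)}
    {K : List ℕ} {c : Cert} (h : check D L i K c = true) :
    D.toSys.Core L i {k | K.contains k.val = true} := by
  intro d q ⟨h0, hc, hu⟩ hq
  simp only [check, Bool.and_eq_true, List.all_eq_true, List.mem_finRange, true_imp_iff] at h
  obtain ⟨⟨hs, hl⟩, hk⟩ := h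
  have hr : D.r + 1 ≤ 5 := by
    simp only [side, Bool.and_eq_true, Nat.ble_eq] at hs
    exact hs.1.1.1.1.1.1.1.1.1
  have fo_eq : ∀ k (hk : k < D.r + 1), fo D.r k = ⟨k, hk⟩ := fun k hk =>
    Fin.ext (Nat.mod_eq_of_lt hk)
  obtain ⟨v, hv, hv'⟩ := exists_val hs (fun k => d (fo D.r k)) (fun k => q (fo D.r k))
    (fun k _ => h0 _) (fun k hk j hj h => hc _ _ (by
      rw [fo_eq k hk, fo_eq j hj]
      exact fun e => h (congrArg Fin.val e)))
    (fun k hk h => hu _ (by
      rw [fo_eq k hk]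
      simpa using h)) (fun k _ => hq _)
  have hf := ev_red v hv 99
  obtain ⟨y, hy, e⟩ := Ch.chain_th A W i (2 * L - 2)
    (((word D L i).zip c.ts).map fun e => (e.1, ev v e.2)) (by
      rw [List.map_map]
      exact List.map_fst_zip (Nat.le_of_eq (Nat.eq_of_beq_eq_true hl)))
  have hG : ∀ ρ c' : Fin (D.n + 1), ev v (entry D L i (red (c.rules (D.r + 1) K) 99) c.ts ρ c') =
      D.toSys.chain (((word D L i).zip c.ts).map fun e => (e.1, ev v e.2)) ρ c' := by
    intro ρ c'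
    have := congrFun (rev_run v D hf ((word D L i).zip c.ts) (urow (D.n + 1) ρ)) c'
    rw [rev_urow, single_one_vecMul] at this
    exact this
  refine ⟨_, ⟨y, hy, _, rfl, e.symm⟩, fun k => ?_⟩
  obtain ⟨v1, v2, v3, v4, v5⟩ := hv' k k.2
  have ek : fo D.r k = k := fo_eq k k.2
  simp only [ek] at v1 v2 v3 v4 v5
  have hk5 : (k : ℕ) < 5 := lt_of_lt_of_le k.2 hr
  have t := hk k
  simp only [chk1, Bool.and_eq_true, Bool.or_eq_true, Bool.not_eq_true', List.isEmpty_iff] at t
  constructor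
  · have t1 := congrArg (ev v) t.1
    rw [hf, ev_sub, ev_qdet v hf _ _ hG, ev_X v (dv_prime hk5), v1, ev_nil, sub_eq_zero] at t1
    exact t1
  · rcases t.2 with t2 | t2
    · have := hu k (by simpa using t2)
      exact ⟨d k * _, by rw [← mul_assoc, this, one_mul]⟩
    · have t3 := dvd_ev v t2
      rw [hf, ev_sub, ev_sub, ev_mul, ev_sub, ev_qdet v hf _ _ hG, ev_X v (qv_prime hk5),
        mev_prime v (dv_prime hk5), v1, v2, ev_mul v (c.cls k).W'] at t3
      have t4 := (t3.add (v5.mul_left (ev v (c.cls k).W'))).add v4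
      rw [sub_add_cancel, sub_add_cancel] at t4
      exact v3.symm.dvd_of_dvd_mul_left t4

end Pool.Agent.Lib.MP_755cca_al.F.CQ
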