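import Pool.Agent.Lib.MP_755cca_al.F.Sys

/-! Tables for the base cases. -/

open Matrix

namespace Pool.Agent.Lib.MP_755cca_al.F

/-- sparse matrix with monomial entries: row, column, coefficient, list of variables -/
abbrev SM : Type := List (ℕ × ℕ × ℤ × List ℕ)

/-- value of a sparse matrix -/
def SM.ev {R : Type} [CommRing R] (n : ℕ) (v : ℕ → R) (A : SM) : Matrix (Fin n) (Fin n) R :=
  of fun b c => (A.map fun e =>
    if e.1 = b.val ∧ e.2.1 = c.val then (e.2.2.1 : R) * (e.2.2.2.map v).prod else 0).sum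

/-- index from a number -/
def fo (n k : ℕ) : Fin (n + 1) := ⟨k % (n + 1), Nat.mod_lt _ n.succ_pos⟩

/-- tables; the sizes are `n + 1`, `r + 1`, `N + 1` -/
structure Dat where
  n : ℕ
  r : ℕ
  N : ℕ
  X : List SM
  P : List SM
  s : List ℕ
  ct : List (List (List ℕ))
  rho : List (List ℕ)
  sg : List (List ℕ)
  A : List ℕ
  Cl : List (List ℕ)
  Rw : List (List ℕ)
  R1 : List ℕ
  col : List Bool
  wl : List ℕ
  mid : List ℕ
  bl : List ℕ
  bk : List ℕ
  st : List ℕ
  nu : List (List ℕ)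

/-- the system of a table -/
def Dat.toSys (d : Dat) : Sys where
  n := d.n + 1
  r := d.r + 1
  N := d.N + 1
  x _ _ a t := SM.ev (d.n + 1) (fun _ => t) (d.X.getD a [])
  p _ _ i a b c e := SM.ev (d.n + 1) (fun k => [a, b, c, e].getD k 0) (d.P.getD i [])
  s i := fo d.N (d.s.getD i 0)
  ct i a := ((d.ct.getD i []).getD a []).map (fo d.N)
  rho i a := fo d.N ((d.rho.getD i []).getD a 0)
  sg i c := fo d.n ((d.sg.getD i []).getD c 0)
  A i := fo d.n (d.A.getD i 0)
  B i := fo d.n (d.A.getD i 0 + 1)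
  m k := (d.Cl.getD k []).length - 1
  Cl k j := fo d.n ((d.Cl.getD k []).getD j 0)
  Rw k j := fo d.n ((d.Rw.getD k []).getD j 0)
  R1 k := fo d.n (d.R1.getD k 0)
  col k := d.col.getD k true
  wl := d.wl.map (fo d.r)
  mid := d.mid.map (fo d.r)
  bl := d.bl.map (fo d.r)
  bk := d.bk.map (fo d.r)
  st k := fo d.r (d.st.getD k 0)
  nu k j := (d.nu.getD k []).getD j 0

end Pool.Agent.Lib.MP_755cca_al.F
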