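import Mathlib

/-! Reflective polynomials and polynomial matrices. -/

set_option autoImplicit false

namespace Pool.Agent.Lib.MP_755cca_al.F.PM

/-- polynomials: lists of coefficients with sorted lists of variables -/
abbrev Po : Type := List (ℤ × List ℕ)

def mins (i : ℕ) : List ℕ → List ℕ
  | [] => [i]
  | j :: m => if Nat.ble i j then i :: j :: m else j :: mins i m

def mmul (m n : List ℕ) : List ℕ := m.foldr mins n

def meq : List ℕ → List ℕ → Bool
  | [], [] => true
  | a :: m, b :: n => Nat.beq a b && meq m n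
  | _, _ => false

def ins (c : ℤ) (m : List ℕ) : Po → Po
  | [] => [(c, m)]
  | q :: p => if meq m q.2 then (if c + q.1 = 0 then p else (c + q.1, m) :: p) else q :: ins c m p

def add (p q : Po) : Po := p.foldr (fun t s => ins t.1 t.2 s) q

def tmul (c : ℤ) (m : List ℕ) (q : Po) : Po := q.map fun t => (c * t.1, mmul m t.2)

def mul (p q : Po) : Po := p.foldr (fun t s => add (tmul t.1 t.2 q) s) []

def neg (p : Po) : Po := p.map fun t => (-t.1, t.2)

def C (c : ℤ) : Po := if c = 0 then [] else [(c, [])]

def X (i : ℕ) : Po := [(1, [i])]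

def isZ (p : Po) : Bool := p.all fun t => t.1 == 0

def peq (p q : Po) : Bool := isZ (add (neg p) q)

/-- substitution -/
def sub (σ : ℕ → Po) (p : Po) : Po :=
  p.foldr (fun t s => add (t.2.foldr (fun i u => mul (σ i) u) [(t.1, [])]) s) []

/-- one round of the rule `X i * X j = q` -/
def rd1 (i j : ℕ) (q : Po) (p : Po) : Po :=
  p.foldr (fun t s =>
    if i ∈ t.2 ∧ j ∈ t.2.erase i then add (tmul t.1 ((t.2.erase i).erase j) q) s
    else ins t.1 t.2 s) []

def rd (i j : ℕ) (q : Po) : ℕ → Po → Po
  | 0, p => p
  | k + 1, p => rd i j q k (rd1 i j q p)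

section ev

variable {R : Type} [CommRing R] (v : ℕ → R)

def mev (m : List ℕ) : R := (m.map v).prod

def ev (p : Po) : R := (p.map fun t => (t.1 : R) * mev v t.2).sum

@[simp] theorem mev_nil : mev v [] = 1 := rfl

@[simp] theorem mev_cons (i : ℕ) (m : List ℕ) : mev v (i :: m) = v i * mev v m := by simp [mev]

@[simp] theorem ev_nil : ev v [] = 0 := rfl

@[simp] theorem ev_cons (t : ℤ × List ℕ) (p : Po) :
    ev v (t :: p) = (t.1 : R) * mev v t.2 + ev v p := by simp [ev]

theorem mev_mins (i : ℕ) (m : List ℕ) : mev v (mins i m) = v i * mev v m := by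
  induction m with
  | nil => simp [mins]
  | cons j m ih =>
    unfold mins
    split_ifs
    · simp
    · simp only [mev_cons, ih]; ring

theorem mev_mmul (m n : List ℕ) : mev v (mmul m n) = mev v m * mev v n := by
  induction m with
  | nil => simp [mmul]
  | cons i m ih =>
    have : mmul (i :: m) n = mins i (mmul m n) := rfl
    rw [this, mev_mins, ih, mev_cons, mul_assoc]

theorem eq_of_meq : ∀ {m n : List ℕ}, meq m n = true → m = n
  | [], [], _ => rfl
  | a :: m, b :: n, h => by
    simp only [meq, Bool.and_eq_true] at h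
    rw [Nat.eq_of_beq_eq_true h.1, eq_of_meq h.2]
  | [], _ :: _, h => by simp [meq] at h
  | _ :: _, [], h => by simp [meq] at h

theorem ev_ins (c : ℤ) (m : List ℕ) (p : Po) : ev v (ins c m p) = (c : R) * mev v m + ev v p := by
  induction p with
  | nil => simp [ins]
  | cons q p ih =>
    unfold ins
    split_ifs with h1 h2
    · have h3 : (c : R) + (q.1 : R) = 0 := by exact_mod_cast congrArg (Int.cast : ℤ → R) h2
      rw [ev_cons, ← eq_of_meq h1, ← add_assoc, ← add_mul, h3, zero_mul, zero_add]
    · rw [ev_cons, ev_cons, ← eq_of_meq h1]; push_cast; ring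
    · rw [ev_cons, ev_cons, ih]; ring

@[simp] theorem ev_add (p q : Po) : ev v (add p q) = ev v p + ev v q := by
  induction p with
  | nil => simp [add]
  | cons t p ih =>
    have : add (t :: p) q = ins t.1 t.2 (add p q) := rfl
    rw [this, ev_ins, ih, ev_cons, add_assoc]

theorem ev_tmul (c : ℤ) (m : List ℕ) (q : Po) :
    ev v (tmul c m q) = (c : R) * mev v m * ev v q := by
  induction q with
  | nil => simp [tmul]
  | cons t q ih =>
    have : tmul c m (t :: q) = (c * t.1, mmul m t.2) :: tmul c m q := rfl
    rw [this, ev_cons, ih, ev_cons, mev_mmul]; push_cast; ring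

@[simp] theorem ev_mul (p q : Po) : ev v (mul p q) = ev v p * ev v q := by
  induction p with
  | nil => simp [mul]
  | cons t p ih =>
    have : mul (t :: p) q = add (tmul t.1 t.2 q) (mul p q) := rfl
    rw [this, ev_add, ev_tmul, ih, ev_cons, add_mul]

@[simp] theorem ev_neg (p : Po) : ev v (neg p) = -ev v p := by
  induction p with
  | nil => simp [neg]
  | cons t p ih =>
    have : neg (t :: p) = (-t.1, t.2) :: neg p := rfl
    rw [this, ev_cons, ih, ev_cons]; push_cast; ring

@[simp] theorem ev_C (c : ℤ) : ev v (C c) = (c : R) := by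
  unfold C
  split_ifs with h
  · simp [h]
  · simp

@[simp] theorem ev_X (i : ℕ) : ev v (X i) = v i := by simp [X]

theorem ev_isZ {p : Po} (h : isZ p = true) : ev v p = 0 := by
  induction p with
  | nil => rfl
  | cons t p ih =>
    simp only [isZ, List.all_cons, Bool.and_eq_true, beq_iff_eq] at h
    rw [ev_cons, h.1, ih h.2]; simp

theorem ev_peq {p q : Po} (h : peq p q = true) : ev v p = ev v q := by
  have := ev_isZ v h
  rw [ev_add, ev_neg] at this
  exact neg_add_eq_zero.1 this

theorem ev_sub (σ : ℕ → Po) (p : Po) : ev v (sub σ p) = ev (fun i => ev v (σ i)) p := by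
  induction p with
  | nil => rfl
  | cons t p ih =>
    have : sub σ (t :: p) = add (t.2.foldr (fun i u => mul (σ i) u) [(t.1, [])]) (sub σ p) := rfl
    rw [this, ev_add, ih, ev_cons]
    congr 1
    induction t.2 with
    | nil => simp
    | cons i m ih => rw [List.foldr_cons, ev_mul, ih, mev_cons]; ring

theorem mev_erase {i : ℕ} {m : List ℕ} (h : i ∈ m) : mev v m = v i * mev v (m.erase i) := by
  rw [← mev_cons]
  exact ((List.perm_cons_erase h).map v).prod_eq

theorem ev_rd1 {i j : ℕ} {q : Po} (h : v i * v j = ev v q) (p : Po) :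
    ev v (rd1 i j q p) = ev v p := by
  induction p with
  | nil => rfl
  | cons t p ih =>
    have : rd1 i j q (t :: p) = if i ∈ t.2 ∧ j ∈ t.2.erase i then
        add (tmul t.1 ((t.2.erase i).erase j) q) (rd1 i j q p) else ins t.1 t.2 (rd1 i j q p) := rfl
    rw [this]
    split_ifs with h1
    · rw [ev_add, ev_tmul, ih, ev_cons, mev_erase v h1.1, mev_erase v h1.2, ← h]; ring
    · rw [ev_ins, ih, ev_cons]

theorem ev_rd {i j : ℕ} {q : Po} (h : v i * v j = ev v q) (k : ℕ) (p : Po) :
    ev v (rd i j q k p) = ev v p := by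
  induction k generalizing p with
  | zero => rfl
  | succ k ih => rw [rd, ih, ev_rd1 v h]

theorem map_ev {R' : Type} [CommRing R'] (f : R →+* R') (p : Po) :
    f (ev v p) = ev (fun i => f (v i)) p := by
  induction p with
  | nil => simp
  | cons t p ih =>
    rw [ev_cons, ev_cons, map_add, map_mul, ih, map_intCast]
    congr 2
    induction t.2 with
    | nil => simp
    | cons i m ih => rw [mev_cons, mev_cons, map_mul, ih]

end ev

end Pool.Agent.Lib.MP_755cca_al.F.PM
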