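import Pool.Agent.Lib.MP_755cca_al.F.Dat
import Pool.Agent.Lib.MP_755cca_al.F.PM

/-! Reflective calculus of sparse polynomial matrices. -/

open Matrix

namespace Pool.Agent.Lib.MP_755cca_al.F.PM

def sins (r c : ℕ) (k : ℤ) (m : List ℕ) : SM → SM
  | [] => [(r, c, k, m)]
  | q :: p => if Nat.beq r q.1 && (Nat.beq c q.2.1 && meq m q.2.2.2) then
      (if k + q.2.2.1 = 0 then p else (r, c, k + q.2.2.1, m) :: p) else q :: sins r c k m p

def sput (r c : ℕ) (p : Po) (s : SM) : SM := p.foldr (fun t u => sins r c t.1 t.2 u) s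

def srow (r c : ℕ) (k : ℤ) (m : List ℕ) (B s : SM) : SM :=
  B.foldr (fun b u => if Nat.beq c b.1 then sins r b.2.1 (k * b.2.2.1) (mmul m b.2.2.2) u else u) s

/-- product -/
def smul (n : ℕ) (A B : SM) : SM :=
  A.foldr (fun a s => if Nat.blt a.2.1 n then srow a.1 a.2.1 a.2.2.1 a.2.2.2 B s else s) []

def sone (n : ℕ) : SM := (List.range n).map fun i => (i, i, 1, [])

def sprod (n : ℕ) (L : List SM) : SM := L.foldr (smul n) (sone n)

/-- apply a map to all entries -/
def smap (f : Po → Po) (A : SM) : SM :=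
  A.foldr (fun e s => sput e.1 e.2.1 (f [e.2.2]) s) []

def str (A : SM) : SM := A.map fun e => (e.2.1, e.1, e.2.2)

/-- equality test -/
def seq (A B : SM) : Bool :=
  (A.foldr (fun e s => sins e.1 e.2.1 (-e.2.2.1) e.2.2.2 s)
    (B.foldr (fun e s => sins e.1 e.2.1 e.2.2.1 e.2.2.2 s) [])).all fun e => e.2.2.1 == 0

/-- one entry -/
def sent (A : SM) (r c : ℕ) : Po :=
  A.foldr (fun e s => if Nat.beq e.1 r && Nat.beq e.2.1 c then e.2.2 :: s else s) []

def psum (L : List Po) : Po := L.foldr add []

def pprod (L : List Po) : Po := L.foldr mul (C 1)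

def ppow (p : Po) : ℕ → Po
  | 0 => C 1
  | k + 1 => mul p (ppow p k)

/-- minors -/
def sdet (A : SM) : (k : ℕ) → (Fin k → ℕ) → (Fin k → ℕ) → Po
  | 0, _, _ => C 1
  | k + 1, R, Cc => psum ((List.finRange (k + 1)).map fun j : Fin (k + 1) =>
      mul (mul (C ((-1) ^ (j : ℕ))) (sent A (R 0) (Cc j)))
        (sdet A k (fun i => R i.succ) fun i => Cc (j.succAbove i)))

section

variable {R : Type} [CommRing R] (n : ℕ) (v : ℕ → R)

/-- matrix with one entry -/
def E1 (r c : ℕ) (x : R) : Matrix (Fin n) (Fin n) R :=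
  of fun b d => if r = b.val ∧ c = d.val then x else 0

theorem sev_nil : SM.ev n v [] = 0 := by
  ext b c; simp [SM.ev]

theorem sev_cons (e : ℕ × ℕ × ℤ × List ℕ) (A : SM) :
    SM.ev n v (e :: A) = E1 n e.1 e.2.1 ((e.2.2.1 : R) * mev v e.2.2.2) + SM.ev n v A := by
  ext b c; simp [SM.ev, E1, mev]

theorem E1_add (r c : ℕ) (x y : R) : E1 n r c (x + y) = E1 n r c x + E1 n r c y := by
  ext b d
  simp only [E1, of_apply, Matrix.add_apply]
  split_ifs <;> simp

theorem E1_zero (r c : ℕ) : E1 n r c (0 : R) = 0 := by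
  ext b d; simp [E1]

theorem E1_neg (r c : ℕ) (x : R) : E1 n r c (-x) = -E1 n r c x := by
  ext b d
  simp only [E1, of_apply, Matrix.neg_apply]
  split_ifs <;> simp

theorem E1_mul {c : ℕ} (hc : c < n) (r c' : ℕ) (x y : R) :
    E1 n r c x * E1 n c c' y = E1 n r c' (x * y) := by
  ext b d
  rw [mul_apply, Finset.sum_eq_single ⟨c, hc⟩]
  · simp only [E1, of_apply]
    by_cases h1 : r = b.val <;> by_cases h2 : c' = d.val <;> simp [h1, h2]
  · intro j _ hj
    have : c ≠ j.val := fun h => hj (Fin.ext h.symm)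
    simp [E1, this]
  · simp

theorem E1_mul_ne {c r' : ℕ} (h : c ≠ r') (r c' : ℕ) (x y : R) :
    E1 n r c x * E1 n r' c' y = 0 := by
  ext b d
  rw [mul_apply]
  refine Finset.sum_eq_zero fun j _ => ?_
  simp only [E1, of_apply]
  by_cases h1 : c = j.val
  · have : r' ≠ j.val := fun h2 => h (h1.trans h2.symm)
    simp [this]
  · simp [h1]

theorem E1_out {c : ℕ} (hc : ¬c < n) (r : ℕ) (x : R) : E1 n r c x = 0 := by
  ext b d
  have : c ≠ d.val := fun h => hc (h ▸ d.2)
  simp [E1, this]

theorem sev_sins (r c : ℕ) (k : ℤ) (m : List ℕ) (A : SM) :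
    SM.ev n v (sins r c k m A) = E1 n r c ((k : R) * mev v m) + SM.ev n v A := by
  induction A with
  | nil => simp [sins, sev_cons]
  | cons q p ih =>
    unfold sins
    split_ifs with h1 h2
    · simp only [Bool.and_eq_true] at h1
      have h3 : (k : R) + (q.2.2.1 : R) = 0 := by exact_mod_cast congrArg (Int.cast : ℤ → R) h2
      rw [sev_cons, ← Nat.eq_of_beq_eq_true h1.1, ← Nat.eq_of_beq_eq_true h1.2.1,
        ← eq_of_meq h1.2.2, ← add_assoc, ← E1_add, ← add_mul, h3, zero_mul, E1_zero, zero_add]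
    · simp only [Bool.and_eq_true] at h1
      rw [sev_cons, sev_cons, ← Nat.eq_of_beq_eq_true h1.1, ← Nat.eq_of_beq_eq_true h1.2.1,
        ← eq_of_meq h1.2.2, ← add_assoc, ← E1_add, ← add_mul]
      push_cast; rfl
    · rw [sev_cons, sev_cons, ih]; abel

theorem sev_sput (r c : ℕ) (p : Po) (s : SM) :
    SM.ev n v (sput r c p s) = E1 n r c (ev v p) + SM.ev n v s := by
  induction p with
  | nil => simp [sput, E1_zero]
  | cons t p ih =>
    have : sput r c (t :: p) s = sins r c t.1 t.2 (sput r c p s) := rfl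
    rw [this, sev_sins, ih, ev_cons, E1_add, add_assoc]

theorem sev_srow {c : ℕ} (hc : c < n) (r : ℕ) (k : ℤ) (m : List ℕ) (B s : SM) :
    SM.ev n v (srow r c k m B s) =
      E1 n r c ((k : R) * mev v m) * SM.ev n v B + SM.ev n v s := by
  induction B with
  | nil => simp [srow, sev_nil]
  | cons b B ih =>
    have : srow r c k m (b :: B) s = if Nat.beq c b.1 then
        sins r b.2.1 (k * b.2.2.1) (mmul m b.2.2.2) (srow r c k m B s) else srow r c k m B s := rfl
    rw [this, sev_cons, mul_add]
    split_ifs with h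
    · rw [sev_sins, ih, ← Nat.eq_of_beq_eq_true h, E1_mul n hc, mev_mmul, add_assoc]
      congr 2
      push_cast; ring
    · rw [ih, E1_mul_ne n (fun h' => h (by rw [h']; exact Nat.beq_refl _)), zero_add]

theorem sev_smul (A B : SM) : SM.ev n v (smul n A B) = SM.ev n v A * SM.ev n v B := by
  induction A with
  | nil => simp [smul, sev_nil]
  | cons a A ih =>
    have : smul n (a :: A) B = if Nat.blt a.2.1 n then
        srow a.1 a.2.1 a.2.2.1 a.2.2.2 B (smul n A B) else smul n A B := rfl
    rw [this, sev_cons, add_mul]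
    split_ifs with h
    · rw [sev_srow n v (Nat.blt_eq ▸ h), ih]
    · rw [ih, E1_out n (fun h' => h (Nat.blt_eq ▸ h')), zero_mul, zero_add]

theorem sev_sone : SM.ev n v (sone n) = 1 := by
  ext b c
  simp only [SM.ev, sone, of_apply, List.map_map, Function.comp_def, Int.cast_one, List.map_nil,
    List.prod_nil, mul_one]
  rw [← List.sum_toFinset _ List.nodup_range, List.toFinset_range, Finset.sum_eq_single b.val]
  · simp [one_apply, Fin.ext_iff]
  · intro j _ hj; simp [hj]
  · intro h; exact absurd (Finset.mem_range.2 b.2) h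

theorem sev_sprod (L : List SM) : SM.ev n v (sprod n L) = (L.map (SM.ev n v)).prod := by
  induction L with
  | nil => simp [sprod, sev_sone]
  | cons A L ih =>
    have : sprod n (A :: L) = smul n A (sprod n L) := rfl
    rw [this, sev_smul, ih, List.map_cons, List.prod_cons]

theorem sev_smap {f : Po → Po} {v' : ℕ → R} (h : ∀ p, ev v (f p) = ev v' p) (A : SM) :
    SM.ev n v (smap f A) = SM.ev n v' A := by
  induction A with
  | nil => simp [smap, sev_nil]
  | cons e A ih =>
    have : smap f (e :: A) = sput e.1 e.2.1 (f [e.2.2]) (smap f A) := rfl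
    rw [this, sev_sput, ih, h, sev_cons]; simp

theorem sev_str (A : SM) : SM.ev n v (str A) = (SM.ev n v A)ᵀ := by
  ext b c
  simp [SM.ev, str, Function.comp_def, and_comm]

theorem sev_seq {A B : SM} (h : seq A B = true) : SM.ev n v A = SM.ev n v B := by
  have h0 : ∀ Z : SM, (Z.all fun e => e.2.2.1 == 0) = true → SM.ev n v Z = 0 := fun Z hZ => by
    induction Z with
    | nil => exact sev_nil n v
    | cons e Z ih =>
      simp only [List.all_cons, Bool.and_eq_true, beq_iff_eq] at hZ
      rw [sev_cons, hZ.1, ih hZ.2]; simp [E1_zero]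
  have h1 : ∀ Z : SM, SM.ev n v (Z.foldr (fun e s => sins e.1 e.2.1 e.2.2.1 e.2.2.2 s) []) =
      SM.ev n v Z := fun Z => by
    induction Z with
    | nil => rfl
    | cons e Z ih => rw [List.foldr_cons, sev_sins, ih, sev_cons]
  have h2 : ∀ Z s : SM, SM.ev n v (Z.foldr (fun e s => sins e.1 e.2.1 (-e.2.2.1) e.2.2.2 s) s) =
      -SM.ev n v Z + SM.ev n v s := fun Z s => by
    induction Z with
    | nil => simp [sev_nil]
    | cons e Z ih =>
      rw [List.foldr_cons, sev_sins, ih, sev_cons, Int.cast_neg, neg_mul, E1_neg]; abel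
  have := h0 _ h
  rw [h2, h1] at this
  exact neg_add_eq_zero.1 this

theorem sev_sent (A : SM) (b c : Fin n) : SM.ev n v A b c = ev v (sent A b c) := by
  induction A with
  | nil => simp [sev_nil, sent]
  | cons e A ih =>
    have : sent (e :: A) b c = if Nat.beq e.1 b && Nat.beq e.2.1 c then e.2.2 :: sent A b c
        else sent A b c := rfl
    rw [this, sev_cons, Matrix.add_apply, ih]
    simp only [Bool.and_eq_true, Nat.beq_eq, E1, of_apply]
    split_ifs <;> simp

theorem sev_supp {A : SM} {b c : Fin n} (h : ∀ e ∈ A, ¬(e.1 = b.val ∧ e.2.1 = c.val)) :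
    SM.ev n v A b c = 0 := by
  simp only [SM.ev, of_apply]
  refine List.sum_eq_zero fun x hx => ?_
  obtain ⟨e, he, rfl⟩ := List.mem_map.1 hx
  exact if_neg (h e he)

theorem sev_map {R' : Type} [CommRing R'] (f : R →+* R') (A : SM) :
    (SM.ev n v A).map f = SM.ev n (fun i => f (v i)) A := by
  ext b c
  rw [map_apply, sev_sent, sev_sent, map_ev]

theorem ev_psum (L : List Po) : ev v (psum L) = (L.map (ev v)).sum := by
  induction L with
  | nil => rfl
  | cons p L ih =>
    have : psum (p :: L) = add p (psum L) := rfl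
    rw [this, ev_add, ih, List.map_cons, List.sum_cons]

theorem ev_pprod (L : List Po) : ev v (pprod L) = (L.map (ev v)).prod := by
  induction L with
  | nil => simp [pprod]
  | cons p L ih =>
    have : pprod (p :: L) = mul p (pprod L) := rfl
    rw [this, ev_mul, ih, List.map_cons, List.prod_cons]

theorem ev_ppow (p : Po) (k : ℕ) : ev v (ppow p k) = ev v p ^ k := by
  induction k with
  | zero => simp [ppow]
  | succ k ih => rw [ppow, ev_mul, ih, pow_succ']

theorem ev_sdet (A : SM) (k : ℕ) (Rr Cc : Fin k → Fin n) :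
    ev v (sdet A k (fun i => (Rr i).val) fun i => (Cc i).val) =
      ((SM.ev n v A).submatrix Rr Cc).det := by
  induction k with
  | zero => simp [sdet]
  | succ k ih =>
    rw [sdet, ev_psum, det_succ_row_zero, List.map_map, ← List.ofFn_eq_map, List.sum_ofFn]
    refine Finset.sum_congr rfl fun j _ => ?_
    simp only [Function.comp_apply, ev_mul, ev_C, submatrix_apply, submatrix_submatrix]
    rw [ih (fun i => Rr i.succ) fun i => Cc (j.succAbove i), sev_sent]
    push_cast
    rfl

end

end Pool.Agent.Lib.MP_755cca_al.F.PM
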