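import Pool.Agent.Lib.MP_755cca_al.F.Gen
import Pool.Agent.Lib.MP_755cca_al.F.Dat
import Pool.Agent.Lib.MP_755cca_al.F.SMx

/-! Data format of the cores. Variables: `k < r` is the `k`-th lowest minor, then
`r, …, r + 7` are `x, x', y, y', b, b', z, z'`, and `r + 8`, `r + 9` are signs. -/

open Matrix
open scoped Pointwise

namespace Pool.Agent.Lib.MP_755cca_al.F

open PM

/-- a chain with polynomial parameters -/
structure CD where
  word : List ℕ
  t : List Po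
  rules : List (ℕ × ℕ × Po)
  cut : ℕ
  A : List Po
  B : List Po

/-- the relations hold -/
def Rules (v : ℕ → ℤ) (l : List (ℕ × ℕ × Po)) : Prop :=
  ∀ e ∈ l, v e.1 * v e.2.1 = ev v e.2.2

/-- the element of the chain -/
def CD.elt (d : Dat) (c : CD) (v : ℕ → ℤ) : d.toSys.Mat ℤ :=
  d.toSys.n0 ℤ * ((c.word.zip c.t).map fun e =>
    d.toSys.x ℤ (d.toSys.s (fo d.r e.1)) (ev v e.2) * d.toSys.nn ℤ (fo d.r e.1)).prod

/-- the polynomial identities -/
def CD.Ident (d : Dat) (c : CD) : Prop :=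
  ∀ v : ℕ → ℤ, Rules v c.rules → ∀ k : Fin (d.r + 1),
    d.toSys.D ℤ k (c.elt d v) = v k ∧
    v k ∣ ev v (c.A.getD k []) * d.toSys.Q ℤ k (c.elt d v) - ev v (c.B.getD k [])

/-- the arithmetic part -/
def CD.Arith (d : Dat) (c : CD) (K : Set (Fin (d.r + 1))) : Prop :=
  ∀ e q : Fin (d.r + 1) → ℤ, d.toSys.Adm K e → (∀ k, IsCoprime (q k) (e k)) →
    ∃ v : ℕ → ℤ, (∀ k : Fin (d.r + 1), v k = e k) ∧ Rules v c.rules ∧ ∀ k ∈ K,
      IsCoprime (ev v (c.A.getD k [])) (e k) ∧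
      e k ∣ ev v (c.A.getD k []) * q k - ev v (c.B.getD k [])

/-- signed monomial -/
abbrev Mo : Type := ℤ × List ℕ

/-- squares of the minors outside `K` -/
def sqRules (r : ℕ) (K : List ℕ) : List (ℕ × ℕ × Po) :=
  ((List.range r).filter fun k => k ∉ K).map fun k => (k, k, [(1, [])])

/-- `x x' = s + b y² P`, `y y' = e (x² - 1)`, `b b' = f x + g` -/
def leafRules (r : ℕ) (K : List ℕ) (s P e f g : Mo) : List (ℕ × ℕ × Po) :=
  [(r, r + 1, [s, (P.1, P.2 ++ [r + 2, r + 2, r + 4])]),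
    (r + 2, r + 3, [(e.1, e.2 ++ [r, r]), (-e.1, e.2)]),
    (r + 4, r + 5, [(f.1, f.2 ++ [r]), g])] ++ sqRules r K

/-- `x x' = s + s' b ^ k y²`, `y y' = e (x² - 1)`, `b b' = u x + w` -/
def pathRules (r : ℕ) (K : List ℕ) (k : ℕ) (s s' e u w : Mo) : List (ℕ × ℕ × Po) :=
  [(r, r + 1, [s, (s'.1, s'.2 ++ [r + 2, r + 2] ++ List.replicate k (r + 4))]),
    (r + 2, r + 3, [(e.1, e.2 ++ [r, r]), (-e.1, e.2)]),
    (r + 4, r + 5, [(u.1, u.2 ++ [r]), w])] ++ sqRules r K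

end Pool.Agent.Lib.MP_755cca_al.F
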