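import Pool.Agent.Lib.MP_755cca_al.F.SMx

/-! Sorted polynomials; a monomial is a number, the variables are primes. -/

open Matrix

namespace Pool.Agent.Lib.MP_755cca_al.F.CQ

/-- polynomials -/
abbrev Q : Type := List (ℕ × ℤ)

def go (a : ℕ × ℤ) (p : Q) (f : Q → Q) : Q → Q
  | [] => a :: p
  | b :: q => bif Nat.blt a.1 b.1 then a :: f (b :: q) else
      bif Nat.blt b.1 a.1 then b :: go a p f q else
        bif a.2 + b.2 == 0 then f q else (a.1, a.2 + b.2) :: f q

def add : Q → Q → Q
  | [] => fun q => q
  | a :: p => go a p (add p)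

def tmul (a : ℕ × ℤ) (q : Q) : Q := q.map fun b => (a.1 * b.1, a.2 * b.2)

def mul (p q : Q) : Q := p.foldr (fun a s => add (tmul a q) s) []

def neg (p : Q) : Q := tmul (1, -1) p

def sub (p q : Q) : Q := add p (neg q)

/-- rewriting one monomial -/
def rw1 (a : ℕ × ℤ) : List (ℕ × Q) → Option Q
  | [] => none
  | r :: rs => bif Nat.beq (a.1 % r.1) 0 then some (tmul (a.1 / r.1, a.2) r.2) else rw1 a rs

def good (rs : List (ℕ × Q)) : Q → Q
  | [] => []
  | a :: p => match rw1 a rs with
    | none => a :: good rs p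
    | some _ => good rs p

def bad (rs : List (ℕ × Q)) : Q → Q
  | [] => []
  | a :: p => match rw1 a rs with
    | none => bad rs p
    | some q => add q (bad rs p)

def red (rs : List (ℕ × Q)) : ℕ → Q → Q
  | 0, p => p
  | _ + 1, [] => []
  | k + 1, a :: p => add (good rs (a :: p)) (red rs k (bad rs (a :: p)))

variable (v : ℕ → ℤ)

/-- value of a monomial -/
def mev (n : ℕ) : ℤ := if n = 0 then 0 else (n.primeFactorsList.map v).prod

def ev (p : Q) : ℤ := (p.map fun a => a.2 * mev v a.1).sum

theorem mev_mul (m n : ℕ) : mev v (m * n) = mev v m * mev v n := by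
  by_cases hm : m = 0
  · simp [mev, hm]
  by_cases hn : n = 0
  · simp [mev, hn]
  simp only [mev, hm, hn, mul_eq_zero, or_self, if_false]
  rw [((Nat.perm_primeFactorsList_mul hm hn).map v).prod_eq, List.map_append, List.prod_append]

theorem mev_one : mev v 1 = 1 := by simp [mev]

theorem mev_prime {p : ℕ} (h : p.Prime) : mev v p = v p := by
  simp [mev, h.ne_zero, Nat.primeFactorsList_prime h]

theorem mev_prod {l : List ℕ} (h : ∀ p ∈ l, p.Prime) : mev v l.prod = (l.map v).prod := by
  induction l with
  | nil => simp [mev_one]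
  | cons p l ih =>
    rw [List.prod_cons, mev_mul, mev_prime v (h p List.mem_cons_self),
      ih fun q hq => h q (List.mem_cons_of_mem _ hq), List.map_cons, List.prod_cons]

@[simp] theorem ev_nil : ev v [] = 0 := rfl

@[simp] theorem ev_cons (a : ℕ × ℤ) (p : Q) : ev v (a :: p) = a.2 * mev v a.1 + ev v p := by
  simp [ev]

theorem ev_go (a : ℕ × ℤ) (p : Q) (f : Q → Q) (hf : ∀ q, ev v (f q) = ev v p + ev v q) (q : Q) :
    ev v (go a p f q) = ev v (a :: p) + ev v q := by
  induction q with
  | nil => simp [go]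
  | cons b q ih =>
    rw [go]
    cases h1 : Nat.blt a.1 b.1
    · cases h2 : Nat.blt b.1 a.1
      · have e : b.1 = a.1 := by
          have t1 : ¬ a.1 < b.1 := fun h => by simp [Nat.blt_eq.mpr h] at h1
          have t2 : ¬ b.1 < a.1 := fun h => by simp [Nat.blt_eq.mpr h] at h2
          omega
        cases h3 : a.2 + b.2 == 0
        · simp only [cond_false, ev_cons, hf, e]
          ring
        · have t : a.2 + b.2 = 0 := by simpa using h3
          simp only [cond_false, cond_true, ev_cons, hf, e]
          linear_combination (-mev v a.1) * t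
      · simp only [cond_false, cond_true, ev_cons, ih]
        ring
    · simp only [cond_true, ev_cons, hf]
      ring

theorem ev_add (p q : Q) : ev v (add p q) = ev v p + ev v q := by
  induction p generalizing q with
  | nil => simp [add]
  | cons a p ih => exact ev_go v a p _ ih q

theorem ev_tmul (a : ℕ × ℤ) (q : Q) : ev v (tmul a q) = a.2 * mev v a.1 * ev v q := by
  induction q with
  | nil => simp [tmul]
  | cons b q ih =>
    have : tmul a (b :: q) = (a.1 * b.1, a.2 * b.2) :: tmul a q := rfl
    rw [this, ev_cons, ev_cons, ih, mev_mul]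
    ring

theorem ev_mul (p q : Q) : ev v (mul p q) = ev v p * ev v q := by
  induction p with
  | nil => simp [mul]
  | cons a p ih =>
    have : mul (a :: p) q = add (tmul a q) (mul p q) := rfl
    rw [this, ev_add, ev_tmul, ih, ev_cons]
    ring

theorem ev_neg (p : Q) : ev v (neg p) = -ev v p := by
  simp [neg, ev_tmul, mev_one]

theorem ev_sub (p q : Q) : ev v (sub p q) = ev v p - ev v q := by
  rw [sub, ev_add, ev_neg]; ring

/-- the rules hold -/
def Rules (rs : List (ℕ × Q)) : Prop := ∀ r ∈ rs, mev v r.1 = ev v r.2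

theorem ev_rw1 {rs : List (ℕ × Q)} (h : Rules v rs) {a : ℕ × ℤ} {q : Q}
    (e : rw1 a rs = some q) : ev v q = a.2 * mev v a.1 := by
  induction rs with
  | nil => simp [rw1] at e
  | cons r rs ih =>
    rw [rw1] at e
    cases h1 : Nat.beq (a.1 % r.1) 0
    · rw [h1, cond_false] at e
      exact ih (fun r hr => h r (List.mem_cons_of_mem _ hr)) e
    · rw [h1, cond_true] at e
      obtain rfl := Option.some.inj e
      have t : a.1 / r.1 * r.1 = a.1 :=
        Nat.div_mul_cancel (Nat.dvd_of_mod_eq_zero (Nat.eq_of_beq_eq_true h1))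
      rw [ev_tmul, ← h r List.mem_cons_self, mul_assoc, ← mev_mul, t]

theorem ev_good_bad {rs : List (ℕ × Q)} (h : Rules v rs) (p : Q) :
    ev v (good rs p) + ev v (bad rs p) = ev v p := by
  induction p with
  | nil => simp [good, bad]
  | cons a p ih =>
    rw [good, bad]
    cases e : rw1 a rs with
    | none =>
      simp only [ev_cons]
      linear_combination ih
    | some q =>
      simp only [ev_cons, ev_add, ev_rw1 v h e]
      linear_combination ih

theorem ev_red {rs : List (ℕ × Q)} (h : Rules v rs) (k : ℕ) (p : Q) :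
    ev v (red rs k p) = ev v p := by
  induction k generalizing p with
  | zero => rfl
  | succ k ih =>
    cases p with
    | nil => rfl
    | cons a p => rw [red, ev_add, ih, ev_good_bad v h]

theorem dvd_ev {m : ℕ} {p : Q} (h : (p.all fun a => Nat.beq (a.1 % m) 0) = true) :
    mev v m ∣ ev v p := by
  induction p with
  | nil => simp
  | cons a p ih =>
    rw [List.all_cons, Bool.and_eq_true] at h
    obtain ⟨c, hc⟩ := Nat.dvd_of_mod_eq_zero (Nat.eq_of_beq_eq_true h.1)
    rw [ev_cons, hc, mev_mul]
    exact ((Dvd.intro _ rfl).mul_left _).add (ih h.2)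

/-- product of the values of a list of variables -/
def wprod (w : ℕ → Q) (m : List ℕ) (p : Q) : Q := m.foldr (fun j s => mul (w j) s) p

theorem ev_wprod (w : ℕ → Q) (m : List ℕ) (p : Q) :
    ev v (wprod w m p) = (m.map fun j => ev v (w j)).prod * ev v p := by
  induction m with
  | nil => simp [wprod]
  | cons j m ih =>
    have : wprod w (j :: m) p = mul (w j) (wprod w m p) := rfl
    rw [this, ev_mul, ih, List.map_cons, List.prod_cons, mul_assoc]

/-- entry of a row times a sparse matrix -/
def ent (n : ℕ) (w : ℕ → Q) (row : List Q) (c : ℕ) : SM → Q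
  | [] => []
  | e :: A => bif Nat.beq e.2.1 c && Nat.blt e.1 n then
      add (wprod w e.2.2.2 (tmul (1, e.2.2.1) (row.getD e.1 []))) (ent n w row c A)
    else ent n w row c A

/-- value of a row -/
def rev (n : ℕ) (row : List Q) : Fin n → ℤ := fun c => ev v (row.getD c [])

theorem ev_ent (n : ℕ) (w : ℕ → Q) (row : List Q) (c : Fin n) (A : SM) :
    ev v (ent n w row c A) = (rev v n row ᵥ* SM.ev n (fun j => ev v (w j)) A) c := by
  induction A with
  | nil => simp [ent, PM.sev_nil]
  | cons e A ih =>
    rw [ent, PM.sev_cons, vecMul_add, Pi.add_apply, ← ih]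
    cases h : Nat.beq e.2.1 c && Nat.blt e.1 n
    · rw [cond_false]
      have : (rev v n row ᵥ* PM.E1 n e.1 e.2.1
          ((e.2.2.1 : ℤ) * PM.mev (fun j => ev v (w j)) e.2.2.2)) c = 0 := by
        simp only [vecMul, dotProduct, PM.E1, of_apply]
        refine Finset.sum_eq_zero fun b _ => ?_
        rw [if_neg, mul_zero]
        rintro ⟨h1, h2⟩
        have t1 : Nat.beq e.2.1 c = true := by rw [h2]; exact Nat.beq_refl _
        have t2 : Nat.blt e.1 n = true := Nat.blt_eq.mpr (h1 ▸ b.2)
        simp [t1, t2] at h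
      simp only [Int.cast_id] at this ⊢
      rw [this, zero_add]
    · rw [Bool.and_eq_true] at h
      have h1 : e.2.1 = c := Nat.eq_of_beq_eq_true h.1
      have h2 : e.1 < n := Nat.blt_eq.mp h.2
      rw [cond_true, ev_add, ev_wprod, ev_tmul, mev_one]
      congr 1
      simp only [vecMul, dotProduct, PM.E1, of_apply]
      rw [Finset.sum_eq_single ⟨e.1, h2⟩]
      · simp only [h1, and_self, if_true, rev, PM.mev, Int.cast_id]
        ring
      · intro b _ hb
        rw [if_neg, mul_zero]
        exact fun t => hb (Fin.ext t.1.symm)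
      · simp

/-- a row times a sparse matrix, reduced -/
def rstep (n : ℕ) (f : Q → Q) (w : ℕ → Q) (A : SM) (row : List Q) : List Q :=
  (List.range n).map fun c => f (ent n w row c A)

theorem rev_rstep (n : ℕ) {f : Q → Q} (hf : ∀ p, ev v (f p) = ev v p) (w : ℕ → Q) (A : SM)
    (row : List Q) :
    rev v n (rstep n f w A row) = rev v n row ᵥ* SM.ev n (fun j => ev v (w j)) A := by
  funext c
  rw [← ev_ent, rev, rstep, List.getD_eq_getElem _ _ (by simp), List.getElem_map, hf]
  simp

/-- minors -/
def qdet (f : Q → Q) (G : ℕ → ℕ → Q) : (k : ℕ) → (Fin k → ℕ) → (Fin k → ℕ) → Q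
  | 0, _, _ => [(1, 1)]
  | k + 1, R, Cc => (List.finRange (k + 1)).foldr (fun j : Fin (k + 1) => fun s =>
      add (f (mul (tmul (1, (-1) ^ (j : ℕ)) (G (R 0) (Cc j)))
        (qdet f G k (fun i => R i.succ) fun i => Cc (j.succAbove i)))) s) []

theorem ev_foldr {α : Type} (F : α → Q) (l : List α) :
    ev v (l.foldr (fun j s => add (F j) s) []) = (l.map fun j => ev v (F j)).sum := by
  induction l with
  | nil => rfl
  | cons a l ih => rw [List.foldr_cons, ev_add, ih, List.map_cons, List.sum_cons]

theorem ev_qdet {n : ℕ} {f : Q → Q} (hf : ∀ p, ev v (f p) = ev v p) (G : ℕ → ℕ → Q)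
    (g : Matrix (Fin n) (Fin n) ℤ) (hg : ∀ r c : Fin n, ev v (G r c) = g r c) (k : ℕ)
    (Rr Cc : Fin k → Fin n) :
    ev v (qdet f G k (fun i => (Rr i).val) fun i => (Cc i).val) = (g.submatrix Rr Cc).det := by
  induction k with
  | zero => simp [qdet, mev_one]
  | succ k ih =>
    rw [qdet, ev_foldr, det_succ_row_zero, ← List.ofFn_eq_map, List.sum_ofFn]
    refine Finset.sum_congr rfl fun j _ => ?_
    rw [hf, ev_mul, ev_tmul, mev_one, hg, ih (fun i => Rr i.succ) fun i => Cc (j.succAbove i)]
    simp only [submatrix_apply, submatrix_submatrix, mul_one]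
    rfl

end Pool.Agent.Lib.MP_755cca_al.F.CQ
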