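import Pool.Agent.Lib.MP_755cca_al.F.CoreChk
import Pool.Agent.Lib.MP_755cca_al.F.Tab

/-! Certificates for the cores. -/

namespace Pool.Agent.Lib.MP_755cca_al.F.CQ

/-- certificate -/
def ctA3_0 : Cert where
  kind := 1
  useZ := false
  P := (1, [])
  s₁ := (1, [])
  s₂ := (1, [])
  u := (1, [37])
  w := (-1, [31, 41])
  az := (1, [])
  bz := (1, [])
  cl := [⟨(1, []), (-1, []), (1, [53]), (1, []), (1, []), [(1, 1)], []⟩,
    ⟨(1, [11]), (1, [59]), (-1, [31, 41]), (1, []), (1, []), [(1, -1)], []⟩,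
    ⟨(1, []), (1, []), (1, [61]), (1, []), (1, []), [(1, 1)], []⟩]
  ts := [[],
    [],
    [],
    [],
    [],
    [],
    [(1, 1)],
    [(1, 1)],
    [(1, -1)],
    [(1, 2)],
    [(1, 2)],
    [(1, -4), (5, -4), (7, 1)],
    [(1, 2), (2, 1), (5, 6), (7, -1)],
    [(1, 2), (2, -1), (5, 6), (7, -1)],
    [(1, -1), (5, -9), (7, 1)],
    [(1, 2)],
    [(1, 2)],
    [(3, -1), (5, -1), (7, 1), (22, 1)],
    [(2, -1), (3, 2), (5, 2), (7, -1), (22, -1), (55, -1)],
    [(2, 1), (3, 2), (5, 2), (7, -1), (22, -1), (55, 1)],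
    [(3, -4), (5, -4), (7, 1), (22, 1), (41, 1)],
    [(1, 2), (31, -1), (39, 1), (82, -1), (205, -1), (925, -1), (2542, 1)],
    [(1, 2), (41, 1), (82, -1), (205, 1)],
    [(2, -1), (13, -1), (39, 1), (62, 1), (82, -1), (155, -1), (164, 1), (195, 1), (205, -1), (925,
     -1), (1025, -1), (2542, 1), (4625, -1), (5084, -1), (12710, 1), (31775, 1)],
    [(1, -1), (2, 1), (5, -1)]]

theorem ckA3_0 : check datA3 3 ⟨0, by decide⟩ [0, 1, 2] ctA3_0 = true := by decide +kernel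

/-- certificate -/
def ctA3_1 : Cert where
  kind := 1
  useZ := false
  P := (1, [])
  s₁ := (-1, [])
  s₂ := (1, [])
  u := (1, [31, 41])
  w := (1, [37])
  az := (1, [])
  bz := (1, [])
  cl := [⟨(1, []), (1, []), (1, [53]), (1, []), (1, []), [(1, 1)], []⟩,
    ⟨(1, [11]), (1, [59]), (1, [31, 41]), (1, []), (1, []), [(1, -1)], []⟩,
    ⟨(1, []), (1, []), (1, [61]), (1, []), (1, []), [(1, 1)], []⟩]
  ts := [[],
    [],
    [],
    [],
    [],
    [],
    [(1, 1)],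
    [(1, 1)],
    [(1, -1)],
    [(1, 2)],
    [(1, 2)],
    [(1, -5)],
    [(1, 4)],
    [(1, 4)],
    [(1, -5), (5, -1)],
    [(1, 2), (2, 1), (5, 2)],
    [(1, 2), (2, 1), (5, 2)],
    [(1, -1), (2, -4), (5, -4), (7, -1)],
    [(1, 2), (11, 1), (21, -1), (41, -1), (110, 1)],
    [(1, 2), (11, 1), (21, -1), (31, -1), (110, 1)],
    [(33, 3), (55, -2), (63, -1), (93, -1), (123, -1), (242, 1), (605, 3), (682, -1), (902, -1),
     (1705, -2), (2255, -2), (2542, 1), (6355, 1), (15125, 1)],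
    [(3, -1), (22, -1), (55, -2), (62, 1), (155, 1)],
    [(3, -1), (22, -1), (55, -2), (82, 1), (205, 1)],
    [(2, 1), (5, 1)],
    [(3, -1), (13, -1), (22, -1), (55, -2), (62, 1), (82, 1), (155, 1), (205, 1)]]

theorem ckA3_1 : check datA3 3 ⟨1, by decide⟩ [0, 1, 2] ctA3_1 = true := by decide +kernel

/-- certificate -/
def ctA3_2 : Cert where
  kind := 1
  useZ := false
  P := (1, [])
  s₁ := (1, [])
  s₂ := (1, [])
  u := (1, [37])
  w := (-1, [31, 41])
  az := (1, [])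
  bz := (1, [])
  cl := [⟨(1, []), (1, []), (1, [53]), (1, []), (1, []), [(1, 1)], []⟩,
    ⟨(1, [11]), (1, [59]), (-1, [31, 41]), (1, []), (1, []), [(1, -1)], []⟩,
    ⟨(1, []), (-1, []), (1, [61]), (1, []), (1, []), [(1, 1)], []⟩]
  ts := [[],
    [],
    [],
    [],
    [],
    [],
    [(1, 1)],
    [(1, 1)],
    [(1, -1)],
    [(1, 2)],
    [(1, 2)],
    [(1, -4), (5, -4), (7, 1)],
    [(1, 2), (2, -1), (5, 6), (7, -1)],
    [(1, 2), (2, 1), (5, 6), (7, -1)],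
    [(1, -1), (5, -9), (7, 1)],
    [(1, 2)],
    [(1, 2)],
    [(3, -1), (5, -1), (7, 1), (22, 1)],
    [(2, 1), (3, 2), (5, 2), (7, -1), (22, -1), (55, 1)],
    [(2, -1), (3, 2), (5, 2), (7, -1), (22, -1), (55, -1)],
    [(3, -4), (5, -4), (7, 1), (22, 1), (31, 1)],
    [(1, 2), (31, 1), (62, -1), (155, 1)],
    [(1, 2), (39, 1), (41, -1), (62, -1), (155, -1), (925, -1), (2542, 1)],
    [(2, -1), (13, -1), (39, 1), (62, -1), (82, 1), (124, 1), (155, -1), (195, 1), (205, -1), (775,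
     -1), (925, -1), (2542, 1), (4625, -1), (5084, -1), (12710, 1), (31775, 1)],
    [(1, -1), (2, 1), (5, -1)]]

theorem ckA3_2 : check datA3 3 ⟨2, by decide⟩ [0, 1, 2] ctA3_2 = true := by decide +kernel

end Pool.Agent.Lib.MP_755cca_al.F.CQ
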