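import Pool.Agent.Lib.MP_755cca_al.F.CoreChk
import Pool.Agent.Lib.MP_755cca_al.F.Tab

/-! Certificates for the cores. -/

namespace Pool.Agent.Lib.MP_755cca_al.F.CQ

/-- certificate -/
def ctA5_1 : Cert where
  kind := 0
  useZ := false
  P := (-1, [31, 37, 41, 43, 47])
  s₁ := (-1, [])
  s₂ := (1, [])
  u := (1, [])
  w := (1, [])
  az := (1, [])
  bz := (1, [])
  cl := [⟨(1, []), (1, [37]), (1, [53]), (1, []), (1, []), [(1, 1)], []⟩,
    ⟨(1, []), (1, []), (1, [59]), (1, []), (1, []), [(1, 1)], []⟩,
    ⟨(1, []), (-1, [37, 43]), (1, [61]), (1, []), (1, []), [(1, 1)], []⟩,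
    ⟨(1, []), (1, []), (1, [67]), (1, []), (1, []), [(1, 1)], []⟩,
    ⟨(1, []), (-1, [43]), (1, [71]), (1, []), (1, []), [(1, 1)], []⟩]
  ts := [[],
    [],
    [],
    [],
    [],
    [],
    [],
    [],
    [],
    [],
    [],
    [],
    [],
    [],
    [],
    [(11, 1)],
    [(2, -1), (3, -1), (3478, 1), (6665, 1), (3921445, -1), (11590435, -1)],
    [(1, -1)],
    [(1, -1)],
    [(1, -1)],
    [(13, 1), (205, -1)],
    [(2, 1), (298685, 1)],
    [(1, -2)],
    [(26, -1), (148, 1), (410, 1), (19065, -1), (166870, -1), (493210, -1), (3882905, -1),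
     (22102690, 1), (61230425, 1), (556094275, 1), (24920782975, -1), (73657214425, -1)],
    [(2, 2), (86, -1), (5781, 1), (149554, 1), (298685, 2), (12843455, -1), (168622135, -1),
     (22334768245, 1)],
    [(2, 1), (93, -1), (814, -1), (298685, 1), (2712655, 1), (121564795, -1)],
    [(26, -2), (148, 2), (369, -1), (410, 2), (1118, 1), (1591, 1), (6364, -1), (17630, -1), (19065,
     -2), (71299, -1), (75153, -1), (166870, -2), (493210, -2), (819795, 1), (1185105, 1),
     (1944202, -1), (3882905, -2), (7175410, 1), (10763115, 1), (11066996, 1), (15329285, 1),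
     (21208030, 1), (22102690, 2), (30658570, 2), (61230425, 2), (166964915, 1), (482337735,
     -1), (556094275, 2), (950415670, -1), (1425623505, -2), (2632908275, -1), (12478037990,
     -2), (23912053825, -1), (24920782975, -2), (34567537675, -1), (36880764170, -1),
     (73657214425, -2), (290351987185, -1), (1071593667925, 1), (1652772850130, 1),
     (3167260220275, 1), (4578627490225, 1), (14068987833725, 1), (41583061601675, 2),
     (1863501388521575, -2), (5507865523058225, -1)],
    [(2, 1), (47, -1), (86, -1), (5781, 1), (149554, 1), (298685, 1), (12843455, -1), (168622135,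
     -1), (22334768245, 1)],
    [(2, 2), (63, 1), (86, -1), (93, -2), (814, -2), (3999, 1), (5781, 1), (35002, 1), (52503, 1),
     (149554, 1), (298685, 2), (2352867, -1), (2712655, 2), (6954261, -1), (12843455, -1),
     (60868478, -1), (116644165, -1), (121564795, -2), (168622135, -1), (5227286185, -1),
     (22334768245, 1), (68629208945, 1), (202844202935, 1), (9090250675715, -1),
     (136622604299459271125, -1)],
    [(3, 1), (26, -1), (148, 1), (369, -1), (410, 1), (611, 1), (1118, 1), (1591, 1), (3478, -1),
     (6364, -1), (9635, -1), (17630, -1), (19065, -1), (71299, -1), (75153, -1), (166870, -1),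
     (493210, -1), (819795, 1), (1185105, 1), (1944202, -1), (3882905, -1), (3921445, 1),
     (7175410, 1), (10763115, 1), (11066996, 1), (11590435, 1), (15329285, 1), (21208030, 1),
     (22102690, 1), (30658570, 2), (61230425, 1), (166964915, 1), (482337735, -1), (556094275,
     1), (950415670, -1), (1425623505, -2), (2632908275, -1), (12478037990, -2), (23912053825,
     -1), (24920782975, -1), (34567537675, -1), (36880764170, -1), (73657214425, -1),
     (290351987185, -1), (1071593667925, 1), (1652772850130, 1), (3167260220275, 1),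
     (4578627490225, 1), (14068987833725, 1), (41583061601675, 2), (1863501388521575, -2),
     (5507865523058225, -1)],
    [(5, 1)]]

theorem ckA5_1 : check datA5 2 ⟨1, by decide⟩ [0, 1, 2, 3, 4] ctA5_1 = true := by decide +kernel

end Pool.Agent.Lib.MP_755cca_al.F.CQ
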