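import Pool.Agent.Lib.MP_755cca_al.F.CoreChk
import Pool.Agent.Lib.MP_755cca_al.F.Tab

/-! Certificates for the cores. -/

namespace Pool.Agent.Lib.MP_755cca_al.F.CQ

/-- certificate -/
def ctA5_3 : Cert where
  kind := 0
  useZ := false
  P := (1, [31, 37, 41, 43, 47])
  s₁ := (-1, [])
  s₂ := (1, [])
  u := (1, [])
  w := (1, [])
  az := (1, [])
  bz := (1, [])
  cl := [⟨(1, []), (1, [37]), (1, [53]), (1, []), (1, []), [(1, 1)], []⟩,
    ⟨(1, []), (1, []), (1, [59]), (1, []), (1, []), [(1, 1)], []⟩,
    ⟨(1, []), (1, [37, 43]), (1, [61]), (1, []), (1, []), [(1, 1)], []⟩,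
    ⟨(1, []), (-1, []), (1, [67]), (1, []), (1, []), [(1, 1)], []⟩,
    ⟨(1, []), (1, [43]), (1, [71]), (1, []), (1, []), [(1, 1)], []⟩]
  ts := [[],
    [],
    [],
    [],
    [],
    [],
    [],
    [],
    [],
    [],
    [],
    [],
    [],
    [],
    [],
    [(1, 1)],
    [(2, -1), (3, -1), (2666, 1), (8695, -1), (3005915, -1), (11590435, 1)],
    [(11, -1)],
    [(1, -1)],
    [(1, -1)],
    [(1, 2)],
    [(2, 1), (298685, 1)],
    [(13, -1), (205, 1)],
    [(2, -2), (74, 1), (3813, 1), (98642, -1), (298685, -2), (11051345, 1), (111218855, 1),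
     (14731442885, -1)],
    [(26, 1), (172, 1), (410, -1), (28905, -1), (193930, -1), (747770, 1), (3882905, 1), (25686910,
     1), (61230425, -1), (843110675, -1), (28961991025, -1), (111673841225, 1)],
    [(2, 1), (31, 1), (74, -1), (3813, -1), (98642, 1), (298685, 1), (11051345, -1), (111218855,
     -1), (14731442885, 1)],
    [(26, -2), (172, -2), (369, -1), (410, 2), (962, 1), (1591, -1), (6364, 1), (15170, -1), (28905,
     2), (49569, 1), (54653, -1), (193930, 2), (747770, -2), (781665, -1), (1069485, -1),
     (1282346, -1), (3882905, -2), (7175410, -1), (8483212, -1), (10110805, 1), (10763115, -1),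
     (20221610, 2), (25686910, -2), (27667490, 1), (61230425, 2), (143667485, 1), (369727545,
     -1), (843110675, 2), (950415670, 1), (1425623505, 2), (2265525725, -1), (9564821530, 2),
     (22799865275, -1), (28961991025, 2), (31195094975, -1), (36880764170, -1), (111673841225,
     -2), (191508757505, -1), (1071593667925, -1), (1266904088110, -1), (3019945791425, 1),
     (4131932125325, 1), (10784336275075, -1), (41583061601675, 2), (1428434359344025, 2),
     (5507865523058225, -1)],
    [(2, 1), (141, 1), (946, 1), (298685, 1), (4112735, 1), (141278005, 1)],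
    [(3, -1), (26, 1), (172, 1), (369, 1), (403, 1), (410, -1), (962, -1), (1591, 1), (2666, 1),
     (6355, -1), (6364, -1), (15170, 1), (28905, -1), (49569, -1), (54653, 1), (193930, -1),
     (747770, 1), (781665, 1), (1069485, 1), (1282346, 1), (3005915, -1), (3882905, 1),
     (7175410, 1), (8483212, 1), (10110805, -1), (10763115, 1), (11590435, 1), (20221610, -2),
     (25686910, 1), (27667490, -1), (61230425, -1), (143667485, -1), (369727545, 1), (843110675,
     -1), (950415670, -1), (1425623505, -2), (2265525725, 1), (9564821530, -2), (22799865275,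
     1), (28961991025, -1), (31195094975, 1), (36880764170, 1), (111673841225, 1),
     (191508757505, 1), (1071593667925, 1), (1266904088110, 1), (3019945791425, -1),
     (4131932125325, -1), (10784336275075, 1), (41583061601675, -2), (1428434359344025, -2),
     (5507865523058225, 1)],
    [(2, -2), (63, -1), (74, 1), (141, -2), (946, -2), (3813, 1), (5217, 1), (35002, 1), (52503, 1),
     (98642, -1), (298685, -2), (1803549, 1), (4112735, -2), (6954261, -1), (11051345, 1),
     (46657666, -1), (111218855, 1), (141278005, -2), (152171195, 1), (5227286185, -1),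
     (14731442885, -1), (52606518415, 1), (202844202935, -1), (6967972484605, -1),
     (136622604299459271125, 1)],
    [(5, -1)]]

theorem ckA5_3 : check datA5 2 ⟨3, by decide⟩ [0, 1, 2, 3, 4] ctA5_3 = true := by decide +kernel

end Pool.Agent.Lib.MP_755cca_al.F.CQ
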