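import Pool.Agent.Lib.MP_755cca_al.F.CoreChk
import Pool.Agent.Lib.MP_755cca_al.F.Tab

/-! Certificates for the cores. -/

namespace Pool.Agent.Lib.MP_755cca_al.F.CQ

/-- certificate -/
def ctA5_4 : Cert where
  kind := 1
  useZ := false
  P := (1, [])
  s₁ := (-1, [31, 41, 43])
  s₂ := (1, [37, 41])
  u := (1, [])
  w := (1, [47])
  az := (1, [])
  bz := (1, [])
  cl := [⟨(1, []), (1, []), (1, []), (1, []), (1, []), [], []⟩,
    ⟨(1, []), (1, []), (1, []), (1, []), (1, []), [], []⟩,
    ⟨(1, []), (1, []), (1, []), (1, []), (1, []), [], []⟩,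
    ⟨(1, []), (1, []), (1, []), (1, []), (1, []), [], []⟩,
    ⟨(1, [11]), (1, [71]), (1, [43]), (1, []), (1, []), [(1, -1)], []⟩]
  ts := [[],
    [],
    [],
    [],
    [],
    [],
    [],
    [],
    [],
    [],
    [],
    [],
    [],
    [],
    [],
    [(2, 1), (5, 1)],
    [(4, -2), (10, -1), (14, -1), (43, -1), (172, 1), (430, 1), (451, -1), (1804, 3), (4510, 3),
     (6314, 1), (11275, 1), (19065, 1), (50468, 1), (77572, -1), (126170, 3), (188108, -1),
     (193930, -2), (315425, 3), (470270, -2), (484825, -1), (819795, -1), (1175675, -1),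
     (5425310, -1), (13563275, -2), (20221610, 1), (50554025, 1)],
    [(2, -1), (5, -1)],
    [(4, 2), (10, 1), (14, 1), (172, -1), (430, -1), (188108, 1), (470270, 2), (1175675, 1),
     (20221610, -1), (50554025, -1)],
    [(4, 2), (10, 1), (14, 1), (43, 1), (451, 1), (1804, -3), (4510, -3), (6314, -1), (11275, -1),
     (19065, -1), (50468, -1), (126170, -3), (188108, 1), (315425, -3), (470270, 2), (1175675,
     1)],
    [(2, -1), (7, -1), (86, 1), (94054, -1), (235135, -1), (10110805, 1)],
    [(4, -2), (10, -1), (14, -1), (188108, -1), (470270, -2), (1175675, -1)],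
    [(2, 1), (7, 1), (902, -2), (2255, -1), (3157, -1), (3813, -1), (25234, -1), (63085, -2),
     (94054, 1), (235135, 1)],
    [(2, 1), (7, 1), (94054, 1), (235135, 1)],
    [(2, -1), (7, -1), (94054, -1), (235135, -1)],
    [(1, 1), (31, 1)],
    [(41, 1), (19393, 1), (47027, 1), (1147713, -1), (5425310, 1)],
    [(1, 1), (11, 1)],
    [(82, -1), (123, 1), (205, -1), (814, 1), (2035, 2), (2542, -1), (5289, -1), (6355, -1), (27962,
     2), (38786, -1), (69905, 1), (87505, -1), (96965, -1), (97867, 1), (109306, 2), (163959,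
     -1), (273265, 1), (382571, 1), (1202366, -1), (2712655, -1), (3005915, -1)],
    [(2, -1), (82, 1), (205, 1), (902, 1), (946, -1), (2255, 1), (38786, 1), (96965, 1), (163959,
     1), (426646, 1), (1066615, 1), (1803549, 1), (2712655, 1), (29839205, 1), (111218855, -1)],
    [(13, 1), (82, -1), (86, 1), (205, -1), (38786, -1), (96965, -1), (163959, -1), (2712655, -1),
     (10110805, 1)]]

theorem ckA5_4 : check datA5 2 ⟨4, by decide⟩ [4] ctA5_4 = true := by decide +kernel

end Pool.Agent.Lib.MP_755cca_al.F.CQ
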