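import Pool.Agent.Lib.MP_755cca_al.F.CoreChk
import Pool.Agent.Lib.MP_755cca_al.F.Tab

/-! Certificates for the cores. -/

namespace Pool.Agent.Lib.MP_755cca_al.F.CQ

/-- certificate -/
def ctD4_0 : Cert where
  kind := 0
  useZ := false
  P := (-1, [31, 37, 41, 43])
  s₁ := (-1, [])
  s₂ := (-1, [])
  u := (1, [])
  w := (1, [])
  az := (1, [])
  bz := (1, [])
  cl := [⟨(1, []), (1, [37]), (1, [53]), (1, []), (1, []), [(1, 1)], []⟩,
    ⟨(1, []), (1, []), (1, [59]), (1, []), (1, []), [(1, 1)], []⟩,
    ⟨(1, []), (-1, [37]), (1, [61]), (1, []), (1, []), [(1, 1)], []⟩,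
    ⟨(1, []), (-1, [37]), (1, [67]), (1, []), (1, []), [(1, 1)], []⟩]
  ts := [[],
    [],
    [],
    [],
    [],
    [],
    [],
    [],
    [],
    [],
    [],
    [],
    [(11, 1)],
    [(2, -1), (3, -1), (129, 1), (2035, 1), (2666, 1), (87505, -1), (273265, -1), (2712655, -1),
     (116644165, 1)],
    [(5, -1)],
    [(3, 1), (2035, -1), (2712655, 1)],
    [(39, 1), (185, 1), (246605, -1), (50554025, 1)],
    [(1, 1)],
    [(21, -1), (41, -1), (407, -1), (542531, 1), (222437710, -1)],
    [(37, -1), (273, 1), (533, 1), (3182, -1), (5289, -1), (49321, 1), (109306, -1), (326155, 1),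
     (10110805, -1), (11203865, 1), (20221610, -1), (40443220, 1), (4782410765, -1)],
    [(3, 1), (7, -1), (62, 1), (82, 1), (6355, -1), (35002, -1), (58179, -1), (1202366, -1),
     (2712655, 1), (3587705, 1), (123242515, 1), (52606518415, -1)],
    [(37, 1), (74, -1), (123, -1), (273, -1), (533, -1), (3182, 1), (5289, 1), (7585, 1), (49321,
     -1), (109306, 1), (326155, -1), (10110805, 1), (11203865, -1), (20221610, 1), (40443220,
     -1), (111218855, -1), (4782410765, 1)],
    [(13, 1), (129, -1), (7955, 1), (273265, 1)],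
    [(9, 1), (39, 1), (41, -1), (91, -1), (148, 1), (387, -1), (555, -1), (806, 1), (903, 1), (1066,
     1), (1333, 1), (1591, 1), (1763, 2), (3182, 1), (5289, 1), (6364, -2), (11470, -1), (15170,
     -1), (17501, 1), (19065, -1), (23865, 1), (54653, 1), (82615, -1), (109306, 1), (174537,
     -1), (218612, -2), (246605, -1), (326155, -1), (493210, 2), (652310, 2), (752543, -1),
     (819795, 2), (1175675, 1), (6475370, 1), (7505091, 1), (8137965, 1), (10763115, 2),
     (11203865, -1), (16942430, 1), (22407730, 2), (25850869, -1), (50554025, -1), (222437710,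
     2), (278440910, -1), (349932495, -1), (369727545, 1), (462813945, -2), (501841175, -1),
     (663725425, -1), (1736599075, -1), (4782410765, 1), (9564821530, -3), (15898284435, -2),
     (17238922525, -1), (21579170525, 1), (22799865275, -2), (28540193275, 1), (157819555245,
     -1), (328564544990, -1), (741273668575, 2), (980394206825, 4), (6786240875535, 1),
     (9732205906775, 2), (33677865861475, 1), (334314424527325, 1), (418484853991325, -2),
     (14375520254674975, -2)],
    [(3, -1), (13, -1), (129, 1), (185, 1), (7955, -1), (273265, -1)]]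

theorem ckD4_0 : check datD4 2 ⟨0, by decide⟩ [0, 1, 2, 3] ctD4_0 = true := by decide +kernel

/-- certificate -/
def ctD4_1 : Cert where
  kind := 0
  useZ := false
  P := (1, [31, 37, 41, 43])
  s₁ := (-1, [])
  s₂ := (1, [])
  u := (1, [])
  w := (1, [])
  az := (1, [])
  bz := (1, [])
  cl := [⟨(1, []), (-1, [37]), (1, [53]), (1, []), (1, []), [(1, 1)], []⟩,
    ⟨(1, []), (1, []), (1, [59]), (1, []), (1, []), [(1, 1)], []⟩,
    ⟨(1, []), (-1, [37]), (1, [61]), (1, []), (1, []), [(1, 1)], []⟩,
    ⟨(1, []), (1, [37]), (1, [67]), (1, []), (1, []), [(1, 1)], []⟩]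
  ts := [[],
    [],
    [],
    [],
    [],
    [],
    [],
    [],
    [],
    [],
    [],
    [],
    [(11, 1)],
    [(1, -1)],
    [(1, -1)],
    [(1, 1)],
    [(13, -1), (8815, -1)],
    [(1, 1), (2, 1), (6665, 1)],
    [(1, 1), (2, -1), (6355, -1)],
    [(13, 1), (52, -1), (148, 1), (8815, 1), (35260, -1), (82615, -1), (86645, 1), (165230, -1),
     (173290, -1), (470270, 1), (493210, 1), (819795, 1), (7175410, 1), (56019325, -1),
     (58751975, 1), (112038650, -1), (117503950, -1), (550628975, -1), (1567174775, 1),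
     (22799865275, 1), (23912053825, 1), (373368801125, -1)],
    [(1, 1), (4, -1), (93, 1), (814, 1), (6355, -1), (6665, 1), (12710, -1), (13330, -1), (2586485,
     1), (2712655, 1), (42356075, -1)],
    [(13, -1), (26, 1), (74, -1), (123, -1), (8815, -1), (17630, 1), (82615, 1), (235135, -1),
     (3587705, -1), (56019325, 1)],
    [(13, -1), (26, -1), (74, 1), (129, 1), (8815, -1), (17630, -1), (86645, -1), (246605, 1),
     (3587705, 1), (58751975, -1)],
    [(13, -1), (41, 1), (43, 1), (52, 1), (63, -1), (74, -1), (123, -1), (129, 1), (148, -2), (1209,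
     -1), (3441, 1), (8815, -1), (30118, 1), (35260, 1), (50061, 1), (52503, 1), (82615, 1),
     (86645, -1), (165230, 1), (173290, 1), (235135, -2), (470270, -2), (493210, -2), (819795,
     -2), (7175410, -2), (56019325, 1), (58751975, -1), (95699945, 1), (100368235, 1),
     (111218855, -2), (112038650, 1), (117503950, 1), (550628975, 1), (1460195935, 1),
     (1567174775, -1), (22799865275, -2), (23912053825, -2), (373368801125, 1),
     (61848168537555125, 1)],
    [(5, -1)]]

theorem ckD4_1 : check datD4 2 ⟨1, by decide⟩ [0, 1, 2, 3] ctD4_1 = true := by decide +kernel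

end Pool.Agent.Lib.MP_755cca_al.F.CQ
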