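import Pool.Agent.Lib.MP_755cca_al.F.CoreChk
import Pool.Agent.Lib.MP_755cca_al.F.Tab

/-! Certificates for the cores. -/

namespace Pool.Agent.Lib.MP_755cca_al.F.CQ

/-- certificate -/
def ctD4_2 : Cert where
  kind := 0
  useZ := false
  P := (1, [31, 37, 41, 43])
  s₁ := (-1, [])
  s₂ := (-1, [])
  u := (1, [])
  w := (1, [])
  az := (1, [])
  bz := (1, [])
  cl := [⟨(1, []), (-1, [37]), (1, [53]), (1, []), (1, []), [(1, 1)], []⟩,
    ⟨(1, []), (1, []), (1, [59]), (1, []), (1, []), [(1, 1)], []⟩,
    ⟨(1, []), (-1, [37]), (1, [61]), (1, []), (1, []), [(1, 1)], []⟩,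
    ⟨(1, []), (-1, [37]), (1, [67]), (1, []), (1, []), [(1, 1)], []⟩]
  ts := [[],
    [],
    [],
    [],
    [],
    [],
    [],
    [],
    [],
    [],
    [],
    [],
    [(2, 1), (3, 1), (129, -1), (2035, -1), (3526, 1), (87505, 1), (273265, -1), (3587705, -1),
     (154271315, 1)],
    [(11, -1)],
    [(5, -1)],
    [(3, 1), (2035, -1), (3587705, -1)],
    [(1, -1)],
    [(39, -1), (185, -1), (326155, -1), (50554025, 1)],
    [(21, -1), (31, -1), (407, -1), (717541, -1), (222437710, 1)],
    [(37, -1), (273, 1), (403, 1), (3182, -1), (3999, -1), (65231, -1), (109306, 1), (246605, 1),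
     (8471215, -1), (10110805, 1), (20221610, 1), (40443220, -1), (4782410765, 1)],
    [(37, -1), (74, 1), (93, 1), (273, 1), (403, 1), (3182, -1), (3999, -1), (5735, -1), (65231,
     -1), (109306, 1), (246605, 1), (8471215, -1), (10110805, 1), (20221610, 1), (40443220, -1),
     (111218855, -1), (4782410765, 1)],
    [(3, -1), (7, 1), (62, -1), (82, 1), (6355, -1), (35002, 1), (43989, 1), (1202366, -1),
     (2712655, -1), (3587705, 1), (93183365, 1), (52606518415, -1)],
    [(13, 1), (129, -1), (7955, 1), (273265, -1)],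
    [(9, 1), (31, -1), (39, 1), (91, -1), (148, 1), (387, -1), (555, -1), (806, 1), (903, 1), (1066,
     -1), (1333, 2), (1591, 1), (1763, -1), (3182, 1), (3999, 1), (6364, -2), (11470, -1),
     (15170, 1), (17501, 1), (19065, 1), (23865, 1), (54653, -1), (82615, 1), (109306, -1),
     (131967, -1), (218612, 2), (246605, -1), (326155, 1), (493210, 2), (652310, -2), (752543,
     -1), (819795, -2), (1175675, -1), (5674581, 1), (6475370, 1), (8137965, 2), (8471215, 1),
     (10763115, -1), (16942430, -2), (22407730, 1), (25850869, 1), (50554025, 1), (222437710,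
     -2), (278440910, -1), (279550095, -1), (349932495, -2), (462813945, 1), (501841175, -1),
     (663725425, 1), (1736599075, -1), (4782410765, -1), (9564821530, 3), (12020654085, 2),
     (17238922525, 2), (21579170525, 1), (22799865275, -1), (28540193275, -1), (157819555245,
     1), (328564544990, -1), (741273668575, -4), (980394206825, 2), (6786240875535, -1),
     (9732205906775, -2), (25463752236725, 1), (334314424527325, 1), (418484853991325, 2),
     (14375520254674975, -2)],
    [(3, 1), (13, 1), (129, -1), (185, -1), (7955, 1), (273265, -1)]]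

theorem ckD4_2 : check datD4 2 ⟨2, by decide⟩ [0, 1, 2, 3] ctD4_2 = true := by decide +kernel

/-- certificate -/
def ctD4_3 : Cert where
  kind := 0
  useZ := false
  P := (1, [31, 37, 41, 43])
  s₁ := (-1, [])
  s₂ := (-1, [])
  u := (1, [])
  w := (1, [])
  az := (1, [])
  bz := (1, [])
  cl := [⟨(1, []), (-1, [37]), (1, [53]), (1, []), (1, []), [(1, 1)], []⟩,
    ⟨(1, []), (1, []), (1, [59]), (1, []), (1, []), [(1, 1)], []⟩,
    ⟨(1, []), (-1, [37]), (1, [61]), (1, []), (1, []), [(1, 1)], []⟩,
    ⟨(1, []), (-1, [37]), (1, [67]), (1, []), (1, []), [(1, 1)], []⟩]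
  ts := [[],
    [],
    [],
    [],
    [],
    [],
    [],
    [],
    [],
    [],
    [],
    [],
    [(2, 1), (3, 1), (123, -1), (2035, -1), (3526, 1), (83435, 1), (273265, -1), (3587705, -1),
     (147095905, 1)],
    [(5, -1)],
    [(11, -1)],
    [(3, 1), (2035, -1), (3587705, -1)],
    [(1, -1)],
    [(21, -1), (31, -1), (407, -1), (717541, -1), (222437710, 1)],
    [(39, -1), (185, -1), (326155, -1), (50554025, 1)],
    [(37, -1), (273, 1), (403, 1), (3034, -1), (3813, -1), (65231, -1), (109306, 1), (235135, 1),
     (8471215, -1), (10110805, 1), (20221610, 1), (40443220, -1), (4559973055, 1)],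
    [(37, -1), (74, 1), (93, 1), (273, 1), (403, 1), (3034, -1), (3813, -1), (5735, -1), (65231,
     -1), (109306, 1), (235135, 1), (8471215, -1), (10110805, 1), (20221610, 1), (40443220, -1),
     (111218855, -1), (4559973055, 1)],
    [(13, 1), (123, -1), (7585, 1), (273265, -1)],
    [(3, -1), (7, 1), (62, -1), (86, 1), (6665, -1), (33374, 1), (41943, 1), (1202366, -1),
     (2586485, -1), (3587705, 1), (93183365, 1), (50159703605, -1)],
    [(9, 1), (31, -1), (39, 1), (91, -1), (148, 1), (369, -1), (555, -1), (806, 1), (861, 1), (1118,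
     -1), (1271, 2), (1517, 1), (1763, -1), (3034, 1), (3813, 1), (6068, -2), (11470, -1),
     (15910, 1), (16687, 1), (19995, 1), (22755, 1), (54653, -1), (86645, 1), (109306, -1),
     (125829, -1), (218612, 2), (235135, -1), (326155, 1), (470270, 2), (652310, -2), (684167,
     -1), (819795, -2), (1233025, -1), (5158989, 1), (6174190, 1), (7759455, 2), (8471215, 1),
     (10763115, -1), (16942430, -2), (23500790, 1), (24648503, 1), (50554025, 1), (222437710,
     -2), (253141790, -1), (279550095, -1), (318137655, -2), (441287715, 1), (478499725, -1),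
     (663725425, 1), (1821311225, -1), (4559973055, -1), (9119946110, 3), (11461553895, 2),
     (17238922525, 2), (19618488725, 1), (23912053825, -1), (27212742425, -1), (150479110815,
     1), (328564544990, -1), (706795823525, -4), (980394206825, 2), (6169643543415, -1),
     (9279545166925, -2), (25463752236725, 1), (334314424527325, 1), (380461351843925, 2),
     (13706891405620325, -2)],
    [(3, 1), (13, 1), (123, -1), (185, -1), (7585, 1), (273265, -1)]]

theorem ckD4_3 : check datD4 2 ⟨3, by decide⟩ [0, 1, 2, 3] ctD4_3 = true := by decide +kernel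

end Pool.Agent.Lib.MP_755cca_al.F.CQ
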