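import Pool.Agent.Lib.MP_755cca_al.F.CoreChk
import Pool.Agent.Lib.MP_755cca_al.F.Tab

/-! Certificates for the cores. -/

namespace Pool.Agent.Lib.MP_755cca_al.F.CQ

/-- certificate -/
def ctA2_0 : Cert where
  kind := 1
  useZ := false
  P := (1, [])
  s₁ := (-1, [])
  s₂ := (1, [])
  u := (1, [37])
  w := (1, [31])
  az := (1, [])
  bz := (1, [])
  cl := [⟨(1, [11]), (1, [53]), (1, [37]), (1, []), (1, []), [(1, -1)], []⟩,
    ⟨(1, []), (1, []), (1, [59]), (1, []), (1, []), [(1, 1)], []⟩]
  ts := [[],
    [],
    [],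
    [(1, -1)],
    [(1, -1)],
    [(1, -2)],
    [(1, -1), (2, 3), (5, 1), (7, 2)],
    [(1, -1), (2, 8), (5, 3), (7, 5)],
    [(1, -3)],
    [(1, -2)],
    [(2, -1), (5, -1)],
    [(2, 1), (7, 1)],
    [(2, -2), (5, -1)],
    [(2, 1), (7, 2)],
    [(1, -1), (11, 1), (21, -1), (37, -1), (110, 1)],
    [(1, -1)],
    [(3, 1), (22, 3), (55, 3), (74, -2), (77, 1), (185, -1), (259, -1)],
    [(2, -2), (3, 1), (5, -1), (7, -1), (22, 3), (55, 3), (74, -2), (77, 1), (185, -1), (259, -1)],
    [(2, 1), (5, 1), (13, -1)]]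

theorem ckA2_0 : check datA2 4 ⟨0, by decide⟩ [0, 1] ctA2_0 = true := by decide +kernel

/-- certificate -/
def ctA2_1 : Cert where
  kind := 1
  useZ := false
  P := (1, [])
  s₁ := (-1, [])
  s₂ := (1, [])
  u := (1, [31])
  w := (-1, [37])
  az := (1, [])
  bz := (1, [])
  cl := [⟨(1, []), (1, []), (1, [53]), (1, []), (1, []), [(1, 1)], []⟩,
    ⟨(1, [11]), (1, [59]), (1, [31]), (1, []), (1, []), [(1, -1)], []⟩]
  ts := [[],
    [],
    [],
    [(1, -1)],
    [(1, -1)],
    [(1, -2)],
    [(1, -2)],
    [(1, -3), (2, -1), (3, 1), (5, -1), (55, 1)],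
    [(1, -2), (2, -2), (3, 1), (5, -2), (55, 1)],
    [(2, -1), (3, 1), (5, -1), (55, 1)],
    [(2, -2), (3, 1), (5, -2), (55, 1)],
    [(1, -2)],
    [(1, -2)],
    [(2, 2), (3, 1), (5, 1), (55, 2)],
    [(3, 1), (55, 2)],
    [(2, 2), (3, 1), (5, 1), (7, 1), (22, 1), (55, 2)],
    [(3, 1), (22, 1), (55, 2)],
    [(31, -1)],
    [(5, -1), (13, 1), (155, 1)]]

theorem ckA2_1 : check datA2 4 ⟨1, by decide⟩ [0, 1] ctA2_1 = true := by decide +kernel

/-- certificate -/
def ctC2_0 : Cert where
  kind := 0
  useZ := false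
  P := (-1, [31, 31, 37])
  s₁ := (-1, [])
  s₂ := (1, [])
  u := (1, [])
  w := (1, [])
  az := (1, [])
  bz := (1, [])
  cl := [⟨(1, [2]), (1, [53]), (1, []), (1, []), (1, []), [(1, -1)], []⟩,
    ⟨(1, [2]), (1, [59]), (-1, [31, 31]), (1, []), (1, []), [(1, -1)], []⟩]
  ts := [[],
    [],
    [],
    [],
    [(1, -1)],
    [(1, 1)],
    [(1, 2)],
    [(1, 4), (11, 1)],
    [(1, -3), (11, -1)],
    [(1, 3), (7, -1), (11, 1), (39, -1), (62, 2), (74, 1), (4805, -1), (5735, -2), (888925, -1)],
    [(1, 2), (7, -1), (39, -1), (62, 2), (74, 1), (4805, -1), (5735, -2), (888925, -1)],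
    [(1, 2), (5, 1), (7, -1), (39, -1), (62, 2), (74, 1), (4805, -1), (5735, -2), (888925, -1)],
    [(1, -1), (2, -1), (5, -1), (155, 1)],
    [(2, 2), (5, 1), (7, 1), (62, -2), (155, -2), (4805, 1)],
    [(1, 1), (21, -1), (31, -1), (37, -1), (12617, 1), (3911270, -1)],
    [(63, 1), (74, 1), (111, 2), (6845, -1), (25234, -2), (31713, -1), (37851, -2), (2334145, 2),
     (8604794, 1), (666871535, -2), (795943445, -1), (19122541266125, -1)],
    [(2, 1), (3, 1), (185, -1), (682, -1), (52855, 1), (63085, 1)]]

theorem ckC2_0 : check datC2 3 ⟨0, by decide⟩ [0, 1] ctC2_0 = true := by decide +kernel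

/-- certificate -/
def ctC2_1 : Cert where
  kind := 1
  useZ := false
  P := (1, [])
  s₁ := (-1, [])
  s₂ := (1, [])
  u := (1, [31, 31])
  w := (1, [37])
  az := (1, [])
  bz := (1, [])
  cl := [⟨(1, []), (1, []), (1, [53]), (1, []), (1, []), [(1, 1)], []⟩,
    ⟨(1, [11]), (1, [59]), (-1, [31, 31]), (1, []), (1, []), [(1, -1)], []⟩]
  ts := [[],
    [],
    [],
    [],
    [(1, -1)],
    [(1, 1)],
    [(1, 2)],
    [(1, 5)],
    [(1, -4)],
    [(1, 5), (5, 1)],
    [(1, 2), (2, 1), (5, 2)],
    [(1, 1), (2, 4), (5, 4), (7, 1)],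
    [(1, -2), (11, -1), (21, 1), (31, 1), (110, -1)],
    [(33, -3), (55, 2), (63, 1), (93, 2), (242, -1), (605, -3), (682, 2), (1705, 4), (1922, -1),
     (4805, -1), (15125, -1)],
    [(3, -1), (22, -1), (55, -2), (62, 1), (155, 1)],
    [(2, -1), (5, -1)],
    [(3, 1), (13, 1), (22, 1), (55, 2), (62, -2), (155, -2)]]

theorem ckC2_1 : check datC2 3 ⟨1, by decide⟩ [0, 1] ctC2_1 = true := by decide +kernel

/-- certificate -/
def ctG2_0 : Cert where
  kind := 1
  useZ := false
  P := (1, [])
  s₁ := (-1, [])
  s₂ := (1, [])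
  u := (1, [37])
  w := (1, [31])
  az := (1, [])
  bz := (1, [])
  cl := [⟨(1, [11]), (1, [53]), (1, [37]), (1, []), (1, []), [(1, -1)], []⟩,
    ⟨(1, []), (1, []), (1, []), (1, []), (1, []), [], []⟩]
  ts := [[],
    [],
    [],
    [],
    [],
    [],
    [(5, -1)],
    [(8, 1), (125, 1)],
    [(14, 1), (25, 1)],
    [(2, 3), (8, -2), (125, -1), (343, -1)],
    [(5, 1), (22, -2), (88, 1), (147, -1)],
    [(1, 1), (37, -1), (154, 3), (231, 6), (1210, 3), (1331, 1), (1815, 3), (4840, -3), (9261, -1),
     (332750, -3), (1331000, 1)],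
    [(13, -1), (55, -2), (63, -1), (242, 1), (15125, 1)]]

theorem ckG2_0 : check datG2 2 ⟨0, by decide⟩ [0] ctG2_0 = true := by decide +kernel

/-- certificate -/
def ctG2_1 : Cert where
  kind := 1
  useZ := false
  P := (1, [])
  s₁ := (-1, [])
  s₂ := (1, [])
  u := (1, [37])
  w := (1, [31, 31, 31])
  az := (1, [])
  bz := (1, [])
  cl := [⟨(1, []), (-1, []), (1, [53]), (1, []), (1, []), [(1, 1)], []⟩,
    ⟨(1, [11]), (1, [59]), (1, [31, 31, 31]), (1, []), (1, []), [(1, -1)], []⟩]
  ts := [[],
    [],
    [],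
    [],
    [],
    [],
    [(1, -1)],
    [(22, -2), (88, 1), (147, -1), (217, 3), (1922, 3), (148955, 1)],
    [(7, -1), (22, -2), (62, -2), (88, 1), (147, -1), (217, 3), (1922, 3), (4805, -1), (148955, 1)],
    [(14, 1), (49, -3), (121, -4), (124, 3), (154, -6), (341, -6), (434, -12), (484, 6), (539, 4),
     (616, 3), (961, 6), (1029, -3), (1519, 15), (1936, -4), (2156, -2), (3844, -18), (4774,
     12), (7744, 1), (9610, 3), (10571, 6), (13454, 30), (19096, -6), (20181, 3), (21609, -1),
     (29791, -12), (31899, 6), (47089, -15), (105710, -3), (119164, 30), (297910, -12), (417074,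
     -20), (625611, -2), (744775, 1), (923521, 6), (3277010, 2), (3694084, -15), (9235210, 15),
     (23088025, -3), (286291510, -6), (715728775, 3), (22187592025, -1)],
    [(2, 1), (7, -2), (22, -2), (62, -4), (88, 1), (147, -1), (155, 1), (217, 3), (1922, 3), (4805,
     -2), (148955, 1)],
    [(2, 3), (5, -1), (7, -3), (22, -2), (62, -6), (88, 1), (147, -1), (155, 3), (217, 3), (1922,
     3), (4805, -3), (148955, 1)],
    [(7, 1), (39, 1), (62, 3), (925, -1), (4805, 3)]]

theorem ckG2_1 : check datG2 2 ⟨1, by decide⟩ [0, 1] ctG2_1 = true := by decide +kernel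

/-- certificate -/
def ctC3_0 : Cert where
  kind := 1
  useZ := false
  P := (1, [])
  s₁ := (-1, [41])
  s₂ := (1, [])
  u := (1, [31, 41])
  w := (1, [37, 41])
  az := (1, [])
  bz := (1, [])
  cl := [⟨(1, []), (1, []), (1, [53]), (1, []), (1, []), [(1, 1)], []⟩,
    ⟨(1, [11]), (1, [59]), (1, [31, 41]), (1, []), (1, []), [(1, -1)], []⟩,
    ⟨(1, []), (1, []), (1, []), (1, []), (1, []), [], []⟩]
  ts := [[],
    [],
    [],
    [],
    [],
    [],
    [],
    [],
    [],
    [(5, -1), (7, -1), (123, -1), (902, -1)],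
    [(4, -1), (25, -1)],
    [(10, -1), (14, -1), (1804, -1), (11275, -1)],
    [(2, -1)],
    [(4, -1), (49, -1), (484, -1), (3025, -1), (4510, -2), (6314, -2)],
    [(7, -1), (902, -1)],
    [(1, -1), (451, -1), (533, -1), (861, 1), (4510, -1), (6355, -1)],
    [(1, -1), (41, -1)],
    [(3, 1), (5, 1), (22, 1), (65, 1), (91, 1), (123, 1), (124, 1), (205, 1), (287, 1), (775, 1),
     (2665, 1), (31775, 1)],
    [(5, 1), (205, 1), (287, 1)]]

theorem ckC3_0 : check datC3 2 ⟨0, by decide⟩ [0, 1] ctC3_0 = true := by decide +kernel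

/-- certificate -/
def ctC3_1 : Cert where
  kind := 0
  useZ := false
  P := (1, [31, 37, 41])
  s₁ := (-1, [])
  s₂ := (1, [])
  u := (1, [])
  w := (1, [])
  az := (1, [])
  bz := (1, [])
  cl := [⟨(1, []), (-1, [37]), (1, [53]), (1, []), (1, []), [(1, 1)], []⟩,
    ⟨(1, []), (1, []), (1, [59]), (1, []), (1, []), [(1, 1)], []⟩,
    ⟨(1, []), (1, []), (1, []), (1, []), (1, []), [], []⟩]
  ts := [[],
    [],
    [],
    [],
    [],
    [],
    [],
    [],
    [],
    [(11, 1)],
    [(1, -1)],
    [(1, 1)],
    [(13, -1), (205, -1)],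
    [(1, -1), (4, 1), (985025, 1)],
    [(13, 1), (52, -1), (148, 1), (205, 1), (820, -1), (19065, 1), (120125, -1), (166870, 1),
     (12805325, -1), (36445925, 1)],
    [(1, 1), (4, -1), (93, 1), (814, 1), (985025, -1)],
    [(25, -1), (100, 1), (169, -1), (369, 1), (676, 1), (1924, -2), (2325, -2), (2665, -2), (5476,
     1), (10660, 2), (15170, -2), (20350, -2), (30340, -4), (247845, -2), (705405, 2), (1561625,
     2), (4141225, 1), (4444625, -2), (6174190, 2), (24625625, 1), (166469225, 1), (473797025,
     -2), (1348499225, 1)],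
    [(13, -1), (52, 1), (63, -1), (74, -1), (148, -2), (205, -1), (820, 1), (1209, -1), (3441, 1),
     (19065, -2), (30118, 1), (120125, 1), (166870, -2), (2586485, -2), (12805325, 1),
     (33958045, 1), (36445925, -1), (19898586125, 1)],
    [(5, -1)]]

theorem ckC3_1 : check datC3 2 ⟨1, by decide⟩ [0, 1] ctC3_1 = true := by decide +kernel

/-- certificate -/
def ctC3_2 : Cert where
  kind := 3
  useZ := false
  P := (1, [31, 31, 37, 37, 41])
  s₁ := (1, [])
  s₂ := (1, [])
  u := (1, [])
  w := (1, [])
  az := (1, [])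
  bz := (1, [])
  cl := [⟨(1, [2]), (1, [53]), (-1, []), (1, []), (1, []), [(1, -1)], []⟩,
    ⟨(1, [2]), (1, [59]), (-1, [23, 31, 41]), (1, []), (1, []), [(1, -1)], []⟩,
    ⟨(1, [2]), (1, [61]), (1, []), (1, []), (1, []), [(1, -1)], []⟩]
  ts := [[],
    [],
    [],
    [],
    [],
    [],
    [],
    [],
    [],
    [(11, 1)],
    [(5, -1)],
    [(68, 1), (2805, 1), (7130, -1), (1265055, 1), (3215630, -2), (28160330, 1), (184199675, 1),
     (2952693425, -1), (83074053425, 1), (1331664734675, -2)],
    [(255, -1), (442, -1), (46345, 1), (115005, -1), (292330, 2), (2484805, 1), (2560030, -1),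
     (16745425, -1), (268426675, 1), (7552186675, -1), (121060430425, 2)],
    [(28, -1), (506, -2), (5445, -1), (19220, -1), (28985, 2), (96968, 2), (228206, -2), (342309,
     -1), (475354, 2), (1325192, -2), (2455695, -2), (7619854, -1), (8668220, -6), (13072235,
     6), (43732568, 4), (209545985, -2), (357564075, -2), (1107518445, -1), (3909367220, -6),
     (5895577985, 4), (7959434450, -2), (22478861515, -1), (40156630580, 4), (94505239235, -2),
     (161261397825, -4), (196854786865, 2), (262668736550, 2), (548791824020, -1),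
     (1656461011425, 2), (3589704936950, -12), (18110640391580, 8), (23480636865125, -1),
     (72728890419075, -2), (118463600184050, 6), (747063916152675, 6), (1618956926564450, -12),
     (3296180893020125, -1), (10589767226171375, -2), (16629764247366050, 2),
     (53427083683006550, 4), (108777033851927375, 4), (336925826184856425, 4),
     (1486577582752076375, -6), (4775985019003290125, -1), (7500023675562088550, 4),
     (49058442267219246125, 12), (670446489821186445125, -6), (22125357462515880002375, 8)],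
    [(46, 2), (182, 1), (391, 1), (495, 1), (1271, -1), (2635, -2), (10695, -1), (20746, 2), (31119,
     1), (43214, -2), (116932, -3), (120472, 2), (124930, 1), (176341, 1), (223245, 2), (630292,
     -2), (692714, 1), (788020, 6), (1024012, 1), (1188385, -6), (3975688, -4), (4823445, -2),
     (6698170, 4), (19049635, 2), (32505825, 2), (100683495, 1), (107370670, -2), (355397020,
     6), (535961635, -4), (702322825, -1), (723584950, 2), (2043532865, 1), (2175373695, -1),
     (3020874670, 3), (3650602780, -4), (6150472075, 1), (8591385385, 2), (14660127075, 4),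
     (17895889715, -2), (23878976050, -2), (48424172170, -3), (49890165820, 1), (150587364675,
     -2), (316747594075, -2), (326336812450, 12), (1646421853780, -8), (2134603351375, 1),
     (2773862905825, 4), (6611717310825, 2), (10769418198550, -6), (67914901468425, -6),
     (142853164927825, -1), (147177902414950, 12), (299652808456375, 1), (962706111470125, 2),
     (1251012170527075, 3), (1511796749760550, -2), (4857007607546050, -4), (9888821259266125,
     -4), (30629620562259675, -4), (135143416613825125, 6), (434180456273026375, 1),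
     (681820334142008050, -4), (4459858387929022375, -12), (60949680892835131375, 6),
     (2011396132955989091125, -8)],
    [(119, 1), (561, 1), (1426, -1), (253011, 1), (643126, -2), (5632066, 1), (36839935, 1),
     (590538685, -1), (16614810685, 1), (266332946935, -2)],
    [(45, -1), (299, -2), (1183, -1), (1886, -2), (2829, -1), (10952, -2), (16031, -2), (20295, -2),
     (62974, -1), (93092, -2), (108035, 6), (280891, 2), (438495, 4), (760058, 2), (812045, -1),
     (1731785, -2), (2363595, 2), (2955075, -2), (4096898, 2), (5122130, -6), (8077205, -1),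
     (9153045, -1), (9760970, 4), (25841972, 4), (32308820, -6), (43538105, -2), (48723785, 4),
     (65780450, -2), (185775715, -1), (197761245, 2), (274624970, -6), (331872980, 4),
     (559133825, -2), (781035035, -2), (1332738825, -4), (1626899065, 2), (4402197470, 6),
     (4535469620, -1), (13689760425, 2), (28795235825, 4), (29666982950, -12), (149674713980,
     8), (155213344325, 2), (194054850125, -1), (252169355075, -8), (601065210075, -2),
     (979038018050, 6), (6174081951675, 6), (12986651357075, 2), (13379809310450, -12),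
     (27241164405125, -1), (87518737406375, -2), (113728379138825, -6), (137436068160050, 2),
     (441546146140550, 4), (898983750842375, 2), (2784510960205425, 4), (12285765146711375, -6),
     (39470950570275125, -1), (61983666740182550, 4), (405441671629911125, 12),
     (5540880081166830125, -6), (182854193905089917375, 8)],
    [(37, 1), (51, -1), (9269, 1), (23001, -1), (58466, 2), (106743, -1), (496961, 1), (512006, -1),
     (3349085, -1), (16593649, 1), (53685335, 1), (1510437335, -1), (24212086085, 2),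
     (50433871015, 1), (136468121570, 1), (4639916133380, 1)],
    [(46, -1), (63, -1), (28083, 2), (38998, -2), (2718669, -1), (19049635, -1), (23808279, 2),
     (60518014, -1), (1844163805, 2), (16149949255, -2), (750574668635, 2), (1563450001465, 2),
     (25061871252715, -1), (5324785758001323750125, 1)]]

theorem ckC3_2 : check datC3 2 ⟨2, by decide⟩ [0, 1, 2] ctC3_2 = true := by decide +kernel

/-- certificate -/
def ctB3_0 : Cert where
  kind := 0
  useZ := false
  P := (-1, [31, 37, 41, 41])
  s₁ := (-1, [])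
  s₂ := (-1, [])
  u := (1, [])
  w := (1, [])
  az := (1, [])
  bz := (1, [])
  cl := [⟨(1, [2]), (1, [53]), (-1, [37]), (1, []), (1, []), [(1, -1)], []⟩,
    ⟨(1, [2]), (1, [59]), (1, []), (1, []), (1, []), [(1, -1)], []⟩,
    ⟨(1, [2]), (1, [61]), (1, [37]), (1, []), (1, []), [(1, -1)], []⟩]
  ts := [[],
    [],
    [],
    [],
    [],
    [],
    [],
    [],
    [],
    [(5, 1)],
    [(3, -1), (26, -1), (62, -1), (2405, 1), (5735, 1), (16810, -1), (1554925, 1), (2866105, -1)],
    [(52, -1), (124, -1), (555, 1), (4810, 2), (11470, 2), (33620, -1), (444925, -1), (1060975, -1),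
     (3109850, 2), (5732210, -1), (287661125, -1), (530229425, 2)],
    [(91, 1), (111, -1), (217, 1), (962, -2), (2294, -2), (6724, 1), (88985, 1), (212195, 1),
     (621970, -2), (1146442, 1), (57532225, 1), (106045885, -2)],
    [(2, -1), (185, 1)],
    [(7, 1), (74, -2), (6845, 1)],
    [(11, 1)],
    [(21, -1), (37, -1), (41, -1), (3362, 1), (310985, -1), (573221, 1), (212091770, -1)],
    [(2, 1), (37, 1), (164, -2), (693, -1), (1353, -2), (13448, 1), (15170, 2), (18491, -2), (27962,
     -2), (37851, -1), (92455, 1), (1243940, -2), (2292884, 2), (2586485, 2), (7581310, -2),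
     (10262505, -2), (18916293, 2), (115064450, 1), (212091770, -4), (390936722, 1), (621667420,
     1), (701271175, 2), (1166504735, 2), (1292613355, -2), (19618488725, 2), (36161646785, -2),
     (57504236350, -2), (105994295110, 2), (5319141862375, 1), (9804472297675, -4),
     (18072027316255, 1), (618515134898827375, 1)],
    [(13, -1), (63, 1), (123, 2), (1066, 2), (1443, 1), (1681, 2), (2542, 2), (3441, 1), (8405, -1),
     (87412, -1), (98605, -2), (104222, 1), (208444, -2), (235135, -2), (689210, 2), (932955,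
     2), (1719663, -2), (8085610, 2), (9640535, -2), (19281070, 4), (35539702, -1), (56515220,
     -1), (63751925, -2), (106045885, -2), (117510305, 2), (747918925, -1), (1783498975, -1),
     (3287422435, 2), (5227657850, 2), (9635845010, -2), (483558351125, -1), (891315663425, 4),
     (1642911574205, -1), (56228648627166125, -1)]]

theorem ckB3_0 : check datB3 2 ⟨0, by decide⟩ [0, 1, 2] ctB3_0 = true := by decide +kernel

/-- certificate -/
def ctB3_1 : Cert where
  kind := 0
  useZ := false
  P := (1, [31, 37, 41, 41])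
  s₁ := (-1, [])
  s₂ := (-1, [])
  u := (1, [])
  w := (1, [])
  az := (1, [])
  bz := (1, [])
  cl := [⟨(1, []), (1, [37]), (1, [53]), (1, []), (1, []), [(1, 1)], []⟩,
    ⟨(1, []), (1, []), (1, [59]), (1, []), (1, []), [(1, 1)], []⟩,
    ⟨(1, []), (1, [37]), (1, [61]), (1, []), (1, []), [(1, 1)], []⟩]
  ts := [[],
    [],
    [],
    [],
    [],
    [],
    [],
    [],
    [],
    [(11, 1)],
    [(1, 1)],
    [(1, 1)],
    [(13, 1), (8405, 1)],
    [(1, -1), (2, -1), (6355, -1)],
    [(13, -1), (26, -2), (52, -1), (148, 1), (8405, -1), (16810, -2), (33620, -1), (82615, -2),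
     (165230, -2), (470270, 2), (781665, 1), (6841670, 1), (53413775, -2), (106827550, -2),
     (525018325, -1), (1494282925, 1), (21739406425, 2), (339444540125, -1)],
    [(1, 1), (2, 2), (4, 1), (93, -1), (814, -1), (6355, 2), (12710, 2), (2586485, -2), (40386025,
     1)],
    [(13, -1), (26, -1), (74, 1), (123, 1), (8405, -1), (16810, -1), (82615, -1), (235135, 1),
     (3420835, 1), (53413775, -1)],
    [(13, 1), (26, 2), (41, 2), (52, 1), (63, -1), (74, -1), (123, -2), (148, -2), (1209, -1),
     (3441, 1), (8405, 1), (16810, 2), (30118, 1), (33620, 1), (50061, 2), (82615, 2), (165230,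
     2), (470270, -4), (781665, -2), (3420835, -2), (6841670, -2), (53413775, 2), (95699945, 2),
     (106045885, -2), (106827550, 2), (525018325, 1), (1392279845, 1), (1494282925, -1),
     (21739406425, -4), (339444540125, 1), (56228648627166125, 1)],
    [(5, -1)]]

theorem ckB3_1 : check datB3 2 ⟨1, by decide⟩ [0, 1, 2] ctB3_1 = true := by decide +kernel

/-- certificate -/
def ctB3_2 : Cert where
  kind := 2
  useZ := false
  P := (1, [])
  s₁ := (-1, [])
  s₂ := (1, [31, 37])
  u := (1, [])
  w := (-1, [41])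
  az := (1, [])
  bz := (1, [])
  cl := [⟨(1, []), (1, []), (1, []), (1, []), (1, []), [], []⟩,
    ⟨(1, []), (1, []), (1, []), (1, []), (1, []), [], []⟩,
    ⟨(1, [11]), (1, [61]), (1, [37]), (1, []), (1, []), [(1, -1)], []⟩]
  ts := [[],
    [],
    [],
    [],
    [],
    [],
    [],
    [],
    [],
    [(5, 1)],
    [(2, -1), (3, -1), (185, 1), (18755, 1)],
    [(4, -1), (25, -1), (370, 2), (555, 1), (37510, 1), (3469675, -2)],
    [(5, 1), (7, 1), (74, -2), (111, -1), (7502, -1), (693935, 2)],
    [(2, -1), (185, 1)],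
    [(5, 1), (7, 1), (74, -2)],
    [(1, -1), (31, -1)],
    [(11, 1), (21, -1), (37, -1), (3751, -1), (1387870, 1)],
    [(2, 1), (33, -2), (63, 1), (242, 1), (363, 2), (605, -1), (682, -2), (1023, -2), (1953, 1),
     (3441, 1), (6655, 2), (11253, 2), (18755, -1), (63085, 2), (73205, -1), (206305, 2),
     (693935, 2), (1830125, -1), (2269355, -1), (56733875, -1)],
    [(3, 1), (13, -1), (55, 1), (62, 1), (93, 1), (605, -1), (1705, 1), (5735, -1), (18755, -1)]]

theorem ckB3_2 : check datB3 2 ⟨2, by decide⟩ [2] ctB3_2 = true := by decide +kernel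

end Pool.Agent.Lib.MP_755cca_al.F.CQ
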