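import Pool.Agent.Lib.MP_755cca_al.F.Base
import Pool.Agent.Lib.MP_755cca_al.F.AxOf
import Pool.Agent.Lib.MP_755cca_al.F.ChkW4
import Pool.Agent.Lib.MP_755cca_al.F.CtS
import Pool.Agent.Lib.MP_755cca_al.F.CtA3
import Pool.Agent.Lib.MP_755cca_al.F.CtD4a
import Pool.Agent.Lib.MP_755cca_al.F.CtD4b
import Pool.Agent.Lib.MP_755cca_al.F.CtA5a
import Pool.Agent.Lib.MP_755cca_al.F.CtA5b
import Pool.Agent.Lib.MP_755cca_al.F.CtA5c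
import Pool.Agent.Lib.MP_755cca_al.F.CtA5d
import Pool.Agent.Lib.MP_755cca_al.F.CtA5e

/-! The base cases. -/

namespace Pool.Agent.Lib.MP_755cca_al.F

open CQ

theorem cores_of {D : Dat} {L : ℕ} {T : List (List ℕ)} (A : D.toSys.Ax)
    (hK : D.toSys.CopAx (D.KS T))
    (h : ∀ i : Fin (D.r + 1), ∃ c, check D L i (T.getD i.val []) c = true) : D.toSys.Cores L :=
  ⟨A, D.KS T, hK, fun i _ => (h i).elim fun _ hc =>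
    core_of_check A (wrdSt _ A (basSt _ A)) hc⟩

theorem coresA2 : CoresA2 := cores_of axA2 copAxA2 fun
  | ⟨0, _⟩ => ⟨_, ckA2_0⟩
  | ⟨1, _⟩ => ⟨_, ckA2_1⟩
  | ⟨k + 2, h⟩ => absurd h (by change ¬ k + 2 < 2; omega)

theorem coresA3 : CoresA3 := cores_of axA3 copAxA3 fun
  | ⟨0, _⟩ => ⟨_, ckA3_0⟩
  | ⟨1, _⟩ => ⟨_, ckA3_1⟩
  | ⟨2, _⟩ => ⟨_, ckA3_2⟩
  | ⟨k + 3, h⟩ => absurd h (by change ¬ k + 3 < 3; omega)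

theorem coresA5 : CoresA5 := cores_of axA5 copAxA5 fun
  | ⟨0, _⟩ => ⟨_, ckA5_0⟩
  | ⟨1, _⟩ => ⟨_, ckA5_1⟩
  | ⟨2, _⟩ => ⟨_, ckA5_2⟩
  | ⟨3, _⟩ => ⟨_, ckA5_3⟩
  | ⟨4, _⟩ => ⟨_, ckA5_4⟩
  | ⟨k + 5, h⟩ => absurd h (by change ¬ k + 5 < 5; omega)

theorem coresC2 : CoresC2 := cores_of axC2 copAxC2 fun
  | ⟨0, _⟩ => ⟨_, ckC2_0⟩
  | ⟨1, _⟩ => ⟨_, ckC2_1⟩
  | ⟨k + 2, h⟩ => absurd h (by change ¬ k + 2 < 2; omega)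

theorem coresC3 : CoresC3 := cores_of axC3 copAxC3 fun
  | ⟨0, _⟩ => ⟨_, ckC3_0⟩
  | ⟨1, _⟩ => ⟨_, ckC3_1⟩
  | ⟨2, _⟩ => ⟨_, ckC3_2⟩
  | ⟨k + 3, h⟩ => absurd h (by change ¬ k + 3 < 3; omega)

theorem coresB3 : CoresB3 := cores_of axB3 copAxB3 fun
  | ⟨0, _⟩ => ⟨_, ckB3_0⟩
  | ⟨1, _⟩ => ⟨_, ckB3_1⟩
  | ⟨2, _⟩ => ⟨_, ckB3_2⟩
  | ⟨k + 3, h⟩ => absurd h (by change ¬ k + 3 < 3; omega)

theorem coresD4 : CoresD4 := cores_of axD4 copAxD4 fun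
  | ⟨0, _⟩ => ⟨_, ckD4_0⟩
  | ⟨1, _⟩ => ⟨_, ckD4_1⟩
  | ⟨2, _⟩ => ⟨_, ckD4_2⟩
  | ⟨3, _⟩ => ⟨_, ckD4_3⟩
  | ⟨k + 4, h⟩ => absurd h (by change ¬ k + 4 < 4; omega)

theorem coresG2 : CoresG2 := cores_of axG2 copAxG2b fun
  | ⟨0, _⟩ => ⟨_, ckG2_0⟩
  | ⟨1, _⟩ => ⟨_, ckG2_1⟩
  | ⟨k + 2, h⟩ => absurd h (by change ¬ k + 2 < 2; omega)

theorem baseSt : BaseSt :=
  baseSt_of coresA2 coresA3 coresA5 coresC2 coresC3 coresB3 coresD4 coresG2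

end Pool.Agent.Lib.MP_755cca_al.F
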