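import Pool.Agent.Lib.MP_755cca_al.F.Stmt

/-! Length one never suffices. -/

open Matrix
open scoped Pointwise

namespace Pool.Agent.Lib.MP_755cca_al.F

namespace NotOne

theorem not_up_one {M : Type} [Monoid M] {pos neg : Set M} {p q : M} (hp : p ∈ pos) (hq : q ∈ neg)
    (h : ∀ a ∈ Submonoid.closure pos, ∀ b ∈ Submonoid.closure neg, q * p ≠ a * b) :
    ¬ Up pos neg 1 := by
  intro hu
  have hg : q * p ∈ Submonoid.closure (pos ∪ neg) :=
    mul_mem (Submonoid.subset_closure (Or.inr hq)) (Submonoid.subset_closure (Or.inl hp))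
  have := hu hg
  rw [Pw, pow_one] at this
  obtain ⟨a, ha, b, hb, e⟩ := this
  exact h a ha b hb e.symm

theorem not_up_end {X : Type} {pos neg : Set (Function.End X)} (φ : X → ℤ) (v : X)
    (h1 : ∀ g ∈ pos, ∀ x, φ (g x) = φ x) (h2 : ∀ g ∈ neg, g v = v)
    {p q : Function.End X} (hp : p ∈ pos) (hq : q ∈ neg) (h : φ (q (p v)) ≠ φ v) :
    ¬ Up pos neg 1 := by
  refine not_up_one hp hq fun a ha b hb e => h ?_
  have k1 : ∀ x, φ (a x) = φ x := by
    clear e
    induction ha using Submonoid.closure_induction with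
    | mem g hg => exact h1 g hg
    | one => intro x; rfl
    | mul a c _ _ ha hc => intro x; exact (ha (c x)).trans (hc x)
  have k2 : b v = v := by
    clear e
    induction hb using Submonoid.closure_induction with
    | mem g hg => exact h2 g hg
    | one => rfl
    | mul a c _ _ ha hc => exact (congrArg a hc).trans ha
  have e' : q (p v) = a (b v) := congrFun e v
  rw [e', k2, k1]

theorem ip_neg_left (a b : Q8) : ip (-a) b = -ip a b := by simp [ip]

theorem ip_neg_right (a b : Q8) : ip a (-b) = -ip a b := by simp [ip, mulVec_neg]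

theorem ip_sub_right (a b c : Q8) : ip a (b - c) = ip a b - ip a c := by simp [ip, mulVec_sub]

theorem ip_zero_right (a : Q8) : ip a 0 = 0 := by simp [ip]

theorem pos_inv {θ a : Q8} (hθ : ip θ θ = 2) (h : 0 ≤ ip a θ) (t : ℤ) (v : Q8 × (Q8 → ℤ)) :
    (xE a t v).2 (-θ) = v.2 (-θ) := by
  have h1 : -θ ≠ a := by
    rintro rfl
    rw [ip_neg_left, hθ] at h
    omega
  have h2 : ip a (-θ) ≠ 1 := by rw [ip_neg_right]; omega
  simp [xE, h1, h2]

/-- the lowest root vector -/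
def low (θ : Q8) : Q8 × (Q8 → ℤ) := (0, fun b => if b = -θ then 1 else 0)

theorem neg_fix {θ a : Q8} (hθ : ip θ θ = 2) (ha : ip a a = 2) (h : ip a θ ≤ 0) (t : ℤ) :
    xE a t (low θ) = low θ := by
  have h1 : -a ≠ -θ := by
    intro e
    rw [neg_inj.1 e, hθ] at h
    omega
  refine Prod.ext ?_ (funext fun b => ?_)
  · simp only [xE, low, if_neg h1]
    simp
  · simp only [xE, low, if_neg h1, ip_zero_right]
    by_cases hb : b = a
    · simp [hb]
    · rw [if_neg hb]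
      by_cases hc : ip b b = 2 ∧ ip a b = 1
      · have h3 : b - a ≠ -θ := by
          intro e
          have : b = a - θ := by rw [sub_eq_add_neg a, ← e]; abel
          have h4 := hc.2
          rw [this, ip_sub_right, ha] at h4
          omega
        rw [if_pos hc, if_neg h3]
        simp
      · rw [if_neg hc]
        simp

theorem wit {θ : Q8} (hθ : ip θ θ = 2) :
    (xE (-θ) 1 (xE θ 1 (low θ))).2 (-θ) ≠ (low θ).2 (-θ) := by
  have h1 : -θ ≠ θ := by
    intro e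
    have := ip_neg_left θ θ
    rw [e, hθ] at this
    omega
  have h2 : ip θ (-θ) ≠ 1 := by rw [ip_neg_right]; omega
  simp [xE, low, h1, h1.symm, h2, ip_neg_left, ip_neg_right, ip_zero_right, hθ]

theorem not_up_E {n : ℕ} {θ : Q8} (hθ : IsRt n 1 θ) (k : Fin 8)
    (hk : ∀ a : Q8, (∀ i : Fin 8, n ≤ i.val → a i = 0) → ip a θ = a k) :
    ¬ Up (rootsE n 1) (rootsE n (-1)) 1 := by
  have hn : IsRt n (-1) (-θ) := by
    refine ⟨by rw [ip_neg_left, ip_neg_right, hθ.1]; rfl, fun i => ⟨?_, fun hi => ?_⟩⟩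
    · simpa using (hθ.2 i).1
    · simpa using (hθ.2 i).2 hi
  refine not_up_end (fun v => v.2 (-θ)) (low θ) ?_ ?_ ⟨θ, 1, hθ, rfl⟩ ⟨-θ, 1, hn, rfl⟩ (wit hθ.1)
  · rintro _ ⟨a, t, ha, rfl⟩ v
    refine pos_inv hθ.1 ?_ t v
    rw [hk a fun i => (ha.2 i).2]
    simpa using (ha.2 k).1
  · rintro _ ⟨a, t, ha, rfl⟩
    refine neg_fix hθ.1 ha.1 ?_ t
    rw [hk a fun i => (ha.2 i).2]
    simpa using (ha.2 k).1

/-- highest root of rank six -/
def th6 : Q8 := ![1, 2, 2, 3, 2, 1, 0, 0]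

/-- highest root of rank seven -/
def th7 : Q8 := ![2, 2, 3, 4, 3, 2, 1, 0]

/-- highest root of rank eight -/
def th8 : Q8 := ![2, 3, 4, 6, 5, 4, 3, 2]

theorem rt6 : IsRt 6 1 th6 := by unfold IsRt; decide

theorem rt7 : IsRt 7 1 th7 := by unfold IsRt; decide

theorem rt8 : IsRt 8 1 th8 := by unfold IsRt; decide

theorem ip6 (a : Q8) : ip a th6 = a 1 - a 6 := by
  have : CartanMatrix.E₈ *ᵥ th6 = ![0, 1, 0, 0, 0, 0, -1, 0] := by decide
  simp [ip, this, dotProduct, Fin.sum_univ_succ, sub_eq_add_neg]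

theorem ip7 (a : Q8) : ip a th7 = a 0 - a 7 := by
  have : CartanMatrix.E₈ *ᵥ th7 = ![1, 0, 0, 0, 0, 0, 0, -1] := by decide
  simp [ip, this, dotProduct, Fin.sum_univ_succ, sub_eq_add_neg]

theorem ip8 (a : Q8) : ip a th8 = a 7 := by
  have : CartanMatrix.E₈ *ᵥ th8 = ![0, 0, 0, 0, 0, 0, 0, 1] := by decide
  simp [ip, this, dotProduct, Fin.sum_univ_succ]

theorem partE (n : ℕ) (h6 : 6 ≤ n) (h8 : n ≤ 8) : ¬ Up (rootsE n 1) (rootsE n (-1)) 1 := by
  interval_cases n
  · exact not_up_E rt6 1 fun a h => by rw [ip6, h 6 (by decide), sub_zero]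
  · exact not_up_E rt7 0 fun a h => by rw [ip7, h 7 (by decide), sub_zero]
  · exact not_up_E rt8 7 fun a _ => ip8 a

theorem ip_flip {a : Q8} (h6 : a 6 = 0) : ip (flipE a) (flipE a) = ip a a := by
  simp [ip, flipE, CartanMatrix.E₈, dotProduct, mulVec, Fin.sum_univ_succ, h6]
  ring

theorem ip6_flip (a : Q8) : ip (flipE a) th6 = ip a th6 := by
  rw [ip6, ip6]; simp [flipE]

theorem partF : ¬ Up (rootsF 1) (rootsF (-1)) 1 := by
  have hn : IsRt 6 (-1) (-th6) := by unfold IsRt; decide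
  have f1 : flipE th6 = th6 := by decide
  have f2 : flipE (-th6) = -th6 := by decide
  refine not_up_end (fun v => v.2 (-th6)) (low th6) ?_ ?_ (p := xE th6 1) (q := xE (-th6) 1)
    ⟨th6, 1, rt6, by rw [if_pos f1]⟩ ⟨-th6, 1, hn, by rw [if_pos f2]⟩ (wit rt6.1)
  · rintro _ ⟨a, t, ha, rfl⟩ v
    have h : 0 ≤ ip a th6 := by
      rw [ip6, (ha.2 6).2 (by decide), sub_zero]
      simpa using (ha.2 1).1
    split_ifs
    · exact pos_inv rt6.1 h t v
    · exact (pos_inv rt6.1 h t _).trans (pos_inv rt6.1 (by rwa [ip6_flip]) t v)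
  · rintro _ ⟨a, t, ha, rfl⟩
    have h : ip a th6 ≤ 0 := by
      rw [ip6, (ha.2 6).2 (by decide), sub_zero]
      simpa using (ha.2 1).1
    split_ifs
    · exact neg_fix rt6.1 ha.1 h t
    · have := neg_fix rt6.1 ((ip_flip ((ha.2 6).2 (by decide))).trans ha.1)
        (by rwa [ip6_flip]) t
      exact (congrArg (xE a t) this).trans (neg_fix rt6.1 ha.1 h t)

theorem partA (n : ℕ) (hn : 2 ≤ n) : ¬ UpA n 1 := by
  obtain ⟨l, rfl⟩ : ∃ l, n = l + 1 := ⟨n - 1, by omega⟩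
  have h0 : (0 : Fin (l + 1)) < Fin.last l := by rw [Fin.lt_def]; simp; omega
  refine not_up_one (p := 1 + single 0 (Fin.last l) 1) (q := (1 + single 0 (Fin.last l) 1)ᵀ)
    ⟨_, _, 1, h0, rfl⟩ ⟨_, ⟨_, _, 1, h0, rfl⟩, rfl⟩ fun a ha b hb e => ?_
  have := not_mul_of_row _ (Fin.last l) ?_ ha hb
  · rw [← e] at this
    simp [transpose_single, add_mul, mul_add, h0.ne, h0.ne'] at this
  · rintro _ ⟨i, j, t, h, rfl⟩ k
    have : i ≠ Fin.last l := (lt_of_lt_of_le h (Fin.le_last _)).ne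
    simp [one_apply, this]

theorem partC (l : ℕ) (hl : 1 ≤ l) : ¬ UpC l 1 := by
  let z : Fin l := ⟨0, by omega⟩
  refine not_up_one (p := fromBlocks 1 (single z z 1) 0 1)
    (q := (fromBlocks 1 (single z z 1) 0 1)ᵀ) ⟨z, z, 1, Or.inr (Or.inr rfl)⟩
    ⟨_, ⟨z, z, 1, Or.inr (Or.inr rfl)⟩, rfl⟩ fun a ha b hb e => ?_
  have := not_mul_of_row _ (Sum.inr z) ?_ ha hb
  · rw [← e] at this
    simp [fromBlocks_transpose, fromBlocks_multiply, transpose_single] at this
  · rintro _ ⟨i, j, t, ⟨h, rfl⟩ | ⟨h, rfl⟩ | rfl⟩ (k | k)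
    · simp
    · have : j ≠ z := by
        rintro rfl
        exact absurd h (by simp [Fin.lt_def, z])
      simp [one_apply, this]
    · simp
    · simp [one_apply]
    · simp
    · simp [one_apply]

theorem partB (l : ℕ) (hl : 2 ≤ l) :
    ¬ Up (rootsB (cre l) (ann l)) (rootsB (ann l) (cre l)) 1 := by
  have h01 : (⟨0, by omega⟩ : Fin l) < ⟨1, by omega⟩ := by simp [Fin.lt_def]
  refine not_up_one (Or.inl ⟨_, _, 1, h01, Or.inr rfl⟩) (Or.inl ⟨_, _, 1, h01, Or.inr rfl⟩)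
    fun a ha b hb e => ?_
  have h1 := not_mul_spin rootsB_inv rootsB_one ha hb
  rw [← e, witness h01] at h1
  exact zero_ne_one h1

theorem partD (l : ℕ) (hl : 2 ≤ l) :
    ¬ Up (rootsD (cre l) (ann l)) (rootsD (ann l) (cre l)) 1 := by
  have h01 : (⟨0, by omega⟩ : Fin l) < ⟨1, by omega⟩ := by simp [Fin.lt_def]
  refine not_up_one ⟨_, _, 1, h01, Or.inr rfl⟩ ⟨_, _, 1, h01, Or.inr rfl⟩
    fun a ha b hb e => ?_
  have h1 := not_mul_spin (fun g hg => rootsB_inv g (Or.inl hg))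
    (fun g hg => rootsB_one g (Or.inl hg)) ha hb
  rw [← e, witness h01] at h1
  exact zero_ne_one h1

theorem partG :
    ¬ Up (rootsG 1 (cre 3) (ann 3)) (rootsG (-1) (ann 3) (cre 3)) 1 := by
  have h01 : (0 : Fin 3) < 1 := by decide
  refine not_up_one ⟨1, Or.inl rfl⟩ ⟨1, Or.inl rfl⟩ fun a ha b hb e => ?_
  have z : ∀ i j : Fin 3, i ≠ j → (ann 3 i * cre 3 j) 1 = 0 := fun i j h => by
    rw [(car_spin 3).fe h.symm]; simp [ann_one]
  have z12 := z 1 2 (by decide)
  have z02 := z 0 2 (by decide)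
  have z01 := z 0 1 (by decide)
  have h1 := not_mul_spin ?_ ?_ ha hb
  · rw [← e, witness h01] at h1
    exact zero_ne_one h1
  · rintro _ ⟨t, rfl | rfl | rfl | rfl | rfl | rfl⟩ x <;> simp [inv_cre]
  · rintro _ ⟨t, rfl | rfl | rfl | rfl | rfl | rfl⟩ <;>
      simp only [Module.End.mul_apply (1 + _), LinearMap.add_apply, LinearMap.sub_apply,
        LinearMap.smul_apply, Module.End.one_apply, z12, z02, z01] <;>
      simp [ann_one]

end NotOne

theorem notOneSt : NotOneSt :=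
  ⟨NotOne.partA, NotOne.partC, NotOne.partB, NotOne.partD, NotOne.partE, NotOne.partF,
    NotOne.partG⟩

end Pool.Agent.Lib.MP_755cca_al.F
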