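import Pool.Agent.Lib.MP_755cca_al.F.RelE0

/-! The relations between the root elements in the model of `E₈`. -/

namespace Pool.Agent.Lib.MP_755cca_al.F.RE

theorem rel0 (a : Q8) : xE a 0 = 1 := by
  funext v
  show xE a 0 v = v
  refine Prod.ext (by simp [x1]) (funext fun d => ?_)
  simp [xE]

theorem rel_add {a : Q8} (ha : ip a a = 2) (s t : ℤ) : xE a (s + t) = xE a s * xE a t := by
  funext v
  have hm : (xE a t v).2 (-a) = v.2 (-a) := x0 ha (by (simp only [ip_add_r, ip_add_l, ip_sub_r, ip_sub_l, ip_neg_r, ip_neg_l]; omega)) _ _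
  rw [mul_app]
  refine Prod.ext ?_ (funext fun d => ?_)
  · rw [x1, x1, x1, hm]; module
  · by_cases hd : ip d d = 2
    · rcases eq_or_le ha hd with rfl | h
      · rw [x2, x2, x2, hm, x1, ip_sub_r, ip_smul_r, ha]; ring
      · by_cases h1 : ip a d = 1
        · rw [xP ha hd h1, xP ha hd h1, xP ha hd h1, x0 ha (d := d - a) (by (simp only [ip_add_r, ip_add_l, ip_sub_r, ip_sub_l, ip_neg_r, ip_neg_l]; omega))]; ring
        · rw [x0 ha (by omega), x0 ha (by omega), x0 ha (by omega)]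
    · rw [xN ha hd, xN ha hd, xN ha hd]

theorem comm_at {a b : Q8} (ha : ip a a = 2) (hb : ip b b = 2) (h0 : 0 ≤ ip a b)
    (h1 : ip a b ≤ 1) (s t : ℤ) (v : V8) :
    (xE a s (xE b t v)).2 a = (xE b t (xE a s v)).2 a := by
  have hc := ip_comm b a
  rw [x2, x0 hb (d := -a) (by (simp only [ip_add_r, ip_add_l, ip_sub_r, ip_sub_l, ip_neg_r, ip_neg_l]; omega)), x1, ip_sub_r, ip_smul_r]
  by_cases h : ip a b = 1
  · have hr : ip (a - b) (a - b) = 2 := by (simp only [ip_add_r, ip_add_l, ip_sub_r, ip_sub_l, ip_neg_r, ip_neg_l]; omega)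
    rw [xP hb ha (by omega), xP hb ha (by omega), x2, xP ha hr (by (simp only [ip_add_r, ip_add_l, ip_sub_r, ip_sub_l, ip_neg_r, ip_neg_l]; omega)), h]
    have e : a - b - a = -b := by abel
    rw [e, eps_neg_r, eps_sub_r, eps_self hb, eps_swap1 (Or.inl h)]
    linear_combination (-(s * t * v.2 (-b))) * eps_sq a b
  · have h : ip a b = 0 := by omega
    rw [x0 hb (by omega), x0 hb (by omega), x2, h]; ring

theorem comm_one {a b d : Q8} (ha : ip a a = 2) (hb : ip b b = 2) (h0 : 0 ≤ ip a b)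
    (hd : ip d d = 2) (p : ip a d = 1) (q : ip b d ≤ 0) (s t : ℤ) (v : V8) :
    (xE a s (xE b t v)).2 d = (xE b t (xE a s v)).2 d := by
  have hc := ip_comm b a
  rw [xP ha hd p, x0 hb q, x0 hb q, xP ha hd p, x0 hb (d := d - a) (by (simp only [ip_add_r, ip_add_l, ip_sub_r, ip_sub_l, ip_neg_r, ip_neg_l]; omega))]

theorem rel_comm {a b : Q8} (ha : ip a a = 2) (hb : ip b b = 2) (h0 : 0 ≤ ip a b) (s t : ℤ) :
    xE a s * xE b t = xE b t * xE a s := by
  rcases eq_or_le ha hb with rfl | h1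
  · rw [← rel_add ha, ← rel_add ha, add_comm]
  have hc := ip_comm b a
  funext v
  rw [mul_app, mul_app]
  refine Prod.ext ?_ (funext fun d => ?_)
  · rw [x1, x1, x1, x1, x0 hb (d := -a) (by (simp only [ip_add_r, ip_add_l, ip_sub_r, ip_sub_l, ip_neg_r, ip_neg_l]; omega)), x0 ha (d := -b) (by (simp only [ip_add_r, ip_add_l, ip_sub_r, ip_sub_l, ip_neg_r, ip_neg_l]; omega))]; module
  by_cases hd : ip d d = 2
  swap
  · rw [xN ha hd, xN hb hd, xN hb hd, xN ha hd]
  rcases eq_or_le ha hd with rfl | p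
  · exact comm_at ha hb h0 h1 s t v
  rcases eq_or_le hb hd with rfl | q
  · exact (comm_at hb ha (by omega) (by omega) t s v).symm
  have c1 := ip_comm d a
  have c2 := ip_comm d b
  by_cases p1 : ip a d = 1 <;> by_cases q1 : ip b d = 1
  · rw [xP ha hd p1, xP hb hd q1, xP hb hd q1, xP ha hd p1]
    by_cases h : ip a b = 1
    · rw [x0 hb (d := d - a) (by (simp only [ip_add_r, ip_add_l, ip_sub_r, ip_sub_l, ip_neg_r, ip_neg_l]; omega)), x0 ha (d := d - b) (by (simp only [ip_add_r, ip_add_l, ip_sub_r, ip_sub_l, ip_neg_r, ip_neg_l]; omega))]; ring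
    · have h : ip a b = 0 := by omega
      rw [xP hb (d := d - a) (by (simp only [ip_add_r, ip_add_l, ip_sub_r, ip_sub_l, ip_neg_r, ip_neg_l]; omega)) (by (simp only [ip_add_r, ip_add_l, ip_sub_r, ip_sub_l, ip_neg_r, ip_neg_l]; omega)), xP ha (d := d - b) (by (simp only [ip_add_r, ip_add_l, ip_sub_r, ip_sub_l, ip_neg_r, ip_neg_l]; omega)) (by (simp only [ip_add_r, ip_add_l, ip_sub_r, ip_sub_l, ip_neg_r, ip_neg_l]; omega))]
      have e : d - b - a = d - a - b := by abel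
      rw [e]
      simp only [eps_sub_r, eps_self ha, eps_self hb, eps_swap0 h]
      ring
  · exact comm_one ha hb h0 hd p1 (by omega) s t v
  · exact (comm_one hb ha (by omega) hd q1 (by omega) t s v).symm
  · rw [x0 ha (by omega), x0 hb (by omega), x0 hb (by omega), x0 ha (by omega)]

theorem rel_cmt {a b : Q8} (ha : ip a a = 2) (hb : ip b b = 2) (h : ip a b = -1) (s t : ℤ) :
    xE a s * xE b t = xE b t * xE a s * xE (a + b) (eps a b * s * t) := by
  have hc := ip_comm b a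
  have hn : ip (a + b) (a + b) = 2 := by (simp only [ip_add_r, ip_add_l, ip_sub_r, ip_sub_l, ip_neg_r, ip_neg_l]; omega)
  have sw := eps_swap1 (Or.inr h)
  have sa := eps_self ha
  have sb := eps_self hb
  have sn := eps_self hn
  have sq := eps_sq a b
  have e1 : -a - b = -(a + b) := by abel
  have e2 : -b - a = -(a + b) := by abel
  have e3 : a - (a + b) = -b := by abel
  have e4 : b - (a + b) = -a := by abel
  have e5 : a + b - a = b := by abel
  have e6 : a + b - b = a := by abel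
  funext v
  rw [mul_app, mul_app, mul_app]
  obtain ⟨u, hu⟩ : ∃ u, u = eps a b * s * t := ⟨_, rfl⟩
  obtain ⟨w, hw⟩ : ∃ w, w = xE b t v := ⟨_, rfl⟩
  obtain ⟨z, hz⟩ : ∃ z, z = xE (a + b) u v := ⟨_, rfl⟩
  obtain ⟨y, hy⟩ : ∃ y, y = xE a s z := ⟨_, rfl⟩
  rw [← hu, ← hw, ← hz, ← hy]
  have wa : w.2 (-a) = v.2 (-a) + t * eps a b * v.2 (-(a + b)) := by
    rw [hw, xP hb (by (simp only [ip_add_r, ip_add_l, ip_sub_r, ip_sub_l, ip_neg_r, ip_neg_l]; omega)) (by (simp only [ip_add_r, ip_add_l, ip_sub_r, ip_sub_l, ip_neg_r, ip_neg_l]; omega)), e1, eps_neg_r, eps_add_r, sw, sb]; ring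
  have za : z.2 (-a) = v.2 (-a) := by rw [hz, x0 hn (by (simp only [ip_add_r, ip_add_l, ip_sub_r, ip_sub_l, ip_neg_r, ip_neg_l]; omega))]
  have zb : z.2 (-b) = v.2 (-b) := by rw [hz, x0 hn (by (simp only [ip_add_r, ip_add_l, ip_sub_r, ip_sub_l, ip_neg_r, ip_neg_l]; omega))]
  have zn : z.2 (-(a + b)) = v.2 (-(a + b)) := by rw [hz, x0 hn (by (simp only [ip_add_r, ip_add_l, ip_sub_r, ip_sub_l, ip_neg_r, ip_neg_l]; omega))]
  have yb : y.2 (-b) = v.2 (-b) - s * eps a b * v.2 (-(a + b)) := by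
    rw [hy, xP ha (by (simp only [ip_add_r, ip_add_l, ip_sub_r, ip_sub_l, ip_neg_r, ip_neg_l]; omega)) (by (simp only [ip_add_r, ip_add_l, ip_sub_r, ip_sub_l, ip_neg_r, ip_neg_l]; omega)), e2, zb, zn, eps_neg_r, eps_add_r, sa]; ring
  have z1 : z.1 = v.1 - (u * v.2 (-(a + b))) • (a + b) := by rw [hz, x1]
  have y1 : y.1 = v.1 - (u * v.2 (-(a + b))) • (a + b) - (s * v.2 (-a)) • a := by
    rw [hy, x1, za, z1]
  have w1 : w.1 = v.1 - (t * v.2 (-b)) • b := by rw [hw, x1]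
  have zpa : z.2 a = v.2 a - s * t * v.2 (-b) := by
    rw [hz, xP hn ha (by (simp only [ip_add_r, ip_add_l, ip_sub_r, ip_sub_l, ip_neg_r, ip_neg_l]; omega)), e3, eps_neg_r, eps_add_l, sb, hu]
    linear_combination (-(s * t * v.2 (-b))) * sq
  have zpb : z.2 b = v.2 b + s * t * v.2 (-a) := by
    rw [hz, xP hn hb (by (simp only [ip_add_r, ip_add_l, ip_sub_r, ip_sub_l, ip_neg_r, ip_neg_l]; omega)), e4, eps_neg_r, eps_add_l, sa, sw, hu]
    linear_combination (s * t * v.2 (-a)) * sq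
  have ypa : y.2 a = v.2 a - s * t * v.2 (-b) + s ^ 2 * v.2 (-a) - s * ip a v.1 +
      s * u * v.2 (-(a + b)) := by
    rw [hy, x2, zpa, za, z1, ip_sub_r, ip_smul_r, ip_add_r, ha, h]; ring
  have wpa : w.2 a = v.2 a := by rw [hw, x0 hb (by omega)]
  have wpb : w.2 b = v.2 b + (t ^ 2 * v.2 (-b) - t * ip b v.1) := by rw [hw, x2]
  have ypb : y.2 b = v.2 b + s * t * v.2 (-a) := by rw [hy, x0 ha (by omega), zpb]
  have wpn : w.2 (a + b) = v.2 (a + b) - t * eps a b * v.2 a := by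
    rw [hw, xP hb hn (by (simp only [ip_add_r, ip_add_l, ip_sub_r, ip_sub_l, ip_neg_r, ip_neg_l]; omega)), e6, sw]; ring
  have zpn : z.2 (a + b) = v.2 (a + b) + (u ^ 2 * v.2 (-(a + b)) - u * (ip a v.1 + ip b v.1)) := by
    rw [hz, x2, ip_add_l]
  have ypn : y.2 (a + b) = z.2 (a + b) + s * eps a b * z.2 b := by
    rw [hy, xP ha hn (by (simp only [ip_add_r, ip_add_l, ip_sub_r, ip_sub_l, ip_neg_r, ip_neg_l]; omega)), e5]
  refine Prod.ext ?_ (funext fun d => ?_)
  · rw [x1, x1, wa, yb, y1, w1, hu]; module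
  by_cases hd : ip d d = 2
  swap
  · rw [xN ha hd, xN hb hd, hw, hy, xN hb hd, xN ha hd, hz, xN hn hd]
  rcases eq_or_le ha hd with e | p
  · rw [e, x2, x0 hb (d := a) (by omega), wpa, ypa, wa, w1, ip_sub_r, ip_smul_r, h, hu]; ring
  rcases eq_or_le hb hd with e | q
  · rw [e, x0 ha (d := b) (by omega), x2, wpb, ypb, yb, y1, ip_sub_r, ip_sub_r, ip_smul_r,
      ip_smul_r, ip_add_r, hb, hc, h, hu]
    ring
  rcases eq_or_le hn hd with e | r
  · rw [e, xP ha hn (by (simp only [ip_add_r, ip_add_l, ip_sub_r, ip_sub_l, ip_neg_r, ip_neg_l]; omega)), xP hb hn (by (simp only [ip_add_r, ip_add_l, ip_sub_r, ip_sub_l, ip_neg_r, ip_neg_l]; omega)), e5, e6, wpn, wpb, ypn, zpn, zpb, ypa, sw, hu]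
    ring
  have c1 := ip_comm d a
  have c2 := ip_comm d b
  have r' : ip a d + ip b d ≤ 1 := by rwa [ip_add_l] at r
  have e7 : d - (a + b) = d - a - b := by abel
  have e8 : d - b - a = d - a - b := by abel
  by_cases p1 : ip a d = 1
  · have q0 : ip b d ≤ 0 := by omega
    rw [xP ha hd p1, x0 hb q0, hw, hy, x0 hb q0, xP ha hd p1, hz, x0 hn (d := d - a) (by (simp only [ip_add_r, ip_add_l, ip_sub_r, ip_sub_l, ip_neg_r, ip_neg_l]; omega))]
    by_cases q1 : ip b d = 0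
    · rw [xP hb (d := d - a) (by (simp only [ip_add_r, ip_add_l, ip_sub_r, ip_sub_l, ip_neg_r, ip_neg_l]; omega)) (by (simp only [ip_add_r, ip_add_l, ip_sub_r, ip_sub_l, ip_neg_r, ip_neg_l]; omega)), xP hn hd (by (simp only [ip_add_r, ip_add_l, ip_sub_r, ip_sub_l, ip_neg_r, ip_neg_l]; omega)), eps_sub_r (a + b), sn, e7, hu]
      simp only [eps_sub_r, eps_add_l, sa, sb, sw]
      ring
    · rw [x0 hb (d := d - a) (by (simp only [ip_add_r, ip_add_l, ip_sub_r, ip_sub_l, ip_neg_r, ip_neg_l]; omega)), x0 hn (d := d) (by (simp only [ip_add_r, ip_add_l, ip_sub_r, ip_sub_l, ip_neg_r, ip_neg_l]; omega))]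
  · have p0 : ip a d ≤ 0 := by omega
    rw [x0 ha p0, hw]
    by_cases q1 : ip b d = 1
    · rw [xP hb hd q1, xP hb hd q1, hy, x0 ha p0]
      by_cases p2 : ip a d = 0
      · rw [xP ha (d := d - b) (by (simp only [ip_add_r, ip_add_l, ip_sub_r, ip_sub_l, ip_neg_r, ip_neg_l]; omega)) (by (simp only [ip_add_r, ip_add_l, ip_sub_r, ip_sub_l, ip_neg_r, ip_neg_l]; omega)), hz, xP hn hd (by (simp only [ip_add_r, ip_add_l, ip_sub_r, ip_sub_l, ip_neg_r, ip_neg_l]; omega)),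
          x0 hn (d := d - b) (by (simp only [ip_add_r, ip_add_l, ip_sub_r, ip_sub_l, ip_neg_r, ip_neg_l]; omega)), x0 hn (d := d - b - a) (by (simp only [ip_add_r, ip_add_l, ip_sub_r, ip_sub_l, ip_neg_r, ip_neg_l]; omega)), eps_sub_r (a + b), sn, e7,
          e8, hu]
        simp only [eps_sub_r, eps_add_l, sa, sb]
        ring
      · rw [x0 ha (d := d - b) (by (simp only [ip_add_r, ip_add_l, ip_sub_r, ip_sub_l, ip_neg_r, ip_neg_l]; omega)), hz, x0 hn (d := d) (by (simp only [ip_add_r, ip_add_l, ip_sub_r, ip_sub_l, ip_neg_r, ip_neg_l]; omega)), x0 hn (d := d - b) (by (simp only [ip_add_r, ip_add_l, ip_sub_r, ip_sub_l, ip_neg_r, ip_neg_l]; omega))]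
    · have q0 : ip b d ≤ 0 := by omega
      rw [x0 hb q0, x0 hb q0, hy, x0 ha p0, hz, x0 hn (d := d) (by (simp only [ip_add_r, ip_add_l, ip_sub_r, ip_sub_l, ip_neg_r, ip_neg_l]; omega))]

end Pool.Agent.Lib.MP_755cca_al.F.RE
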