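import Pool.Agent.Lib.MP_755cca_al.F.Stmt
import Pool.Agent.Lib.MP_755cca_al.F.RelX1

/-! The relations in the model of `E₈`. -/

namespace Pool.Agent.Lib.MP_755cca_al.F

namespace RE

/-- the Weyl element -/
def nE (a : Q8) : Function.End V8 := xE a 1 * xE (-a) 1 * xE a 1

theorem nE_app (a : Q8) (v : V8) : nE a v = xE a 1 (xE (-a) 1 (xE a 1 v)) := rfl

section
variable {a : Q8} (ha : ip a a = 2)
include ha

theorem n_neg (v : V8) : (xE (-a) 1 (xE a 1 v)).2 (-a) = v.2 a := by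
  rw [x2, neg_neg, x2, x0 ha (d := -a) (by (simp only [ip_add_r, ip_add_l, ip_sub_r, ip_sub_l, ip_neg_r, ip_neg_l]; omega)), x1, ip_neg_l, ip_sub_r, ip_smul_r, ha]; ring

theorem n_fst0 (v : V8) : (xE (-a) 1 (xE a 1 v)).1 = v.1 + (v.2 a - ip a v.1) • a := by
  rw [x1, neg_neg, x2, x1]; module

theorem n_fst (v : V8) : (nE a v).1 = v.1 - ip a v.1 • a := by
  rw [nE_app, x1, n_neg ha, n_fst0 ha]; module

theorem n_a (v : V8) : (nE a v).2 a = v.2 (-a) := by
  have hm : ip (-a) (-a) = 2 := by (simp only [ip_add_r, ip_add_l, ip_sub_r, ip_sub_l, ip_neg_r, ip_neg_l]; omega)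
  rw [nE_app, x2, n_neg ha, n_fst0 ha, x0 hm (d := a) (by (simp only [ip_add_r, ip_add_l, ip_sub_r, ip_sub_l, ip_neg_r, ip_neg_l]; omega)), x2, ip_add_r, ip_smul_r, ha]; ring

theorem n_ma (v : V8) : (nE a v).2 (-a) = v.2 a := by
  rw [nE_app, x0 ha (d := -a) (by (simp only [ip_add_r, ip_add_l, ip_sub_r, ip_sub_l, ip_neg_r, ip_neg_l]; omega)), n_neg ha]

theorem n_mid {d : Q8} (hd : ip d d = 2) (p : ip a d = 1) (v : V8) :
    (xE (-a) 1 (xE a 1 v)).2 (d - a) = -(eps a (d - a) * v.2 d) := by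
  have hm : ip (-a) (-a) = 2 := by (simp only [ip_add_r, ip_add_l, ip_sub_r, ip_sub_l, ip_neg_r, ip_neg_l]; omega)
  have c := ip_comm d a
  have e : d - a - -a = d := by abel
  rw [xP hm (d := d - a) (by (simp only [ip_add_r, ip_add_l, ip_sub_r, ip_sub_l, ip_neg_r, ip_neg_l]; omega)) (by (simp only [ip_add_r, ip_add_l, ip_sub_r, ip_sub_l, ip_neg_r, ip_neg_l]; omega)), e, x0 ha (d := d - a) (by (simp only [ip_add_r, ip_add_l, ip_sub_r, ip_sub_l, ip_neg_r, ip_neg_l]; omega)), xP ha hd p, eps_neg_l,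
    eps_sub_r, eps_self ha]
  linear_combination (-v.2 (d - a)) * eps_sq a d

theorem n_p {d : Q8} (hd : ip d d = 2) (p : ip a d = 1) (v : V8) :
    (nE a v).2 d = eps a (d - a) * v.2 (d - a) := by
  have hm : ip (-a) (-a) = 2 := by (simp only [ip_add_r, ip_add_l, ip_sub_r, ip_sub_l, ip_neg_r, ip_neg_l]; omega)
  rw [nE_app, xP ha hd p, n_mid ha hd p, x0 hm (d := d) (by (simp only [ip_add_r, ip_add_l, ip_sub_r, ip_sub_l, ip_neg_r, ip_neg_l]; omega)), xP ha hd p]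
  linear_combination (-v.2 d) * eps_sq a (d - a)

theorem n_m {d : Q8} (hd : ip d d = 2) (p : ip a d = 1) (v : V8) :
    (nE a v).2 (d - a) = -(eps a (d - a) * v.2 d) := by
  rw [nE_app, x0 ha (d := d - a) (by (simp only [ip_add_r, ip_add_l, ip_sub_r, ip_sub_l, ip_neg_r, ip_neg_l]; omega)), n_mid ha hd p]

theorem n_0 {d : Q8} (p : ip a d = 0) (v : V8) : (nE a v).2 d = v.2 d := by
  have hm : ip (-a) (-a) = 2 := by (simp only [ip_add_r, ip_add_l, ip_sub_r, ip_sub_l, ip_neg_r, ip_neg_l]; omega)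
  rw [nE_app, x0 ha (by omega), x0 hm (d := d) (by (simp only [ip_add_r, ip_add_l, ip_sub_r, ip_sub_l, ip_neg_r, ip_neg_l]; omega)), x0 ha (by omega)]

theorem n_N {d : Q8} (hd : ip d d ≠ 2) (v : V8) : (nE a v).2 d = v.2 d := by
  have hm : ip (-a) (-a) = 2 := by (simp only [ip_add_r, ip_add_l, ip_sub_r, ip_sub_l, ip_neg_r, ip_neg_l]; omega)
  rw [nE_app, xN ha hd, xN hm hd, xN ha hd]

theorem nn_fst (v : V8) : (nE a (nE a v)).1 = v.1 := by
  rw [n_fst ha, n_fst ha, ip_sub_r, ip_smul_r, ha]; module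

theorem nn_snd (d : Q8) : (∀ v : V8, (nE a (nE a v)).2 d = v.2 d) ∨
    ∀ v : V8, (nE a (nE a v)).2 d = -v.2 d := by
  have hm : ip (-a) (-a) = 2 := by (simp only [ip_add_r, ip_add_l, ip_sub_r, ip_sub_l, ip_neg_r, ip_neg_l]; omega)
  by_cases hd : ip d d = 2
  swap
  · exact Or.inl fun v => by rw [n_N ha hd, n_N ha hd]
  rcases eq_or_le ha hd with e | p
  · exact Or.inl fun v => by rw [e, n_a ha, n_ma ha]
  rcases eq_or_le hm hd with e | q
  · exact Or.inl fun v => by rw [e, n_ma ha, n_a ha]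
  rw [ip_neg_l] at q
  have c := ip_comm d a
  by_cases p1 : ip a d = 1
  · refine Or.inr fun v => ?_
    rw [n_p ha hd p1, n_m ha hd p1]
    linear_combination (-v.2 d) * eps_sq a (d - a)
  by_cases p0 : ip a d = 0
  · exact Or.inl fun v => by rw [n_0 ha p0, n_0 ha p0]
  refine Or.inr fun v => ?_
  obtain ⟨c', rfl⟩ : ∃ c', d = c' - a := ⟨d + a, by abel⟩
  have cc := ip_comm c' a
  have p2 : ip a c' = 1 := by rw [ip_sub_r] at p p1 p0 q; omega
  have hc : ip c' c' = 2 := by rw [ip_sub_l, ip_sub_r, ip_sub_r] at hd; omega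
  rw [n_m ha hc p2, n_p ha hc p2]
  linear_combination (-v.2 (c' - a)) * eps_sq a (c' - a)

theorem nE_four : nE a ^ 4 = 1 := by
  funext v
  show nE a (nE a (nE a (nE a v))) = v
  refine Prod.ext (by rw [nn_fst ha, nn_fst ha]) (funext fun d => ?_)
  rcases nn_snd ha d with h | h
  · rw [h, h]
  · rw [h, h, neg_neg]

end

end RE

theorem relESt : RelESt :=
  ⟨RE.rel0, fun _ ha => RE.rel_add ha, fun _ _ ha hb h => RE.rel_comm ha hb h,
    fun _ _ ha hb h => RE.rel_cmt ha hb h, fun _ ha => RE.nE_four ha⟩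

end Pool.Agent.Lib.MP_755cca_al.F
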