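import Pool.Agent.Lib.MP_755cca_al.F.Stmt

/-! Facts on the roots of `E₈`. -/

open Matrix

namespace Pool.Agent.Lib.MP_755cca_al.F

theorem ip_eq (a b : Q8) : ip a b =
    2 * (a 0 * b 0 + a 1 * b 1 + a 2 * b 2 + a 3 * b 3 + a 4 * b 4 + a 5 * b 5 + a 6 * b 6 +
      a 7 * b 7) - (a 0 * b 2 + a 2 * b 0) - (a 1 * b 3 + a 3 * b 1) - (a 2 * b 3 + a 3 * b 2) -
      (a 3 * b 4 + a 4 * b 3) - (a 4 * b 5 + a 5 * b 4) - (a 5 * b 6 + a 6 * b 5) -
      (a 6 * b 7 + a 7 * b 6) := by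
  simp [ip, CartanMatrix.E₈, dotProduct, mulVec, Fin.sum_univ_eight]
  ring

theorem ip_comm (a b : Q8) : ip a b = ip b a := by rw [ip_eq, ip_eq]; ring

theorem ip_add_left (a b c : Q8) : ip (a + b) c = ip a c + ip b c := by
  simp only [ip_eq, Pi.add_apply]; ring

theorem ip_add_right (a b c : Q8) : ip a (b + c) = ip a b + ip a c := by
  simp only [ip_eq, Pi.add_apply]; ring

theorem ip_sub_left (a b c : Q8) : ip (a - b) c = ip a c - ip b c := by
  simp only [ip_eq, Pi.sub_apply]; ring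

theorem ip_sub_right (a b c : Q8) : ip a (b - c) = ip a b - ip a c := by
  simp only [ip_eq, Pi.sub_apply]; ring

theorem ip_neg_left (a b : Q8) : ip (-a) b = -ip a b := by
  simp only [ip_eq, Pi.neg_apply]; ring

theorem ip_neg_right (a b : Q8) : ip a (-b) = -ip a b := by
  simp only [ip_eq, Pi.neg_apply]; ring

theorem ip_smul_left (t : ℤ) (a b : Q8) : ip (t • a) b = t * ip a b := by
  simp only [ip_eq, Pi.smul_apply, smul_eq_mul]; ring

theorem ip_smul_right (t : ℤ) (a b : Q8) : ip a (t • b) = t * ip a b := by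
  simp only [ip_eq, Pi.smul_apply, smul_eq_mul]; ring

theorem ip_sq (a : Q8) : 60 * ip a a =
    30 * (2 * a 0 - a 2) ^ 2 + 10 * (3 * a 2 - 2 * a 3) ^ 2 + 30 * (2 * a 1 - a 3) ^ 2 +
      30 * (2 * a 7 - a 6) ^ 2 + 10 * (3 * a 6 - 2 * a 5) ^ 2 + 5 * (4 * a 5 - 3 * a 4) ^ 2 +
      3 * (5 * a 4 - 4 * a 3) ^ 2 + 2 * a 3 ^ 2 := by
  rw [ip_eq]; ring

theorem ip_nonneg (a : Q8) : 0 ≤ ip a a := by
  have h := ip_sq a
  have : 0 ≤ 60 * ip a a := by rw [h]; positivity
  omega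

theorem eq_zero_of_ip {a : Q8} (h : ip a a = 0) : a = 0 := by
  have e := ip_sq a
  rw [h] at e
  have h0 := sq_nonneg (2 * a 0 - a 2)
  have h1 := sq_nonneg (3 * a 2 - 2 * a 3)
  have h2 := sq_nonneg (2 * a 1 - a 3)
  have h3 := sq_nonneg (2 * a 7 - a 6)
  have h4 := sq_nonneg (3 * a 6 - 2 * a 5)
  have h5 := sq_nonneg (4 * a 5 - 3 * a 4)
  have h6 := sq_nonneg (5 * a 4 - 4 * a 3)
  have h7 := sq_nonneg (a 3)
  have k0 : 2 * a 0 - a 2 = 0 := pow_eq_zero_iff two_ne_zero |>.1 (by omega)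
  have k1 : 3 * a 2 - 2 * a 3 = 0 := pow_eq_zero_iff two_ne_zero |>.1 (by omega)
  have k2 : 2 * a 1 - a 3 = 0 := pow_eq_zero_iff two_ne_zero |>.1 (by omega)
  have k3 : 2 * a 7 - a 6 = 0 := pow_eq_zero_iff two_ne_zero |>.1 (by omega)
  have k4 : 3 * a 6 - 2 * a 5 = 0 := pow_eq_zero_iff two_ne_zero |>.1 (by omega)
  have k5 : 4 * a 5 - 3 * a 4 = 0 := pow_eq_zero_iff two_ne_zero |>.1 (by omega)
  have k6 : 5 * a 4 - 4 * a 3 = 0 := pow_eq_zero_iff two_ne_zero |>.1 (by omega)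
  have k7 : a 3 = 0 := pow_eq_zero_iff two_ne_zero |>.1 (by omega)
  funext i
  fin_cases i <;> simp <;> omega

theorem ip_even (a : Q8) : ∃ k, ip a a = 2 * k :=
  ⟨a 0 * a 0 + a 1 * a 1 + a 2 * a 2 + a 3 * a 3 + a 4 * a 4 + a 5 * a 5 + a 6 * a 6 + a 7 * a 7 -
    a 0 * a 2 - a 1 * a 3 - a 2 * a 3 - a 3 * a 4 - a 4 * a 5 - a 5 * a 6 - a 6 * a 7, by
    rw [ip_eq]; ring⟩

theorem two_le_ip {a : Q8} (h : a ≠ 0) : 2 ≤ ip a a := by
  obtain ⟨k, hk⟩ := ip_even a
  have h1 := ip_nonneg a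
  have h2 : ip a a ≠ 0 := fun e => h (eq_zero_of_ip e)
  omega

theorem root_lo {a b : Q8} (ha : ip a a = 2) (hb : ip b b = 2) :
    b = -a ∨ ip a b = -1 ∨ 0 ≤ ip a b := by
  by_cases h : a + b = 0
  · exact Or.inl (eq_neg_of_add_eq_zero_right h)
  · have h1 := two_le_ip h
    rw [ip_add_left, ip_add_right, ip_add_right, ip_comm b a] at h1
    omega

theorem root_hi {a b : Q8} (ha : ip a a = 2) (hb : ip b b = 2) : b = a ∨ ip a b ≤ 1 := by
  by_cases h : a - b = 0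
  · exact Or.inl (sub_eq_zero.1 h).symm
  · have h1 := two_le_ip h
    rw [ip_sub_left, ip_sub_right, ip_sub_right, ip_comm b a] at h1
    omega

theorem root_sign {a : Q8} (ha : ip a a = 2) : (∀ i, 0 ≤ a i) ∨ ∀ i, a i ≤ 0 := by
  by_contra hc
  push Not at hc
  obtain ⟨⟨i, hi⟩, j, hj⟩ := hc
  set p : Q8 := fun k => max (a k) 0 with hp
  set m : Q8 := fun k => max (-a k) 0 with hm
  have e : a = p - m := funext fun k => by simp only [hp, hm, Pi.sub_apply]; omega
  have p0 : ∀ k, 0 ≤ p k := fun k => le_max_right _ _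
  have m0 : ∀ k, 0 ≤ m k := fun k => le_max_right _ _
  have pm : ∀ k, p k * m k = 0 := fun k => by
    rcases le_total (a k) 0 with h | h
    · rw [show p k = 0 from max_eq_right h, zero_mul]
    · rw [show m k = 0 from max_eq_right (by omega), mul_zero]
  have h1 : 2 ≤ ip p p := two_le_ip fun h => by
    have := congrFun h j
    simp only [hp, Pi.zero_apply] at this
    omega
  have h2 : 2 ≤ ip m m := two_le_ip fun h => by
    have := congrFun h i
    simp only [hm, Pi.zero_apply] at this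
    omega
  have x : ∀ k l, 0 ≤ p k * m l := fun k l => mul_nonneg (p0 k) (m0 l)
  have h3 : ip p m ≤ 0 := by
    rw [ip_eq]
    simp only [pm]
    linarith [x 0 2, x 2 0, x 1 3, x 3 1, x 2 3, x 3 2, x 3 4, x 4 3, x 4 5, x 5 4, x 5 6, x 6 5,
      x 6 7, x 7 6]
  rw [e, ip_sub_left, ip_sub_right, ip_sub_right, ip_comm m p] at ha
  omega

theorem ip_single (i : Fin 8) : ip (Pi.single i 1) (Pi.single i 1) = 2 := by
  rw [ip_eq]
  fin_cases i <;> simp

theorem ip_expand (a b : Q8) : ip a b = ∑ i, b i * ip a (Pi.single i 1) := by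
  simp only [ip_eq, Fin.sum_univ_eight]
  simp
  ring

theorem root_desc {a : Q8} (ha : ip a a = 2) (h0 : ∀ i, 0 ≤ a i) :
    ∃ i, 0 < a i ∧ (a = Pi.single i 1 ∨ ip a (Pi.single i 1) = 1) := by
  have h1 : ∃ i, 0 < a i * ip a (Pi.single i 1) := by
    by_contra hc
    push Not at hc
    have := Finset.sum_nonpos (s := Finset.univ) fun i _ => hc i
    rw [← ip_expand] at this
    omega
  obtain ⟨i, hi⟩ := h1
  have h2 : 0 < a i := lt_of_le_of_ne (h0 i) fun e => by rw [← e, zero_mul] at hi; omega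
  have h3 : 0 < ip a (Pi.single i 1) := (mul_pos_iff_of_pos_left h2).1 hi
  refine ⟨i, h2, ?_⟩
  rcases root_hi ha (ip_single i) with h | h
  · exact Or.inl h.symm
  · exact Or.inr (by omega)

theorem ip_flip {a : Q8} (h6 : a 6 = 0) : ip (flipE a) (flipE a) = ip a a := by
  simp only [ip_eq, flipE]
  simp [h6]
  ring

theorem root_flip {a : Q8} (h : IsRt 6 1 a) : flipE a = a ∨ ip a (flipE a) = 0 := by
  obtain ⟨ha, h0⟩ := h
  have h6 : a 6 = 0 := (h0 6).2 (by decide)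
  have hf := (ip_flip h6).trans ha
  have ev : ∃ k, ip a (flipE a) = 2 * k :=
    ⟨2 * a 0 * a 5 + a 1 * a 1 + 2 * a 2 * a 4 + a 3 * a 3 + a 7 * a 7 - a 0 * a 4 - a 2 * a 5 -
      a 1 * a 3 - a 2 * a 3 - a 3 * a 4, by
      simp only [ip_eq, flipE]
      simp [h6]
      ring⟩
  obtain ⟨k, hk⟩ := ev
  rcases root_hi ha hf with h | h
  · exact Or.inl h
  rcases root_lo ha hf with h' | h' | h'
  · exfalso
    have p : ∀ i, 0 ≤ a i := fun i => by simpa using (h0 i).1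
    have e0 := congrFun h' 0
    have e1 := congrFun h' 1
    have e2 := congrFun h' 2
    have e3 := congrFun h' 3
    have e7 := congrFun h' 7
    simp [flipE] at e0 e1 e2 e3 e7
    have z : a = 0 := by
      have := p 0
      have := p 2
      have := p 4
      have := p 5
      funext i
      fin_cases i <;> simp <;> omega
    rw [z, ip_eq] at ha
    simp at ha
  · omega
  · exact Or.inr (by omega)

theorem rootESt : RootESt :=
  ⟨ip_comm, fun _ _ => root_lo, fun _ _ => root_hi, fun _ => root_sign, fun _ => root_desc,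
    fun _ => root_flip⟩

end Pool.Agent.Lib.MP_755cca_al.F
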