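import Pool.Agent.Lib.MP_755cca_al.F.StepC0

/-! The step in type `C`, and generation of `Sp(2 l, ℤ)`. -/

open Matrix
open scoped Pointwise

namespace Pool.Agent.Lib.MP_755cca_al.F

namespace AC

variable {l : ℕ}

/-- the first basis vector -/
def ep (l : ℕ) : Fin (l + 1) ⊕ Fin (l + 1) → ℤ := Pi.single (.inl 0) 1

/-- its dual -/
def eq' (l : ℕ) : Fin (l + 1) ⊕ Fin (l + 1) → ℤ := Pi.single (.inr 0) 1

theorem J_inl (v : Fin l ⊕ Fin l → ℤ) (i : Fin l) : (J (Fin l) ℤ *ᵥ v) (.inl i) = -v (.inr i) := by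
  simp [J, mulVec, dotProduct, one_apply]

theorem J_inr (v : Fin l ⊕ Fin l → ℤ) (i : Fin l) : (J (Fin l) ℤ *ᵥ v) (.inr i) = v (.inl i) := by
  simp [J, mulVec, dotProduct, one_apply]

theorem J_ep : J (Fin (l + 1)) ℤ *ᵥ ep l = eq' l := by
  ext (i | i)
  · rw [J_inl]; simp [ep, eq']
  · rw [J_inr]; simp [ep, eq', Pi.single_apply]

theorem dot_eq (a : Fin (l + 1) ⊕ Fin (l + 1) → ℤ) :
    a ⬝ᵥ J (Fin (l + 1)) ℤ *ᵥ ep l = a (.inr 0) := by
  rw [J_ep, eq', dotProduct_single, mul_one]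

theorem exists_row (x : Fin (l + 1) ⊕ Fin (l + 1) → ℤ) (hx : x (.inl 0) = 1) :
    ∃ g, IsP (J (Fin (l + 1)) ℤ) (ep l) g ∧ ep l ᵥ* g = x := by
  have hJ : ∀ v : Fin (l + 1) ⊕ Fin (l + 1) → ℤ,
      J (Fin (l + 1)) ℤ *ᵥ (-(J (Fin (l + 1)) ℤ *ᵥ v)) = v := fun v => by
    rw [mulVec_neg, mulVec_mulVec, J_squared, neg_mulVec, one_mulVec, neg_neg]
  obtain ⟨a, ha⟩ : ∃ a, a = -(J (Fin (l + 1)) ℤ *ᵥ (x - ep l)) := ⟨_, rfl⟩
  refine ⟨_, ⟨a, -(ep l ⬝ᵥ a), ?_, rfl⟩, ?_⟩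
  · rw [dot_eq, ha, Pi.neg_apply, J_inr]
    simp [hx, ep]
  · have h1 : ep l ⬝ᵥ ep l = 1 := by simp [ep]
    have h2 : J (Fin (l + 1)) ℤ *ᵥ a = x - ep l := by rw [ha, hJ]
    simp only [Ei, vecMul_add, vecMul_one, vecMul_smul, vecMul_vecMulVec, h1, h2, one_smul,
      neg_smul, vecMul_neg]
    abel

theorem Ei_apply (a : Fin (l + 1) ⊕ Fin (l + 1) → ℤ) (z : ℤ) (i k : Fin (l + 1) ⊕ Fin (l + 1)) :
    Ei (J (Fin (l + 1)) ℤ) (ep l) a z i k = (if i = k then 1 else 0) + a i * eq' l k +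
      ep l i * (J (Fin (l + 1)) ℤ *ᵥ a) k + z * (ep l i * eq' l k) := by
  rw [Ei, J_ep]
  simp only [Matrix.add_apply, Matrix.smul_apply, vecMulVec_apply, one_apply, smul_eq_mul]

theorem IsP.mem {g : Matrix (Fin (l + 1) ⊕ Fin (l + 1)) (Fin (l + 1) ⊕ Fin (l + 1)) ℤ}
    (h : IsP (J (Fin (l + 1)) ℤ) (ep l) g) : g ∈ Submonoid.closure (posC (l + 1)) := by
  have hJ := J_transpose (Fin (l + 1)) ℤ
  have h0 : ∀ z, Ei (J (Fin (l + 1)) ℤ) (ep l) 0 z ∈ Submonoid.closure (posC (l + 1)) := by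
    intro z
    refine Submonoid.subset_closure ⟨0, 0, z, Or.inr (Or.inr ?_)⟩
    ext (i | i) (j | j) <;> rw [Ei_apply] <;>
      simp [ep, eq', one_apply, single_apply, Pi.single_apply, ite_and, eq_comm]
    split_ifs <;> rfl
  let T : AddSubmonoid (Fin (l + 1) ⊕ Fin (l + 1) → ℤ) :=
    { carrier := {a | a ⬝ᵥ J (Fin (l + 1)) ℤ *ᵥ ep l = 0 ∧
        ∀ z, Ei (J (Fin (l + 1)) ℤ) (ep l) a z ∈ Submonoid.closure (posC (l + 1))}
      zero_mem' := ⟨by simp, h0⟩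
      add_mem' := fun {a b} ha hb => ⟨by rw [add_dotProduct, ha.1, hb.1, add_zero], fun z => by
        have := mul_mem (ha.2 0) (hb.2 (z - b ⬝ᵥ J (Fin (l + 1)) ℤ *ᵥ a))
        rw [Ei_mul hJ ha.1 hb.1] at this
        simpa using this⟩ }
  have h1 : ∀ a, a ⬝ᵥ J (Fin (l + 1)) ℤ *ᵥ ep l = 0 →
      Ei (J (Fin (l + 1)) ℤ) (ep l) a 0 ∈ Submonoid.closure (posC (l + 1)) → a ∈ T := by
    intro a ha hm
    refine ⟨ha, fun z => ?_⟩
    have := mul_mem hm (h0 z)
    rw [Ei_mul hJ ha (by simp)] at this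
    simpa using this
  obtain ⟨a, z, ha, rfl⟩ := h
  have : a ∈ T := by
    rw [← Finset.univ_sum_single a]
    refine sum_mem fun i _ => ?_
    rw [dot_eq] at ha
    rcases i with j | j
    · refine h1 _ (by rw [dot_eq]; simp) ?_
      generalize a (.inl j) = t
      have e : Ei (J (Fin (l + 1)) ℤ) (ep l) (Pi.single (.inl j) t) 0 =
          fromBlocks 1 (single j 0 t + single 0 j t) 0 1 := by
        ext (i | i) (k | k) <;> simp only [Ei_apply, J_inl, J_inr] <;>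
          simp [ep, eq', one_apply, single_apply, Pi.single_apply, ite_and, eq_comm]
        split_ifs <;> rfl
      rw [e]
      exact sym_pos (by simp [transpose_single, add_comm])
    · by_cases hj : j = 0
      · rw [hj, ha, Pi.single_zero]; exact T.zero_mem
      · refine h1 _ (by rw [dot_eq]; simp [hj]) ?_
        generalize a (.inr j) = t
        refine Submonoid.subset_closure ⟨0, j, -t, Or.inl ⟨Fin.pos_iff_ne_zero.2 hj, ?_⟩⟩
        ext (i | i) (k | k) <;> simp only [Ei_apply, J_inl, J_inr] <;>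
          simp [ep, eq', one_apply, single_apply, Pi.single_apply, ite_and, eq_comm]
        · split_ifs <;> simp
        · split_ifs <;> simp
  exact this.2 z

/-- the shift of indices -/
def S0 (l : ℕ) : Matrix (Fin l) (Fin (l + 1)) ℤ := of fun k i => if k.succ = i then 1 else 0

theorem S0_mul : S0 l * (S0 l)ᵀ = 1 := by
  ext i j
  simp [S0, mul_apply, one_apply, eq_comm]

theorem S0_mul' : (S0 l)ᵀ * S0 l = 1 - single 0 0 1 := by
  ext i j
  refine Fin.cases ?_ (fun i => ?_) i <;> refine Fin.cases ?_ (fun j => ?_) j <;>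
    simp [S0, mul_apply, one_apply, single_apply, (Fin.succ_ne_zero _).symm]
  simp only [eq_comm]

theorem S0_single (i j : Fin l) (t : ℤ) :
    (S0 l)ᵀ * single i j t * S0 l = single i.succ j.succ t := by
  ext a b
  rw [mul_apply, Finset.sum_eq_single j]
  · simp [S0, single_apply, ite_and]
    split_ifs <;> rfl
  · intro k _ hk
    rw [mul_single_apply_of_ne _ _ _ _ _ hk, zero_mul]
  · simp

/-- the shift on both halves -/
def SS (l : ℕ) : Matrix (Fin l ⊕ Fin l) (Fin (l + 1) ⊕ Fin (l + 1)) ℤ :=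
  fromBlocks (S0 l) 0 0 (S0 l)

theorem SS_mul : SS l * (SS l)ᵀ = 1 := by
  simp [SS, fromBlocks_transpose, fromBlocks_multiply, S0_mul]

/-- the complementary projection -/
def NN (l : ℕ) : Matrix (Fin (l + 1) ⊕ Fin (l + 1)) (Fin (l + 1) ⊕ Fin (l + 1)) ℤ :=
  vecMulVec (ep l) (ep l) + vecMulVec (eq' l) (eq' l)

theorem SS_mul' : (SS l)ᵀ * SS l = 1 - NN l := by
  simp only [SS, fromBlocks_transpose, fromBlocks_multiply, S0_mul', transpose_zero,
    Matrix.mul_zero, Matrix.zero_mul, add_zero, zero_add]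
  ext (i | i) (k | k) <;>
    simp [NN, ep, eq', vecMulVec_apply, one_apply, single_apply, Pi.single_apply, ite_and, eq_comm]
  · split_ifs <;> rfl
  · split_ifs <;> rfl

theorem SS_ep : SS l *ᵥ ep l = 0 := by
  ext (i | i) <;> simp [SS, S0, ep]

theorem SS_eq : SS l *ᵥ eq' l = 0 := by
  ext (i | i) <;> simp [SS, S0, eq']

theorem SS_J : SS l * J (Fin (l + 1)) ℤ * (SS l)ᵀ = J (Fin l) ℤ := by
  simp [SS, J, fromBlocks_transpose, fromBlocks_multiply, S0_mul]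

/-- the corner of rank one less -/
def mid (l : ℕ) : Matrix (Fin l ⊕ Fin l) (Fin l ⊕ Fin l) ℤ →*
    Matrix (Fin (l + 1) ⊕ Fin (l + 1)) (Fin (l + 1) ⊕ Fin (l + 1)) ℤ := emb (SS l) SS_mul

theorem mid_blocks (a b c d : Matrix (Fin l) (Fin l) ℤ) :
    mid l (fromBlocks (1 + a) b c (1 + d)) = fromBlocks (1 + (S0 l)ᵀ * a * S0 l)
      ((S0 l)ᵀ * b * S0 l) ((S0 l)ᵀ * c * S0 l) (1 + (S0 l)ᵀ * d * S0 l) := by
  have : fromBlocks (1 + a) b c (1 + d) - 1 = fromBlocks a b c d := by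
    rw [sub_eq_iff_eq_add', ← fromBlocks_one, fromBlocks_add]; simp
  rw [mid, emb_apply, this, ← fromBlocks_one]
  simp only [SS, fromBlocks_transpose, fromBlocks_multiply, fromBlocks_add, transpose_zero,
    Matrix.mul_zero, Matrix.zero_mul, add_zero, zero_add]

theorem mid_pos : ∀ x ∈ Submonoid.closure (posC l),
    mid l x ∈ Submonoid.closure (posC (l + 1)) := by
  intro x hx
  induction hx using Submonoid.closure_induction with
  | mem x hx =>
    refine Submonoid.subset_closure ?_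
    obtain ⟨i, j, t, ⟨h, rfl⟩ | ⟨h, rfl⟩ | rfl⟩ := hx
    · refine ⟨i.succ, j.succ, t, Or.inl ⟨by simpa using h, ?_⟩⟩
      have := mid_blocks (single i j t) 0 0 (-single j i t)
      simpa [S0_single, sub_eq_add_neg] using this
    · refine ⟨i.succ, j.succ, t, Or.inr (Or.inl ⟨by simpa using h, ?_⟩)⟩
      have := mid_blocks 0 (single i j t + single j i t) 0 0
      simpa [S0_single, Matrix.mul_add, Matrix.add_mul] using this
    · refine ⟨i.succ, j.succ, t, Or.inr (Or.inr ?_)⟩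
      have := mid_blocks 0 (single i i t) 0 0
      simpa [S0_single] using this
  | one => rw [map_one]; exact one_mem _
  | mul a b _ _ ha hb => rw [map_mul]; exact mul_mem ha hb

theorem neg_iff {ι : Type} [Fintype ι] [DecidableEq ι] {s : Set (Matrix ι ι ℤ)}
    {g : Matrix ι ι ℤ} : g ∈ Submonoid.closure (transpose '' s) ↔ gᵀ ∈ Submonoid.closure s := by
  constructor
  · intro h
    have := transpose_mem_closure h
    rw [Set.image_image] at this
    simpa using this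
  · intro h
    simpa using transpose_mem_closure h

theorem mid_transpose (A : Matrix (Fin l ⊕ Fin l) (Fin l ⊕ Fin l) ℤ) :
    (mid l A)ᵀ = mid l Aᵀ := emb_transpose _ _ _

theorem mid_neg : ∀ x ∈ Submonoid.closure (transpose '' posC l),
    mid l x ∈ Submonoid.closure (transpose '' posC (l + 1)) := by
  intro x hx
  rw [neg_iff] at hx ⊢
  rw [mid_transpose]
  exact mid_pos _ hx

theorem pos_le : Submonoid.closure (posC l) ≤ symplecticGroup (Fin l) ℤ :=
  Submonoid.closure_le.2 posC_subset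

theorem neg_le : Submonoid.closure (transpose '' posC l) ≤ symplecticGroup (Fin l) ℤ :=
  fun _ h => SymplecticGroup.transpose_mem_iff.1 (pos_le (neg_iff.1 h))

theorem all_le : Submonoid.closure (posC l ∪ transpose '' posC l) ≤ symplecticGroup (Fin l) ℤ := by
  rw [Submonoid.closure_union]
  exact sup_le pos_le neg_le

theorem decomp (hl : 1 ≤ l) {g : Matrix (Fin (l + 1) ⊕ Fin (l + 1)) (Fin (l + 1) ⊕ Fin (l + 1)) ℤ}
    (hg : g ∈ symplecticGroup (Fin (l + 1)) ℤ) :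
    ∃ p₁ q₁ m p₂ q₂, IsP (J (Fin (l + 1)) ℤ) (ep l) p₁ ∧ IsP (J (Fin (l + 1)) ℤ) (ep l) q₁ ∧
      m ∈ symplecticGroup (Fin l) ℤ ∧ IsP (J (Fin (l + 1)) ℤ) (ep l) p₂ ∧
      IsP (J (Fin (l + 1)) ℤ) (ep l) q₂ ∧ g = p₁ * q₁ᵀ * mid l m * p₂ * q₂ᵀ := by
  have hJ := J_transpose (Fin (l + 1)) ℤ
  have hlast : Fin.last l ≠ 0 := by
    intro h
    have := congrArg Fin.val h
    simp at this
    omega
  obtain ⟨x, y, hx, hy, hxy⟩ := exists_unit (.inl 0) (i := .inr 0) (j := .inl (Fin.last l))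
    (by simp) (by simpa using hlast) (by simp) g (SymplecticGroup.symplectic_det hg)
  obtain ⟨E₁, a1, b1⟩ := exists_row x hx
  obtain ⟨F₁, a2, b2⟩ := exists_row y hy
  obtain ⟨h, eh⟩ : ∃ h, h = E₁ * g * F₁ᵀ := ⟨_, rfl⟩
  have hh : (h *ᵥ ep l) (.inl 0) = 1 := by
    have : (h *ᵥ ep l) (.inl 0) = ep l ⬝ᵥ h *ᵥ ep l := by
      rw [ep, single_dotProduct, one_mul]
    rw [this, eh, ← mulVec_mulVec, mulVec_transpose, b2, dotProduct_mulVec, ← vecMul_vecMul, b1,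
      hxy]
  obtain ⟨F₂, a3, b3⟩ := exists_row _ hh
  obtain ⟨F₂', a4, b4, c4⟩ := a3.inv hJ
  have b4' : F₂'ᵀ * F₂ᵀ = 1 := by rw [← transpose_mul, b4, transpose_one]
  have c4' : F₂ᵀ * F₂'ᵀ = 1 := by rw [← transpose_mul, c4, transpose_one]
  obtain ⟨k, ek⟩ : ∃ k, k = F₂'ᵀ * h := ⟨_, rfl⟩
  have hk : k *ᵥ ep l = ep l := by
    rw [ek, ← mulVec_mulVec, ← b3, ← mulVec_transpose, mulVec_mulVec, b4', one_mulVec]
  have hk' : (ep l ᵥ* k) (.inl 0) = 1 := by
    have : (ep l ᵥ* k) (.inl 0) = ep l ᵥ* k ⬝ᵥ ep l := by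
      rw [ep, dotProduct_single, mul_one]
    rw [this, ← dotProduct_mulVec, hk]
    simp [ep]
  obtain ⟨E₂, a5, b5⟩ := exists_row _ hk'
  obtain ⟨E₂', a6, b6, c6⟩ := a5.inv hJ
  obtain ⟨E₁', a7, b7, c7⟩ := a1.inv hJ
  obtain ⟨F₁', a8, b8, c8⟩ := a2.inv hJ
  have c8' : F₁ᵀ * F₁'ᵀ = 1 := by rw [← transpose_mul, c8, transpose_one]
  obtain ⟨m, em⟩ : ∃ m, m = k * E₂' := ⟨_, rfl⟩
  have m1 : m *ᵥ ep l = ep l := by rw [em, ← mulVec_mulVec, a6.fix hJ, hk]
  have m2 : ep l ᵥ* m = ep l := by rw [em, ← vecMul_vecMul, ← b5, vecMul_vecMul, b6, vecMul_one]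
  have hm : m ∈ symplecticGroup (Fin (l + 1)) ℤ := by
    rw [em, ek, eh]
    exact mul_mem (mul_mem (SymplecticGroup.transpose_mem (pos_le a4.mem))
      (mul_mem (mul_mem (pos_le a1.mem) hg) (SymplecticGroup.transpose_mem (pos_le a2.mem))))
      (pos_le a6.mem)
  have s1 := SymplecticGroup.mem_iff.1 hm
  have s2 := SymplecticGroup.mem_iff'.1 hm
  have m3 : m *ᵥ eq' l = eq' l := by
    have := congrArg (· *ᵥ ep l) s1
    simp only [← mulVec_mulVec] at this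
    rwa [mulVec_transpose, m2, J_ep] at this
  have m4 : eq' l ᵥ* m = eq' l := by
    have := congrArg (· *ᵥ ep l) s2
    simp only [← mulVec_mulVec] at this
    rwa [m1, J_ep, mulVec_transpose] at this
  have n1 : m * NN l = NN l := by rw [NN, Matrix.mul_add, mul_vecMulVec, mul_vecMulVec, m1, m3]
  have n2 : NN l * m = NN l := by rw [NN, Matrix.add_mul, vecMulVec_mul, vecMulVec_mul, m2, m4]
  have n3 : SS l * NN l = 0 := by
    rw [NN, Matrix.mul_add, mul_vecMulVec, mul_vecMulVec, SS_ep, SS_eq]; simp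
  have n4 : (NN l)ᵀ = NN l := by simp [NN]
  refine ⟨E₁', F₂, SS l * m * (SS l)ᵀ, E₂, F₁', a7, a3,
    SymplecticGroup.mem_iff.2 (corner_sp _ SS_mul' n3 n4 SS_J n1 s1), a5, a8, ?_⟩
  rw [mid, emb_eq _ _ SS_mul' n1 n2, em, ek, eh]
  calc g = (E₁' * E₁) * g * (F₁ᵀ * F₁'ᵀ) := by rw [c7, c8']; simp
    _ = E₁' * (F₂ᵀ * F₂'ᵀ) * (E₁ * g * F₁ᵀ) * (E₂' * E₂) * F₁'ᵀ := by
        rw [c4', c6]; simp only [mul_one, mul_assoc]
    _ = _ := by simp only [mul_assoc]

theorem mem_of_sp : ∀ (l : ℕ) (g : Matrix (Fin l ⊕ Fin l) (Fin l ⊕ Fin l) ℤ),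
    g ∈ symplecticGroup (Fin l) ℤ → g ∈ Submonoid.closure (posC l ∪ transpose '' posC l)
  | 0, g, _ => by rw [Subsingleton.elim g 1]; exact one_mem _
  | 1, g, h => by
    let e : Fin 1 ⊕ Fin 1 ≃ Fin 2 := finSumFinEquiv
    let φ := (reindexAlgEquiv ℤ ℤ e.symm).toMulEquiv.toMonoidHom
    have h1 : reindex e e g ∈ (Submonoid.closure (posC 1 ∪ transpose '' posC 1)).comap φ := by
      refine sl2_gen (fun t => ?_) (fun t => ?_)
        (by rw [det_reindex_self]; exact SymplecticGroup.det_eq_one h)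
      · refine Submonoid.subset_closure (Or.inl ⟨0, 0, t, Or.inr (Or.inr ?_)⟩)
        ext (i | i) (j | j) <;> fin_cases i <;> fin_cases j <;> rfl
      · refine Submonoid.subset_closure (Or.inr ⟨_, ⟨0, 0, t, Or.inr (Or.inr rfl)⟩, ?_⟩)
        ext (i | i) (j | j) <;> fin_cases i <;> fin_cases j <;> rfl
    simpa [φ] using h1
  | l + 2, g, h => by
    obtain ⟨p₁, q₁, m, p₂, q₂, a1, a2, a3, a4, a5, rfl⟩ := decomp (l := l + 1) (by omega) h
    exact mul_mem (mul_mem (mul_mem (mul_mem (left_le _ _ a1.mem)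
      (right_le _ _ (transpose_mem_closure a2.mem)))
      (union_map _ mid_pos mid_neg m (mem_of_sp (l + 1) m a3))) (left_le _ _ a4.mem))
      (right_le _ _ (transpose_mem_closure a5.mem))

theorem stepC (l : ℕ) (hl : 1 ≤ l) (h : UpC l 2) : UpC (l + 1) 2 := by
  intro g hg
  obtain ⟨p₁, q₁, m, p₂, q₂, a1, a2, a3, a4, a5, rfl⟩ := decomp hl (all_le hg)
  obtain ⟨a, ha, b, hb, c, hc, d, hd, rfl⟩ := mem_sq.1 (h (mem_of_sp l m a3))
  have ha' := mid_pos a ha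
  have hd' := mid_neg d hd
  obtain ⟨q', b1, e1⟩ := a2.conj (m := (mid l a)ᵀ)
    (SymplecticGroup.mem_iff'.1 (SymplecticGroup.transpose_mem (pos_le ha')))
    (by rw [mid_transpose]; exact emb_fix _ _ _ SS_ep)
  obtain ⟨p', b2, e2⟩ := a4.conj (m := mid l d) (SymplecticGroup.mem_iff'.1 (neg_le hd'))
    (emb_fix _ _ _ SS_ep)
  have e1' : q₁ᵀ * mid l a = mid l a * q'ᵀ := by
    simpa only [transpose_mul, transpose_transpose] using congrArg transpose e1
  refine mem_sq.2 ⟨p₁ * mid l a, mul_mem a1.mem ha', q'ᵀ * mid l b,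
    mul_mem (transpose_mem_closure b1.mem) (mid_neg b hb), mid l c * p',
    mul_mem (mid_pos c hc) b2.mem, mid l d * q₂ᵀ, mul_mem hd' (transpose_mem_closure a5.mem), ?_⟩
  simp only [map_mul]
  calc _ = p₁ * (q₁ᵀ * mid l a) * mid l b * mid l c * (mid l d * p₂) * q₂ᵀ := by
        simp only [mul_assoc]
    _ = _ := by rw [e1', e2]; simp only [mul_assoc]

end AC

theorem stepACSt : StepACSt :=
  ⟨AC.stepA, fun l hl => AC.stepC l (by omega),
    fun n g => ⟨AC.det_of_mem, AC.mem_of_det n g⟩,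
    fun l => le_antisymm AC.all_le (AC.mem_of_sp l)⟩

end Pool.Agent.Lib.MP_755cca_al.F
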