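import Pool.Agent.Lib.MP_755cca_al.F.Stmt

/-! The induction steps in types `B` and `D`. -/

open Matrix
open scoped Pointwise

namespace Pool.Agent.Lib.MP_755cca_al.F

namespace BD

theorem um_top {n : ℕ} {r : Fin n → Fin n → Prop} :
    Um r ≤ Um (fun _ _ : Fin n => True) :=
  Submonoid.closure_mono fun _ ⟨i, j, c, h, _, e⟩ => ⟨i, j, c, h, trivial, e⟩

theorem step_tv {n : ℕ} (i j : Fin n) (c : ℤ) :
    step n (transvection i j c) = transvection i.succ j.succ c := by
  ext a b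
  refine Fin.cases ?_ (fun a => ?_) a <;> refine Fin.cases ?_ (fun b => ?_) b <;>
    simp [step_apply, stepE, transvection, one_apply, single_apply, (Fin.succ_ne_zero _).symm]

theorem gen_two (g : Matrix (Fin 2) (Fin 2) ℤ) (hg : g.det = 1) :
    g ∈ Um (fun _ _ : Fin 2 => True) := by
  have h1 : ∀ t : ℤ, !![1, t; 0, 1] ∈ Um (fun _ _ : Fin 2 => True) := fun t =>
    Submonoid.subset_closure ⟨0, 1, t, by simp, trivial, by
      ext i j; fin_cases i <;> fin_cases j <;> simp [transvection]⟩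
  have h2 : ∀ t : ℤ, !![1, 0; t, 1] ∈ Um (fun _ _ : Fin 2 => True) := fun t =>
    Submonoid.subset_closure ⟨1, 0, t, by simp, trivial, by
      ext i j; fin_cases i <;> fin_cases j <;> simp [transvection]⟩
  have key : ∀ γ : SpecialLinearGroup (Fin 2) ℤ, γ.1 ∈ Um (fun _ _ : Fin 2 => True) := by
    intro γ
    have hγ : γ ∈ Subgroup.closure {ModularGroup.S, ModularGroup.T} := by
      rw [SpecialLinearGroup.SL2Z_generators]; trivial
    induction hγ using Subgroup.closure_induction'' with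
    | mem x hx =>
      rcases hx with rfl | rfl
      · simpa [ModularGroup.S] using mul_mem (mul_mem (h1 (-1)) (h2 1)) (h1 (-1))
      · simpa [ModularGroup.T] using h1 1
    | inv_mem x hx =>
      rcases hx with rfl | rfl
      · change adjugate !![0, -1; 1, 0] ∈ _
        simpa [adjugate_fin_two_of] using mul_mem (mul_mem (h1 1) (h2 (-1))) (h1 1)
      · change adjugate !![1, 1; 0, 1] ∈ _
        simpa [adjugate_fin_two_of] using h1 (-1)
    | one => exact one_mem _
    | mul x y _ _ hx hy => exact mul_mem hx hy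
  exact key ⟨g, hg⟩

theorem gen_all {n : ℕ} (hn : 2 ≤ n) : ∀ g : Matrix (Fin n) (Fin n) ℤ, g.det = 1 →
    g ∈ Um (fun _ _ : Fin n => True) := by
  induction n, hn using Nat.le_induction with
  | base => exact gen_two
  | succ n hn ih =>
    intro g hg
    obtain ⟨S, h1, h2⟩ := step_fin hn g (by simp [hg])
    obtain ⟨u₁, a1, v₁, a2, u₂, a3, v₂, a4, e⟩ := h2 S (Leads.refl _ _)
    rw [e]
    refine mul_mem (mul_mem (mul_mem (mul_mem (um_top a1) (um_top a2)) ?_) (um_top a3)) (um_top a4)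
    refine Um.map _ _ (fun i j c hij _ => ?_) (ih S (h1.trans hg))
    rw [step_tv]
    exact Submonoid.subset_closure ⟨_, _, c, by simpa using hij, trivial, rfl⟩

section Rel

variable {R : Type} [Ring R]

theorem rel_three {A B C : R} (h : A * B = C + B * A) (h1 : A * C = 0) (h2 : B * C = 0)
    (s t : ℤ) : (1 + s • A) * (1 + t • B) = (1 + t • B) * (1 + s • A) * (1 + (s * t) • C) := by
  simp only [add_mul, mul_add, one_mul, mul_one, smul_mul_assoc, mul_smul_comm, mul_assoc, h, h1,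
    h2, smul_zero, mul_zero, add_zero, smul_add, smul_smul, mul_comm t s]
  abel

theorem rel_four {A B : R} (h1 : A * A = 0) (h2 : B * B = 0) (h3 : A * (B * A) = A)
    (h4 : B * (A * B) = B) :
    ((1 + (1 : ℤ) • A) * (1 + (-1 : ℤ) • B) * (1 + (1 : ℤ) • A)) ^ 4 = 1 := by
  have k1 : ∀ x, A * (A * x) = 0 := fun x => by rw [← mul_assoc, h1, zero_mul]
  have k2 : ∀ x, B * (B * x) = 0 := fun x => by rw [← mul_assoc, h2, zero_mul]
  have e1 : (1 + (1 : ℤ) • A) * (1 + (-1 : ℤ) • B) * (1 + (1 : ℤ) • A)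
      = 1 + A - B - A * B - B * A := by
    simp only [one_smul, neg_smul, add_mul, mul_add, one_mul, mul_one, mul_neg, neg_mul,
      mul_assoc, h1, h3]
    abel
  have e2 : (1 + A - B - A * B - B * A) * (1 + A - B - A * B - B * A)
      = 1 - (A * B + B * A) - (A * B + B * A) := by
    simp only [add_mul, mul_add, sub_mul, mul_sub, one_mul, mul_one, mul_assoc, h1, h2, h3, h4,
      k1, k2, mul_zero]
    abel
  have e3 : (1 - (A * B + B * A) - (A * B + B * A)) * (1 - (A * B + B * A) - (A * B + B * A))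
      = 1 := by
    simp only [add_mul, mul_add, sub_mul, mul_sub, one_mul, mul_one, mul_assoc, h3, h4,
      k1, k2, mul_zero]
    abel
  rw [e1, show 4 = 2 * 2 from rfl, pow_mul, pow_two, pow_two, e2, e3]

variable {l : ℕ} {e f : Fin l → R}

theorem fe_same (h : CAR e f) (i : Fin l) : f i * e i = 1 - e i * f i := by
  have := h.ef i i
  rw [if_pos rfl, Int.cast_one] at this
  exact eq_sub_of_add_eq' this

theorem aba (h : CAR e f) {i j : Fin l} (hij : i ≠ j) :
    e i * f j * (e j * f i * (e i * f j)) = e i * f j := by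
  have a1 : f j * f j = 0 := h.f0 j
  have a2 : e i * e i = 0 := h.e0 i
  calc e i * f j * (e j * f i * (e i * f j))
      = e i * (f j * e j) * (f i * e i) * f j := by noncomm_ring
    _ = e i * f j - (e i * e i) * f i * f j - e i * e j * (f j * f j)
          + e i * e j * (f j * e i) * (f i * f j) := by
        rw [fe_same h i, fe_same h j]; noncomm_ring
    _ = e i * f j - (e i * e j) * e i * (f j * (f i * f j)) := by
        rw [a1, a2, h.fe hij]; noncomm_ring
    _ = _ := by rw [h.ff i j, mul_neg, ← mul_assoc (f j), a1]; simp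

theorem pres (hP : PresSt) (h : CAR e f) (hl : 3 ≤ l) :
    ∃ φ : SpecialLinearGroup (Fin l) ℤ →* R, ∀ i j (hij : i ≠ j) t,
      φ ⟨transvection i j t, det_transvection_of_ne i j hij t⟩ = 1 + t • (e i * f j) := by
  refine hP R l hl (fun i j t => 1 + t • (e i * f j)) (fun i j _ => by simp)
    (fun i j hij s t => (sq_zero_mul (h.sq_ef hij) s t).symm) ?_ ?_ ?_
  · intro i j k m _ _ hjk him s t
    have : e i * f j * (e k * f m) = e k * f m * (e i * f j) := by
      calc e i * f j * (e k * f m) = e i * (f j * e k) * f m := by noncomm_ring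
        _ = -((e i * e k) * (f j * f m)) := by rw [h.fe hjk.symm]; noncomm_ring
        _ = e k * (-(e i * f m)) * f j := by rw [h.ee i k, h.ff j m]; noncomm_ring
        _ = _ := by rw [← h.fe him]; noncomm_ring
    simp only [add_mul, mul_add, one_mul, mul_one, smul_mul_assoc, mul_smul_comm, this, smul_add,
      smul_smul, mul_comm t s]
    abel
  · intro i j k hij hjk hik s t
    refine rel_three ?_ ?_ ?_ s t
    · calc e i * f j * (e j * f k) = e i * (f j * e j) * f k := by noncomm_ring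
        _ = e i * f k - (e i * e j) * (f j * f k) := by rw [fe_same h j]; noncomm_ring
        _ = e i * f k + e j * (-(e i * f k)) * f j := by rw [h.ee i j, h.ff j k]; noncomm_ring
        _ = _ := by rw [← h.fe hik]; noncomm_ring
    · calc e i * f j * (e i * f k) = e i * (f j * e i) * f k := by noncomm_ring
        _ = -((e i * e i) * (f j * f k)) := by rw [h.fe hij]; noncomm_ring
        _ = 0 := by rw [h.e0]; simp
    · calc e j * f k * (e i * f k) = e j * (f k * e i) * f k := by noncomm_ring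
        _ = -((e j * e i) * (f k * f k)) := by rw [h.fe hik]; noncomm_ring
        _ = 0 := by rw [h.f0]; simp
  · intro i j hij
    exact rel_four (h.sq_ef hij) (h.sq_ef hij.symm) (aba h hij) (aba h hij.symm)

end Rel

theorem map_mk {M : Type} [Monoid M] {n : ℕ} (φ : SpecialLinearGroup (Fin n) ℤ →* M)
    {A B : Matrix (Fin n) (Fin n) ℤ} (hA : A.det = 1) (hB : B.det = 1) (h : (A * B).det = 1) :
    φ ⟨A * B, h⟩ = φ ⟨A, hA⟩ * φ ⟨B, hB⟩ :=
  φ.map_mul ⟨A, hA⟩ ⟨B, hB⟩

theorem lift_um {M : Type} [Monoid M] {n : ℕ} (φ : SpecialLinearGroup (Fin n) ℤ →* M)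
    (N : Submonoid M) {r : Fin n → Fin n → Prop}
    (h : ∀ i j (hij : i ≠ j) t, r i j →
      φ ⟨transvection i j t, det_transvection_of_ne i j hij t⟩ ∈ N)
    {u : Matrix (Fin n) (Fin n) ℤ} (hu : u ∈ Um r) : ∀ hd : u.det = 1, φ ⟨u, hd⟩ ∈ N := by
  induction hu using Submonoid.closure_induction with
  | mem A hA =>
    obtain ⟨i, j, c, hij, hr, rfl⟩ := hA
    exact fun _ => h i j hij c hr
  | one =>
    intro hd
    have : φ ⟨1, hd⟩ = 1 := φ.map_one
    rw [this]; exact one_mem _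
  | mul A B hA hB ha hb =>
    intro hd
    rw [map_mk φ (Um.det hA) (Um.det hB)]; exact mul_mem (ha _) (hb _)

variable {R : Type} [Ring R] {l : ℕ} {e f : Fin (l + 1) → R}

/-- the family without its first member -/
def tl (e : Fin (l + 1) → R) : Fin l → R := fun i => e i.succ

theorem car_tl (h : CAR e f) : CAR (tl e) (tl f) :=
  ⟨fun _ _ => h.ee _ _, fun _ => h.e0 _, fun _ _ => h.ff _ _, fun _ => h.f0 _,
    fun i j => by simpa [tl] using h.ef i.succ j.succ⟩

theorem Lv_tl : Lv (tl e) (tl f) ≤ Lv e f :=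
  Submonoid.closure_mono fun _ ⟨p, q, t, h, hg⟩ => ⟨p.succ, q.succ, t, by simpa using h, hg⟩

theorem lev (hP : PresSt) (h : CAR e f) (hl : 2 ≤ l) :
    (Lv e f : Set R) ⊆
      (UL e f : Set R) * (UL f e * ((Lv (tl e) (tl f) : Set R) * (UL e f * UL f e))) := by
  obtain ⟨φ, hφ⟩ := pres hP h (by omega)
  intro x hx
  have : ∃ g, φ g = x := by
    induction hx using Submonoid.closure_induction with
    | mem x hx =>
      obtain ⟨p, q, t, hpq, rfl⟩ := hx
      exact ⟨_, hφ p q hpq t⟩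
    | one => exact ⟨1, map_one _⟩
    | mul a b _ _ ha hb =>
      obtain ⟨g, rfl⟩ := ha
      obtain ⟨g', rfl⟩ := hb
      exact ⟨g * g', map_mul _ _ _⟩
  obtain ⟨⟨g, hg⟩, rfl⟩ := this
  obtain ⟨S, h1, h2⟩ := step_fin hl g (by simp [hg])
  obtain ⟨u₁, a1, v₁, a2, u₂, a3, v₂, a4, e1⟩ := h2 S (Leads.refl _ _)
  have hS : (step l S).det = 1 := (det_step l S).trans (h1.trans hg)
  have p1 : ∀ u ∈ Um (· < ·), ∀ hd, φ ⟨u, hd⟩ ∈ UL e f := fun u hu =>
    lift_um φ _ (fun i j hij t hr => by rw [hφ i j hij]; exact mem_UL hr t) hu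
  have p2 : ∀ u ∈ Um (flip (· < ·)), ∀ hd, φ ⟨u, hd⟩ ∈ UL f e := fun u hu =>
    lift_um φ _ (fun i j hij t hr => by
      rw [hφ i j hij, h.symm.fe hij.symm, smul_neg, ← neg_smul]; exact mem_UL hr _) hu
  have p3 : φ ⟨step l S, hS⟩ ∈ Lv (tl e) (tl f) := by
    refine lift_um (r := fun i j => i ≠ 0 ∧ j ≠ 0) φ _ (fun i j hij t hr => ?_) ?_ hS
    · obtain ⟨i, rfl⟩ := Fin.exists_succ_eq.2 hr.1
      obtain ⟨j, rfl⟩ := Fin.exists_succ_eq.2 hr.2
      rw [hφ _ _ hij]
      exact mem_Lv (e := tl e) (f := tl f) (by simpa using hij) t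
    · refine Um.map _ _ (fun i j c hij _ => ?_) (gen_all hl S (h1.trans hg))
      rw [step_tv]
      exact Submonoid.subset_closure ⟨_, _, c, by simpa using hij,
        ⟨Fin.succ_ne_zero _, Fin.succ_ne_zero _⟩, rfl⟩
  have d1 := Um.det a1
  have d2 := Um.det a2
  have d3 := Um.det a3
  have d4 := Um.det a4
  subst e1
  rw [map_mk φ (by simp [det_mul, d1, d2, d3, hS]) d4, map_mk φ (by simp [det_mul, d1, d2, hS]) d3,
    map_mk φ (by simp [det_mul, d1, d2]) hS, map_mk φ d1 d2]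
  exact ⟨_, p1 _ a1 d1, _, ⟨_, p2 _ a2 d2, _, ⟨_, p3, _, ⟨_, p1 _ a3 d3, _, p2 _ a4 d4, rfl⟩, rfl⟩,
    rfl⟩, by simp only [mul_assoc]⟩

theorem two_par {M : Type} [Monoid M] {U V H L : Submonoid M} {K : Set M}
    (hH : (H : Set M) * (U * (V * (H * (U * V)))) ⊆ U * (V * ({1} * (U * V))))
    (hL : (L : Set M) * (U * (V * ({1} * (U * V)))) ⊆ U * (V * (K * (U * V))))
    (hK : K ⊆ H) : L ≤ Stab (Om U V) := by
  intro x hx y hy
  have h2 := hL ⟨x, hx, y, hy, rfl⟩
  refine hH ⟨1, one_mem _, x * y, ?_, one_mul _⟩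
  exact Set.mul_subset_mul_left (Set.mul_subset_mul_left (Set.mul_subset_mul_right hK)) h2

theorem of_up {M : Type} [Monoid M] {pos neg : Set M} (h : Up pos neg 2) :
    (Submonoid.closure (pos ∪ neg) : Set M) ⊆ (Submonoid.closure pos : Set M) *
      (Submonoid.closure neg * ({1} * (Submonoid.closure pos * Submonoid.closure neg))) := by
  intro x hx
  obtain ⟨a, ha, b, hb, c, hc, d, hd, rfl⟩ := mem_sq.1 (h hx)
  exact ⟨a, ha, _, ⟨b, hb, _, ⟨1, rfl, _, ⟨c, hc, d, hd, rfl⟩, rfl⟩, rfl⟩, by simp [mul_assoc]⟩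

theorem to_up {M : Type} [Monoid M] {pos neg : Set M}
    (h : Submonoid.closure (pos ∪ neg) ≤
      Stab (Om (Submonoid.closure pos) (Submonoid.closure neg))) : Up pos neg 2 :=
  fun g hg => mem_sq.2 (Om_of_le h g hg)

theorem pairs_all (h : CAR e f) (hl : 2 ≤ l) {S : Submonoid R} (hS : Lv e f ≤ S)
    (hJ : ∀ i j : Fin l, i < j → ∀ t : ℤ, 1 + t • (f i.succ * f j.succ) ∈ S)
    {i j : Fin (l + 1)} (hij : i < j) (t : ℤ) : 1 + t • (f i * f j) ∈ S := by
  have hJ' : ∀ i j : Fin l, i ≠ j → ∀ t : ℤ, 1 + t • (f i.succ * f j.succ) ∈ S := by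
    intro i j hij t
    rcases lt_or_gt_of_ne hij with h1 | h1
    · exact hJ i j h1 t
    · rw [h.ff, smul_neg, ← neg_smul]; exact hJ j i h1 _
  obtain ⟨j, rfl⟩ := Fin.exists_succ_eq.2 (Fin.pos_iff_ne_zero.1 (lt_of_le_of_lt (Fin.zero_le i) hij))
  rcases Fin.eq_zero_or_eq_succ i with rfl | ⟨i, rfl⟩
  · have : Nontrivial (Fin l) := Fin.nontrivial_iff_two_le.2 hl
    obtain ⟨r, hr⟩ := exists_ne j
    rw [h.ff, smul_neg, ← neg_smul]
    exact move_pair h hS (Fin.succ_ne_zero r) (by simpa using hr.symm) (Fin.succ_ne_zero j)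
      (hJ' j r hr.symm) _
  · exact hJ i j (by simpa using hij) t

/-- right factors in the unipotent radical, type `D` -/
def Wd (e f : Fin (l + 1) → R) : Submodule ℤ R :=
  Submodule.span ℤ {b | ∃ k : Fin (l + 1), 0 < k ∧ (b = e k ∨ b = f k)}

/-- generators of the unipotent radical, type `D` -/
def genM (e f : Fin (l + 1) → R) : Set R := {g | ∃ b ∈ Wd e f, g = 1 + e 0 * b}

theorem Wd_vec {k : Fin (l + 1)} (hk : 0 < k) {z : R} (hz : z = e k ∨ z = f k) : z ∈ Wd e f :=
  Submodule.subset_span ⟨k, hk, hz⟩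

theorem genM_even (h : CAR e f) {j k : Fin (l + 1)} (hj : 0 < j) (hk : 0 < k) {x y : R}
    (hx : x = e j ∨ x = f j) (hy : y = e k ∨ y = f k) (hxy : y * x = -(x * y)) (t : ℤ) :
    ∀ g ∈ genM e f, (1 + t • (x * y)) * g * (1 + (-t) • (x * y)) ∈ genM e f := by
  rintro _ ⟨b, hb, rfl⟩
  obtain ⟨h1, -⟩ := sq_zero_inv (anti_sq (vec_sq h hx) hxy) t
  refine ⟨(1 + t • (x * y)) * b * (1 + (-t) • (x * y)), ?_, ?_⟩
  · induction hb using Submodule.span_induction with
    | mem b hb =>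
      obtain ⟨r, hr, hb⟩ := hb
      obtain ⟨cx, hcx⟩ := vec_anti h hx hb
      obtain ⟨cy, hcy⟩ := vec_anti h hy hb
      rw [conj_even t (vec_sq h hx) (vec_sq h hy) hxy hcx hcy]
      exact sub_mem (add_mem (Wd_vec hr hb) (Submodule.smul_mem _ _ (Wd_vec hj hx)))
        (Submodule.smul_mem _ _ (Wd_vec hk hy))
    | zero => simp
    | add b c _ _ h1 h2 => rw [mul_add (_ + _) b, add_mul (_ * b)]; exact add_mem h1 h2
    | smul s b _ h1 => rw [mul_smul_comm s, smul_mul_assoc s]; exact Submodule.smul_mem _ _ h1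
  · have : (1 + t • (x * y)) * e 0 = e 0 * (1 + t • (x * y)) := by
      have : x * y * e 0 = e 0 * (x * y) := by
        rw [mul_assoc, vec_e h hk hy, mul_neg, ← mul_assoc, vec_e h hj hx]; noncomm_ring
      rw [add_mul, mul_add, smul_mul_assoc, mul_smul_comm, this, one_mul, mul_one]
    rw [conj_one_add h1, ← mul_assoc, this]
    simp only [mul_assoc]

theorem genM_le (h : CAR e f) : genM e f ⊆ Submonoid.closure (rootsD e f) := by
  rintro _ ⟨b, hb, rfl⟩
  have z : ∀ b ∈ Wd e f, e 0 * b * e 0 = 0 := by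
    intro b hb
    induction hb using Submodule.span_induction with
    | mem b hb =>
      obtain ⟨r, hr, hb⟩ := hb
      rw [mul_assoc, vec_e h hr hb, mul_neg, ← mul_assoc, h.e0, zero_mul, neg_zero]
    | zero => simp
    | add b c _ _ h1 h2 => rw [mul_add, add_mul, h1, h2, add_zero]
    | smul s b _ h1 => rw [mul_smul_comm, smul_mul_assoc, h1, smul_zero]
  have key : ∀ t : ℤ, 1 + t • (e 0 * b) ∈ Submonoid.closure (rootsD e f) := by
    induction hb using Submodule.span_induction with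
    | mem b hb =>
      intro t
      obtain ⟨r, hr, rfl | rfl⟩ := hb
      · exact Submonoid.subset_closure ⟨0, r, t, hr, Or.inr rfl⟩
      · exact Submonoid.subset_closure ⟨0, r, t, hr, Or.inl rfl⟩
    | zero => intro t; simp
    | add b c hb hc h1 h2 =>
      intro t
      have h3 : e 0 * b * (e 0 * c) = 0 := by rw [← mul_assoc, z b hb, zero_mul]
      have := mul_mem (h1 t) (h2 t)
      simp only [mul_add, add_mul, one_mul, mul_one, smul_mul_assoc, mul_smul_comm, h3,
        smul_zero, add_zero] at this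
      rwa [mul_add, smul_add, ← add_assoc]
    | smul s b _ h1 => intro t; rw [mul_smul_comm, ← mul_smul]; exact h1 _
  simpa using key 1

theorem norm_of {s t : Set R}
    (h : ∀ x ∈ s, ∃ (z : R) (c : ℤ), z * z = 0 ∧ x = 1 + c • z ∧ ∀ c : ℤ, ∀ g ∈ t,
      (1 + c • z) * g * (1 + (-c) • z) ∈ t) :
    Norm (Submonoid.closure s) (Submonoid.closure t) := by
  refine Norm.of_gens fun x hx => ?_
  obtain ⟨z, c, hz, rfl, h3⟩ := h x hx
  obtain ⟨h1, h2⟩ := sq_zero_inv hz c
  refine ⟨_, h1, h2, fun g hg => ⟨Submonoid.subset_closure (h3 c g hg),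
    Submonoid.subset_closure ?_⟩⟩
  have := h3 (-c) g hg
  rwa [neg_neg] at this

theorem tlD (h : CAR e f) {x : R} (hx : x ∈ rootsD (tl e) (tl f) ∪ rootsD (tl f) (tl e)) :
    ∃ (i j : Fin l) (a b : R) (c : ℤ), (a = e i.succ ∨ a = f i.succ) ∧
      (b = e j.succ ∨ b = f j.succ) ∧ b * a = -(a * b) ∧ x = 1 + c • (a * b) := by
  rcases hx with ⟨i, j, t, hij, rfl | rfl⟩ | ⟨i, j, t, hij, rfl | rfl⟩
  · exact ⟨i, j, _, _, t, Or.inl rfl, Or.inr rfl, (car_tl h).fe hij.ne, rfl⟩
  · exact ⟨i, j, _, _, t, Or.inl rfl, Or.inl rfl, h.ee _ _, rfl⟩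
  · exact ⟨i, j, _, _, t, Or.inr rfl, Or.inl rfl, (car_tl h).symm.fe hij.ne, rfl⟩
  · exact ⟨i, j, _, _, t, Or.inr rfl, Or.inr rfl, h.ff _ _, rfl⟩

theorem norm_M (h : CAR e f) :
    Norm (Submonoid.closure (rootsD (tl e) (tl f) ∪ rootsD (tl f) (tl e)))
      (Submonoid.closure (genM e f)) := by
  refine norm_of fun x hx => ?_
  obtain ⟨i, j, a, b, c, ha, hb, hab, rfl⟩ := tlD h hx
  exact ⟨_, c, anti_sq (vec_sq h ha) hab, rfl,
    fun c => genM_even h (Fin.succ_pos i) (Fin.succ_pos j) ha hb hab c⟩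

theorem rootsD_tl : rootsD (tl e) (tl f) ⊆ rootsD e f :=
  fun _ ⟨i, j, t, hij, hg⟩ => ⟨i.succ, j.succ, t, by simpa using hij, hg⟩

theorem rootsB_tl : rootsB (tl e) (tl f) ⊆ rootsB e f := by
  rintro g (hg | ⟨i, t, hg⟩)
  exacts [Or.inl (rootsD_tl hg), Or.inr ⟨i.succ, t, hg⟩]

theorem rootsD_cases {x : R} (hx : x ∈ rootsD e f) : x ∈ rootsD (tl e) (tl f) ∨
    ∃ (k : Fin (l + 1)) (z : R) (t : ℤ), 0 < k ∧ (z = e k ∨ z = f k) ∧ x = 1 + e 0 * (t • z) := by
  obtain ⟨i, j, t, hij, hg⟩ := hx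
  rcases Fin.eq_zero_or_eq_succ i with rfl | ⟨i, rfl⟩
  · rcases hg with rfl | rfl
    · exact Or.inr ⟨j, _, t, hij, Or.inr rfl, by rw [mul_smul_comm]⟩
    · exact Or.inr ⟨j, _, t, hij, Or.inl rfl, by rw [mul_smul_comm]⟩
  · obtain ⟨j, rfl⟩ :=
      Fin.exists_succ_eq.2 (Fin.pos_iff_ne_zero.1 (lt_trans (Fin.succ_pos i) hij))
    exact Or.inl ⟨i, j, t, by simpa using hij, hg⟩

theorem D_tl (h : CAR e f) : (Submonoid.closure (rootsD e f) : Set R) ⊆
    (Submonoid.closure (genM e f) : Set R) * Submonoid.closure (rootsD (tl e) (tl f)) := by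
  refine ((norm_M h).mono (Submonoid.closure_mono Set.subset_union_left)).closure_subset ?_
  intro x hx
  rcases rootsD_cases hx with h1 | ⟨k, z, t, hk, hz, rfl⟩
  · exact Or.inr (Submonoid.subset_closure h1)
  · exact Or.inl (Submonoid.subset_closure ⟨_, Submodule.smul_mem _ _ (Wd_vec hk hz), rfl⟩)

theorem Lv_le_D {l : ℕ} {e f : Fin l → R} (h : CAR e f) :
    Lv e f ≤ Submonoid.closure (rootsD e f ∪ rootsD f e) := by
  refine Submonoid.closure_le.2 ?_
  rintro _ ⟨p, q, t, hpq, rfl⟩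
  rcases lt_or_gt_of_ne hpq with h1 | h1
  · exact Submonoid.subset_closure (Or.inl ⟨p, q, t, h1, Or.inl rfl⟩)
  · rw [h.symm.fe hpq.symm, smul_neg, ← neg_smul]
    exact Submonoid.subset_closure (Or.inr ⟨q, p, -t, h1, Or.inl rfl⟩)

theorem stepD (hP : PresSt) (hl : 2 ≤ l) (h : CAR e f)
    (ih : Up (rootsD (tl e) (tl f)) (rootsD (tl f) (tl e)) 2) :
    Up (rootsD e f) (rootsD f e) 2 := by
  have h0 := norm_M h.symm
  rw [Set.union_comm] at h0
  have hH := parabolic (K := {1})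
    (K' := Submonoid.closure (rootsD (tl e) (tl f) ∪ rootsD (tl f) (tl e))) (norm_M h) h0
    (D_tl h) (D_tl h.symm) (Submonoid.closure_mono Set.subset_union_left)
    (Submonoid.closure_mono Set.subset_union_right) (Submonoid.closure_le.2 (genM_le h))
    (Submonoid.closure_le.2 (genM_le h.symm)) (Submonoid.closure_mono rootsD_tl)
    (Submonoid.closure_mono rootsD_tl) (by simp) subset_rfl (of_up ih)
  have hL := parabolic (K' := {1}) (norm_D h) (Lv_symm h ▸ norm_D h.symm) (D_subset h)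
    (D_subset h.symm) UL_le (Lv_symm h ▸ UL_le) (Submonoid.closure_le.2 (genD_le h))
    (Submonoid.closure_le.2 (genD_le h.symm)) UL_le_D UL_le_D Lv_tl (by simp) (lev hP h hl)
  have hS := two_par hH hL (Lv_le_D (car_tl h))
  have hJ := le_Stab_of hH
  refine to_up (Submonoid.closure_le.2 ?_)
  rintro g (hg | ⟨i, j, t, hij, rfl | rfl⟩)
  · exact le_Stab_Om _ _ (Submonoid.subset_closure hg)
  · exact hS (Lv_le h (mem_Lv hij.ne t))
  · exact pairs_all h hl hS (fun i j hij t =>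
      hJ (Submonoid.subset_closure (Or.inr ⟨i, j, t, hij, Or.inr rfl⟩))) hij t

theorem norm_J (h : CAR e f) {m : Fin (l + 1)} (hm : ∀ i : Fin l, m ≤ i.succ) :
    Norm (Submonoid.closure (rootsB (tl e) (tl f) ∪ rootsB (tl f) (tl e)))
      (Submonoid.closure (genN e f m)) := by
  refine norm_of fun x hx => ?_
  have ev : x ∈ rootsD (tl e) (tl f) ∪ rootsD (tl f) (tl e) → ∃ (z : R) (c : ℤ), z * z = 0 ∧
      x = 1 + c • z ∧ ∀ c : ℤ, ∀ g ∈ genN e f m,
        (1 + c • z) * g * (1 + (-c) • z) ∈ genN e f m := by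
    intro hx
    obtain ⟨i, j, a, b, c, ha, hb, hab, rfl⟩ := tlD h hx
    exact ⟨_, c, anti_sq (vec_sq h ha) hab, rfl, fun c => genN_even h (hm i) (hm j) ha hb hab c⟩
  rcases hx with (hx | ⟨i, t, rfl⟩) | (hx | ⟨i, t, rfl⟩)
  · exact ev (Or.inl hx)
  · exact ⟨_, t, h.e0 _, rfl, fun c => genN_odd h (hm i) (Or.inl rfl) c⟩
  · exact ev (Or.inr hx)
  · exact ⟨_, t, h.f0 _, rfl, fun c => genN_odd h (hm i) (Or.inr rfl) c⟩

theorem B_tl (h : CAR e f) {m : Fin (l + 1)} (h0 : 0 < m) (hm : ∀ i : Fin l, m ≤ i.succ) :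
    (Submonoid.closure (rootsB e f) : Set R) ⊆
    (Submonoid.closure (genN e f m) : Set R) * Submonoid.closure (rootsB (tl e) (tl f)) := by
  refine ((norm_J h hm).mono (Submonoid.closure_mono Set.subset_union_left)).closure_subset ?_
  rintro x (hx | ⟨i, t, rfl⟩)
  · rcases rootsD_cases hx with h1 | ⟨k, z, t, hk, hz, rfl⟩
    · exact Or.inr (Submonoid.subset_closure (Or.inl h1))
    · exact Or.inl (Submonoid.subset_closure
        ⟨0, h0, _, Submodule.smul_mem _ _ (Wb_vec hk hz), rfl⟩)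
  · rcases Fin.eq_zero_or_eq_succ i with rfl | ⟨i, rfl⟩
    · exact Or.inl (Submonoid.subset_closure ⟨0, h0, t • 1, Submodule.smul_mem _ _ (Wb_one 0),
        by rw [mul_smul_comm, mul_one]⟩)
    · exact Or.inr (Submonoid.subset_closure (Or.inr ⟨i, t, rfl⟩))

theorem stepB (hP : PresSt) (hl : 2 ≤ l) (h : CAR e f)
    (ih : Up (rootsB (tl e) (tl f)) (rootsB (tl f) (tl e)) 2) :
    Up (rootsB e f) (rootsB f e) 2 := by
  let z : Fin l := ⟨0, by omega⟩
  have hm : ∀ i : Fin l, z.succ ≤ i.succ := fun i => by simp [z, Fin.le_def]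
  have h0 := norm_J h.symm hm
  rw [Set.union_comm] at h0
  have hH := parabolic (K := {1})
    (K' := Submonoid.closure (rootsB (tl e) (tl f) ∪ rootsB (tl f) (tl e))) (norm_J h hm) h0
    (B_tl h z.succ_pos hm) (B_tl h.symm z.succ_pos hm)
    (Submonoid.closure_mono Set.subset_union_left)
    (Submonoid.closure_mono Set.subset_union_right) (Submonoid.closure_le.2 (genN_le h))
    (Submonoid.closure_le.2 (genN_le h.symm)) (Submonoid.closure_mono rootsB_tl)
    (Submonoid.closure_mono rootsB_tl) (by simp) subset_rfl (of_up ih)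
  have hL := parabolic (K' := {1}) (norm_B h) (Lv_symm h ▸ norm_B h.symm) (B_subset h)
    (B_subset h.symm) UL_le (Lv_symm h ▸ UL_le) (Submonoid.closure_le.2 (genB_le h))
    (Submonoid.closure_le.2 (genB_le h.symm)) (UL_le_D.trans rootsD_le_B)
    (UL_le_D.trans rootsD_le_B) Lv_tl (by simp) (lev hP h hl)
  have hS := two_par hH hL ((Lv_le_D (car_tl h)).trans (Submonoid.closure_mono
    (Set.union_subset_union Set.subset_union_left Set.subset_union_left)))
  have hJ := le_Stab_of hH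
  refine to_up (Submonoid.closure_le.2 ?_)
  rintro g (hg | ⟨i, j, t, hij, rfl | rfl⟩ | ⟨i, t, rfl⟩)
  · exact le_Stab_Om _ _ (Submonoid.subset_closure hg)
  · exact hS (Lv_le h (mem_Lv hij.ne t))
  · exact pairs_all h hl hS (fun i j hij t =>
      hJ (Submonoid.subset_closure (Or.inr (Or.inl ⟨i, j, t, hij, Or.inr rfl⟩)))) hij t
  · have key : ∀ (i : Fin l) (t : ℤ), 1 + t • f i.succ ∈
        Stab (Om (Submonoid.closure (rootsB e f)) (Submonoid.closure (rootsB f e))) :=
      fun i t => hJ (Submonoid.subset_closure (Or.inr (Or.inr ⟨i, t, rfl⟩)))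
    rcases Fin.eq_zero_or_eq_succ i with rfl | ⟨i, rfl⟩
    · exact move_one h hS (Fin.succ_ne_zero z) (key z) t
    · exact key i t

end BD

theorem stepBDSt : StepBDSt := fun hP =>
  ⟨fun _ hl ih R _ _ _ h => BD.stepB hP hl h (ih R _ _ (BD.car_tl h)),
    fun _ hl ih R _ _ _ h => BD.stepD hP (by omega) h (ih R _ _ (BD.car_tl h))⟩

end Pool.Agent.Lib.MP_755cca_al.F
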