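import Pool.Agent.Lib.MP_755cca_al.F.StepE0

/-! Type `E` from type `A`. -/

open Matrix
open scoped Pointwise

namespace Pool.Agent.Lib.MP_755cca_al.F.SE

open SA

/-- roots of the radical -/
def Rad (n : ℕ) (s : ℤ) (J : Fin 8 → Prop) (a : Q8) : Prop :=
  (∀ i, 0 ≤ s * a i ∧ (n ≤ i.val → a i = 0)) ∧ ∃ i, ¬ J i ∧ a i ≠ 0

/-- roots of the Levi factor -/
def Lev (J : Fin 8 → Prop) (a : Q8) : Prop := ∀ i, ¬ J i → a i = 0

/-- roots of the Levi factor of sign `s` -/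
def Uni (s : ℤ) (J : Fin 8 → Prop) (a : Q8) : Prop := (∀ i, 0 ≤ s * a i) ∧ Lev J a

theorem norm_rad (hR : RelESt) {n : ℕ} {s : ℤ} (hs : s = 1 ∨ s = -1) {J : Fin 8 → Prop}
    (hJ : ∀ i, J i → i.val < n) : Norm (Xs (Lev J)) (Xs (Rad n s J)) := by
  refine norm_Xs hR ?_ ?_
  · rintro a b - - hL ⟨-, i, hi, hb⟩ rfl
    exact hb (by simp [hL i hi])
  · rintro a b ha hb hL ⟨h1, i, hi, h2⟩ h
    have h3 := hL i hi
    have h4 := (h1 i).1
    refine ⟨fun j => ⟨?_, fun hj => ?_⟩, i, hi, by simpa [h3] using h2⟩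
    · rcases root_sign (root_add ha hb h) with h5 | h5
      · have h6 := h5 i
        have h7 := h5 j
        simp only [Pi.add_apply] at h6 h7 ⊢
        rcases hs with rfl | rfl <;> omega
      · have h6 := h5 i
        have h7 := h5 j
        simp only [Pi.add_apply] at h6 h7 ⊢
        rcases hs with rfl | rfl <;> omega
    · have h5 : a j = 0 := hL j fun hc => absurd (hJ j hc) (by omega)
      simp [h5, (h1 j).2 hj]

theorem uni_le_lev (s : ℤ) (J : Fin 8 → Prop) : Xs (Uni s J) ≤ Xs (Lev J) :=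
  Xs_le fun _ t ha h => mem_Xs ha h.2 t

theorem rad_le (n : ℕ) (s : ℤ) (J : Fin 8 → Prop) :
    Xs (Rad n s J) ≤ Submonoid.closure (rootsE n s) :=
  Xs_le fun a t ha h => Submonoid.subset_closure ⟨a, t, ⟨ha, h.1⟩, rfl⟩

theorem uni_le {n : ℕ} (s : ℤ) {J : Fin 8 → Prop} (hJ : ∀ i, J i → i.val < n) :
    Xs (Uni s J) ≤ Submonoid.closure (rootsE n s) :=
  Xs_le fun a t ha h => Submonoid.subset_closure ⟨a, t, ⟨ha, fun i =>
    ⟨h.1 i, fun hi => h.2 i fun hc => absurd (hJ i hc) (by omega)⟩⟩, rfl⟩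

theorem roots_sub (hR : RelESt) {n : ℕ} {s : ℤ} (hs : s = 1 ∨ s = -1) {J : Fin 8 → Prop}
    (hJ : ∀ i, J i → i.val < n) :
    (Submonoid.closure (rootsE n s) : Set ME) ⊆ (Xs (Rad n s J) : Set ME) * Xs (Uni s J) := by
  refine ((norm_rad hR hs hJ).mono (uni_le_lev s J)).closure_subset ?_
  rintro _ ⟨a, t, ⟨ha, h⟩, rfl⟩
  by_cases hL : Lev J a
  · exact Or.inr (mem_Xs ha ⟨fun i => (h i).1, hL⟩ t)
  · refine Or.inl (mem_Xs ha ⟨h, ?_⟩ t)
    by_contra hc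
    exact hL fun i hi => by
      by_contra h2
      exact hc ⟨i, hi, h2⟩

theorem parD (hR : RelESt) {n : ℕ} {J : Fin 8 → Prop} (hJ : ∀ i, J i → i.val < n) :
    ParD (Submonoid.closure (rootsE n 1)) (Submonoid.closure (rootsE n (-1)))
      (Xs (Rad n 1 J)) (Xs (Rad n (-1) J)) (Xs (Uni 1 J)) (Xs (Uni (-1) J)) (Xs (Lev J)) :=
  ⟨norm_rad hR (Or.inl rfl) hJ, norm_rad hR (Or.inr rfl) hJ, roots_sub hR (Or.inl rfl) hJ,
    roots_sub hR (Or.inr rfl) hJ, uni_le_lev _ _, uni_le_lev _ _, rad_le _ _ _, rad_le _ _ _,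
    uni_le _ hJ, uni_le _ hJ⟩

theorem lev_le (hR : RelESt) (N : Submonoid ME) (J : Fin 8 → Prop)
    (h : ∀ i, J i → ∀ t, xE (Pi.single i 1) t ∈ N ∧ xE (-Pi.single i 1) t ∈ N) :
    Xs (Lev J) ≤ N := by
  refine Xs_le fun a t ha hL => ?_
  rcases root_sign ha with h0 | h0
  · have := gen_simple hR N (s := 1) rfl J (fun i hi t => by simpa using (h i hi t).1) a ha h0 hL t
    simpa using this
  · have := gen_simple hR N (s := -1) rfl J (fun i hi t => by simpa using (h i hi t).2) (-a)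
      (root_neg ha) (fun i => by simpa using h0 i) (fun i hi => by simpa using hL i hi) t
    simpa using this

theorem x_mem_Img {m : ℕ} {β : Fin m → Q8} {φ : SpecialLinearGroup (Fin m) ℤ →* ME}
    (hφ : ∀ i j (h : i ≠ j) t, φ (tv i j h t) = xE (β j - β i) (eps (β j - β i) (β j) * t))
    {i j : Fin m} (h : i ≠ j) (t : ℤ) : xE (β j - β i) t ∈ Img φ := by
  have := tv_mem_Img φ i j h (eps (β j - β i) (β j) * t)
  rwa [hφ, ← mul_assoc, eps_sq, one_mul] at this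

/-- partial sums along the chain `0, 2, 3, …` -/
def bJ (k : ℕ) : Q8 := fun i => if 1 ≤ k ∧ i.val ≠ 1 ∧ i.val ≤ k then 1 else 0

theorem ip_bJ : ∀ i j : Fin 8, ip (bJ i) (bJ j) =
    (if i = j then 1 else 0) + (if i.val = 0 then 0 else 1) + (if j.val = 0 then -1 else 0) := by
  simp only [ip_eq]
  decide

theorem bJ_single : ∀ i : Fin 8, i.val ≠ 1 →
    bJ (max i.val 1) - bJ (i.val - 1) = Pi.single i 1 := by
  decide

theorem lev_J (hP : PresSt) (hR : RelESt) {n : ℕ} (h3 : 3 ≤ n) (h8 : n ≤ 8) (hA : UpA n 2) :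
    (Xs (Lev fun i => i.val ≠ 1 ∧ i.val < n) : Set ME) ⊆
      (Xs (Uni 1 fun i => i.val ≠ 1 ∧ i.val < n) : Set ME) *
        (Xs (Uni (-1) fun i => i.val ≠ 1 ∧ i.val < n) * ({1} *
          (Xs (Uni 1 fun i => i.val ≠ 1 ∧ i.val < n) *
            Xs (Uni (-1) fun i => i.val ≠ 1 ∧ i.val < n)))) := by
  obtain ⟨hr, φ, hφ⟩ := chain_hom hP hR h3 (fun k : Fin n => bJ k)
    (fun i => if i.val = 0 then 0 else 1) (fun j => if j.val = 0 then -1 else 0) (fun i j => by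
      have := ip_bJ (i.castLE h8) (j.castLE h8)
      simpa using this)
  have hL : ∀ i j : Fin n, Lev (fun i => i.val ≠ 1 ∧ i.val < n) (bJ j - bJ i) := by
    intro i j k hk
    have := i.2
    have := j.2
    simp only [bJ, Pi.sub_apply]
    split_ifs <;> omega
  refine subset_trans (b := (Img φ : Set ME)) (lev_le hR _ _ ?_) (sln_sub hA φ _ _ ?_ ?_)
  · rintro i ⟨h1, h2⟩ t
    have hne : (⟨i.val - 1, by omega⟩ : Fin n) ≠ ⟨max i.val 1, by omega⟩ := by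
      simp only [ne_eq, Fin.mk.injEq]; omega
    have a1 := x_mem_Img hφ hne t
    have a2 := x_mem_Img hφ hne.symm t
    simp only [] at a1 a2
    rw [← bJ_single i h1, neg_sub]
    exact ⟨a1, a2⟩
  · intro i j h t hij
    rw [hφ]
    refine mem_Xs (hr i j h) ⟨fun k => ?_, hL i j⟩ _
    have : i.val < j.val := hij
    simp only [bJ, Pi.sub_apply]
    split_ifs <;> omega
  · intro i j h t hij
    rw [hφ]
    refine mem_Xs (hr i j h) ⟨fun k => ?_, hL i j⟩ _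
    have : j.val < i.val := hij
    simp only [bJ, Pi.sub_apply]
    split_ifs <;> omega

/-- partial sums along the chain `1, 3` -/
def bK (k : Fin 3) : Q8 := fun i =>
  if (i.val = 1 ∧ 1 ≤ k.val) ∨ (i.val = 3 ∧ k.val = 2) then 1 else 0

theorem ip_bK : ∀ i j : Fin 3, ip (bK i) (bK j) =
    (if i = j then 1 else 0) + (if i.val = 0 then 0 else 1) + (if j.val = 0 then -1 else 0) := by
  simp only [ip_eq]
  decide

theorem bK_one : bK 1 - bK 0 = Pi.single 1 1 := by decide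

theorem bK_three : bK 2 - bK 1 = Pi.single 3 1 := by decide

theorem bK_lev (i j : Fin 3) : Lev (fun i => i = 1 ∨ i = 3) (bK j - bK i) := by
  unfold Lev
  revert i j
  decide

theorem bK_pos : ∀ i j : Fin 3, i < j → ∀ k, 0 ≤ 1 * (bK j - bK i) k := by decide

theorem bK_neg : ∀ i j : Fin 3, j < i → ∀ k, 0 ≤ -1 * (bK j - bK i) k := by decide

/-- the group on the nodes `1, 3`, with the corner on the node `3` -/
theorem lev_K (hP : PresSt) (hR : RelESt) (C : Submonoid ME)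
    (hC : ∀ t, xE (Pi.single 3 1) t ∈ C ∧ xE (-Pi.single 3 1) t ∈ C) :
    (Xs (Lev fun i => i = 1 ∨ i = 3) : Set ME) ⊆
      (Xs (Uni 1 fun i => i = 1 ∨ i = 3) : Set ME) * (Xs (Uni (-1) fun i => i = 1 ∨ i = 3) *
        (C * (Xs (Uni 1 fun i => i = 1 ∨ i = 3) * Xs (Uni (-1) fun i => i = 1 ∨ i = 3)))) := by
  obtain ⟨hr, φ, hφ⟩ := chain_hom hP hR le_rfl bK _ _ ip_bK
  have h1 : Xs (Lev fun i => i = 1 ∨ i = 3) ≤ Img φ := by
    refine lev_le hR _ _ ?_
    rintro i (rfl | rfl) t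
    · rw [← bK_one, neg_sub]
      exact ⟨x_mem_Img hφ (by decide) t, x_mem_Img hφ (by decide) t⟩
    · rw [← bK_three, neg_sub]
      exact ⟨x_mem_Img hφ (by decide) t, x_mem_Img hφ (by decide) t⟩
  intro x hx
  obtain ⟨g, -, rfl⟩ := h1 hx
  refine sl3_sub φ _ _ C (fun i j h t hij => ?_) (fun i j h t hij => ?_) (fun t => ?_)
    (fun t => ?_) g
  · rw [hφ]
    exact mem_Xs (hr i j h) ⟨bK_pos i j hij, bK_lev i j⟩ _
  · rw [hφ]
    exact mem_Xs (hr i j h) ⟨bK_neg i j hij, bK_lev i j⟩ _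
  · rw [hφ, bK_three]
    exact (hC _).1
  · rw [hφ, ← neg_sub, bK_three]
    exact (hC _).2

theorem lev_single {J : Fin 8 → Prop} {i : Fin 8} (hi : J i) (t : ℤ) :
    xE (Pi.single i 1) t ∈ Xs (Lev J) ∧ xE (-Pi.single i 1) t ∈ Xs (Lev J) := by
  have h : ∀ k, ¬ J k → (Pi.single i 1 : Q8) k = 0 := fun k hk =>
    Pi.single_eq_of_ne (fun e : k = i => hk (e ▸ hi)) _
  exact ⟨mem_Xs (ip_single i) h t,
    mem_Xs (root_neg (ip_single i)) (fun k hk => by simp [h k hk]) t⟩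

end Pool.Agent.Lib.MP_755cca_al.F.SE

namespace Pool.Agent.Lib.MP_755cca_al.F

open SA SE

theorem stepESt : StepESt := by
  intro hP hR _ n h6 h8 hA
  have hK : ∀ i : Fin 8, i = 1 ∨ i = 3 → i.val < n := by
    rintro i (rfl | rfl)
    · show 1 < n; omega
    · show 3 < n; omega
  have h3 : (3 : Fin 8).val ≠ 1 ∧ (3 : Fin 8).val < n := ⟨by decide, hK 3 (Or.inr rfl)⟩
  obtain ⟨s1, s2⟩ := abs_step (parD hR (J := fun i => i.val ≠ 1 ∧ i.val < n) fun i h => h.2)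
    (parD hR hK) (lev_J hP hR (by omega) h8 hA)
    (lev_K hP hR _ fun t => ⟨⟨(lev_single (Or.inr rfl) t).1, (lev_single h3 t).1⟩,
      ⟨(lev_single (Or.inr rfl) t).2, (lev_single h3 t).2⟩⟩)
  refine up_of_stab ?_
  rintro _ ⟨a, t, ⟨ha, h⟩, rfl⟩
  refine lev_le hR _ (fun i => i.val < n) (fun i hi t => ?_)
    (mem_Xs ha (fun i hi => (h i).2 (by omega)) t)
  by_cases h1 : i.val = 1
  · have h2 := lev_single (J := fun i => i = 1 ∨ i = 3) (i := i) (Or.inl (Fin.ext h1)) t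
    exact ⟨s2 h2.1, s2 h2.2⟩
  · have h2 := lev_single (J := fun i => i.val ≠ 1 ∧ i.val < n) (i := i) ⟨h1, hi⟩ t
    exact ⟨s1 h2.1, s1 h2.2⟩

end Pool.Agent.Lib.MP_755cca_al.F
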