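import Pool.Agent.Lib.MP_755cca_al.F.StepF1
import Pool.Agent.Lib.MP_755cca_al.F.StepE

/-! Type `F₄` from type `C₃`. -/

open Matrix
open scoped Pointwise

namespace Pool.Agent.Lib.MP_755cca_al.F.SF

open SA

/-- indices of the symplectic matrices -/
abbrev I6 : Type := Fin 3 ⊕ Fin 3

/-- the order along the chain -/
def e6 : I6 ≃ Fin 6 where
  toFun := Sum.elim ![0, 1, 2] ![5, 4, 3]
  invFun := ![.inl 0, .inl 1, .inl 2, .inr 2, .inr 1, .inr 0]
  left_inv := by decide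
  right_inv := by decide

/-- the root of a pair of indices -/
def rt (p q : I6) : Q8 := SE.bJ (e6 q) - SE.bJ (e6 p)

/-- its sign -/
def et (p q : I6) : ℤ := eps (rt p q) (SE.bJ (e6 q))

/-- relative sign of the two factors -/
def sg (p q : I6) : ℤ := if p.isLeft = q.isLeft then -1 else 1

theorem eps_if (a b : Q8) : eps a b = if SE.Bq a b % 2 = 0 then 1 else -1 := by
  rw [SE.eps_eq]
  split_ifs with h
  · rw [Int.negOnePow_even _ (Int.even_iff.2 h)]; rfl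
  · rw [Int.negOnePow_odd _ (Int.odd_iff.2 (by omega))]; rfl

theorem rt_flip : ∀ p q, flipE (rt p q) = rt q.swap p.swap := by decide

theorem rt_fix : ∀ p q, p ≠ q → (flipE (rt p q) = rt p q ↔ q = p.swap) := by decide

theorem et_sg : ∀ p q, p ≠ q → q ≠ p.swap → et q.swap p.swap * sg p q = et p q := by
  simp only [et, eps_if]
  decide

theorem rt_r6 : ∀ p q, p ≠ q → R6 (rt p q) ∧ rt p q 1 = 0 := by
  simp only [R6, ip_eq]
  decide

theorem rt_cls : ∀ a b c d e : Fin 3, (a - 1 : ℤ) ^ 2 + (b - 1 : ℤ) ^ 2 + (c - 1 : ℤ) ^ 2 +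
    (d - 1 : ℤ) ^ 2 + (e - 1 : ℤ) ^ 2 + (a + b + c + d + e - 5 : ℤ) ^ 2 = 2 →
    ∃ p q, p ≠ q ∧ (![a - 1, 0, a + b - 2, a + b + c - 3, a + b + c + d - 4,
      a + b + c + d + e - 5, 0, 0] : Q8) = rt p q := by
  decide +kernel

theorem small {x : ℤ} (h : x ^ 2 ≤ 2) : ∃ a : Fin 3, x = a - 1 := by
  have h1 : -1 ≤ x := by nlinarith
  have h2 : x ≤ 1 := by nlinarith
  exact ⟨⟨(x + 1).toNat, by omega⟩, by simp only []; omega⟩

theorem exists_rt {g : Q8} (hg : R6 g) (h1 : g 1 = 0) : ∃ p q, p ≠ q ∧ g = rt p q := by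
  have hq := hg.1
  rw [ip_eq, h1, hg.2.1, hg.2.2] at hq
  have e : g 0 ^ 2 + (g 2 - g 0) ^ 2 + (g 3 - g 2) ^ 2 + (g 4 - g 3) ^ 2 + (g 5 - g 4) ^ 2 +
      g 5 ^ 2 = 2 := by linear_combination hq
  have s0 := sq_nonneg (g 0)
  have s1 := sq_nonneg (g 2 - g 0)
  have s2 := sq_nonneg (g 3 - g 2)
  have s3 := sq_nonneg (g 4 - g 3)
  have s4 := sq_nonneg (g 5 - g 4)
  have s5 := sq_nonneg (g 5)
  obtain ⟨a, ha⟩ := small (x := g 0) (by linarith)
  obtain ⟨b, hb⟩ := small (x := g 2 - g 0) (by linarith)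
  obtain ⟨c, hc⟩ := small (x := g 3 - g 2) (by linarith)
  obtain ⟨d, hd⟩ := small (x := g 4 - g 3) (by linarith)
  obtain ⟨f, hf⟩ := small (x := g 5 - g 4) (by linarith)
  have e5 : g 5 = a + b + c + d + f - 5 := by omega
  obtain ⟨p, q, h, k⟩ := rt_cls a b c d f (by rw [← ha, ← hb, ← hc, ← hd, ← hf, ← e5, e])
  refine ⟨p, q, h, Eq.trans ?_ k⟩
  have h6 := hg.2.1
  have h7 := hg.2.2
  funext i
  fin_cases i <;> simp <;> omega

/-- symplectic root elements -/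
def G6 (p q : I6) (t : ℤ) : Matrix I6 I6 ℤ :=
  if q = p.swap then transvection p q t
  else transvection p q t * transvection q.swap p.swap (sg p q * t)

theorem tr_ll (i j : Fin 3) (t : ℤ) : transvection (.inl i : I6) (.inl j) t =
    fromBlocks (1 + single i j t) 0 0 1 := by
  ext (a | a) (b | b) <;> simp [transvection, one_apply, single_apply]

theorem tr_rr (i j : Fin 3) (t : ℤ) : transvection (.inr i : I6) (.inr j) t =
    fromBlocks 1 0 0 (1 + single i j t) := by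
  ext (a | a) (b | b) <;> simp [transvection, one_apply, single_apply]

theorem tr_lr (i j : Fin 3) (t : ℤ) : transvection (.inl i : I6) (.inr j) t =
    fromBlocks 1 (single i j t) 0 1 := by
  ext (a | a) (b | b) <;> simp [transvection, one_apply, single_apply]

theorem tr_rl (i j : Fin 3) (t : ℤ) : transvection (.inr i : I6) (.inl j) t =
    fromBlocks 1 0 (single i j t) 1 := by
  ext (a | a) (b | b) <;> simp [transvection, one_apply, single_apply]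

theorem G_ll (i j : Fin 3) (t : ℤ) : G6 (.inl i) (.inl j) t =
    fromBlocks (1 + single i j t) 0 0 (1 - single j i t) := by
  simp [G6, sg, tr_ll, tr_rr, fromBlocks_multiply, sub_eq_add_neg, single_neg]

theorem G_rr (i j : Fin 3) (t : ℤ) : G6 (.inr i) (.inr j) t = G6 (.inl j) (.inl i) (-t) := by
  simp [G6, sg, tr_ll, tr_rr, fromBlocks_multiply]

theorem G_lr {i j : Fin 3} (h : i ≠ j) (t : ℤ) : G6 (.inl i) (.inr j) t =
    fromBlocks 1 (single i j t + single j i t) 0 1 := by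
  simp [G6, sg, tr_lr, fromBlocks_multiply, h.symm, add_comm]

theorem G_lr' (i : Fin 3) (t : ℤ) : G6 (.inl i) (.inr i) t = fromBlocks 1 (single i i t) 0 1 := by
  simp [G6, tr_lr]

theorem G_rl {i j : Fin 3} (h : i ≠ j) (t : ℤ) : G6 (.inr i) (.inl j) t =
    (G6 (.inl i) (.inr j) t)ᵀ := by
  rw [G_lr h]
  simp [G6, sg, tr_rl, fromBlocks_multiply, h.symm, add_comm, fromBlocks_transpose,
    transpose_single]

theorem G_rl' (i : Fin 3) (t : ℤ) : G6 (.inr i) (.inl i) t = (G6 (.inl i) (.inr i) t)ᵀ := by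
  rw [G_lr']
  simp [G6, tr_rl, fromBlocks_transpose, transpose_single]

theorem G_llT (i j : Fin 3) (t : ℤ) : (G6 (.inl i) (.inl j) t)ᵀ = G6 (.inl j) (.inl i) t := by
  simp [G_ll, fromBlocks_transpose, transpose_single]

theorem lr_mem (i j : Fin 3) (t : ℤ) : G6 (.inl i) (.inr j) t ∈ posC 3 := by
  rcases lt_trichotomy i j with h | rfl | h
  · exact ⟨i, j, t, Or.inr (Or.inl ⟨h, G_lr h.ne t⟩)⟩
  · exact ⟨i, i, t, Or.inr (Or.inr (G_lr' i t))⟩
  · exact ⟨j, i, t, Or.inr (Or.inl ⟨h, by rw [G_lr h.ne', add_comm]⟩)⟩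

theorem ll_mem {i j : Fin 3} (h : i ≠ j) (t : ℤ) :
    G6 (.inl i) (.inl j) t ∈ posC 3 ∪ transpose '' posC 3 := by
  rcases lt_or_gt_of_ne h with h | h
  · exact Or.inl ⟨i, j, t, Or.inl ⟨h, G_ll i j t⟩⟩
  · exact Or.inr ⟨_, ⟨j, i, t, Or.inl ⟨h, G_ll j i t⟩⟩, G_llT j i t⟩

theorem G_mem {p q : I6} (h : p ≠ q) (t : ℤ) : G6 p q t ∈ posC 3 ∪ transpose '' posC 3 := by
  rcases p with i | i <;> rcases q with j | j
  · exact ll_mem (by simpa using h) t
  · exact Or.inl (lr_mem i j t)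
  · refine Or.inr ⟨_, lr_mem i j t, ?_⟩
    by_cases hij : i = j
    · subst hij; exact (G_rl' i t).symm
    · exact (G_rl hij t).symm
  · rw [G_rr]
    exact ll_mem (fun e => h (by rw [e])) _

theorem sign_ll : ∀ i j : Fin 3, i < j → (∀ k, 0 ≤ 1 * rt (.inl i) (.inl j) k) ∧
    ∀ k, 0 ≤ -1 * rt (.inl j) (.inl i) k := by decide

theorem sign_lr : ∀ i j : Fin 3, (∀ k, 0 ≤ 1 * rt (.inl i) (.inr j) k) ∧
    ∀ k, 0 ≤ -1 * rt (.inr i) (.inl j) k := by decide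

theorem pos_G {g : Matrix I6 I6 ℤ} (hg : g ∈ posC 3) :
    (∃ p q t, p ≠ q ∧ (∀ k, 0 ≤ 1 * rt p q k) ∧ g = G6 p q t) ∧
    ∃ p q t, p ≠ q ∧ (∀ k, 0 ≤ -1 * rt p q k) ∧ gᵀ = G6 p q t := by
  obtain ⟨i, j, t, ⟨h, rfl⟩ | ⟨h, rfl⟩ | rfl⟩ := hg
  · rw [← G_ll]
    exact ⟨⟨_, _, t, by simpa using h.ne, (sign_ll i j h).1, rfl⟩,
      _, _, t, by simpa using h.ne', (sign_ll i j h).2, G_llT i j t⟩
  · rw [← G_lr h.ne]
    exact ⟨⟨_, _, t, by simp, (sign_lr i j).1, rfl⟩,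
      _, _, t, by simp, (sign_lr i j).2, (G_rl h.ne t).symm⟩
  · rw [← G_lr']
    exact ⟨⟨_, _, t, by simp, (sign_lr i i).1, rfl⟩,
      _, _, t, by simp, (sign_lr i i).2, (G_rl' i t).symm⟩

/-- the graph of the homomorphism -/
def Gr (φ : SpecialLinearGroup (Fin 6) ℤ →* ME) (g : Matrix I6 I6 ℤ) (m : ME) : Prop :=
  ∃ h : SpecialLinearGroup (Fin 6) ℤ, h.1 = reindex e6 e6 g ∧ φ h = m

section Graph

variable {φ : SpecialLinearGroup (Fin 6) ℤ →* ME}

theorem Gr.one : Gr φ 1 1 := ⟨1, by simp, map_one φ⟩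

theorem Gr.mul {g g' : Matrix I6 I6 ℤ} {m m' : ME} (h : Gr φ g m) (h' : Gr φ g' m') :
    Gr φ (g * g') (m * m') := by
  obtain ⟨a, ha, rfl⟩ := h
  obtain ⟨b, hb, rfl⟩ := h'
  exact ⟨a * b, by rw [reindex_mul, ← ha, ← hb]; rfl, map_mul φ a b⟩

theorem Gr.uniq {g : Matrix I6 I6 ℤ} {m m' : ME} (h : Gr φ g m) (h' : Gr φ g m') : m = m' := by
  obtain ⟨a, ha, rfl⟩ := h
  obtain ⟨b, hb, rfl⟩ := h'
  rw [Subtype.ext (ha.trans hb.symm)]

theorem Gr.push {s : Set (Matrix I6 I6 ℤ)} {N : Submonoid ME} (h : ∀ g ∈ s, ∃ m ∈ N, Gr φ g m)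
    {g : Matrix I6 I6 ℤ} (hg : g ∈ Submonoid.closure s) : ∃ m ∈ N, Gr φ g m := by
  induction hg using Submonoid.closure_induction with
  | mem g hg => exact h g hg
  | one => exact ⟨1, one_mem _, Gr.one⟩
  | mul a b _ _ ha hb =>
    obtain ⟨m, h1, h2⟩ := ha
    obtain ⟨m', h3, h4⟩ := hb
    exact ⟨_, mul_mem h1 h3, h2.mul h4⟩

theorem Gr.pull {s : Set ME} {N : Submonoid (Matrix I6 I6 ℤ)} (h : ∀ m ∈ s, ∃ g ∈ N, Gr φ g m)
    {m : ME} (hm : m ∈ Submonoid.closure s) : ∃ g ∈ N, Gr φ g m := by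
  induction hm using Submonoid.closure_induction with
  | mem g hg => exact h g hg
  | one => exact ⟨1, one_mem _, Gr.one⟩
  | mul a b _ _ ha hb =>
    obtain ⟨m, h1, h2⟩ := ha
    obtain ⟨m', h3, h4⟩ := hb
    exact ⟨_, mul_mem h1 h3, h2.mul h4⟩

theorem gr_G (hφ : ∀ (i j : Fin 6) (h : i ≠ j) t, φ (tv i j h t) =
    xE (SE.bJ j - SE.bJ i) (eps (SE.bJ j - SE.bJ i) (SE.bJ j) * t)) {p q : I6} (h : p ≠ q) (t : ℤ) :
    Gr φ (G6 p q t) (zF (rt p q) (et p q * t)) := by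
  have k : ∀ p q : I6, p ≠ q → ∀ t, Gr φ (transvection p q t) (xE (rt p q) (et p q * t)) := by
    intro p q h t
    refine ⟨tv (e6 p) (e6 q) (by simpa using h) t, ?_, hφ _ _ _ t⟩
    ext a b
    simp [transvection, one_apply, single_apply, Equiv.eq_symm_apply]
  unfold G6 zF
  by_cases hq : q = p.swap
  · rw [if_pos hq, if_pos ((rt_fix p q h).2 hq)]
    exact k p q h t
  · rw [if_neg hq, if_neg fun e => hq ((rt_fix p q h).1 e), rt_flip]
    have := k q.swap p.swap (fun e => h (Sum.swap_leftInverse.injective e).symm) (sg p q * t)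
    rw [← mul_assoc, et_sg p q h hq] at this
    exact (k p q h t).mul this

end Graph

theorem lev_J (hP : PresSt) (hR : RelESt) (hC : UpC 3 2) :
    ((Zs fun a => a 1 = 0 : Submonoid ME) : Set ME) ⊆
      ((Zs fun a => a 1 = 0 ∧ ∀ i, 0 ≤ 1 * a i : Submonoid ME) : Set ME) *
        ((Zs fun a => a 1 = 0 ∧ ∀ i, 0 ≤ -1 * a i : Submonoid ME) * ({1} *
          ((Zs fun a => a 1 = 0 ∧ ∀ i, 0 ≤ 1 * a i : Submonoid ME) *
            (Zs fun a => a 1 = 0 ∧ ∀ i, 0 ≤ -1 * a i : Submonoid ME)))) := by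
  obtain ⟨-, φ, hφ⟩ := SE.chain_hom hP hR (by decide : 3 ≤ 6) (fun k : Fin 6 => SE.bJ k)
    (fun i => if i.val = 0 then 0 else 1) (fun j => if j.val = 0 then -1 else 0) (fun i j => by
      have := SE.ip_bJ (i.castLE (by decide)) (j.castLE (by decide))
      simpa using this)
  have key : ∀ (s : ℤ) (g : Matrix I6 I6 ℤ), (∃ p q t, p ≠ q ∧ (∀ k, 0 ≤ s * rt p q k) ∧
      g = G6 p q t) → ∃ m ∈ Zs fun a => a 1 = 0 ∧ ∀ i, 0 ≤ s * a i, Gr φ g m := by
    rintro s _ ⟨p, q, t, h, hs, rfl⟩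
    exact ⟨_, mem_Zs (rt_r6 p q h).1 ⟨(rt_r6 p q h).2, hs⟩ _, gr_G hφ h t⟩
  have hp := fun g hg => Gr.push (fun g hg => key 1 g (pos_G hg).1) (g := g) hg
  have hn := fun g hg => Gr.push (s := transpose '' posC 3)
    (by rintro _ ⟨g, hg, rfl⟩; exact key (-1) _ (pos_G hg).2) (g := g) hg
  intro m hm
  obtain ⟨g, hg, h⟩ := Gr.pull (φ := φ) (N := Submonoid.closure (posC 3 ∪ transpose '' posC 3))
    (by
      rintro _ ⟨a, t, ha, h1, rfl⟩
      obtain ⟨p, q, h, rfl⟩ := exists_rt ha h1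
      have := gr_G hφ h (et p q * t)
      rw [← mul_assoc, et, eps_sq, one_mul] at this
      exact ⟨_, Submonoid.subset_closure (G_mem h _), this⟩) hm
  obtain ⟨a, ha, b, hb, c, hc, d, hd, rfl⟩ := mem_sq.1 (hC hg)
  obtain ⟨a', a1, a2⟩ := hp a ha
  obtain ⟨b', b1, b2⟩ := hn b hb
  obtain ⟨c', c1, c2⟩ := hp c hc
  obtain ⟨d', d1, d2⟩ := hn d hd
  rw [h.uniq (((a2.mul b2).mul c2).mul d2)]
  exact ⟨_, a1, _, ⟨_, b1, _, ⟨1, rfl, _, ⟨_, c1, _, d1, rfl⟩, rfl⟩, rfl⟩, by simp [mul_assoc]⟩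

/-- the function that cuts out the nodes `1, 3` -/
def lK (a : Q8) : ℤ := a 0 + a 2 + a 4 + a 5

theorem lin_J : Lin fun a => a 1 :=
  ⟨fun _ _ => rfl, fun _ => rfl, fun a => by simp [flipE], fun _ h => h 1⟩

theorem lin_K : Lin lK :=
  ⟨fun a b => by simp only [lK, Pi.add_apply]; ring, fun a => by simp only [lK, Pi.neg_apply]; ring,
    fun a => by simp [lK, flipE]; ring, fun a h => by
      have := h 0
      have := h 2
      have := h 4
      have := h 5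
      unfold lK
      omega⟩

theorem of_lev {a : Q8} (ha : ip a a = 2) (h : SE.Lev (fun i => i = 1 ∨ i = 3) a) :
    R6 a ∧ lK a = 0 ∧ ∀ t, zF a t = xE a t := by
  have h0 := h 0 (by decide)
  have h2 := h 2 (by decide)
  have h4 := h 4 (by decide)
  have h5 := h 5 (by decide)
  refine ⟨⟨ha, h 6 (by decide), h 7 (by decide)⟩, by simp [lK, *], fun t => if_pos ?_⟩
  funext i
  fin_cases i <;> simp [flipE, *]

theorem to_lev {a : Q8} (ha : R6 a) (h : lK a = 0) : SE.Lev (fun i => i = 1 ∨ i = 3) a := by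
  have h6 := ha.2.1
  have h7 := ha.2.2
  have : a 0 = 0 ∧ a 2 = 0 ∧ a 4 = 0 ∧ a 5 = 0 := by
    unfold lK at h
    rcases root_sign ha.1 with k | k
    all_goals
      have := k 0
      have := k 2
      have := k 4
      have := k 5
      omega
  intro i hi
  fin_cases i <;> simp_all

theorem lev_K (hP : PresSt) (hR : RelESt) :
    ((Zs fun a => lK a = 0 : Submonoid ME) : Set ME) ⊆
      ((Zs fun a => lK a = 0 ∧ ∀ i, 0 ≤ 1 * a i : Submonoid ME) : Set ME) *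
        ((Zs fun a => lK a = 0 ∧ ∀ i, 0 ≤ -1 * a i : Submonoid ME) *
          (((Zs fun a => lK a = 0) ⊓ (Zs fun a => a 1 = 0) : Submonoid ME) *
          ((Zs fun a => lK a = 0 ∧ ∀ i, 0 ≤ 1 * a i : Submonoid ME) *
            (Zs fun a => lK a = 0 ∧ ∀ i, 0 ≤ -1 * a i : Submonoid ME)))) := by
  have h1 : (Zs fun a => lK a = 0) ≤ SE.Xs (SE.Lev fun i => i = 1 ∨ i = 3) :=
    Zs_le fun a t ha h => by
      rw [(of_lev ha.1 (to_lev ha h)).2.2]
      exact SE.mem_Xs ha.1 (to_lev ha h) t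
  have h2 : ∀ s : ℤ, ((SE.Xs (SE.Uni s fun i => i = 1 ∨ i = 3) : Submonoid ME) : Set ME) ⊆
      (Zs fun a => lK a = 0 ∧ ∀ i, 0 ≤ s * a i : Submonoid ME) := fun s =>
    SE.Xs_le fun a t ha h => by
      obtain ⟨k1, k2, k3⟩ := of_lev ha h.2
      rw [← k3]
      exact mem_Zs k1 ⟨k2, h.1⟩ t
  have h3 : ∀ a : Q8, ip a a = 2 → SE.Lev (fun i => i = 1 ∨ i = 3) a → a 1 = 0 → ∀ t,
      xE a t ∈ (Zs fun a => lK a = 0) ⊓ (Zs fun a => a 1 = 0) := fun a ha h h1 t => by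
    obtain ⟨k1, k2, k3⟩ := of_lev ha h
    rw [← k3]
    exact ⟨mem_Zs k1 k2 t, mem_Zs k1 h1 t⟩
  have h4 := SE.lev_K hP hR _ fun t =>
    ⟨h3 _ (ip_single 3) (by unfold SE.Lev; decide) (by decide) t,
      h3 _ (SE.root_neg (ip_single 3)) (by unfold SE.Lev; decide) (by decide) t⟩
  have h5 := h2 1
  have h6 := h2 (-1)
  refine subset_trans (subset_trans h1 h4) ?_
  gcongr

end Pool.Agent.Lib.MP_755cca_al.F.SF

namespace Pool.Agent.Lib.MP_755cca_al.F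

open SA SF

theorem stepFSt : StepFSt := by
  intro hP hR _ hC
  obtain ⟨s1, s2⟩ := abs_step (parD hR lin_J) (parD hR lin_K) (lev_J hP hR hC) (lev_K hP hR)
  refine up_of_stab ?_
  rintro _ ⟨a, t, h, rfl⟩
  refine gen_all hR (fun b hb h0 t => le_Stab_Om _ _ ?_) (fun b hb h0 t => s1 (mem_Zs hb h0 t))
    (fun t => s2 (mem_Zs (by decide) (by decide) t)) a (r6_of h)
    (fun i => by simpa using (h.2 i).1) t
  rw [closure_rootsF]
  exact mem_Zs hb (fun i => by simpa using h0 i) t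

end Pool.Agent.Lib.MP_755cca_al.F
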