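import Pool.Agent.Lib.MP_755cca_al.F.Stmt
import Pool.Agent.Lib.MP_755cca_al.TypeD

/-! The assembly. -/

open Matrix
open scoped Pointwise

namespace Pool.Agent.Lib.MP_755cca_al.F

namespace Tp

variable {M : Type} [Monoid M] {pos neg : Set M}

theorem pw_mono {m n : ℕ} (h : m ≤ n) : Pw pos neg m ⊆ Pw pos neg n :=
  Set.pow_subset_pow_right
    ⟨1, Submonoid.one_mem _, 1, Submonoid.one_mem _, mul_one 1⟩ h

theorem pw_subset (m : ℕ) : Pw pos neg m ⊆ (Submonoid.closure (pos ∪ neg) : Set M) := by
  unfold Pw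
  induction m with
  | zero =>
    rw [pow_zero]
    exact Set.singleton_subset_iff.mpr (Submonoid.one_mem _)
  | succ m ih =>
    rw [pow_succ]
    rintro _ ⟨a, ha, _, ⟨u, hu, v, hv, rfl⟩, rfl⟩
    exact Submonoid.mul_mem _ (ih ha) (Submonoid.mul_mem _
      (Submonoid.closure_mono Set.subset_union_left hu)
      (Submonoid.closure_mono Set.subset_union_right hv))

theorem genLen {L : ℕ} (h : Up pos neg (L + 1)) (h' : ¬ Up pos neg L) :
    GenLen pos neg (L + 1) := by
  refine ⟨⟨L.succ_pos, (pw_subset _).antisymm h⟩, ?_⟩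
  rintro m ⟨-, hm⟩
  by_contra hlt
  exact h' (hm.symm.subset.trans (pw_mono (by omega)))

end Tp

theorem topSt : TopSt := by
  rintro pres rel root stepE stepF ⟨sA, sC, gA, gC⟩ stepBD ⟨nA, nC, nB, nD, nE, nF, nG⟩
    ⟨lA, lC⟩ lA2 ⟨a3, a4, a6, c2, c3, b3, d4, g2⟩
  obtain ⟨sB, sD⟩ := stepBD pres
  have upA : ∀ n, 6 ≤ n → UpA n 2 := fun n hn => by
    induction n, hn using Nat.le_induction with
    | base => exact a6
    | succ n hn ih => exact sA n 2 (by omega) le_rfl ih
  have upC : ∀ n, 3 ≤ n → UpC n 2 := fun n hn => by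
    induction n, hn using Nat.le_induction with
    | base => exact c3
    | succ n hn ih => exact sC n (by omega) ih
  have upB : ∀ n, 3 ≤ n → UpB n := fun n hn => by
    induction n, hn using Nat.le_induction with
    | base => exact b3
    | succ n hn ih => exact sB n (by omega) ih
  have upD : ∀ n, 4 ≤ n → UpD n := fun n hn => by
    induction n, hn using Nat.le_induction with
    | base => exact d4
    | succ n hn ih => exact sD n (by omega) ih
  have lenA : ∀ l L, UpA (l + 1) (L + 1) → ¬ UpA (l + 1) L → LenA l (L + 1) := by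
    intro l L h h'
    have e : {g : Matrix (Fin (l + 1)) (Fin (l + 1)) ℤ | g.det = 1} =
        (Submonoid.closure (posA (l + 1) ∪ transpose '' posA (l + 1)) : Set _) :=
      Set.ext fun g => (gA _ g).symm
    unfold LenA
    rw [e]
    exact Tp.genLen h h'
  have lenC : ∀ l L, UpC l (L + 1) → ¬ UpC l L → LenC l (L + 1) := by
    intro l L h h'
    unfold LenC
    rw [← gC l]
    exact Tp.genLen h h'
  refine ⟨fun l hl => ?_, fun l hl => ?_, fun l hl => ?_, fun l hl => ?_, fun n h6 h8 => ?_, ?_, ?_⟩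
  · by_cases h2 : l = 2
    · subst h2
      exact lenA 2 3 a3 lA2
    by_cases h3 : l = 3
    · subst h3
      exact lenA 3 2 a4 fun h => lA (sA 4 2 (by omega) le_rfl h)
    by_cases h4 : l = 4
    · subst h4
      exact lenA 4 2 (sA 4 3 (by omega) (by omega) a4) lA
    rw [if_neg h2, if_neg (by omega)]
    exact lenA l 1 (upA _ (by omega)) (nA _ (by omega))
  · exact Tp.genLen (upB l hl _ _ _ (car_spin l)) (nB l (by omega))
  · by_cases h2 : l = 2
    · subst h2
      exact lenC 2 2 c2 lC
    rw [if_neg h2]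
    exact lenC l 1 (upC _ (by omega)) (nC _ (by omega))
  · exact Tp.genLen (upD l hl _ _ _ (car_spin l)) (nD l (by omega))
  · exact Tp.genLen (stepE pres rel root n h6 h8 (upA n h6)) (nE n h6 h8)
  · exact Tp.genLen (stepF pres rel root c3) nF
  · exact Tp.genLen (g2 _ _ _ (car_spin 3)) nG

end Pool.Agent.Lib.MP_755cca_al.F
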