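import Pool.Agent.Lib.MP_755cca_al.F.Base
import Pool.Agent.Lib.MP_755cca_al.F.Top
import Pool.Agent.Lib.MP_755cca_al.F.Pres
import Pool.Agent.Lib.MP_755cca_al.F.RelX
import Pool.Agent.Lib.MP_755cca_al.F.RootE
import Pool.Agent.Lib.MP_755cca_al.F.StepE
import Pool.Agent.Lib.MP_755cca_al.F.StepF
import Pool.Agent.Lib.MP_755cca_al.F.StepAC
import Pool.Agent.Lib.MP_755cca_al.F.StepBD
import Pool.Agent.Lib.MP_755cca_al.F.NotOne
import Pool.Agent.Lib.MP_755cca_al.Low.Red
import Pool.Agent.Lib.MP_755cca_al.E8.Miss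

/-! The final statement from the counting tree and the base cases. -/

namespace Pool.Agent.Lib.MP_755cca_al.F

theorem finalSt_of (hG : Cnt.Good Cnt.T48.RR.get Cnt.ctx0) (hB : BaseSt) : FinalSt :=
  have h := Low.low_of_miss stepACSt (E8.miss_of_good0 hG)
  topSt presSt relESt rootESt stepESt stepFSt stepACSt stepBDSt notOneSt h.1 h.2 hB

end Pool.Agent.Lib.MP_755cca_al.F
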