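import Pool.Agent.Lib.MP_755cca_al.F.Sys

/-! Statements of the pieces of the generic machine. -/

open Matrix
open scoped Pointwise

namespace Pool.Agent.Lib.MP_755cca_al.F

namespace Sys

variable (S : Sys)

/-- product of elements of the simple `SL₂` -/
def PP (R : Type) [CommRing R] (L : List (Fin S.r × R × R × R × R)) : S.Mat R :=
  (L.map fun e => S.p R e.1 e.2.1 e.2.2.1 e.2.2.2.1 e.2.2.2.2).prod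

/-- all determinants are one -/
def Dets {R : Type} [CommRing R] (L : List (Fin S.r × R × R × R × R)) : Prop :=
  ∀ e ∈ L, e.2.1 * e.2.2.2.2 - e.2.2.1 * e.2.2.2.1 = 1

/-- basic facts, first half -/
structure Bas : Prop where
  nn_ni : ∀ (R : Type) [CommRing R] i, S.nn R i * S.ni R i = 1 ∧ S.ni R i * S.nn R i = 1
  XZ_inv : ∀ (R : Type) [CommRing R] Z, ∀ g ∈ S.XZ R Z, ∃ g' ∈ S.XZ R Z, g * g' = 1 ∧ g' * g = 1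
  U_eq : ∀ (R : Type) [CommRing R], S.U R = S.XZ R Set.univ
  XZ_le : ∀ (R : Type) [CommRing R] Z, S.XZ R Z ≤ S.U R
  U_inv : ∀ (R : Type) [CommRing R], ∀ g ∈ S.U R, ∃ g' ∈ S.U R, g * g' = 1 ∧ g' * g = 1
  T_inv : ∀ (R : Type) [CommRing R], ∀ g ∈ S.T R, ∃ g' ∈ S.T R, g * g' = 1 ∧ g' * g = 1
  G_inv : ∀ (R : Type) [CommRing R], ∀ g ∈ S.G R, ∃ g' ∈ S.G R, g * g' = 1 ∧ g' * g = 1
  U_split : ∀ (R : Type) [CommRing R] i, ∀ u ∈ S.U R,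
    (∃ t, ∃ w ∈ S.XZ R {a | a ≠ S.s i}, u = S.x R (S.s i) t * w) ∧
    ∃ t, ∃ w ∈ S.XZ R {a | a ≠ S.s i}, u = w * S.x R (S.s i) t
  nn_norm : ∀ (R : Type) [CommRing R] i, ∀ w ∈ S.XZ R {a | a ≠ S.s i},
    (∃ w' ∈ S.XZ R {a | a ≠ S.s i}, S.nn R i * w = w' * S.nn R i) ∧
    ∃ w' ∈ S.XZ R {a | a ≠ S.s i}, w * S.nn R i = S.nn R i * w'
  T_norm : ∀ (R : Type) [CommRing R] Z, ∀ h ∈ S.T R, ∀ w ∈ S.XZ R Z,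
    (∃ w' ∈ S.XZ R Z, h * w = w' * h) ∧ ∃ w' ∈ S.XZ R Z, w * h = h * w'
  nw_T : ∀ (R : Type) [CommRing R] l, ∀ h ∈ S.T R,
    (∃ h' ∈ S.T R, S.nw R l * h = h' * S.nw R l) ∧ ∃ h' ∈ S.T R, h * S.nw R l = S.nw R l * h'
  ni_eq : ∀ (R : Type) [CommRing R] i, ∃ h ∈ S.T R, S.ni R i = S.nn R i * h
  Bo_mul : ∀ (R : Type) [CommRing R], ∀ b ∈ S.Bo R, ∀ b' ∈ S.Bo R, b * b' ∈ S.Bo R
  Bo_inv : ∀ (R : Type) [CommRing R], ∀ b ∈ S.Bo R, ∃ b' ∈ S.Bo R, b * b' = 1 ∧ b' * b = 1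
  Bo_p : ∀ (R : Type) [CommRing R] i a b d, a * d = 1 → S.p R i a b 0 d ∈ S.Bo R
  U_tri : ∀ (R : Type) [CommRing R], ∀ u ∈ S.U R, (∀ b c, c < b → u b c = 0) ∧ ∀ b, u b b = 1
  UV : ∀ (R : Type) [CommRing R], ∀ u ∈ S.U R, u ∈ S.V R → u = 1
  T_diag : ∀ (R : Type) [CommRing R], ∀ h ∈ S.T R, h.IsDiag
  red_mul : ∀ (R : Type) [CommRing R] g g', S.red R (g * g') = S.red R g * S.red R g'
  red_x : ∀ (R : Type) [CommRing R] a t, S.red R (S.x ℤ a t) = S.x R a t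
  red_p : ∀ (R : Type) [CommRing R] i a b c d, S.red R (S.p ℤ i a b c d) = S.p R i a b c d
  red_nw : ∀ (R : Type) [CommRing R] l, S.red R (S.nw ℤ l) = S.nw R l
  red_U : ∀ (R : Type) [CommRing R], ∀ u ∈ S.U ℤ, S.red R u ∈ S.U R
  red_T : ∀ (R : Type) [CommRing R], ∀ h ∈ S.T ℤ, S.red R h ∈ S.T R
  red_G : ∀ (R : Type) [CommRing R], ∀ g ∈ S.G ℤ, S.red R g ∈ S.G R
  p_G : ∀ i a b c d, a * d - b * c = 1 → S.p ℤ i a b c d ∈ S.G ℤ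
  U_G : S.U ℤ ≤ S.G ℤ
  T_G : S.T ℤ ≤ S.G ℤ
  nw_G : ∀ l, S.nw ℤ l ∈ S.G ℤ
  T_int : S.T ℤ ≤ Submonoid.closure {g | ∃ k, g = S.p ℤ k (-1) 0 0 (-1)}
  p_norm : ∀ i (Z : Set (Fin S.N)), S.s i ∉ Z →
    (∀ a ∈ Z, (∀ b ∈ S.ct i a, b ∈ Z) ∧ S.rho i a ∈ Z) → ∀ a b c d, a * d - b * c = 1 →
    ∀ w ∈ S.XZ ℤ Z, (∃ w' ∈ S.XZ ℤ Z, S.p ℤ i a b c d * w = w' * S.p ℤ i a b c d) ∧
      ∃ w' ∈ S.XZ ℤ Z, w * S.p ℤ i a b c d = S.p ℤ i a b c d * w'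

/-- basic facts on words -/
structure Wrd : Prop where
  pw_append : ∀ l l', S.pw (l ++ l') = S.pw l ∘ S.pw l'
  pw_snoc : ∀ l i, S.pw (l ++ [i]) = S.pw l ∘ S.sg i
  pw_rev : ∀ l, S.pw l.reverse ∘ S.pw l = id ∧ S.pw l ∘ S.pw l.reverse = id
  dem_pw : ∀ l X, ∃ l', S.dem (S.pw l) X = S.pw l'
  nw_mono : ∀ l c, ∃ e : ℤ, e * e = 1 ∧ ∀ (R : Type) [CommRing R] b,
    S.nw R l b c = if b = S.pw l c then (e : R) else 0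
  conj_w : ∀ l a, ∃ e : ℤ, e * e = 1 ∧ ∀ (R : Type) [CommRing R] t,
    S.nw R l * S.xs R a t = S.xs R (S.actw l a) (e * t) * S.nw R l
  up_iff : ∀ l i, S.up (S.pw l) i ↔ (S.actw l (S.s i, true)).2 = true
  up_flip : ∀ l i, ¬ S.up (S.pw l) i ↔ S.up (S.pw l ∘ S.sg i) i
  collapse : ∀ l l', S.pw l = S.pw l' → ∀ (R : Type) [CommRing R],
    ∃ h ∈ S.T R, S.nw R l = S.nw R l' * h
  push : ∀ (R : Type) [CommRing R] l j, S.up (S.pw l) j → ∀ u ∈ S.U R,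
    ∃ u₁ ∈ S.U R, ∃ u₂ ∈ S.U R, S.nw R l * u * S.nn R j = u₁ * S.nw R (l ++ [j]) * u₂
  n0_U : ∀ (R : Type) [CommRing R], ∀ u ∈ S.U R, ∃ v ∈ S.V R, S.n0 R * u = v * S.n0 R
  V_n0 : ∀ (R : Type) [CommRing R], ∀ v ∈ S.V R, ∃ u ∈ S.U R, v * S.n0 R = S.n0 R * u
  conj_p : ∀ l i k, S.actw l (S.s i, true) = (S.s k, true) → ∃ e : ℤ, e * e = 1 ∧
    ∀ a b c d, a * d - b * c = 1 →
      S.nw ℤ l * S.p ℤ i a b c d = S.p ℤ k a (e * b) (e * c) d * S.nw ℤ l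

/-- cells over a field -/
structure Fld : Prop where
  cell_Bo : ∀ (F : Type) [Field F] π, ∀ g ∈ S.Cell F π, ∀ b ∈ S.Bo F,
    b * g ∈ S.Cell F π ∧ g * b ∈ S.Cell F π
  step_up : ∀ (F : Type) [Field F] π i, S.up π i → ∀ g ∈ S.Cell F π, ∀ t,
    g * S.x F (S.s i) t * S.ni F i ∈ S.Cell F (π ∘ S.sg i)
  step_down : ∀ (F : Type) [Field F] π i, ¬ S.up π i → ∀ g ∈ S.Cell F π, ∃ t₀,
    g * S.x F (S.s i) t₀ * S.ni F i ∈ S.Cell F (π ∘ S.sg i) ∧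
    ∀ t, t ≠ t₀ → g * S.x F (S.s i) t * S.ni F i ∈ S.Cell F π
  cover : ∀ (F : Type) [Field F], ∀ g ∈ S.G F, ∃ l, g ∈ S.Cell F (S.pw l)
  cell_inv : ∀ (F : Type) [Field F] l, ∀ g ∈ S.Cell F (S.pw l), ∀ g', g * g' = 1 →
    g' ∈ S.Cell F (S.pw l.reverse)
  cell_PP : ∀ (F : Type) [Field F] L, S.Dets L → ∃ L' : List (Fin S.r × F × F × F × F),
    L'.Sublist L ∧ (∀ e ∈ L', e.2.2.2.1 ≠ 0) ∧ S.PP F L ∈ S.Cell F (S.pw (L'.map Prod.fst))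

/-- minors -/
structure Mnr : Prop where
  inv : ∀ (R : Type) [CommRing R] k g, ∀ u ∈ S.U R, S.D R k (g * u) = S.D R k g ∧
    S.D R k (u * g) = S.D R k g ∧ S.Q R k (g * u) = S.Q R k g ∧
    S.D R k g ∣ S.Q R k (u * g) - S.Q R k g
  red_D : ∀ (R : Type) [CommRing R] k g, S.D R k (S.red R g) = (S.D ℤ k g : R)
  cell : ∀ (F : Type) [Field F] k π, ∀ g ∈ S.Cell F π, S.D F k g ≠ 0 ↔ S.hit k π

/-- almost all primes are generic -/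
def Fin' : Prop :=
  ∀ π (g : S.Mat ℤ), S.red ℚ g ∈ S.Cell ℚ π → ∃ m : ℕ, m ≠ 0 ∧
    ∀ (p : ℕ) [Fact p.Prime], ¬ p ∣ m → S.red (ZMod p) g ∈ S.Cell (ZMod p) π

/-- making the minors coprime -/
def Cop : Prop :=
  ∀ K π i X, S.CopOK K π i X → ∀ g ∈ S.G ℤ, S.red ℚ g ∈ S.Cell ℚ π →
    ∃ g' ∈ S.G ℤ, ∃ c, g = g' * c ∧ S.Adm K (fun k => S.D ℤ k g') ∧
      ∀ u ∈ S.U ℤ, ∃ u₁ ∈ S.U ℤ, ∃ u₂ ∈ S.U ℤ, S.nn ℤ i * u * c = u₁ * S.nw ℤ (i :: X) * u₂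

/-- integrality -/
def Int1 : Prop := ∀ g ∈ S.G ℤ, S.red ℚ g ∈ S.Bo ℚ → g ∈ S.Bo ℤ

/-- factorisation along the base word -/
def Int2 : Prop :=
  ∀ g ∈ S.G ℤ, (∀ k, S.D ℤ k g ≠ 0) →
    ∃ L, S.Dets L ∧ L.map Prod.fst = S.base ∧ ∃ b ∈ S.Bo ℤ, g = S.PP ℤ L * b

/-- normal form -/
def NF : Prop :=
  ∀ g ∈ S.G ℤ, S.Adm Set.univ (fun k => S.D ℤ k g) → ∃ a b c d : Fin S.r → ℤ,
    (∀ j, a j * d j - b j * c j = 1) ∧ ∃ u ∈ S.U ℤ, ∃ u' ∈ S.U ℤ, g = u * S.M a b c d * u'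

/-- the double coset depends on the classes only -/
def Uniq : Prop :=
  ∀ a b c d a' b' c' : Fin S.r → ℤ, (∀ j, a j * d j - b j * c j = 1) →
    (∀ j, a' j * d j - b' j * c' j = 1) → (∀ j, d j ≠ 0) → (∀ j, d j ∣ b j - b' j) →
    ∃ u ∈ S.U ℤ, ∃ u' ∈ S.U ℤ, S.M a b c d = u * S.M a' b' c' d * u'

end Sys

def BasSt : Prop := ∀ S : Sys, S.Ax → S.Bas
def WrdSt : Prop := ∀ S : Sys, S.Ax → S.Bas → S.Wrd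
def FldSt : Prop := ∀ S : Sys, S.Ax → S.Bas → S.Wrd → S.Fld
def MnrSt : Prop := ∀ S : Sys, S.Ax → S.Bas → S.Wrd → S.Mnr
def FinSt : Prop := ∀ S : Sys, S.Ax → S.Bas → S.Fin'
def CopSt : Prop := ∀ S : Sys, S.Ax → S.Bas → S.Wrd → S.Fld → S.Mnr → S.Fin' → S.Cop
def Int1St : Prop := ∀ S : Sys, S.Ax → S.Bas → S.Wrd → S.Int1
def Int2St : Prop := ∀ S : Sys, S.Ax → S.Bas → S.Wrd → S.Fld → S.Mnr → S.Int1 → S.Int2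
def NFSt : Prop := ∀ S : Sys, S.Ax → S.Bas → S.Wrd → S.Fld → S.Mnr → S.Int2 → S.NF
def UniqSt : Prop := ∀ S : Sys, S.Ax → S.Bas → S.Wrd → S.Uniq
def MainSt : Prop :=
  ∀ S : Sys, S.Ax → S.Bas → S.Wrd → S.Fld → S.Mnr → S.Cop → S.Int1 → S.NF → S.Uniq →
    ∀ (K : Fin S.r → Set (Fin S.r)) (L : ℕ), 2 ≤ L → S.CopAx K → S.CoreE →
      (∀ i, i ∈ K i → S.Core L i (K i)) → Up (S.pos ℤ) (transpose '' S.pos ℤ) L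

end Pool.Agent.Lib.MP_755cca_al.F
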