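import Pool.Agent.Lib.MP_755cca_al.F.Gen

/-! The main assembly of the generic machine. -/

open Matrix
open scoped Pointwise

namespace Pool.Agent.Lib.MP_755cca_al.F

namespace Mn

variable {S : Sys}

theorem th_zero {x : S.Mat ℤ} : x ∈ S.Th 0 ↔ x ∈ S.U ℤ := by
  unfold Sys.Th
  rw [pow_zero, one_mul]
  rfl

theorem th_succ (k : ℕ) : S.Th (k + 1) = S.Th k * {S.n0 ℤ} * (S.U ℤ : Set (S.Mat ℤ)) := by
  unfold Sys.Th
  rw [pow_succ]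
  simp only [mul_assoc]

theorem th_succ' (k : ℕ) : S.Th (k + 1) = (S.U ℤ : Set (S.Mat ℤ)) * {S.n0 ℤ} * S.Th k := by
  unfold Sys.Th
  rw [pow_succ']
  simp only [mul_assoc]

theorem th_snoc {k : ℕ} {x u : S.Mat ℤ} (hx : x ∈ S.Th k) (hu : u ∈ S.U ℤ) :
    x * S.n0 ℤ * u ∈ S.Th (k + 1) := by
  rw [th_succ]
  exact Set.mul_mem_mul (Set.mul_mem_mul hx rfl) hu

theorem th_cons {k : ℕ} {x u : S.Mat ℤ} (hu : u ∈ S.U ℤ) (hx : x ∈ S.Th k) :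
    u * S.n0 ℤ * x ∈ S.Th (k + 1) := by
  rw [th_succ']
  exact Set.mul_mem_mul (Set.mul_mem_mul hu rfl) hx

theorem th_snoc_inv {k : ℕ} {y : S.Mat ℤ} (hy : y ∈ S.Th (k + 1)) :
    ∃ x ∈ S.Th k, ∃ u ∈ S.U ℤ, y = x * S.n0 ℤ * u := by
  rw [th_succ] at hy
  obtain ⟨z, ⟨x, hx, n, hn, rfl⟩, u, hu, rfl⟩ := hy
  obtain rfl : n = S.n0 ℤ := hn
  exact ⟨x, hx, u, hu, rfl⟩

theorem th_cons_inv {k : ℕ} {y : S.Mat ℤ} (hy : y ∈ S.Th (k + 1)) :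
    ∃ u ∈ S.U ℤ, ∃ x ∈ S.Th k, y = u * S.n0 ℤ * x := by
  rw [th_succ'] at hy
  obtain ⟨z, ⟨u, hu, n, hn, rfl⟩, x, hx, rfl⟩ := hy
  obtain rfl : n = S.n0 ℤ := hn
  exact ⟨u, hu, x, hx, rfl⟩

theorem th_mul_U {k : ℕ} {x u : S.Mat ℤ} (hx : x ∈ S.Th k) (hu : u ∈ S.U ℤ) :
    x * u ∈ S.Th k := by
  cases k with
  | zero => exact th_zero.2 ((S.U ℤ).mul_mem (th_zero.1 hx) hu)
  | succ k =>
    obtain ⟨y, hy, w, hw, rfl⟩ := th_snoc_inv hx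
    rw [mul_assoc]
    exact th_snoc hy ((S.U ℤ).mul_mem hw hu)

theorem U_mul_th {k : ℕ} {x u : S.Mat ℤ} (hu : u ∈ S.U ℤ) (hx : x ∈ S.Th k) :
    u * x ∈ S.Th k := by
  cases k with
  | zero => exact th_zero.2 ((S.U ℤ).mul_mem hu (th_zero.1 hx))
  | succ k =>
    obtain ⟨w, hw, y, hy, rfl⟩ := th_cons_inv hx
    rw [← mul_assoc, ← mul_assoc]
    exact th_cons ((S.U ℤ).mul_mem hu hw) hy

theorem n0_G (hb : S.Bas) : S.n0 ℤ ∈ S.G ℤ := hb.nw_G _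

theorem th_G (hb : S.Bas) : ∀ (k : ℕ) (x : S.Mat ℤ), x ∈ S.Th k → x ∈ S.G ℤ
  | 0, _, hx => hb.U_G (th_zero.1 hx)
  | k + 1, _, hx => by
    obtain ⟨y, hy, w, hw, rfl⟩ := th_snoc_inv hx
    exact (S.G ℤ).mul_mem ((S.G ℤ).mul_mem (th_G hb k y hy) (n0_G hb)) (hb.U_G hw)

theorem sq_T (ha : S.Ax) (hw : S.Wrd) : S.n0 ℤ * S.n0 ℤ ∈ S.T ℤ := by
  obtain ⟨h, hh, e⟩ := hw.collapse (S.base ++ S.base) [] (by rw [ha.base_sq]; rfl) ℤ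
  have : S.n0 ℤ * S.n0 ℤ = h := by
    unfold Sys.nw at e
    rw [List.map_append, List.prod_append, List.map_nil, List.prod_nil, one_mul] at e
    exact e
  rw [this]
  exact hh

theorem T_U (hb : S.Bas) {h u : S.Mat ℤ} (hh : h ∈ S.T ℤ) (hu : u ∈ S.U ℤ) :
    ∃ u' ∈ S.U ℤ, h * u = u' * h := by
  rw [hb.U_eq] at hu ⊢
  exact (hb.T_norm ℤ Set.univ h hh u hu).1

theorem T_Bo {R : Type} [CommRing R] {h : S.Mat R} (hh : h ∈ S.T R) : h ∈ S.Bo R :=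
  ⟨h, hh, 1, (S.U R).one_mem, (mul_one h).symm⟩

theorem pow_even_T (ha : S.Ax) (hw : S.Wrd) (k : ℕ) : S.n0 ℤ ^ (2 * k) ∈ S.T ℤ := by
  rw [pow_mul, pow_two]
  exact (S.T ℤ).pow_mem (sq_T ha hw) k

/-- one pair of letters -/
theorem pair (hb : S.Bas) (hw : S.Wrd) {h u u' : S.Mat ℤ} (hh : h ∈ S.T ℤ) (hu : u ∈ S.U ℤ)
    (hu' : u' ∈ S.U ℤ) :
    ∃ u₁ ∈ S.U ℤ, ∃ v ∈ S.V ℤ, h * (u * S.n0 ℤ * u') = u₁ * v * (h * S.n0 ℤ) := by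
  obtain ⟨u₁, hu₁, e₁⟩ := T_U hb hh hu
  obtain ⟨h', hh', e₂⟩ := (hb.nw_T ℤ S.base h hh).2
  obtain ⟨u₂, hu₂, e₃⟩ := T_U hb hh' hu'
  obtain ⟨v, hv, e₄⟩ := hw.n0_U ℤ u₂ hu₂
  have e₂' : h * S.n0 ℤ = S.n0 ℤ * h' := e₂
  refine ⟨u₁, hu₁, v, hv, ?_⟩
  calc h * (u * S.n0 ℤ * u') = (h * u) * S.n0 ℤ * u' := by simp only [mul_assoc]
    _ = u₁ * ((h * S.n0 ℤ) * u') := by rw [e₁]; simp only [mul_assoc]
    _ = u₁ * (S.n0 ℤ * (h' * u')) := by rw [e₂']; simp only [mul_assoc]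
    _ = u₁ * ((S.n0 ℤ * u₂) * h') := by rw [e₃]; simp only [mul_assoc]
    _ = u₁ * v * (S.n0 ℤ * h') := by rw [e₄]; simp only [mul_assoc]
    _ = u₁ * v * (h * S.n0 ℤ) := by rw [e₂']

theorem th_odd (ha : S.Ax) (hb : S.Bas) (hw : S.Wrd) : ∀ (k : ℕ) (x : S.Mat ℤ),
    x ∈ S.Th (2 * k + 1) →
      ∃ z ∈ ((S.U ℤ : Set (S.Mat ℤ)) * (S.V ℤ : Set (S.Mat ℤ))) ^ (k + 1),
        x = z * S.n0 ℤ ^ (2 * k + 1)
  | 0, x, hx => by
    obtain ⟨u, hu, w, hw', rfl⟩ := th_snoc_inv hx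
    obtain ⟨u₁, hu₁, v, hv, e⟩ := pair hb hw (S.T ℤ).one_mem (th_zero.1 hu) hw'
    refine ⟨u₁ * v, ?_, ?_⟩
    · rw [zero_add, pow_one]
      exact Set.mul_mem_mul hu₁ hv
    · simpa using e
  | k + 1, x, hx => by
    have hx' : x ∈ S.Th (2 * k + 1 + 1 + 1) := hx
    obtain ⟨y, hy, u', hu', rfl⟩ := th_snoc_inv hx'
    obtain ⟨y₁, hy₁, u, hu, rfl⟩ := th_snoc_inv hy
    obtain ⟨z, hz, rfl⟩ := th_odd ha hb hw k y₁ hy₁
    obtain ⟨u₁, hu₁, v, hv, e⟩ := pair hb hw (pow_even_T ha hw (k + 1)) hu hu'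
    refine ⟨z * (u₁ * v), ?_, ?_⟩
    · rw [pow_succ]
      exact Set.mul_mem_mul hz (Set.mul_mem_mul hu₁ hv)
    · have e₁ : S.n0 ℤ ^ (2 * (k + 1)) = S.n0 ℤ ^ (2 * k + 1) * S.n0 ℤ := by
        rw [← pow_succ]; rfl
      calc z * S.n0 ℤ ^ (2 * k + 1) * S.n0 ℤ * u * S.n0 ℤ * u'
          = z * (S.n0 ℤ ^ (2 * (k + 1)) * (u * S.n0 ℤ * u')) := by
            rw [e₁]; simp only [mul_assoc]
        _ = z * (u₁ * v) * S.n0 ℤ ^ (2 * (k + 1) + 1) := by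
            rw [e, pow_succ (S.n0 ℤ) (2 * (k + 1))]; simp only [mul_assoc]

/-- inverses -/
theorem th_inv (ha : S.Ax) (hb : S.Bas) (hw : S.Wrd) : ∀ (k : ℕ) (x : S.Mat ℤ),
    x ∈ S.Th k → ∃ y ∈ S.Th k, y * x = S.n0 ℤ ^ (2 * k)
  | 0, x, hx => by
    obtain ⟨y, hy, -, e⟩ := hb.U_inv ℤ x (th_zero.1 hx)
    exact ⟨y, th_zero.2 hy, by simpa using e⟩
  | k + 1, x, hx => by
    obtain ⟨x', hx', u, hu, rfl⟩ := th_snoc_inv hx
    obtain ⟨y', hy', e⟩ := th_inv ha hb hw k x' hx'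
    obtain ⟨u₂, hu₂, e₂⟩ := T_U hb (pow_even_T ha hw (k + 1)) hu
    obtain ⟨u₁, hu₁, -, e₁⟩ := hb.U_inv ℤ u₂ hu₂
    refine ⟨u₁ * S.n0 ℤ * y', th_cons hu₁ hy', ?_⟩
    have e₃ : S.n0 ℤ ^ (2 * (k + 1)) = S.n0 ℤ * S.n0 ℤ ^ (2 * k) * S.n0 ℤ := by
      rw [← pow_succ', ← pow_succ]; rfl
    calc u₁ * S.n0 ℤ * y' * (x' * S.n0 ℤ * u)
        = u₁ * ((S.n0 ℤ * (y' * x') * S.n0 ℤ) * u) := by simp only [mul_assoc]
      _ = u₁ * (u₂ * S.n0 ℤ ^ (2 * (k + 1))) := by rw [e, ← e₃, e₂]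
      _ = S.n0 ℤ ^ (2 * (k + 1)) := by rw [← mul_assoc, e₁, one_mul]

/-- padding -/
theorem T_th (ha : S.Ax) (hb : S.Bas) (hw : S.Wrd) (hE : S.CoreE) : ∀ (j : ℕ) (h : S.Mat ℤ),
    h ∈ S.T ℤ → h ∈ S.Th (2 * j + 3)
  | 0, _, hh => hE hh
  | j + 1, h, hh => by
    obtain ⟨t, ht, -, e⟩ := hb.T_inv ℤ _ (sq_T ha hw)
    have h₁ := T_th ha hb hw hE j (h * t) ((S.T ℤ).mul_mem hh ht)
    have h₂ := th_snoc (th_snoc h₁ (S.U ℤ).one_mem) (S.U ℤ).one_mem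
    have e₁ : h * t * S.n0 ℤ * 1 * S.n0 ℤ * 1 = h := by
      calc h * t * S.n0 ℤ * 1 * S.n0 ℤ * 1 = h * (t * (S.n0 ℤ * S.n0 ℤ)) := by
            simp only [mul_assoc, mul_one]
        _ = h := by rw [e, mul_one]
    rw [e₁] at h₂
    exact h₂

theorem cancel_T (hb : S.Bas) {h x y : S.Mat ℤ} (hh : h ∈ S.T ℤ) (e : x * h = y * h) : x = y := by
  obtain ⟨t, -, e₁, -⟩ := hb.T_inv ℤ h hh
  calc x = x * h * t := by rw [mul_assoc, e₁, mul_one]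
    _ = y := by rw [e, mul_assoc, e₁, mul_one]

theorem unit_of {e : ℤ} (he : e * e = 1) : IsUnit e := IsUnit.of_mul_eq_one e he

/-- the double coset is determined by the minors -/
theorem same (ha : S.Ax) (hb : S.Bas) (hm : S.Mnr) (hN : S.NF) (hU : S.Uniq)
    {K : Set (Fin S.r)} {g : S.Mat ℤ} (hg : g ∈ S.G ℤ) (hA : S.Adm K fun k => S.D ℤ k g) :
    ∃ q : Fin S.r → ℤ, (∀ k, IsCoprime (q k) (S.D ℤ k g)) ∧ ∀ g₀ ∈ S.G ℤ,
      (∀ k, S.D ℤ k g₀ = S.D ℤ k g ∧ S.D ℤ k g ∣ S.Q ℤ k g₀ - q k) →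
        ∃ w ∈ S.U ℤ, ∃ w' ∈ S.U ℤ, g = w * g₀ * w' := by
  have hA' : S.Adm Set.univ fun k => S.D ℤ k g :=
    ⟨hA.1, hA.2.1, fun k hk => absurd (Set.mem_univ k) hk⟩
  obtain ⟨a, b, c, d, hdet, u, hu, u', hu', hgM⟩ := hN g hg hA'
  choose e e' he he' hDQ using ha.DQ
  have hD : ∀ (M w w' : S.Mat ℤ), w ∈ S.U ℤ → w' ∈ S.U ℤ → ∀ k,
      S.D ℤ k (w * M * w') = S.D ℤ k M := fun M w w' hw hw' k => by
    rw [(hm.inv ℤ k (w * M) w' hw').1, (hm.inv ℤ k M w hw).2.1]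
  have hDg : ∀ k, S.D ℤ k g = e k * d (S.st k) := fun k => by
    rw [hgM, hD _ _ _ hu hu', (hDQ k a b c d hdet).1]
  have hd0 : ∀ j, d j ≠ 0 := fun j hj => by
    have := hA.1 (S.st j)
    simp only [hDg, ha.st_st, hj, mul_zero] at this
    exact this rfl
  have hdd : ∀ j k, j ≠ S.st k → IsCoprime (d j) (d (S.st k)) := fun j k hjk => by
    have h₁ : S.st j ≠ k := fun h => hjk (by rw [← h, ha.st_st])
    have h₂ := hA.2.1 (S.st j) k h₁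
    simp only [hDg, ha.st_st] at h₂
    exact h₂.of_mul_left_right.of_mul_right_right
  have hP : ∀ k, IsCoprime (∏ j, d j ^ S.nu k j) (d (S.st k)) := fun k => by
    refine IsCoprime.prod_left fun j _ => ?_
    by_cases hj : j = S.st k
    · rw [hj, ha.nu_st, pow_zero]
      exact isCoprime_one_left
    · exact (hdd j k hj).pow_left
  refine ⟨fun k => e' k * b (S.st k) * ∏ j, d j ^ S.nu k j, fun k => ?_, ?_⟩
  · rw [hDg]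
    have h₁ : IsCoprime (b (S.st k)) (d (S.st k)) :=
      ⟨-c (S.st k), a (S.st k), by linear_combination hdet (S.st k)⟩
    have h₂ : IsCoprime (e' k) (d (S.st k)) := ⟨e' k, 0, by linear_combination he' k⟩
    have h₃ : IsCoprime (e' k * b (S.st k) * ∏ j, d j ^ S.nu k j) (e k) :=
      ⟨0, e k, by linear_combination he k⟩
    exact h₃.mul_right ((h₂.mul_left h₁).mul_left (hP k))
  · intro g₀ hg₀ h₀
    have hA₀ : S.Adm Set.univ fun k => S.D ℤ k g₀ := by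
      have : (fun k => S.D ℤ k g₀) = fun k => S.D ℤ k g := funext fun k => (h₀ k).1
      rw [this]
      exact hA'
    obtain ⟨a', b', c', d', hdet', v, hv, v', hv', hgM'⟩ := hN g₀ hg₀ hA₀
    have hDg' : ∀ k, S.D ℤ k g₀ = e k * d' (S.st k) := fun k => by
      rw [hgM', hD _ _ _ hv hv', (hDQ k a' b' c' d' hdet').1]
    obtain rfl : d' = d := by
      funext j
      have h₁ := (h₀ (S.st j)).1
      rw [hDg, hDg', ha.st_st] at h₁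
      exact (unit_of (he (S.st j))).mul_left_cancel h₁
    have hbb : ∀ j, d' j ∣ b j - b' j := fun j => by
      have h₁ := (h₀ (S.st j)).2
      have h₂ := (hm.inv ℤ (S.st j) (S.M a' b' c' d') v hv).2.2.2
      have h₃ : S.Q ℤ (S.st j) g₀ = S.Q ℤ (S.st j) (v * S.M a' b' c' d') := by
        rw [hgM', (hm.inv ℤ (S.st j) _ v' hv').2.2.1]
      rw [hDg, h₃] at h₁
      rw [(hDQ (S.st j) a' b' c' d' hdet').1, (hDQ (S.st j) a' b' c' d' hdet').2] at h₂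
      have h₄ := dvd_sub h₂ h₁
      have h₅ := hP (S.st j)
      simp only [ha.st_st] at h₄ h₅
      have h₆ : d' j ∣ (b j - b' j) * (e' (S.st j) * ∏ i, d' i ^ S.nu (S.st j) i) := by
        refine (Dvd.intro_left _ rfl).trans (h₄.trans (dvd_of_eq ?_))
        ring
      have h₇ : IsCoprime (d' j) (e' (S.st j) * ∏ i, d' i ^ S.nu (S.st j) i) :=
        IsCoprime.mul_right ⟨0, e' (S.st j), by linear_combination he' (S.st j)⟩ h₅.symm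
      exact h₇.dvd_of_dvd_mul_right h₆
    obtain ⟨w, hw, w', hw', hMM⟩ := hU a b c d' a' b' c' hdet hdet' hd0 hbb
    obtain ⟨vi, hvi, -, ev⟩ := hb.U_inv ℤ v hv
    obtain ⟨vi', hvi', ev', -⟩ := hb.U_inv ℤ v' hv'
    refine ⟨u * w * vi, (S.U ℤ).mul_mem ((S.U ℤ).mul_mem hu hw) hvi, vi' * w' * u',
      (S.U ℤ).mul_mem ((S.U ℤ).mul_mem hvi' hw') hu', ?_⟩
    calc g = u * (w * S.M a' b' c' d' * w') * u' := by rw [hgM, hMM]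
      _ = u * w * ((vi * v) * S.M a' b' c' d' * (v' * vi')) * w' * u' := by
          rw [ev, ev']; simp only [mul_assoc, one_mul, mul_one]
      _ = u * w * vi * g₀ * (vi' * w' * u') := by rw [hgM']; simp only [mul_assoc]

/-- a covered cell -/
theorem covered (ha : S.Ax) (hb : S.Bas) (hw : S.Wrd) (hf : S.Fld) (hm : S.Mnr) (hC : S.Cop)
    (hN : S.NF) (hU : S.Uniq) {K : Set (Fin S.r)} {π : Fin S.n → Fin S.n} {i : Fin S.r}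
    {X : List (Fin S.r)} {k : ℕ} (hok : S.CopOK K π i X) (hc : S.Core (k + 1) i K)
    {g : S.Mat ℤ} (hg : g ∈ S.G ℤ) (hπ : S.red ℚ g ∈ S.Cell ℚ π) : g ∈ S.Th (2 * k + 1) := by
  obtain ⟨h, hh, eh⟩ := hw.collapse (i :: X) S.base hok.2.2.1 ℤ
  have hg₁ : g * h ∈ S.G ℤ := (S.G ℤ).mul_mem hg (hb.T_G hh)
  have hπ₁ : S.red ℚ (g * h) ∈ S.Cell ℚ π := by
    rw [hb.red_mul]
    exact (hf.cell_Bo ℚ π _ hπ _ (T_Bo (hb.red_T ℚ h hh))).2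
  obtain ⟨g', hg', c, egc, hA, hcu⟩ := hC K π i X hok (g * h) hg₁ hπ₁
  obtain ⟨q, hq, hs⟩ := same ha hb hm hN hU hg' hA
  obtain ⟨g₀, ⟨y, hy, n, hn, rfl⟩, h₀⟩ := hc _ q hA hq
  obtain rfl : n = S.nn ℤ i := hn
  have hy' : y ∈ S.Th (2 * k) := by
    have : 2 * (k + 1) - 2 = 2 * k := by omega
    rw [this] at hy
    exact hy
  have hnn : S.nn ℤ i ∈ S.G ℤ := hb.p_G i 0 1 (-1) 0 (by norm_num)
  obtain ⟨w, hw₁, w', hw', eg⟩ := hs (y * S.nn ℤ i) ((S.G ℤ).mul_mem (th_G hb _ y hy') hnn) h₀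
  obtain ⟨u₁, hu₁, u₂, hu₂, eu⟩ := hcu w' hw'
  obtain ⟨u₃, hu₃, e₃⟩ := T_U hb hh hu₂
  have hx : w * y * u₁ * S.n0 ℤ * u₃ ∈ S.Th (2 * k + 1) :=
    th_snoc (th_mul_U (U_mul_th hw₁ hy') hu₁) hu₃
  have eh' : S.nw ℤ (i :: X) = S.n0 ℤ * h := eh
  have : g = w * y * u₁ * S.n0 ℤ * u₃ := by
    refine cancel_T hb hh ?_
    calc g * h = w * y * (S.nn ℤ i * w' * c) := by rw [egc, eg]; simp only [mul_assoc]
      _ = w * y * u₁ * S.n0 ℤ * (h * u₂) := by rw [eu, eh']; simp only [mul_assoc]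
      _ = w * y * u₁ * S.n0 ℤ * u₃ * h := by rw [e₃]; simp only [mul_assoc]
  rw [this]
  exact hx

theorem red_one (R : Type) [CommRing R] : S.red R 1 = 1 := by
  unfold Sys.red
  exact Matrix.map_one _ (map_zero _) (map_one _)

end Mn

open Mn in
theorem mainSt : MainSt := by
  intro S ha hb hw hf hm hC hI hN hU K L hL hK hE hc
  obtain ⟨j, rfl⟩ : ∃ j, L = j + 1 + 1 := ⟨L - 2, by omega⟩
  have key : ∀ g ∈ S.G ℤ, g ∈ S.Th (2 * (j + 1) + 1) := by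
    intro g hg
    obtain ⟨l, hl⟩ := hf.cover ℚ _ (hb.red_G ℚ g hg)
    rcases hK l with hid | ⟨i, X, hok | hok⟩
    · obtain ⟨l', hl', b, hb₁, b', hb', e⟩ := hl
      obtain ⟨h, hh, eh⟩ := hw.collapse l' [] (by rw [hl', hid]; rfl) ℚ
      have eh' : S.nw ℚ l' = h := by
        rw [eh]
        unfold Sys.nw
        rw [List.map_nil, List.prod_nil, one_mul]
      have hB : S.red ℚ g ∈ S.Bo ℚ := by
        rw [e, eh']
        exact hb.Bo_mul ℚ _ (hb.Bo_mul ℚ _ hb₁ _ (T_Bo hh)) _ hb'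
      obtain ⟨t, ht, u, hu, rfl⟩ := hI g hg hB
      exact th_mul_U (T_th ha hb hw hE j t ht) hu
    · exact covered ha hb hw hf hm hC hN hU hok (hc i hok.1) hg hl
    · obtain ⟨g', hg', e₁, e₂⟩ := hb.G_inv ℤ g hg
      have hs := pow_even_T ha hw (2 * (j + 1) + 1)
      have h₁ : S.red ℚ g' ∈ S.Cell ℚ (S.pw l.reverse) :=
        hf.cell_inv ℚ l _ hl _ (by rw [← hb.red_mul, e₁, red_one])
      have h₂ : S.red ℚ (g' * S.n0 ℤ ^ (2 * (2 * (j + 1) + 1))) ∈ S.Cell ℚ (S.pw l.reverse) := by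
        rw [hb.red_mul]
        exact (hf.cell_Bo ℚ _ _ h₁ _ (T_Bo (hb.red_T ℚ _ hs))).2
      have h₃ := covered ha hb hw hf hm hC hN hU hok (hc i hok.1)
        ((S.G ℤ).mul_mem hg' (hb.T_G hs)) h₂
      obtain ⟨y, hy, e⟩ := th_inv ha hb hw _ _ h₃
      have e₃ : y * g' = 1 := cancel_T hb hs (by rw [mul_assoc, e, one_mul])
      have e₄ : g = y := by
        calc g = y * g' * g := by rw [e₃, one_mul]
          _ = y := by rw [mul_assoc, e₂, mul_one]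
      rw [e₄]
      exact hy
  intro g hg
  have hg' : g ∈ S.G ℤ := hg
  have hn : S.n0 ℤ ^ (2 * (j + 1) + 1) ∈ S.G ℤ := (S.G ℤ).pow_mem (n0_G hb) _
  obtain ⟨z, hz, e⟩ := th_odd ha hb hw (j + 1) _ (key _ ((S.G ℤ).mul_mem hg' hn))
  obtain ⟨t, -, e₁, -⟩ := hb.G_inv ℤ _ hn
  have : g = z := by
    calc g = g * S.n0 ℤ ^ (2 * (j + 1) + 1) * t := by rw [mul_assoc, e₁, mul_one]
      _ = z := by rw [e, mul_assoc, e₁, mul_one]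
  rw [this]
  exact hz

end Pool.Agent.Lib.MP_755cca_al.F
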