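import Pool.Agent.Lib.MP_755cca_al.F.Defs

/-! The form, the sign cocycle and the coordinates of the root elements in the model of `E₈`. -/

open Matrix

namespace Pool.Agent.Lib.MP_755cca_al.F.RE

theorem ip_eq (a b : Q8) : ip a b = 2 * (a 0 * b 0 + a 1 * b 1 + a 2 * b 2 + a 3 * b 3 + a 4 * b 4 +
    a 5 * b 5 + a 6 * b 6 + a 7 * b 7) - (a 0 * b 2 + a 2 * b 0 + a 1 * b 3 + a 3 * b 1 + a 2 * b 3 +
    a 3 * b 2 + a 3 * b 4 + a 4 * b 3 + a 4 * b 5 + a 5 * b 4 + a 5 * b 6 + a 6 * b 5 + a 6 * b 7 +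
    a 7 * b 6) := by
  simp [ip, CartanMatrix.E₈, dotProduct, mulVec, Fin.sum_univ_succ]
  ring

theorem ip_comm (a b : Q8) : ip a b = ip b a := by rw [ip_eq, ip_eq]; ring

theorem ip_add_r (a b c : Q8) : ip a (b + c) = ip a b + ip a c := by
  simp only [ip_eq, Pi.add_apply]; ring

theorem ip_add_l (a b c : Q8) : ip (a + b) c = ip a c + ip b c := by
  simp only [ip_eq, Pi.add_apply]; ring

theorem ip_sub_r (a b c : Q8) : ip a (b - c) = ip a b - ip a c := by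
  simp only [ip_eq, Pi.sub_apply]; ring

theorem ip_sub_l (a b c : Q8) : ip (a - b) c = ip a c - ip b c := by
  simp only [ip_eq, Pi.sub_apply]; ring

theorem ip_neg_r (a b : Q8) : ip a (-b) = -ip a b := by
  simp only [ip_eq, Pi.neg_apply]; ring

theorem ip_neg_l (a b : Q8) : ip (-a) b = -ip a b := by
  simp only [ip_eq, Pi.neg_apply]; ring

theorem ip_smul_r (a b : Q8) (t : ℤ) : ip a (t • b) = t * ip a b := by
  simp only [ip_eq, Pi.smul_apply, smul_eq_mul]; ring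

theorem ip_sq (a : Q8) : 4 * ip a a = (a 0 + 2 * a 1 - 2 * a 2) ^ 2 +
    (-a 0 + 2 * a 1 + 2 * a 2 - 2 * a 3) ^ 2 + (-a 0 + 2 * a 3 - 2 * a 4) ^ 2 +
    (-a 0 + 2 * a 4 - 2 * a 5) ^ 2 + (-a 0 + 2 * a 5 - 2 * a 6) ^ 2 +
    (-a 0 + 2 * a 6 - 2 * a 7) ^ 2 + (-a 0 + 2 * a 7) ^ 2 + a 0 ^ 2 := by
  rw [ip_eq]; ring

theorem eq_zero_of_ip {a : Q8} (h : ip a a ≤ 0) : a = 0 := by
  have e := ip_sq a
  have s1 := sq_nonneg (a 0 + 2 * a 1 - 2 * a 2)
  have s2 := sq_nonneg (-a 0 + 2 * a 1 + 2 * a 2 - 2 * a 3)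
  have s3 := sq_nonneg (-a 0 + 2 * a 3 - 2 * a 4)
  have s4 := sq_nonneg (-a 0 + 2 * a 4 - 2 * a 5)
  have s5 := sq_nonneg (-a 0 + 2 * a 5 - 2 * a 6)
  have s6 := sq_nonneg (-a 0 + 2 * a 6 - 2 * a 7)
  have s7 := sq_nonneg (-a 0 + 2 * a 7)
  have s8 := sq_nonneg (a 0)
  have z1 : a 0 + 2 * a 1 - 2 * a 2 = 0 := pow_eq_zero_iff two_ne_zero |>.1 (by omega)
  have z2 : -a 0 + 2 * a 1 + 2 * a 2 - 2 * a 3 = 0 := pow_eq_zero_iff two_ne_zero |>.1 (by omega)
  have z3 : -a 0 + 2 * a 3 - 2 * a 4 = 0 := pow_eq_zero_iff two_ne_zero |>.1 (by omega)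
  have z4 : -a 0 + 2 * a 4 - 2 * a 5 = 0 := pow_eq_zero_iff two_ne_zero |>.1 (by omega)
  have z5 : -a 0 + 2 * a 5 - 2 * a 6 = 0 := pow_eq_zero_iff two_ne_zero |>.1 (by omega)
  have z6 : -a 0 + 2 * a 6 - 2 * a 7 = 0 := pow_eq_zero_iff two_ne_zero |>.1 (by omega)
  have z7 : -a 0 + 2 * a 7 = 0 := pow_eq_zero_iff two_ne_zero |>.1 (by omega)
  have z8 : a 0 = 0 := pow_eq_zero_iff two_ne_zero |>.1 (by omega)
  funext i
  fin_cases i <;> simp <;> omega

/-- two roots are equal or have product at most one -/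
theorem eq_or_le {a b : Q8} (ha : ip a a = 2) (hb : ip b b = 2) : b = a ∨ ip a b ≤ 1 := by
  by_cases h : ip a b ≤ 1
  · exact Or.inr h
  · refine Or.inl (sub_eq_zero.1 (eq_zero_of_ip ?_))
    rw [ip_sub_l, ip_sub_r, ip_sub_r, ip_comm b a]
    omega

/-- exponent of the cocycle -/
def bf (a b : Q8) : ℤ :=
  a ⬝ᵥ b + a 0 * b 2 + (a 1 + a 2 + a 4) * b 3 + a 5 * b 4 + a 6 * b 5 + a 7 * b 6

theorem eps_def (a b : Q8) : eps a b = (Int.negOnePow (bf a b) : ℤ) := rfl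

theorem bf_eq (a b : Q8) : bf a b = a 0 * b 0 + a 1 * b 1 + a 2 * b 2 + a 3 * b 3 + a 4 * b 4 +
    a 5 * b 5 + a 6 * b 6 + a 7 * b 7 + a 0 * b 2 + (a 1 + a 2 + a 4) * b 3 + a 5 * b 4 +
    a 6 * b 5 + a 7 * b 6 := by
  simp [bf, dotProduct, Fin.sum_univ_succ]
  ring

theorem eps_add_r (a b c : Q8) : eps a (b + c) = eps a b * eps a c := by
  have : bf a (b + c) = bf a b + bf a c := by simp only [bf_eq, Pi.add_apply]; ring
  simp only [eps_def, this, Int.negOnePow_add, Units.val_mul]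

theorem eps_add_l (a b c : Q8) : eps (a + b) c = eps a c * eps b c := by
  have : bf (a + b) c = bf a c + bf b c := by simp only [bf_eq, Pi.add_apply]; ring
  simp only [eps_def, this, Int.negOnePow_add, Units.val_mul]

theorem eps_neg_r (a b : Q8) : eps a (-b) = eps a b := by
  have : bf a (-b) = -bf a b := by simp only [bf_eq, Pi.neg_apply]; ring
  simp only [eps_def, this, Int.negOnePow_neg]

theorem eps_neg_l (a b : Q8) : eps (-a) b = eps a b := by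
  have : bf (-a) b = -bf a b := by simp only [bf_eq, Pi.neg_apply]; ring
  simp only [eps_def, this, Int.negOnePow_neg]

theorem eps_sub_r (a b c : Q8) : eps a (b - c) = eps a b * eps a c := by
  rw [sub_eq_add_neg, eps_add_r, eps_neg_r]

theorem eps_cases (a b : Q8) : eps a b = 1 ∨ eps a b = -1 := by
  rw [eps_def]
  rcases Int.units_eq_one_or (Int.negOnePow (bf a b)) with h | h <;> simp [h]

theorem eps_sq (a b : Q8) : eps a b * eps a b = 1 := by
  rcases eps_cases a b with h | h <;> simp [h]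

theorem eps_mul_comm (a b : Q8) : eps a b * eps b a = (Int.negOnePow (ip a b) : ℤ) := by
  rw [eps_def, eps_def, ← Units.val_mul, ← Int.negOnePow_add]
  congr 1
  rw [Int.negOnePow_eq_iff]
  refine ⟨a 0 * b 2 + a 2 * b 0 + a 1 * b 3 + a 3 * b 1 + a 2 * b 3 +
    a 3 * b 2 + a 3 * b 4 + a 4 * b 3 + a 4 * b 5 + a 5 * b 4 + a 5 * b 6 + a 6 * b 5 + a 6 * b 7 +
    a 7 * b 6, ?_⟩
  rw [bf_eq, bf_eq, ip_eq]; ring

theorem eps_self {a : Q8} (ha : ip a a = 2) : eps a a = -1 := by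
  rw [eps_def, Int.negOnePow_odd]
  · simp
  · refine ⟨a 0 * a 2 + a 1 * a 3 + a 2 * a 3 + a 3 * a 4 + a 4 * a 5 + a 5 * a 6 + a 6 * a 7, ?_⟩
    rw [ip_eq] at ha
    rw [bf_eq]
    linarith

theorem eps_swap0 {a b : Q8} (h : ip a b = 0) : eps b a = eps a b := by
  have := eps_mul_comm a b
  rw [h] at this
  rcases eps_cases a b with h1 | h1 <;> rcases eps_cases b a with h2 | h2 <;> simp_all

theorem eps_swap1 {a b : Q8} (h : ip a b = 1 ∨ ip a b = -1) : eps b a = -eps a b := by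
  have := eps_mul_comm a b
  rcases h with h | h <;> rw [h] at this <;>
    rcases eps_cases a b with h1 | h1 <;> rcases eps_cases b a with h2 | h2 <;> simp_all

/-! coordinates of `xE a t v` -/

abbrev V8 : Type := Q8 × (Q8 → ℤ)

theorem x1 (a : Q8) (t : ℤ) (v : V8) : (xE a t v).1 = v.1 - (t * v.2 (-a)) • a := rfl

theorem x2 (a : Q8) (t : ℤ) (v : V8) :
    (xE a t v).2 a = v.2 a + (t ^ 2 * v.2 (-a) - t * ip a v.1) := by
  simp [xE]

theorem x0 {a d : Q8} (ha : ip a a = 2) (h : ip a d ≤ 0) (t : ℤ) (v : V8) :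
    (xE a t v).2 d = v.2 d := by
  have h1 : d ≠ a := by rintro rfl; omega
  have h2 : ¬ (ip d d = 2 ∧ ip a d = 1) := by omega
  simp [xE, h1, h2]

theorem xN {a d : Q8} (ha : ip a a = 2) (h : ip d d ≠ 2) (t : ℤ) (v : V8) :
    (xE a t v).2 d = v.2 d := by
  have h1 : d ≠ a := by rintro rfl; omega
  simp [xE, h1, h]

theorem xP {a d : Q8} (ha : ip a a = 2) (hd : ip d d = 2) (h : ip a d = 1) (t : ℤ) (v : V8) :
    (xE a t v).2 d = v.2 d + t * eps a (d - a) * v.2 (d - a) := by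
  have h1 : d ≠ a := by rintro rfl; omega
  simp [xE, h1, h, hd]

theorem mul_app (f g : Function.End V8) (v : V8) : (f * g) v = f (g v) := rfl

end Pool.Agent.Lib.MP_755cca_al.F.RE
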