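import Pool.Agent.Lib.MP_755cca_al.F.Stmt

/-! The step in type `A`, and generation of `SL(n, ℤ)`. -/

open Matrix
open scoped Pointwise

namespace Pool.Agent.Lib.MP_755cca_al.F

namespace AC

theorem pw_map {M N : Type} [Monoid M] [Monoid N] (φ : M →* N) {U V : Submonoid M}
    {U' V' : Submonoid N} (hU : ∀ x ∈ U, φ x ∈ U') (hV : ∀ x ∈ V, φ x ∈ V') (L : ℕ) :
    ∀ x ∈ ((U : Set M) * (V : Set M)) ^ L, φ x ∈ ((U' : Set N) * (V' : Set N)) ^ L := by
  induction L with
  | zero =>
    intro x hx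
    rw [pow_zero] at hx ⊢
    rw [Set.mem_one.1 hx, map_one]
    exact Set.one_mem_one
  | succ L ih =>
    intro x hx
    rw [pow_succ] at hx ⊢
    obtain ⟨y, hy, _, ⟨a, ha, b, hb, rfl⟩, rfl⟩ := hx
    exact ⟨φ y, ih y hy, _, ⟨φ a, hU a ha, φ b, hV b hb, rfl⟩, by simp only [map_mul]⟩

theorem mem_pow_add_two {M : Type} [Monoid M] {U V : Set M} {L : ℕ} {g : M} :
    g ∈ (U * V) ^ (L + 2) ↔
      ∃ a ∈ U, ∃ b ∈ V, ∃ h ∈ (U * V) ^ L, ∃ c ∈ U, ∃ d ∈ V, g = a * b * h * c * d := by
  rw [pow_succ, pow_succ']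
  constructor
  · rintro ⟨_, ⟨_, ⟨a, ha, b, hb, rfl⟩, h, hh, rfl⟩, _, ⟨c, hc, d, hd, rfl⟩, rfl⟩
    exact ⟨a, ha, b, hb, h, hh, c, hc, d, hd, by simp [mul_assoc]⟩
  · rintro ⟨a, ha, b, hb, h, hh, c, hc, d, hd, rfl⟩
    exact ⟨a * b * h, ⟨a * b, ⟨a, ha, b, hb, rfl⟩, h, hh, rfl⟩, c * d, ⟨c, hc, d, hd, rfl⟩,
      by simp [mul_assoc]⟩

theorem step_tv {n : ℕ} (i j : Fin n) (c : ℤ) :
    step n (transvection i j c) = transvection i.succ j.succ c := by
  ext a b
  refine Fin.cases ?_ (fun a => ?_) a <;> refine Fin.cases ?_ (fun b => ?_) b <;>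
    simp [step_apply, stepE, transvection, one_apply, single_apply, (Fin.succ_ne_zero _).symm]

theorem step_pos {n : ℕ} : ∀ x ∈ Submonoid.closure (posA n),
    step n x ∈ Submonoid.closure (posA (n + 1)) := by
  rw [closure_posA, closure_posA]
  intro x hx
  refine Um.map _ _ (fun i j c hij hr => ?_) hx
  exact Submonoid.subset_closure ⟨i.succ, j.succ, c, by simpa using hij, by simpa using hr,
    step_tv i j c⟩

theorem step_neg {n : ℕ} : ∀ x ∈ Submonoid.closure (transpose '' posA n),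
    step n x ∈ Submonoid.closure (transpose '' posA (n + 1)) := by
  rw [closure_negA, closure_negA]
  intro x hx
  refine Um.map _ _ (fun i j c hij hr => ?_) hx
  exact Submonoid.subset_closure ⟨i.succ, j.succ, c, by simpa using hij,
    by simpa [flip] using hr, step_tv i j c⟩

theorem left_le {M : Type} [Monoid M] (s t : Set M) :
    Submonoid.closure s ≤ Submonoid.closure (s ∪ t) := Submonoid.closure_mono Set.subset_union_left

theorem right_le {M : Type} [Monoid M] (s t : Set M) :
    Submonoid.closure t ≤ Submonoid.closure (s ∪ t) :=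
  Submonoid.closure_mono Set.subset_union_right

theorem union_map {M N : Type} [Monoid M] [Monoid N] (φ : M →* N) {s t : Set M} {s' t' : Set N}
    (hs : ∀ x ∈ Submonoid.closure s, φ x ∈ Submonoid.closure s')
    (ht : ∀ x ∈ Submonoid.closure t, φ x ∈ Submonoid.closure t') :
    ∀ x ∈ Submonoid.closure (s ∪ t), φ x ∈ Submonoid.closure (s' ∪ t') := by
  intro x hx
  induction hx using Submonoid.closure_induction with
  | mem x hx =>
    rcases hx with h | h
    · exact left_le _ _ (hs x (Submonoid.subset_closure h))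
    · exact right_le _ _ (ht x (Submonoid.subset_closure h))
  | one => rw [map_one]; exact one_mem _
  | mul a b _ _ ha hb => rw [map_mul]; exact mul_mem ha hb

theorem det_of_mem {n : ℕ} {g : Matrix (Fin n) (Fin n) ℤ}
    (hg : g ∈ Submonoid.closure (posA n ∪ transpose '' posA n)) : g.det = 1 := by
  have hp : ∀ g ∈ posA n, g.det = 1 := by
    rintro _ ⟨i, j, t, h, rfl⟩
    exact det_transvection_of_ne i j h.ne t
  induction hg using Submonoid.closure_induction with
  | mem x hx =>
    rcases hx with h | ⟨y, h, rfl⟩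
    · exact hp x h
    · exact (det_transpose y).trans (hp y h)
  | one => exact det_one
  | mul a b _ _ ha hb => rw [det_mul, ha, hb, one_mul]

theorem sl2_gen {S : Submonoid (Matrix (Fin 2) (Fin 2) ℤ)} (h1 : ∀ t, !![1, t; 0, 1] ∈ S)
    (h2 : ∀ t, !![1, 0; t, 1] ∈ S) {g : Matrix (Fin 2) (Fin 2) ℤ} (h : g.det = 1) : g ∈ S := by
  have key : ∀ γ : SpecialLinearGroup (Fin 2) ℤ, γ.1 ∈ S := by
    intro γ
    have hγ : γ ∈ Subgroup.closure {ModularGroup.S, ModularGroup.T} := by
      rw [SpecialLinearGroup.SL2Z_generators]; trivial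
    induction hγ using Subgroup.closure_induction'' with
    | mem x hx =>
      rcases hx with rfl | rfl
      · simpa [ModularGroup.S] using mul_mem (mul_mem (h1 (-1)) (h2 1)) (h1 (-1))
      · simpa [ModularGroup.T] using h1 1
    | inv_mem x hx =>
      rcases hx with rfl | rfl
      · have := mul_mem (mul_mem (h1 1) (h2 (-1))) (h1 1)
        convert this using 1
        ext i j
        fin_cases i <;> fin_cases j <;> simp [ModularGroup.S, SpecialLinearGroup.SL2_inv_expl]
      · convert h1 (-1) using 1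
        ext i j
        fin_cases i <;> fin_cases j <;> simp [ModularGroup.T, SpecialLinearGroup.SL2_inv_expl]
    | one => exact one_mem _
    | mul x y _ _ hx hy => exact mul_mem hx hy
  exact key ⟨g, h⟩

theorem mem_of_det : ∀ (n : ℕ) (g : Matrix (Fin n) (Fin n) ℤ), g.det = 1 →
    g ∈ Submonoid.closure (posA n ∪ transpose '' posA n)
  | 0, g, _ => by rw [Subsingleton.elim g 1]; exact one_mem _
  | 1, g, h => by
    have : g = 1 := by
      ext i j
      rw [Subsingleton.elim i 0, Subsingleton.elim j 0, one_apply_eq, ← h, det_fin_one]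
    rw [this]; exact one_mem _
  | 2, g, h => by
    refine sl2_gen (fun t => Submonoid.subset_closure (Or.inl ⟨0, 1, t, by decide, ?_⟩))
      (fun t => Submonoid.subset_closure (Or.inr ⟨_, ⟨0, 1, t, by decide, rfl⟩, ?_⟩)) h
    · ext i j; fin_cases i <;> fin_cases j <;> simp
    · ext i j; fin_cases i <;> fin_cases j <;> simp
  | n + 3, g, h => by
    obtain ⟨S, h1, h2⟩ := step_fin (n := n + 2) (by omega) g (by rw [h]; exact isUnit_one)
    obtain ⟨a, ha, b, hb, c, hc, d, hd, e⟩ := h2 S (Leads.refl _ _)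
    rw [← closure_posA] at ha hc
    rw [← closure_negA] at hb hd
    rw [e]
    exact mul_mem (mul_mem (mul_mem (mul_mem (left_le _ _ ha) (right_le _ _ hb))
      (union_map _ step_pos step_neg S (mem_of_det (n + 2) S (h1.trans h)))) (left_le _ _ hc))
      (right_le _ _ hd)

theorem stepA (n L : ℕ) (hn : 2 ≤ n) (hL : 2 ≤ L) (h : UpA n L) : UpA (n + 1) L := by
  obtain ⟨L, rfl⟩ : ∃ k, L = k + 2 := ⟨L - 2, by omega⟩
  intro g hg
  have hd := det_of_mem hg
  obtain ⟨S, h1, h2⟩ := step_fin hn g (by rw [hd]; exact isUnit_one)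
  obtain ⟨a, ha, b, hb, k, hk, c, hc, d, hd', e⟩ :=
    mem_pow_add_two.1 (h (mem_of_det n S (h1.trans hd)))
  rw [SetLike.mem_coe, closure_posA] at ha hc
  rw [SetLike.mem_coe, closure_negA] at hb hd'
  obtain ⟨a', ha', b', hb', c', hc', d', hd'', e'⟩ := h2 k ⟨a, ha, b, hb, c, hc, d, hd', e⟩
  rw [← closure_posA] at ha' hc'
  rw [← closure_negA] at hb' hd''
  exact mem_pow_add_two.2 ⟨a', ha', b', hb', _, pw_map _ step_pos step_neg L k hk, c', hc',
    d', hd'', e'⟩

end AC

end Pool.Agent.Lib.MP_755cca_al.F
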