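import Pool.Agent.Lib.MP_755cca_al.F.Stmt

/-! The abstract step from two parabolic decompositions, and transfer from `SL(n, ℤ)`. -/

open Matrix
open scoped Pointwise

namespace Pool.Agent.Lib.MP_755cca_al.F.SA

variable {M : Type} [Monoid M]

/-- parabolic data: radicals `P`, `Q`, Levi part `H` with unipotent parts `Uh`, `Vh` -/
structure ParD (U V P Q Uh Vh H : Submonoid M) : Prop where
  cp : Norm H P
  cq : Norm H Q
  hU : (U : Set M) ⊆ (P : Set M) * Uh
  hV : (V : Set M) ⊆ (Q : Set M) * Vh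
  h1 : Uh ≤ H
  h2 : Vh ≤ H
  h3 : P ≤ U
  h4 : Q ≤ V
  h5 : Uh ≤ U
  h6 : Vh ≤ V

theorem abs_step {U V P Q Uh Vh H P' Q' Uh' Vh' H' : Submonoid M}
    (d : ParD U V P Q Uh Vh H) (d' : ParD U V P' Q' Uh' Vh' H')
    (hH : (H : Set M) ⊆ (Uh : Set M) * (Vh * ({1} * (Uh * Vh))))
    (hH' : (H' : Set M) ⊆ (Uh' : Set M) * (Vh' * ((H' ⊓ H : Submonoid M) * (Uh' * Vh')))) :
    H ≤ Stab (Om U V) ∧ H' ≤ Stab (Om U V) := by
  have hs := parabolic (K := {1}) (K' := (H : Set M)) d.cp d.cq d.hU d.hV d.h1 d.h2 d.h3 d.h4 d.h5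
    d.h6 (by simp) subset_rfl hH
  refine ⟨le_Stab_of hs, ?_⟩
  have h1 := parabolic (K' := {1}) d'.cp d'.cq d'.hU d'.hV d'.h1 d'.h2 d'.h3 d'.h4 d'.h5 d'.h6
    (fun _ hx => hx.1) (by simp) hH'
  intro x hx y hy
  have h2 := h1 ⟨x, hx, y, hy, rfl⟩
  have h3 : ((H' ⊓ H : Submonoid M) : Set M) ⊆ H := fun _ hx => hx.2
  refine hs ⟨1, one_mem _, x * y, ?_, one_mul _⟩
  exact Set.mul_subset_mul_left (Set.mul_subset_mul_left (Set.mul_subset_mul_right h3)) h2

theorem up_of_stab {pos neg : Set M}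
    (h : neg ⊆ Stab (Om (Submonoid.closure pos) (Submonoid.closure neg))) : Up pos neg 2 := by
  intro g hg
  refine mem_sq.2 (Om_of_le (G := Submonoid.closure (pos ∪ neg)) ?_ g hg)
  refine Submonoid.closure_le.2 ?_
  rintro x (hx | hx)
  · exact le_Stab_Om _ _ (Submonoid.subset_closure hx)
  · exact h hx

/-- the elementary matrix in the special linear group -/
abbrev tv {n : ℕ} (i j : Fin n) (h : i ≠ j) (t : ℤ) : SpecialLinearGroup (Fin n) ℤ :=
  ⟨transvection i j t, det_transvection_of_ne i j h t⟩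

theorem map_Um {n : ℕ} (φ : SpecialLinearGroup (Fin n) ℤ →* M) {r : Fin n → Fin n → Prop}
    (N : Submonoid M) (h : ∀ i j (hij : i ≠ j) t, r i j → φ (tv i j hij t) ∈ N)
    {u : Matrix (Fin n) (Fin n) ℤ} (hu : u ∈ Um r) : φ ⟨u, Um.det hu⟩ ∈ N := by
  induction hu using Submonoid.closure_induction with
  | mem A hA =>
    obtain ⟨i, j, c, hij, hr, rfl⟩ := hA
    exact h i j hij c hr
  | one => exact (show φ 1 ∈ N by rw [map_one]; exact one_mem _)
  | mul A B hA' hB' hA hB =>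
    have h2 := mul_mem hA hB
    rw [← map_mul] at h2
    exact h2

/-- the image of the group generated by the elementary matrices -/
def Img {n : ℕ} (φ : SpecialLinearGroup (Fin n) ℤ →* M) : Submonoid M where
  carrier := {x | ∃ g : SpecialLinearGroup (Fin n) ℤ,
    g.1 ∈ Submonoid.closure (posA n ∪ transpose '' posA n) ∧ φ g = x}
  one_mem' := ⟨1, one_mem _, map_one φ⟩
  mul_mem' := by
    rintro _ _ ⟨a, ha, rfl⟩ ⟨b, hb, rfl⟩
    exact ⟨a * b, mul_mem ha hb, map_mul φ a b⟩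

theorem tv_mem_Img {n : ℕ} (φ : SpecialLinearGroup (Fin n) ℤ →* M) (i j : Fin n) (h : i ≠ j)
    (t : ℤ) : φ (tv i j h t) ∈ Img φ := by
  refine ⟨_, Submonoid.subset_closure ?_, rfl⟩
  rcases lt_or_gt_of_ne h with h1 | h1
  · exact Or.inl ⟨i, j, t, h1, rfl⟩
  · exact Or.inr ⟨_, ⟨j, i, t, h1, rfl⟩, by simp [transvection, transpose_single]⟩

theorem sln_sub {n : ℕ} (hn : UpA n 2) (φ : SpecialLinearGroup (Fin n) ℤ →* M)
    (A B : Submonoid M) (hA : ∀ i j (h : i ≠ j) t, i < j → φ (tv i j h t) ∈ A)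
    (hB : ∀ i j (h : i ≠ j) t, j < i → φ (tv i j h t) ∈ B) :
    (Img φ : Set M) ⊆ (A : Set M) * (B * ({1} * (A * B))) := by
  rintro _ ⟨g, hg, rfl⟩
  obtain ⟨a, ha, b, hb, c, hc, d, hd, e⟩ := mem_sq.1 (hn hg)
  rw [SetLike.mem_coe, closure_posA] at ha hc
  rw [SetLike.mem_coe, closure_negA] at hb hd
  have e' : g = ⟨a, Um.det ha⟩ * (⟨b, Um.det hb⟩ * (⟨c, Um.det hc⟩ * ⟨d, Um.det hd⟩)) :=
    Subtype.ext (by rw [e]; simp [mul_assoc])
  rw [e', map_mul, map_mul, map_mul]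
  exact ⟨_, map_Um φ A hA ha, _, ⟨_, map_Um φ B hB hb, _, ⟨1, rfl, _,
    ⟨_, map_Um φ A hA hc, _, map_Um φ B hB hd, rfl⟩, one_mul _⟩, rfl⟩, rfl⟩

theorem step_two (a b c d : ℤ) : step 2 !![a, b; c, d] = !![1, 0, 0; 0, a, b; 0, c, d] := by
  ext i j
  fin_cases i <;> fin_cases j <;> rfl

theorem corner_mem (φ : SpecialLinearGroup (Fin 3) ℤ →* M) (C : Submonoid M)
    (h1 : ∀ t, φ (tv 1 2 (by decide) t) ∈ C) (h2 : ∀ t, φ (tv 2 1 (by decide) t) ∈ C)
    (γ : SpecialLinearGroup (Fin 2) ℤ) :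
    φ ⟨step 2 γ.1, by rw [det_step]; exact γ.2⟩ ∈ C := by
  let ψ : SpecialLinearGroup (Fin 2) ℤ →* SpecialLinearGroup (Fin 3) ℤ :=
    { toFun := fun γ => ⟨step 2 γ.1, by rw [det_step]; exact γ.2⟩
      map_one' := Subtype.ext (map_one (step 2))
      map_mul' := fun a b => Subtype.ext (map_mul (step 2) a.1 b.1) }
  have e1 : ∀ t : ℤ, ψ (tv 0 1 (by decide) t) = tv 1 2 (by decide) t := fun t => by
    refine Subtype.ext ?_
    have : transvection (0 : Fin 2) 1 t = !![1, t; 0, 1] := by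
      ext i j
      fin_cases i <;> fin_cases j <;> simp [transvection]
    show step 2 (transvection 0 1 t) = transvection 1 2 t
    rw [this, step_two]
    ext i j
    fin_cases i <;> fin_cases j <;> simp [transvection]
  have e2 : ∀ t : ℤ, ψ (tv 1 0 (by decide) t) = tv 2 1 (by decide) t := fun t => by
    refine Subtype.ext ?_
    have : transvection (1 : Fin 2) 0 t = !![1, 0; t, 1] := by
      ext i j
      fin_cases i <;> fin_cases j <;> simp [transvection]
    show step 2 (transvection 1 0 t) = transvection 2 1 t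
    rw [this, step_two]
    ext i j
    fin_cases i <;> fin_cases j <;> simp [transvection]
  have a1 : ∀ t : ℤ, φ (ψ (tv 0 1 (by decide) t)) ∈ C := fun t => by rw [e1]; exact h1 t
  have a2 : ∀ t : ℤ, φ (ψ (tv 1 0 (by decide) t)) ∈ C := fun t => by rw [e2]; exact h2 t
  have b : ∀ s t : ℤ, φ (ψ (tv 0 1 (by decide) s * tv 1 0 (by decide) t * tv 0 1 (by decide) s))
      ∈ C := fun s t => by
    simp only [map_mul]
    exact mul_mem (mul_mem (a1 s) (a2 t)) (a1 s)
  show φ (ψ γ) ∈ C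
  have hγ : γ ∈ Subgroup.closure {ModularGroup.S, ModularGroup.T} := by
    rw [SpecialLinearGroup.SL2Z_generators]; trivial
  induction hγ using Subgroup.closure_induction'' with
  | mem x hx =>
    rcases hx with rfl | rfl
    · convert b (-1) 1
      ext i j
      fin_cases i <;> fin_cases j <;>
        simp [ModularGroup.S, transvection, mul_apply, Fin.sum_univ_two]
    · convert a1 1
      ext i j
      fin_cases i <;> fin_cases j <;> simp [ModularGroup.T, transvection]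
  | inv_mem x hx =>
    rcases hx with rfl | rfl
    · convert b 1 (-1)
      ext i j
      fin_cases i <;> fin_cases j <;>
        simp [ModularGroup.S, transvection, mul_apply, Fin.sum_univ_two,
          SpecialLinearGroup.SL2_inv_expl]
    · convert a1 (-1)
      ext i j
      fin_cases i <;> fin_cases j <;>
        simp [ModularGroup.T, transvection, SpecialLinearGroup.SL2_inv_expl]
  | one => rw [map_one, map_one]; exact one_mem _
  | mul x y _ _ hx hy => rw [map_mul, map_mul]; exact mul_mem hx hy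

theorem sl3_sub (φ : SpecialLinearGroup (Fin 3) ℤ →* M) (A B C : Submonoid M)
    (hA : ∀ i j (h : i ≠ j) t, i < j → φ (tv i j h t) ∈ A)
    (hB : ∀ i j (h : i ≠ j) t, j < i → φ (tv i j h t) ∈ B)
    (h1 : ∀ t, φ (tv 1 2 (by decide) t) ∈ C) (h2 : ∀ t, φ (tv 2 1 (by decide) t) ∈ C)
    (g : SpecialLinearGroup (Fin 3) ℤ) : φ g ∈ (A : Set M) * (B * (C * (A * B))) := by
  obtain ⟨S, hS, hL⟩ := step_fin (n := 2) le_rfl g.1 (by rw [g.2]; exact isUnit_one)
  obtain ⟨a, ha, b, hb, c, hc, d, hd, e⟩ := hL S (Leads.refl _ S)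
  have hS1 : S.det = 1 := hS.trans g.2
  have e' : g = ⟨a, Um.det ha⟩ * (⟨b, Um.det hb⟩ * (⟨step 2 S, by rw [det_step]; exact hS1⟩ *
      (⟨c, Um.det hc⟩ * ⟨d, Um.det hd⟩))) :=
    Subtype.ext (by rw [e]; simp [mul_assoc])
  rw [e', map_mul, map_mul, map_mul, map_mul]
  exact ⟨_, map_Um φ A hA ha, _, ⟨_, map_Um φ B hB hb, _, ⟨_, corner_mem φ C h1 h2 ⟨S, hS1⟩, _,
    ⟨_, map_Um φ A hA hc, _, map_Um φ B hB hd, rfl⟩, rfl⟩, rfl⟩, rfl⟩

end Pool.Agent.Lib.MP_755cca_al.F.SA
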