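import Pool.Agent.Lib.MP_755cca_al.F.StepA

/-! Symplectic transformations fixing a vector, and corners of matrix rings. -/

open Matrix
open scoped Pointwise

namespace Pool.Agent.Lib.MP_755cca_al.F

namespace AC

section Gen

variable {ι κ : Type} [Fintype ι] [DecidableEq ι] [Fintype κ] [DecidableEq κ]

/-- the transformation attached to a vector `e`, a vector `a` orthogonal to it and a number -/
def Ei (J : Matrix ι ι ℤ) (e a : ι → ℤ) (z : ℤ) : Matrix ι ι ℤ :=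
  1 + vecMulVec a (J *ᵥ e) + vecMulVec e (J *ᵥ a) + z • vecMulVec e (J *ᵥ e)

variable {J : Matrix ι ι ℤ}

omit [DecidableEq ι] in
theorem om_anti (hJ : Jᵀ = -J) (u v : ι → ℤ) : u ⬝ᵥ J *ᵥ v = -(v ⬝ᵥ J *ᵥ u) := by
  rw [dotProduct_mulVec, ← mulVec_transpose, hJ, neg_mulVec, neg_dotProduct, dotProduct_comm]

omit [DecidableEq ι] in
theorem om_self (hJ : Jᵀ = -J) (u : ι → ℤ) : u ⬝ᵥ J *ᵥ u = 0 := by
  have := om_anti hJ u u
  omega

theorem Ei_zero (e : ι → ℤ) : Ei J e 0 0 = 1 := by simp [Ei]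

theorem Ei_mul (hJ : Jᵀ = -J) {e a b : ι → ℤ} (ha : a ⬝ᵥ J *ᵥ e = 0) (hb : b ⬝ᵥ J *ᵥ e = 0)
    (z w : ℤ) : Ei J e a z * Ei J e b w = Ei J e (a + b) (z + w + b ⬝ᵥ J *ᵥ a) := by
  have h1 : J *ᵥ e ⬝ᵥ b = 0 := by rw [dotProduct_comm, hb]
  have h2 : J *ᵥ e ⬝ᵥ e = 0 := by rw [dotProduct_comm, om_self hJ]
  have h3 : J *ᵥ a ⬝ᵥ e = 0 := by rw [dotProduct_comm, om_anti hJ, ha, neg_zero]
  have h4 : J *ᵥ a ⬝ᵥ b = b ⬝ᵥ J *ᵥ a := dotProduct_comm _ _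
  simp only [Ei, Matrix.mul_add, Matrix.add_mul, Matrix.one_mul, Matrix.mul_one, Matrix.smul_mul,
    Matrix.mul_smul, vecMulVec_mul_vecMulVec, h1, h2, h3, h4, zero_smul, vecMulVec_zero,
    smul_zero, add_zero, mulVec_add, add_vecMulVec, vecMulVec_add, vecMulVec_smul, add_smul]
  abel

theorem Ei_conj {m : Matrix ι ι ℤ} (hm : mᵀ * J * m = J) {e : ι → ℤ} (he : m *ᵥ e = e)
    (a : ι → ℤ) (z : ℤ) : m * Ei J e a z = Ei J e (m *ᵥ a) z * m := by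
  have k : ∀ v, (J *ᵥ (m *ᵥ v)) ᵥ* m = J *ᵥ v := fun v => by
    rw [← mulVec_transpose, mulVec_mulVec, mulVec_mulVec, hm]
  have k2 : (J *ᵥ e) ᵥ* m = J *ᵥ e := by have := k e; rwa [he] at this
  simp only [Ei, Matrix.mul_add, Matrix.add_mul, Matrix.one_mul, Matrix.mul_one, Matrix.smul_mul,
    Matrix.mul_smul, mul_vecMulVec, vecMulVec_mul, he, k, k2]

omit [DecidableEq ι] in
theorem om_inv {m : Matrix ι ι ℤ} (hm : mᵀ * J * m = J) (u v : ι → ℤ) :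
    m *ᵥ u ⬝ᵥ J *ᵥ (m *ᵥ v) = u ⬝ᵥ J *ᵥ v := by
  rw [dotProduct_comm, dotProduct_mulVec, ← mulVec_transpose, mulVec_mulVec, mulVec_mulVec, hm,
    dotProduct_comm]

theorem Ei_fix (hJ : Jᵀ = -J) {e a : ι → ℤ} (ha : a ⬝ᵥ J *ᵥ e = 0) (z : ℤ) :
    Ei J e a z *ᵥ e = e := by
  have h2 : J *ᵥ e ⬝ᵥ e = 0 := by rw [dotProduct_comm, om_self hJ]
  have h3 : J *ᵥ a ⬝ᵥ e = 0 := by rw [dotProduct_comm, om_anti hJ, ha, neg_zero]
  simp only [Ei, add_mulVec, one_mulVec, smul_mulVec, vecMulVec_mulVec, h2, h3]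
  simp

/-- the set of these transformations -/
def IsP (J : Matrix ι ι ℤ) (e : ι → ℤ) (g : Matrix ι ι ℤ) : Prop :=
  ∃ a z, a ⬝ᵥ J *ᵥ e = 0 ∧ g = Ei J e a z

theorem IsP.inv (hJ : Jᵀ = -J) {e : ι → ℤ} {g : Matrix ι ι ℤ} (h : IsP J e g) :
    ∃ g', IsP J e g' ∧ g * g' = 1 ∧ g' * g = 1 := by
  obtain ⟨a, z, ha, rfl⟩ := h
  have ha' : (-a) ⬝ᵥ J *ᵥ e = 0 := by rw [neg_dotProduct, ha, neg_zero]
  have : Ei J e a z * Ei J e (-a) (-z) = 1 := by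
    rw [Ei_mul hJ ha ha', neg_dotProduct, om_self hJ]
    simp [Ei_zero]
  exact ⟨_, ⟨-a, -z, ha', rfl⟩, this, mul_eq_one_comm.1 this⟩

theorem IsP.conj {m : Matrix ι ι ℤ} (hm : mᵀ * J * m = J) {e : ι → ℤ} (he : m *ᵥ e = e)
    {g : Matrix ι ι ℤ} (h : IsP J e g) : ∃ g', IsP J e g' ∧ m * g = g' * m := by
  obtain ⟨a, z, ha, rfl⟩ := h
  refine ⟨_, ⟨m *ᵥ a, z, ?_, rfl⟩, Ei_conj hm he a z⟩
  have := om_inv hm a e
  rwa [he, ha] at this

theorem IsP.fix (hJ : Jᵀ = -J) {e : ι → ℤ} {g : Matrix ι ι ℤ} (h : IsP J e g) : g *ᵥ e = e := by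
  obtain ⟨a, z, ha, rfl⟩ := h
  exact Ei_fix hJ ha z

/-- a unit entry by one row and one column operation -/
theorem exists_unit (p : ι) {i j : ι} (hi : i ≠ p) (hj : j ≠ p) (hij : i ≠ j) (g : Matrix ι ι ℤ)
    (hg : IsUnit g.det) : ∃ x y : ι → ℤ, x p = 1 ∧ y p = 1 ∧ x ᵥ* g ⬝ᵥ y = 1 := by
  obtain ⟨x, w, hw⟩ := sr_mat (κ := {k // k ≠ p}) (i := ⟨i, hi⟩) (j := ⟨j, hj⟩)
    (by simpa using hij) (fun k => g p k) (of fun (a : {k // k ≠ p}) k => g a k) (fun z => by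
      let z' : ι → ℤ := fun k => if h : k = p then 0 else z ⟨k, h⟩
      refine ⟨(z' ᵥ* g⁻¹) p, fun k => (z' ᵥ* g⁻¹) k, ?_⟩
      ext k
      have : ((z' ᵥ* g⁻¹) ᵥ* g) k = z k := by
        rw [vecMul_vecMul, nonsing_inv_mul _ hg, vecMul_one]
        simp [z', k.2]
      rw [← this]
      generalize z' ᵥ* g⁻¹ = u
      simp only [vecMul, dotProduct]
      rw [Fintype.sum_eq_add_sum_subtype_ne _ p]
      simp [vecMul, dotProduct])
  let x' : ι → ℤ := fun k => if h : k = p then 1 else x ⟨k, h⟩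
  have hx : ∀ k : {k // k ≠ p}, (x' ᵥ* g) k =
      ((fun k : {k // k ≠ p} => g p k) +
        x ᵥ* (of fun (a : {k // k ≠ p}) (k : {k // k ≠ p}) => g a k)) k := by
    intro k
    simp only [vecMul, dotProduct]
    rw [Fintype.sum_eq_add_sum_subtype_ne _ p]
    simp only [x', dif_pos, one_mul, Pi.add_apply, vecMul, dotProduct, of_apply]
    congr 1
    exact Finset.sum_congr rfl fun a _ => by rw [dif_neg a.2]
  refine ⟨x', fun k => if h : k = p then 1 else (1 - (x' ᵥ* g) p) * w ⟨k, h⟩, by simp [x'],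
    by simp, ?_⟩
  rw [dotProduct, Fintype.sum_eq_add_sum_subtype_ne _ p]
  have : ∑ k : {k // k ≠ p}, (x' ᵥ* g) k *
      (if h : (k : ι) = p then 1 else (1 - (x' ᵥ* g) p) * w ⟨k, h⟩) = 1 - (x' ᵥ* g) p := by
    generalize 1 - (x' ᵥ* g) p = s
    have h2 := congrArg (s * ·) hw
    simp only [mul_one] at h2
    refine Eq.trans ?_ h2
    rw [dotProduct, Finset.mul_sum]
    refine Finset.sum_congr rfl fun a _ => ?_
    rw [dif_neg a.2, hx]
    ring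
  rw [this]
  simp

/-- the corner given by an isometric embedding -/
def emb (S : Matrix κ ι ℤ) (hS : S * Sᵀ = 1) : Matrix κ κ ℤ →* Matrix ι ι ℤ where
  toFun A := 1 + Sᵀ * (A - 1) * S
  map_one' := by simp
  map_mul' A B := by
    have : Sᵀ * (A - 1) * S * (Sᵀ * (B - 1) * S) = Sᵀ * ((A - 1) * (B - 1)) * S := by
      calc _ = Sᵀ * (A - 1) * (S * Sᵀ) * (B - 1) * S := by simp only [Matrix.mul_assoc]
        _ = _ := by rw [hS]; simp only [Matrix.mul_assoc, Matrix.mul_one]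
    rw [Matrix.add_mul, Matrix.mul_add, Matrix.mul_add, this]
    have e : A * B - 1 = (B - 1) + ((A - 1) + (A - 1) * (B - 1)) := by noncomm_ring
    rw [e]
    simp only [Matrix.mul_add, Matrix.add_mul, Matrix.one_mul, Matrix.mul_one, add_assoc]

theorem emb_apply (S : Matrix κ ι ℤ) (hS : S * Sᵀ = 1) (A : Matrix κ κ ℤ) :
    emb S hS A = 1 + Sᵀ * (A - 1) * S := rfl

theorem emb_transpose (S : Matrix κ ι ℤ) (hS : S * Sᵀ = 1) (A : Matrix κ κ ℤ) :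
    (emb S hS A)ᵀ = emb S hS Aᵀ := by
  simp [emb_apply, Matrix.mul_assoc]

theorem emb_fix (S : Matrix κ ι ℤ) (hS : S * Sᵀ = 1) (A : Matrix κ κ ℤ) {e : ι → ℤ}
    (he : S *ᵥ e = 0) : emb S hS A *ᵥ e = e := by
  rw [emb_apply, add_mulVec, one_mulVec, ← mulVec_mulVec, he, mulVec_zero, add_zero]

theorem emb_eq (S : Matrix κ ι ℤ) (hS : S * Sᵀ = 1) {m N : Matrix ι ι ℤ} (hN : Sᵀ * S = 1 - N)
    (h1 : m * N = N) (h2 : N * m = N) : emb S hS (S * m * Sᵀ) = m := by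
  have h3 : (1 - N) * (1 - N) = 1 - N := by
    rw [← hN]
    calc Sᵀ * S * (Sᵀ * S) = Sᵀ * (S * Sᵀ) * S := by simp only [Matrix.mul_assoc]
      _ = _ := by rw [hS, Matrix.mul_one]
  have h4 : N * N = N := by
    have : (1 - N) * (1 - N) = 1 - N - N + N * N := by noncomm_ring
    rw [this] at h3
    have h5 : N * N = (1 - N - N + N * N) - (1 - N) + N := by abel
    rw [h5, h3, sub_self, zero_add]
  rw [emb_apply, Matrix.mul_sub, Matrix.sub_mul, Matrix.mul_one, hN]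
  have : Sᵀ * (S * m * Sᵀ) * S = (1 - N) * m * (1 - N) := by
    rw [← hN]; simp only [Matrix.mul_assoc]
  rw [this, sub_mul, one_mul, h2, mul_sub, mul_one, sub_mul, h1, h4]
  abel

omit [DecidableEq κ] in
theorem corner_sp (S : Matrix κ ι ℤ) {m N : Matrix ι ι ℤ} {J' : Matrix κ κ ℤ}
    (hN : Sᵀ * S = 1 - N) (hSN : S * N = 0) (hNt : Nᵀ = N) (hJ' : S * J * Sᵀ = J')
    (h1 : m * N = N) (hm : m * J * mᵀ = J) :
    S * m * Sᵀ * J' * (S * m * Sᵀ)ᵀ = J' := by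
  have a1 : S * m * (1 - N) = S * m := by
    rw [Matrix.mul_sub, Matrix.mul_one, Matrix.mul_assoc, h1, hSN, sub_zero]
  have a2 : (1 - N) * (mᵀ * Sᵀ) = mᵀ * Sᵀ := by
    have := congrArg transpose a1
    simpa only [transpose_mul, transpose_sub, transpose_one, hNt] using this
  calc S * m * Sᵀ * J' * (S * m * Sᵀ)ᵀ
      = S * m * (Sᵀ * S) * J * ((Sᵀ * S) * (mᵀ * Sᵀ)) := by
        rw [← hJ']
        simp only [transpose_mul, transpose_transpose, Matrix.mul_assoc]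
    _ = S * (m * J * mᵀ) * Sᵀ := by rw [hN, a1, a2]; simp only [Matrix.mul_assoc]
    _ = J' := by rw [hm, hJ']

end Gen

end AC

end Pool.Agent.Lib.MP_755cca_al.F
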