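import Pool.Agent.Lib.MP_755cca_al.F.StepAbs
import Pool.Agent.Lib.MP_755cca_al.F.RootE

/-! Subgroups generated by root elements in the model of `E₈`. -/

open Matrix
open scoped Pointwise

namespace Pool.Agent.Lib.MP_755cca_al.F.SE

open SA

/-- the ambient monoid -/
abbrev ME : Type := Function.End (Q8 × (Q8 → ℤ))

/-- the monoid generated by the root elements of the roots with property `S` -/
def Xs (S : Q8 → Prop) : Submonoid ME :=
  Submonoid.closure {g | ∃ a t, ip a a = 2 ∧ S a ∧ g = xE a t}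

theorem mem_Xs {S : Q8 → Prop} {a : Q8} (ha : ip a a = 2) (hs : S a) (t : ℤ) : xE a t ∈ Xs S :=
  Submonoid.subset_closure ⟨a, t, ha, hs, rfl⟩

theorem Xs_le {S : Q8 → Prop} {N : Submonoid ME}
    (h : ∀ a t, ip a a = 2 → S a → xE a t ∈ N) : Xs S ≤ N := by
  refine Submonoid.closure_le.2 ?_
  rintro _ ⟨a, t, ha, hs, rfl⟩
  exact h a t ha hs

/-- exponent of the sign cocycle -/
def Bq (a b : Q8) : ℤ :=
  a ⬝ᵥ b + a 0 * b 2 + (a 1 + a 2 + a 4) * b 3 + a 5 * b 4 + a 6 * b 5 + a 7 * b 6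

theorem eps_eq (a b : Q8) : eps a b = ((Int.negOnePow (Bq a b) : ℤˣ) : ℤ) := rfl

theorem eps_addl (a b c : Q8) : eps (a + b) c = eps a c * eps b c := by
  have : Bq (a + b) c = Bq a c + Bq b c := by
    simp only [Bq, add_dotProduct, Pi.add_apply]; ring
  rw [eps_eq, eps_eq, eps_eq, this, Int.negOnePow_add, Units.val_mul]

theorem eps_addr (a b c : Q8) : eps a (b + c) = eps a b * eps a c := by
  have : Bq a (b + c) = Bq a b + Bq a c := by
    simp only [Bq, dotProduct_add, Pi.add_apply]; ring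
  rw [eps_eq, eps_eq, eps_eq, this, Int.negOnePow_add, Units.val_mul]

theorem eps_negl (a b : Q8) : eps (-a) b = eps a b := by
  have : Bq (-a) b = -Bq a b := by
    simp only [Bq, neg_dotProduct, Pi.neg_apply]; ring
  rw [eps_eq, eps_eq, this, Int.negOnePow_neg]

theorem eps_sq (a b : Q8) : eps a b * eps a b = 1 := by
  rw [eps_eq, ← Units.val_mul, Int.units_mul_self, Units.val_one]

theorem eps_pm (a b : Q8) : eps a b = 1 ∨ eps a b = -1 := by
  rw [eps_eq]
  rcases Int.units_eq_one_or (Int.negOnePow (Bq a b)) with h | h <;> simp [h]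

theorem eps_diag {a : Q8} (ha : ip a a = 2) : eps a a = -1 := by
  have : Odd (Bq a a) := by
    refine ⟨a 0 * a 2 + a 1 * a 3 + a 2 * a 3 + a 3 * a 4 + a 4 * a 5 + a 5 * a 6 + a 6 * a 7, ?_⟩
    rw [ip_eq] at ha
    simp only [Bq, dotProduct, Fin.sum_univ_eight]
    linarith
  rw [eps_eq, Int.negOnePow_odd _ this]
  rfl

theorem root_add {a b : Q8} (ha : ip a a = 2) (hb : ip b b = 2) (h : ip a b = -1) :
    ip (a + b) (a + b) = 2 := by
  rw [ip_add_left, ip_add_right, ip_add_right, ip_comm b a, ha, hb, h]; rfl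

theorem root_neg {a : Q8} (ha : ip a a = 2) : ip (-a) (-a) = 2 := by
  rw [ip_neg_left, ip_neg_right, neg_neg, ha]

theorem inv_x (hR : RelESt) {a : Q8} (ha : ip a a = 2) (t : ℤ) : xE a t * xE a (-t) = 1 := by
  rw [← hR.2.1 a ha, add_neg_cancel, hR.1]

theorem inv_x' (hR : RelESt) {a : Q8} (ha : ip a a = 2) (t : ℤ) : xE a (-t) * xE a t = 1 := by
  rw [← hR.2.1 a ha, neg_add_cancel, hR.1]

theorem conj_zero (hR : RelESt) {a b : Q8} (ha : ip a a = 2) (hb : ip b b = 2) (h : 0 ≤ ip a b)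
    (s t : ℤ) : xE a s * xE b t * xE a (-s) = xE b t := by
  rw [hR.2.2.1 a b ha hb h, mul_assoc, inv_x hR ha, mul_one]

theorem conj_neg (hR : RelESt) {a b : Q8} (ha : ip a a = 2) (hb : ip b b = 2) (h : ip a b = -1)
    (s t : ℤ) : xE a s * xE b t * xE a (-s) = xE b t * xE (a + b) (eps a b * s * t) := by
  have h2 : 0 ≤ ip a (a + b) := by rw [ip_add_right, ha, h]; decide
  rw [hR.2.2.2.1 a b ha hb h, mul_assoc, mul_assoc, ← mul_assoc (xE a s),
    conj_zero hR ha (root_add ha hb h) h2]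

theorem norm_Xs (hR : RelESt) {L N : Q8 → Prop}
    (h1 : ∀ a b, ip a a = 2 → ip b b = 2 → L a → N b → b ≠ -a)
    (h2 : ∀ a b, ip a a = 2 → ip b b = 2 → L a → N b → ip a b = -1 → N (a + b)) :
    Norm (Xs L) (Xs N) := by
  refine Norm.of_gens ?_
  rintro _ ⟨a, s, ha, hL, rfl⟩
  have key : ∀ s : ℤ, ∀ b t, ip b b = 2 → N b → xE a s * xE b t * xE a (-s) ∈ Xs N := by
    intro s b t hb hN
    rcases root_lo ha hb with h | h | h
    · exact absurd h (h1 a b ha hb hL hN)
    · rw [conj_neg hR ha hb h]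
      exact mul_mem (mem_Xs hb hN _) (mem_Xs (root_add ha hb h) (h2 a b ha hb hL hN h) _)
    · rw [conj_zero hR ha hb h]
      exact mem_Xs hb hN _
  refine ⟨xE a (-s), inv_x hR ha s, inv_x' hR ha s, ?_⟩
  rintro _ ⟨b, t, hb, hN, rfl⟩
  refine ⟨key s b t hb hN, ?_⟩
  have := key (-s) b t hb hN
  rwa [neg_neg] at this

theorem add_mem_of (hR : RelESt) (N : Submonoid ME) {a b : Q8} (ha : ip a a = 2)
    (hb : ip b b = 2) (h : ip a b = -1) (h1 : ∀ t, xE a t ∈ N) (h2 : ∀ t, xE b t ∈ N) (t : ℤ) :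
    xE (a + b) t ∈ N := by
  have e : xE (a + b) t = xE b (-1) * (xE a (eps a b * t) * xE b 1 * xE a (-(eps a b * t))) := by
    rw [conj_neg hR ha hb h, ← mul_assoc, inv_x' hR hb, one_mul, mul_one, ← mul_assoc, eps_sq,
      one_mul]
  rw [e]
  exact mul_mem (h2 _) (mul_mem (mul_mem (h1 _) (h2 _)) (h1 _))

theorem gen_simple (hR : RelESt) (N : Submonoid ME) {s : ℤ} (hs : s * s = 1) (J : Fin 8 → Prop)
    (h : ∀ i, J i → ∀ t, xE (s • Pi.single i 1) t ∈ N) (a : Q8) (ha : ip a a = 2)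
    (h0 : ∀ i, 0 ≤ a i) (hJ : ∀ i, ¬ J i → a i = 0) (t : ℤ) : xE (s • a) t ∈ N := by
  have sm : ∀ x y : Q8, ip (s • x) (s • y) = ip x y := fun x y => by
    rw [ip_smul_left, ip_smul_right, ← mul_assoc, hs, one_mul]
  obtain ⟨k, hk⟩ : ∃ k : ℕ, ∑ i, a i < k := ⟨(∑ i, a i).toNat + 1, by omega⟩
  induction k generalizing a t with
  | zero => exact absurd (Finset.sum_nonneg fun i _ => h0 i) (by simpa using hk)
  | succ k ih =>
    obtain ⟨i, hi, h1⟩ := root_desc ha h0
    have hiJ : J i := by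
      by_contra hc
      have := hJ i hc
      omega
    rcases h1 with h1 | h1
    · rw [h1]; exact h i hiJ t
    · have hb : ip (a - Pi.single i 1) (a - Pi.single i 1) = 2 := by
        rw [ip_sub_left, ip_sub_right, ip_sub_right, ip_comm (Pi.single i 1) a, ha, h1, ip_single]
        rfl
      have hc : ip (a - Pi.single i 1) (Pi.single i 1) = -1 := by
        rw [ip_sub_left, h1, ip_single]; rfl
      have e : s • a = s • (a - Pi.single i 1) + s • Pi.single i 1 := by
        rw [← smul_add, sub_add_cancel]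
      rw [e]
      refine add_mem_of hR N ((sm _ _).trans hb) ((sm _ _).trans (ip_single i))
        ((sm _ _).trans hc) (fun t => ih _ hb (fun j => ?_) (fun j hj => ?_) t ?_) (h i hiJ) t
      · by_cases hj : j = i
        · subst hj; simp only [Pi.sub_apply, Pi.single_eq_same]; omega
        · simpa [Pi.single_eq_of_ne hj] using h0 j
      · have hji : j ≠ i := fun e => hj (e ▸ hiJ)
        simpa [Pi.single_eq_of_ne hji] using hJ j hj
      · simp only [Pi.sub_apply, Finset.sum_sub_distrib, Finset.sum_pi_single', Finset.mem_univ,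
          if_true]
        push_cast at hk
        omega

theorem weyl_pow (hR : RelESt) {a : Q8} (ha : ip a a = 2) {η : ℤ} (h : η = 1 ∨ η = -1) :
    (xE a η * xE (-a) η * xE a η) ^ 4 = 1 := by
  rcases h with rfl | rfl
  · exact hR.2.2.2.2 a ha
  · have h1 := hR.2.2.2.2 a ha
    have h2 : (xE a (-1) * xE (-a) (-1) * xE a (-1)) * (xE a 1 * xE (-a) 1 * xE a 1) = 1 := by
      calc _ = xE a (-1) * (xE (-a) (-1) * (xE a (-1) * xE a 1) * xE (-a) 1) * xE a 1 := by
            simp only [mul_assoc]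
        _ = 1 := by
            rw [inv_x' hR ha, mul_one, inv_x' hR (root_neg ha), mul_one, inv_x' hR ha]
    generalize xE a (-1) * xE (-a) (-1) * xE a (-1) = v at *
    generalize xE a 1 * xE (-a) 1 * xE a 1 = u at *
    calc v ^ 4 = v ^ 4 * u ^ 4 := by rw [h1, mul_one]
      _ = v * (v * (v * (v * u) * u) * u) * u := by
          simp only [pow_succ, pow_zero, one_mul, mul_assoc]
      _ = 1 := by simp only [h2, mul_one]

/-- a chain of type `A` gives a homomorphism from `SL(m, ℤ)` -/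
theorem chain_hom (hP : PresSt) (hR : RelESt) {m : ℕ} (hm : 3 ≤ m) (β : Fin m → Q8)
    (c d : Fin m → ℤ) (hβ : ∀ i j, ip (β i) (β j) = (if i = j then 1 else 0) + c i + d j) :
    (∀ i j, i ≠ j → ip (β j - β i) (β j - β i) = 2) ∧
    ∃ φ : SpecialLinearGroup (Fin m) ℤ →* ME, ∀ i j (h : i ≠ j) t,
      φ (tv i j h t) = xE (β j - β i) (eps (β j - β i) (β j) * t) := by
  have hip : ∀ i j k l, ip (β j - β i) (β l - β k) = (if j = l then 1 else 0) -
      (if j = k then 1 else 0) - (if i = l then 1 else 0) + (if i = k then 1 else 0) := by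
    intro i j k l
    simp only [ip_sub_left, ip_sub_right, hβ]
    ring
  have hr : ∀ i j, i ≠ j → ip (β j - β i) (β j - β i) = 2 := fun i j h => by
    rw [hip]; simp [h, h.symm]
  refine ⟨hr, hP ME m hm (fun i j t => xE (β j - β i) (eps (β j - β i) (β j) * t)) ?_ ?_ ?_ ?_ ?_⟩
  · intro i j _
    rw [mul_zero, hR.1]
  · intro i j h s t
    rw [mul_add, hR.2.1 _ (hr i j h)]
  · intro i j k l h1 h2 h3 h4 s t
    refine hR.2.2.1 _ _ (hr i j h1) (hr k l h2) ?_ _ _
    rw [hip, if_neg h3, if_neg h4]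
    split_ifs <;> decide
  · intro i j k h1 h2 h3 s t
    have h4 : ip (β j - β i) (β k - β j) = -1 := by rw [hip]; simp [h1, h2, h3]
    have e1 : β j - β i + (β k - β j) = β k - β i := by abel
    have e2 : eps (β j - β i) (β k - β j) * eps (β j - β i) (β j) * eps (β k - β j) (β k) =
        eps (β k - β i) (β k) := by
      rw [← eps_addr, sub_add_cancel, ← eps_addl, e1]
    rw [hR.2.2.2.1 _ _ (hr i j h1) (hr j k h2) h4, e1, ← e2]
    congr 2
    ring
  · intro i j h
    have e1 : β i - β j = -(β j - β i) := by abel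
    have e2 : eps (β j - β i) (β i) * -1 = eps (β j - β i) (β j) := by
      rw [← eps_diag (hr i j h), ← eps_addr, add_sub_cancel]
    rw [e1, eps_negl, e2, mul_one]
    exact weyl_pow hR (hr i j h) (eps_pm _ _)

end Pool.Agent.Lib.MP_755cca_al.F.SE
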