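import Pool.Agent.Lib.MP_755cca_al.F.RootE
import Pool.Agent.Lib.MP_755cca_al.F.StepAbs

/-! Commutation rules for the folded root elements. -/

open Matrix
open scoped Pointwise

namespace Pool.Agent.Lib.MP_755cca_al.F.SF

/-- the ambient monoid -/
abbrev ME : Type := Function.End (Q8 × (Q8 → ℤ))

/-- roots of `E₆` -/
def R6 (a : Q8) : Prop := ip a a = 2 ∧ a 6 = 0 ∧ a 7 = 0

/-- folded root element -/
def zF (a : Q8) (t : ℤ) : ME := if flipE a = a then xE a t else xE a t * xE (flipE a) t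

theorem flip_flip (a : Q8) : flipE (flipE a) = a := by
  funext i; fin_cases i <;> simp [flipE]

theorem flip_add (a b : Q8) : flipE (a + b) = flipE a + flipE b := by
  funext i; fin_cases i <;> simp [flipE]

theorem flip_neg (a : Q8) : flipE (-a) = -flipE a := by
  funext i; fin_cases i <;> simp [flipE]

theorem ip_ff {a b : Q8} (ha : R6 a) (hb : R6 b) : ip (flipE a) (flipE b) = ip a b := by
  simp only [ip_eq, flipE]
  simp [ha.2.1, hb.2.1]
  ring

theorem R6.flip {a : Q8} (ha : R6 a) : R6 (flipE a) :=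
  ⟨(ip_ff ha ha).trans ha.1, by simpa [flipE] using ha.2.1, by simpa [flipE] using ha.2.2⟩

theorem ip_fl {a b : Q8} (ha : R6 a) (hb : R6 b) : ip a (flipE b) = ip (flipE a) b := by
  rw [← ip_ff ha hb.flip, flip_flip]

theorem eps_ff {a b : Q8} (ha : R6 a) : eps (flipE a) (flipE b) = eps a b := by
  unfold eps
  congr 2
  simp [flipE, dotProduct, Fin.sum_univ_eight, ha.2.1]
  ring

theorem eps_sq (a b : Q8) : eps a b * eps a b = 1 := by
  unfold eps
  rw [← Units.val_mul, Int.units_mul_self, Units.val_one]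

theorem R6.neg {a : Q8} (ha : R6 a) : R6 (-a) :=
  ⟨by rw [ip_neg_left, ip_neg_right, neg_neg, ha.1], by simp [ha.2.1], by simp [ha.2.2]⟩

theorem R6.add {a b : Q8} (ha : R6 a) (hb : R6 b) (h : ip a b = -1) : R6 (a + b) :=
  ⟨by rw [ip_add_left, ip_add_right, ip_add_right, ip_comm b a, ha.1, hb.1, h]; rfl,
    by simp [ha.2.1, hb.2.1], by simp [ha.2.2, hb.2.2]⟩

theorem R6.isRt {a : Q8} (ha : R6 a) {s : ℤ} (h : ∀ i, 0 ≤ s * a i) : IsRt 6 s a := by
  refine ⟨ha.1, fun i => ⟨h i, fun hi => ?_⟩⟩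
  have h6 := ha.2.1
  have h7 := ha.2.2
  fin_cases i <;> simp_all

theorem r6_of {a : Q8} {s : ℤ} (h : IsRt 6 s a) : R6 a :=
  ⟨h.1, (h.2 6).2 (by decide), (h.2 7).2 (by decide)⟩

theorem R6.perp {a : Q8} (ha : R6 a) (h : flipE a ≠ a) : ip a (flipE a) = 0 := by
  rcases root_sign ha.1 with h0 | h0
  · exact (root_flip (ha.isRt fun i => by simpa using h0 i)).resolve_left h
  · have := (root_flip (ha.neg.isRt (s := 1) fun i => by simpa using h0 i)).resolve_left
      (by rw [flip_neg]; exact fun e => h (neg_injective e))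
    rwa [flip_neg, ip_neg_left, ip_neg_right, neg_neg] at this

/-- `g u = u' g` -/
def Cj (g u u' : ME) : Prop := g * u = u' * g

theorem Cj.mul {g u u' v v' : ME} (h : Cj g u u') (h' : Cj g v v') : Cj g (u * v) (u' * v') := by
  unfold Cj at *
  rw [← mul_assoc, h, mul_assoc, h', mul_assoc]

theorem Cj.comp {g h u u' u'' : ME} (h1 : Cj h u u') (h2 : Cj g u' u'') : Cj (g * h) u u'' := by
  unfold Cj at *
  rw [mul_assoc, h1, ← mul_assoc, h2, mul_assoc]

section Rel

variable (hR : RelESt)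
include hR

theorem cj0 {a b : Q8} (ha : R6 a) (hb : R6 b) (h : 0 ≤ ip a b) (s t : ℤ) :
    Cj (xE a s) (xE b t) (xE b t) := hR.2.2.1 a b ha.1 hb.1 h s t

theorem cj1 {a b : Q8} (ha : R6 a) (hb : R6 b) (h : ip a b = -1) (s t : ℤ) :
    Cj (xE a s) (xE b t) (xE b t * xE (a + b) (eps a b * s * t)) := by
  unfold Cj
  rw [hR.2.2.2.1 a b ha.1 hb.1 h, mul_assoc (xE b t), mul_assoc (xE b t),
    hR.2.2.1 a (a + b) ha.1 (ha.add hb h).1 (by rw [ip_add_right, ha.1, h]; decide)]

theorem zF_flip {a : Q8} (ha : R6 a) (t : ℤ) : zF (flipE a) t = zF a t := by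
  unfold zF
  by_cases h : flipE a = a
  · simp [h]
  · rw [flip_flip, if_neg h, if_neg (Ne.symm h)]
    exact (cj0 hR ha ha.flip (ha.perp h).ge t t).symm

theorem zF_add {a : Q8} (ha : R6 a) (s t : ℤ) : zF a (s + t) = zF a s * zF a t := by
  unfold zF
  by_cases h : flipE a = a
  · simp only [if_pos h]; exact hR.2.1 a ha.1 s t
  · simp only [if_neg h]
    have e : xE a t * xE (flipE a) s = xE (flipE a) s * xE a t :=
      cj0 hR ha ha.flip (ha.perp h).ge t s
    rw [hR.2.1 a ha.1, hR.2.1 _ ha.flip.1, mul_assoc, mul_assoc, ← mul_assoc (xE a t), e,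
      mul_assoc]

theorem zF_zero (a : Q8) : zF a 0 = 1 := by
  unfold zF
  split_ifs <;> simp [hR.1]

theorem zF_inv {a : Q8} (ha : R6 a) (t : ℤ) : zF a t * zF a (-t) = 1 ∧ zF a (-t) * zF a t = 1 := by
  rw [← zF_add hR ha, ← zF_add hR ha, add_neg_cancel, neg_add_cancel, zF_zero hR]
  exact ⟨rfl, rfl⟩

theorem cjF0 {a b : Q8} (ha : R6 a) (hb : R6 b) (h : 0 ≤ ip a b) (h' : 0 ≤ ip (flipE a) b)
    (s t : ℤ) : Cj (zF a s) (zF b t) (zF b t) := by
  have c1 := cj0 hR ha hb h s t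
  have c2 := cj0 hR ha.flip hb h' s t
  have c3 := cj0 hR ha hb.flip (by rwa [ip_fl ha hb]) s t
  have c4 := cj0 hR ha.flip hb.flip (by rwa [ip_ff ha hb]) s t
  unfold zF
  split_ifs
  exacts [c1, c1.mul c3, c2.comp c1, (c2.mul c4).comp (c1.mul c3)]

theorem cjF1 {a b : Q8} (ha : R6 a) (hb : R6 b) (fa : flipE a = a) (fb : flipE b = b)
    (h : ip a b = -1) (s t : ℤ) :
    Cj (zF a s) (zF b t) (zF b t * zF (a + b) (eps a b * s * t)) := by
  unfold zF
  rw [if_pos fa, if_pos fb, if_pos (by rw [flip_add, fa, fb])]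
  exact cj1 hR ha hb h s t

omit hR in
theorem r2 {a b : Q8} (ha : R6 a) (hb : R6 b) (fa : flipE a ≠ a) (fb : flipE b = b)
    (h : ip a b = -1) : ip (flipE a) b = -1 ∧ ip a (flipE a + b) = -1 ∧
      flipE (a + (flipE a + b)) = a + (flipE a + b) := by
  refine ⟨by rw [← ip_fl ha hb, fb, h], by rw [ip_add_right, ha.perp fa, h]; rfl, ?_⟩
  rw [flip_add, flip_add, flip_flip, fb]
  abel

theorem cjF2 {a b : Q8} (ha : R6 a) (hb : R6 b) (fa : flipE a ≠ a) (fb : flipE b = b)
    (h : ip a b = -1) (s t : ℤ) : ∃ c, Cj (zF a s) (zF b t)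
      (zF b t * zF (a + b) (eps a b * s * t) * zF (a + (flipE a + b)) c) := by
  obtain ⟨h1, h2, h3⟩ := r2 ha hb fa fb h
  have e1 : eps (flipE a) b = eps a b := by rw [← eps_ff (b := b) ha, fb]
  have c1 := cj1 hR ha.flip hb h1 s t
  rw [e1] at c1
  have c2 := (cj1 hR ha hb h s t).mul (cj1 hR ha (ha.flip.add hb h1) h2 s (eps a b * s * t))
  have f1 : flipE (a + b) = flipE a + b := by rw [flip_add, fb]
  refine ⟨eps a (flipE a + b) * s * (eps a b * s * t), ?_⟩
  unfold zF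
  rw [if_neg fa, if_pos fb, if_pos h3, if_neg (by rw [f1]; exact fun e => fa (add_right_cancel e)),
    f1]
  simpa only [mul_assoc] using c1.comp c2

omit hR in
theorem r3 {a b : Q8} (ha : R6 a) (hb : R6 b) (fa : flipE a ≠ a) (fb : flipE b ≠ b)
    (h : ip a b = -1) : 0 ≤ ip (flipE a) b := by
  have hg := ha.add hb h
  have e : ip (a + b) (flipE (a + b)) = 2 * ip (flipE a) b := by
    rw [flip_add, ip_add_left, ip_add_right, ip_add_right, ha.perp fa, hb.perp fb, ip_fl ha hb,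
      ip_comm b]
    ring
  by_cases fg : flipE (a + b) = a + b
  · rw [fg, hg.1] at e; omega
  · rw [hg.perp fg] at e; omega

theorem cjF3 {a b : Q8} (ha : R6 a) (hb : R6 b) (fa : flipE a ≠ a) (fb : flipE b ≠ b)
    (h : ip a b = -1) (s t : ℤ) : Cj (zF a s) (zF b t)
      (zF b t * (xE (a + b) (eps a b * s * t) * xE (flipE (a + b)) (eps a b * s * t))) := by
  have q := r3 ha hb fa fb h
  have h' : ip (flipE a) (flipE b) = -1 := by rw [ip_ff ha hb, h]
  have c1 := (cj0 hR ha.flip hb q s t).mul (cj1 hR ha.flip hb.flip h' s t)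
  rw [eps_ff ha] at c1
  have q' : 0 ≤ ip a (flipE b) := by rwa [ip_fl ha hb]
  have c2 := (cj1 hR ha hb h s t).mul ((cj0 hR ha hb.flip q' s t).mul
    (cj0 hR ha (ha.flip.add hb.flip h') (by rw [ip_add_right, ha.perp fa]; omega) s
      (eps a b * s * t)))
  have c3 : xE (a + b) (eps a b * s * t) * xE (flipE b) t
      = xE (flipE b) t * xE (a + b) (eps a b * s * t) :=
    cj0 hR (ha.add hb h) hb.flip (by rw [ip_add_left, hb.perp fb]; omega) _ _
  have c4 := c1.comp c2
  unfold zF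
  rw [if_neg fa, if_neg fb, flip_add]
  rw [mul_assoc (xE b t), ← mul_assoc (xE (a + b) _), c3] at c4
  simpa only [mul_assoc] using c4

omit hR in
theorem r4 {a b : Q8} (ha : R6 a) (hb : R6 b) (fa : flipE a = a) (fb : flipE b ≠ b)
    (h : ip a b = -1) : ip a (flipE b) = -1 ∧ ip (a + b) (flipE b) = -1 ∧
      flipE (a + b + flipE b) = a + b + flipE b := by
  have h1 : ip a (flipE b) = -1 := by rw [ip_fl ha hb, fa, h]
  refine ⟨h1, by rw [ip_add_left, hb.perp fb, h1]; rfl, ?_⟩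
  rw [flip_add, flip_add, flip_flip, fa]
  abel

theorem cjF4 {a b : Q8} (ha : R6 a) (hb : R6 b) (fa : flipE a = a) (fb : flipE b ≠ b)
    (h : ip a b = -1) (s t : ℤ) : ∃ c, Cj (zF a s) (zF b t)
      (zF b t * zF (a + b) (eps a b * s * t) * zF (a + b + flipE b) c) := by
  obtain ⟨h1, h2, h3⟩ := r4 ha hb fa fb h
  have hg := ha.add hb h
  have e1 : eps a (flipE b) = eps a b := by rw [← eps_ff (b := b) ha, fa]
  have c1 := (cj1 hR ha hb h s t).mul (cj1 hR ha hb.flip h1 s t)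
  rw [e1] at c1
  have c2 := hR.2.2.2.1 (a + b) (flipE b) hg.1 hb.flip.1 h2 (eps a b * s * t) t
  have f1 : flipE (a + b) = a + flipE b := by rw [flip_add, fa]
  have c3 : ∀ c d, xE (a + b + flipE b) c * xE (a + flipE b) d
      = xE (a + flipE b) d * xE (a + b + flipE b) c := fun c d =>
    cj0 hR (hg.add hb.flip h2) (ha.add hb.flip h1) (by
      rw [ip_add_left, ip_add_right (a + b), ip_add_right (flipE b), h2, ip_add_left, ha.1,
        ip_comm b, h, ip_comm _ a, h1, hb.flip.1]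
      decide) c d
  refine ⟨eps (a + b) (flipE b) * (eps a b * s * t) * t, ?_⟩
  unfold zF
  rw [if_pos fa, if_neg fb, if_pos h3, if_neg (by rw [f1]; exact fun e => fb (add_left_cancel e)),
    f1]
  rw [mul_assoc (xE b t), ← mul_assoc (xE (a + b) _), c2, mul_assoc (_ * _) (xE (a + b + _) _),
    c3] at c1
  simpa only [mul_assoc] using c1

end Rel

end Pool.Agent.Lib.MP_755cca_al.F.SF
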