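import Pool.Agent.Lib.MP_755cca_al.F.StepF0

/-! Parabolic data and generation for the folded root elements. -/

open Matrix
open scoped Pointwise

namespace Pool.Agent.Lib.MP_755cca_al.F.SF

open SA

/-- the monoid generated by the folded root elements of the roots with property `S` -/
def Zs (S : Q8 → Prop) : Submonoid ME :=
  Submonoid.closure {g | ∃ a t, R6 a ∧ S a ∧ g = zF a t}

theorem mem_Zs {S : Q8 → Prop} {a : Q8} (ha : R6 a) (hs : S a) (t : ℤ) : zF a t ∈ Zs S :=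
  Submonoid.subset_closure ⟨a, t, ha, hs, rfl⟩

theorem Zs_le {S : Q8 → Prop} {N : Submonoid ME} (h : ∀ a t, R6 a → S a → zF a t ∈ N) :
    Zs S ≤ N := by
  refine Submonoid.closure_le.2 ?_
  rintro _ ⟨a, t, ha, hs, rfl⟩
  exact h a t ha hs

theorem Zs_mono {S S' : Q8 → Prop} (h : ∀ a, R6 a → S a → S' a) : Zs S ≤ Zs S' :=
  Zs_le fun a t ha hs => mem_Zs ha (h a ha hs) t

theorem closure_rootsF (s : ℤ) : Submonoid.closure (rootsF s) = Zs fun a => ∀ i, 0 ≤ s * a i := by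
  unfold Zs rootsF
  congr 1
  ext g
  constructor
  · rintro ⟨a, t, h, rfl⟩
    exact ⟨a, t, r6_of h, fun i => (h.2 i).1, rfl⟩
  · rintro ⟨a, t, h, hs, rfl⟩
    exact ⟨a, t, h.isRt hs, rfl⟩

theorem pair_mem {N : Submonoid ME} {g : Q8} (h : ∀ t, zF g t ∈ N) (c : ℤ) :
    xE g c * xE (flipE g) c ∈ N := by
  by_cases fg : flipE g = g
  · have := h c
    rw [zF, if_pos fg] at this
    rw [fg]
    exact mul_mem this this
  · have := h c
    rwa [zF, if_neg fg] at this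

/-- an additive function invariant under the diagram automorphism -/
structure Lin (l : Q8 → ℤ) : Prop where
  add : ∀ a b, l (a + b) = l a + l b
  neg : ∀ a, l (-a) = -l a
  flip : ∀ a, l (flipE a) = l a
  pos : ∀ a, (∀ i, 0 ≤ a i) → 0 ≤ l a

section Rel

variable (hR : RelESt)
include hR

theorem cj_neg {l : Q8 → ℤ} (hl : Lin l) {s : ℤ} {a b : Q8} (ha : R6 a) (hb : R6 b) (h0 : l a = 0)
    (h1 : 0 < s * l b) (h : ip a b = -1) (u t : ℤ) :
    ∃ n ∈ Zs fun c => 0 < s * l c, Cj (zF a u) (zF b t) n := by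
  have hg := ha.add hb h
  have m0 : zF b t ∈ Zs fun c => 0 < s * l c := mem_Zs hb h1 t
  have m1 : ∀ c, zF (a + b) c ∈ Zs fun c => 0 < s * l c := fun c =>
    mem_Zs hg (by rwa [hl.add, h0, zero_add]) c
  by_cases fa : flipE a = a <;> by_cases fb : flipE b = b
  · exact ⟨_, mul_mem m0 (m1 _), cjF1 hR ha hb fa fb h u t⟩
  · obtain ⟨c, hc⟩ := cjF4 hR ha hb fa fb h u t
    refine ⟨_, mul_mem (mul_mem m0 (m1 _)) (mem_Zs (hg.add hb.flip (r4 ha hb fa fb h).2.1) ?_ c), hc⟩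
    rw [hl.add, hl.add, hl.flip, h0, zero_add, mul_add]
    omega
  · obtain ⟨c, hc⟩ := cjF2 hR ha hb fa fb h u t
    obtain ⟨k1, k2, -⟩ := r2 ha hb fa fb h
    refine ⟨_, mul_mem (mul_mem m0 (m1 _)) (mem_Zs (ha.add (ha.flip.add hb k1) k2) ?_ c), hc⟩
    rwa [hl.add, hl.add, hl.flip, h0, zero_add, zero_add]
  · exact ⟨_, mul_mem m0 (pair_mem m1 _), cjF3 hR ha hb fa fb h u t⟩

theorem cj_all {l : Q8 → ℤ} (hl : Lin l) {s : ℤ} {a b : Q8} (ha : R6 a) (hb : R6 b) (h0 : l a = 0)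
    (h1 : 0 < s * l b) (u t : ℤ) : ∃ n ∈ Zs fun c => 0 < s * l c, Cj (zF a u) (zF b t) n := by
  have h0' : l (flipE a) = 0 := by rw [hl.flip, h0]
  rcases root_lo ha.1 hb.1 with h | h | h
  · rw [h, hl.neg, h0] at h1; simp at h1
  · exact cj_neg hR hl ha hb h0 h1 h u t
  rcases root_lo ha.flip.1 hb.1 with h' | h' | h'
  · rw [h', hl.neg, h0'] at h1; simp at h1
  · rw [← zF_flip hR ha]
    exact cj_neg hR hl ha.flip hb h0' h1 h' u t
  · exact ⟨_, mem_Zs hb h1 t, cjF0 hR ha hb h h' u t⟩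

theorem norm_Zs {l : Q8 → ℤ} (hl : Lin l) (s : ℤ) :
    Norm (Zs fun a => l a = 0) (Zs fun c => 0 < s * l c) := by
  refine Norm.of_gens ?_
  rintro _ ⟨a, u, ha, h0, rfl⟩
  obtain ⟨i1, i2⟩ := zF_inv hR ha u
  refine ⟨zF a (-u), i1, i2, ?_⟩
  rintro _ ⟨b, t, hb, h1, rfl⟩
  obtain ⟨n, hn, e⟩ := cj_all hR hl ha hb h0 h1 u t
  obtain ⟨n', hn', e'⟩ := cj_all hR hl ha hb h0 h1 (-u) t
  unfold Cj at e e'
  rw [e, e', mul_assoc, mul_assoc, i1, i2, mul_one, mul_one]
  exact ⟨hn, hn'⟩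

theorem half {l : Q8 → ℤ} (hl : Lin l) {s : ℤ} (hs : s = 1 ∨ s = -1) :
    ((Zs fun a => ∀ i, 0 ≤ s * a i : Submonoid ME) : Set ME) ⊆
      ((Zs fun c => 0 < s * l c : Submonoid ME) : Set ME) *
        (Zs fun a => l a = 0 ∧ ∀ i, 0 ≤ s * a i : Submonoid ME) ∧
    (Zs fun c => 0 < s * l c) ≤ Zs fun a => ∀ i, 0 ≤ s * a i := by
  have key : ∀ a : Q8, (∀ i, 0 ≤ s * a i) → 0 ≤ s * l a := by
    intro a h
    rcases hs with rfl | rfl
    · simpa using hl.pos a fun i => by simpa using h i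
    · have := hl.pos (-a) fun i => by simpa using h i
      rw [hl.neg] at this
      omega
  constructor
  · refine ((norm_Zs hR hl s).mono (Zs_mono fun a _ h => h.1)).closure_subset ?_
    rintro _ ⟨a, t, ha, h, rfl⟩
    rcases (key a h).lt_or_eq with h1 | h1
    · exact Or.inl (mem_Zs ha h1 t)
    · refine Or.inr (mem_Zs ha ⟨?_, h⟩ t)
      rcases hs with rfl | rfl <;> omega
  · refine Zs_mono fun a ha h i => ?_
    have h1 := hl.pos a
    have h2 := hl.pos (-a)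
    rw [hl.neg] at h2
    rcases root_sign ha.1 with h0 | h0 <;> rcases hs with rfl | rfl
    · simpa using h0 i
    · have := h1 h0; omega
    · have := h2 fun i => by simpa using h0 i
      omega
    · simpa using h0 i

theorem parD {l : Q8 → ℤ} (hl : Lin l) :
    ParD (Submonoid.closure (rootsF 1)) (Submonoid.closure (rootsF (-1)))
      (Zs fun c => 0 < 1 * l c) (Zs fun c => 0 < -1 * l c)
      (Zs fun a => l a = 0 ∧ ∀ i, 0 ≤ 1 * a i) (Zs fun a => l a = 0 ∧ ∀ i, 0 ≤ -1 * a i)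
      (Zs fun a => l a = 0) := by
  rw [closure_rootsF, closure_rootsF]
  exact ⟨norm_Zs hR hl 1, norm_Zs hR hl (-1), (half hR hl (Or.inl rfl)).1,
    (half hR hl (Or.inr rfl)).1, Zs_mono fun _ _ h => h.1, Zs_mono fun _ _ h => h.1,
    (half hR hl (Or.inl rfl)).2, (half hR hl (Or.inr rfl)).2, Zs_mono fun _ _ h => h.2,
    Zs_mono fun _ _ h => h.2⟩

/-! ### generation -/

theorem cut {N : Submonoid ME} {a b c : Q8} (ha : R6 a) (hb : R6 b) (hc : R6 c)
    (ia : ∀ t, zF a t ∈ N) (ib : ∀ t, zF b t ∈ N) (ic : ∀ t, zF c t ∈ N) {y : ME} {s t r : ℤ}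
    (h : Cj (zF a s) (zF b t) (zF b t * y * zF c r)) : y ∈ N := by
  have e : y = zF b (-t) * (zF a s * zF b t) * zF a (-s) * zF c (-r) := by
    unfold Cj at h
    rw [h]
    calc y = (zF b (-t) * zF b t) * y * (zF c r * (zF a s * zF a (-s)) * zF c (-r)) := by
          rw [(zF_inv hR hb t).2, (zF_inv hR ha s).1, mul_one, (zF_inv hR hc r).1, one_mul, mul_one]
      _ = _ := by simp only [mul_assoc]
  rw [e]
  exact mul_mem (mul_mem (mul_mem (ib _) (mul_mem (ia _) (ib _))) (ia _)) (ic _)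

theorem cut' {N : Submonoid ME} {a b : Q8} (ha : R6 a) (hb : R6 b)
    (ia : ∀ t, zF a t ∈ N) (ib : ∀ t, zF b t ∈ N) {y : ME} {s t : ℤ}
    (h : Cj (zF a s) (zF b t) (zF b t * y)) : y ∈ N :=
  cut hR ha hb ha ia ib ia (s := s) (t := t) (r := 0) (by rwa [zF_zero hR, mul_one])

omit hR in
theorem eps_fix (a b : Q8) (t : ℤ) : eps a b * 1 * (eps a b * t) = t := by
  rw [mul_one, ← mul_assoc, eps_sq, one_mul]

theorem gen1 {N : Submonoid ME} (a b : Q8) {g : Q8}
    (h : R6 a ∧ R6 b ∧ flipE a = a ∧ flipE b = b ∧ ip a b = -1 ∧ g = a + b)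
    (ia : ∀ t, zF a t ∈ N) (ib : ∀ t, zF b t ∈ N) (t : ℤ) : zF g t ∈ N := by
  obtain ⟨ha, hb, fa, fb, h, rfl⟩ := h
  have := cut' hR ha hb ia ib (cjF1 hR ha hb fa fb h 1 (eps a b * t))
  rwa [eps_fix] at this

omit hR in
instance (a : Q8) : Decidable (R6 a) := by unfold R6; infer_instance

theorem gen_long {N : Submonoid ME} (hJ : ∀ a, R6 a → a 1 = 0 → ∀ t, zF a t ∈ N)
    (h1 : ∀ t, zF ![0, -1, 0, 0, 0, 0, 0, 0] t ∈ N) {g : Q8} (hg : R6 g) (fg : flipE g = g)
    (h0 : ∀ i, g i ≤ 0) (t : ℤ) : zF g t ∈ N := by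
  have c1 := hJ ![0, 0, 0, -1, 0, 0, 0, 0] (by decide) rfl
  have c2 := hJ ![0, 0, -1, -1, -1, 0, 0, 0] (by decide) rfl
  have c3 := hJ ![-1, 0, -1, -1, -1, -1, 0, 0] (by decide) rfl
  have v1 := gen1 hR (g := ![0, -1, 0, -1, 0, 0, 0, 0]) _ _ (by decide) c1 h1
  have v2 := gen1 hR (g := ![0, -1, -1, -1, -1, 0, 0, 0]) _ _ (by decide) c2 h1
  have v3 := gen1 hR (g := ![-1, -1, -1, -1, -1, -1, 0, 0]) _ _ (by decide) c3 h1
  have v12 := gen1 hR (g := ![0, -1, -1, -2, -1, 0, 0, 0]) _ _ (by decide) c2 v1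
  have v13 := gen1 hR (g := ![-1, -1, -1, -2, -1, -1, 0, 0]) _ _ (by decide) c3 v1
  have v23 := gen1 hR (g := ![-1, -1, -2, -2, -2, -1, 0, 0]) _ _ (by decide) c3 v2
  have v123 := gen1 hR (g := ![-1, -1, -2, -3, -2, -1, 0, 0]) _ _ (by decide) c3 v12
  have vt := gen1 hR (g := ![-1, -2, -2, -3, -2, -1, 0, 0]) _ _ (by decide) h1 v123
  by_cases hy : g 1 = 0
  · exact hJ g hg hy t
  obtain ⟨u, y, v, w, rfl⟩ : ∃ u y v w : ℤ, g = ![u, y, v, w, v, u, 0, 0] := by
    refine ⟨g 0, g 1, g 2, g 3, ?_⟩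
    have e0 := congrFun fg 0
    have e2 := congrFun fg 2
    simp [flipE] at e0 e2
    have h6 := hg.2.1
    have h7 := hg.2.2
    funext i
    fin_cases i <;> simp [*]
  have hq := hg.1
  rw [ip_eq] at hq
  have hy0 := h0 1
  simp at hq hy hy0
  have e : y ^ 2 + (2 * u - y) ^ 2 + (2 * (v - u) - y) ^ 2 + (2 * (w - v) - y) ^ 2 = 4 := by
    linear_combination 2 * hq
  have s1 := sq_nonneg (2 * u - y)
  have s2 := sq_nonneg (2 * (v - u) - y)
  have s3 := sq_nonneg (2 * (w - v) - y)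
  have b0 : -2 ≤ y := by nlinarith
  have hy' : y = -1 ∨ y = -2 := by omega
  rcases hy' with rfl | rfl
  · have k1 : u = 0 ∨ u = -1 := by
      have : -1 ≤ u := by nlinarith
      have : u ≤ 0 := by nlinarith
      omega
    have k2 : v = u ∨ v = u - 1 := by
      have : u - 1 ≤ v := by nlinarith
      have : v ≤ u := by nlinarith
      omega
    have k3 : w = v ∨ w = v - 1 := by
      have : v - 1 ≤ w := by nlinarith
      have : w ≤ v := by nlinarith
      omega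
    rcases k1 with rfl | rfl <;> rcases k2 with rfl | rfl <;> rcases k3 with rfl | rfl
    exacts [h1 t, v1 t, v2 t, v12 t, v3 t, v13 t, v23 t, v123 t]
  · have k1 : u = -1 := by nlinarith
    have k2 : v = u - 1 := by nlinarith
    have k3 : w = v - 1 := by nlinarith
    subst k1 k2 k3
    exact vt t

theorem gen_all {N : Submonoid ME} (hU : ∀ a, R6 a → (∀ i, 0 ≤ a i) → ∀ t, zF a t ∈ N)
    (hJ : ∀ a, R6 a → a 1 = 0 → ∀ t, zF a t ∈ N)
    (h1 : ∀ t, zF ![0, -1, 0, 0, 0, 0, 0, 0] t ∈ N) (g : Q8) (hg : R6 g) (h0 : ∀ i, g i ≤ 0)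
    (t : ℤ) : zF g t ∈ N := by
  have lg : ∀ c, R6 c → flipE c = c → ∀ t, zF c t ∈ N := fun c hc fc t =>
    (root_sign hc.1).elim (fun h => hU c hc h t) fun h => gen_long hR hJ h1 hc fc h t
  obtain ⟨k, hk⟩ : ∃ k : ℕ, -∑ i, g i < k := ⟨(-∑ i, g i).toNat + 1, by omega⟩
  induction k generalizing g t with
  | zero =>
    have := Finset.sum_nonpos (s := Finset.univ) fun i _ => h0 i
    omega
  | succ k ih =>
    by_cases fg : flipE g = g
    · exact lg g hg fg t
    obtain ⟨i, hi, h2⟩ := root_desc hg.neg.1 fun i => by simpa using h0 i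
    have hi' : g i < 0 := by simpa using hi
    have i6 : (6 : Fin 8) ≠ i := fun e => by rw [← e, hg.2.1] at hi'; omega
    have i7 : (7 : Fin 8) ≠ i := fun e => by rw [← e, hg.2.2] at hi'; omega
    have he : R6 (Pi.single i 1) := ⟨ip_single i, Pi.single_eq_of_ne i6 _, Pi.single_eq_of_ne i7 _⟩
    have ia : ∀ t, zF (-Pi.single i 1) t ∈ N := by
      by_cases i1 : (1 : Fin 8) = i
      · subst i1
        exact lg _ he.neg (by decide)
      · exact hJ _ he.neg (by simp [Pi.single_eq_of_ne i1])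
    rcases h2 with h2 | h2
    · rw [neg_eq_iff_eq_neg.1 h2]; exact ia t
    rw [ip_neg_left] at h2
    have hb : R6 (g + Pi.single i 1) := hg.add he (by omega)
    have h : ip (-Pi.single i 1) (g + Pi.single i 1) = -1 := by
      rw [ip_neg_left, ip_add_right, ip_single, ip_comm]; omega
    have ib : ∀ t, zF (g + Pi.single i 1) t ∈ N := fun t => by
      refine ih _ hb (fun j => ?_) t ?_
      · by_cases hj : j = i
        · subst hj; simp only [Pi.add_apply, Pi.single_eq_same]; omega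
        · simpa [Pi.single_eq_of_ne hj] using h0 j
      · simp only [Pi.add_apply, Finset.sum_add_distrib, Finset.sum_pi_single', Finset.mem_univ,
          if_true]
        push_cast at hk
        omega
    have ha := he.neg
    have e : g = -Pi.single i 1 + (g + Pi.single i 1) := by abel
    generalize (-Pi.single i 1 : Q8) = a at *
    generalize g + (Pi.single i 1 : Q8) = b at *
    subst e
    rw [← eps_fix a b t]
    by_cases fa : flipE a = a <;> by_cases fb : flipE b = b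
    · exact absurd (by rw [flip_add, fa, fb]) fg
    · obtain ⟨c, hc⟩ := cjF4 hR ha hb fa fb h 1 (eps a b * t)
      obtain ⟨-, k2, k3⟩ := r4 ha hb fa fb h
      exact cut hR ha hb (hg.add hb.flip k2) ia ib (lg _ (hg.add hb.flip k2) k3) hc
    · obtain ⟨c, hc⟩ := cjF2 hR ha hb fa fb h 1 (eps a b * t)
      obtain ⟨k1, k2, k3⟩ := r2 ha hb fa fb h
      have hc' := ha.add (ha.flip.add hb k1) k2
      exact cut hR ha hb hc' ia ib (lg _ hc' k3) hc
    · rw [zF, if_neg fg]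
      exact cut' hR ha hb ia ib (cjF3 hR ha hb fa fb h 1 (eps a b * t))

end Rel

end Pool.Agent.Lib.MP_755cca_al.F.SF
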