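import Pool.Agent.Lib.MP_755cca_al.F.Stmt

/-! The generic machine for the base cases: data, axioms, statements of the pieces. -/

open Matrix
open scoped Pointwise

namespace Pool.Agent.Lib.MP_755cca_al.F

/-- a Chevalley group given by matrices of size `n`, rank `r`, with `N` positive roots -/
structure Sys where
  n : ℕ
  r : ℕ
  N : ℕ
  /-- positive root elements -/
  x : ∀ (R : Type) [CommRing R], Fin N → R → Matrix (Fin n) (Fin n) R
  /-- image of the matrix `[[a, b], [c, d]]` in the `SL₂` of a simple root -/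
  p : ∀ (R : Type) [CommRing R], Fin r → R → R → R → R → Matrix (Fin n) (Fin n) R
  /-- simple roots -/
  s : Fin r → Fin N
  /-- roots that occur when `x a` is conjugated by a simple root element -/
  ct : Fin r → Fin N → List (Fin N)
  /-- simple reflections on positive roots -/
  rho : Fin r → Fin N → Fin N
  /-- simple reflections on weights -/
  sg : Fin r → Fin n → Fin n
  /-- test positions -/
  A : Fin r → Fin n
  B : Fin r → Fin n
  /-- minors -/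
  m : Fin r → ℕ
  Cl : ∀ k, Fin (m k + 1) → Fin n
  Rw : ∀ k, Fin (m k + 1) → Fin n
  R1 : Fin r → Fin n
  /-- colouring of the diagram, white is `true` -/
  col : Fin r → Bool
  /-- the base word is `wl ++ mid ++ bl` -/
  wl : List (Fin r)
  mid : List (Fin r)
  bl : List (Fin r)
  bk : List (Fin r)
  st : Fin r → Fin r
  nu : Fin r → Fin r → ℕ

namespace Sys

variable (S : Sys) (R : Type) [CommRing R]

/-- matrices -/
abbrev Mat : Type := Matrix (Fin S.n) (Fin S.n) R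

/-- generated by the root elements of a set of positive roots -/
def XZ (Z : Set (Fin S.N)) : Submonoid (S.Mat R) :=
  Submonoid.closure {g | ∃ a ∈ Z, ∃ t, g = S.x R a t}

/-- positive root elements -/
def pos : Set (S.Mat R) := {g | ∃ a t, g = S.x R a t}

/-- the unipotent radical -/
def U : Submonoid (S.Mat R) := Submonoid.closure (S.pos R)

/-- the opposite radical -/
def V : Submonoid (S.Mat R) := Submonoid.closure (transpose '' S.pos R)

/-- the group -/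
def G : Submonoid (S.Mat R) := Submonoid.closure (S.pos R ∪ transpose '' S.pos R)

/-- the torus -/
def T : Submonoid (S.Mat R) :=
  Submonoid.closure {g | ∃ i u v, u * v = 1 ∧ g = S.p R i u 0 0 v}

/-- the Borel subgroup -/
def Bo : Set (S.Mat R) := {g | ∃ h ∈ S.T R, ∃ u ∈ S.U R, g = h * u}

/-- lift of a simple reflection -/
def nn (i : Fin S.r) : S.Mat R := S.p R i 0 1 (-1) 0

/-- its inverse -/
def ni (i : Fin S.r) : S.Mat R := S.p R i 0 (-1) 1 0

/-- lift of a word -/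
def nw (l : List (Fin S.r)) : S.Mat R := (l.map (S.nn R)).prod

/-- permutation of the weights -/
def pw (l : List (Fin S.r)) : Fin S.n → Fin S.n := l.foldr (fun i π => S.sg i ∘ π) id

/-- reflection on signed roots, `true` is positive -/
def act (i : Fin S.r) (a : Fin S.N × Bool) : Fin S.N × Bool :=
  if a.1 = S.s i then (a.1, !a.2) else (S.rho i a.1, a.2)

/-- action of a word -/
def actw (l : List (Fin S.r)) (a : Fin S.N × Bool) : Fin S.N × Bool := l.foldr S.act a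

/-- root element of a signed root -/
def xs (a : Fin S.N × Bool) (t : R) : S.Mat R :=
  if a.2 then S.x R a.1 t else (S.x R a.1 t)ᵀ

/-- right multiplication by `i` is a step up -/
def up (π : Fin S.n → Fin S.n) (i : Fin S.r) : Prop := π (S.A i) < π (S.B i)

instance (π : Fin S.n → Fin S.n) (i : Fin S.r) : Decidable (S.up π i) :=
  inferInstanceAs (Decidable (π (S.A i) < π (S.B i)))

/-- every letter is a step up -/
def Red (l : List (Fin S.r)) : Prop := ∀ l₁ i l₂, l = l₁ ++ i :: l₂ → S.up (S.pw l₁) i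

/-- Demazure product -/
def dem (π : Fin S.n → Fin S.n) (l : List (Fin S.r)) : Fin S.n → Fin S.n :=
  l.foldl (fun π j => if S.up π j then π ∘ S.sg j else π) π

/-- the `k`-th minor does not vanish on the cell -/
def hit (k : Fin S.r) (π : Fin S.n → Fin S.n) : Prop := ∀ j, ∃ j', π (S.Cl k j) = S.Rw k j'

/-- reduced word of the longest element -/
def base : List (Fin S.r) := S.wl ++ S.mid ++ S.bl

/-- lift of the longest element -/
def n0 : S.Mat R := S.nw R S.base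

/-- lowest minors -/
def D (k : Fin S.r) (g : S.Mat R) : R := (g.submatrix (S.Rw k) (S.Cl k)).det

/-- next minors -/
def Q (k : Fin S.r) (g : S.Mat R) : R :=
  (g.submatrix (Function.update (S.Rw k) 0 (S.R1 k)) (S.Cl k)).det

/-- the normal form -/
def M (a b c d : Fin S.r → ℤ) : S.Mat ℤ :=
  ((S.wl ++ S.bk).map fun k => S.p ℤ k (a k) (b k) (c k) (d k)).prod * S.n0 ℤ

/-- roots other than the simple roots of one colour -/
def Zc (c : Bool) : Set (Fin S.N) := {a | ∀ k, S.col k = c → a ≠ S.s k}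

/-- Bruhat cell -/
def Cell (π : Fin S.n → Fin S.n) : Set (S.Mat R) :=
  {g | ∃ l, S.pw l = π ∧ ∃ b ∈ S.Bo R, ∃ b' ∈ S.Bo R, g = b * S.nw R l * b'}

/-- `(U n₀) ^ k U` -/
def Th (k : ℕ) : Set (S.Mat ℤ) := ((S.U ℤ : Set (S.Mat ℤ)) * {S.n0 ℤ}) ^ k * S.U ℤ

/-- reduction -/
def red (g : S.Mat ℤ) : S.Mat R := g.map (Int.castRingHom R)

/-- the axioms; all are finite checks on tables -/
structure Ax : Prop where
  nat_x : ∀ (R R' : Type) [CommRing R] [CommRing R'] (f : R →+* R') a t,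
    (S.x R a t).map f = S.x R' a (f t)
  nat_p : ∀ (R R' : Type) [CommRing R] [CommRing R'] (f : R →+* R') i a b c d,
    (S.p R i a b c d).map f = S.p R' i (f a) (f b) (f c) (f d)
  x_zero : ∀ (R : Type) [CommRing R] a, S.x R a 0 = 1
  x_add : ∀ (R : Type) [CommRing R] a u t, S.x R a (u + t) = S.x R a u * S.x R a t
  p_one : ∀ (R : Type) [CommRing R] i, S.p R i 1 0 0 1 = 1
  p_mul : ∀ (R : Type) [CommRing R] i a b c d a' b' c' d',
    S.p R i a b c d * S.p R i a' b' c' d' =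
      S.p R i (a * a' + b * c') (a * b' + b * d') (c * a' + d * c') (c * b' + d * d')
  p_up : ∀ (R : Type) [CommRing R] i t, S.p R i 1 t 0 1 = S.x R (S.s i) t
  p_tr : ∀ (R : Type) [CommRing R] i a b c d, (S.p R i a b c d)ᵀ = S.p R i a c b d
  p_comm : ∀ (R : Type) [CommRing R] i j, i ≠ j → S.col i = S.col j → ∀ a b c d a' b' c' d',
    S.p R i a b c d * S.p R j a' b' c' d' = S.p R j a' b' c' d' * S.p R i a b c d
  s_inj : Function.Injective S.s
  conj_x : ∀ (R : Type) [CommRing R] i a, a ≠ S.s i → ∀ u t, ∃ w ∈ S.XZ R {b | b ∈ S.ct i a},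
    S.x R (S.s i) u * S.x R a t = w * S.x R (S.s i) u
  ct_ne : ∀ i a, a ≠ S.s i → ∀ b ∈ S.ct i a, b ≠ S.s i
  conj_n : ∀ i a, a ≠ S.s i → ∃ e : ℤ, e * e = 1 ∧ ∀ (R : Type) [CommRing R] t,
    S.nn R i * S.x R a t = S.x R (S.rho i a) (e * t) * S.nn R i
  rho_ne : ∀ i a, a ≠ S.s i → S.rho i a ≠ S.s i
  rho_inj : ∀ i a b, a ≠ S.s i → b ≠ S.s i → S.rho i a = S.rho i b → a = b
  col_ct : ∀ k, ∀ a ∈ S.Zc (S.col k), (∀ b ∈ S.ct k a, b ∈ S.Zc (S.col k)) ∧
    S.rho k a ∈ S.Zc (S.col k)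
  tor_x : ∀ (R : Type) [CommRing R] i a u v, u * v = 1 → ∀ t, ∃ c,
    S.p R i u 0 0 v * S.x R a t = S.x R a c * S.p R i u 0 0 v
  tor_n : ∀ (R : Type) [CommRing R] i j u v, u * v = 1 → ∃ h ∈ S.T R,
    S.nn R j * S.p R i u 0 0 v = h * S.nn R j
  tor_diag : ∀ (R : Type) [CommRing R] i u v, (S.p R i u 0 0 v).IsDiag
  tor_C : ∀ (R : Type) [CommRing R] i k u v, u * v = 1 →
    ∏ j, S.p R i u 0 0 v (S.Cl k j) (S.Cl k j) = if i = k then u else 1
  sgn_p : ∀ k i, ∃ e : ℤ, e * e = 1 ∧ ∀ a b c d : ℤ,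
    S.p ℤ k (-1) 0 0 (-1) * S.p ℤ i a b c d = S.p ℤ i a (e * b) (e * c) d * S.p ℤ k (-1) 0 0 (-1)
  tri : ∀ (R : Type) [CommRing R] a t b c, c < b → S.x R a t b c = 0
  diag : ∀ (R : Type) [CommRing R] a t b, S.x R a t b b = 1
  mono : ∀ i c, ∃ e : ℤ, e * e = 1 ∧ ∀ b, S.nn ℤ i b c = if b = S.sg i c then e else 0
  sg_sg : ∀ i c, S.sg i (S.sg i c) = c
  AB : ∀ i, (S.B i).val = (S.A i).val + 1 ∧ S.sg i (S.A i) = S.B i
  ent_s : ∀ i, ∃ e : ℤ, e * e = 1 ∧ ∀ (R : Type) [CommRing R] t,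
    S.x R (S.s i) t (S.A i) (S.B i) = e * t
  ent_ne : ∀ (R : Type) [CommRing R] i a t, a ≠ S.s i → S.x R a t (S.A i) (S.B i) = 0
  Cl_mono : ∀ k, StrictMono (S.Cl k)
  Rw_mono : ∀ k, StrictMono (S.Rw k)
  Cl_cl : ∀ (R : Type) [CommRing R] k a t j b, (∀ j', S.Cl k j' ≠ b) → S.x R a t b (S.Cl k j) = 0
  Rw_cl : ∀ (R : Type) [CommRing R] k a t j c, (∀ j', S.Rw k j' ≠ c) → S.x R a t (S.Rw k j) c = 0
  R1_cl : ∀ (R : Type) [CommRing R] k a t c, (∀ j', S.Rw k j' ≠ c) → c ≠ S.R1 k →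
    S.x R a t (S.R1 k) c = 0
  R1_ne : ∀ k j, S.Rw k j ≠ S.R1 k
  base_red : S.Red S.base
  base_neg : ∀ b, (S.actw S.base (b, true)).2 = false
  base_surj : ∀ a, ∃ b, S.actw S.base (b, true) = (a, false)
  base_sq : S.pw (S.base ++ S.base) = id
  big : ∀ l, (∀ k, S.hit k (S.pw l)) → S.pw l = S.pw S.base
  wl_mem : ∀ k, k ∈ S.wl ↔ S.col k = true
  bk_mem : ∀ k, k ∈ S.bk ↔ S.col k = false
  wl_nodup : S.wl.Nodup
  bk_nodup : S.bk.Nodup
  bk_len : S.bk.length = S.bl.length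
  wl_act : ∀ l₁ i l₂, S.wl = l₁ ++ i :: l₂ → S.actw l₁ (S.s i, true) = (S.s i, true)
  mid_act : ∀ l₁ i l₂, S.mid = l₁ ++ i :: l₂ →
    ∃ a ∈ S.Zc true, S.actw (S.wl ++ l₁) (S.s i, true) = (a, true)
  bl_act : ∀ l₁ i l₂ k₁ k k₂, S.bl = l₁ ++ i :: l₂ → S.bk = k₁ ++ k :: k₂ →
    k₁.length = l₁.length → S.actw (S.wl ++ S.mid ++ l₁) (S.s i, true) = (S.s k, true)
  mid_drop : ∀ l₁ i l₂, S.mid = l₁ ++ i :: l₂ → ∃ k k', k ≠ k' ∧
    ∀ l, l.Sublist (S.wl ++ (l₁ ++ l₂) ++ S.bl) → ¬ S.hit k (S.pw l) ∧ ¬ S.hit k' (S.pw l)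
  st_st : ∀ k, S.st (S.st k) = k
  nu_st : ∀ k, S.nu k (S.st k) = 0
  DQ : ∀ k, ∃ e e' : ℤ, e * e = 1 ∧ e' * e' = 1 ∧ ∀ a b c d : Fin S.r → ℤ,
    (∀ j, a j * d j - b j * c j = 1) → S.D ℤ k (S.M a b c d) = e * d (S.st k) ∧
      S.Q ℤ k (S.M a b c d) = e' * b (S.st k) * ∏ j, d j ^ S.nu k j

/-- the letters of `X` can be spent on an element of the rational cell `π` -/
def CopOK (K : Set (Fin S.r)) (π : Fin S.n → Fin S.n) (i : Fin S.r) (X : List (Fin S.r)) : Prop :=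
  i ∈ K ∧ S.Red (i :: X) ∧ S.pw (i :: X) = S.pw S.base ∧
  (∀ k, S.hit k (S.dem π X.reverse)) ∧
  (∀ l k, k ≠ i → S.hit k (S.dem (S.pw l) X.reverse)) ∧
  ∀ l₁ j l₂, X.reverse = l₁ ++ j :: l₂ → ¬ S.up (S.dem π l₁) j →
    ∃ k₀ ∈ K, ∀ k, k ≠ k₀ → S.hit k (S.dem (S.dem π l₁ ∘ S.sg j) l₂)

/-- every cell but the smallest is covered, directly or after inversion -/
def CopAx (K : Fin S.r → Set (Fin S.r)) : Prop :=
  ∀ l, S.pw l = id ∨ ∃ i X, S.CopOK (K i) (S.pw l) i X ∨ S.CopOK (K i) (S.pw l.reverse) i X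

/-- the smallest cell -/
def CoreE : Prop := (S.T ℤ : Set (S.Mat ℤ)) ⊆ S.Th 3

/-- admissible values of the lowest minors -/
def Adm (K : Set (Fin S.r)) (d : Fin S.r → ℤ) : Prop :=
  (∀ k, d k ≠ 0) ∧ (∀ k k', k ≠ k' → IsCoprime (d k) (d k')) ∧ ∀ k, k ∉ K → d k * d k = 1

/-- the arithmetic core -/
def Core (L : ℕ) (i : Fin S.r) (K : Set (Fin S.r)) : Prop :=
  ∀ d q : Fin S.r → ℤ, S.Adm K d → (∀ k, IsCoprime (q k) (d k)) →
    ∃ g ∈ S.Th (2 * L - 2) * {S.nn ℤ i}, ∀ k, S.D ℤ k g = d k ∧ d k ∣ S.Q ℤ k g - q k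

end Sys

end Pool.Agent.Lib.MP_755cca_al.F
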