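import Pool.Agent.Lib.MP_755cca_al.F.Tab
import Pool.Agent.Lib.MP_755cca_al.F.Tr0
import Pool.Agent.Lib.MP_755cca_al.F.Car

/-! Transfer of the upper bounds for the tables of types `B₃` and `G₂`. -/

open Matrix
open scoped Pointwise

namespace Pool.Agent.Lib.MP_755cca_al.F

namespace TC

open Tr0 Car

theorem gen {R : Type} [Ring R] (d : Dat) {m : ℕ} {ι : Fin m → Fin (d.n + 1)}
    (hι : Function.Injective ι) (hk : Keep d ι) (Φ : Matrix (Fin m) (Fin m) ℤ →+* R)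
    (N N' M M' : Fin (d.N + 1) → Matrix (Fin m) (Fin m) ℤ) (σ : Fin (d.N + 1) → ℤ)
    (hp : ∀ a, Pat d ι a (N a) (N' a))
    (hσ : ∀ a, σ a * σ a = 1 ∧ (N a)ᵀ = σ a • M a ∧ (N' a)ᵀ = M' a) {p n : Set R}
    (ep : ∀ g, g ∈ p ↔ ∃ a, ∃ t : ℤ, g = 1 + t • Φ (N a) + t ^ 2 • Φ (N' a))
    (en : ∀ g, g ∈ n ↔ ∃ a, ∃ t : ℤ, g = 1 + t • Φ (M a) + t ^ 2 • Φ (M' a)) {L : ℕ}
    (h : Up (d.toSys.pos ℤ) (transpose '' d.toSys.pos ℤ) L) : Up p n L := by
  have e1 : ∀ a t, Φ ((d.toSys.x ℤ a t).submatrix ι ι)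
      = 1 + t • Φ (N a) + t ^ 2 • Φ (N' a) := fun a t => by
    rw [Pat.eq hk (hp a), map_add, map_add, map_one, map_zsmul, map_zsmul]
  have e2 : ∀ a t, Φ ((d.toSys.x ℤ a t)ᵀ.submatrix ι ι)
      = 1 + (t * σ a) • Φ (M a) + (t * σ a) ^ 2 • Φ (M' a) := fun a t => by
    have : (t * σ a) ^ 2 = t ^ 2 := by linear_combination t ^ 2 * (hσ a).1
    rw [← transpose_submatrix, Pat.eq hk (hp a), transpose_add, transpose_add, transpose_one,
      transpose_smul, transpose_smul, (hσ a).2.1, (hσ a).2.2, smul_smul, this, map_add, map_add,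
      map_one, map_zsmul, map_zsmul]
  refine up_block_hom hι Φ.toMonoidHom ?_ ?_ ?_ h
  · rintro _ ⟨a, t, rfl⟩
    exact ⟨(hk.blk a t).1, Submonoid.subset_closure ((ep _).2 ⟨a, t, e1 a t⟩)⟩
  · rintro _ ⟨_, ⟨a, t, rfl⟩, rfl⟩
    exact ⟨(hk.blk a t).2, Submonoid.subset_closure ((en _).2 ⟨a, _, e2 a t⟩)⟩
  · rintro g (hg | hg)
    · obtain ⟨a, t, rfl⟩ := (ep g).1 hg
      exact ⟨_, Or.inl ⟨a, t, rfl⟩, e1 a t⟩
    · obtain ⟨a, t, rfl⟩ := (en g).1 hg
      refine ⟨_, Or.inr ⟨_, ⟨a, t * σ a, rfl⟩, rfl⟩, (e2 a _).trans ?_⟩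
      rw [mul_assoc, (hσ a).1, mul_one]

/-- the order of the basis -/
def i3 : Fin 8 → List (Fin 3) := ![[0, 1, 2], [0, 1], [0, 2], [0], [1, 2], [1], [2], []]

/-- creation matrices -/
def E (i : Fin 3) : Matrix (Fin 8) (Fin 8) ℤ := JW i3 i

/-- annihilation matrices -/
def F (i : Fin 3) : Matrix (Fin 8) (Fin 8) ℤ := (JW i3 i)ᵀ

theorem hom3 {R : Type} [Ring R] {e f : Fin 3 → R} (h : CAR e f) :
    ∃ Φ : Matrix (Fin 8) (Fin 8) ℤ →+* R, (∀ i, Φ (E i) = e i) ∧ ∀ i, Φ (F i) = f i := by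
  obtain ⟨Φ, hΦ⟩ := exists_hom h i3 (by decide +kernel) (by decide +kernel)
  exact ⟨Φ, fun i => (hΦ i).1, fun i => (hΦ i).2⟩

section Roots

variable {R : Type} [Ring R]

/-- root vectors of type `B₃` -/
def gB (e f : Fin 3 → R) : Fin 9 → R :=
  ![e 0 * f 1, e 1 * f 2, e 2, e 0 * f 2, e 1, e 0, e 1 * e 2, e 0 * e 2, e 0 * e 1]

theorem mem_B (e f : Fin 3 → R) (g : R) :
    g ∈ rootsB e f ↔ ∃ a, ∃ t : ℤ, g = 1 + t • gB e f a := by
  constructor
  · rintro (⟨i, j, t, hij, rfl | rfl⟩ | ⟨i, t, rfl⟩)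
    · fin_cases i <;> fin_cases j <;> first
        | exact absurd hij (by decide)
        | exact ⟨0, t, rfl⟩
        | exact ⟨1, t, rfl⟩
        | exact ⟨3, t, rfl⟩
    · fin_cases i <;> fin_cases j <;> first
        | exact absurd hij (by decide)
        | exact ⟨6, t, rfl⟩
        | exact ⟨7, t, rfl⟩
        | exact ⟨8, t, rfl⟩
    · fin_cases i
      · exact ⟨5, t, rfl⟩
      · exact ⟨4, t, rfl⟩
      · exact ⟨2, t, rfl⟩
  · rintro ⟨a, t, rfl⟩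
    fin_cases a
    · exact Or.inl ⟨0, 1, t, by decide, Or.inl rfl⟩
    · exact Or.inl ⟨1, 2, t, by decide, Or.inl rfl⟩
    · exact Or.inr ⟨2, t, rfl⟩
    · exact Or.inl ⟨0, 2, t, by decide, Or.inl rfl⟩
    · exact Or.inr ⟨1, t, rfl⟩
    · exact Or.inr ⟨0, t, rfl⟩
    · exact Or.inl ⟨1, 2, t, by decide, Or.inr rfl⟩
    · exact Or.inl ⟨0, 2, t, by decide, Or.inr rfl⟩
    · exact Or.inl ⟨0, 1, t, by decide, Or.inr rfl⟩

theorem map_gB {R' : Type} [Ring R'] (Φ : R →+* R') {e f : Fin 3 → R} {e' f' : Fin 3 → R'}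
    (he : ∀ i, Φ (e i) = e' i) (hf : ∀ i, Φ (f i) = f' i) (a : Fin 9) :
    Φ (gB e f a) = gB e' f' a := by
  fin_cases a <;> simp [gB, he, hf]

/-- first parts of the root vectors of type `G₂` -/
def gU (e f : Fin 3 → R) : Fin 6 → R := ![e 2, e 1 * f 2, e 1, e 0, e 0 * e 2, e 0 * e 1]

/-- second parts -/
def gW (e f : Fin 3 → R) : Fin 6 → R := ![-(e 0 * f 1), 0, e 0 * f 2, e 1 * e 2, 0, 0]

theorem expand (x y : R) (s t : ℤ) :
    (1 + t • x) * (1 + (s * t) • y) = 1 + t • (x + s • y) + t ^ 2 • (s • (x * y)) := by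
  rw [add_mul, one_mul, mul_add, mul_one, smul_mul_smul_comm, smul_add, smul_smul, smul_smul,
    show t * (s * t) = t ^ 2 * s by ring, mul_comm t s]
  abel

theorem mem_G (s : ℤ) (e f : Fin 3 → R) (g : R) :
    g ∈ rootsG s e f ↔ ∃ a, ∃ t : ℤ,
      g = 1 + t • (gU e f a + s • gW e f a) + t ^ 2 • (s • (gU e f a * gW e f a)) := by
  simp only [← expand]
  constructor
  · rintro ⟨t, rfl | rfl | rfl | rfl | rfl | rfl⟩
    · exact ⟨5, t, by simp [gU, gW]⟩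
    · exact ⟨4, t, by simp [gU, gW]⟩
    · exact ⟨1, t, by simp [gU, gW]⟩
    · exact ⟨3, t, rfl⟩
    · exact ⟨2, t, rfl⟩
    · exact ⟨0, t, by rw [sub_eq_add_neg, ← smul_neg]; rfl⟩
  · rintro ⟨a, t, rfl⟩
    refine ⟨t, ?_⟩
    fin_cases a
    · exact .inr (.inr (.inr (.inr (.inr (by rw [sub_eq_add_neg, ← smul_neg]; rfl)))))
    · exact .inr (.inr (.inl (by simp [gU, gW])))
    · exact .inr (.inr (.inr (.inr (.inl rfl))))
    · exact .inr (.inr (.inr (.inl rfl)))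
    · exact .inr (.inl (by simp [gU, gW]))
    · exact .inl (by simp [gU, gW])

theorem map_gU {R' : Type} [Ring R'] (Φ : R →+* R') {e f : Fin 3 → R} {e' f' : Fin 3 → R'}
    (he : ∀ i, Φ (e i) = e' i) (hf : ∀ i, Φ (f i) = f' i) (a : Fin 6) :
    Φ (gU e f a) = gU e' f' a ∧ Φ (gW e f a) = gW e' f' a := by
  fin_cases a <;> simp [gU, gW, he, hf]

end Roots

/-- the first block -/
def blkB : Fin 8 → Fin (datB3.n + 1) := Fin.castLE (by decide)

/-- the whole matrix -/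
def blkG : Fin 8 → Fin (datG2.n + 1) := Fin.castLE (by decide)

/-- signs -/
def sB : Fin 9 → ℤ := ![-1, -1, 1, -1, 1, 1, -1, -1, -1]

/-- signs -/
def sG : Fin 6 → ℤ := ![1, -1, 1, 1, -1, -1]

theorem keepB : Keep datB3 blkB := by decide +kernel

theorem patB : ∀ a : Fin 9, Pat datB3 blkB a (gB E F a) 0 := by decide +kernel

theorem sgnB : ∀ a : Fin 9, sB a * sB a = 1 ∧ (gB E F a)ᵀ = sB a • gB F E a := by
  decide +kernel

theorem keepG : Keep datG2 blkG := by decide +kernel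

theorem patG : ∀ a : Fin 6, Pat datG2 blkG a
    (gU E F a + (1 : ℤ) • gW E F a) ((1 : ℤ) • (gU E F a * gW E F a)) := by decide +kernel

theorem sgnG : ∀ a : Fin 6, sG a * sG a = 1 ∧
    (gU E F a + (1 : ℤ) • gW E F a)ᵀ = sG a • (gU F E a + (-1 : ℤ) • gW F E a) ∧
    ((1 : ℤ) • (gU E F a * gW E F a))ᵀ = (-1 : ℤ) • (gU F E a * gW F E a) := by decide +kernel

end TC

open TC

/-- transfer for the table of type `B₃` -/
theorem trB3 (h : Up (datB3.toSys.pos ℤ) (transpose '' datB3.toSys.pos ℤ) 2) : UpB 3 := by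
  intro R _ e f hc
  obtain ⟨Φ, he, hf⟩ := hom3 hc
  refine gen datB3 (Fin.castLE_injective _) keepB Φ (gB E F) (fun _ => 0) (gB F E) (fun _ => 0)
    sB patB (fun a => ⟨(sgnB a).1, (sgnB a).2, transpose_zero⟩) (fun g => ?_) (fun g => ?_) h
  · simp only [mem_B, map_zero, smul_zero, add_zero]
    exact exists_congr fun a => by rw [map_gB Φ he hf]
  · simp only [mem_B, map_zero, smul_zero, add_zero]
    exact exists_congr fun a => by rw [map_gB Φ hf he]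

/-- transfer for the table of type `G₂` -/
theorem trG2 (h : Up (datG2.toSys.pos ℤ) (transpose '' datG2.toSys.pos ℤ) 2) : UpG := by
  intro R _ e f hc
  obtain ⟨Φ, he, hf⟩ := hom3 hc
  refine gen datG2 (m := 8) (Fin.castLE_injective _) keepG Φ _ _ _ _ sG patG sgnG (fun g => ?_)
    (fun g => ?_) h
  · rw [mem_G]
    exact exists_congr fun a => by
      rw [map_add, map_zsmul, map_zsmul, map_mul, (map_gU Φ he hf a).1, (map_gU Φ he hf a).2]
  · rw [mem_G]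
    exact exists_congr fun a => by
      rw [map_add, map_zsmul, map_zsmul, map_mul, (map_gU Φ hf he a).1, (map_gU Φ hf he a).2]

end Pool.Agent.Lib.MP_755cca_al.F
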